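import Mathlib

/-!
# FT-AuxA: a number field with a root of unity and a radical

The Galois closure `M ⊆ ℂ` of `ℚ(ζ, a)`, `ζ` a primitive `n`-th root of unity and `a` the positive real
number with `a ^ (l ^ 2) = p`. If all automorphisms which fix `ζ` would fix `a`, then all conjugates of
`a` would be real (complex conjugation commutes with all automorphisms on `ℚ(ζ)`), so `a ^ 2` would be
rational, which contradicts the `p`-adic valuation.
-/

set_option autoImplicit false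

namespace Pool.Agent.FT

open Polynomial in
private theorem auxA_fix (M : IntermediateField ℚ ℂ) [FiniteDimensional ℚ M] [IsGalois ℚ M]
    {ζ a : M} {n : ℕ} [NeZero n] (hζ : IsPrimitiveRoot ζ n) {l p : ℕ} (hl : 2 ≤ l)
    (hp : p.Prime) {α : ℝ} (hα : 0 < α) (ha : (a : ℂ) = (α : ℂ)) (hα2 : α ^ (l ^ 2) = (p : ℝ)) :
    ¬ (∀ ρ : M ≃ₐ[ℚ] M, ρ ζ = ζ → ρ a = a) := by
  intro H
  have hl2 : l ^ 2 ≠ 0 := by positivity
  have hap : a ^ (l ^ 2) = (p : M) := by
    apply Subtype.ext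
    push_cast
    rw [ha]
    exact_mod_cast congrArg (fun t : ℝ => (t : ℂ)) hα2
  set c : M ≃ₐ[ℚ] M := (Complex.conjAe.restrictScalars ℚ).restrictNormal M with hcdef
  have hc : ∀ x : M, ((c x : M) : ℂ) = (starRingEnd ℂ) (x : ℂ) := by
    intro x
    exact AlgEquiv.restrictNormal_commutes (Complex.conjAe.restrictScalars ℚ) M x
  have hca : c a = a := by
    apply Subtype.ext
    rw [hc, ha, Complex.conj_ofReal]
  have hfix : ∀ σ : M ≃ₐ[ℚ] M, c (σ a) = σ a := by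
    intro σ
    obtain ⟨i, _, hi⟩ := hζ.eq_pow_of_pow_eq_one (ξ := σ ζ)
      (by rw [← map_pow, hζ.pow_eq_one, map_one])
    obtain ⟨j, _, hj⟩ := hζ.eq_pow_of_pow_eq_one (ξ := c ζ)
      (by rw [← map_pow, hζ.pow_eq_one, map_one])
    have h1 : c (σ ζ) = σ (c ζ) := by
      rw [← hi, ← hj, map_pow, map_pow, ← hi, ← hj, ← pow_mul, ← pow_mul, mul_comm]
    have h2 := H ((σ.trans c).trans (c.trans σ).symm) (by
      rw [AlgEquiv.trans_apply, AlgEquiv.symm_apply_eq, AlgEquiv.trans_apply, AlgEquiv.trans_apply]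
      exact h1)
    rw [AlgEquiv.trans_apply, AlgEquiv.symm_apply_eq, AlgEquiv.trans_apply,
      AlgEquiv.trans_apply, hca] at h2
    exact h2
  have hsq : ∀ σ : M ≃ₐ[ℚ] M, σ (a ^ 2) = a ^ 2 := by
    intro σ
    have h1 : (starRingEnd ℂ) ((σ a : M) : ℂ) = ((σ a : M) : ℂ) := by
      rw [← hc, hfix σ]
    obtain ⟨r, hr⟩ := Complex.conj_eq_iff_real.1 h1
    have h2 : (σ a) ^ (l ^ 2) = (p : M) := by
      rw [← map_pow, hap, map_natCast]
    have h3 : ((σ a : M) : ℂ) ^ (l ^ 2) = (p : ℂ) := by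
      have := congrArg (fun t : M => (t : ℂ)) h2
      simpa using this
    rw [hr] at h3
    have h4 : r ^ (l ^ 2) = (p : ℝ) := by exact_mod_cast h3
    have h5 : |r| ^ (l ^ 2) = α ^ (l ^ 2) := by
      rw [← abs_pow, h4, hα2]
      exact abs_of_nonneg (Nat.cast_nonneg p)
    have h6 : |r| = α := (pow_left_inj₀ (abs_nonneg r) hα.le hl2).1 h5
    have h7 : r ^ 2 = α ^ 2 := by rw [← h6, sq_abs]
    rw [map_pow]
    apply Subtype.ext
    push_cast
    rw [hr, ha]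
    exact_mod_cast congrArg (fun t : ℝ => (t : ℂ)) h7
  obtain ⟨q, hq⟩ := IntermediateField.mem_bot.1 ((IsGalois.mem_bot_iff_fixed (a ^ 2)).2 hsq)
  have hqp : q ^ (l ^ 2) = (p : ℚ) ^ 2 := by
    apply (algebraMap ℚ M).injective
    rw [map_pow, map_pow, hq, map_natCast, ← pow_mul, mul_comm, pow_mul, hap]
  have : Fact p.Prime := ⟨hp⟩
  have hv := congrArg (padicValRat p) hqp
  rw [padicValRat.pow, padicValRat.pow, padicValRat.self hp.one_lt, mul_one] at hv
  have hdvd : ((l ^ 2 : ℕ) : ℤ) ∣ ((2 : ℕ) : ℤ) := ⟨padicValRat p q, hv.symm⟩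
  have hle := Nat.le_of_dvd (by norm_num) (Int.natCast_dvd_natCast.1 hdvd)
  nlinarith

/-- There is a number field, Galois over `ℚ`, with a primitive `n`-th root of unity `ζ`, a root `a`
of order `l ^ 2` of the prime `p`, and an automorphism which maps `ζ` to `ζ ^ u` and moves `a`. -/
theorem exists_field (l p : ℕ) (hl : l.Prime) (hp : p.Prime) (n : ℕ) [NeZero n] (hn : l ^ 2 ∣ n)
    (u : (ZMod n)ˣ) :
    ∃ (M : Type) (_ : Field M) (_ : NumberField M) (_ : IsGalois ℚ M) (ζ a : M)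
      (τ : M ≃ₐ[ℚ] M), IsPrimitiveRoot ζ n ∧ a ^ (l ^ 2) = (p : M) ∧
        τ ζ = ζ ^ (u : ZMod n).val ∧ τ a ≠ a := by
  classical
  have hn0 : n ≠ 0 := NeZero.ne n
  have hl2 : l ^ 2 ≠ 0 := pow_ne_zero _ hl.ne_zero
  set f : Polynomial ℚ := (Polynomial.X ^ n - Polynomial.C 1) *
    (Polynomial.X ^ (l ^ 2) - Polynomial.C (p : ℚ)) with hf
  have hf0 : f ≠ 0 := mul_ne_zero (Polynomial.X_pow_sub_C_ne_zero (Nat.pos_of_ne_zero hn0) _)
    (Polynomial.X_pow_sub_C_ne_zero (Nat.pos_of_ne_zero hl2) _)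
  set M := IntermediateField.adjoin ℚ (f.rootSet ℂ) with hM
  have hsf : Polynomial.IsSplittingField ℚ M f :=
    IntermediateField.adjoin_rootSet_isSplittingField (IsAlgClosed.splits _)
  have hfd : FiniteDimensional ℚ M := Polynomial.IsSplittingField.finiteDimensional M f
  have hnor : Normal ℚ M := Normal.of_isSplittingField f
  have hgal : IsGalois ℚ M := { }
  have hz : Complex.exp (2 * Real.pi * Complex.I / n) ∈ M := by
    apply IntermediateField.subset_adjoin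
    rw [Polynomial.mem_rootSet]
    refine ⟨hf0, ?_⟩
    have h1 := (Complex.isPrimitiveRoot_exp n hn0).pow_eq_one
    rw [hf, map_mul, map_sub, map_pow, Polynomial.aeval_X, Polynomial.aeval_C, map_one, h1, sub_self,
      zero_mul]
  have hp0 : (0 : ℝ) ≤ (p : ℝ) := Nat.cast_nonneg p
  obtain ⟨α, hα, hα2⟩ : ∃ α : ℝ, 0 < α ∧ α ^ (l ^ 2) = (p : ℝ) := by
    refine ⟨(p : ℝ) ^ (((l ^ 2 : ℕ) : ℝ)⁻¹), ?_, Real.rpow_inv_natCast_pow hp0 hl2⟩
    exact Real.rpow_pos_of_pos (by exact_mod_cast hp.pos) _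
  have haM : (α : ℂ) ∈ M := by
    apply IntermediateField.subset_adjoin
    rw [Polynomial.mem_rootSet]
    refine ⟨hf0, ?_⟩
    have h1 : (α : ℂ) ^ (l ^ 2) = (p : ℂ) := by
      exact_mod_cast congrArg (fun t : ℝ => (t : ℂ)) hα2
    rw [hf, map_mul, map_sub, map_sub, map_pow, map_pow, Polynomial.aeval_X, Polynomial.aeval_C,
      Polynomial.aeval_C, h1, map_natCast, sub_self, mul_zero]
  set ζ : M := ⟨Complex.exp (2 * Real.pi * Complex.I / n), hz⟩ with hζ
  set a : M := ⟨(α : ℂ), haM⟩ with ha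
  have hprim : IsPrimitiveRoot ζ n := by
    have h1 := Complex.isPrimitiveRoot_exp n hn0
    have h2 : IsPrimitiveRoot (M.val ζ) n := h1
    exact IsPrimitiveRoot.of_map_of_injective h2 M.val.injective
  have hap : a ^ (l ^ 2) = (p : M) := by
    apply Subtype.ext
    have h1 : ((a ^ (l ^ 2) : M) : ℂ) = (α : ℂ) ^ (l ^ 2) := rfl
    have h2 : (α : ℂ) ^ (l ^ 2) = (p : ℂ) := by
      exact_mod_cast congrArg (fun t : ℝ => (t : ℂ)) hα2
    rw [h1, h2]
    simp
  have hexρ : ∃ ρ : M ≃ₐ[ℚ] M, ρ ζ = ζ ∧ ρ a ≠ a := by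
    by_contra hcon
    push Not at hcon
    exact auxA_fix M hprim hl.two_le hp hα rfl hα2 hcon
  obtain ⟨ρ, hρ1, hρ2⟩ := hexρ
  have hcop : Nat.Coprime (u : ZMod n).val n := ZMod.val_coe_unit_coprime u
  have hprim2 : IsPrimitiveRoot (ζ ^ (u : ZMod n).val) n := hprim.pow_of_coprime _ hcop
  have hconj : IsConjRoot ℚ (ζ ^ (u : ZMod n).val) ζ := by
    show minpoly ℚ (ζ ^ (u : ZMod n).val) = minpoly ℚ ζ
    rw [← Polynomial.cyclotomic_eq_minpoly_rat hprim2 (Nat.pos_of_ne_zero hn0),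
      ← Polynomial.cyclotomic_eq_minpoly_rat hprim (Nat.pos_of_ne_zero hn0)]
  obtain ⟨τ, hτ⟩ := isConjRoot_iff_exists_algEquiv.1 hconj
  have hnf : NumberField M := { }
  refine ⟨M, inferInstance, hnf, hgal, ζ, a, ?_⟩
  by_cases h : τ a = a
  · refine ⟨ρ.trans τ, hprim, hap, ?_, ?_⟩
    · rw [AlgEquiv.trans_apply, hρ1, hτ]
    · rw [AlgEquiv.trans_apply]
      intro h2
      apply hρ2
      apply τ.injective
      rw [h2, h]
  · exact ⟨τ, hprim, hap, hτ, h⟩

end Pool.Agent.FT
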