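import Pool.Agent.SNP.B.Gen
import Pool.Agent.FT.AuxA

/-!
# FT-AuxP: auxiliary primes (Frobenius density)

`exists_aux`: a prime `k = 1` modulo `l ^ E` which generates the group of `g` modulo `m'`, with the
order of `p` modulo `k` divisible by `l ^ E`. The Frobenius at `k` generates the cyclic group of an
automorphism of a field containing `ζ_n` and the `l ^ 2`-th root of `p` which moves that root.
-/

set_option autoImplicit false

namespace Pool.Agent.FT

open NumberField Polynomial Pool.Agent.SNP.B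

private theorem auxP_modEq {R : Type} [CommRing R] {z : R} {n : ℕ} (hz : IsPrimitiveRoot z n)
    (hn : n ≠ 0) {a b : ℕ} : z ^ a = z ^ b ↔ a ≡ b [MOD n] := by
  obtain ⟨v, rfl⟩ := hz.isUnit hn
  rw [IsPrimitiveRoot.coe_units_iff] at hz
  rw [← Units.val_pow_eq_pow_val, ← Units.val_pow_eq_pow_val, Units.val_inj,
    pow_eq_pow_iff_modEq, ← hz.eq_orderOf]

private theorem auxP_crt (N m' : ℕ) [NeZero m'] [NeZero (N * m')] (h : N.Coprime m')
    (g : (ZMod m')ˣ) : ∃ u : (ZMod (N * m'))ˣ,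
      (((u : ZMod (N * m')).val : ℕ) : ZMod N) = 1 ∧
      (((u : ZMod (N * m')).val : ℕ) : ZMod m') = g := by
  set e := ZMod.chineseRemainder h with he
  refine ⟨Units.map e.symm.toRingHom.toMonoidHom (MulEquiv.prodUnits.symm (1, g)), ?_⟩
  set u := Units.map e.symm.toRingHom.toMonoidHom (MulEquiv.prodUnits.symm (1, g)) with hu
  have h1 : e (u : ZMod (N * m')) = (1, (g : ZMod m')) := by
    rw [hu]
    exact e.apply_symm_apply _
  have h2 : e (u : ZMod (N * m')) =
      ((((u : ZMod (N * m')).val : ℕ) : ZMod N), (((u : ZMod (N * m')).val : ℕ) : ZMod m')) := by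
    conv_lhs => rw [← ZMod.natCast_zmod_val (u : ZMod (N * m'))]
    rw [map_natCast]
    rfl
  rw [h2] at h1
  exact ⟨congrArg Prod.fst h1, congrArg Prod.snd h1⟩

/-- the arithmetic at the end -/
private theorem auxP_ord {l E k t : ℕ} (hl : l.Prime) [Fact k.Prime] {P : ZMod k}
    (hP : P ≠ 0) (hk : k - 1 = l ^ 2 * (l ^ E * t)) (hne : P ^ (l ^ E * t) ≠ 1) :
    l ^ E ∣ orderOf P := by
  have h1 : P ^ (k - 1) = 1 := ZMod.pow_card_sub_one_eq_one hP
  have h2 : orderOf P ∣ k - 1 := orderOf_dvd_of_pow_eq_one h1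
  have hk1 : 0 < k - 1 := by
    have := (Fact.out : k.Prime).two_le
    omega
  have ho : orderOf P ≠ 0 := by
    intro h0
    rw [h0] at h2
    have := Nat.eq_zero_of_zero_dvd h2
    omega
  obtain ⟨b, o', hlo, hob⟩ := Nat.exists_eq_pow_mul_and_not_dvd ho l hl.ne_one
  by_cases hb : E ≤ b
  · rw [hob]
    exact (pow_dvd_pow l hb).trans (dvd_mul_right _ _)
  · exfalso
    apply hne
    rw [← orderOf_dvd_iff_pow_eq_one, hob]
    have hcop : Nat.Coprime o' l := ((hl.coprime_iff_not_dvd).2 hlo).symm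
    have h3 : o' ∣ l ^ (E + 2) * t := by
      have : o' ∣ k - 1 := (Dvd.intro_left _ hob.symm).trans h2
      rw [hk] at this
      have e1 : l ^ 2 * (l ^ E * t) = l ^ (E + 2) * t := by ring
      rwa [e1] at this
    have h4 : o' ∣ t := (hcop.pow_right (E + 2)).dvd_of_dvd_mul_left h3
    exact mul_dvd_mul (pow_dvd_pow l (by omega)) h4

/-- There is a prime `k`, congruent to `1` modulo `l ^ E`, which generates the same group as `g`
modulo `m'`, such that the order of `p` modulo `k` is divisible by `l ^ E`. -/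
theorem exists_aux (l p : ℕ) (hl : l.Prime) (hp : p.Prime) (E m' : ℕ) [NeZero m']
    (hlm : l.Coprime m') (g : (ZMod m')ˣ) (B : ℕ) :
    ∃ k : ℕ, k.Prime ∧ B < k ∧ (k : ZMod (l ^ E)) = 1 ∧ (∃ i : ℕ, (k : ZMod m') = (g : ZMod m') ^ i) ∧
      (∃ i : ℕ, (k : ZMod m') ^ i = g) ∧ l ^ E ∣ orderOf (p : ZMod k) := by
  have hN0 : l ^ (E + 2) ≠ 0 := pow_ne_zero _ hl.ne_zero
  have hm0 : m' ≠ 0 := NeZero.ne m'
  set N : ℕ := l ^ (E + 2) with hN
  set n : ℕ := N * m' with hn
  have hn0 : n ≠ 0 := mul_ne_zero hN0 hm0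
  have : NeZero n := ⟨hn0⟩
  have hl2N : l ^ 2 ∣ N := pow_dvd_pow l (by omega)
  have hl2n : l ^ 2 ∣ n := hl2N.trans (dvd_mul_right _ _)
  obtain ⟨u, hu1, hu2⟩ := auxP_crt N m' (hlm.pow_left _) g
  set r : ℕ := (u : ZMod n).val with hr
  obtain ⟨M, iF, iN, iG, ζ, a, τ, hζ, ha, hτζ, hτa⟩ := exists_field l p hl hp n hl2n u
  -- the root of unity `η = τ a / a`
  have hp0 : (p : M) ≠ 0 := by exact_mod_cast hp.ne_zero
  have ha0 : a ≠ 0 := by
    intro h
    rw [h, zero_pow (pow_ne_zero 2 hl.ne_zero)] at ha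
    exact hp0 ha.symm
  set η : M := τ a / a with hη
  have hηa : τ a = η * a := by
    rw [hη, div_mul_cancel₀ _ ha0]
  have hη1 : η ^ (l ^ 2) = 1 := by
    have h1 : (τ a) ^ (l ^ 2) = (p : M) := by
      rw [← map_pow, ha, map_natCast]
    rw [hη, div_pow, h1, ha, div_self hp0]
  have hμ : IsPrimitiveRoot (ζ ^ (n / l ^ 2)) (l ^ 2) := by
    refine hζ.pow (Nat.pos_of_ne_zero hn0) ?_
    rw [Nat.div_mul_cancel hl2n]
  have : NeZero (l ^ 2) := ⟨pow_ne_zero 2 hl.ne_zero⟩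
  have hτη : τ η = η := by
    obtain ⟨j, -, hj⟩ := hμ.eq_pow_of_pow_eq_one hη1
    have h1 : τ (ζ ^ (n / l ^ 2)) = ζ ^ (n / l ^ 2) := by
      rw [map_pow, hτζ, ← pow_mul, mul_comm, pow_mul]
      have h2 : r ≡ 1 [MOD l ^ 2] := by
        have h3 : r ≡ 1 [MOD N] := by
          rw [← ZMod.natCast_eq_natCast_iff, hu1, Nat.cast_one]
        exact h3.of_dvd hl2N
      have h4 : (ζ ^ (n / l ^ 2)) ^ r = (ζ ^ (n / l ^ 2)) ^ 1 := by
        exact (auxP_modEq hμ (pow_ne_zero 2 hl.ne_zero)).2 h2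
      rw [h4, pow_one]
    rw [← hj, map_pow, h1]
  have hτia : ∀ i : ℕ, (τ ^ i) a = η ^ i * a := by
    intro i
    induction i with
    | zero => simp
    | succ i ih =>
      rw [pow_succ', AlgEquiv.mul_apply, ih, map_mul, map_pow, hτη, hηa]
      ring
  have hτiζ : ∀ i : ℕ, (τ ^ i) ζ = ζ ^ (r ^ i) := by
    intro i
    induction i with
    | zero => simp
    | succ i ih =>
      rw [pow_succ', AlgEquiv.mul_apply, ih, map_pow, hτζ, ← pow_mul]
      congr 1
      ring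
  -- the fixed field of `τ`
  set K : IntermediateField ℚ M := IntermediateField.fixedField (Subgroup.zpowers τ) with hK
  have hfix : K.fixingSubgroup = Subgroup.zpowers τ :=
    IntermediateField.fixingSubgroup_fixedField _
  have hτmem : τ ∈ K.fixingSubgroup := by
    rw [hfix]
    exact Subgroup.mem_zpowers τ
  set σ : M ≃ₐ[K] M := IntermediateField.fixingSubgroupEquiv K ⟨τ, hτmem⟩ with hσ
  have hσa : ∀ y, σ y = τ y := fun y => rfl
  have hres : ∀ h : M ≃ₐ[K] M, h.restrictScalars ℚ ∈ Subgroup.zpowers τ := by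
    intro h
    rw [← hfix, IntermediateField.mem_fixingSubgroup_iff]
    intro y hy
    exact h.commutes ⟨y, hy⟩
  have hpowN : ∀ h : M ≃ₐ[K] M, ∃ i : ℕ, ∀ y, h y = (τ ^ i) y := by
    intro h
    have h1 := hres h
    rw [← mem_powers_iff_mem_zpowers, Submonoid.mem_powers_iff] at h1
    obtain ⟨i, hi⟩ := h1
    refine ⟨i, fun y => ?_⟩
    rw [hi]
    rfl
  have hσgen : ∀ h : M ≃ₐ[K] M, h ∈ Subgroup.zpowers σ := by
    intro h
    obtain ⟨i, hi⟩ := hpowN h
    rw [← mem_powers_iff_mem_zpowers, Submonoid.mem_powers_iff]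
    refine ⟨i, ?_⟩
    have h2 : ∀ (i : ℕ) y, (σ ^ i) y = (τ ^ i) y := by
      intro i
      induction i with
      | zero => intro y; simp
      | succ i ih =>
        intro y
        rw [pow_succ', pow_succ', AlgEquiv.mul_apply, AlgEquiv.mul_apply, ih, hσa]
    apply AlgEquiv.ext
    intro y
    rw [h2, hi]
  obtain ⟨k, hkf, hkP, x, c, hc, hx⟩ := exists_gen K M σ hσgen (B + n + p + l)
  have hkp : k.Prime := hkf.out
  obtain ⟨i, hi⟩ := hpowN c
  obtain ⟨i', hi'⟩ : ∃ i' : ℕ, ∀ y, τ y = (c ^ i') y := by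
    have h1 := hc σ
    rw [← mem_powers_iff_mem_zpowers, Submonoid.mem_powers_iff] at h1
    obtain ⟨i', h2⟩ := h1
    refine ⟨i', fun y => ?_⟩
    rw [h2, hσa]
  have hcpow : ∀ (j : ℕ) y, (c ^ j) y = (τ ^ (i * j)) y := by
    intro j
    induction j with
    | zero => intro y; simp
    | succ j ih =>
      intro y
      rw [pow_succ', AlgEquiv.mul_apply, ih, hi, ← AlgEquiv.mul_apply, ← pow_add]
      congr 2
      ring
  -- integers of `M`
  have hζint : IsIntegral ℤ ζ := hζ.isIntegral (Nat.pos_of_ne_zero hn0)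
  have haint : IsIntegral ℤ a := by
    have h1 : IsIntegral ℤ (a ^ (l ^ 2)) := by
      rw [ha]
      exact_mod_cast isIntegral_algebraMap (R := ℤ) (A := M) (x := (p : ℤ))
    exact IsIntegral.of_pow (Nat.pos_of_ne_zero (pow_ne_zero 2 hl.ne_zero)) h1
  have hηint : IsIntegral ℤ η :=
    IsIntegral.of_pow (Nat.pos_of_ne_zero (pow_ne_zero 2 hl.ne_zero)) (by
      rw [hη1]
      exact isIntegral_one)
  set ζO : 𝓞 M := ⟨ζ, hζint⟩ with hζO
  set aO : 𝓞 M := ⟨a, haint⟩ with haO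
  set ηO : 𝓞 M := ⟨η, hηint⟩ with hηO
  have hζOp : IsPrimitiveRoot ζO n := by
    refine IsPrimitiveRoot.of_map_of_injective (f := algebraMap (𝓞 M) M) ?_
      (RingOfIntegers.coe_injective)
    exact hζ
  -- the image of `ζ`
  have hkn : (n : Kb k) ≠ 0 := by
    intro h
    have h1 : k ∣ n := (CharP.cast_eq_zero_iff (Kb k) k n).1 h
    have := Nat.le_of_dvd (Nat.pos_of_ne_zero hn0) h1
    omega
  have : NeZero (n : Kb k) := ⟨hkn⟩
  have : NeZero (n : 𝓞 M) := ⟨by exact_mod_cast hn0⟩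
  have hz : IsPrimitiveRoot (x ζO) n := by
    rw [← isRoot_cyclotomic_iff] at hζOp ⊢
    have h1 := hζOp.map (f := x)
    rwa [map_cyclotomic] at h1
  have hfr : ∀ y : 𝓞 M, x y ^ k = x (act c y) := by
    intro y
    have h1 := congrArg (fun f => f y) hx
    exact h1
  have hcζ : act c ζO = ζO ^ (r ^ i) := by
    apply RingOfIntegers.ext
    rw [act_coe, hi]
    exact hτiζ i
  have hkr : k ≡ r ^ i [MOD n] := by
    have h1 : x ζO ^ k = x ζO ^ (r ^ i) := by
      rw [hfr, hcζ, map_pow]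
    exact (auxP_modEq hz hn0).1 h1
  have hkN : (k : ZMod N) = 1 := by
    have h1 : k ≡ r ^ i [MOD N] := hkr.of_dvd (dvd_mul_right _ _)
    rw [← ZMod.natCast_eq_natCast_iff] at h1
    rw [h1, Nat.cast_pow, hu1, one_pow]
  have hkm : (k : ZMod m') = (g : ZMod m') ^ i := by
    have h1 : k ≡ r ^ i [MOD m'] := hkr.of_dvd (dvd_mul_left _ _)
    rw [← ZMod.natCast_eq_natCast_iff] at h1
    rw [h1, Nat.cast_pow, hu2]
  have hkmi : (k : ZMod m') ^ i' = g := by
    have h1 : ζ ^ r = ζ ^ (r ^ (i * i')) := by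
      rw [← hτζ, hi', hcpow, hτiζ]
    rw [auxP_modEq hζ hn0] at h1
    have h2 : r ≡ r ^ (i * i') [MOD m'] := h1.of_dvd (dvd_mul_left _ _)
    rw [← ZMod.natCast_eq_natCast_iff, Nat.cast_pow, hu2] at h2
    rw [hkm, ← pow_mul]
    exact h2.symm
  -- the image of `a`
  have hpk : (p : Kb k) ≠ 0 := by
    intro h
    have h1 : k ∣ p := (CharP.cast_eq_zero_iff (Kb k) k p).1 h
    have := Nat.le_of_dvd hp.pos h1
    omega
  have haO2 : aO ^ (l ^ 2) = (p : 𝓞 M) := by
    apply RingOfIntegers.coe_injective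
    show algebraMap (𝓞 M) M (aO ^ (l ^ 2)) = algebraMap (𝓞 M) M (p : 𝓞 M)
    rw [map_pow, map_natCast]
    exact ha
  have hα2 : x aO ^ (l ^ 2) = (p : Kb k) := by
    rw [← map_pow, haO2, map_natCast]
  have hα0 : x aO ≠ 0 := by
    intro h
    rw [h, zero_pow (pow_ne_zero 2 hl.ne_zero)] at hα2
    exact hpk hα2.symm
  have hca : act c aO = ηO ^ i * aO := by
    apply RingOfIntegers.ext
    rw [act_coe, hi]
    show (τ ^ i) a = algebraMap (𝓞 M) M (ηO ^ i * aO)
    rw [map_mul, map_pow]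
    exact hτia i
  have hk1 : 1 ≤ k := hkp.one_lt.le
  have hθ : x aO ^ (k - 1) = x (ηO ^ i) := by
    have h1 : x aO ^ (k - 1) * x aO = x (ηO ^ i) * x aO := by
      rw [← pow_succ, Nat.sub_add_cancel hk1, hfr, hca, map_mul]
    exact mul_right_cancel₀ hα0 h1
  have hθ1 : x (ηO ^ i) ≠ 1 := by
    intro h
    have h1 : (ηO ^ i) ^ n = 1 := by
      apply RingOfIntegers.coe_injective
      show algebraMap (𝓞 M) M ((ηO ^ i) ^ n) = algebraMap (𝓞 M) M 1
      rw [map_pow, map_pow, map_one]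
      show (η ^ i) ^ n = 1
      obtain ⟨t, ht⟩ := hl2n
      rw [← pow_mul, mul_comm i n, ht, pow_mul, pow_mul, hη1, one_pow, one_pow]
    obtain ⟨j, -, hj⟩ := hζOp.eq_pow_of_pow_eq_one h1
    have h2 : ηO ^ i = 1 := by
      rw [← hj] at h ⊢
      rw [map_pow, hz.pow_eq_one_iff_dvd] at h
      rwa [hζOp.pow_eq_one_iff_dvd]
    have h3 : η ^ i = 1 := by
      have h4 := congrArg (algebraMap (𝓞 M) M) h2
      rw [map_pow, map_one] at h4
      exact h4
    have h5 : c a = a := by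
      rw [hi, hτia, h3, one_mul]
    have h6 : ∀ j : ℕ, (c ^ j) a = a := by
      intro j
      induction j with
      | zero => simp
      | succ j ih => rw [pow_succ', AlgEquiv.mul_apply, ih, h5]
    exact hτa (by rw [hi', h6])
  -- the order of `p`
  have hNk : N ∣ k - 1 := by
    have h1 : k ≡ 1 [MOD N] := by
      rw [← ZMod.natCast_eq_natCast_iff, hkN, Nat.cast_one]
    exact (Nat.modEq_iff_dvd' hk1).1 h1.symm
  obtain ⟨t, ht⟩ := hNk
  have ht' : k - 1 = l ^ 2 * (l ^ E * t) := by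
    rw [ht, hN]
    ring
  have hpne : ((p : ZMod k)) ^ (l ^ E * t) ≠ 1 := by
    intro h
    apply hθ1
    rw [← hθ, ht', pow_mul, hα2]
    have h1 := congrArg (algebraMap (ZMod k) (Kb k)) h
    rw [map_pow, map_natCast, map_one] at h1
    exact h1
  have hpz : (p : ZMod k) ≠ 0 := by
    intro h
    apply hpk
    have h1 := congrArg (algebraMap (ZMod k) (Kb k)) h
    rwa [map_natCast, map_zero] at h1
  refine ⟨k, hkp, by omega, ?_, ⟨i, hkm⟩, ⟨i', hkmi⟩, auxP_ord hl hpz ht' hpne⟩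
  have h1 : k ≡ 1 [MOD N] := by
    rw [← ZMod.natCast_eq_natCast_iff, hkN, Nat.cast_one]
  have h2 : k ≡ 1 [MOD l ^ E] := h1.of_dvd (pow_dvd_pow l (by omega))
  rw [← ZMod.natCast_eq_natCast_iff, Nat.cast_one] at h2
  exact h2

end Pool.Agent.FT
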