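import Pool.Agent.FT.Base
import Pool.Agent.FQ.MainR

/-!
# FT-Cur: supersingular triples

`tate_sup`: multisets of elements `x` with `p ^ i x = - x` for some `i` are Tate characters.
`minus_pow`: a power of `p` is `-1` modulo a product of primes `3` modulo `4` for which `p` is a
nonresidue. `exists_q`: auxiliary primes.
-/

set_option autoImplicit false

namespace Pool.Agent.FT

open Finset
open Pool.Agent.FS (IsHodge emb sw rr hb)
open Pool.Agent.FQ (chiT)

private theorem cur_shift (f : ℕ) (i : ℕ) : ∀ g : ℕ → ℕ, (∀ j, g (j + f) = g j) →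
    ∑ j ∈ range f, g (j + i) = ∑ j ∈ range f, g j := by
  induction i with
  | zero => intro g _; simp
  | succ i ih =>
    intro g hg
    have h1 : ∑ j ∈ range f, g (j + 1) = ∑ j ∈ range f, g j := by
      have h2 := sum_range_succ g f
      have h3 := sum_range_succ' g f
      have h4 : g f = g 0 := by have := hg 0; rwa [zero_add] at this
      omega
    have h5 := ih (fun j => g (j + 1)) (fun j => by
      have := hg (j + 1)
      rw [← this]
      congr 1
      ring)
    rw [← h1, ← h5]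
    refine sum_congr rfl fun j _ => ?_
    rw [show j + (i + 1) = j + i + 1 by ring]

private theorem cur_one {m p : ℕ} [NeZero m] (hmp : m.Coprime p) {x : ZMod m} (hx : x ≠ 0)
    {i : ℕ} (hi : (p : ZMod m) ^ i * x = -x) (t : (ZMod m)ˣ) :
    2 * ∑ j ∈ range (orderOf (p : ZMod m)), ((p : ZMod m) ^ j * ((t : ZMod m) * x)).val =
      m * orderOf (p : ZMod m) := by
  have hu : IsUnit (p : ZMod m) := (ZMod.isUnit_iff_coprime p m).2 hmp.symm
  have h1 : ∀ j, ((p : ZMod m) ^ (j + orderOf (p : ZMod m)) * ((t : ZMod m) * x)).val =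
      ((p : ZMod m) ^ j * ((t : ZMod m) * x)).val := by
    intro j
    rw [pow_add, pow_orderOf_eq_one, mul_one]
  have h2 := cur_shift (orderOf (p : ZMod m)) i
    (fun j => ((p : ZMod m) ^ j * ((t : ZMod m) * x)).val) h1
  have h3 : ∀ j, ((p : ZMod m) ^ (j + i) * ((t : ZMod m) * x)).val +
      ((p : ZMod m) ^ j * ((t : ZMod m) * x)).val = m := by
    intro j
    have h4 : (p : ZMod m) ^ (j + i) * ((t : ZMod m) * x) =
        -((p : ZMod m) ^ j * ((t : ZMod m) * x)) := by
      calc (p : ZMod m) ^ (j + i) * ((t : ZMod m) * x)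
          = (p : ZMod m) ^ j * ((t : ZMod m) * ((p : ZMod m) ^ i * x)) := by ring
        _ = _ := by rw [hi]; ring
    have h5 : (p : ZMod m) ^ j * ((t : ZMod m) * x) ≠ 0 := by
      intro h
      exact hx (t.isUnit.mul_right_eq_zero.1 ((hu.pow j).mul_right_eq_zero.1 h))
    rw [h4, ZMod.neg_val, if_neg h5]
    have := ZMod.val_lt ((p : ZMod m) ^ j * ((t : ZMod m) * x))
    omega
  have h6 : ∑ j ∈ range (orderOf (p : ZMod m)),
      (((p : ZMod m) ^ (j + i) * ((t : ZMod m) * x)).val +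
        ((p : ZMod m) ^ j * ((t : ZMod m) * x)).val) = orderOf (p : ZMod m) * m := by
    rw [sum_congr rfl fun j _ => h3 j, sum_const, card_range, smul_eq_mul]
  rw [sum_add_distrib] at h6
  have h2' : ∑ j ∈ range (orderOf (p : ZMod m)),
      ((p : ZMod m) ^ (j + i) * ((t : ZMod m) * x)).val =
      ∑ j ∈ range (orderOf (p : ZMod m)), ((p : ZMod m) ^ j * ((t : ZMod m) * x)).val := h2
  rw [h2'] at h6
  rw [two_mul, h6, mul_comm]

theorem tate_sup {m p : ℕ} [NeZero m] (hmp : m.Coprime p) {S : Multiset (ZMod m)}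
    (h0 : (0 : ZMod m) ∉ S) (hS : ∀ x ∈ S, ∃ i : ℕ, (p : ZMod m) ^ i * x = -x) : TateN p S := by
  have hu : IsUnit (p : ZMod m) := (ZMod.isUnit_iff_coprime p m).2 hmp.symm
  refine ⟨orderOf (p : ZMod m), ?_, pow_orderOf_eq_one _, fun t => ?_⟩
  · obtain ⟨u, hu⟩ := hu
    rw [← hu, orderOf_units]
    exact orderOf_pos u
  · induction S using Multiset.induction_on with
    | empty => simp
    | cons x S ih =>
      have h1 : x ≠ 0 := fun h => h0 (h ▸ Multiset.mem_cons_self _ _)
      obtain ⟨i, hi⟩ := hS x (Multiset.mem_cons_self _ _)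
      have h2 := ih (fun h => h0 (Multiset.mem_cons_of_mem h))
        (fun y hy => hS y (Multiset.mem_cons_of_mem hy))
      have h3 := cur_one hmp h1 hi t
      rw [Multiset.map_cons, Multiset.sum_cons, Multiset.card_cons, mul_add, h2, h3]
      ring

theorem minus_pow {p : ℕ} {V : Finset ℕ} (hV : ∀ r ∈ V, r.Prime ∧ r % 4 = 3)
    (hp : ∀ r ∈ V, jacobiSym p r = -1) :
    ∃ i : ℕ, Odd i ∧ (∏ r ∈ V, r) ∣ p ^ i + 1 := by
  have hodd : ∀ r ∈ V, Odd (r / 2) := by
    intro r hr
    have := (hV r hr).2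
    rw [Nat.odd_iff]
    omega
  refine ⟨∏ r ∈ V, r / 2, ?_, ?_⟩
  · exact Finset.prod_induction _ Odd (fun a b ha hb => ha.mul hb) odd_one hodd
  · refine Finset.prod_primes_dvd _ (fun r hr => (hV r hr).1.prime) fun r hr => ?_
    have : Fact r.Prime := ⟨(hV r hr).1⟩
    have h1 : ((p : ZMod r)) ^ (r / 2) = -1 := by
      have h2 := legendreSym.eq_pow r (p : ℤ)
      rw [jacobiSym.legendreSym.to_jacobiSym, hp r hr] at h2
      push_cast at h2
      exact h2.symm
    have h3 : Odd (∏ x ∈ V.erase r, x / 2) :=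
      Finset.prod_induction _ Odd (fun a b ha hb => ha.mul hb) odd_one
        fun x hx => hodd x (Finset.mem_of_mem_erase hx)
    rw [← ZMod.natCast_eq_zero_iff]
    push_cast
    rw [← Finset.mul_prod_erase V (fun x => x / 2) hr, pow_mul, h1, h3.neg_one_pow]
    ring

theorem exists_q {p : ℕ} (hp : p.Prime) (hp2 : p ≠ 2) (B : ℕ) :
    ∃ q : ℕ, q.Prime ∧ B < q ∧ q % 8 = 3 ∧ jacobiSym p q = -1 := by
  have : Fact p.Prime := ⟨hp⟩
  have hodd : Odd p := hp.odd_of_ne_two hp2
  -- the class modulo `p`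
  have hc : ∃ c : ℕ, ¬ p ∣ c ∧ ∀ q : ℕ, q % 8 = 3 → q % p = c % p → jacobiSym p q = -1 := by
    have hmod : p % 4 = 1 ∨ p % 4 = 3 := by
      have := Nat.odd_iff.1 hodd
      omega
    rcases hmod with h4 | h4
    · obtain ⟨a, ha⟩ := FiniteField.exists_nonsquare (F := ZMod p) (by
        rw [ZMod.ringChar_zmod_n]; exact hp2)
      refine ⟨a.val, fun hd => ?_, fun q hq8 hq => ?_⟩
      · apply ha
        have h5 : a = 0 := by
          rw [← ZMod.natCast_zmod_val a, ZMod.natCast_eq_zero_iff]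
          exact hd
        rw [h5]
        exact IsSquare.zero
      · have hqo : Odd q := Nat.odd_iff.2 (by omega)
        rw [jacobiSym.quadratic_reciprocity_one_mod_four h4 hqo]
        have h5 : ((q : ℕ) : ZMod p) = a := by
          rw [← ZMod.natCast_zmod_val a]
          exact (ZMod.natCast_eq_natCast_iff' _ _ _).2 hq
        rw [← jacobiSym.legendreSym.to_jacobiSym, legendreSym.eq_neg_one_iff]
        rw [show (((q : ℕ) : ℤ) : ZMod p) = a by push_cast; exact h5]
        exact ha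
    · refine ⟨1, fun hd => hp.one_lt.ne' (Nat.dvd_one.1 hd), fun q hq8 hq => ?_⟩
      have hq4 : q % 4 = 3 := by omega
      rw [jacobiSym.quadratic_reciprocity_three_mod_four h4 hq4]
      rw [jacobiSym.mod_left' (a₂ := 1) (by
        have h6 : ((q % p : ℕ) : ℤ) = ((1 % p : ℕ) : ℤ) := by rw [hq]
        push_cast at h6
        exact h6)]
      rw [jacobiSym.one_left]
  obtain ⟨c, hc1, hc2⟩ := hc
  have hcop : Nat.Coprime 8 p := by
    have : Nat.Coprime 2 p := (Nat.coprime_primes Nat.prime_two hp).2 (Ne.symm hp2)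
    exact Nat.Coprime.pow_left 3 this
  obtain ⟨a, ha8, hap⟩ := Nat.chineseRemainder hcop 3 c
  have : NeZero (8 * p) := ⟨by have := hp.pos; omega⟩
  have hau : IsUnit ((a : ℕ) : ZMod (8 * p)) := by
    rw [ZMod.isUnit_iff_coprime]
    refine Nat.Coprime.mul_right ?_ ?_
    · have h1 : a % 8 = 3 := ha8
      have h2 : Nat.Coprime a 2 := by
        rw [Nat.coprime_two_right, Nat.odd_iff]
        omega
      exact Nat.Coprime.pow_right 3 h2
    · refine ((Nat.Prime.coprime_iff_not_dvd hp).2 fun hd => hc1 ?_).symm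
      exact (Nat.ModEq.dvd_iff hap (dvd_refl p)).1 hd
  obtain ⟨q, hqB, hq, hqa⟩ := Nat.forall_exists_prime_gt_and_eq_mod hau B
  have h3 : q ≡ a [MOD 8 * p] := (ZMod.natCast_eq_natCast_iff _ _ _).1 hqa
  have h8 : q % 8 = 3 := (h3.of_mul_right p).trans ha8
  have hpq : q % p = c % p := (h3.of_mul_left 8).trans hap
  exact ⟨q, hq, hqB, h8, hc2 q h8 hpq⟩

end Pool.Agent.FT
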