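import Pool.Agent.FT.RE

/-!
# FT-ExE: the primes 5 and 13

Two explicit Hodge characters: `{1, 10, 12, 17}` of level `20`, whose elements have the orders
`20, 2, 5, 20`, and `{1, 5, 9, 37, 12, 45, 49, 50}` of level `52`, with the orders
`52, 52, 52, 52, 13, 52, 52, 26`.
-/

set_option autoImplicit false

namespace Pool.Agent.FT

open Finset
open Pool.Agent.FS (IsHodge emb sw rr hb)

private theorem exE_hodge {n : ℕ} [NeZero n] (l : List ℕ)
    (h : ∀ t < n, t.Coprime n → 2 * (l.map fun a => (t * a) % n).sum = n * l.length) :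
    IsHodge (Multiset.ofList (l.map fun a : ℕ => (a : ZMod n))) := by
  intro t
  have h1 := h (t : ZMod n).val (ZMod.val_lt _) (ZMod.val_coe_unit_coprime t)
  rw [Multiset.map_coe, Multiset.sum_coe, Multiset.coe_card, List.length_map, List.map_map]
  have h2 : (l.map ((fun x => ((t : ZMod n) * x).val) ∘ fun a : ℕ => (a : ZMod n))) =
      l.map fun a => ((t : ZMod n).val * a) % n := by
    refine List.map_congr_left fun a _ => ?_
    rw [Function.comp_apply, ZMod.val_mul, ZMod.val_natCast, Nat.mul_mod_mod]
  rw [h2]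
  exact h1

private theorem exE_order {m n : ℕ} [NeZero m] [NeZero n] (h : n ∣ m) (x : ZMod n) :
    addOrderOf (emb m n x) = addOrderOf x := by
  let f : ZMod n →+ ZMod m :=
    { toFun := emb m n
      map_zero' := emb_zero h
      map_add' := emb_add h }
  exact addOrderOf_injective f (emb_inj h) x

private theorem exE_vl {m n : ℕ} [NeZero m] [NeZero n] (h : n ∣ m) {B : Type} [AddCommGroup B]
    (b : Finset ℕ → B) (a : ℕ) :
    vl b (emb m n (a : ZMod n)) =
      if Odd (n / n.gcd a) then b (n / n.gcd a).primeFactors else 0 := by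
  unfold vl
  rw [exE_order h, ZMod.addOrderOf_coe a (NeZero.ne n)]

private theorem exE_main {m n : ℕ} [NeZero m] [NeZero n] (h : n ∣ m) {B : Type} [AddCommGroup B]
    {b : Finset ℕ → B} (hX : X1 m b) (l : List ℕ) (h0 : ∀ a ∈ l, ¬ n ∣ a) (hl : Even l.length)
    (hH : ∀ t < n, t.Coprime n → 2 * (l.map fun a => (t * a) % n).sum = n * l.length) :
    (l.map fun a => if Odd (n / n.gcd a) then b (n / n.gcd a).primeFactors else 0).sum = 0 := by
  have h1 : (0 : ZMod n) ∉ Multiset.ofList (l.map fun a : ℕ => (a : ZMod n)) := by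
    intro h2
    rw [Multiset.mem_coe] at h2
    obtain ⟨a, ha, h3⟩ := List.mem_map.1 h2
    rw [ZMod.natCast_eq_zero_iff] at h3
    exact h0 a ha h3
  have h2 := hX ((Multiset.ofList (l.map fun a : ℕ => (a : ZMod n))).map (emb m n)) (by
    have := zero_notMem_emb h h1 1
    rwa [one_nsmul] at this) (by
    rw [Multiset.card_map, Multiset.coe_card, List.length_map]
    exact hl) (hodge_emb h (exE_hodge l hH))
  rw [Multiset.map_map, Multiset.map_coe, Multiset.sum_coe, List.map_map] at h2
  refine Eq.trans ?_ h2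
  congr 1
  refine List.map_congr_left fun a _ => ?_
  simp only [Function.comp_apply]
  rw [exE_vl h]

theorem b_1mod4 {m r : ℕ} [NeZero m] (hr : r = 5 ∨ r = 13) (h : 4 * r ∣ m) {B : Type}
    [AddCommGroup B] {b : Finset ℕ → B} (hX : X1 m b) : b {r} = 0 := by
  rcases hr with rfl | rfl
  · have h1 := exE_main (n := 20) h hX [1, 10, 12, 17] (by decide) (by decide) (by decide)
    have h5 : Nat.primeFactors 5 = {5} := Nat.Prime.primeFactors (by norm_num)
    have ha : ¬ Odd (20 / Nat.gcd 20 1) := by decide
    have hb : ¬ Odd (20 / Nat.gcd 20 10) := by decide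
    have hc : 20 / Nat.gcd 20 12 = 5 := by decide
    have hd : ¬ Odd (20 / Nat.gcd 20 17) := by decide
    rw [List.map_cons, List.map_cons, List.map_cons, List.map_cons, List.map_nil, if_neg ha,
      if_neg hb, if_neg hd, hc, if_pos (by decide), h5] at h1
    simpa using h1
  · have h1 := exE_main (n := 52) h hX [1, 5, 9, 37, 12, 45, 49, 50] (by decide) (by decide)
      (by decide)
    have h5 : Nat.primeFactors 13 = {13} := Nat.Prime.primeFactors (by norm_num)
    have ha : ¬ Odd (52 / Nat.gcd 52 1) := by decide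
    have hb : ¬ Odd (52 / Nat.gcd 52 5) := by decide
    have hc : ¬ Odd (52 / Nat.gcd 52 9) := by decide
    have hd : ¬ Odd (52 / Nat.gcd 52 37) := by decide
    have he : 52 / Nat.gcd 52 12 = 13 := by decide
    have hf : ¬ Odd (52 / Nat.gcd 52 45) := by decide
    have hg : ¬ Odd (52 / Nat.gcd 52 49) := by decide
    have hh : ¬ Odd (52 / Nat.gcd 52 50) := by decide
    rw [List.map_cons, List.map_cons, List.map_cons, List.map_cons, List.map_cons, List.map_cons,
      List.map_cons, List.map_cons, List.map_nil, if_neg ha, if_neg hb, if_neg hc, if_neg hd,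
      if_neg hf, if_neg hg, if_neg hh, he, if_pos (by decide), h5] at h1
    simpa using h1

end Pool.Agent.FT
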