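import Pool.Agent.FT.Base

/-!
# FT-Ord: orders of elements, and Tate characters at a multiple of the level
-/

set_option autoImplicit false

namespace Pool.Agent.FT

open Finset
open Pool.Agent.FS (IsHodge emb)

theorem order_emb {m M : ℕ} [NeZero m] [NeZero M] (h : m ∣ M) (x : ZMod m) :
    addOrderOf (emb M m x) = addOrderOf x := by
  let φ : ZMod m →+ ZMod M := ⟨⟨emb M m, emb_zero h⟩, emb_add h⟩
  exact addOrderOf_injective φ (emb_inj h) x

theorem order_div {d m : ℕ} [NeZero m] (h : d ∣ m) :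
    addOrderOf ((m / d : ℕ) : ZMod m) = d := by
  obtain ⟨c, rfl⟩ := h
  have hn : d * c ≠ 0 := NeZero.ne _
  have hd : 0 < d := Nat.pos_of_ne_zero (left_ne_zero_of_mul hn)
  have hc : 0 < c := Nat.pos_of_ne_zero (right_ne_zero_of_mul hn)
  rw [Nat.mul_div_cancel_left c hd, ZMod.addOrderOf_coe _ hn,
    Nat.gcd_eq_right (dvd_mul_left c d), Nat.mul_div_cancel d hc]

theorem order_dvd {m : ℕ} (x : ZMod m) : addOrderOf x ∣ m := by
  rw [addOrderOf_dvd_iff_nsmul_eq_zero, nsmul_eq_mul, ZMod.natCast_self, zero_mul]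

/-- Tate characters at a multiple of the level -/
theorem tate_emb {p m M : ℕ} [NeZero m] [NeZero M] (h : m ∣ M) (hp : M.Coprime p)
    {S : Multiset (ZMod m)} (hS : TateN p S) : TateN p (S.map (emb M m)) := by
  obtain ⟨f, hf0, hf, hS⟩ := hS
  have hu : IsUnit (p : ZMod M) := by
    rw [ZMod.isUnit_iff_coprime]
    exact hp.symm
  obtain ⟨u, hu⟩ := hu
  have hF : 0 < orderOf (p : ZMod M) := by
    rw [← hu, orderOf_units]
    exact orderOf_pos u
  refine ⟨f * orderOf (p : ZMod M), Nat.mul_pos hf0 hF, ?_, fun t => ?_⟩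
  · rw [mul_comm, pow_mul, pow_orderOf_eq_one, one_pow]
  · have h1 := hS (isUnit_red h t).unit
    rw [IsUnit.unit_spec] at h1
    have h2 : ∀ (i : ℕ) (x : ZMod m), ((p : ZMod M) ^ i * ((t : ZMod M) * emb M m x)).val =
        M / m * ((p : ZMod m) ^ i * ((((t : ZMod M).val : ℕ) : ZMod m) * x)).val := by
      intro i x
      have h3 := emb_mul h (p ^ i) ((((t : ZMod M).val : ℕ) : ZMod m) * x)
      rw [unit_emb h, ← emb_val h]
      push_cast at h3
      rw [h3]
    have h4 : ∀ x : ZMod m, ∑ i ∈ range (f * orderOf (p : ZMod M)),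
        ((p : ZMod M) ^ i * ((t : ZMod M) * emb M m x)).val =
        M / m * (orderOf (p : ZMod M) * ∑ i ∈ range f,
          ((p : ZMod m) ^ i * ((((t : ZMod M).val : ℕ) : ZMod m) * x)).val) := by
      intro x
      rw [sum_congr rfl fun i _ => h2 i x, ← mul_sum]
      congr 1
      refine sum_period _ _ (fun i => ?_) _
      rw [pow_add, hf, one_mul]
    rw [Multiset.map_map, Multiset.card_map]
    have h5 : S.map ((fun x => ∑ i ∈ range (f * orderOf (p : ZMod M)),
        ((p : ZMod M) ^ i * ((t : ZMod M) * x)).val) ∘ emb M m) = S.map fun x =>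
        M / m * (orderOf (p : ZMod M) * ∑ i ∈ range f,
          ((p : ZMod m) ^ i * ((((t : ZMod M).val : ℕ) : ZMod m) * x)).val) :=
      Multiset.map_congr rfl fun x _ => h4 x
    rw [h5, Multiset.sum_map_mul_left, Multiset.sum_map_mul_left]
    calc _ = M / m * (orderOf (p : ZMod M) * (2 * (S.map fun x => ∑ i ∈ range f,
          ((p : ZMod m) ^ i * ((((t : ZMod M).val : ℕ) : ZMod m) * x)).val).sum)) := by ring
      _ = M / m * (orderOf (p : ZMod M) * (m * f * S.card)) := by rw [h1]
      _ = M / m * m * (f * orderOf (p : ZMod M)) * S.card := by ring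
      _ = M * (f * orderOf (p : ZMod M)) * S.card := by rw [Nat.div_mul_cancel h]

end Pool.Agent.FT
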