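import Pool.Agent.FT.IndC
import Pool.Agent.FT.Cur
import Pool.Agent.FT.Ord
import Pool.Agent.FT.ExE

/-!
# FT-BB: the function on the sets of odd primes

`BB p M b`: `b` is a function on the sets of primes with values killed by two such that `vl b` vanishes
on the Tate characters of all levels dividing `M` which belong to the system.
-/

set_option autoImplicit false

namespace Pool.Agent.FT

open Finset
open Pool.Agent.FS (IsHodge emb sw rr hb)
open Pool.Agent.FQ (chiT QS nR PPr)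

structure BB [Flag] (p M : ℕ) {B : Type} [AddCommGroup B] (b : Finset ℕ → B) : Prop where
  two : ∀ V, 2 • b V = 0
  alg : ∀ (m : ℕ) [NeZero m], m ∣ M → ∀ S : Multiset (ZMod m), Alg p m S → TateN p S →
    (S.map (vl b)).sum = 0

/-- elements whose order is a product of odd primes -/
theorem bb_elt {M : ℕ} [NeZero M] {B : Type} [AddCommGroup B] (b : Finset ℕ → B)
    {V : Finset ℕ} (hne : V.Nonempty) (hV : ∀ r ∈ V, r.Prime ∧ r ≠ 2 ∧ r ∣ M) :
    ∃ x : ZMod M, x ≠ 0 ∧ x + x ≠ 0 ∧ vl b x = b V ∧ vl b (-(x + x)) = b V ∧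
      (∏ r ∈ V, r) • x = 0 := by
  have hD2 : Odd (∏ r ∈ V, r) :=
    Finset.prod_induction _ Odd (fun _ _ => Odd.mul) odd_one fun r hr =>
      (hV r hr).1.odd_of_ne_two (hV r hr).2.1
  have hD3 : (∏ r ∈ V, r).primeFactors = V := Nat.primeFactors_prod fun r hr => (hV r hr).1
  have hD3' : 3 ≤ ∏ r ∈ V, r := by
    obtain ⟨r, hr⟩ := hne
    have h5 : r ∣ ∏ r ∈ V, r := dvd_prod_of_mem _ hr
    have h6 := (hV r hr).2.1
    have h7 := (hV r hr).1.two_le
    exact le_trans (by omega) (Nat.le_of_dvd (Nat.pos_of_ne_zero (by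
      rintro h; rw [h] at hD2; exact absurd hD2 (by decide))) h5)
  set D := ∏ r ∈ V, r with hD
  have hDm : D ∣ M := Finset.prod_primes_dvd M (fun r hr => (hV r hr).1.prime)
    fun r hr => (hV r hr).2.2
  obtain ⟨x, hx⟩ : ∃ x : ZMod M, addOrderOf x = D := ⟨_, order_div hDm⟩
  have hDx : D • x = 0 := by rw [← hx]; exact addOrderOf_nsmul_eq_zero x
  have hxx : addOrderOf (-(x + x)) = D := by
    rw [addOrderOf_neg, ← two_nsmul, addOrderOf_nsmul' x two_ne_zero, hx,
      Nat.Coprime.gcd_eq_one ((Nat.coprime_two_right).2 hD2), Nat.div_one]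
  refine ⟨x, ?_, ?_, ?_, ?_, hDx⟩
  · rintro rfl
    rw [addOrderOf_zero] at hx
    omega
  · intro h
    rw [h, neg_zero, addOrderOf_zero] at hxx
    omega
  · unfold vl
    rw [if_pos (by rw [hx]; exact hD2), hx, hD3]
  · unfold vl
    rw [if_pos (by rw [hxx]; exact hD2), hxx, hD3]

theorem bb_sup {m p N i : ℕ} [NeZero m] (hi : N ∣ p ^ i + 1) {x : ZMod m}
    (hx : N • x = 0) : (p : ZMod m) ^ i * x = -x := by
  obtain ⟨c, hc⟩ := hi
  have h1 : ((p ^ i + 1 : ℕ) : ZMod m) * x = 0 := by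
    rw [← nsmul_eq_mul, hc, mul_comm, mul_smul, hx, smul_zero]
  push_cast at h1
  rw [add_mul, one_mul] at h1
  exact eq_neg_of_add_eq_zero_left h1

/-- sets of primes modulo which a power of `p` is `-1` -/
theorem bb_am [Flag] {p : ℕ} (hp : p.Prime) {M : ℕ} [NeZero M] (hMp : M.Coprime p)
    (h2M : p ≠ 2 → 2 ∣ M) {B : Type} [AddCommGroup B] {b : Finset ℕ → B} (hb : BB p M b)
    {q : ℕ} (hq : q.Prime) (hq4 : q % 4 = 3) (hqM : q ∣ M) (hqp : jacobiSym p q = -1)
    (hbq : b {q} = 0) {V : Finset ℕ} (hne : V.Nonempty)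
    (hV : ∀ r ∈ V, r.Prime ∧ r ≠ 2 ∧ r ∣ M) {i : ℕ} (hi : ∏ r ∈ V, r ∣ p ^ i + 1) : b V = 0 := by
  obtain ⟨x, x1, x2, x3, x4, x5⟩ := bb_elt b hne hV
  obtain ⟨y, y1, y2, y3, y4, y5⟩ := bb_elt (M := M) b (singleton_nonempty q) (by
    intro r hr
    rw [mem_singleton] at hr
    subst hr
    exact ⟨hq, by rintro rfl; omega, hqM⟩)
  obtain ⟨j, -, hj⟩ := minus_pow (p := p) (V := {q}) (by
    intro r hr
    rw [mem_singleton] at hr
    subst hr
    exact ⟨hq, hq4⟩) (by
    intro r hr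
    rw [mem_singleton] at hr
    subst hr
    exact hqp)
  have e1 : (p : ZMod M) ^ i * x = -x := bb_sup hi x5
  have e2 : (p : ZMod M) ^ i * (-(x + x)) = -(-(x + x)) := by
    refine bb_sup hi ?_
    rw [smul_neg, smul_add, x5, add_zero, neg_zero]
  have e3 : (p : ZMod M) ^ j * y = -y := bb_sup hj y5
  have e4 : (p : ZMod M) ^ j * (-(y + y)) = -(-(y + y)) := by
    refine bb_sup hj ?_
    rw [smul_neg, smul_add, y5, add_zero, neg_zero]
  have h0 : (0 : ZMod M) ∉ ({x, x, -(x + x), y, y, -(y + y)} : Multiset (ZMod M)) := by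
    intro h0
    simp only [Multiset.insert_eq_cons, Multiset.mem_cons, Multiset.mem_singleton] at h0
    rcases h0 with h0 | h0 | h0 | h0 | h0 | h0
    · exact x1 h0.symm
    · exact x1 h0.symm
    · exact neg_ne_zero.2 x2 h0.symm
    · exact y1 h0.symm
    · exact y1 h0.symm
    · exact neg_ne_zero.2 y2 h0.symm
  have hT : TateN p ({x, x, -(x + x), y, y, -(y + y)} : Multiset (ZMod M)) := by
    refine tate_sup hMp h0 fun w hw => ?_
    simp only [Multiset.insert_eq_cons, Multiset.mem_cons, Multiset.mem_singleton] at hw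
    rcases hw with rfl | rfl | rfl | rfl | rfl | rfl
    · exact ⟨i, e1⟩
    · exact ⟨i, e1⟩
    · exact ⟨i, e2⟩
    · exact ⟨j, e3⟩
    · exact ⟨j, e3⟩
    · exact ⟨j, e4⟩
  have h1 := hb.alg M (dvd_refl M) _ (Alg.curves x x (-(x + x)) y y (-(y + y)) x1 x1
    (neg_ne_zero.2 x2) y1 y1 (neg_ne_zero.2 y2) (by ring) (by ring) hT) hT
  simp only [Multiset.insert_eq_cons, Multiset.map_cons, Multiset.map_singleton,
    Multiset.sum_cons, Multiset.sum_singleton, x3, x4, y3, y4, hbq, add_zero] at h1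
  have h2 := hb.two V
  rw [two_nsmul] at h2
  rw [h2, add_zero] at h1
  exact h1

end Pool.Agent.FT
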