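import Pool.Agent.FT.BB

/-!
# FT-BBx: existence of the function on the sets of odd primes
-/

set_option autoImplicit false

namespace Pool.Agent.FT

open Finset
open Pool.Agent.FS (IsHodge emb sw rr hb)
open Pool.Agent.FQ (chiT QS nR PPr)

theorem allowed_of_type1 {m : ℕ} (hm : ∀ r : ℕ, r.Prime → r ∣ m → r % 4 ≠ 1) :
    Allowed (prA m) := by
  refine Or.inl fun l hl => ?_
  unfold prA at hl
  rw [mem_filter] at hl
  exact hm l (Nat.prime_of_mem_primeFactors hl.1) (Nat.dvd_of_mem_primeFactors hl.1)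

theorem vl_odd {B : Type} [AddCommGroup B] {b : Finset ℕ → B} {m : ℕ} {x : ZMod m}
    (h : Odd (addOrderOf x)) : vl b x = b (addOrderOf x).primeFactors := if_pos h

theorem vl_even {B : Type} [AddCommGroup B] {b : Finset ℕ → B} {m : ℕ} {x : ZMod m}
    (h : Even (addOrderOf x)) : vl b x = 0 := if_neg (Nat.not_odd_iff_even.2 h)

theorem vl_emb {B : Type} [AddCommGroup B] (b : Finset ℕ → B) {m M : ℕ} [NeZero m] [NeZero M]
    (h : m ∣ M) (x : ZMod m) : vl b (emb M m x) = vl b x := by
  unfold vl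
  rw [order_emb h]

theorem smul_odd {B : Type} [AddCommGroup B] {a : B} (ha : 2 • a = 0) {n : ℕ} (hn : Odd n) :
    n • a = a := by
  obtain ⟨k, rfl⟩ := hn
  rw [add_smul, one_smul, mul_comm, mul_smul, ha, smul_zero, zero_add]

theorem smul_even {B : Type} [AddCommGroup B] {a : B} (ha : 2 • a = 0) {n : ℕ} (hn : Even n) :
    n • a = 0 := by
  obtain ⟨k, rfl⟩ := hn
  rw [← two_mul, mul_comm, mul_smul, ha, smul_zero]

/-- the values of the character at two -/
theorem chi_two_q {q : ℕ} (hq8 : q % 8 = 3) : chiT {q} 2 = -1 := by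
  unfold chiT
  rw [prod_singleton]
  unfold FQ.chi
  rw [if_neg (by rintro rfl; omega)]
  have h : Odd q := by
    rw [Nat.odd_iff]
    omega
  have h1 := jacobiSym.at_two h
  push_cast
  rw [h1, ZMod.χ₈_nat_eq_if_mod_eight]
  rw [if_neg (by omega), if_neg (by omega)]

/-- sum of the constant function -/
theorem vl_shift {B : Type} [AddCommGroup B] {b : Finset ℕ → B} {b₀ : B} (hb₀ : 2 • b₀ = 0)
    {m : ℕ} (hm : Odd m) {S : Multiset (ZMod m)} (h0 : (0 : ZMod m) ∉ S) (hc : Even S.card) :
    (S.map (vl fun V => if V = ∅ then 0 else b V - b₀)).sum = (S.map (vl b)).sum := by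
  have h1 : S.map (vl fun V => if V = ∅ then 0 else b V - b₀) =
      S.map fun x => vl b x - b₀ := by
    refine Multiset.map_congr rfl fun x hx => ?_
    have h2 : Odd (addOrderOf x) := hm.of_dvd_nat (order_dvd x)
    have h3 : (addOrderOf x).primeFactors ≠ ∅ := by
      rw [ne_eq, Nat.primeFactors_eq_empty, not_or]
      refine ⟨?_, ?_⟩
      · rintro h
        rw [h] at h2
        exact absurd h2 (by decide)
      · intro h
        rw [AddMonoid.addOrderOf_eq_one_iff] at h
        exact h0 (h ▸ hx)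
    rw [vl_odd h2, vl_odd h2, if_neg h3]
  rw [h1, Multiset.sum_map_sub, Multiset.map_const', Multiset.sum_replicate, smul_even hb₀ hc,
    sub_zero]

theorem exists_bb [Flag] (hZ : Flag.z) {p : ℕ} (hp : p.Prime) {m M : ℕ} [NeZero m] [NeZero M] (hmM : m ∣ M)
    (hMp : M.Coprime p) {q : ℕ} (hq : q.Prime) (hq8 : q % 8 = 3) (hqM : q ∣ M)
    (h4 : p ≠ 2 → 4 ∣ M) :
    ∃ (B : Type) (_ : AddCommGroup B) (b : Finset ℕ → B), BB p M b ∧ b {q} = 0 ∧
      ∀ S : Multiset (ZMod m), (0 : ZMod m) ∉ S → Even S.card → S.sum = 0 → TateN p S →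
        (S.map (vl b)).sum = 0 → Inf p m S 1 := by
  have hmp : m.Coprime p := Nat.Coprime.coprime_dvd_left hmM hMp
  obtain ⟨B, _, f, hL⟩ := exists_lim p hp
  obtain ⟨b, hb0, hb2, hb⟩ := exists_rad hp hL hMp
  -- the sums over the Tate characters of all levels
  have key : ∀ (m' : ℕ) [NeZero m'], m' ∣ M → ∀ S : Multiset (ZMod m'), (0 : ZMod m') ∉ S →
      Even S.card → S.sum = 0 → TateN p S → (S.map (f m')).sum = (S.map (vl b)).sum := by
    intro m' _ hd S h0 hc hs hT
    have h1 := hb (S.map (emb M m')) (by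
        have h := zero_notMem_emb hd h0 1
        rwa [one_smul] at h) (by rw [Multiset.card_map]; exact hc)
      (by rw [emb_sum hd, hs, emb_zero hd]) (tate_emb hd hMp hT)
    rw [Multiset.map_map, Multiset.map_map] at h1
    have e1 : S.map (f M ∘ emb M m') = S.map (f m') :=
      Multiset.map_congr rfl fun x _ => hL.up m' M hd hMp x
    have e2 : S.map (vl b ∘ emb M m') = S.map (vl b) :=
      Multiset.map_congr rfl fun x _ => vl_emb b hd x
    rwa [e1, e2] at h1
  have halg : BB p M b := by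
    refine ⟨hb2, fun m' _ hd S hS hT => ?_⟩
    obtain ⟨h0, hc, hs⟩ := QuotT.basic hS
    rw [← key m' hd S h0 hc hs hT]
    exact hL.alg m' (Nat.Coprime.coprime_dvd_left hd hMp) S hS
  by_cases hp2 : p = 2
  · subst hp2
    have hodd : ∀ m' : ℕ, m' ∣ M → Odd m' := by
      intro m' hd
      rw [← Nat.coprime_two_right]
      exact Nat.Coprime.coprime_dvd_left hd hMp
    refine ⟨B, inferInstance, fun V => if V = ∅ then 0 else b V - b {q}, ⟨?_, ?_⟩, ?_, ?_⟩
    · intro V
      change 2 • (if V = ∅ then 0 else b V - b {q}) = 0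
      by_cases hV : V = ∅
      · rw [if_pos hV, smul_zero]
      · rw [if_neg hV, smul_sub, hb2, hb2, sub_zero]
    · intro m' _ hd S hS hT
      obtain ⟨h0, hc, hs⟩ := QuotT.basic hS
      rw [vl_shift (hb2 _) (hodd m' hd) h0 hc]
      exact halg.alg m' hd S hS hT
    · change (if ({q} : Finset ℕ) = ∅ then 0 else b {q} - b {q}) = 0
      rw [if_neg (singleton_ne_empty q), sub_self]
    · intro S h0 hc hs hT hS
      rw [vl_shift (hb2 _) (hodd m hmM) h0 hc, ← key m hmM S h0 hc hs hT] at hS
      exact hL.zero m hmp S h0 hc hs hS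
  · refine ⟨B, inferInstance, b, halg, ?_, ?_⟩
    · have h4M := h4 hp2
      have hn : NeZero (4 * q) := ⟨mul_ne_zero (by norm_num) hq.ne_zero⟩
      have hq2 : Nat.Coprime 4 q := by
        have h1 : Nat.Coprime 2 q := (Nat.coprime_primes Nat.prime_two hq).2 (by
          rintro rfl
          omega)
        exact Nat.Coprime.pow_left 2 h1
      have h4q : 4 * q ∣ M := hq2.mul_dvd_of_dvd_of_dvd h4M hqM
      have hty : ∀ r : ℕ, r.Prime → r ∣ 4 * q → r % 4 ≠ 1 := by
        intro r hr hrd
        rcases (Nat.Prime.dvd_mul hr).1 hrd with h | h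
        · have h1 : r ∣ 2 ^ 2 := h
          have h2 := (Nat.prime_dvd_prime_iff_eq hr Nat.prime_two).1 (hr.dvd_of_dvd_pow h1)
          omega
        · have h2 := (Nat.prime_dvd_prime_iff_eq hr hq).1 h
          omega
      have h4qp : (4 * q).Coprime p := Nat.Coprime.coprime_dvd_left h4q hMp
      refine b_two (m := 4 * q) (dvd_mul_right 4 q) hb2 ?_ (V := {q}) ?_ ?_ (chi_two_q hq8) ?_
      · intro H h0 hc hH
        have hT := hodge_tate (p := p) h4qp hH
        exact halg.alg (4 * q) h4q H (hodge_alg hZ p (4 * q) (allowed_of_type1 hty) H h0 hc hH) hT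
      · intro l hl
        rw [mem_singleton] at hl
        subst hl
        exact ⟨hq, by omega, dvd_mul_left _ _⟩
      · rw [card_singleton]
        exact odd_one
      · intro V' hV'
        rw [ssubset_singleton_iff] at hV'
        rw [hV', hb0]
    · intro S h0 hc hs hT hS
      rw [← key m hmM S h0 hc hs hT] at hS
      exact hL.zero m hmp S h0 hc hs hS

end Pool.Agent.FT
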