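import Pool.Agent.FT.Up

/-!
# FT-Base: sums over the powers of `p`
-/

set_option autoImplicit false

namespace Pool.Agent.FT

open Finset
open Pool.Agent.FS (IsHodge emb)

section

variable {m : ℕ} [NeZero m]

omit [NeZero m] in
theorem sum_map_sum {B : Type} [AddCommMonoid B] (f : ℕ) (S : Multiset (ZMod m))
    (g : ℕ → ZMod m → B) :
    (S.map fun x => ∑ i ∈ range f, g i x).sum = ∑ i ∈ range f, (S.map (g i)).sum := by
  induction S using Multiset.induction_on with
  | empty => simp
  | cons x S ih =>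
    rw [Multiset.map_cons, Multiset.sum_cons, ih, ← sum_add_distrib]
    exact sum_congr rfl fun i _ => by rw [Multiset.map_cons, Multiset.sum_cons]

/-- the union of the multisets `p ^ i S`, `i < f` -/
def Yp (p f : ℕ) (S : Multiset (ZMod m)) : Multiset (ZMod m) :=
  ∑ i ∈ range f, S.map fun x => (p : ZMod m) ^ i * x

omit [NeZero m] in
theorem sum_Yp {B : Type} [AddCommMonoid B] (p f : ℕ) (S : Multiset (ZMod m)) (F : ZMod m → B) :
    ((Yp p f S).map F).sum = ∑ i ∈ range f, (S.map fun x => F ((p : ZMod m) ^ i * x)).sum := by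
  unfold Yp
  induction range f using Finset.induction_on with
  | empty => simp
  | insert a s ha ih =>
    rw [sum_insert ha, sum_insert ha, Multiset.map_add, Multiset.sum_add, ih, Multiset.map_map]
    rfl

omit [NeZero m] in
theorem card_Yp (p f : ℕ) (S : Multiset (ZMod m)) : (Yp p f S).card = f * S.card := by
  have h := sum_Yp (B := ℕ) p f S fun _ => 1
  simpa using h

omit [NeZero m] in
theorem zero_notMem_Yp {p : ℕ} (hp : IsUnit (p : ZMod m)) (f : ℕ) {S : Multiset (ZMod m)}
    (h0 : (0 : ZMod m) ∉ S) : (0 : ZMod m) ∉ Yp p f S := by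
  unfold Yp
  rw [Multiset.mem_sum]
  rintro ⟨i, _, hi⟩
  obtain ⟨x, hx, hx0⟩ := Multiset.mem_map.1 hi
  have h1 : x = 0 := (hp.pow i).mul_right_eq_zero.1 hx0
  exact h0 (h1 ▸ hx)

omit [NeZero m] in
/-- a function which is invariant under `p` -/
theorem inv_pow {B : Type} {p : ℕ} {F : ZMod m → B} (hF : ∀ x, F ((p : ZMod m) * x) = F x) (i : ℕ)
    (x : ZMod m) : F ((p : ZMod m) ^ i * x) = F x := by
  induction i with
  | zero => rw [pow_zero, one_mul]
  | succ i ih => rw [pow_succ', mul_assoc, hF, ih]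

omit [NeZero m] in
theorem sum_Yp_inv {B : Type} [AddCommMonoid B] {p : ℕ} {F : ZMod m → B}
    (hF : ∀ x, F ((p : ZMod m) * x) = F x) (f : ℕ) (S : Multiset (ZMod m)) :
    ((Yp p f S).map F).sum = f • (S.map F).sum := by
  rw [sum_Yp, sum_congr rfl fun i _ => congrArg Multiset.sum
    (Multiset.map_congr rfl fun x _ => inv_pow hF i x), sum_const, card_range]

omit [NeZero m] in
theorem sum_period (g : ℕ → ℕ) (f : ℕ) (hg : ∀ i, g (f + i) = g i) (k : ℕ) :
    ∑ i ∈ range (f * k), g i = k * ∑ i ∈ range f, g i := by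
  induction k with
  | zero => simp
  | succ k ih =>
    have h1 : ∑ i ∈ range (f * k), g (f + i) = ∑ i ∈ range (f * k), g i :=
      sum_congr rfl fun i _ => hg i
    rw [Nat.mul_succ, add_comm, sum_range_add, h1, ih]
    ring

omit [NeZero m] in
/-- the weights of `Yp` -/
theorem hodge_Yp_iff (p f : ℕ) (S : Multiset (ZMod m)) :
    IsHodge (Yp p f S) ↔ ∀ t : (ZMod m)ˣ,
      2 * (S.map fun x => ∑ i ∈ range f, ((p : ZMod m) ^ i * ((t : ZMod m) * x)).val).sum =
        m * f * S.card := by
  unfold IsHodge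
  refine forall_congr' fun t => ?_
  rw [sum_Yp, card_Yp, mul_assoc m f]
  have h : (S.map fun x => ∑ i ∈ range f, ((p : ZMod m) ^ i * ((t : ZMod m) * x)).val).sum =
      ∑ i ∈ range f, (S.map fun x => ((t : ZMod m) * ((p : ZMod m) ^ i * x)).val).sum := by
    rw [sum_map_sum]
    refine sum_congr rfl fun i _ => congrArg Multiset.sum (Multiset.map_congr rfl fun x _ => ?_)
    rw [mul_left_comm]
  rw [h]

omit [NeZero m] in
/-- the orbits of a Tate character under `p` -/
theorem hodge_of_tate {p : ℕ} {S : Multiset (ZMod m)} (hS : TateN p S) :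
    IsHodge (Yp p (orderOf (p : ZMod m)) S) := by
  obtain ⟨f, hf0, hf, hS⟩ := hS
  rw [hodge_Yp_iff]
  intro t
  obtain ⟨k, hk⟩ := orderOf_dvd_of_pow_eq_one hf
  have hk0 : 0 < k := Nat.pos_of_ne_zero (by rintro rfl; rw [mul_zero] at hk; omega)
  have h1 : ∀ x : ZMod m, ∑ i ∈ range f, ((p : ZMod m) ^ i * ((t : ZMod m) * x)).val =
      k * ∑ i ∈ range (orderOf (p : ZMod m)), ((p : ZMod m) ^ i * ((t : ZMod m) * x)).val := by
    intro x
    rw [hk]
    refine sum_period _ _ (fun i => ?_) k
    rw [pow_add, pow_orderOf_eq_one, one_mul]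
  have h2 := hS t
  rw [Multiset.map_congr rfl fun x _ => h1 x, Multiset.sum_map_mul_left] at h2
  have h3 : k * (2 * (S.map fun x => ∑ i ∈ range (orderOf (p : ZMod m)),
      ((p : ZMod m) ^ i * ((t : ZMod m) * x)).val).sum) =
      k * (m * orderOf (p : ZMod m) * S.card) := by
    calc _ = 2 * (k * (S.map fun x => ∑ i ∈ range (orderOf (p : ZMod m)),
      ((p : ZMod m) ^ i * ((t : ZMod m) * x)).val).sum) := by ring
      _ = m * f * S.card := h2
      _ = m * (orderOf (p : ZMod m) * k) * S.card := by rw [← hk]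
      _ = _ := by ring
  exact Nat.eq_of_mul_eq_mul_left hk0 h3

end

section

variable {m M : ℕ} [NeZero m] [NeZero M] (h : m ∣ M)

include h

theorem hodge_emb {S : Multiset (ZMod m)} (hS : IsHodge S) : IsHodge (S.map (emb M m)) := by
  intro t
  have h1 := hS (isUnit_red h t).unit
  rw [IsUnit.unit_spec] at h1
  have h2 : ∀ x : ZMod m, ((t : ZMod M) * emb M m x).val =
      M / m * ((((t : ZMod M).val : ℕ) : ZMod m) * x).val := by
    intro x
    rw [unit_emb h, emb_val h]
  rw [Multiset.map_map, Multiset.card_map]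
  have h3 : S.map ((fun x => ((t : ZMod M) * x).val) ∘ emb M m) =
      S.map fun x => M / m * ((((t : ZMod M).val : ℕ) : ZMod m) * x).val :=
    Multiset.map_congr rfl fun x _ => h2 x
  rw [h3, Multiset.sum_map_mul_left]
  calc _ = M / m * (2 * (S.map fun x => ((((t : ZMod M).val : ℕ) : ZMod m) * x).val).sum) := by
        ring
    _ = M / m * (m * S.card) := by rw [h1]
    _ = M / m * m * S.card := by ring
    _ = M * S.card := by rw [Nat.div_mul_cancel h]

theorem Yp_emb (p f : ℕ) (S : Multiset (ZMod m)) :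
    Yp p f (S.map (emb M m)) = (Yp p f S).map (emb M m) := by
  unfold Yp
  have h1 : ∀ (T : ℕ → Multiset (ZMod m)) (f : ℕ),
      (∑ i ∈ range f, T i).map (emb M m) = ∑ i ∈ range f, (T i).map (emb M m) := by
    intro T f
    exact map_sum (Multiset.mapAddMonoidHom (emb M m)) T (range f)
  rw [h1]
  refine sum_congr rfl fun i _ => ?_
  rw [Multiset.map_map, Multiset.map_map]
  refine Multiset.map_congr rfl fun x _ => ?_
  have h2 := emb_mul h (p ^ i) x
  push_cast at h2
  exact h2.symm

theorem emb_sum (S : Multiset (ZMod m)) : (S.map (emb M m)).sum = emb M m S.sum := by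
  induction S using Multiset.induction_on with
  | empty => simp [emb_zero h]
  | cons x S ih => rw [Multiset.map_cons, Multiset.sum_cons, Multiset.sum_cons, ih, emb_add h]

theorem zero_notMem_emb {S : Multiset (ZMod m)} (h0 : (0 : ZMod m) ∉ S) (N : ℕ) :
    (0 : ZMod M) ∉ N • S.map (emb M m) := by
  intro h1
  have h4 := Multiset.mem_of_mem_nsmul h1
  obtain ⟨x, hx, hx0⟩ := Multiset.mem_map.1 h4
  rw [emb_eq_zero_iff h] at hx0
  exact h0 (hx0 ▸ hx)

omit [NeZero m] in
theorem pow_unit_cast {p : ℕ} (hp : M.Coprime p) : IsUnit (p : ZMod m) := by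
  rw [ZMod.isUnit_iff_coprime]
  exact (Nat.Coprime.coprime_dvd_left h hp).symm

end

end Pool.Agent.FT
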