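import Pool.Agent.FT.PreBeta

/-!
# FT-Beta: the Tate characters modulo two: vanishing on the elements of even order

`beta_van`: an odd distribution `β` on `ℤ/N`, `N = 2 ^ (v + 1) n'`, with `2 β = 0` and invariant
under `P = 1 + 2 ^ v n' u`, `u` odd, vanishes on the elements whose order is divisible by exactly
`2 ^ b`, `1 ≤ b ≤ v`. By induction on `v - b`: `β w = ∑_{2 z = w} β z`; for `b = v` the
multiplication by `P` is an involution without fixed points of the set `{z : 2 z = w}`.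
`exists_beta` follows from `pre_beta` for the level `2 ^ (v + 1) n'`, `v` the exponent of `2` in
`p ^ F0 - 1`, `F0 = 2 * orderOf (p : ZMod n)`, and `n'` the odd part of `n`.
-/

set_option autoImplicit false

namespace Pool.Agent.FT

open Finset
open Pool.Agent.Helper9.Fermat (fib mem_fib)
open Pool.Agent.FS (IsHodge emb)

private theorem beta_half {N M : ℕ} [NeZero N] (hN : N = 2 * M) (hM : 0 < M) (w : ZMod N)
    (hw : (M : ZMod N) * w = 0) : ∃ y : ZMod N, ((2 : ℕ) : ZMod N) * y = w := by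
  rw [← ZMod.natCast_zmod_val w, ← Nat.cast_mul, ZMod.natCast_eq_zero_iff] at hw
  have h1 : 2 * M ∣ w.val * M := by
    rw [mul_comm w.val M, ← hN]
    exact hw
  obtain ⟨a, ha⟩ := Nat.dvd_of_mul_dvd_mul_right hM h1
  refine ⟨(a : ZMod N), ?_⟩
  rw [← Nat.cast_mul, ← ha]
  exact ZMod.natCast_zmod_val w

private theorem beta_van {N n' v u P : ℕ} [NeZero N] (hN : N = 2 ^ (v + 1) * n')
    (hP : P = 2 ^ v * n' * u + 1) (hu : Odd u) {B : Type} [AddCommGroup B] {β : ZMod N → B}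
    (hβ : ODist N β) (h2 : ∀ x, 2 • β x = 0) (hPi : ∀ x, β ((P : ZMod N) * x) = β x) (d : ℕ) :
    ∀ b : ℕ, b + 1 + d = v → ∀ w : ZMod N, ((2 ^ (b + 1) * n' : ℕ) : ZMod N) * w = 0 →
      ((2 ^ b * n' : ℕ) : ZMod N) * w ≠ 0 → β w = 0 := by
  have hN0 : N ≠ 0 := NeZero.ne N
  have hn' : 0 < n' := Nat.pos_of_ne_zero (by rintro rfl; exact hN0 (by rw [hN, mul_zero]))
  have hNM : N = 2 * (2 ^ v * n') := by rw [hN, pow_succ]; ring
  have hM0 : 0 < 2 ^ v * n' := by positivity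
  have hex : ∀ b : ℕ, b + 1 ≤ v → ∀ w : ZMod N, ((2 ^ (b + 1) * n' : ℕ) : ZMod N) * w = 0 →
      ∃ y : ZMod N, ((2 : ℕ) : ZMod N) * y = w := by
    intro b hb w hw
    refine beta_half hNM hM0 w ?_
    obtain ⟨c, rfl⟩ : ∃ c, v = b + 1 + c := ⟨v - (b + 1), by omega⟩
    have h3 : ((2 ^ (b + 1 + c) * n' : ℕ) : ZMod N) * w =
        ((2 ^ c : ℕ) : ZMod N) * (((2 ^ (b + 1) * n' : ℕ) : ZMod N) * w) := by
      rw [← mul_assoc, ← Nat.cast_mul]
      congr 2
      rw [pow_add]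
      ring
    rw [h3, hw, mul_zero]
  have hsum : ∀ y : ZMod N, ∑ z ∈ fib N 2 (((2 : ℕ) : ZMod N) * y), β z =
      β (((2 : ℕ) : ZMod N) * y) := fun y => hβ.dist 2 Nat.prime_two ⟨_, hNM⟩ y
  induction d with
  | zero =>
    intro b hb w hw0 hw1
    obtain ⟨y, rfl⟩ := hex b (by omega) w hw0
    rw [← hsum y]
    have hv : v = b + 1 := by omega
    have hPM : P = (2 ^ v * n') * u + 1 := hP
    -- the element `t z = (2 ^ v n') z`
    have ht : ∀ z : ZMod N, ((2 : ℕ) : ZMod N) * z = ((2 : ℕ) : ZMod N) * y →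
        ((2 ^ v * n' : ℕ) : ZMod N) * z ≠ 0 := by
      intro z hz
      have h3 : ((2 ^ v * n' : ℕ) : ZMod N) * z =
          ((2 ^ b * n' : ℕ) : ZMod N) * (((2 : ℕ) : ZMod N) * z) := by
        rw [← mul_assoc, ← Nat.cast_mul]
        congr 2
        rw [hv, pow_succ]
        ring
      rw [h3, hz]
      exact hw1
    have ht2 : ∀ z : ZMod N, ((2 : ℕ) : ZMod N) * (((2 ^ v * n' : ℕ) : ZMod N) * z) = 0 := by
      intro z
      rw [← mul_assoc, ← Nat.cast_mul, ← hNM, ZMod.natCast_self, zero_mul]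
    have hPz : ∀ z : ZMod N, (P : ZMod N) * z = z + ((2 ^ v * n' : ℕ) : ZMod N) * z := by
      intro z
      obtain ⟨k, hk⟩ := hu
      have h3 : (P : ZMod N) * z = z + ((2 ^ v * n' : ℕ) : ZMod N) * z +
          (k : ZMod N) * (((2 : ℕ) : ZMod N) * (((2 ^ v * n' : ℕ) : ZMod N) * z)) := by
        rw [hPM, hk]
        push_cast
        ring
      rw [h3, ht2, mul_zero, add_zero]
    have hPP : ∀ z : ZMod N, (P : ZMod N) * ((P : ZMod N) * z) = z := by
      intro z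
      rw [hPz, hPz z]
      have h3 : ((2 ^ v * n' : ℕ) : ZMod N) * (((2 ^ v * n' : ℕ) : ZMod N) * z) =
          ((2 ^ b * n' : ℕ) : ZMod N) *
            (((2 : ℕ) : ZMod N) * (((2 ^ v * n' : ℕ) : ZMod N) * z)) := by
        rw [← mul_assoc (((2 ^ b * n' : ℕ) : ZMod N)), ← Nat.cast_mul]
        congr 2
        rw [hv, pow_succ]
        ring
      have h4 := ht2 z
      rw [mul_add, h3, h4, mul_zero, add_zero]
      have h5 : z + ((2 ^ v * n' : ℕ) : ZMod N) * z + ((2 ^ v * n' : ℕ) : ZMod N) * z =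
          z + ((2 : ℕ) : ZMod N) * (((2 ^ v * n' : ℕ) : ZMod N) * z) := by
        push_cast
        ring
      rw [h5, h4, add_zero]
    refine Finset.sum_involution (fun z _ => (P : ZMod N) * z) ?_ ?_ ?_ ?_
    · intro z _
      rw [hPi, ← two_nsmul, h2]
    · intro z hz _ h3
      rw [hPz] at h3
      exact ht z (mem_fib.1 hz) (by simpa using h3)
    · intro z hz
      rw [mem_fib] at hz ⊢
      rw [hPz, mul_add, ht2, add_zero, hz]
    · intro z _
      exact hPP z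
  | succ d ih =>
    intro b hb w hw0 hw1
    obtain ⟨y, rfl⟩ := hex b (by omega) w hw0
    rw [← hsum y]
    refine Finset.sum_eq_zero fun z hz => ?_
    rw [mem_fib] at hz
    refine ih (b + 1) (by omega) z ?_ ?_
    · have h3 : ((2 ^ (b + 1 + 1) * n' : ℕ) : ZMod N) * z =
          ((2 ^ (b + 1) * n' : ℕ) : ZMod N) * (((2 : ℕ) : ZMod N) * z) := by
        rw [← mul_assoc, ← Nat.cast_mul]
        congr 2
        rw [pow_succ]
        ring
      rw [h3, hz]
      exact hw0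
    · have h3 : ((2 ^ (b + 1) * n' : ℕ) : ZMod N) * z =
          ((2 ^ b * n' : ℕ) : ZMod N) * (((2 : ℕ) : ZMod N) * z) := by
        rw [← mul_assoc, ← Nat.cast_mul]
        congr 2
        rw [pow_succ]
        ring
      rw [h3, hz]
      exact hw1

private theorem beta_aux {p : ℕ} (hp : p.Prime) {n : ℕ} [NeZero n]
    (hnp : n.Coprime p) : ∃ v n' u F : ℕ, 2 ^ v * n' * u + 1 = p ^ F ∧ Odd u ∧ Odd n' ∧
      n ∣ 2 ^ v * n' ∧ n' ∣ n := by
  set F0 := orderOf (p : ZMod n) with hF0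
  have hu : IsUnit (p : ZMod n) := by
    rw [ZMod.isUnit_iff_coprime]
    exact hnp.symm
  have hpos : 0 < F0 := by
    obtain ⟨q, hq⟩ := hu
    rw [hF0, ← hq, orderOf_units]
    exact orderOf_pos q
  have h1 : n ∣ p ^ F0 - 1 := by
    have h2 : ((p ^ F0 : ℕ) : ZMod n) = ((1 : ℕ) : ZMod n) := by
      rw [Nat.cast_pow, pow_orderOf_eq_one, Nat.cast_one]
    have h3 := ((ZMod.natCast_eq_natCast_iff _ _ _).1 h2).symm
    exact (Nat.modEq_iff_dvd' (Nat.one_le_pow _ _ hp.pos)).1 h3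
  have hlt : 1 < p ^ F0 := Nat.one_lt_pow hpos.ne' hp.one_lt
  set D := p ^ F0 - 1 with hD
  have hD0 : D ≠ 0 := by omega
  have hn0 : n ≠ 0 := NeZero.ne n
  refine ⟨D.factorization 2, ordCompl[2] n, ordCompl[2] D / ordCompl[2] n, F0, ?_, ?_, ?_, ?_, ?_⟩
  · have h4 : ordCompl[2] n ∣ ordCompl[2] D := Nat.ordCompl_dvd_ordCompl_of_dvd h1 2
    rw [mul_assoc, Nat.mul_div_cancel' h4, Nat.ordProj_mul_ordCompl_eq_self]
    omega
  · have h4 : ordCompl[2] n ∣ ordCompl[2] D := Nat.ordCompl_dvd_ordCompl_of_dvd h1 2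
    have h5 : ¬ 2 ∣ ordCompl[2] D := Nat.not_dvd_ordCompl Nat.prime_two hD0
    rw [← Nat.not_even_iff_odd, even_iff_two_dvd]
    exact fun h6 => h5 (h6.trans (Nat.div_dvd_of_dvd h4))
  · have h5 : ¬ 2 ∣ ordCompl[2] n := Nat.not_dvd_ordCompl Nat.prime_two hn0
    rw [← Nat.not_even_iff_odd, even_iff_two_dvd]
    exact h5
  · have h6 : ordProj[2] n ∣ ordProj[2] D := Nat.ordProj_dvd_ordProj_of_dvd hD0 h1 2
    calc n = ordProj[2] n * ordCompl[2] n := (Nat.ordProj_mul_ordCompl_eq_self n 2).symm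
      _ ∣ _ := Nat.mul_dvd_mul_right h6 _
  · exact Nat.ordCompl_dvd n 2

theorem exists_beta [Flag] {p : ℕ} (hp : p.Prime) {B : Type} [AddCommGroup B] {f : ∀ m : ℕ, ZMod m → B}
    (hL : Lim p f) {m n : ℕ} [NeZero m] [NeZero n] (hmn : m ∣ n) (hnp : n.Coprime p) :
    ∃ β : ZMod n → B, ODist n β ∧ (∀ x, 2 • β x = 0) ∧ (∀ x, β ((p : ZMod n) * x) = β x) ∧
      (∀ x, Even (addOrderOf x) → β x = 0) ∧
      ∀ S : Multiset (ZMod m), (0 : ZMod m) ∉ S → Even S.card → S.sum = 0 → TateN p S →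
        (S.map (f m)).sum = (S.map fun x => β (emb n m x)).sum := by
  by_cases hp2 : p = 2
  · obtain ⟨β, h1, h2, h3, h4⟩ := pre_beta hp hL hmn hnp
    refine ⟨β, h1, h2, h3, ?_, h4⟩
    intro x hx
    exfalso
    have h5 : addOrderOf x ∣ n := by
      rw [addOrderOf_dvd_iff_nsmul_eq_zero, nsmul_eq_mul, ZMod.natCast_self, zero_mul]
    have h6 : 2 ∣ n := (even_iff_two_dvd.1 hx).trans h5
    rw [hp2] at hnp
    have h7 : Nat.gcd n 2 = 1 := hnp
    have h8 : 2 ∣ Nat.gcd n 2 := Nat.dvd_gcd h6 dvd_rfl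
    rw [h7] at h8
    omega
  · obtain ⟨v, n', u, F, hPu, hu, hn', hnd, hnn⟩ := beta_aux hp hnp
    have hn'0 : 0 < n' := hn'.pos
    have hN0 : 2 ^ (v + 1) * n' ≠ 0 := by positivity
    have : NeZero (2 ^ (v + 1) * n') := ⟨hN0⟩
    have hnN : n ∣ 2 ^ (v + 1) * n' :=
      hnd.trans (Nat.mul_dvd_mul_right (pow_dvd_pow 2 (by omega)) n')
    have hNp : (2 ^ (v + 1) * n').Coprime p := by
      refine Nat.Coprime.mul_left ?_ (Nat.Coprime.coprime_dvd_left hnn hnp)
      refine Nat.Coprime.pow_left _ ?_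
      exact (Nat.coprime_primes Nat.prime_two hp).2 (fun h => hp2 h.symm)
    obtain ⟨β, h1, h2, h3, h4⟩ := pre_beta hp hL (hmn.trans hnN) hNp
    have hPi : ∀ x, β (((p ^ F : ℕ) : ZMod (2 ^ (v + 1) * n')) * x) = β x := by
      intro x
      rw [Nat.cast_pow]
      exact inv_pow h3 F x
    refine ⟨fun x => β (emb (2 ^ (v + 1) * n') n x), h1.restr hnN, fun x => h2 _, ?_, ?_, ?_⟩
    · intro x
      simp only [emb_mul hnN, h3]
    · intro x hx
      have key := beta_van rfl hPu.symm hu h1 h2 hPi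
      set w := emb (2 ^ (v + 1) * n') n x with hw
      have hw0 : ((2 ^ v * n' : ℕ) : ZMod (2 ^ (v + 1) * n')) * w = 0 := by
        rw [hw, ← emb_mul hnN]
        obtain ⟨c, hc⟩ := hnd
        rw [hc, Nat.cast_mul, ZMod.natCast_self, zero_mul, zero_mul, emb_zero hnN]
      have hw1 : ((2 ^ 0 * n' : ℕ) : ZMod (2 ^ (v + 1) * n')) * w ≠ 0 := by
        intro h5
        rw [pow_zero, one_mul, hw, ← emb_mul hnN, emb_eq_zero_iff hnN, ← nsmul_eq_mul,
          ← addOrderOf_dvd_iff_nsmul_eq_zero] at h5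
        have h6 : 2 ∣ n' := (even_iff_two_dvd.1 hx).trans h5
        rw [← even_iff_two_dvd] at h6
        exact (Nat.not_even_iff_odd.2 hn') h6
      have hex : ∃ b : ℕ, ((2 ^ b * n' : ℕ) : ZMod (2 ^ (v + 1) * n')) * w = 0 := ⟨v, hw0⟩
      classical
      have hb0 := Nat.find_spec hex
      have hbv : Nat.find hex ≤ v := Nat.find_min' hex hw0
      have hbpos : Nat.find hex ≠ 0 := by
        intro h5
        rw [h5] at hb0
        exact hw1 hb0
      obtain ⟨b, hb⟩ := Nat.exists_eq_succ_of_ne_zero hbpos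
      have hb1 := Nat.find_min hex (m := b) (by omega)
      rw [hb] at hb0
      exact key (v - (b + 1)) b (by omega) w hb0 hb1
    · intro S hS0 hSe hSs hT
      rw [h4 S hS0 hSe hSs hT]
      simp only [emb_emb hmn hnN]

end Pool.Agent.FT
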