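import Pool.Agent.FT.Ord

/-!
# FT-Mono: change of the level

The systems `FQ.Gen` and `Alg` are compatible with the inclusions `emb M m` of `ℤ/m` into `ℤ/M`.
-/

set_option autoImplicit false

namespace Pool.Agent.FT

open Finset
open Pool.Agent.Helper9.Fermat (fib mem_fib)
open Pool.Agent.FS (IsHodge emb)

private theorem hodge_up {m M : ℕ} [NeZero m] [NeZero M] (h : m ∣ M) {S : Multiset (ZMod m)}
    (hS : IsHodge S) : IsHodge (S.map (emb M m)) := by
  intro t
  obtain ⟨u, hu⟩ := isUnit_red h t
  have h1 := hS u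
  rw [Multiset.card_map, Multiset.map_map]
  have h2 : (S.map ((fun x : ZMod M => ((t : ZMod M) * x).val) ∘ emb M m)) =
      (S.map fun x => M / m * ((u : ZMod m) * x).val) := by
    refine Multiset.map_congr rfl fun x _ => ?_
    rw [Function.comp_apply, unit_emb h, emb_val h, hu]
  rw [h2, Multiset.sum_map_mul_left]
  have h3 : M / m * m = M := Nat.div_mul_cancel h
  calc 2 * (M / m * (S.map fun x => ((u : ZMod m) * x).val).sum)
      = M / m * (2 * (S.map fun x => ((u : ZMod m) * x).val).sum) := by ring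
    _ = M / m * (m * S.card) := by rw [h1]
    _ = M * S.card := by rw [← mul_assoc, h3]

private theorem zero_notMem_up {m M : ℕ} [NeZero m] [NeZero M] (h : m ∣ M)
    {S : Multiset (ZMod m)} (h0 : (0 : ZMod m) ∉ S) : (0 : ZMod M) ∉ S.map (emb M m) := by
  rw [Multiset.mem_map]
  rintro ⟨z, hz, hz0⟩
  rw [emb_eq_zero_iff h] at hz0
  rw [hz0] at hz
  exact h0 hz

private theorem pair_up {m M : ℕ} [NeZero m] [NeZero M] (h : m ∣ M) (x : ZMod m) :
    (({x, -x} : Multiset (ZMod m)).map (emb M m)) = {emb M m x, - emb M m x} := by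
  rw [Multiset.insert_eq_cons, Multiset.map_cons, Multiset.map_singleton, emb_neg h]
  rfl

private theorem div_div_up {m M k : ℕ} [NeZero m] (h : m ∣ M) (hk : k ∣ m) :
    M / m * (m / k) = M / k := by
  obtain ⟨c, rfl⟩ := h
  obtain ⟨d, rfl⟩ := hk
  have hk0 : 0 < k := Nat.pos_of_ne_zero fun h0 => NeZero.ne (k * d) (by rw [h0, zero_mul])
  have hm : 0 < k * d := Nat.pos_of_ne_zero (NeZero.ne (k * d))
  rw [Nat.mul_div_cancel_left c hm, Nat.mul_div_cancel_left d hk0, mul_assoc,
    Nat.mul_div_cancel_left (d * c) hk0, mul_comm]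

private theorem sum_period_up (g : ℕ → ℕ) (f F : ℕ) (hg : ∀ i, g (f + i) = g i) :
    ∑ i ∈ range (f * F), g i = F * ∑ i ∈ range f, g i := by
  induction F with
  | zero => simp
  | succ F ih =>
    have h1 : ∀ i, g (f * F + i) = g i := by
      intro i
      clear ih
      induction F with
      | zero => simp
      | succ F ih => rw [Nat.mul_succ, add_assoc, add_comm f i, ← add_assoc, add_comm _ f,
          hg, ih]
    rw [Nat.mul_succ, Finset.sum_range_add, ih, Finset.sum_congr rfl fun i _ => h1 i]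
    ring

theorem tate_up {p m M : ℕ} [NeZero m] [NeZero M] (h : m ∣ M) (hp : M.Coprime p)
    {S : Multiset (ZMod m)} (hS : TateN p S) : TateN p (S.map (emb M m)) := by
  obtain ⟨f, hf, hpf, hS⟩ := hS
  have hM : 0 < M := Nat.pos_of_ne_zero (NeZero.ne M)
  refine ⟨f * M.totient, Nat.mul_pos hf (Nat.totient_pos.2 hM), ?_, ?_⟩
  · have h1 : (ZMod.unitOfCoprime p hp.symm) ^ M.totient = 1 := ZMod.pow_totient _
    have h2 : (p : ZMod M) ^ M.totient = 1 := by
      have h3 := congrArg (Units.val) h1
      rw [Units.val_pow_eq_pow_val, ZMod.coe_unitOfCoprime, Units.val_one] at h3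
      exact h3
    rw [mul_comm, pow_mul, h2, one_pow]
  · intro t
    obtain ⟨u, hu⟩ := isUnit_red h t
    have h1 := hS u
    rw [Multiset.card_map, Multiset.map_map]
    have h2 : (S.map ((fun x : ZMod M => ∑ i ∈ range (f * M.totient),
        ((p : ZMod M) ^ i * ((t : ZMod M) * x)).val) ∘ emb M m)) =
        (S.map fun x => M / m * M.totient *
          ∑ i ∈ range f, ((p : ZMod m) ^ i * ((u : ZMod m) * x)).val) := by
      refine Multiset.map_congr rfl fun x _ => ?_
      rw [Function.comp_apply]
      have h3 : ∀ i, ((p : ZMod M) ^ i * ((t : ZMod M) * emb M m x)).val =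
          M / m * ((p : ZMod m) ^ i * ((u : ZMod m) * x)).val := by
        intro i
        rw [unit_emb h, ← Nat.cast_pow, ← emb_mul h, emb_val h, hu, Nat.cast_pow]
      rw [Finset.sum_congr rfl fun i _ => h3 i, ← Finset.mul_sum,
        sum_period_up (fun i => ((p : ZMod m) ^ i * ((u : ZMod m) * x)).val) f M.totient, mul_assoc]
      intro i
      rw [pow_add, hpf, one_mul]
    rw [h2, Multiset.sum_map_mul_left]
    have h3 : M / m * m = M := Nat.div_mul_cancel h
    calc 2 * (M / m * M.totient *
          (S.map fun x => ∑ i ∈ range f, ((p : ZMod m) ^ i * ((u : ZMod m) * x)).val).sum)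
        = M / m * M.totient *
          (2 * (S.map fun x => ∑ i ∈ range f, ((p : ZMod m) ^ i *
            ((u : ZMod m) * x)).val).sum) := by ring
      _ = M / m * M.totient * (m * f * S.card) := by rw [h1]
      _ = (M / m * m) * (f * M.totient) * S.card := by ring
      _ = M * (f * M.totient) * S.card := by rw [h3]

theorem gen_up {Z : Prop} {P : Set (ℕ × ℕ)} {m M : ℕ} [NeZero m] [NeZero M] (h : m ∣ M)
    {S : Multiset (ZMod m)} (hS : FQ.Gen Z P m S) : FQ.Gen Z P M (S.map (emb M m)) := by
  induction hS with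
  | pair x hx =>
    rw [pair_up h]
    exact FQ.Gen.pair (emb M m x) (emb_ne_zero h hx)
  | standard r hr hrm x hx =>
    have h1 := FQ.Gen.standard (Z := Z) (P := P) (m := M) r hr (hrm.trans h) (emb M m x)
      (by rw [← emb_mul h]; exact emb_ne_zero h hx)
    change FQ.Gen Z P M ((fib M r (r * emb M m x)).val + _ + _) at h1
    change FQ.Gen Z P M (((fib m r (r * x)).val + _ + _).map _)
    rw [fib_emb h hrm, Finset.image_val_of_injOn (emb_inj h).injOn, ← emb_mul h,
      ← emb_neg h] at h1
    have h4 : Multiset.map (emb M m) (if r = 2 then {((m / 2 : ℕ) : ZMod m)} else 0) =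
        (if r = 2 then {((M / 2 : ℕ) : ZMod M)} else 0) := by
      by_cases h2 : r = 2
      · subst h2
        rw [if_pos rfl, if_pos rfl, Multiset.map_singleton, emb_cast h, div_div_up h hrm]
      · rw [if_neg h2, if_neg h2, Multiset.map_zero]
    rw [Multiset.map_add, Multiset.map_add, h4, Multiset.map_singleton]
    exact h1
  | surface S h0 hc hS =>
    exact FQ.Gen.surface _ (zero_notMem_up h h0) (by rw [Multiset.card_map, hc]) (hodge_up h hS)
  | fourfold p q k l hl hP hk t =>
    obtain ⟨u, hu⟩ := ZMod.unitsMap_surjective h t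
    have h1 := FQ.Gen.fourfold (Z := Z) (m := M) p q k l hl hP (hk.trans h) u
    rw [Multiset.map_map]
    have h2 : ((emb M m) ∘ fun a : ℕ => (t : ZMod m) * ((m / k * a : ℕ) : ZMod m)) =
        fun a : ℕ => (u : ZMod M) * ((M / k * a : ℕ) : ZMod M) := by
      funext a
      have h3 : (t : ZMod m) = (((u : ZMod M).val : ℕ) : ZMod m) := by
        rw [← hu, ZMod.unitsMap_val, ZMod.natCast_val]
      rw [Function.comp_apply, h3, ← unit_emb h, emb_cast h, ← mul_assoc, div_div_up h hk]
    rw [h2]
    exact h1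
  | square hZ S h0 hc hS hu =>
    refine FQ.Gen.square hZ _ (zero_notMem_up h h0) (by rw [Multiset.card_map]; exact hc)
      (hodge_up h hS) ?_
    intro t
    obtain ⟨u, hut⟩ := isUnit_red h t
    rw [Multiset.map_map]
    have h1 := congrArg (Multiset.map (emb M m)) (hu u)
    rw [Multiset.map_map] at h1
    refine Eq.trans ?_ h1
    refine Multiset.map_congr rfl fun x _ => ?_
    rw [Function.comp_apply, Function.comp_apply, pow_two, mul_assoc, unit_emb h, unit_emb h,
      hut, ← mul_assoc, ← pow_two]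
  | join S T _ _ ihS ihT =>
    rw [Multiset.map_add]
    exact FQ.Gen.join _ _ ihS ihT
  | cancel S x hx _ ih =>
    refine FQ.Gen.cancel _ (emb M m x) (emb_ne_zero h hx) ?_
    rw [Multiset.map_add, pair_up h] at ih
    exact ih

private theorem lst_up {m M k : ℕ} [NeZero m] [NeZero M] (h : m ∣ M) (hk : k ∣ m) (l : List ℕ)
    (t : (ZMod m)ˣ) : ∃ u : (ZMod M)ˣ, (lst m k l t).map (emb M m) = lst M k l u := by
  obtain ⟨u, hu⟩ := ZMod.unitsMap_surjective h t
  refine ⟨u, ?_⟩
  unfold lst
  rw [Multiset.map_map]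
  have h2 : ((emb M m) ∘ fun a : ℕ => (t : ZMod m) * ((m / k * a : ℕ) : ZMod m)) =
      fun a : ℕ => (u : ZMod M) * ((M / k * a : ℕ) : ZMod M) := by
    funext a
    have h3 : (t : ZMod m) = (((u : ZMod M).val : ℕ) : ZMod m) := by
      rw [← hu, ZMod.unitsMap_val, ZMod.natCast_val]
    rw [Function.comp_apply, h3, ← unit_emb h, emb_cast h, ← mul_assoc, div_div_up h hk]
  rw [h2]

private theorem cover_up {m M : ℕ} [NeZero m] [NeZero M] (h : m ∣ M) {S : Multiset (ZMod m)}
    (hS : Cover S) : Cover (S.map (emb M m)) := by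
  rcases hS with ⟨hd, t, x, y, z, hx, hy, hz, hs, rfl⟩ | ⟨hd, t, rfl⟩
  · obtain ⟨u, hu⟩ := lst_up h ((by norm_num : 55 ∣ 330).trans hd) l55 t
    refine Or.inl ⟨hd.trans h, u, emb M m x, emb M m y, emb M m z, emb_ne_zero h hx,
      emb_ne_zero h hy, emb_ne_zero h hz, ?_, ?_⟩
    · rw [← emb_add h, ← emb_add h, hs, emb_zero h]
    · rw [Multiset.map_add, hu]
      simp only [Multiset.insert_eq_cons, Multiset.map_cons, Multiset.map_singleton]
  · obtain ⟨u, hu⟩ := lst_up h ((by norm_num : 95 ∣ 570).trans hd) l95 t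
    exact Or.inr ⟨hd.trans h, u, hu⟩

theorem alg_up [Flag] {p m M : ℕ} [NeZero m] [NeZero M] (h : m ∣ M) (hp : M.Coprime p)
    {S : Multiset (ZMod m)} (hS : Alg p m S) : Alg p M (S.map (emb M m)) := by
  induction hS with
  | pair x hx =>
    rw [pair_up h]
    exact Alg.pair (emb M m x) (emb_ne_zero h hx)
  | standard r hr hrm x hx =>
    have h1 := Alg.standard (p := p) (m := M) r hr (hrm.trans h) (emb M m x)
      (by rw [← emb_mul h]; exact emb_ne_zero h hx)
    change Alg p M ((fib M r (r * emb M m x)).val + _ + _) at h1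
    change Alg p M (((fib m r (r * x)).val + _ + _).map _)
    rw [fib_emb h hrm, Finset.image_val_of_injOn (emb_inj h).injOn, ← emb_mul h,
      ← emb_neg h] at h1
    have h4 : Multiset.map (emb M m) (if r = 2 then {((m / 2 : ℕ) : ZMod m)} else 0) =
        (if r = 2 then {((M / 2 : ℕ) : ZMod M)} else 0) := by
      by_cases h2 : r = 2
      · subst h2
        rw [if_pos rfl, if_pos rfl, Multiset.map_singleton, emb_cast h, div_div_up h hrm]
      · rw [if_neg h2, if_neg h2, Multiset.map_zero]
    rw [Multiset.map_add, Multiset.map_add, h4, Multiset.map_singleton]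
    exact h1
  | hodge hZ S L hL0 hL hS =>
    have : NeZero (L * M) := ⟨mul_ne_zero hL0.ne (NeZero.ne M)⟩
    refine Alg.hodge hZ _ (L * M) inferInstance (Dvd.intro_left L rfl) ?_
    have h1 := gen_up (M := L * M) (Dvd.intro M rfl) hS
    rw [Multiset.map_map] at h1 ⊢
    have h2 : emb (L * M) L ∘ emb L m = emb (L * M) M ∘ emb M m := by
      funext x
      rw [Function.comp_apply, Function.comp_apply, emb_emb hL (Dvd.intro M rfl),
        emb_emb h (Dvd.intro_left L rfl)]
    rw [h2] at h1
    exact h1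
  | curves x y z x' y' z' hx hy hz hx' hy' hz' h1 h1' hT =>
    have h2 := tate_up h hp hT
    have h3 : (({x, y, z, x', y', z'} : Multiset (ZMod m)).map (emb M m)) =
        {emb M m x, emb M m y, emb M m z, emb M m x', emb M m y', emb M m z'} := by
      simp only [Multiset.insert_eq_cons, Multiset.map_cons, Multiset.map_singleton]
    rw [h3] at h2 ⊢
    refine Alg.curves _ _ _ _ _ _ (emb_ne_zero h hx) (emb_ne_zero h hy) (emb_ne_zero h hz)
      (emb_ne_zero h hx') (emb_ne_zero h hy') (emb_ne_zero h hz') ?_ ?_ h2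
    · rw [← emb_add h, ← emb_add h, h1, emb_zero h]
    · rw [← emb_add h, ← emb_add h, h1', emb_zero h]
  | squares hZ S h0 hc hs ho hT hu =>
    refine Alg.squares hZ _ (zero_notMem_up h h0) (by rw [Multiset.card_map]; exact hc)
      (by rw [emb_sum h, hs, emb_zero h]) ?_ (tate_up h hp hT) ?_
    · intro x hx
      obtain ⟨y, hy, rfl⟩ := Multiset.mem_map.1 hx
      rw [order_emb h]
      exact ho y hy
    · intro t
      obtain ⟨u, hut⟩ := isUnit_red h t
      rw [Multiset.map_map]
      have h1 := congrArg (Multiset.map (emb M m)) (hu u)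
      rw [Multiset.map_map] at h1
      refine Eq.trans ?_ h1
      refine Multiset.map_congr rfl fun x _ => ?_
      rw [Function.comp_apply, Function.comp_apply, pow_two, mul_assoc, unit_emb h, unit_emb h,
        hut, ← mul_assoc, ← pow_two]
  | cover hZ S h0 hc hs hT hC =>
    exact Alg.cover hZ _ (zero_notMem_up h h0) (by rw [Multiset.card_map]; exact hc)
      (by rw [emb_sum h, hs, emb_zero h]) (tate_up h hp hT) (cover_up h hC)
  | join S T _ _ ihS ihT =>
    rw [Multiset.map_add]
    exact Alg.join _ _ ihS ihT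
  | cancel S x hx _ ih =>
    refine Alg.cancel _ (emb M m x) (emb_ne_zero h hx) ?_
    rw [Multiset.map_add, pair_up h] at ih
    exact ih

end Pool.Agent.FT
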