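import Pool.Agent.FT.CL
import Pool.Agent.FT.Mono

/-!
# FT-CK: the coverings with the groups PSL(2, 11) and PSL(2, 19)

The values of a function `b` with the property `BB` at the set `{5, 11}` vanish for `p = 21` modulo
`55`, and at the set `{5, 19}` if `p` is one of 27 residues modulo `95`.
-/

set_option autoImplicit false

namespace Pool.Agent.FT

open Finset
open Pool.Agent.FS (IsHodge emb sw rr)

/-- the sum of the residues of the `p₀ ^ i a`, `i < f`, `a ∈ L` -/
def sumR (n p₀ f : ℕ) (L : List ℕ) : ℕ :=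
  (L.map fun a => ((List.range f).map fun i => p₀ ^ i * a % n).sum).sum

/-- the condition for a list of residues to be a Tate character; `R` is a set of representatives
of the units modulo the powers of `p₀` -/
def ChkR (n p₀ f : ℕ) (R L : List ℕ) : Prop :=
  (0 < f ∧ p₀ ^ f % n = 1) ∧
    (∀ t < n, t.Coprime n → ∃ r ∈ R, ∃ j ∈ List.range f, p₀ ^ j * r % n = t) ∧
    ∀ r ∈ R, 2 * sumR n p₀ f (L.map fun a => r * a) = n * f * L.length

instance (n p₀ f : ℕ) (R L : List ℕ) : Decidable (ChkR n p₀ f R L) := by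
  unfold ChkR
  infer_instance

/-- the multiset of the classes of a list of natural numbers -/
def clist (n : ℕ) (L : List ℕ) : Multiset (ZMod n) :=
  (L : Multiset ℕ).map fun a : ℕ => (a : ZMod n)

private theorem ck_shift {f : ℕ} (g : ℕ → ℕ) (hg : ∀ i, g (i + f) = g i) (j : ℕ) :
    ∑ i ∈ range f, g (i + j) = ∑ i ∈ range f, g i := by
  induction j with
  | zero => rfl
  | succ j ih =>
    rw [← ih]
    have h1 : ∑ i ∈ range f, g (i + (j + 1)) = ∑ i ∈ range f, g (i + 1 + j) :=
      Finset.sum_congr rfl fun i _ => by rw [add_assoc, add_comm 1 j]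
    rw [h1]
    have h2 := Finset.sum_range_succ' (fun i => g (i + j)) f
    rw [Finset.sum_range_succ] at h2
    have h3 : g (f + j) = g (0 + j) := by
      rw [add_comm f j, hg, zero_add]
    rw [h3] at h2
    exact (Nat.add_right_cancel h2).symm

theorem tate_list {n : ℕ} [NeZero n] {p p₀ f : ℕ} {R L : List ℕ} (hp : p % n = p₀ % n)
    (hn1 : 1 < n) (h : ChkR n p₀ f R L) : TateN p (clist n L) := by
  obtain ⟨⟨h1, h2⟩, h3, h4⟩ := h
  have hpp : (p : ZMod n) = (p₀ : ZMod n) := (ZMod.natCast_eq_natCast_iff' _ _ _).2 hp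
  have hpf : (p₀ : ZMod n) ^ f = 1 := by
    rw [← Nat.cast_pow, ← Nat.cast_one, ZMod.natCast_eq_natCast_iff', h2, Nat.mod_eq_of_lt hn1]
  refine ⟨f, h1, by rw [hpp, hpf], fun t => ?_⟩
  obtain ⟨r, hr, j, -, hj⟩ := h3 (t : ZMod n).val (ZMod.val_lt _) (ZMod.val_coe_unit_coprime t)
  have ht : (t : ZMod n) = (p₀ : ZMod n) ^ j * (r : ZMod n) := by
    have h5 := congrArg (fun x : ℕ => (x : ZMod n)) hj
    simp only [ZMod.natCast_mod, ZMod.natCast_zmod_val] at h5
    rw [← h5]
    push_cast
    rfl
  unfold clist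
  rw [Multiset.map_map, Multiset.card_map, Multiset.coe_card, Multiset.map_coe,
    Multiset.sum_coe, ← h4 r hr]
  unfold sumR
  rw [List.map_map]
  refine congrArg (fun s => 2 * s) (congrArg List.sum (List.map_congr_left fun a _ => ?_))
  rw [Function.comp_apply, Function.comp_apply]
  have h6 : ∀ i, ((p : ZMod n) ^ i * ((t : ZMod n) * (a : ZMod n))).val =
      (fun k => ((p₀ : ZMod n) ^ k * ((r : ZMod n) * (a : ZMod n))).val) (i + j) := by
    intro i
    have h7 : (p : ZMod n) ^ i * ((t : ZMod n) * (a : ZMod n)) =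
        (p₀ : ZMod n) ^ (i + j) * ((r : ZMod n) * (a : ZMod n)) := by
      rw [ht, hpp]
      ring
    show ((p : ZMod n) ^ i * ((t : ZMod n) * (a : ZMod n))).val =
      ((p₀ : ZMod n) ^ (i + j) * ((r : ZMod n) * (a : ZMod n))).val
    rw [h7]
  rw [Finset.sum_congr rfl fun i _ => h6 i,
    ck_shift (fun k => ((p₀ : ZMod n) ^ k * ((r : ZMod n) * (a : ZMod n))).val) ?_ j]
  · show (Multiset.map _ (Multiset.range f)).sum = _
    rw [Multiset.range, Multiset.map_coe, Multiset.sum_coe]
    refine congrArg List.sum (List.map_congr_left fun i _ => ?_)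
    have h7 : (p₀ : ZMod n) ^ i * ((r : ZMod n) * (a : ZMod n)) =
        ((p₀ ^ i * (r * a) : ℕ) : ZMod n) := by
      push_cast
      rfl
    rw [h7, ZMod.val_natCast]
  · intro i
    show ((p₀ : ZMod n) ^ (i + f) * ((r : ZMod n) * (a : ZMod n))).val =
      ((p₀ : ZMod n) ^ i * ((r : ZMod n) * (a : ZMod n))).val
    rw [pow_add, hpf, mul_one]

theorem lst_eq {n k : ℕ} (l : List ℕ) : lst n k l 1 = clist n (l.map fun a => n / k * a) := by
  unfold lst clist
  rw [Multiset.map_coe, Multiset.map_coe, List.map_map]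
  refine congrArg _ (List.map_congr_left fun a _ => ?_)
  rw [Function.comp_apply, Units.val_one, one_mul]

theorem emb_clist {k n : ℕ} [NeZero k] [NeZero n] (h : k ∣ n) (L : List ℕ) :
    (clist k L).map (emb n k) = clist n (L.map fun a => n / k * a) := by
  unfold clist
  rw [Multiset.map_coe, Multiset.map_coe, Multiset.map_coe, List.map_map, List.map_map]
  refine congrArg _ (List.map_congr_left fun a _ => ?_)
  rw [Function.comp_apply, Function.comp_apply, emb_cast h]

private theorem ck_zero {n : ℕ} {L : List ℕ} (h : ∀ a ∈ L, ¬ n ∣ a) : (0 : ZMod n) ∉ clist n L := by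
  unfold clist
  rw [Multiset.mem_map]
  rintro ⟨a, ha, h0⟩
  exact h a ha ((ZMod.natCast_eq_zero_iff a n).1 h0)

private theorem ck_sum {n : ℕ} (L : List ℕ) : (clist n L).sum = ((L.sum : ℕ) : ZMod n) := by
  unfold clist
  rw [Multiset.map_coe, Multiset.sum_coe]
  induction L with
  | nil => simp
  | cons a L ih => rw [List.map_cons, List.sum_cons, ih, List.sum_cons, Nat.cast_add]

private theorem ck_vl {n : ℕ} [NeZero n] {B : Type} [AddCommGroup B] (b : Finset ℕ → B)
    (L : List ℕ) : ((clist n L).map (vl b)).sum = (L.map fun a =>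
      if Odd (n / n.gcd a) then b (n / n.gcd a).primeFactors else 0).sum := by
  unfold clist
  rw [Multiset.map_coe, Multiset.map_coe, Multiset.sum_coe, List.map_map]
  refine congrArg List.sum (List.map_congr_left fun a _ => ?_)
  rw [Function.comp_apply]
  unfold vl
  rw [ZMod.addOrderOf_coe a (NeZero.ne n)]

private theorem ck_pf {a b : ℕ} (ha : a.Prime) (hb : b.Prime) :
    Nat.primeFactors (a * b) = {a, b} := by
  rw [Nat.primeFactors_mul ha.ne_zero hb.ne_zero, ha.primeFactors, hb.primeFactors]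
  rfl

private theorem ck_term {n a k : ℕ} {B : Type} [AddCommGroup B] (b : Finset ℕ → B)
    {V : Finset ℕ} (hk : n / n.gcd a = k) (ho : Odd k) (hV : k.primeFactors = V) :
    (if Odd (n / n.gcd a) then b (n / n.gcd a).primeFactors else 0) = b V := by
  rw [hk, if_pos ho, hV]

theorem kil_5_11b [Flag] (hZ : Flag.z) {p M : ℕ} (hMp : M.Coprime p) (hM : 330 ∣ M) {B : Type} [AddCommGroup B]
    {b : Finset ℕ → B} (hb : BB p M b) (h11 : b {11} = 0) (hp : p % 55 = 21) :
    b {5, 11} = 0 := by
  have hT0 : TateN p (clist 55 [1, 16, 26, 31, 36, 10, 50, 50]) :=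
    tate_list (p₀ := 21) (f := 2) (R := [1, 2, 3, 4, 6, 7, 9, 12, 13, 14, 17, 18, 23, 26, 28, 31, 34, 36, 39, 47]) hp (by norm_num) (by decide +kernel)
  have hp330 : Nat.Coprime 330 p := Nat.Coprime.coprime_dvd_left hM hMp
  have hT := tate_up (M := 330) (by norm_num) hp330 hT0
  have hC : Cover ((clist 55 [1, 16, 26, 31, 36, 10, 50, 50]).map (emb 330 55)) := by
    refine Or.inl ⟨dvd_rfl, 1, ((60 : ℕ) : ZMod 330), ((300 : ℕ) : ZMod 330),
      ((300 : ℕ) : ZMod 330), ?_, ?_, ?_, ?_, ?_⟩
    · rw [ne_eq, ZMod.natCast_eq_zero_iff]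
      decide
    · rw [ne_eq, ZMod.natCast_eq_zero_iff]
      decide
    · rw [ne_eq, ZMod.natCast_eq_zero_iff]
      decide
    · rw [← Nat.cast_add, ← Nat.cast_add, ZMod.natCast_eq_zero_iff]
      decide
    · rw [emb_clist (by norm_num), lst_eq]
      rfl
  have h1 := hb.alg 330 hM _ (Alg.cover hZ _ ?_ ?_ ?_ hT hC) hT
  · rw [emb_clist (by norm_num), ck_vl] at h1
    simp only [List.map_cons, List.map_nil, List.sum_cons, List.sum_nil] at h1
    have e55 : Nat.primeFactors 55 = {5, 11} := ck_pf (a := 5) (b := 11) (by norm_num) (by norm_num)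
    have e11 : Nat.primeFactors 11 = {11} := Nat.Prime.primeFactors (by norm_num)
    have o55 : Odd 55 := by decide
    have o11 : Odd 11 := by decide
    rw [ck_term b (k := 55) (by decide) o55 e55, ck_term b (k := 55) (by decide) o55 e55,
      ck_term b (k := 55) (by decide) o55 e55, ck_term b (k := 55) (by decide) o55 e55,
      ck_term b (k := 55) (by decide) o55 e55, ck_term b (k := 11) (by decide) o11 e11,
      ck_term b (k := 11) (by decide) o11 e11, h11] at h1
    have h2 := hb.two {5, 11}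
    have h3 : b {5, 11} + (2 • b {5, 11} + 2 • b {5, 11}) = 0 := by
      rw [← h1, two_nsmul]
      abel
    rwa [h2, add_zero, add_zero] at h3
  · rw [emb_clist (by norm_num)]
    exact ck_zero (by decide)
  · rw [emb_clist (by norm_num)]
    decide
  · rw [emb_clist (by norm_num), ck_sum, ZMod.natCast_eq_zero_iff]
    decide

/-- the residues modulo `95` -/
def r95 : List ℕ := [7, 17, 21, 23, 28, 31, 41, 42, 43, 46, 47, 51, 56, 58, 62, 63, 68, 71, 73, 77, 82, 83, 86, 87, 91, 92, 93]

private theorem ck_tate95 {p : ℕ} (hp : p % 95 ∈ r95) : TateN p (clist 95 l95) := by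
  simp only [r95, List.mem_cons, List.not_mem_nil, or_false] at hp
  rcases hp with h | h | h | h | h | h | h | h | h | h | h | h | h | h | h | h | h | h | h | h | h | h | h | h | h | h | h
  · exact tate_list (p₀ := 7) (f := 12) (R := [1, 2, 4, 8, 13, 16]) h (by norm_num)
      (by decide +kernel)
  · exact tate_list (p₀ := 17) (f := 36) (R := [1, 2]) h (by norm_num)
      (by decide +kernel)
  · exact tate_list (p₀ := 21) (f := 18) (R := [1, 2, 3, 4]) h (by norm_num)
      (by decide +kernel)
  · exact tate_list (p₀ := 23) (f := 36) (R := [1, 2]) h (by norm_num)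
      (by decide +kernel)
  · exact tate_list (p₀ := 28) (f := 36) (R := [1, 2]) h (by norm_num)
      (by decide +kernel)
  · exact tate_list (p₀ := 31) (f := 6) (R := [1, 2, 3, 4, 6, 7, 8, 13, 14, 16, 32, 39]) h (by norm_num)
      (by decide +kernel)
  · exact tate_list (p₀ := 41) (f := 18) (R := [1, 2, 3, 4]) h (by norm_num)
      (by decide +kernel)
  · exact tate_list (p₀ := 42) (f := 36) (R := [1, 2]) h (by norm_num)
      (by decide +kernel)
  · exact tate_list (p₀ := 43) (f := 36) (R := [1, 2]) h (by norm_num)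
      (by decide +kernel)
  · exact tate_list (p₀ := 46) (f := 6) (R := [1, 2, 3, 4, 6, 7, 8, 13, 14, 16, 32, 39]) h (by norm_num)
      (by decide +kernel)
  · exact tate_list (p₀ := 47) (f := 36) (R := [1, 2]) h (by norm_num)
      (by decide +kernel)
  · exact tate_list (p₀ := 51) (f := 18) (R := [1, 2, 3, 4]) h (by norm_num)
      (by decide +kernel)
  · exact tate_list (p₀ := 56) (f := 2) (R := [1, 2, 3, 4, 6, 7, 8, 9, 11, 13, 14, 16, 18, 21, 22, 23, 26, 27, 28, 32, 33, 37, 39, 42, 44, 47, 49, 52, 54, 59, 61, 64, 66, 71, 78, 83]) h (by norm_num)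
      (by decide +kernel)
  · exact tate_list (p₀ := 58) (f := 4) (R := [1, 2, 3, 4, 6, 7, 8, 9, 11, 12, 13, 14, 16, 17, 18, 24, 29, 34]) h (by norm_num)
      (by decide +kernel)
  · exact tate_list (p₀ := 62) (f := 36) (R := [1, 2]) h (by norm_num)
      (by decide +kernel)
  · exact tate_list (p₀ := 63) (f := 36) (R := [1, 2]) h (by norm_num)
      (by decide +kernel)
  · exact tate_list (p₀ := 68) (f := 12) (R := [1, 2, 4, 8, 13, 16]) h (by norm_num)
      (by decide +kernel)
  · exact tate_list (p₀ := 71) (f := 18) (R := [1, 2, 3, 4]) h (by norm_num)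
      (by decide +kernel)
  · exact tate_list (p₀ := 73) (f := 36) (R := [1, 2]) h (by norm_num)
      (by decide +kernel)
  · exact tate_list (p₀ := 77) (f := 4) (R := [1, 2, 3, 4, 6, 7, 8, 9, 11, 12, 13, 14, 16, 17, 18, 24, 29, 34]) h (by norm_num)
      (by decide +kernel)
  · exact tate_list (p₀ := 82) (f := 36) (R := [1, 2]) h (by norm_num)
      (by decide +kernel)
  · exact tate_list (p₀ := 83) (f := 12) (R := [1, 2, 4, 8, 13, 16]) h (by norm_num)
      (by decide +kernel)
  · exact tate_list (p₀ := 86) (f := 18) (R := [1, 2, 3, 4]) h (by norm_num)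
      (by decide +kernel)
  · exact tate_list (p₀ := 87) (f := 12) (R := [1, 2, 4, 8, 13, 16]) h (by norm_num)
      (by decide +kernel)
  · exact tate_list (p₀ := 91) (f := 18) (R := [1, 2, 3, 4]) h (by norm_num)
      (by decide +kernel)
  · exact tate_list (p₀ := 92) (f := 36) (R := [1, 2]) h (by norm_num)
      (by decide +kernel)
  · exact tate_list (p₀ := 93) (f := 36) (R := [1, 2]) h (by norm_num)
      (by decide +kernel)

theorem kil_5_19 [Flag] (hZ : Flag.z) {p M : ℕ} (hMp : M.Coprime p) (hM : 570 ∣ M) {B : Type} [AddCommGroup B]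
    {b : Finset ℕ → B} (hb : BB p M b) (h5 : b {5} = 0) (hp : p % 95 ∈ r95) :
    b {5, 19} = 0 := by
  have hT0 := ck_tate95 hp
  have hp570 : Nat.Coprime 570 p := Nat.Coprime.coprime_dvd_left hM hMp
  have hT := tate_up (M := 570) (by norm_num) hp570 hT0
  have hC : Cover ((clist 95 l95).map (emb 570 95)) := by
    refine Or.inr ⟨dvd_rfl, 1, ?_⟩
    rw [emb_clist (by norm_num), lst_eq]
  have h1 := hb.alg 570 hM _ (Alg.cover hZ _ ?_ ?_ ?_ hT hC) hT
  · rw [emb_clist (by norm_num), ck_vl] at h1
    unfold l95 at h1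
    simp only [List.map_cons, List.map_nil, List.sum_cons, List.sum_nil] at h1
    have e95 : Nat.primeFactors 95 = {5, 19} := ck_pf (a := 5) (b := 19) (by norm_num) (by norm_num)
    have e5 : Nat.primeFactors 5 = {5} := Nat.Prime.primeFactors (by norm_num)
    have o95 : Odd 95 := by decide
    have o5 : Odd 5 := by decide
    rw [ck_term b (k := 95) (by decide) o95 e95, ck_term b (k := 95) (by decide) o95 e95,
      ck_term b (k := 5) (by decide) o5 e5, ck_term b (k := 95) (by decide) o95 e95,
      ck_term b (k := 95) (by decide) o95 e95, ck_term b (k := 95) (by decide) o95 e95,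
      ck_term b (k := 95) (by decide) o95 e95, ck_term b (k := 95) (by decide) o95 e95,
      ck_term b (k := 95) (by decide) o95 e95, ck_term b (k := 95) (by decide) o95 e95, h5] at h1
    have h2 := hb.two {5, 19}
    have h3 : b {5, 19} + (2 • b {5, 19} + 2 • b {5, 19} + (2 • b {5, 19} + 2 • b {5, 19})) =
        0 := by
      rw [← h1, two_nsmul]
      abel
    rwa [h2, add_zero, add_zero, add_zero] at h3
  · rw [emb_clist (by norm_num)]
    exact ck_zero (by decide)
  · rw [emb_clist (by norm_num)]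
    decide
  · rw [emb_clist (by norm_num), ck_sum, ZMod.natCast_eq_zero_iff]
    decide

end Pool.Agent.FT
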