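import Pool.Agent.FT.BB

/-!
# FT-CL: explicit pairs of curves

Pairs of triples of residues which form a Tate character are checked by computation; the values of
a function `b` with the property `BB` at the set `{3, 5}` vanish for `p = 7, 11, 13` modulo `15`.
-/

set_option autoImplicit false

namespace Pool.Agent.FT

open Finset
open Pool.Agent.FS (IsHodge emb sw rr)

/-- the decidable conditions for a pair of triples to be a Tate character -/
def Chk (n p₀ f x y z x' y' z' : ℕ) : Prop :=
  0 < f ∧ p₀ ^ f % n = 1 ∧ (∀ a ∈ [x, y, z, x', y', z'], ¬ n ∣ a) ∧ n ∣ x + y + z ∧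
    n ∣ x' + y' + z' ∧ ∀ t < n, t.Coprime n →
      2 * ([x, y, z, x', y', z'].map fun a =>
        ∑ i ∈ range f, (p₀ ^ i * (t * a)) % n).sum = n * f * 6

instance (n p₀ f x y z x' y' z' : ℕ) : Decidable (Chk n p₀ f x y z x' y' z') := by
  unfold Chk
  infer_instance

private theorem cl_val {n : ℕ} [NeZero n] {p p₀ : ℕ} (hp : p % n = p₀ % n) (f : ℕ) (t : ZMod n)
    (a : ℕ) : ∑ i ∈ range f, ((p : ZMod n) ^ i * (t * (a : ZMod n))).val =
      ∑ i ∈ range f, (p₀ ^ i * (t.val * a)) % n := by
  refine Finset.sum_congr rfl fun i _ => ?_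
  have h1 : (p : ZMod n) = (p₀ : ZMod n) := (ZMod.natCast_eq_natCast_iff' _ _ _).2 hp
  have h2 : (p : ZMod n) ^ i * (t * (a : ZMod n)) = ((p₀ ^ i * (t.val * a) : ℕ) : ZMod n) := by
    rw [h1]
    push_cast
    rw [ZMod.natCast_zmod_val]
  rw [h2, ZMod.val_natCast]

private theorem cl_vl {n : ℕ} [NeZero n] {B : Type} [AddCommGroup B] (b : Finset ℕ → B) (a : ℕ) :
    vl b (a : ZMod n) = if Odd (n / n.gcd a) then b (n / n.gcd a).primeFactors else 0 := by
  unfold vl
  rw [ZMod.addOrderOf_coe a (NeZero.ne n)]

theorem cur_list [Flag] {p M : ℕ} {B : Type} [AddCommGroup B] {b : Finset ℕ → B} (hb : BB p M b) {n : ℕ}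
    [NeZero n] (hn : n ∣ M) {p₀ f x y z x' y' z' : ℕ} (hp : p % n = p₀ % n) (hn1 : 1 < n)
    (h : Chk n p₀ f x y z x' y' z') :
    ([x, y, z, x', y', z'].map fun a =>
      if Odd (n / n.gcd a) then b (n / n.gcd a).primeFactors else 0).sum = 0 := by
  obtain ⟨h1, h2, h3, h4, h5, h6⟩ := h
  have hne : ∀ a ∈ [x, y, z, x', y', z'], (a : ZMod n) ≠ 0 := fun a ha h0 =>
    h3 a ha ((ZMod.natCast_eq_zero_iff a n).1 h0)
  have hpp : (p : ZMod n) = (p₀ : ZMod n) := (ZMod.natCast_eq_natCast_iff' _ _ _).2 hp
  have hT : TateN p ({(x : ZMod n), (y : ZMod n), (z : ZMod n), (x' : ZMod n), (y' : ZMod n),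
      (z' : ZMod n)} : Multiset (ZMod n)) := by
    refine ⟨f, h1, ?_, fun t => ?_⟩
    · rw [hpp, ← Nat.cast_pow, ← Nat.cast_one, ZMod.natCast_eq_natCast_iff', h2,
        Nat.mod_eq_of_lt hn1]
    · have h7 := h6 (t : ZMod n).val (ZMod.val_lt _) (ZMod.val_coe_unit_coprime t)
      simp only [Multiset.insert_eq_cons, Multiset.map_cons, Multiset.map_singleton,
        Multiset.sum_cons, Multiset.sum_singleton, Multiset.card_cons, Multiset.card_singleton,
        cl_val hp]
      simp only [List.map_cons, List.map_nil, List.sum_cons, List.sum_nil, add_zero] at h7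
      exact h7
  have e1 : (x : ZMod n) + y + z = 0 := by
    have := (ZMod.natCast_eq_zero_iff (x + y + z) n).2 h4
    push_cast at this
    exact this
  have e2 : (x' : ZMod n) + y' + z' = 0 := by
    have := (ZMod.natCast_eq_zero_iff (x' + y' + z') n).2 h5
    push_cast at this
    exact this
  have h8 := hb.alg n hn _ (Alg.curves (x : ZMod n) y z x' y' z' (hne x (by simp))
    (hne y (by simp)) (hne z (by simp)) (hne x' (by simp)) (hne y' (by simp)) (hne z' (by simp))
    e1 e2 hT) hT
  simp only [Multiset.insert_eq_cons, Multiset.map_cons, Multiset.map_singleton,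
    Multiset.sum_cons, Multiset.sum_singleton, cl_vl] at h8
  simp only [List.map_cons, List.map_nil, List.sum_cons, List.sum_nil, add_zero]
  exact h8

private theorem cl_even {n a : ℕ} {B : Type} [AddCommGroup B] (b : Finset ℕ → B) (k : ℕ)
    (hk : n / n.gcd a = k) (h : ¬ Odd k) :
    (if Odd (n / n.gcd a) then b (n / n.gcd a).primeFactors else 0) = 0 := by
  rw [hk, if_neg h]

private theorem cl_15 : Nat.primeFactors 15 = {3, 5} := by
  have h : (15 : ℕ) = 3 * 5 := by norm_num
  rw [h, Nat.primeFactors_mul (by norm_num) (by norm_num), Nat.Prime.primeFactors (by norm_num),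
    Nat.Prime.primeFactors (by norm_num)]
  rfl

private theorem cl_odd {n a : ℕ} {B : Type} [AddCommGroup B] (b : Finset ℕ → B)
    (hk : n / n.gcd a = 15) :
    (if Odd (n / n.gcd a) then b (n / n.gcd a).primeFactors else 0) = b {3, 5} := by
  rw [hk, if_pos (by decide), cl_15]

theorem kil_3_5 [Flag] {p M : ℕ} (hMp : M.Coprime p) (hM : 60 ∣ M) {B : Type} [AddCommGroup B]
    {b : Finset ℕ → B} (hb : BB p M b) (h3 : b {3} = 0) (h5 : b {5} = 0)
    (hp : p % 15 = 7 ∨ p % 15 = 11 ∨ p % 15 = 13) : b {3, 5} = 0 := by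
  have _h3 := h3
  have _h5 := h5
  have h2 : p % 2 = 1 := by
    by_contra h
    have h1 : 2 ∣ p := by omega
    have h4 : 2 ∣ M := (by norm_num : 2 ∣ 60).trans hM
    have h6 := Nat.dvd_gcd h4 h1
    rw [Nat.Coprime.gcd_eq_one hMp] at h6
    omega
  have hc : p % 60 = 7 ∨ p % 60 = 37 ∨ p % 60 = 11 ∨ p % 60 = 41 ∨ p % 60 = 13 ∨ p % 60 = 43 := by
    omega
  rcases hc with h | h | h | h | h | h
  · have h1 := cur_list hb hM (p₀ := 7) (f := 4) (x := 1) (y := 1) (z := 58) (x' := 1) (y' := 4)
      (z' := 55) h (by norm_num) (by decide +kernel)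
    simp only [List.map_cons, List.map_nil, List.sum_cons, List.sum_nil] at h1
    rw [cl_even b 60 (by decide) (by decide), cl_even b 30 (by decide) (by decide),
      cl_odd b (by decide), cl_even b 12 (by decide) (by decide)] at h1
    simpa using h1
  · have h1 := cur_list hb hM (p₀ := 37) (f := 4) (x := 1) (y := 1) (z := 58) (x' := 1) (y' := 3)
      (z' := 56) h (by norm_num) (by decide +kernel)
    simp only [List.map_cons, List.map_nil, List.sum_cons, List.sum_nil] at h1
    rw [cl_even b 60 (by decide) (by decide), cl_even b 30 (by decide) (by decide),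
      cl_even b 20 (by decide) (by decide), cl_odd b (by decide)] at h1
    simpa using h1
  · have h1 := cur_list hb hM (p₀ := 11) (f := 2) (x := 1) (y := 2) (z := 57) (x' := 5) (y' := 56)
      (z' := 59) h (by norm_num) (by decide +kernel)
    simp only [List.map_cons, List.map_nil, List.sum_cons, List.sum_nil] at h1
    rw [cl_even b 60 (by decide) (by decide), cl_even b 30 (by decide) (by decide),
      cl_even b 20 (by decide) (by decide), cl_even b 12 (by decide) (by decide),
      cl_odd b (by decide), cl_even b 60 (by decide) (by decide)] at h1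
    simpa using h1
  · have h1 := cur_list hb hM (p₀ := 41) (f := 2) (x := 1) (y := 1) (z := 58) (x' := 1) (y' := 7)
      (z' := 52) h (by norm_num) (by decide +kernel)
    simp only [List.map_cons, List.map_nil, List.sum_cons, List.sum_nil] at h1
    rw [cl_even b 60 (by decide) (by decide), cl_even b 30 (by decide) (by decide),
      cl_even b 60 (by decide) (by decide), cl_odd b (by decide)] at h1
    simpa using h1
  · have h1 := cur_list hb hM (p₀ := 13) (f := 4) (x := 1) (y := 1) (z := 58) (x' := 1) (y' := 3)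
      (z' := 56) h (by norm_num) (by decide +kernel)
    simp only [List.map_cons, List.map_nil, List.sum_cons, List.sum_nil] at h1
    rw [cl_even b 60 (by decide) (by decide), cl_even b 30 (by decide) (by decide),
      cl_even b 20 (by decide) (by decide), cl_odd b (by decide)] at h1
    simpa using h1
  · have h1 := cur_list hb hM (p₀ := 43) (f := 4) (x := 1) (y := 1) (z := 58) (x' := 1) (y' := 4)
      (z' := 55) h (by norm_num) (by decide +kernel)
    simp only [List.map_cons, List.map_nil, List.sum_cons, List.sum_nil] at h1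
    rw [cl_even b 60 (by decide) (by decide), cl_even b 30 (by decide) (by decide),
      cl_odd b (by decide), cl_even b 12 (by decide) (by decide)] at h1
    simpa using h1

end Pool.Agent.FT
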