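import Pool.Agent.FT.CL

/-!
# FT-CM: explicit pairs of curves for the primes 3 and 13

`kil_3_13`: for the residue classes of `p` in the list the value of `b` at `{3, 13}` vanishes: explicit
Tate characters of level `156` (pairs of curves, `cur_list`) with exactly one element of order `39`.
-/

set_option autoImplicit false

namespace Pool.Agent.FT

open Finset

/-- the value of `vl b` on an element of `ZMod 156` -/
private theorem cm_val {B : Type} [AddCommGroup B] {b : Finset ℕ → B} (h3 : b {3} = 0)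
    (h13 : b {13} = 0) {a : ℕ} (ha : ¬ 156 ∣ a) :
    (if Odd (156 / Nat.gcd 156 a) then b (156 / Nat.gcd 156 a).primeFactors else 0) =
      if 156 / Nat.gcd 156 a = 39 then b {3, 13} else 0 := by
  have h1 : 156 / Nat.gcd 156 a ∈ Nat.divisors 156 :=
    Nat.mem_divisors.2 ⟨Nat.div_dvd_of_dvd (Nat.gcd_dvd_left _ _), by norm_num⟩
  have h2 : Nat.divisors 156 = {1, 2, 3, 4, 6, 12, 13, 26, 39, 52, 78, 156} := by decide +kernel
  have h4 : 156 / Nat.gcd 156 a ≠ 1 := by
    intro h
    have h5 := Nat.div_mul_cancel (Nat.gcd_dvd_left 156 a)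
    rw [h, one_mul] at h5
    exact ha (h5 ▸ Nat.gcd_dvd_right 156 a)
  have f3 : Nat.primeFactors 3 = {3} := Nat.Prime.primeFactors (by norm_num)
  have f13 : Nat.primeFactors 13 = {13} := Nat.Prime.primeFactors (by norm_num)
  have f39 : Nat.primeFactors 39 = {3, 13} := by
    rw [show (39 : ℕ) = 3 * 13 by norm_num, Nat.primeFactors_mul (by norm_num) (by norm_num),
      f3, f13]
    rfl
  rw [h2] at h1
  generalize 156 / Nat.gcd 156 a = d at h1 h4 ⊢
  simp only [mem_insert, mem_singleton] at h1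
  rcases h1 with rfl | rfl | rfl | rfl | rfl | rfl | rfl | rfl | rfl | rfl | rfl | rfl
  · exact absurd rfl h4
  · rw [if_neg (by decide), if_neg (by norm_num)]
  · rw [if_pos (by decide), if_neg (by norm_num), f3, h3]
  · rw [if_neg (by decide), if_neg (by norm_num)]
  · rw [if_neg (by decide), if_neg (by norm_num)]
  · rw [if_neg (by decide), if_neg (by norm_num)]
  · rw [if_pos (by decide), if_neg (by norm_num), f13, h13]
  · rw [if_neg (by decide), if_neg (by norm_num)]
  · rw [if_pos (by decide), if_pos rfl, f39]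
  · rw [if_neg (by decide), if_neg (by norm_num)]
  · rw [if_neg (by decide), if_neg (by norm_num)]
  · rw [if_neg (by decide), if_neg (by norm_num)]

/-- a list with exactly one element of order `39` -/
private theorem cm_kil [Flag] {p M : ℕ} (hM : 156 ∣ M) {B : Type} [AddCommGroup B]
    {b : Finset ℕ → B} (hb : BB p M b) (h3 : b {3} = 0) (h13 : b {13} = 0)
    {p₀ f x y z x' y' z' : ℕ} (hp : p % 156 = p₀ % 156) (h : Chk 156 p₀ f x y z x' y' z')
    (h1 : (([x, y, z, x', y', z'].map fun a => if 156 / Nat.gcd 156 a = 39 then 1 else 0).sum : ℕ)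
      = 1) : b {3, 13} = 0 := by
  have h2 := cur_list (n := 156) hb hM hp (by norm_num) h
  have h5 : ([x, y, z, x', y', z'].map fun a =>
      if Odd (156 / Nat.gcd 156 a) then b (156 / Nat.gcd 156 a).primeFactors else 0) =
      [x, y, z, x', y', z'].map fun a =>
        (if 156 / Nat.gcd 156 a = 39 then 1 else 0 : ℕ) • b {3, 13} := by
    refine List.map_congr_left fun a ha => ?_
    rw [cm_val h3 h13 (h.2.2.1 a ha)]
    split_ifs
    · rw [one_smul]
    · rw [zero_smul]
  rw [h5] at h2
  have h6 : ∀ L : List ℕ, (L.map fun a =>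
      (if 156 / Nat.gcd 156 a = 39 then 1 else 0 : ℕ) • b {3, 13}).sum =
      ((L.map fun a => (if 156 / Nat.gcd 156 a = 39 then 1 else 0 : ℕ)).sum) • b {3, 13} := by
    intro L
    induction L with
    | nil => simp
    | cons u L ih => rw [List.map_cons, List.sum_cons, ih, List.map_cons, List.sum_cons, add_smul]
  rw [h6, h1, one_smul] at h2
  exact h2

theorem kil_3_13 [Flag] {p M : ℕ} (hMp : M.Coprime p) (hM : 156 ∣ M) {B : Type} [AddCommGroup B]
    {b : Finset ℕ → B} (hb : BB p M b) (h3 : b {3} = 0) (h13 : b {13} = 0)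
    (hp : p % 39 ∈ [7, 14, 19, 28, 29, 31, 34, 35, 37]) : b {3, 13} = 0 := by
  have hp2 : p % 2 = 1 := by
    have h1 : Nat.Coprime 2 p := Nat.Coprime.coprime_dvd_left ((by norm_num : 2 ∣ 156).trans hM) hMp
    have h2 : ¬ 2 ∣ p := fun h => by
      have := Nat.dvd_gcd (dvd_refl 2) h
      rw [h1] at this
      exact absurd this (by norm_num)
    omega
  have h0 : p % 156 = 7 ∨ p % 156 = 19 ∨ p % 156 = 29 ∨ p % 156 = 31 ∨ p % 156 = 35 ∨ p % 156 = 37 ∨ p % 156 = 53 ∨ p % 156 = 67 ∨ p % 156 = 73 ∨ p % 156 = 85 ∨ p % 156 = 97 ∨ p % 156 = 107 ∨ p % 156 = 109 ∨ p % 156 = 113 ∨ p % 156 = 115 ∨ p % 156 = 131 ∨ p % 156 = 145 ∨ p % 156 = 151 := by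
    simp only [List.mem_cons, List.not_mem_nil, or_false] at hp
    omega
  rcases h0 with h | h | h | h | h | h | h | h | h | h | h | h | h | h | h | h | h | h
  · exact cm_kil hM hb h3 h13 (p₀ := 7) (f := 12) (x := 1) (y := 1) (z := 154) (x' := 4) (y' := 15)
      (z' := 137) h (by decide +kernel) (by decide +kernel)
  · exact cm_kil hM hb h3 h13 (p₀ := 19) (f := 12) (x := 1) (y := 1) (z := 154) (x' := 4) (y' := 15)
      (z' := 137) h (by decide +kernel) (by decide +kernel)
  · exact cm_kil hM hb h3 h13 (p₀ := 29) (f := 6) (x := 1) (y := 1) (z := 154) (x' := 4) (y' := 43)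
      (z' := 109) h (by decide +kernel) (by decide +kernel)
  · exact cm_kil hM hb h3 h13 (p₀ := 31) (f := 4) (x := 1) (y := 2) (z := 153) (x' := 3) (y' := 5)
      (z' := 148) h (by decide +kernel) (by decide +kernel)
  · exact cm_kil hM hb h3 h13 (p₀ := 35) (f := 6) (x := 1) (y := 1) (z := 154) (x' := 8) (y' := 53)
      (z' := 95) h (by decide +kernel) (by decide +kernel)
  · exact cm_kil hM hb h3 h13 (p₀ := 37) (f := 12) (x := 1) (y := 1) (z := 154) (x' := 1) (y' := 3)
      (z' := 152) h (by decide +kernel) (by decide +kernel)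
  · exact cm_kil hM hb h3 h13 (p₀ := 53) (f := 2) (x := 1) (y := 52) (z := 103) (x' := 2) (y' := 14)
      (z' := 140) h (by decide +kernel) (by decide +kernel)
  · exact cm_kil hM hb h3 h13 (p₀ := 67) (f := 12) (x := 1) (y := 1) (z := 154) (x' := 4) (y' := 15)
      (z' := 137) h (by decide +kernel) (by decide +kernel)
  · exact cm_kil hM hb h3 h13 (p₀ := 73) (f := 4) (x := 1) (y := 2) (z := 153) (x' := 7) (y' := 37)
      (z' := 112) h (by decide +kernel) (by decide +kernel)
  · exact cm_kil hM hb h3 h13 (p₀ := 85) (f := 12) (x := 1) (y := 1) (z := 154) (x' := 1) (y' := 3)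
      (z' := 152) h (by decide +kernel) (by decide +kernel)
  · exact cm_kil hM hb h3 h13 (p₀ := 97) (f := 12) (x := 1) (y := 1) (z := 154) (x' := 1) (y' := 3)
      (z' := 152) h (by decide +kernel) (by decide +kernel)
  · exact cm_kil hM hb h3 h13 (p₀ := 107) (f := 6) (x := 1) (y := 1) (z := 154) (x' := 8) (y' := 53)
      (z' := 95) h (by decide +kernel) (by decide +kernel)
  · exact cm_kil hM hb h3 h13 (p₀ := 109) (f := 4) (x := 1) (y := 2) (z := 153) (x' := 7) (y' := 37)
      (z' := 112) h (by decide +kernel) (by decide +kernel)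
  · exact cm_kil hM hb h3 h13 (p₀ := 113) (f := 6) (x := 1) (y := 1) (z := 154) (x' := 4) (y' := 43)
      (z' := 109) h (by decide +kernel) (by decide +kernel)
  · exact cm_kil hM hb h3 h13 (p₀ := 115) (f := 12) (x := 1) (y := 1) (z := 154) (x' := 4) (y' := 15)
      (z' := 137) h (by decide +kernel) (by decide +kernel)
  · exact cm_kil hM hb h3 h13 (p₀ := 131) (f := 2) (x := 1) (y := 3) (z := 152) (x' := 10) (y' := 147)
      (z' := 155) h (by decide +kernel) (by decide +kernel)
  · exact cm_kil hM hb h3 h13 (p₀ := 145) (f := 12) (x := 1) (y := 1) (z := 154) (x' := 1) (y' := 3)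
      (z' := 152) h (by decide +kernel) (by decide +kernel)
  · exact cm_kil hM hb h3 h13 (p₀ := 151) (f := 4) (x := 1) (y := 2) (z := 153) (x' := 3) (y' := 5)
      (z' := 148) h (by decide +kernel) (by decide +kernel)

end Pool.Agent.FT
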