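import Pool.Agent.FT.CL

/-!
# FT-CN: explicit pairs of curves for the primes 5 and 11

`p` is prime to `110` and so lies in one of fourteen residue classes modulo `110`; for each class an
explicit pair of curves of level `110` (`cur_list`) has one element of order `55` among elements of
even order and of orders `5` or `11`.
-/

set_option autoImplicit false

namespace Pool.Agent.FT

open Finset

private theorem cn_pf5 : Nat.primeFactors 5 = {5} := Nat.Prime.primeFactors (by norm_num)

private theorem cn_pf11 : Nat.primeFactors 11 = {11} := Nat.Prime.primeFactors (by norm_num)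

private theorem cn_pf55 : Nat.primeFactors 55 = {5, 11} := by
  have h : (55 : ℕ) = 5 * 11 := by norm_num
  rw [h, Nat.primeFactors_mul (by norm_num) (by norm_num), cn_pf5, cn_pf11]
  rfl

private theorem cn_end {B : Type} [AddCommGroup B] {b : Finset ℕ → B} (h5 : b {5} = 0)
    (h11 : b {11} = 0) {x y z x' y' z' : ℕ}
    (h : ([x, y, z, x', y', z'].map fun a =>
      if Odd (110 / Nat.gcd 110 a) then b (110 / Nat.gcd 110 a).primeFactors else 0).sum = 0)
    (hx : 110 / Nat.gcd 110 x = 110) (hy : 110 / Nat.gcd 110 y = 110)
    (hz : 110 / Nat.gcd 110 z = 55) (hx' : 110 / Nat.gcd 110 x' = 110)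
    (hy' : 110 / Nat.gcd 110 y' = 110)
    (hz' : 110 / Nat.gcd 110 z' = 5 ∨ 110 / Nat.gcd 110 z' = 11) : b {5, 11} = 0 := by
  have e1 : ¬ Odd 110 := by decide
  have e2 : Odd 55 := by decide
  have e3 : Odd 5 := by decide
  have e4 : Odd 11 := by decide
  simp only [List.map_cons, List.map_nil, List.sum_cons, List.sum_nil, hx, hy, hz, hx', hy'] at h
  rw [if_neg e1, if_pos e2, cn_pf55] at h
  rcases hz' with hz' | hz'
  · rw [hz', if_pos e3, cn_pf5, h5] at h
    simpa using h
  · rw [hz', if_pos e4, cn_pf11, h11] at h
    simpa using h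

private theorem cn_res {p M : ℕ} (hMp : M.Coprime p) (hM : 110 ∣ M)
    (hp : p % 55 ∈ [3, 6, 12, 23, 27, 37, 38, 41, 42, 46, 47, 48, 51, 53]) :
    p % 110 = 3 ∨ p % 110 = 23 ∨ p % 110 = 27 ∨ p % 110 = 37 ∨ p % 110 = 41 ∨ p % 110 = 47 ∨
      p % 110 = 51 ∨ p % 110 = 53 ∨ p % 110 = 61 ∨ p % 110 = 67 ∨ p % 110 = 93 ∨ p % 110 = 97 ∨
      p % 110 = 101 ∨ p % 110 = 103 := by
  have h2 : ¬ 2 ∣ p := fun h => by
    have := Nat.dvd_gcd (dvd_trans (by norm_num : 2 ∣ 110) hM) h
    rw [hMp] at this
    omega
  simp only [List.mem_cons, List.not_mem_nil, or_false] at hp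
  omega

theorem kil_5_11 [Flag] {p M : ℕ} (hMp : M.Coprime p) (hM : 110 ∣ M) {B : Type} [AddCommGroup B]
    {b : Finset ℕ → B} (hb : BB p M b) (h5 : b {5} = 0) (h11 : b {11} = 0)
    (hp : p % 55 ∈ [3, 6, 12, 23, 27, 37, 38, 41, 42, 46, 47, 48, 51, 53]) : b {5, 11} = 0 := by
  rcases cn_res hMp hM hp with h | h | h | h | h | h | h | h | h | h | h | h | h | h
  · exact cn_end h5 h11 (cur_list hb hM (p₀ := 3) (f := 20) (x := 1) (y := 1)
      (z := 108) (x' := 1) (y' := 21) (z' := 88) (by omega) (by norm_num)
      (by decide +kernel)) (by decide) (by decide) (by decide) (by decide) (by decide) (by decide)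
  · exact cn_end h5 h11 (cur_list hb hM (p₀ := 23) (f := 4) (x := 1) (y := 3)
      (z := 106) (x' := 1) (y' := 21) (z' := 88) (by omega) (by norm_num)
      (by decide +kernel)) (by decide) (by decide) (by decide) (by decide) (by decide) (by decide)
  · exact cn_end h5 h11 (cur_list hb hM (p₀ := 27) (f := 20) (x := 1) (y := 1)
      (z := 108) (x' := 1) (y' := 21) (z' := 88) (by omega) (by norm_num)
      (by decide +kernel)) (by decide) (by decide) (by decide) (by decide) (by decide) (by decide)
  · exact cn_end h5 h11 (cur_list hb hM (p₀ := 37) (f := 20) (x := 1) (y := 1)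
      (z := 108) (x' := 1) (y' := 21) (z' := 88) (by omega) (by norm_num)
      (by decide +kernel)) (by decide) (by decide) (by decide) (by decide) (by decide) (by decide)
  · exact cn_end h5 h11 (cur_list hb hM (p₀ := 41) (f := 10) (x := 1) (y := 1)
      (z := 108) (x' := 1) (y' := 9) (z' := 100) (by omega) (by norm_num)
      (by decide +kernel)) (by decide) (by decide) (by decide) (by decide) (by decide) (by decide)
  · exact cn_end h5 h11 (cur_list hb hM (p₀ := 47) (f := 20) (x := 1) (y := 1)
      (z := 108) (x' := 1) (y' := 21) (z' := 88) (by omega) (by norm_num)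
      (by decide +kernel)) (by decide) (by decide) (by decide) (by decide) (by decide) (by decide)
  · exact cn_end h5 h11 (cur_list hb hM (p₀ := 51) (f := 10) (x := 1) (y := 1)
      (z := 108) (x' := 1) (y' := 9) (z' := 100) (by omega) (by norm_num)
      (by decide +kernel)) (by decide) (by decide) (by decide) (by decide) (by decide) (by decide)
  · exact cn_end h5 h11 (cur_list hb hM (p₀ := 53) (f := 20) (x := 1) (y := 1)
      (z := 108) (x' := 1) (y' := 21) (z' := 88) (by omega) (by norm_num)
      (by decide +kernel)) (by decide) (by decide) (by decide) (by decide) (by decide) (by decide)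
  · exact cn_end h5 h11 (cur_list hb hM (p₀ := 61) (f := 10) (x := 1) (y := 1)
      (z := 108) (x' := 1) (y' := 9) (z' := 100) (by omega) (by norm_num)
      (by decide +kernel)) (by decide) (by decide) (by decide) (by decide) (by decide) (by decide)
  · exact cn_end h5 h11 (cur_list hb hM (p₀ := 67) (f := 4) (x := 1) (y := 3)
      (z := 106) (x' := 1) (y' := 21) (z' := 88) (by omega) (by norm_num)
      (by decide +kernel)) (by decide) (by decide) (by decide) (by decide) (by decide) (by decide)
  · exact cn_end h5 h11 (cur_list hb hM (p₀ := 93) (f := 20) (x := 1) (y := 1)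
      (z := 108) (x' := 1) (y' := 21) (z' := 88) (by omega) (by norm_num)
      (by decide +kernel)) (by decide) (by decide) (by decide) (by decide) (by decide) (by decide)
  · exact cn_end h5 h11 (cur_list hb hM (p₀ := 97) (f := 20) (x := 1) (y := 1)
      (z := 108) (x' := 1) (y' := 21) (z' := 88) (by omega) (by norm_num)
      (by decide +kernel)) (by decide) (by decide) (by decide) (by decide) (by decide) (by decide)
  · exact cn_end h5 h11 (cur_list hb hM (p₀ := 101) (f := 10) (x := 1) (y := 1)
      (z := 108) (x' := 1) (y' := 9) (z' := 100) (by omega) (by norm_num)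
      (by decide +kernel)) (by decide) (by decide) (by decide) (by decide) (by decide) (by decide)
  · exact cn_end h5 h11 (cur_list hb hM (p₀ := 103) (f := 20) (x := 1) (y := 1)
      (z := 108) (x' := 1) (y' := 21) (z' := 88) (by omega) (by norm_num)
      (by decide +kernel)) (by decide) (by decide) (by decide) (by decide) (by decide) (by decide)

end Pool.Agent.FT
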