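import Pool.Agent.FQ.MainR
import Pool.Agent.Helper9.Fermat.FProd

/-!
# FT: Tate characters of Fermat varieties in all characteristics: definitions
-/

set_option autoImplicit false

namespace Pool.Agent.FT

open Finset
open Pool.Agent.Helper9.Fermat (fib)
open Pool.Agent.FS (IsHodge emb)

/-- odd distributions on `ℤ/m` -/
structure ODist (m : ℕ) [NeZero m] {B : Type} [AddCommGroup B] (F : ZMod m → B) : Prop where
  zero : F 0 = 0
  odd : ∀ x, F (-x) = - F x
  dist : ∀ r : ℕ, r.Prime → r ∣ m → ∀ y : ZMod m,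
    ∑ z ∈ fib m r ((r : ZMod m) * y), F z = F ((r : ZMod m) * y)

/-- Tate characters in characteristic `p`: for all units `t` the representatives of the elements
`p ^ i t x`, `x ∈ S`, `i` running over a period of the powers of `p`, have mean value `m / 2`. -/
def TateN {m : ℕ} (p : ℕ) (S : Multiset (ZMod m)) : Prop :=
  ∃ f : ℕ, 0 < f ∧ (p : ZMod m) ^ f = 1 ∧ ∀ t : (ZMod m)ˣ,
    2 * (S.map fun x => ∑ i ∈ range f, ((p : ZMod m) ^ i * ((t : ZMod m) * x)).val).sum =
      m * f * S.card

/-- the additional Hodge characters which are used -/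
def P2 : Set (ℕ × ℕ) := {(2, 13), (3, 17)}

/-- the elements `u (m / k) a` of `ℤ/m`, `a ∈ l` -/
def lst (m k : ℕ) (l : List ℕ) (u : (ZMod m)ˣ) : Multiset (ZMod m) :=
  (l : Multiset ℕ).map fun a => (u : ZMod m) * ((m / k * a : ℕ) : ZMod m)

/-- `11 + 5 b`, `b` the nonzero squares modulo `11` -/
def l55 : List ℕ := [1, 16, 26, 31, 36]

/-- `19 + 5 b`, `b` the squares modulo `19` -/
def l95 : List ℕ := [4, 9, 19, 24, 39, 44, 49, 54, 64, 74]

/-- characters attached to coverings of the projective line with three branch points and groups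
`PSL(2, 11)` and `PSL(2, 19)` -/
def Cover {m : ℕ} (S : Multiset (ZMod m)) : Prop :=
  (330 ∣ m ∧ ∃ (u : (ZMod m)ˣ) (x y z : ZMod m), x ≠ 0 ∧ y ≠ 0 ∧ z ≠ 0 ∧ x + y + z = 0 ∧
    S = lst m 55 l55 u + {x, y, z}) ∨ (570 ∣ m ∧ ∃ u : (ZMod m)ˣ, S = lst m 95 l95 u)

/-- a proposition which allows further generators -/
class Flag : Type where
  z : Prop

/-- The smallest system of multisets of elements of `ℤ/m` which contains the pairs `{x, -x}`, the
standard elements, the Tate characters `{x, y, z, x', y', z'}`, `x + y + z = x' + y' + z' = 0`, with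
nonzero elements, and, if the flag is true, the multisets whose images in some `ℤ/L`, `m ∣ L`, under
`x ↦ (L / m) x` belong to `FQ.Gen True P2 L`, the Tate characters with an even number of nonzero
elements of odd order and sum zero which are invariant under the squares of the units, the Tate
characters with the property `Cover`, and is closed under joins and cancellation of pairs. -/
inductive Alg [Flag] (p m : ℕ) [NeZero m] : Multiset (ZMod m) → Prop
  | pair (x : ZMod m) (hx : x ≠ 0) : Alg p m {x, -x}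
  | standard (r : ℕ) (hr : r.Prime) (hrm : r ∣ m) (x : ZMod m) (hx : (r : ZMod m) * x ≠ 0) :
      Alg p m ((univ.filter fun z : ZMod m => (r : ZMod m) * z = r * x).val + {-(r * x)} +
        (if r = 2 then {((m / 2 : ℕ) : ZMod m)} else 0))
  | hodge (hZ : Flag.z) (S : Multiset (ZMod m)) (L : ℕ) (hL0 : NeZero L) (hL : m ∣ L)
      (hS : FQ.Gen True P2 L (S.map (emb L m))) : Alg p m S
  | curves (x y z x' y' z' : ZMod m) (hx : x ≠ 0) (hy : y ≠ 0) (hz : z ≠ 0) (hx' : x' ≠ 0)
      (hy' : y' ≠ 0) (hz' : z' ≠ 0) (h : x + y + z = 0) (h' : x' + y' + z' = 0)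
      (hT : TateN p {x, y, z, x', y', z'}) : Alg p m {x, y, z, x', y', z'}
  | squares (hZ : Flag.z) (S : Multiset (ZMod m)) (h0 : (0 : ZMod m) ∉ S) (hc : Even S.card)
      (hs : S.sum = 0) (ho : ∀ x ∈ S, Odd (addOrderOf x)) (hT : TateN p S)
      (hu : ∀ u : (ZMod m)ˣ, (S.map fun x => (u : ZMod m) ^ 2 * x) = S) : Alg p m S
  | cover (hZ : Flag.z) (S : Multiset (ZMod m)) (h0 : (0 : ZMod m) ∉ S) (hc : Even S.card)
      (hs : S.sum = 0) (hT : TateN p S) (hC : Cover S) : Alg p m S
  | join (S T : Multiset (ZMod m)) (hS : Alg p m S) (hT : Alg p m T) : Alg p m (S + T)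
  | cancel (S : Multiset (ZMod m)) (x : ZMod m) (hx : x ≠ 0) (hS : Alg p m (S + {x, -x})) :
      Alg p m S

/-- `N` times the image of `S` in some `ℤ/M`, `M` a multiple of `m` prime to `p`, is in the
system. -/
def Inf [Flag] (p m : ℕ) (S : Multiset (ZMod m)) (N : ℕ) : Prop :=
  ∃ (M : ℕ) (_ : NeZero M), m ∣ M ∧ M.Coprime p ∧ Alg p M (N • S.map (emb M m))

end Pool.Agent.FT
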