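import Pool.Agent.FT.TFt

/-!
# FT-F4a: sums of the sawtooth function over half systems

The sums over two half systems differ by twice the number of the exchanged elements modulo 4; half systems which are
stable under `g` exist if `-1` is not a power of `g`; for them the sums over a Tate character vanish.
-/

set_option autoImplicit false

namespace Pool.Agent.FT

open Finset
open Pool.Agent.FS (IsHodge emb sw rr)

/-- sums over a set of units -/
def FA {m : ℕ} [NeZero m] (A : Finset (ZMod m)ˣ) (x : ZMod m) : ℤ :=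
  ∑ a ∈ A, sw ((a : ZMod m) * x)

/-- half systems -/
def HSys {m : ℕ} (A : Finset (ZMod m)ˣ) : Prop := ∀ u : (ZMod m)ˣ, u ∈ A ↔ -u ∉ A

private theorem f4a_odd {m : ℕ} [NeZero m] (hm : Odd m) (a : (ZMod m)ˣ) {x : ZMod m}
    (hx : x ≠ 0) : (2 : ℤ) ∣ sw ((a : ZMod m) * x) - 1 := by
  have h1 : (a : ZMod m) * x ≠ 0 := fun h => hx ((a.isUnit.mul_right_eq_zero).1 h)
  rw [FS.Quot.sw_of_ne h1]
  obtain ⟨k, hk⟩ := hm
  have h2 : (m : ℤ) = 2 * k + 1 := by exact_mod_cast hk
  rw [h2]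
  exact ⟨(((a : ZMod m) * x).val : ℤ) - k - 1, by ring⟩

/-- the sums of the sawtooth function over a Tate character (see `TFt.lean`) -/
private theorem f4a_sw {m p f : ℕ} [NeZero m] (u : (ZMod m)ˣ) (hu : (u : ZMod m) = p)
    {S : Multiset (ZMod m)} (h0 : (0 : ZMod m) ∉ S) (t : (ZMod m)ˣ)
    (h : 2 * (S.map fun x => ∑ i ∈ range f, ((p : ZMod m) ^ i * ((t : ZMod m) * x)).val).sum =
      m * f * S.card) :
    (S.map fun x => ∑ i ∈ range f, sw ((t : ZMod m) * ((p : ZMod m) ^ i * x))).sum = 0 := by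
  have h1 : (S.map fun x => ∑ i ∈ range f, sw ((t : ZMod m) * ((p : ZMod m) ^ i * x))) =
      S.map fun x =>
        2 * ((∑ i ∈ range f, ((p : ZMod m) ^ i * ((t : ZMod m) * x)).val : ℕ) : ℤ) - m * f := by
    refine Multiset.map_congr rfl fun x hx => ?_
    have hx0 : x ≠ 0 := fun h => h0 (h ▸ hx)
    have h2 : ∀ i, sw ((t : ZMod m) * ((p : ZMod m) ^ i * x)) =
        2 * (((p : ZMod m) ^ i * ((t : ZMod m) * x)).val : ℤ) - m := by
      intro i
      rw [mul_left_comm]
      refine FS.Quot.sw_of_ne ?_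
      rw [← hu, ← Units.val_pow_eq_pow_val]
      intro h3
      exact hx0 ((t.isUnit.mul_right_eq_zero).1 (((u ^ i).isUnit.mul_right_eq_zero).1 h3))
    rw [sum_congr rfl fun i _ => h2 i, sum_sub_distrib, ← mul_sum, sum_const, card_range]
    push_cast
    ring
  rw [h1]
  have h3 : (S.map fun x =>
      2 * ((∑ i ∈ range f, ((p : ZMod m) ^ i * ((t : ZMod m) * x)).val : ℕ) : ℤ) -
        (m : ℤ) * f).sum =
      2 * ((S.map fun x => ∑ i ∈ range f, ((p : ZMod m) ^ i * ((t : ZMod m) * x)).val).sum : ℕ) -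
        m * f * S.card := by
    rw [Multiset.sum_map_sub, Multiset.sum_map_mul_left, Multiset.map_const',
      Multiset.sum_replicate, Nat.cast_multiset_sum, Multiset.map_map, nsmul_eq_mul]
    simp only [Function.comp_def]
    ring
  rw [h3]
  have h4 : (2 * ((S.map fun x =>
      ∑ i ∈ range f, ((p : ZMod m) ^ i * ((t : ZMod m) * x)).val).sum : ℕ) : ℤ) =
      m * f * S.card := by
    exact_mod_cast h
  rw [h4, sub_self]

theorem fa_flip {m : ℕ} [NeZero m] (hm : Odd m) {A B : Finset (ZMod m)ˣ} (hA : HSys A)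
    (hB : HSys B) {x : ZMod m} (hx : x ≠ 0) :
    (4 : ℤ) ∣ FA A x - FA B x - 2 * (A \ B).card := by
  have h1 : ∑ b ∈ B \ A, sw ((b : ZMod m) * x) = -∑ a ∈ A \ B, sw ((a : ZMod m) * x) := by
    rw [← sum_neg_distrib]
    refine Finset.sum_nbij' (fun u => -u) (fun u => -u) ?_ ?_ ?_ ?_ ?_
    · intro u hu
      rw [mem_sdiff] at hu ⊢
      exact ⟨(hA (-u)).2 (by rw [neg_neg]; exact hu.2), (hB u).1 hu.1⟩
    · intro u hu
      rw [mem_sdiff] at hu ⊢
      exact ⟨(hB (-u)).2 (by rw [neg_neg]; exact hu.2), (hA u).1 hu.1⟩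
    · intro u _
      exact neg_neg u
    · intro u _
      exact neg_neg u
    · intro u _
      rw [Units.val_neg, neg_mul, FS.Quot.sw_neg, neg_neg]
  have h2 : FA A x = ∑ a ∈ A ∩ B, sw ((a : ZMod m) * x) + ∑ a ∈ A \ B, sw ((a : ZMod m) * x) :=
    (Finset.sum_inter_add_sum_sdiff A B _).symm
  have h3 : FA B x = ∑ a ∈ A ∩ B, sw ((a : ZMod m) * x) + ∑ a ∈ B \ A, sw ((a : ZMod m) * x) := by
    rw [Finset.inter_comm]
    exact (Finset.sum_inter_add_sum_sdiff B A _).symm
  have h4 : (2 : ℤ) ∣ ∑ a ∈ A \ B, (sw ((a : ZMod m) * x) - 1) :=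
    Finset.dvd_sum fun a _ => f4a_odd hm a hx
  rw [sum_sub_distrib, sum_const, nsmul_eq_mul, mul_one] at h4
  obtain ⟨k, hk⟩ := h4
  refine ⟨k, ?_⟩
  rw [h2, h3, h1]
  linarith

theorem exists_hsys {m : ℕ} [NeZero m] (g : (ZMod m)ˣ) (hg : ∀ i : ℕ, g ^ i ≠ -1) :
    ∃ A : Finset (ZMod m)ˣ, HSys A ∧ ∀ a, a ∈ A → g * a ∈ A := by
  classical
  have hH : (-1 : (ZMod m)ˣ) ∉ Subgroup.zpowers g := by
    intro h
    rw [← mem_powers_iff_mem_zpowers] at h
    obtain ⟨i, hi⟩ := (Submonoid.mem_powers_iff _ _).1 h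
    exact hg i hi
  obtain ⟨n, ⟨e⟩⟩ := Finite.exists_equiv_fin ((ZMod m)ˣ ⧸ Subgroup.zpowers g)
  set c : (ZMod m)ˣ → Fin n := fun u => e (QuotientGroup.mk u) with hc
  have hne : ∀ u, c u ≠ c (-u) := by
    intro u h
    have h1 := QuotientGroup.eq.1 (e.injective h)
    have h2 : u⁻¹ * -u = -1 := by
      rw [mul_neg, inv_mul_cancel]
    rw [h2] at h1
    exact hH h1
  have hgu : ∀ u, c (g * u) = c u := by
    intro u
    refine congrArg e (QuotientGroup.eq.2 ?_)
    have h2 : (g * u)⁻¹ * u = g⁻¹ := by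
      rw [mul_inv, mul_assoc, inv_mul_cancel, mul_one]
    rw [h2]
    exact Subgroup.inv_mem _ (Subgroup.mem_zpowers g)
  refine ⟨(Finset.univ : Finset (ZMod m)ˣ).filter fun u => c u < c (-u), ?_, ?_⟩
  · intro u
    rw [mem_filter, mem_filter, neg_neg]
    constructor
    · rintro ⟨_, h⟩ ⟨_, h'⟩
      exact absurd h (lt_asymm h')
    · intro h
      refine ⟨Finset.mem_univ _, ?_⟩
      rcases lt_trichotomy (c u) (c (-u)) with h1 | h1 | h1
      · exact h1
      · exact absurd h1 (hne u)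
      · exact absurd ⟨Finset.mem_univ _, h1⟩ h
  · intro a ha
    rw [mem_filter] at ha ⊢
    refine ⟨Finset.mem_univ _, ?_⟩
    rw [hgu a, ← mul_neg, hgu (-a)]
    exact ha.2

theorem fa_tate {m p : ℕ} [NeZero m] {g : (ZMod m)ˣ} (hg : (g : ZMod m) = p)
    {A : Finset (ZMod m)ˣ} (hA : ∀ a, a ∈ A → g * a ∈ A) {S : Multiset (ZMod m)}
    (h0 : (0 : ZMod m) ∉ S) (hT : TateN p S) : (S.map (FA A)).sum = 0 := by
  classical
  obtain ⟨f, hf, _, hT⟩ := hT
  have h1 : A.map ⟨fun a => g * a, mul_right_injective g⟩ = A := by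
    refine Finset.eq_of_subset_of_card_le ?_ (by rw [card_map])
    intro b hb
    obtain ⟨a, ha, rfl⟩ := mem_map.1 hb
    exact hA a ha
  have h2 : ∀ x : ZMod m, FA A ((p : ZMod m) * x) = FA A x := by
    intro x
    have h3 : FA A x = ∑ a ∈ A.map ⟨fun a => g * a, mul_right_injective g⟩,
        sw ((a : ZMod m) * x) := by
      rw [h1]
      rfl
    rw [h3, sum_map]
    unfold FA
    refine sum_congr rfl fun a _ => ?_
    show sw ((a : ZMod m) * ((p : ZMod m) * x)) = sw (((g * a : (ZMod m)ˣ) : ZMod m) * x)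
    rw [Units.val_mul, hg]
    congr 1
    ring
  have h3 : ∀ (i : ℕ) (x : ZMod m), FA A ((p : ZMod m) ^ i * x) = FA A x := by
    intro i x
    induction i with
    | zero => rw [pow_zero, one_mul]
    | succ i ih => rw [pow_succ', mul_assoc, h2, ih]
  have h4 : (S.map fun x => ∑ i ∈ range f, FA A ((p : ZMod m) ^ i * x)).sum =
      f * (S.map (FA A)).sum := by
    rw [← Multiset.sum_map_mul_left]
    congr 1
    refine Multiset.map_congr rfl fun x _ => ?_
    rw [sum_congr rfl fun i _ => h3 i x, sum_const, card_range, nsmul_eq_mul]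
  have h5 : (S.map fun x => ∑ i ∈ range f, FA A ((p : ZMod m) ^ i * x)).sum = 0 := by
    have h6 : (S.map fun x => ∑ i ∈ range f, FA A ((p : ZMod m) ^ i * x)) =
        S.map fun x => ∑ a ∈ A, ∑ i ∈ range f, sw ((a : ZMod m) * ((p : ZMod m) ^ i * x)) := by
      refine Multiset.map_congr rfl fun x _ => ?_
      unfold FA
      exact sum_comm
    have h7 : (S.map fun x => ∑ a ∈ A, ∑ i ∈ range f,
        sw ((a : ZMod m) * ((p : ZMod m) ^ i * x))).sum =
        ∑ a ∈ A, (S.map fun x => ∑ i ∈ range f,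
          sw ((a : ZMod m) * ((p : ZMod m) ^ i * x))).sum :=
      Multiset.sum_map_sum_map S A.val
    rw [h6, h7]
    exact sum_eq_zero fun a _ => f4a_sw g hg h0 a (hT a)
  rw [h4] at h5
  rcases mul_eq_zero.1 h5 with h6 | h6
  · exact absurd (Int.natCast_eq_zero.1 h6) (by omega)
  · exact h6

end Pool.Agent.FT
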