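import Pool.Agent.FT.F4a
import Pool.Agent.FT.Ord

/-!
# FT-F4b: the half system of a prime

`HR m r`: the units whose residue modulo `r` is less than `r / 2`. The sums of the sawtooth function
over this half system vanish at the elements of order prime to `r`, and are divisible by four at the
nonzero elements of order a power of `r` if `m` has exactly one other prime factor.
-/

set_option autoImplicit false

namespace Pool.Agent.FT

open Finset
open Pool.Agent.FS (IsHodge emb sw rr)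

/-- the half system of the prime `r` -/
def HR (m r : ℕ) [NeZero m] : Finset (ZMod m)ˣ :=
  Finset.univ.filter fun a => 2 * ((a : ZMod m).val % r) < r

private theorem f4b_mem {m r : ℕ} [NeZero m] (a : (ZMod m)ˣ) :
    a ∈ HR m r ↔ 2 * (rr a % r) < r := by
  unfold HR rr
  rw [mem_filter]
  exact ⟨fun h => h.2, fun h => ⟨mem_univ _, h⟩⟩

theorem hr_hsys {m r : ℕ} [NeZero m] (hr : r.Prime) (hr2 : r ≠ 2) (hrm : r ∣ m) :
    HSys (HR m r) := by
  intro u
  rw [f4b_mem, f4b_mem, ← neg_one_mul u]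
  have h2 := (FS.rr_neg u).of_dvd hrm
  have h3 : (rr u).Coprime r := Nat.Coprime.coprime_dvd_right hrm (FS.rr_coprime u)
  have h4 : (rr (-1 * u) % r + rr u % r) % r = 0 := by
    rw [← Nat.add_mod]
    exact (show _ = 0 % r from h2).trans (Nat.zero_mod r)
  have h5 : rr u % r ≠ 0 := by
    intro h
    have h6 := Nat.dvd_gcd (Nat.dvd_of_mod_eq_zero h) (dvd_refl r)
    rw [h3] at h6
    exact hr.one_lt.ne' (Nat.dvd_one.1 h6)
  have h6 := Nat.mod_lt (rr u) hr.pos
  have h7 := Nat.mod_lt (rr (-1 * u)) hr.pos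
  have h8 : rr (-1 * u) % r + rr u % r = r := by
    obtain ⟨k, hk⟩ := Nat.dvd_of_mod_eq_zero h4
    have hk1 : k < 2 := by
      by_contra h
      have h9 : r * 2 ≤ r * k := Nat.mul_le_mul_left r (not_lt.1 h)
      omega
    have hk0 : k ≠ 0 := by
      rintro rfl
      omega
    have hk2 : k = 1 := by omega
    rw [hk, hk2, mul_one]
  have h9 : r % 2 = 1 := hr.eq_two_or_odd.resolve_left hr2
  omega

private theorem f4b_unit {m r : ℕ} [NeZero m] (hr : r.Prime) :
    ∃ e : (ZMod m)ˣ, rr e ≡ 1 [MOD FS.qq m r] ∧ rr e + 1 ≡ 0 [MOD ordCompl[r] m] := by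
  have h0 : 0 < ordCompl[r] m := Nat.ordCompl_pos r (NeZero.ne m)
  obtain ⟨e, h1, h2⟩ := FS.exists_unit_crt (FS.RNorm_qq_mul (m := m) r).symm
    (FS.RNorm_qq_coprime hr) 1 (ordCompl[r] m - 1) (Nat.coprime_one_left _) (by
      have h := Nat.coprime_self_sub_left (m := 1) (n := ordCompl[r] m) h0
      rw [h]
      exact Nat.coprime_one_left _)
  refine ⟨e, h1, ?_⟩
  have h3 := h2.add_right 1
  rw [Nat.sub_add_cancel h0] at h3
  exact h3.trans ((Nat.modEq_zero_iff_dvd).2 dvd_rfl)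

private theorem f4b_dvd {m : ℕ} [NeZero m] (x : ZMod m) : addOrderOf x ∣ m := order_dvd x

private theorem f4b_stable {m r : ℕ} [NeZero m] (hr : r.Prime) (hrm : r ∣ m) {e : (ZMod m)ˣ}
    (he : rr e ≡ 1 [MOD FS.qq m r]) {a : (ZMod m)ˣ} (ha : a ∈ HR m r) : e * a ∈ HR m r := by
  have h1 : r ∣ FS.qq m r :=
    dvd_pow_self r (hr.factorization_pos_of_dvd (NeZero.ne m) hrm).ne'
  have h2 : rr (e * a) ≡ rr a [MOD r] := by
    have h3 := ((FS.rr_mul e a).of_dvd hrm).trans ((he.of_dvd h1).mul_right (rr a))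
    rwa [one_mul] at h3
  rw [f4b_mem] at ha ⊢
  rwa [show rr (e * a) % r = rr a % r from h2]

private theorem f4b_cast {m : ℕ} [NeZero m] (e : (ZMod m)ˣ) : ((rr e : ℕ) : ZMod m) = e :=
  ZMod.natCast_zmod_val _

theorem hr_l {m r : ℕ} [NeZero m] (hr : r.Prime) (hrm : r ∣ m) {x : ZMod m}
    (hx : ¬ r ∣ addOrderOf x) : FA (HR m r) x = 0 := by
  obtain ⟨e, he1, he2⟩ := f4b_unit (m := m) hr
  have h1 : addOrderOf x ∣ ordCompl[r] m := by
    have h2 : (addOrderOf x).Coprime (ordProj[r] m) :=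
      Nat.Coprime.pow_right _ ((Nat.Prime.coprime_iff_not_dvd hr).2 hx).symm
    refine h2.dvd_of_dvd_mul_left ?_
    rw [Nat.ordProj_mul_ordCompl_eq_self]
    exact order_dvd x
  have h2 : (e : ZMod m) * x = -x := by
    have h3 : (rr e + 1) • x = 0 :=
      addOrderOf_dvd_iff_nsmul_eq_zero.1 ((Nat.modEq_zero_iff_dvd).1 (he2.of_dvd h1))
    rw [add_nsmul, one_nsmul, nsmul_eq_mul, f4b_cast] at h3
    exact eq_neg_of_add_eq_zero_left h3
  have h3 : FA (HR m r) x = - FA (HR m r) x := by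
    conv_lhs => unfold FA
    unfold FA
    rw [← sum_neg_distrib]
    refine sum_bij' (fun a _ => e⁻¹ * a) (fun a _ => e * a) ?_ ?_ ?_ ?_ ?_
    · intro a ha
      have h4 : rr e⁻¹ ≡ 1 [MOD FS.qq m r] := by
        have h5 : rr (e⁻¹ * e) ≡ rr e⁻¹ * rr e [MOD m] := FS.rr_mul _ _
        rw [inv_mul_cancel] at h5
        have h6 := ((h5.symm.trans FS.rr_one).of_dvd (FS.RNorm_qq_dvd (m := m) r))
        have h7 := (he1.mul_left (rr e⁻¹)).symm.trans h6
        rwa [mul_one] at h7
      exact f4b_stable hr hrm h4 ha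
    · intro a ha
      exact f4b_stable hr hrm he1 ha
    · intro a _
      exact mul_inv_cancel_left e a
    · intro a _
      exact inv_mul_cancel_left e a
    · intro a _
      have h4 : (a : ZMod m) * x = - (((e⁻¹ * a : (ZMod m)ˣ) : ZMod m) * x) := by
        have h5 : (a : ZMod m) = (e : ZMod m) * ((e⁻¹ * a : (ZMod m)ˣ) : ZMod m) := by
          rw [← Units.val_mul, mul_inv_cancel_left]
        conv_lhs => rw [h5, mul_right_comm, h2]
        rw [neg_mul, mul_comm x]
      rw [h4, FS.Quot.sw_neg]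
  omega

private theorem f4b_card {m : ℕ} [NeZero m] {A : Finset (ZMod m)ˣ} (hA : HSys A) :
    2 * A.card = Nat.totient m := by
  classical
  have h1 : A.card = Aᶜ.card := by
    refine card_bij' (fun a _ => -a) (fun a _ => -a) ?_ ?_ (fun a _ => neg_neg a)
      (fun a _ => neg_neg a)
    · intro a ha
      rw [mem_compl]
      exact (hA a).1 ha
    · intro a ha
      rw [mem_compl] at ha
      rw [hA, neg_neg]
      exact ha
  have h2 := card_compl_add_card A
  rw [← h1, ZMod.card_units_eq_totient] at h2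
  omega

theorem hr_r {m r l : ℕ} [NeZero m] (hm : Odd m) (hr : r.Prime) (hl : l.Prime) (hrl : r ≠ l)
    (hpf : m.primeFactors = {r, l}) (hr4 : r % 4 = 1) {x : ZMod m} (hx0 : x ≠ 0)
    (hx : ¬ l ∣ addOrderOf x) : (4 : ℤ) ∣ FA (HR m r) x := by
  classical
  have hrm : r ∣ m := Nat.dvd_of_mem_primeFactors (by rw [hpf]; simp)
  have hlm : l ∣ m := Nat.dvd_of_mem_primeFactors (by rw [hpf]; simp)
  have hr2 : r ≠ 2 := by
    rintro rfl
    omega
  obtain ⟨e, he1, he2⟩ := f4b_unit (m := m) hr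
  -- the action of `e`
  have h1 : addOrderOf x ∣ FS.qq m r := by
    have h2 : (addOrderOf x).Coprime (ordCompl[r] m) := by
      by_contra h
      obtain ⟨q, hq, hq1, hq2⟩ := Nat.Prime.not_coprime_iff_dvd.1 h
      have h3 : q ∈ m.primeFactors := Nat.mem_primeFactors.2
        ⟨hq, hq1.trans (order_dvd x), NeZero.ne m⟩
      rw [hpf, mem_insert, mem_singleton] at h3
      rcases h3 with rfl | rfl
      · exact Nat.not_dvd_ordCompl hr (NeZero.ne m) hq2
      · exact hx hq1
    refine h2.dvd_of_dvd_mul_right ?_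
    rw [FS.RNorm_qq_mul]
    exact order_dvd x
  have h2 : (e : ZMod m) * x = x := by
    have h3 : rr e ≡ 1 [MOD addOrderOf x] := he1.of_dvd h1
    have h4 : (rr e) • x = 1 • x := nsmul_eq_nsmul_iff_modEq.2 h3
    rw [one_nsmul, nsmul_eq_mul, f4b_cast] at h4
    exact h4
  have h3 : e * e = 1 := by
    refine FS.rr_inj ((FS.rr_mul e e).trans (FS.rr_one.trans ?_ |>.symm))
    have h4 : rr e * rr e ≡ 1 [MOD FS.qq m r] := by
      have h5 := he1.mul he1
      rwa [one_mul] at h5
    have h5 : rr e * rr e ≡ 1 [MOD ordCompl[r] m] := by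
      have h6 : rr e * rr e + rr e ≡ 0 [MOD ordCompl[r] m] := by
        have h7 := he2.mul_left (rr e)
        rwa [mul_zero, mul_add, mul_one] at h7
      have h7 : rr e + 1 ≡ rr e * rr e + rr e [MOD ordCompl[r] m] := he2.trans h6.symm
      rw [add_comm] at h7
      exact (Nat.ModEq.add_right_cancel' _ h7).symm
    have h6 := (Nat.modEq_and_modEq_iff_modEq_mul (FS.RNorm_qq_coprime (m := m) hr)).1 ⟨h4, h5⟩
    rw [FS.RNorm_qq_mul] at h6
    exact h6.symm
  have h4 : e ≠ 1 := by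
    rintro rfl
    have h5 : l ∣ ordCompl[r] m := by
      have h6 : l.Coprime (ordProj[r] m) :=
        Nat.Coprime.pow_right _ ((Nat.coprime_primes hl hr).2 hrl.symm)
      refine h6.dvd_of_dvd_mul_left ?_
      rw [Nat.ordProj_mul_ordCompl_eq_self]
      exact hlm
    have h6 := (FS.rr_one (n := m)).of_dvd hlm
    have h7 := (h6.add_right 1).symm.trans (he2.of_dvd h5)
    have h8 : l ∣ 2 := (Nat.modEq_zero_iff_dvd).1 h7
    have h9 := (Nat.prime_dvd_prime_iff_eq hl Nat.prime_two).1 h8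
    have h10 : Even m := even_iff_two_dvd.2 (h9 ▸ hlm)
    exact (Nat.not_even_iff_odd.2 hm) h10
  -- the summands are odd
  have hodd : ∀ a : (ZMod m)ˣ, ∃ k : ℤ, sw ((a : ZMod m) * x) = 2 * k + 1 := by
    intro a
    have h5 : (a : ZMod m) * x ≠ 0 := fun h => hx0 ((Units.mul_right_eq_zero a).1 h)
    obtain ⟨c, hc⟩ := hm
    refine ⟨(((a : ZMod m) * x).val : ℤ) - c - 1, ?_⟩
    rw [FS.Quot.sw_of_ne h5]
    have h6 : (m : ℤ) = 2 * c + 1 := by exact_mod_cast hc
    rw [h6]
    ring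
  choose k hk using hodd
  have hke : ∀ a, k (e * a) = k a := by
    intro a
    have h5 := hk (e * a)
    rw [Units.val_mul, mul_comm (e : ZMod m), mul_assoc, h2, hk a] at h5
    omega
  have h5 : ∑ a ∈ HR m r, ((k a : ℤ) : ZMod 2) = 0 := by
    refine sum_involution (fun a _ => e * a) ?_ ?_ ?_ ?_
    · intro a _
      rw [hke]
      exact CharTwo.add_self_eq_zero _
    · intro a _ _ h
      exact h4 (mul_eq_right.1 h)
    · intro a ha
      exact f4b_stable hr hrm he1 ha
    · intro a _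
      rw [← mul_assoc, h3, one_mul]
  have h6 : (2 : ℤ) ∣ ∑ a ∈ HR m r, k a := by
    have h7 : ((∑ a ∈ HR m r, k a : ℤ) : ZMod 2) = 0 := by
      rw [Int.cast_sum]
      exact h5
    exact_mod_cast (ZMod.intCast_zmod_eq_zero_iff_dvd _ 2).1 h7
  have h7 : FA (HR m r) x = 2 * (∑ a ∈ HR m r, k a) + (HR m r).card := by
    unfold FA
    rw [sum_congr rfl fun a _ => hk a, sum_add_distrib, ← mul_sum, sum_const, nsmul_eq_mul,
      mul_one]
  have h8 := f4b_card (hr_hsys (m := m) hr hr2 hrm)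
  have h9 : 8 ∣ Nat.totient m := by
    have h10 : r * l ∣ m := Nat.Coprime.mul_dvd_of_dvd_of_dvd ((Nat.coprime_primes hr hl).2 hrl)
      hrm hlm
    refine Dvd.dvd.trans ?_ (Nat.totient_dvd_of_dvd h10)
    rw [Nat.totient_mul ((Nat.coprime_primes hr hl).2 hrl), Nat.totient_prime hr,
      Nat.totient_prime hl]
    have h11 : l % 2 = 1 := by
      refine hl.eq_two_or_odd.resolve_left ?_
      rintro rfl
      exact (Nat.not_even_iff_odd.2 hm) (even_iff_two_dvd.2 hlm)
    have h12 : 4 ∣ r - 1 := (Nat.modEq_iff_dvd' hr.one_lt.le).1 (by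
      unfold Nat.ModEq
      omega)
    have h13 : 2 ∣ l - 1 := (Nat.modEq_iff_dvd' hl.one_lt.le).1 (by
      unfold Nat.ModEq
      omega)
    exact mul_dvd_mul h12 h13
  have h10 : 4 ∣ (HR m r).card := by omega
  obtain ⟨c, hc⟩ := h6
  obtain ⟨d, hd⟩ := h10
  rw [h7, hc, hd]
  refine ⟨c + d, ?_⟩
  push_cast
  ring

end Pool.Agent.FT
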