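import Pool.Agent.FT.UA

/-!
# FT-Univ: the torsion of the universal odd distribution is a 2-group
-/

set_option autoImplicit false

namespace Pool.Agent.FT

open Finset
open Pool.Agent.Helper9.Fermat (fib mem_fib)

section

open Pool.Agent.FS Pool.Agent.FF Pool.Agent.FQ

variable {m : ℕ} [NeZero m] {A : Type} [AddCommGroup A] (D : Dat m A)

private theorem oss_two {G : Type*} [CommGroup G] (σs : List G) (F : G → ℤ) (g : G) :
    oss σs (fun g => 2 * F g) g = 2 * oss σs F g := by
  induction σs generalizing g with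
  | nil => rfl
  | cons σ σs ih =>
    have e : ∀ (F : G → ℤ) (g : G), oss (σ :: σs) F g = oss σs F g + oss σs F (σ * g) :=
      fun _ _ => rfl
    rw [e, e, ih, ih]
    ring

/-- removal of the level of one set of primes after doubling -/
theorem step2 {R : Finset ℕ} (hR : ∀ l ∈ R, l.Prime ∧ 3 ≤ qq m l) (hne : R.Nonempty)
    (L : Set ℕ) (hL : ∀ n' ∈ L, ∃ l ∈ R, ¬ l ∣ n')
    (hlow : lowR m R ⊆ L) (a : A) (ha : a ∈ D.lev (insert (nR m R) L))
    (hW : ∀ t, D.W t a = 0) : (2 : ℕ) • a ∈ D.lev L := by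
  have hRp : ∀ l ∈ R, l.Prime := fun l hl => (hR l hl).1
  have hnm := nR_dvd (m := m) hRp
  have hn0 := nR_ne (m := m) hRp
  have hu := nR_unitary (m := m) hRp
  obtain ⟨n, hn⟩ : ∃ n, n = nR m R := ⟨_, rfl⟩
  have hpL : ∀ l ∈ R.toList, l.Prime ∧ Pool.Agent.FS.hb l ∣ n := by
    intro l hl
    rw [mem_toList] at hl
    refine ⟨hRp l hl, ?_⟩
    rw [hn]
    exact (hb_dvd_qq' (hR l hl).2).trans (qq_dvd_nR hl)
  have hall : ∀ l : ℕ, l.Prime → l ∣ n → l ∈ R.toList := by
    intro l hl h
    rw [mem_toList]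
    rw [hn] at h
    exact mem_of_dvd_nR hRp hl h
  have hLo : ∀ l ∈ R.toList, ordCompl[l] n ∈ L := by
    intro l hl
    rw [mem_toList] at hl
    rw [hn, ordCompl_nR hRp hl]
    exact hlow ⟨R.erase l, erase_ssubset hl, rfl⟩
  have hL' : ∀ n' ∈ L, ∃ l ∈ R.toList, ¬ l ∣ n' := by
    intro n' hn'
    obtain ⟨l, hl, h⟩ := hL n' hn'
    exact ⟨l, mem_toList.2 hl, h⟩
  rw [← hn] at hnm hn0 hu ha
  have : NeZero n := ⟨hn0⟩
  obtain ⟨N, b, hb, rfl⟩ := exists_coeff D hnm L ha
  rw [smul_add]
  refine add_mem ?_ (AddSubgroup.nsmul_mem _ hb 2)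
  rcases Nat.even_or_odd R.card with hev | hodd
  · obtain ⟨κ, hκ⟩ := exists_proj n R.toList fun l hl => (hpL l hl).1
    have hlen : Even R.toList.length := by rw [length_toList]; exact hev
    have hnl : R.toList ≠ [] := by
      rw [ne_eq, toList_eq_nil]
      exact hne.ne_empty
    have e : (2 : ℕ) • ∑ w : (ZMod n)ˣ, N w • D.f (emb m n w) =
        ∑ w : (ZMod n)ˣ, (2 * N w) • D.f (emb m n w) := by
      rw [Finset.smul_sum]
      refine Finset.sum_congr rfl fun w _ => ?_
      rw [mul_smul, two_nsmul, two_smul]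
    rw [e]
    refine T4 D hnm hu R.toList (nodup_toList R) hlen hnl hpL hall L hL' hLo κ hκ
      (fun w => 2 * N w) ((2 : ℕ) • b) (AddSubgroup.nsmul_mem _ hb 2) ?_ ⟨1, ?_⟩
    · intro t
      rw [← e, ← smul_add, map_nsmul, hW t, smul_zero]
    · rw [oss_two]
      exact even_two_mul _
  · exact AddSubgroup.nsmul_mem _ (T_odd D hnm hu R.toList (nodup_toList R)
      (by rw [length_toList]; exact hodd) hpL hall L hL' hLo N b hb hW) 2

theorem pow_zero_of_family (F₀ : Finset (Finset ℕ))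
    (hpr : ∀ R ∈ F₀, ∀ l ∈ R, l.Prime ∧ 3 ≤ qq m l)
    (hdc : ∀ R ∈ F₀, ∀ R' ⊆ R, R' ∈ F₀) (N : ℕ) :
    ∀ F ⊆ F₀, F.card = N → (∀ R ∈ F₀, R ∉ F → ∀ T ∈ F, T.card ≤ R.card) →
    ∀ a : A, a ∈ D.lev (levF m F) → (∀ t, D.W t a = 0) → 2 ^ N • a = 0 := by
  induction N with
  | zero =>
    intro F _ hN _ a ha _
    rw [card_eq_zero] at hN
    subst hN
    have h1 : levF m ∅ = ∅ := by
      ext n
      simp [levF]
    rw [h1] at ha
    have h2 : D.lev (∅ : Set ℕ) = ⊥ := by
      unfold Dat.lev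
      rw [eq_bot_iff, AddSubgroup.closure_le]
      rintro _ ⟨z, hz, _⟩
      exact absurd hz (Set.notMem_empty _)
    rw [h2, AddSubgroup.mem_bot] at ha
    rw [ha, smul_zero]
  | succ N ih =>
    intro F hF hN hinv a ha hW
    have hneF : F.Nonempty := card_pos.1 (by omega)
    obtain ⟨T, hTF, hmax⟩ := exists_max_image F card hneF
    have hTF₀ := hF hTF
    have hcard : (F.erase T).card = N := by rw [card_erase_of_mem hTF, hN]; rfl
    have hT' : ∀ R ∈ F.erase T, ¬ T ⊆ R := by
      intro R hR hTR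
      rw [mem_erase] at hR
      exact hR.1 (eq_of_subset_of_card_le hTR (hmax R hR.2)).symm
    -- sets with fewer elements are members
    have hsm : ∀ R ∈ F₀, R.card < T.card → R ∈ F.erase T := by
      intro R hR hlt
      rw [mem_erase]
      refine ⟨?_, ?_⟩
      · rintro rfl
        exact absurd hlt (lt_irrefl _)
      · by_contra h
        exact absurd (hinv R hR h T hTF) (by omega)
    have h2a : (2 ^ (N + 1)) • a = 2 ^ N • ((2 : ℕ) • a) := by
      rw [← mul_smul, pow_succ]
    rw [h2a]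
    refine ih (F.erase T) ((erase_subset T F).trans hF) hcard ?_ _ ?_ fun t => by
      rw [map_nsmul, hW t, smul_zero]
    · intro R hR hRF T' hT'F
      have hT'F' := mem_of_mem_erase hT'F
      by_cases h : R ∈ F
      · have h2 : R = T := by
          by_contra h3
          exact hRF (mem_erase.2 ⟨h3, h⟩)
        rw [h2]
        exact hmax T' hT'F'
      · exact hinv R hR h T' hT'F'
    · have h1 : levF m F ⊆ insert (nR m T) (levF m (F.erase T)) := by
        rintro n ⟨R, hR, rfl⟩
        by_cases h : R = T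
        · exact Or.inl (by rw [h])
        · exact Or.inr ⟨R, mem_erase.2 ⟨h, hR⟩, rfl⟩
      have ha' := lev_mono D h1 ha
      rcases T.eq_empty_or_nonempty with hTe | hTne
      · -- the level one
        have h2 : D.lev (insert (nR m T) (levF m (F.erase T))) ≤ D.lev (levF m (F.erase T)) := by
          unfold Dat.lev
          rw [AddSubgroup.closure_le]
          rintro b ⟨z, hz, rfl⟩
          rcases hz with hz | hz
          · rw [hTe, nR, prod_empty, AddMonoid.addOrderOf_eq_one_iff] at hz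
            rw [hz, D.zero]
            exact AddSubgroup.zero_mem _
          · exact AddSubgroup.subset_closure ⟨z, hz, rfl⟩
        exact AddSubgroup.nsmul_mem _ (h2 ha') 2
      · refine step2 D (hpr T hTF₀) hTne _ ?_ ?_ a ha' hW
        · rintro n' ⟨R, hR, rfl⟩
          obtain ⟨l, hl, hlR⟩ := not_subset.1 (hT' R hR)
          refine ⟨l, hl, fun h => hlR ?_⟩
          exact mem_of_dvd_nR (fun a ha => (hpr R (hF (mem_of_mem_erase hR)) a ha).1)
            (hpr T hTF₀ l hl).1 h
        · rintro n' ⟨R, hR, rfl⟩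
          exact ⟨R, hsm R (hdc T hTF₀ R hR.subset) (card_lt_card hR), rfl⟩

private theorem f_all (x : ZMod m) : D.f x ∈ D.lev (levF m (famA (fun _ => True) m)) := by
  have hAl : ∀ T, (fun _ : Finset ℕ => True) T → ∀ T' ⊆ T, (fun _ : Finset ℕ => True) T' :=
    fun _ _ _ _ => trivial
  by_cases hm : 2 ∣ m
  · exact f_goodA D hAl hm x ⟨addOrderOf x, Or.inl rfl, trivial⟩
  · refine f_mem_of_orderA D hAl x (Or.inl fun h => hm (h.trans ?_)) trivial
    exact addOrderOf_dvd_iff_nsmul_eq_zero.2 (by rw [nsmul_eq_mul]; simp)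

theorem pow_zero_all : 2 ^ (famA (fun _ => True) m).card • (0 : A) = 0 ∧
    ∀ a ∈ AddSubgroup.closure (Set.range D.f), (∀ t, D.W t a = 0) →
      2 ^ (famA (fun _ => True) m).card • a = 0 := by
  refine ⟨smul_zero _, fun a ha hW => ?_⟩
  refine pow_zero_of_family D (famA (fun _ => True) m) ?_ ?_ _ (famA (fun _ => True) m)
    (Subset.refl _) rfl (fun R hR h => absurd hR h) a ?_ hW
  · intro R hR l hl
    have h1 := (mem_famA.1 hR).1 hl
    rw [prs, mem_filter] at h1
    exact ⟨Nat.prime_of_mem_primeFactors h1.1, h1.2⟩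
  · intro R hR R' hR'
    rw [mem_famA] at hR ⊢
    exact ⟨hR'.trans hR.1, trivial⟩
  · refine (AddSubgroup.closure_le _).2 ?_ ha
    rintro b ⟨x, rfl⟩
    exact f_all D x

end

section

variable {m : ℕ} [NeZero m]

open Pool.Agent.FS (sw IsHodge)

theorem sw_dist (t : (ZMod m)ˣ) (r : ℕ) (hr : r.Prime) (hrm : r ∣ m) (y : ZMod m) :
    ∑ z ∈ fib m r ((r : ZMod m) * y), sw ((t : ZMod m) * z) =
      sw ((t : ZMod m) * ((r : ZMod m) * y)) := by
  by_cases hy : (r : ZMod m) * y = 0
  · rw [hy, mul_zero, FS.Quot.sw_zero]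
    have h1 : ∑ z ∈ fib m r 0, sw ((t : ZMod m) * z) =
        ∑ z ∈ fib m r 0, sw ((t : ZMod m) * (-z)) := by
      refine Finset.sum_bij' (fun z _ => -z) (fun z _ => -z) ?_ ?_ ?_ ?_ ?_
      · intro z hz
        rw [mem_fib] at hz ⊢
        rw [mul_neg, hz, neg_zero]
      · intro z hz
        rw [mem_fib] at hz ⊢
        rw [mul_neg, hz, neg_zero]
      · intro z _
        exact neg_neg z
      · intro z _
        exact neg_neg z
      · intro z _
        rw [neg_neg]
    have h2 : ∑ z ∈ fib m r 0, sw ((t : ZMod m) * (-z)) =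
        - ∑ z ∈ fib m r 0, sw ((t : ZMod m) * z) := by
      rw [← Finset.sum_neg_distrib]
      exact Finset.sum_congr rfl fun z _ => by rw [mul_neg, FS.Quot.sw_neg]
    linarith
  · exact FS.Quot.sw_fib_unit hr.pos hrm y hy t

/-- the distribution with weights attached to an odd distribution -/
def mkDat {B : Type} [AddCommGroup B] (F : ZMod m → B) (hF : ODist m F) :
    Dat m (B × ((ZMod m)ˣ → ℤ)) where
  f x := (F x, fun t => sw ((t : ZMod m) * x))
  W t := (Pi.evalAddMonoidHom _ t).comp (AddMonoidHom.snd _ _)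
  zero := by
    ext
    · exact hF.zero
    · change sw (_ * (0 : ZMod m)) = 0
      rw [mul_zero]
      exact FS.Quot.sw_zero
  odd x := by
    ext
    · exact hF.odd x
    · simp [FS.Quot.sw_neg]
  dist r hr hrm y := by
    ext t
    · rw [Prod.fst_sum]
      exact hF.dist r hr hrm y
    · rw [Prod.snd_sum, Finset.sum_apply]
      exact sw_dist t r hr hrm y
  wf t x := rfl

theorem hodge_sw {S : Multiset (ZMod m)} (h0 : (0 : ZMod m) ∉ S) (hS : IsHodge S)
    (t : (ZMod m)ˣ) : (S.map fun x => sw ((t : ZMod m) * x)).sum = 0 := by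
  have h1 : S.map (fun x => sw ((t : ZMod m) * x)) =
      S.map fun x => 2 * ((((t : ZMod m) * x).val : ℕ) : ℤ) - m := by
    refine Multiset.map_congr rfl fun x hx => FS.Quot.sw_of_ne ?_
    intro h
    have h5 : x = 0 := by
      have h6 := congrArg (fun z => ((t⁻¹ : (ZMod m)ˣ) : ZMod m) * z) h
      simpa using h6
    exact h0 (h5 ▸ hx)
  rw [h1]
  have h2 := hS t
  have h3 : (S.map fun x => 2 * ((((t : ZMod m) * x).val : ℕ) : ℤ) - (m : ℤ)).sum =
      2 * ((S.map fun x => ((t : ZMod m) * x).val).sum : ℕ) - m * S.card := by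
    rw [Multiset.sum_map_sub, Multiset.sum_map_mul_left, Multiset.map_const', Multiset.sum_replicate]
    push_cast
    rw [Multiset.map_map]
    simp [mul_comm]
  rw [h3]
  have h4 : (2 * ((S.map fun x => ((t : ZMod m) * x).val).sum : ℕ) : ℤ) = m * S.card := by
    exact_mod_cast h2
  rw [h4, sub_self]

end

/-- Every odd distribution of level `m` vanishes on the Hodge characters up to a fixed power
of `2`. -/
theorem univ (m : ℕ) [NeZero m] : ∃ j : ℕ, ∀ (B : Type) [AddCommGroup B] (F : ZMod m → B),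
    ODist m F → ∀ Y : Multiset (ZMod m), (0 : ZMod m) ∉ Y → FS.IsHodge Y →
      2 ^ j • (Y.map F).sum = 0 := by
  refine ⟨(FQ.famA (fun _ => True) m).card, fun B _ F hF Y h0 hY => ?_⟩
  have h := (pow_zero_all (mkDat F hF)).2 (Y.map (mkDat F hF).f).sum ?_ ?_
  · have h1 := congrArg Prod.fst h
    rw [Prod.smul_fst] at h1
    have h2 : ((Y.map (mkDat F hF).f).sum).1 = (Y.map F).sum := by
      change (AddMonoidHom.fst B ((ZMod m)ˣ → ℤ)) _ = _
      rw [AddMonoidHom.map_multiset_sum, Multiset.map_map]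
      rfl
    rw [h2] at h1
    exact h1
  · refine AddSubgroup.multiset_sum_mem _ _ ?_
    intro a ha
    obtain ⟨x, _, rfl⟩ := Multiset.mem_map.1 ha
    exact AddSubgroup.subset_closure ⟨x, rfl⟩
  · intro t
    rw [AddMonoidHom.map_multiset_sum, Multiset.map_map]
    exact hodge_sw h0 hY t

end Pool.Agent.FT
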