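import Pool.Agent.FQ.MainR
import Pool.Agent.FT.Univ
import Pool.Agent.FT.Base

/-!
# FT-TFa: the weights of the quadratic characters

Action of the units, distribution relation and fibres for the sums of the weights with a product of
quadratic characters.
-/

set_option autoImplicit false

namespace Pool.Agent.FT

open Finset
open Pool.Agent.Helper9.Fermat (fib mem_fib)
open Pool.Agent.FS (IsHodge emb sw rr)
open Pool.Agent.FQ (chiT)

/-- the weight of the quadratic character -/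
def TW (m : ℕ) [NeZero m] (W : Finset ℕ) (x : ZMod m) : ℤ :=
  ∑ t : (ZMod m)ˣ, chiT W (rr t) * sw ((t : ZMod m) * x)

/-- the sets of primes `V` which are seen by the character of `W` -/
def Bel (W V : Finset ℕ) : Prop := W ⊆ V ∧ ∀ q ∈ V, q ∉ W → chiT W q = -1

/-! ### auxiliary statements -/

private theorem tfa_hb {l : ℕ} (h : l % 4 = 3) : FS.hb l = l := by
  unfold FS.hb
  rw [if_neg]
  rintro rfl
  omega

theorem tfa_act {m : ℕ} {x : ZMod m} {a b : ℕ} (h : a ≡ b [MOD addOrderOf x]) :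
    (a : ZMod m) * x = (b : ZMod m) * x := by
  rw [← nsmul_eq_mul, ← nsmul_eq_mul]
  exact nsmul_eq_nsmul_iff_modEq.2 h

section

variable {m : ℕ} [NeZero m]

theorem tfa_ord (x : ZMod m) : addOrderOf x ∣ m ∧ addOrderOf x ≠ 0 := by
  have h1 : addOrderOf x ∣ m := by
    rw [addOrderOf_dvd_iff_nsmul_eq_zero, nsmul_eq_mul]
    simp
  exact ⟨h1, fun h => NeZero.ne m (Nat.eq_zero_of_zero_dvd (h ▸ h1))⟩

/-- the units with prescribed residues and their action -/
theorem tfa_unit {q : ℕ} (hq : q.Prime) (x : ZMod m) (a b c : ℕ)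
    (ha : a.Coprime (FS.qq m q)) (hb : b.Coprime (ordCompl[q] m))
    (h1 : a ≡ c [MOD ordProj[q] (addOrderOf x)]) (h2 : b ≡ c [MOD ordCompl[q] (addOrderOf x)]) :
    ∃ u : (ZMod m)ˣ, rr u ≡ a [MOD FS.qq m q] ∧ rr u ≡ b [MOD ordCompl[q] m] ∧
      (u : ZMod m) * x = (c : ZMod m) * x := by
  obtain ⟨u, hu1, hu2⟩ := FS.exists_unit_crt (FS.RNorm_qq_mul (m := m) q).symm
    (FS.RNorm_qq_coprime hq) a b ha hb
  refine ⟨u, hu1, hu2, ?_⟩
  have h3 : ((rr u : ℕ) : ZMod m) = (u : ZMod m) := ZMod.natCast_zmod_val _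
  rw [← h3]
  refine tfa_act ?_
  obtain ⟨h4, h5⟩ := tfa_ord x
  have h6 : rr u ≡ c [MOD ordProj[q] (addOrderOf x)] :=
    (hu1.of_dvd (Nat.ordProj_dvd_ordProj_of_dvd (NeZero.ne m) h4 q)).trans h1
  have h7 : rr u ≡ c [MOD ordCompl[q] (addOrderOf x)] :=
    (hu2.of_dvd (Nat.ordCompl_dvd_ordCompl_of_dvd h4 q)).trans h2
  have h8 : (ordProj[q] (addOrderOf x)).Coprime (ordCompl[q] (addOrderOf x)) :=
    Nat.Coprime.pow_left _ (Nat.coprime_ordCompl hq h5)
  have h9 := (Nat.modEq_and_modEq_iff_modEq_mul h8).1 ⟨h6, h7⟩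
  rwa [Nat.ordProj_mul_ordCompl_eq_self] at h9

omit [NeZero m] in
theorem tfa_cop {q a : ℕ} (h : a.Coprime q) : a.Coprime (FS.qq m q) :=
  Nat.Coprime.pow_right _ h

/-- the elements of a fibre -/
theorem tfa_fib_inj {q : ℕ} (hq : q.Prime) {x : ZMod m} (hx : q ∣ addOrderOf x) :
    Set.InjOn (fun j : ℕ => ((1 + j * (addOrderOf x / q) : ℕ) : ZMod m) * x) (range q) := by
  intro i hi j hj hij
  rw [coe_range, Set.mem_Iio] at hi hj
  obtain ⟨h4, h5⟩ := tfa_ord x
  obtain ⟨n', hn'⟩ := hx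
  have h6 : addOrderOf x / q = n' := by rw [hn', Nat.mul_div_cancel_left _ hq.pos]
  have h7 : n' ≠ 0 := by
    rintro rfl
    exact h5 (by rw [hn', mul_zero])
  simp only [h6] at hij
  rw [← nsmul_eq_mul, ← nsmul_eq_mul, nsmul_eq_nsmul_iff_modEq, hn'] at hij
  have h8 := Nat.ModEq.mul_right_cancel' h7 (Nat.ModEq.add_left_cancel' 1 hij)
  exact Nat.ModEq.eq_of_lt_of_lt h8 hi hj

theorem tfa_fib {q : ℕ} (hq : q.Prime) {x : ZMod m} (hx : q ∣ addOrderOf x) :
    (range q).image (fun j : ℕ => ((1 + j * (addOrderOf x / q) : ℕ) : ZMod m) * x) =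
      fib m q ((q : ZMod m) * x) := by
  obtain ⟨h4, h5⟩ := tfa_ord x
  refine eq_of_subset_of_card_le ?_ ?_
  · intro z hz
    rw [mem_image] at hz
    obtain ⟨j, _, rfl⟩ := hz
    rw [mem_fib, ← mul_assoc, ← Nat.cast_mul]
    refine tfa_act ?_
    obtain ⟨n', hn'⟩ := hx
    have h6 : addOrderOf x / q = n' := by rw [hn', Nat.mul_div_cancel_left _ hq.pos]
    have h7 : q * (1 + j * (addOrderOf x / q)) = q + addOrderOf x * j := by
      rw [h6, hn']
      ring
    rw [h7]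
    exact (Nat.modEq_iff_dvd' (Nat.le_add_right _ _)).2 (by simp) |>.symm
  · rw [card_image_of_injOn (tfa_fib_inj hq hx), card_range,
      Pool.Agent.Helper9.Fermat.fib_card hq.pos (hx.trans h4)]

end

section

variable {m : ℕ} [NeZero m] {W : Finset ℕ} (hW : ∀ l ∈ W, l.Prime ∧ l % 4 = 3 ∧ l ∣ m)

theorem tw_dist (W : Finset ℕ) (r : ℕ) (hr : r.Prime) (hrm : r ∣ m) (y : ZMod m) :
    ∑ z ∈ fib m r ((r : ZMod m) * y), TW m W z = TW m W ((r : ZMod m) * y) := by
  unfold TW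
  rw [sum_comm]
  refine sum_congr rfl fun t _ => ?_
  rw [← mul_sum, sw_dist t r hr hrm y]

private theorem tfa_sum {q : ℕ} (hq : q.Prime) {x : ZMod m} (hx : q ∣ addOrderOf x) :
    TW m W ((q : ZMod m) * x) =
      ∑ j ∈ range q, TW m W (((1 + j * (addOrderOf x / q) : ℕ) : ZMod m) * x) := by
  rw [← tw_dist W q hq (hx.trans (tfa_ord x).1) x, ← tfa_fib hq hx,
    sum_image (tfa_fib_inj hq hx)]

include hW

omit [NeZero m] in
private theorem tfa_hbm : ∀ l ∈ W, FS.hb l ∣ m := by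
  intro l hl
  rw [tfa_hb (hW l hl).2.1]
  exact (hW l hl).2.2

omit [NeZero m] in
private theorem tfa_compl {q l : ℕ} (hq : q.Prime) (hl : l ∈ W) (h : l ≠ q) :
    FS.hb l ∣ ordCompl[q] m := by
  rw [tfa_hb (hW l hl).2.1]
  have h3 : l.Coprime (ordProj[q] m) :=
    Nat.Coprime.pow_right _ ((Nat.coprime_primes (hW l hl).1 hq).2 h)
  refine h3.dvd_of_dvd_mul_left ?_
  rw [Nat.ordProj_mul_ordCompl_eq_self]
  exact (hW l hl).2.2

omit [NeZero m] in
private theorem tfa_chi {q a b : ℕ} (hq : q.Prime) (hqW : q ∉ W)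
    (h : a ≡ b [MOD ordCompl[q] m]) : chiT W a = chiT W b :=
  FQ.chiT_mod (fun _ hl => tfa_compl hW hq hl fun h => hqW (h ▸ hl)) h

omit [NeZero m] in
private theorem tfa_chi_one {q a : ℕ} (hq : q.Prime) (h1 : a ≡ 1 [MOD q])
    (h : a ≡ 1 [MOD ordCompl[q] m]) : chiT W a = 1 := by
  unfold chiT
  refine prod_eq_one fun l hl => ?_
  rw [← FQ.chi_one l]
  by_cases hlq : l = q
  · refine FQ.chi_mod ?_
    rw [tfa_hb (hW l hl).2.1, hlq]
    exact h1
  · exact FQ.chi_mod (h.of_dvd (tfa_compl hW hq hl hlq))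

theorem tw_unit (u : (ZMod m)ˣ) (x : ZMod m) :
    TW m W ((u : ZMod m) * x) = chiT W (rr u) * TW m W x := by
  have h1 : chiT W (rr u) * chiT W (rr u) = 1 :=
    FQ.chiT_sq (fun l hl => ⟨⟨(hW l hl).1, Or.inr (hW l hl).2.1⟩, tfa_hbm hW l hl⟩) u
  unfold TW
  rw [mul_sum, ← Equiv.sum_comp (Equiv.mulRight u)
    (fun t : (ZMod m)ˣ => chiT W (rr u) * (chiT W (rr t) * sw ((t : ZMod m) * x)))]
  refine sum_congr rfl fun t _ => ?_
  rw [Equiv.coe_mulRight, FQ.chiT_rr_mul (tfa_hbm hW), Units.val_mul, mul_assoc (t : ZMod m)]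
  linear_combination (-(chiT W (rr t) * sw ((t : ZMod m) * ((u : ZMod m) * x)))) * h1

theorem tw_zero {l : ℕ} (hl : l ∈ W) {x : ZMod m} (hx : ¬ l ∣ addOrderOf x) : TW m W x = 0 := by
  obtain ⟨hlp, hl4, hlm⟩ := hW l hl
  have hl1 : 1 ≤ l := hlp.pos
  have h1 : ordProj[l] (addOrderOf x) = 1 := by
    rw [Nat.factorization_eq_zero_of_not_dvd hx, pow_zero]
  have h2 : (l - 1).Coprime l := by
    have h3 : (l - 1).Coprime (l - 1 + 1) := by simp
    rwa [Nat.sub_add_cancel hl1] at h3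
  obtain ⟨u, hu1, hu2, hu3⟩ := tfa_unit hlp x (l - 1) 1 1 (tfa_cop h2) (Nat.coprime_one_left _)
    (by rw [h1]; exact Nat.modEq_one) (Nat.ModEq.refl 1)
  rw [Nat.cast_one, one_mul] at hu3
  have h4 : chiT W (rr u) = -1 := by
    unfold chiT
    rw [← mul_prod_erase W _ hl]
    have h5 : ∏ a ∈ W.erase l, FQ.chi a (rr u) = 1 := by
      refine prod_eq_one fun a ha => ?_
      rw [← FQ.chi_one a]
      exact FQ.chi_mod (hu2.of_dvd (tfa_compl hW hlp (mem_of_mem_erase ha) (ne_of_mem_erase ha)))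
    have h6 : FQ.chi l (rr u) = FQ.chi l (l - 1) := by
      refine FQ.chi_mod ?_
      rw [tfa_hb hl4]
      exact hu1.of_dvd (dvd_pow_self l (hlp.factorization_pos_of_dvd (NeZero.ne m) hlm).ne')
    have h7 : FQ.chi l (l - 1) = - FQ.chi l 1 := by
      refine FQ.chi_neg ⟨hlp, Or.inr hl4⟩ ?_
      rw [tfa_hb hl4, Nat.add_comm, Nat.sub_add_cancel hl1]
      exact (Nat.modEq_zero_iff_dvd).2 dvd_rfl
    rw [h5, h6, h7, FQ.chi_one, mul_one]
  have h5 := tw_unit hW u x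
  rw [hu3, h4] at h5
  linarith

/-- the elements of the fibre which are multiples by units -/
private theorem tfa_eq {q : ℕ} (hq : q.Prime) {x : ZMod m} (hx : q ∣ addOrderOf x) (j : ℕ)
    (h1 : ¬ q ∣ 1 + j * (addOrderOf x / q)) (h2 : q ∉ W ∨ q ∣ addOrderOf x / q) :
    TW m W (((1 + j * (addOrderOf x / q) : ℕ) : ZMod m) * x) = TW m W x := by
  obtain ⟨h4, h5⟩ := tfa_ord x
  have h6 : (1 + j * (addOrderOf x / q)).Coprime q := ((Nat.Prime.coprime_iff_not_dvd hq).2 h1).symm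
  have h7 : ordCompl[q] (addOrderOf x) ∣ addOrderOf x / q := by
    have h8 : 1 ≤ (addOrderOf x).factorization q := hq.factorization_pos_of_dvd h5 hx
    have h9 := Nat.ordProj_mul_ordCompl_eq_self (addOrderOf x) q
    have h10 : q * q ^ ((addOrderOf x).factorization q - 1) = ordProj[q] (addOrderOf x) := by
      rw [← pow_succ', Nat.sub_add_cancel h8]
    refine ⟨q ^ ((addOrderOf x).factorization q - 1), Nat.div_eq_of_eq_mul_right hq.pos ?_⟩
    calc addOrderOf x = ordProj[q] (addOrderOf x) * ordCompl[q] (addOrderOf x) := h9.symm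
      _ = (q * q ^ ((addOrderOf x).factorization q - 1)) * ordCompl[q] (addOrderOf x) := by
        rw [h10]
      _ = _ := by ring
  obtain ⟨u, hu1, hu2, hu3⟩ := tfa_unit hq x (1 + j * (addOrderOf x / q)) 1
    (1 + j * (addOrderOf x / q)) (tfa_cop h6) (Nat.coprime_one_left _) (Nat.ModEq.refl _) (by
      refine (Nat.modEq_iff_dvd' (Nat.le_add_right _ _)).2 ?_
      rw [Nat.add_sub_cancel_left]
      exact h7.mul_left j)
  rw [← hu3, tw_unit hW]
  have h8 : chiT W (rr u) = 1 := by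
    rcases h2 with h2 | h2
    · rw [tfa_chi hW hq h2 hu2, FQ.chiT_one]
    · refine tfa_chi_one hW hq ?_ hu2
      refine (hu1.of_dvd (dvd_pow_self q
        (hq.factorization_pos_of_dvd (NeZero.ne m) (hx.trans h4)).ne')).trans ?_
      refine Nat.ModEq.symm ((Nat.modEq_iff_dvd' (Nat.le_add_right _ _)).2 ?_)
      rw [Nat.add_sub_cancel_left]
      exact h2.mul_left j
  rw [h8, one_mul]

theorem tw_sq {q : ℕ} (hq : q.Prime) {x : ZMod m} (hx : q ^ 2 ∣ addOrderOf x) :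
    TW m W ((q : ZMod m) * x) = q * TW m W x := by
  have hqx : q ∣ addOrderOf x := (dvd_pow_self q two_ne_zero).trans hx
  have h1 : q ∣ addOrderOf x / q := by
    refine (Nat.dvd_div_iff_mul_dvd hqx).2 ?_
    rw [← pow_two]
    exact hx
  rw [tfa_sum hq hqx, sum_congr rfl fun j _ => tfa_eq hW hq hqx j ?_ (Or.inr h1), sum_const,
    card_range, nsmul_eq_mul]
  intro h2
  have h3 : q ∣ 1 := (Nat.dvd_add_left (h1.mul_left j)).1 h2
  exact hq.one_lt.ne' (Nat.dvd_one.1 h3)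

theorem tw_q {q : ℕ} (hq : q.Prime) (hqW : q ∉ W) {x : ZMod m} (hx : q ∣ addOrderOf x)
    (hx2 : ¬ q ^ 2 ∣ addOrderOf x) :
    ∃ z₀ : ZMod m, addOrderOf x = q * addOrderOf z₀ ∧
      ((q : ℤ) - 1) * TW m W x = (chiT W q - 1) * TW m W z₀ := by
  classical
  obtain ⟨h4, h5⟩ := tfa_ord x
  obtain ⟨n', hn'⟩ := hx
  have hqx : q ∣ addOrderOf x := ⟨n', hn'⟩
  have h6 : addOrderOf x / q = n' := by rw [hn', Nat.mul_div_cancel_left _ hq.pos]
  have hqn : ¬ q ∣ n' := by
    rintro ⟨c, rfl⟩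
    exact hx2 ⟨c, by rw [hn']; ring⟩
  -- the index of the exceptional element
  obtain ⟨j₀, hj₀, hdj⟩ : ∃ j₀ < q, q ∣ 1 + j₀ * n' := by
    have := Fact.mk hq
    have h7 : ((n' : ℕ) : ZMod q) ≠ 0 := by
      intro h
      exact hqn ((ZMod.natCast_eq_zero_iff n' q).1 h)
    refine ⟨(-((n' : ℕ) : ZMod q)⁻¹).val, ZMod.val_lt _, ?_⟩
    rw [← ZMod.natCast_eq_zero_iff]
    push_cast
    rw [ZMod.natCast_zmod_val, neg_mul, inv_mul_cancel₀ h7]
    ring
  refine ⟨((1 + j₀ * n' : ℕ) : ZMod m) * x, ?_, ?_⟩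
  · rw [← nsmul_eq_mul, addOrderOf_nsmul]
    have h7 : (addOrderOf x).gcd (1 + j₀ * n') = q := by
      rw [hn']
      have h8 : n'.Coprime (1 + j₀ * n') := by
        rw [Nat.coprime_add_mul_right_right]
        exact Nat.coprime_one_right _
      rw [Nat.Coprime.gcd_mul_right_cancel _ h8]
      exact Nat.gcd_eq_left hdj
    rw [h7, h6, hn']
  · have hz₀ : addOrderOf (((1 + j₀ * n' : ℕ) : ZMod m) * x) = n' := by
      rw [← nsmul_eq_mul, addOrderOf_nsmul]
      have h7 : (addOrderOf x).gcd (1 + j₀ * n') = q := by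
        rw [hn']
        have h8 : n'.Coprime (1 + j₀ * n') := by
          rw [Nat.coprime_add_mul_right_right]
          exact Nat.coprime_one_right _
        rw [Nat.Coprime.gcd_mul_right_cancel _ h8]
        exact Nat.gcd_eq_left hdj
      rw [h7, h6]
    have hs := tfa_sum (W := W) hq hqx
    rw [h6, ← add_sum_erase _ _ (mem_range.2 hj₀)] at hs
    have h8 : ∑ j ∈ (range q).erase j₀, TW m W (((1 + j * n' : ℕ) : ZMod m) * x) =
        ((q : ℤ) - 1) * TW m W x := by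
      rw [sum_congr rfl fun j hj => (show TW m W (((1 + j * n' : ℕ) : ZMod m) * x) = TW m W x from
        ?_), sum_const, card_erase_of_mem (mem_range.2 hj₀), card_range, nsmul_eq_mul,
        Nat.cast_sub hq.one_lt.le, Nat.cast_one]
      have h9 := tfa_eq hW hq hqx j ?_ (Or.inl hqW)
      · rwa [h6] at h9
      · rw [h6]
        intro h10
        apply ne_of_mem_erase hj
        have h11 : 1 + j * n' ≡ 1 + j₀ * n' [MOD q] :=
          ((Nat.modEq_zero_iff_dvd).2 h10).trans ((Nat.modEq_zero_iff_dvd).2 hdj).symm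
        have h12 := Nat.ModEq.cancel_right_of_coprime
          ((Nat.Prime.coprime_iff_not_dvd hq).2 hqn) (Nat.ModEq.add_left_cancel' 1 h11)
        exact Nat.ModEq.eq_of_lt_of_lt h12 (mem_range.1 (mem_of_mem_erase hj)) hj₀
    rw [h8] at hs
    -- the action of the unit `q`
    have h9 : (q : ZMod m) * (((1 + j₀ * n' : ℕ) : ZMod m) * x) = (q : ZMod m) * x := by
      have h10 : (((1 + j₀ * n' : ℕ) : ZMod m) * x) ∈ fib m q ((q : ZMod m) * x) := by
        rw [← tfa_fib hq hqx, mem_image]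
        exact ⟨j₀, mem_range.2 hj₀, by rw [h6]⟩
      exact mem_fib.1 h10
    have h10 : ordProj[q] n' = 1 := by
      rw [Nat.factorization_eq_zero_of_not_dvd hqn, pow_zero]
    obtain ⟨u, hu1, hu2, hu3⟩ := tfa_unit hq (((1 + j₀ * n' : ℕ) : ZMod m) * x) 1 q q
      (Nat.coprime_one_left _) (Nat.coprime_ordCompl hq (NeZero.ne m))
      (by rw [hz₀, h10]; exact Nat.modEq_one) (Nat.ModEq.refl _)
    have h11 := tw_unit hW u (((1 + j₀ * n' : ℕ) : ZMod m) * x)
    rw [hu3, h9, tfa_chi hW hq hqW hu2, hs] at h11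
    linear_combination h11

end

end Pool.Agent.FT
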