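import Pool.Agent.FT.F4b
import Pool.Agent.FT.TFa

/-!
# FT-F4c: the distribution relation for the half system of a prime

Unit action, distribution relation and fibres for `FA (HR m r)`; adapted from `TFa.lean`.
-/

set_option autoImplicit false

namespace Pool.Agent.FT

open Finset
open Pool.Agent.Helper9.Fermat (fib mem_fib)
open Pool.Agent.FS (IsHodge emb sw rr)

private theorem f4c_act {m : ℕ} {x : ZMod m} {a b : ℕ} (h : a ≡ b [MOD addOrderOf x]) :
    (a : ZMod m) * x = (b : ZMod m) * x := by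
  rw [← nsmul_eq_mul, ← nsmul_eq_mul]
  exact nsmul_eq_nsmul_iff_modEq.2 h

section

variable {m : ℕ} [NeZero m]

private theorem f4c_ord (x : ZMod m) : addOrderOf x ∣ m ∧ addOrderOf x ≠ 0 := by
  have h1 : addOrderOf x ∣ m := by
    rw [addOrderOf_dvd_iff_nsmul_eq_zero, nsmul_eq_mul]
    simp
  exact ⟨h1, fun h => NeZero.ne m (Nat.eq_zero_of_zero_dvd (h ▸ h1))⟩

/-- the units with prescribed residues and their action -/
private theorem f4c_unit {q : ℕ} (hq : q.Prime) (x : ZMod m) (a b c : ℕ)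
    (ha : a.Coprime (FS.qq m q)) (hb : b.Coprime (ordCompl[q] m))
    (h1 : a ≡ c [MOD ordProj[q] (addOrderOf x)]) (h2 : b ≡ c [MOD ordCompl[q] (addOrderOf x)]) :
    ∃ u : (ZMod m)ˣ, rr u ≡ a [MOD FS.qq m q] ∧ rr u ≡ b [MOD ordCompl[q] m] ∧
      (u : ZMod m) * x = (c : ZMod m) * x := by
  obtain ⟨u, hu1, hu2⟩ := FS.exists_unit_crt (FS.RNorm_qq_mul (m := m) q).symm
    (FS.RNorm_qq_coprime hq) a b ha hb
  refine ⟨u, hu1, hu2, ?_⟩
  have h3 : ((rr u : ℕ) : ZMod m) = (u : ZMod m) := ZMod.natCast_zmod_val _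
  rw [← h3]
  refine f4c_act ?_
  obtain ⟨h4, h5⟩ := f4c_ord x
  have h6 : rr u ≡ c [MOD ordProj[q] (addOrderOf x)] :=
    (hu1.of_dvd (Nat.ordProj_dvd_ordProj_of_dvd (NeZero.ne m) h4 q)).trans h1
  have h7 : rr u ≡ c [MOD ordCompl[q] (addOrderOf x)] :=
    (hu2.of_dvd (Nat.ordCompl_dvd_ordCompl_of_dvd h4 q)).trans h2
  have h8 : (ordProj[q] (addOrderOf x)).Coprime (ordCompl[q] (addOrderOf x)) :=
    Nat.Coprime.pow_left _ (Nat.coprime_ordCompl hq h5)
  have h9 := (Nat.modEq_and_modEq_iff_modEq_mul h8).1 ⟨h6, h7⟩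
  rwa [Nat.ordProj_mul_ordCompl_eq_self] at h9

omit [NeZero m] in
private theorem f4c_cop {q a : ℕ} (h : a.Coprime q) : a.Coprime (FS.qq m q) :=
  Nat.Coprime.pow_right _ h

/-- the elements of a fibre -/
private theorem f4c_fib_inj {q : ℕ} (hq : q.Prime) {x : ZMod m} (hx : q ∣ addOrderOf x) :
    Set.InjOn (fun j : ℕ => ((1 + j * (addOrderOf x / q) : ℕ) : ZMod m) * x) (range q) := by
  intro i hi j hj hij
  rw [coe_range, Set.mem_Iio] at hi hj
  obtain ⟨h4, h5⟩ := f4c_ord x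
  obtain ⟨n', hn'⟩ := hx
  have h6 : addOrderOf x / q = n' := by rw [hn', Nat.mul_div_cancel_left _ hq.pos]
  have h7 : n' ≠ 0 := by
    rintro rfl
    exact h5 (by rw [hn', mul_zero])
  simp only [h6] at hij
  rw [← nsmul_eq_mul, ← nsmul_eq_mul, nsmul_eq_nsmul_iff_modEq, hn'] at hij
  have h8 := Nat.ModEq.mul_right_cancel' h7 (Nat.ModEq.add_left_cancel' 1 hij)
  exact Nat.ModEq.eq_of_lt_of_lt h8 hi hj

private theorem f4c_fib {q : ℕ} (hq : q.Prime) {x : ZMod m} (hx : q ∣ addOrderOf x) :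
    (range q).image (fun j : ℕ => ((1 + j * (addOrderOf x / q) : ℕ) : ZMod m) * x) =
      fib m q ((q : ZMod m) * x) := by
  obtain ⟨h4, h5⟩ := f4c_ord x
  refine eq_of_subset_of_card_le ?_ ?_
  · intro z hz
    rw [mem_image] at hz
    obtain ⟨j, _, rfl⟩ := hz
    rw [mem_fib, ← mul_assoc, ← Nat.cast_mul]
    refine f4c_act ?_
    obtain ⟨n', hn'⟩ := hx
    have h6 : addOrderOf x / q = n' := by rw [hn', Nat.mul_div_cancel_left _ hq.pos]
    have h7 : q * (1 + j * (addOrderOf x / q)) = q + addOrderOf x * j := by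
      rw [h6, hn']
      ring
    rw [h7]
    exact (Nat.modEq_iff_dvd' (Nat.le_add_right _ _)).2 (by simp) |>.symm
  · rw [card_image_of_injOn (f4c_fib_inj hq hx), card_range,
      Pool.Agent.Helper9.Fermat.fib_card hq.pos (hx.trans h4)]

end

theorem hr_unit {m r : ℕ} [NeZero m] (hrm : r ∣ m) {u : (ZMod m)ˣ}
    (hu : rr u ≡ 1 [MOD r]) (x : ZMod m) : FA (HR m r) ((u : ZMod m) * x) = FA (HR m r) x := by
  have hval : ∀ a : (ZMod m)ˣ, ((a * u : (ZMod m)ˣ) : ZMod m).val % r = (a : ZMod m).val % r := by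
    intro a
    rw [Units.val_mul, ZMod.val_mul, Nat.mod_mod_of_dvd _ hrm]
    have h1 : (a : ZMod m).val * (u : ZMod m).val ≡ (a : ZMod m).val * 1 [MOD r] :=
      Nat.ModEq.mul_left _ hu
    rw [mul_one] at h1
    exact h1
  have hmem : ∀ a : (ZMod m)ˣ, a * u ∈ HR m r ↔ a ∈ HR m r := by
    intro a
    unfold HR
    rw [mem_filter, mem_filter, hval]
    simp
  unfold FA
  refine sum_bij' (fun a _ => a * u) (fun a _ => a * u⁻¹) ?_ ?_ ?_ ?_ ?_
  · intro a ha
    exact (hmem a).2 ha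
  · intro a ha
    rw [← hmem, inv_mul_cancel_right]
    exact ha
  · intro a _
    rw [mul_inv_cancel_right]
  · intro a _
    rw [inv_mul_cancel_right]
  · intro a _
    rw [Units.val_mul, mul_assoc]

section

variable {m : ℕ} [NeZero m]

private theorem f4c_dist (A : Finset (ZMod m)ˣ) (q : ℕ) (hq : q.Prime) (hqm : q ∣ m) (y : ZMod m) :
    ∑ z ∈ fib m q ((q : ZMod m) * y), FA A z = FA A ((q : ZMod m) * y) := by
  unfold FA
  rw [sum_comm]
  exact sum_congr rfl fun t _ => sw_dist t q hq hqm y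

private theorem f4c_sum (A : Finset (ZMod m)ˣ) {q : ℕ} (hq : q.Prime) {x : ZMod m}
    (hx : q ∣ addOrderOf x) : FA A ((q : ZMod m) * x) =
      ∑ j ∈ range q, FA A (((1 + j * (addOrderOf x / q) : ℕ) : ZMod m) * x) := by
  rw [← f4c_dist A q hq (hx.trans (f4c_ord x).1) x, ← f4c_fib hq hx,
    sum_image (f4c_fib_inj hq hx)]

/-- the elements of the fibre which are multiples by units -/
private theorem f4c_eq {r q : ℕ} (hr : r.Prime) (hq : q.Prime) (hrq : r ≠ q) (hrm : r ∣ m)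
    {x : ZMod m} (hx : q ∣ addOrderOf x) (j : ℕ) (h1 : ¬ q ∣ 1 + j * (addOrderOf x / q)) :
    FA (HR m r) (((1 + j * (addOrderOf x / q) : ℕ) : ZMod m) * x) = FA (HR m r) x := by
  obtain ⟨h4, h5⟩ := f4c_ord x
  have h6 : (1 + j * (addOrderOf x / q)).Coprime q := ((Nat.Prime.coprime_iff_not_dvd hq).2 h1).symm
  have h7 : ordCompl[q] (addOrderOf x) ∣ addOrderOf x / q := by
    have h8 : 1 ≤ (addOrderOf x).factorization q := hq.factorization_pos_of_dvd h5 hx
    have h9 := Nat.ordProj_mul_ordCompl_eq_self (addOrderOf x) q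
    have h10 : q * q ^ ((addOrderOf x).factorization q - 1) = ordProj[q] (addOrderOf x) := by
      rw [← pow_succ', Nat.sub_add_cancel h8]
    refine ⟨q ^ ((addOrderOf x).factorization q - 1), Nat.div_eq_of_eq_mul_right hq.pos ?_⟩
    calc addOrderOf x = ordProj[q] (addOrderOf x) * ordCompl[q] (addOrderOf x) := h9.symm
      _ = (q * q ^ ((addOrderOf x).factorization q - 1)) * ordCompl[q] (addOrderOf x) := by
        rw [h10]
      _ = _ := by ring
  obtain ⟨u, hu1, hu2, hu3⟩ := f4c_unit hq x (1 + j * (addOrderOf x / q)) 1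
    (1 + j * (addOrderOf x / q)) (f4c_cop h6) (Nat.coprime_one_left _) (Nat.ModEq.refl _) (by
      refine (Nat.modEq_iff_dvd' (Nat.le_add_right _ _)).2 ?_
      rw [Nat.add_sub_cancel_left]
      exact h7.mul_left j)
  rw [← hu3]
  refine hr_unit hrm (hu2.of_dvd ?_) x
  have h3 : r.Coprime (ordProj[q] m) :=
    Nat.Coprime.pow_right _ ((Nat.coprime_primes hr hq).2 hrq)
  refine h3.dvd_of_dvd_mul_left ?_
  rw [Nat.ordProj_mul_ordCompl_eq_self]
  exact hrm

end

theorem hr_sq {m r l : ℕ} [NeZero m] (hr : r.Prime) (hl : l.Prime) (hrl : r ≠ l) (hrm : r ∣ m)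
    {x : ZMod m} (hx : l ^ 2 ∣ addOrderOf x) :
    FA (HR m r) ((l : ZMod m) * x) = l * FA (HR m r) x := by
  have hqx : l ∣ addOrderOf x := (dvd_pow_self l two_ne_zero).trans hx
  have h1 : l ∣ addOrderOf x / l := by
    refine (Nat.dvd_div_iff_mul_dvd hqx).2 ?_
    rw [← pow_two]
    exact hx
  rw [f4c_sum _ hl hqx, sum_congr rfl fun j _ => f4c_eq hr hl hrl hrm hqx j ?_, sum_const,
    card_range, nsmul_eq_mul]
  intro h2
  have h3 : l ∣ 1 := (Nat.dvd_add_left (h1.mul_left j)).1 h2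
  exact hl.one_lt.ne' (Nat.dvd_one.1 h3)

theorem hr_one {m r l : ℕ} [NeZero m] (hr : r.Prime) (hl : l.Prime) (hrl : r ≠ l) (hrm : r ∣ m)
    {x : ZMod m} (hx : l ∣ addOrderOf x) (hx2 : ¬ l ^ 2 ∣ addOrderOf x) :
    ∃ z₀ : ZMod m, addOrderOf x = l * addOrderOf z₀ ∧
      ((l : ℤ) - 1) * FA (HR m r) x =
        FA (HR m r) ((l : ZMod m) * z₀) - FA (HR m r) z₀ := by
  classical
  obtain ⟨h4, h5⟩ := f4c_ord x
  obtain ⟨n', hn'⟩ := hx
  have hqx : l ∣ addOrderOf x := ⟨n', hn'⟩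
  have h6 : addOrderOf x / l = n' := by rw [hn', Nat.mul_div_cancel_left _ hl.pos]
  have hqn : ¬ l ∣ n' := by
    rintro ⟨c, rfl⟩
    exact hx2 ⟨c, by rw [hn']; ring⟩
  -- the index of the exceptional element
  obtain ⟨j₀, hj₀, hdj⟩ : ∃ j₀ < l, l ∣ 1 + j₀ * n' := by
    have := Fact.mk hl
    have h7 : ((n' : ℕ) : ZMod l) ≠ 0 := by
      intro h
      exact hqn ((ZMod.natCast_eq_zero_iff n' l).1 h)
    refine ⟨(-((n' : ℕ) : ZMod l)⁻¹).val, ZMod.val_lt _, ?_⟩
    rw [← ZMod.natCast_eq_zero_iff]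
    push_cast
    rw [ZMod.natCast_zmod_val, neg_mul, inv_mul_cancel₀ h7]
    ring
  refine ⟨((1 + j₀ * n' : ℕ) : ZMod m) * x, ?_, ?_⟩
  · rw [← nsmul_eq_mul, addOrderOf_nsmul]
    have h7 : (addOrderOf x).gcd (1 + j₀ * n') = l := by
      rw [hn']
      have h8 : n'.Coprime (1 + j₀ * n') := by
        rw [Nat.coprime_add_mul_right_right]
        exact Nat.coprime_one_right _
      rw [Nat.Coprime.gcd_mul_right_cancel _ h8]
      exact Nat.gcd_eq_left hdj
    rw [h7, h6, hn']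
  · have hs := f4c_sum (HR m r) hl hqx
    rw [h6, ← add_sum_erase _ _ (mem_range.2 hj₀)] at hs
    have h8 : ∑ j ∈ (range l).erase j₀, FA (HR m r) (((1 + j * n' : ℕ) : ZMod m) * x) =
        ((l : ℤ) - 1) * FA (HR m r) x := by
      rw [sum_congr rfl fun j hj => (show FA (HR m r) (((1 + j * n' : ℕ) : ZMod m) * x) =
        FA (HR m r) x from ?_), sum_const, card_erase_of_mem (mem_range.2 hj₀), card_range,
        nsmul_eq_mul, Nat.cast_sub hl.one_lt.le, Nat.cast_one]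
      have h9 := f4c_eq hr hl hrl hrm hqx j ?_
      · rwa [h6] at h9
      · rw [h6]
        intro h10
        apply ne_of_mem_erase hj
        have h11 : 1 + j * n' ≡ 1 + j₀ * n' [MOD l] :=
          ((Nat.modEq_zero_iff_dvd).2 h10).trans ((Nat.modEq_zero_iff_dvd).2 hdj).symm
        have h12 := Nat.ModEq.cancel_right_of_coprime
          ((Nat.Prime.coprime_iff_not_dvd hl).2 hqn) (Nat.ModEq.add_left_cancel' 1 h11)
        exact Nat.ModEq.eq_of_lt_of_lt h12 (mem_range.1 (mem_of_mem_erase hj)) hj₀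
    rw [h8] at hs
    have h9 : (l : ZMod m) * (((1 + j₀ * n' : ℕ) : ZMod m) * x) = (l : ZMod m) * x := by
      have h10 : (((1 + j₀ * n' : ℕ) : ZMod m) * x) ∈ fib m l ((l : ZMod m) * x) := by
        rw [← f4c_fib hl hqx, mem_image]
        exact ⟨j₀, mem_range.2 hj₀, by rw [h6]⟩
      exact mem_fib.1 h10
    rw [h9, hs]
    ring

end Pool.Agent.FT
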