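import Pool.Agent.FT.TFa

/-!
# FT-TFn: the weight of the quadratic character is not zero

The sum over the units of `ℤ/m` is a positive multiple of the sum over the units of `ℤ/D`, `D` the
product of the primes in `W`, which does not vanish by the injectivity of the sawtooth
transform.
-/

set_option autoImplicit false

namespace Pool.Agent.FT

open Finset
open Pool.Agent.FS (IsHodge emb sw rr)
open Pool.Agent.FQ (chiT)

private theorem tfn_chi {D : ℕ} [NeZero D] {W : Finset ℕ}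
    (hW : ∀ l ∈ W, l.Prime ∧ l % 4 = 3) (hD : D = ∏ l ∈ W, l) {l : ℕ} (hl : l ∈ W) :
    ∃ k ∈ Pool.Agent.FS.Kl D l, chiT W (rr k) = -1 := by
  classical
  have hlp := (hW l hl).1
  have hlD : D = l * ∏ a ∈ W.erase l, a := by rw [hD, mul_prod_erase W (fun a => a) hl]
  have hcop : l.Coprime (∏ a ∈ W.erase l, a) := by
    refine Nat.Coprime.prod_right fun a ha => ?_
    exact (Nat.coprime_primes hlp (hW a (mem_of_mem_erase ha)).1).2 (ne_of_mem_erase ha).symm
  have h1 : (l - 1).Coprime l := by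
    have h := Nat.coprime_self_sub_left (m := 1) (n := l) hlp.one_lt.le
    rw [h]
    exact Nat.coprime_one_left l
  obtain ⟨k, hk1, hk2⟩ := Pool.Agent.FS.exists_unit_crt hlD hcop (l - 1) 1 h1
    (Nat.coprime_one_left _)
  refine ⟨k, ?_, ?_⟩
  · rw [Pool.Agent.FS.mem_Kl]
    refine hk2.of_dvd ?_
    have h2 : (ordCompl[l] D).Coprime l :=
      (Nat.coprime_ordCompl hlp (NeZero.ne D)).symm
    refine h2.dvd_of_dvd_mul_left ?_
    rw [← hlD]
    exact Nat.ordCompl_dvd D l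
  · have h2 : Pool.Agent.FQ.chi l (rr k) = -1 := by
      have h3 : 1 + rr k ≡ 0 [MOD Pool.Agent.FS.hb l] := by
        have h4 : Pool.Agent.FS.hb l = l := by
          unfold Pool.Agent.FS.hb
          have := (hW l hl).2
          rw [if_neg (by omega)]
        rw [h4]
        refine (hk1.add_left 1).trans ?_
        have h5 : 1 + (l - 1) = l := by
          have := hlp.one_lt
          omega
        rw [h5]
        exact (Nat.modEq_zero_iff_dvd).2 dvd_rfl
      rw [Pool.Agent.FQ.chi_neg ⟨hlp, Or.inr (hW l hl).2⟩ h3, Pool.Agent.FQ.chi_one]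
    have h3 : ∀ a ∈ W.erase l, Pool.Agent.FQ.chi a (rr k) = 1 := by
      intro a ha
      have h4 : Pool.Agent.FS.hb a = a := by
        unfold Pool.Agent.FS.hb
        have := (hW a (mem_of_mem_erase ha)).2
        rw [if_neg (by omega)]
      rw [Pool.Agent.FQ.chi_mod (a := rr k) (b := 1) (by
        rw [h4]
        exact hk2.of_dvd (dvd_prod_of_mem (fun a => a) ha)), Pool.Agent.FQ.chi_one]
    unfold Pool.Agent.FQ.chiT
    rw [← mul_prod_erase W _ hl, h2, prod_eq_one h3, mul_one]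

private theorem tfn_level {D : ℕ} [NeZero D] {W : Finset ℕ}
    (hW : ∀ l ∈ W, l.Prime ∧ l % 4 = 3) (hD : D = ∏ l ∈ W, l) (hodd : Odd W.card) :
    ∑ s : (ZMod D)ˣ, chiT W (rr s) * sw (s : ZMod D) ≠ 0 := by
  classical
  intro h0
  have hhb : ∀ l ∈ W, Pool.Agent.FS.hb l = l := by
    intro l hl
    unfold Pool.Agent.FS.hb
    have := (hW l hl).2
    rw [if_neg (by omega)]
  have hlD : ∀ l ∈ W, l ∣ D := fun l hl => by
    rw [hD]
    exact dvd_prod_of_mem (fun a => a) hl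
  have hbD : ∀ l ∈ W, Pool.Agent.FS.hb l ∣ D := fun l hl => by
    rw [hhb l hl]
    exact hlD l hl
  obtain ⟨l₀, hl₀⟩ : W.Nonempty := by
    rw [← card_pos]
    exact hodd.pos
  have hD1 : 1 < D := lt_of_lt_of_le (hW l₀ hl₀).1.one_lt
    (Nat.le_of_dvd (Nat.pos_of_ne_zero (NeZero.ne D)) (hlD l₀ hl₀))
  have : Fact (1 < D) := ⟨hD1⟩
  have hsw : ∀ s : (ZMod D)ˣ, sw (s : ZMod D) = 2 * ((s : ZMod D).val : ℤ) - D := by
    intro s
    unfold sw
    rw [if_neg s.ne_zero]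
  have hsq : ∀ t : (ZMod D)ˣ, chiT W (rr t) * chiT W (rr t) = 1 := fun t =>
    Pool.Agent.FQ.chiT_sq (fun l hl => ⟨⟨(hW l hl).1, Or.inr (hW l hl).2⟩, hbD l hl⟩) t
  have hmul : ∀ s t : (ZMod D)ˣ, chiT W (rr (s * t)) = chiT W (rr s) * chiT W (rr t) :=
    Pool.Agent.FQ.chiT_rr_mul hbD
  have h1 : chiT W (rr (1 : (ZMod D)ˣ)) = 0 := by
    refine Pool.Agent.FS.saw_inj_n D (fun u => chiT W (rr u)) ?_ ?_ ?_ 1
    · intro u
      have h3 : ∀ l ∈ W, Pool.Agent.FQ.chi l (rr (-1 * u)) = -1 * Pool.Agent.FQ.chi l (rr u) := by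
        intro l hl
        have h4 : rr u + rr (-1 * u) ≡ 0 [MOD Pool.Agent.FS.hb l] := by
          rw [add_comm]
          exact (Pool.Agent.FS.rr_neg u).of_dvd (hbD l hl)
        rw [Pool.Agent.FQ.chi_neg ⟨(hW l hl).1, Or.inr (hW l hl).2⟩ h4]
        ring
      show chiT W (rr (-u)) = - chiT W (rr u)
      rw [← neg_one_mul u]
      unfold Pool.Agent.FQ.chiT
      rw [prod_congr rfl h3, prod_mul_distrib, prod_const, hodd.neg_one_pow, neg_one_mul]
    · intro t
      rw [← Equiv.sum_comp (Equiv.mulLeft t⁻¹)]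
      have h3 : ∀ u : (ZMod D)ˣ, chiT W (rr ((Equiv.mulLeft t⁻¹) u)) *
          (2 * (((t * (Equiv.mulLeft t⁻¹) u : (ZMod D)ˣ) : ZMod D).val : ℤ) - D) =
          chiT W (rr t) * (chiT W (rr u) * sw (u : ZMod D)) := by
        intro u
        rw [Equiv.coe_mulLeft, mul_inv_cancel_left, hsw u]
        have h4 : chiT W (rr (t⁻¹ * u)) = chiT W (rr t) * chiT W (rr u) := by
          have h5 := hmul t (t⁻¹ * u)
          rw [mul_inv_cancel_left] at h5
          rw [h5]
          linear_combination (- chiT W (rr (t⁻¹ * u))) * hsq t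
        rw [h4]
        ring
      rw [sum_congr rfl fun u _ => h3 u, ← mul_sum, h0, mul_zero]
    · intro l hl hlD' u
      have hlW : l ∈ W := by
        rw [hD] at hlD'
        obtain ⟨a, ha, h3⟩ := (Prime.dvd_finsetProd_iff hl.prime _).1 hlD'
        rw [(Nat.prime_dvd_prime_iff_eq hl (hW a ha).1).1 h3]
        exact ha
      obtain ⟨k, hk, hk1⟩ := tfn_chi hW hD hlW
      rw [finsum_eq_sum_of_fintype]
      have h3 : ∑ x : Pool.Agent.FS.Kl D l, chiT W (rr ((x : (ZMod D)ˣ) * u)) =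
          ∑ x : Pool.Agent.FS.Kl D l, - chiT W (rr ((x : (ZMod D)ˣ) * u)) := by
        rw [← Equiv.sum_comp (Equiv.mulLeft (⟨k, hk⟩ : Pool.Agent.FS.Kl D l))]
        refine sum_congr rfl fun x _ => ?_
        rw [Equiv.coe_mulLeft, Subgroup.coe_mul, mul_assoc, hmul k, hk1, neg_one_mul]
      rw [sum_neg_distrib] at h3
      show ∑ x : Pool.Agent.FS.Kl D l, chiT W (rr ((x : (ZMod D)ˣ) * u)) = 0
      omega
  have h2 := hsq 1
  rw [h1] at h2
  norm_num at h2

theorem tw_ne {m : ℕ} [NeZero m] {W : Finset ℕ} (hW : ∀ l ∈ W, l.Prime ∧ l % 4 = 3 ∧ l ∣ m)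
    (hodd : Odd W.card) : TW m W ((m / ∏ l ∈ W, l : ℕ) : ZMod m) ≠ 0 := by
  classical
  obtain ⟨D, hD⟩ : ∃ D, D = ∏ l ∈ W, l := ⟨_, rfl⟩
  rw [← hD]
  have hDm : D ∣ m := by
    rw [hD]
    exact Finset.prod_primes_dvd m (fun l hl => (hW l hl).1.prime) fun l hl => (hW l hl).2.2
  have hD0 : D ≠ 0 := fun h => NeZero.ne m (Nat.eq_zero_of_zero_dvd (h ▸ hDm))
  have : NeZero D := ⟨hD0⟩
  have hW' : ∀ l ∈ W, l.Prime ∧ l % 4 = 3 := fun l hl => ⟨(hW l hl).1, (hW l hl).2.1⟩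
  have hlD : ∀ l ∈ W, l ∣ D := fun l hl => by
    rw [hD]
    exact dvd_prod_of_mem (fun a => a) hl
  have hbD : ∀ l ∈ W, Pool.Agent.FS.hb l ∣ D := fun l hl => by
    unfold Pool.Agent.FS.hb
    have := (hW l hl).2.1
    rw [if_neg (by omega)]
    exact hlD l hl
  obtain ⟨l₀, hl₀⟩ : W.Nonempty := by
    rw [← card_pos]
    exact hodd.pos
  have hD1 : 1 < D := lt_of_lt_of_le (hW l₀ hl₀).1.one_lt
    (Nat.le_of_dvd (Nat.pos_of_ne_zero hD0) (hlD l₀ hl₀))
  have : Fact (1 < D) := ⟨hD1⟩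
  have hterm : ∀ t : (ZMod m)ˣ, chiT W (rr t) * sw ((t : ZMod m) * ((m / D : ℕ) : ZMod m)) =
      ((m / D : ℕ) : ℤ) * (chiT W (rr (ZMod.unitsMap hDm t)) *
        sw ((ZMod.unitsMap hDm t : (ZMod D)ˣ) : ZMod D)) := by
    intro t
    have h1 : ((m / D : ℕ) : ZMod m) = emb m D 1 := by
      unfold emb
      rw [ZMod.val_one, mul_one]
    have h2 : ((ZMod.unitsMap hDm t : (ZMod D)ˣ) : ZMod D) = (((t : ZMod m).val : ℕ) : ZMod D) := by
      change (ZMod.castHom hDm (ZMod D)) (t : ZMod m) = _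
      rw [ZMod.castHom_apply, ZMod.natCast_val]
    have h3 : chiT W (rr (ZMod.unitsMap hDm t)) = chiT W (rr t) := by
      refine Pool.Agent.FQ.chiT_mod hbD ?_
      rw [← ZMod.natCast_eq_natCast_iff]
      unfold rr
      rw [ZMod.natCast_zmod_val, h2]
    rw [h1, unit_emb hDm, mul_one, sw_emb hDm, h3, h2]
    ring
  unfold TW
  rw [sum_congr rfl fun t _ => hterm t, ← mul_sum]
  have hsurj := ZMod.unitsMap_surjective hDm
  have hfib : ∑ t : (ZMod m)ˣ, (chiT W (rr (ZMod.unitsMap hDm t)) *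
        sw ((ZMod.unitsMap hDm t : (ZMod D)ˣ) : ZMod D)) =
      ((Finset.univ.filter fun t : (ZMod m)ˣ => ZMod.unitsMap hDm t = 1).card : ℤ) *
        ∑ s : (ZMod D)ˣ, chiT W (rr s) * sw (s : ZMod D) := by
    rw [← sum_fiberwise Finset.univ (fun t : (ZMod m)ˣ => ZMod.unitsMap hDm t), mul_sum]
    refine sum_congr rfl fun s _ => ?_
    rw [sum_congr rfl (g := fun _ => chiT W (rr s) * sw (s : ZMod D)) fun t ht => by
      rw [(mem_filter.1 ht).2], sum_const, nsmul_eq_mul]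
    congr 1
    obtain ⟨g, hg⟩ := hsurj s
    have hcard : (Finset.univ.filter fun t : (ZMod m)ˣ => ZMod.unitsMap hDm t = s).card =
        (Finset.univ.filter fun t : (ZMod m)ˣ => ZMod.unitsMap hDm t = 1).card := by
      refine Finset.card_bij' (fun t _ => g⁻¹ * t) (fun t _ => g * t) ?_ ?_ ?_ ?_
      · intro t ht
        rw [mem_filter] at ht ⊢
        refine ⟨Finset.mem_univ _, ?_⟩
        rw [map_mul, map_inv, hg, ht.2, inv_mul_cancel]
      · intro t ht
        rw [mem_filter] at ht ⊢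
        refine ⟨Finset.mem_univ _, ?_⟩
        rw [map_mul, hg, ht.2, mul_one]
      · intro t _
        rw [mul_inv_cancel_left]
      · intro t _
        rw [inv_mul_cancel_left]
    exact_mod_cast hcard
  rw [hfib]
  have h1 : ((m / D : ℕ) : ℤ) ≠ 0 := by
    have : 0 < m / D := Nat.div_pos (Nat.le_of_dvd (Nat.pos_of_ne_zero (NeZero.ne m)) hDm)
      (Nat.pos_of_ne_zero hD0)
    exact_mod_cast this.ne'
  have h2 : ((Finset.univ.filter fun t : (ZMod m)ˣ => ZMod.unitsMap hDm t = 1).card : ℤ) ≠ 0 := by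
    have : 0 < (Finset.univ.filter fun t : (ZMod m)ˣ => ZMod.unitsMap hDm t = 1).card :=
      card_pos.2 ⟨1, mem_filter.2 ⟨Finset.mem_univ _, map_one _⟩⟩
    exact_mod_cast this.ne'
  exact mul_ne_zero h1 (mul_ne_zero h2 (tfn_level hW' hD hodd))

end Pool.Agent.FT
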