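import Pool.Agent.FT.F4b
import Pool.Agent.FT.TFn

/-!
# FT-F4d: the level of a prime power, lemma of Gauss

The sums over the half system of the prime `r` at the level `r ^ α * l ^ β` and at the level `r ^ α`,
and the parity of the number of elements of the half system which leave it under multiplication by a
prime `l` which is not a square modulo `r`.
-/

set_option autoImplicit false

namespace Pool.Agent.FT

open Finset
open Pool.Agent.FS (IsHodge emb sw rr)

private theorem f4d_mem {m r : ℕ} [NeZero m] (a : (ZMod m)ˣ) :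
    a ∈ HR m r ↔ 2 * (rr a % r) < r := by
  unfold HR rr
  rw [mem_filter]
  exact ⟨fun h => h.2, fun h => ⟨mem_univ _, h⟩⟩

/-- the values of the reduction of units -/
private theorem f4d_red {m n : ℕ} [NeZero m] (h : n ∣ m) (t : (ZMod m)ˣ) :
    ((ZMod.unitsMap h t : (ZMod n)ˣ) : ZMod n) = ((rr t : ℕ) : ZMod n) := by
  change (ZMod.castHom h (ZMod n)) (t : ZMod m) = _
  rw [ZMod.castHom_apply, rr, ZMod.natCast_val]

/-- all fibres of the reduction of units have the same number of elements -/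
private theorem f4d_fib {m n : ℕ} [NeZero m] [NeZero n] (h : n ∣ m) (s : (ZMod n)ˣ) :
    Nat.totient n * (Finset.univ.filter fun t : (ZMod m)ˣ => ZMod.unitsMap h t = s).card =
      Nat.totient m := by
  classical
  have h1 : ∀ s' : (ZMod n)ˣ, (Finset.univ.filter fun t : (ZMod m)ˣ => ZMod.unitsMap h t = s').card =
      (Finset.univ.filter fun t : (ZMod m)ˣ => ZMod.unitsMap h t = s).card := by
    intro s'
    obtain ⟨g, hg⟩ := ZMod.unitsMap_surjective h (s * s'⁻¹)
    refine Finset.card_bij' (fun t _ => g * t) (fun t _ => g⁻¹ * t) ?_ ?_ ?_ ?_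
    · intro t ht
      rw [mem_filter] at ht ⊢
      refine ⟨Finset.mem_univ _, ?_⟩
      rw [map_mul, hg, ht.2, inv_mul_cancel_right]
    · intro t ht
      rw [mem_filter] at ht ⊢
      refine ⟨Finset.mem_univ _, ?_⟩
      rw [map_mul, map_inv, hg, ht.2, mul_inv_rev, inv_inv, inv_mul_cancel_right]
    · intro t _
      rw [inv_mul_cancel_left]
    · intro t _
      rw [mul_inv_cancel_left]
  have h2 := card_eq_sum_card_fiberwise (f := fun t : (ZMod m)ˣ => ZMod.unitsMap h t)
    (s := Finset.univ) (t := Finset.univ) (fun t _ => mem_coe.2 (mem_univ _))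
  rw [sum_congr rfl fun s' _ => h1 s', sum_const, smul_eq_mul, card_univ, card_univ,
    ZMod.card_units_eq_totient, ZMod.card_units_eq_totient] at h2
  exact h2.symm

theorem hr_level {m r l α β : ℕ} [NeZero m] [NeZero (r ^ α)] (hr : r.Prime) (hl : l.Prime)
    (hrl : r ≠ l) (hm : m = r ^ α * l ^ β) (hα : α ≠ 0) (z : ZMod (r ^ α)) :
    FA (HR m r) (emb m (r ^ α) z) = l ^ β * (l ^ β).totient * FA (HR (r ^ α) r) z := by
  classical
  have hnm : r ^ α ∣ m := ⟨l ^ β, hm⟩
  have hrn : r ∣ r ^ α := dvd_pow_self r hα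
  have hdiv : m / r ^ α = l ^ β := by
    rw [hm, Nat.mul_div_cancel_left _ (Nat.pos_of_ne_zero (NeZero.ne _))]
  have hcop : (r ^ α).Coprime (l ^ β) :=
    Nat.Coprime.pow _ _ ((Nat.coprime_primes hr hl).2 hrl)
  have hterm : ∀ a : (ZMod m)ˣ, sw ((a : ZMod m) * emb m (r ^ α) z) =
      l ^ β * sw (((ZMod.unitsMap hnm a : (ZMod (r ^ α))ˣ) : ZMod (r ^ α)) * z) := by
    intro a
    rw [unit_emb hnm, sw_emb hnm, hdiv, f4d_red hnm a, Nat.cast_pow]
    rfl
  have hmem : ∀ a : (ZMod m)ˣ, a ∈ HR m r ↔ ZMod.unitsMap hnm a ∈ HR (r ^ α) r := by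
    intro a
    rw [f4d_mem, f4d_mem]
    have h1 : rr (ZMod.unitsMap hnm a) % r = rr a % r := by
      have h2 : rr (ZMod.unitsMap hnm a) ≡ rr a [MOD r ^ α] := by
        rw [← ZMod.natCast_eq_natCast_iff, ← f4d_red hnm a]
        exact ZMod.natCast_zmod_val _
      exact h2.of_dvd hrn
    rw [h1]
  unfold FA
  rw [sum_congr rfl fun a _ => hterm a, ← mul_sum, mul_assoc]
  congr 1
  rw [← sum_fiberwise_of_maps_to (s := HR m r) (t := HR (r ^ α) r)
    (g := fun a => ZMod.unitsMap hnm a) (fun a ha => (hmem a).1 ha), mul_sum]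
  refine sum_congr rfl fun b hb => ?_
  rw [sum_congr rfl (g := fun _ => sw ((b : ZMod (r ^ α)) * z)) fun a ha => by
    rw [(mem_filter.1 ha).2], sum_const, nsmul_eq_mul]
  congr 1
  have h1 : ((HR m r).filter fun a => ZMod.unitsMap hnm a = b) =
      Finset.univ.filter fun a : (ZMod m)ˣ => ZMod.unitsMap hnm a = b := by
    ext a
    rw [mem_filter, mem_filter]
    exact ⟨fun h => ⟨mem_univ _, h.2⟩, fun h => ⟨(hmem a).2 (h.2 ▸ hb), h.2⟩⟩
  rw [h1]
  have h2 := f4d_fib hnm b
  have h3 : m.totient = (r ^ α).totient * (l ^ β).totient := by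
    rw [hm, Nat.totient_mul hcop]
  rw [h3] at h2
  have h4 := Nat.eq_of_mul_eq_mul_left
    (Nat.totient_pos.2 (Nat.pos_of_ne_zero (NeZero.ne (r ^ α)))) h2
  exact_mod_cast h4

theorem gauss_flip {r α : ℕ} [NeZero (r ^ α)] (hr : r.Prime) (hr2 : r ≠ 2) (hα : α ≠ 0) {l : ℕ}
    (hj : jacobiSym l r = -1) (g : (ZMod (r ^ α))ˣ) (hg : (g : ZMod (r ^ α)) = l) :
    Odd ((HR (r ^ α) r).filter fun b => g * b ∉ HR (r ^ α) r).card := by
  classical
  have hF : Fact r.Prime := ⟨hr⟩
  have hN : NeZero r := ⟨hr.ne_zero⟩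
  have hrn : r ∣ r ^ α := dvd_pow_self r hα
  have hr1 : r % 2 = 1 := hr.eq_two_or_odd.resolve_left hr2
  have hl0 : ((l : ℤ) : ZMod r) ≠ 0 := by
    intro h
    have h1 : legendreSym r l = 0 := (legendreSym.eq_zero_iff r l).2 h
    rw [jacobiSym.legendreSym.to_jacobiSym, hj] at h1
    norm_num at h1
  obtain ⟨S, hS⟩ : ∃ S : Finset ℕ, S = (Ico 1 (r / 2).succ).filter
    fun x : ℕ => r / 2 < (((l : ℤ) : ZMod r) * (x : ZMod r)).val := ⟨_, rfl⟩
  have h1 : Odd S.card := by
    have h2 := ZMod.gauss_lemma hr2 hl0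
    rw [jacobiSym.legendreSym.to_jacobiSym, hj] at h2
    by_contra h3
    rw [Nat.not_odd_iff_even] at h3
    have h4 : (Finset.card ((Ico 1 (r / 2).succ).filter
        fun x : ℕ => r / 2 < (((l : ℤ) : ZMod r) * (x : ZMod r)).val)) = S.card := by rw [hS]
    rw [h4, h3.neg_one_pow] at h2
    norm_num at h2
  -- the residues of the products
  have hres : ∀ b : (ZMod (r ^ α))ˣ, rr (g * b) % r =
      (((l : ℤ) : ZMod r) * ((rr b % r : ℕ) : ZMod r)).val := by
    intro b
    have h2 : rr (g * b) ≡ l * (rr b % r) [MOD r] := by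
      have h3 : rr g ≡ l [MOD r ^ α] := by
        rw [← ZMod.natCast_eq_natCast_iff, ← hg]
        exact ZMod.natCast_zmod_val _
      exact ((FS.rr_mul g b).of_dvd hrn).trans
        ((h3.of_dvd hrn).mul (Nat.mod_modEq _ _).symm)
    have h3 : (((l : ℤ) : ZMod r) * ((rr b % r : ℕ) : ZMod r)) = ((l * (rr b % r) : ℕ) : ZMod r) := by
      push_cast
      rfl
    rw [h3, ZMod.val_natCast]
    exact h2
  have hpos : ∀ b : (ZMod (r ^ α))ˣ, rr b % r ≠ 0 := by
    intro b h
    have h3 : (rr b).Coprime r := Nat.Coprime.coprime_dvd_right hrn (FS.rr_coprime b)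
    have h6 := Nat.dvd_gcd (Nat.dvd_of_mod_eq_zero h) (dvd_refl r)
    rw [h3] at h6
    exact hr.one_lt.ne' (Nat.dvd_one.1 h6)
  have hmaps : ∀ b ∈ (HR (r ^ α) r).filter fun b => g * b ∉ HR (r ^ α) r, rr b % r ∈ S := by
    intro b hb
    rw [mem_filter, f4d_mem, f4d_mem, hres] at hb
    rw [hS, mem_filter, mem_Ico]
    have h2 := hpos b
    omega
  have h2 := card_eq_sum_card_fiberwise (f := fun b : (ZMod (r ^ α))ˣ => rr b % r)
    (s := (HR (r ^ α) r).filter fun b => g * b ∉ HR (r ^ α) r) (t := S)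
    (fun b hb => hmaps b hb)
  have h3 : ∀ x ∈ S, (((HR (r ^ α) r).filter fun b => g * b ∉ HR (r ^ α) r).filter
      fun b => rr b % r = x).card = r ^ (α - 1) := by
    intro x hx
    rw [hS, mem_filter, mem_Ico] at hx
    have hxr : x < r := by omega
    have hxc : x.Coprime r := by
      refine ((Nat.Prime.coprime_iff_not_dvd hr).2 fun h => ?_).symm
      have := Nat.le_of_dvd (by omega) h
      omega
    have h4 : (((HR (r ^ α) r).filter fun b => g * b ∉ HR (r ^ α) r).filter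
        fun b => rr b % r = x) =
        Finset.univ.filter fun t : (ZMod (r ^ α))ˣ => ZMod.unitsMap hrn t = ZMod.unitOfCoprime x hxc := by
      ext b
      have h5 : ZMod.unitsMap hrn b = ZMod.unitOfCoprime x hxc ↔ rr b % r = x := by
        rw [← Units.val_inj, f4d_red hrn b, ZMod.coe_unitOfCoprime, ZMod.natCast_eq_natCast_iff]
        unfold Nat.ModEq
        rw [Nat.mod_eq_of_lt hxr]
      rw [mem_filter, mem_filter, mem_filter, f4d_mem, f4d_mem, hres, h5]
      constructor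
      · rintro ⟨-, h6⟩
        exact ⟨mem_univ _, h6⟩
      · rintro ⟨-, h6⟩
        rw [h6]
        refine ⟨⟨?_, ?_⟩, rfl⟩ <;> omega
    rw [h4]
    have h5 := f4d_fib hrn (ZMod.unitOfCoprime x hxc)
    rw [Nat.totient_prime hr, Nat.totient_prime_pow hr (Nat.pos_of_ne_zero hα), mul_comm] at h5
    exact Nat.eq_of_mul_eq_mul_right (Nat.sub_pos_of_lt hr.one_lt) h5
  rw [h2, sum_congr rfl h3, sum_const, smul_eq_mul]
  exact h1.mul ((Nat.odd_iff.2 hr1).pow)

end Pool.Agent.FT
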