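import Pool.Agent.FT.Base

/-!
# FT-NV: number of elements of odd order with given prime factors
-/

set_option autoImplicit false

namespace Pool.Agent.FT

open Classical in
/-- the number of elements of `S` of odd order with the set `V` of prime factors -/
noncomputable def nV {m : ℕ} (S : Multiset (ZMod m)) (V : Finset ℕ) : ℕ :=
  (S.filter fun x => Odd (addOrderOf x) ∧ (addOrderOf x).primeFactors = V).card

end Pool.Agent.FT
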