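import Pool.Agent.FT.F4c
import Pool.Agent.FT.F4d
import Pool.Agent.FT.NV

/-!
# FT-F4e: parity for odd levels with two prime factors

`hr_rl`: the sum over the half system of `r` is `2` modulo `4` at the elements whose order is divisible
by both prime factors. `nV_four_odd`: the number of these elements in a Tate character is even.
-/

set_option autoImplicit false

namespace Pool.Agent.FT

open Finset
open Pool.Agent.FS (IsHodge emb sw rr)

private theorem f4e_odd_mul {a b c : ℤ} (ha : Odd a) (h : a * b = 4 * c + 2) :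
    ∃ d : ℤ, b = 4 * d + 2 := by
  obtain ⟨k, hk⟩ := ha
  have hb : ¬ Odd b := by
    intro hb
    obtain ⟨j, hj⟩ := hb
    rw [hk, hj] at h
    have : 2 * (2 * k * j + k + j - 2 * c - 1) + 1 = 0 := by linear_combination h
    omega
  rw [Int.not_odd_iff_even] at hb
  obtain ⟨j, hj⟩ := hb
  have h2 : Odd j := by
    by_contra hj2
    rw [Int.not_odd_iff_even] at hj2
    obtain ⟨i, hi⟩ := hj2
    rw [hk, hj, hi] at h
    have : 2 * (4 * k * i + 2 * i - 2 * c) = 2 := by linear_combination h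
    have h3 : 2 * (2 * k * i + i - c) = 1 := by linarith
    omega
  obtain ⟨i, hi⟩ := h2
  exact ⟨i, by rw [hj, hi]; ring⟩

private theorem f4e_mul_odd {a b c : ℤ} (ha : Odd a) (h : b = 4 * c + 2) :
    ∃ d : ℤ, a * b = 4 * d + 2 := by
  obtain ⟨k, hk⟩ := ha
  exact ⟨2 * k * c + k + c, by rw [hk, h]; ring⟩

/-- the half system of a prime and its image under `l` -/
private theorem f4e_flip {r α l : ℕ} [NeZero (r ^ α)] (hr : r.Prime) (hr2 : r ≠ 2) (hα : α ≠ 0)
    (hl : (r ^ α).Coprime l) (hj : jacobiSym l r = -1) {z : ZMod (r ^ α)} (hz : z ≠ 0) :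
    ∃ c : ℤ, FA (HR (r ^ α) r) ((l : ZMod (r ^ α)) * z) - FA (HR (r ^ α) r) z = 4 * c + 2 := by
  obtain ⟨g, hg⟩ : ∃ g : (ZMod (r ^ α))ˣ, (g : ZMod (r ^ α)) = l :=
    ⟨ZMod.unitOfCoprime l hl.symm, ZMod.coe_unitOfCoprime l hl.symm⟩
  have hodd := gauss_flip hr hr2 hα hj g hg
  have hH : HSys (HR (r ^ α) r) := hr_hsys hr hr2 (dvd_pow_self r hα)
  have hH2 : HSys ((HR (r ^ α) r).image fun b => g * b) := by
    intro u
    have h1 : ∀ v : (ZMod (r ^ α))ˣ, v ∈ ((HR (r ^ α) r).image fun b => g * b) ↔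
        g⁻¹ * v ∈ HR (r ^ α) r := by
      intro v
      rw [mem_image]
      constructor
      · rintro ⟨b, hb, rfl⟩
        rwa [inv_mul_cancel_left]
      · intro hv
        exact ⟨g⁻¹ * v, hv, mul_inv_cancel_left g v⟩
    rw [h1, h1, mul_neg]
    exact hH _
  have hm : Odd (r ^ α) := (hr.odd_of_ne_two hr2).pow
  have h2 := fa_flip hm hH2 hH hz
  have h3 : FA ((HR (r ^ α) r).image fun b => g * b) z =
      FA (HR (r ^ α) r) ((l : ZMod (r ^ α)) * z) := by
    unfold FA
    rw [sum_image fun a _ b _ hab => mul_left_cancel hab]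
    refine sum_congr rfl fun a _ => ?_
    rw [Units.val_mul, hg]
    congr 1
    ring
  have h4 : (((HR (r ^ α) r).image fun b => g * b) \ HR (r ^ α) r).card =
      ((HR (r ^ α) r).filter fun b => g * b ∉ HR (r ^ α) r).card := by
    have h5 : ((HR (r ^ α) r).image fun b => g * b) \ HR (r ^ α) r =
        ((HR (r ^ α) r).filter fun b => g * b ∉ HR (r ^ α) r).image fun b => g * b := by
      ext u
      rw [mem_sdiff, mem_image, mem_image]
      constructor
      · rintro ⟨⟨b, hb, rfl⟩, h6⟩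
        exact ⟨b, mem_filter.2 ⟨hb, h6⟩, rfl⟩
      · rintro ⟨b, hb, rfl⟩
        exact ⟨⟨b, (mem_filter.1 hb).1, rfl⟩, (mem_filter.1 hb).2⟩
    rw [h5, card_image_of_injective _ (mul_right_injective g)]
  rw [h3, h4] at h2
  obtain ⟨k, hk⟩ := hodd
  rw [hk] at h2
  obtain ⟨c, hc⟩ := h2
  refine ⟨c + k, ?_⟩
  push_cast at hc
  linear_combination hc

theorem hr_rl {m r l : ℕ} [NeZero m] (hm : Odd m) (hr : r.Prime) (hl : l.Prime) (hrl : r ≠ l)
    (hpf : m.primeFactors = {r, l}) (hj : jacobiSym l r = -1) {x : ZMod m}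
    (hrx : r ∣ addOrderOf x) (hlx : l ∣ addOrderOf x) : ∃ c : ℤ, FA (HR m r) x = 4 * c + 2 := by
  have hrm : r ∣ m := hrx.trans (order_dvd x)
  have hlm : l ∣ m := hlx.trans (order_dvd x)
  have hr2 : r ≠ 2 := by
    rintro rfl
    exact (Nat.not_even_iff_odd.2 hm) (even_iff_two_dvd.2 hrm)
  have hlo : Odd l := hm.of_dvd_nat hlm
  have hlZ : Odd (l : ℤ) := by exact_mod_cast hlo
  generalize hn : addOrderOf x = n at hrx hlx
  induction n using Nat.strong_induction_on generalizing x with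
  | _ n ih =>
    have hn0 : n ≠ 0 := by
      rw [← hn]
      intro h0
      have h1 := order_dvd x
      rw [h0] at h1
      exact NeZero.ne m (Nat.eq_zero_of_zero_dvd h1)
    by_cases hx2 : l ^ 2 ∣ n
    · have h1 := hr_sq hr hl hrl hrm (x := x) (hn ▸ hx2)
      have h2 : addOrderOf ((l : ZMod m) * x) = n / l := by
        rw [← nsmul_eq_mul, addOrderOf_nsmul_of_dvd hl.ne_zero (hn ▸ hlx), hn]
      obtain ⟨k, hk⟩ := hx2
      have h3 : n / l = l * k := by
        rw [hk, pow_two, mul_assoc, Nat.mul_div_cancel_left _ hl.pos]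
      have hk0 : 0 < k := Nat.pos_of_ne_zero (by rintro rfl; exact hn0 (by rw [hk, mul_zero]))
      have h4 : r ∣ l * k := by
        have h5 : r ∣ l * (l * k) := by rw [← mul_assoc, ← pow_two, ← hk]; exact hrx
        exact (Nat.Coprime.dvd_of_dvd_mul_left ((Nat.coprime_primes hr hl).2 hrl) h5)
      obtain ⟨c, hc⟩ := ih (l * k) (by
        rw [hk, pow_two, mul_assoc]
        exact lt_mul_of_one_lt_left (Nat.mul_pos hl.pos hk0) hl.one_lt) (h2.trans h3) h4
        (dvd_mul_right l k)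
      rw [hc] at h1
      exact f4e_odd_mul hlZ h1.symm
    · obtain ⟨z₀, hz₀, h1⟩ := hr_one hr hl hrl hrm (x := x) (hn ▸ hlx) (hn ▸ hx2)
      rw [hn] at hz₀
      have hlz : ¬ l ∣ addOrderOf z₀ := by
        rintro ⟨k, hk⟩
        exact hx2 ⟨k, by rw [hz₀, hk]; ring⟩
      have hrz : r ∣ addOrderOf z₀ := by
        rw [hz₀] at hrx
        exact Nat.Coprime.dvd_of_dvd_mul_left ((Nat.coprime_primes hr hl).2 hrl) hrx
      have hm2 : m = r ^ m.factorization r * l ^ m.factorization l := by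
        have h2 := Nat.prod_factorization_pow_eq_self (NeZero.ne m)
        rw [Finsupp.prod, Nat.support_factorization, hpf, prod_pair hrl] at h2
        exact h2.symm
      obtain ⟨α, hα⟩ : ∃ α, α = m.factorization r := ⟨_, rfl⟩
      obtain ⟨β, hβ⟩ : ∃ β, β = m.factorization l := ⟨_, rfl⟩
      rw [← hα, ← hβ] at hm2
      have hα0 : α ≠ 0 := by
        rw [hα]
        exact (hr.factorization_pos_of_dvd (NeZero.ne m) hrm).ne'
      have hβ0 : β ≠ 0 := by
        rw [hβ]
        exact (hl.factorization_pos_of_dvd (NeZero.ne m) hlm).ne'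
      have : NeZero (r ^ α) := ⟨pow_ne_zero _ hr.ne_zero⟩
      have hd : r ^ α ∣ m := ⟨l ^ β, hm2⟩
      have hz1 : addOrderOf z₀ ∣ r ^ α := by
        exact Nat.Coprime.dvd_of_dvd_mul_right
          (Nat.Coprime.pow_right _ (((Nat.Prime.coprime_iff_not_dvd hl).2 hlz).symm))
          ((order_dvd z₀).trans (dvd_of_eq hm2))
      have hz2 : ((r ^ α : ℕ) : ZMod m) * z₀ = 0 := by
        rw [← nsmul_eq_mul]
        exact addOrderOf_dvd_iff_nsmul_eq_zero.1 hz1
      obtain ⟨z, hz⟩ := exists_emb hd hz2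
      have hzne : z ≠ 0 := by
        rintro rfl
        rw [emb_zero hd] at hz
        rw [← hz, addOrderOf_zero] at hrz
        exact hr.one_lt.ne' (Nat.dvd_one.1 hrz)
      obtain ⟨c, hc⟩ := f4e_flip hr hr2 hα0
        (Nat.Coprime.pow_left _ ((Nat.coprime_primes hr hl).2 hrl)) hj hzne
      rw [← hz, ← emb_mul hd, hr_level hr hl hrl hm2 hα0, hr_level hr hl hrl hm2 hα0,
        Nat.totient_prime_pow hl (Nat.pos_of_ne_zero hβ0)] at h1
      have h5 : ((l : ℤ) - 1) * FA (HR m r) x =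
          ((l : ℤ) - 1) * ((l : ℤ) ^ β * (l : ℤ) ^ (β - 1) * (4 * c + 2)) := by
        rw [h1, ← hc]
        push_cast [Nat.cast_sub hl.one_lt.le]
        ring
      have h6 : (l : ℤ) - 1 ≠ 0 := by
        have := hl.one_lt
        omega
      have h7 := mul_left_cancel₀ h6 h5
      rw [h7]
      exact f4e_mul_odd (hlZ.pow.mul hlZ.pow) rfl

/-- counting modulo four -/
private theorem f4e_count {m : ℕ} [NeZero m] (A B : Finset (ZMod m)ˣ) (c : ℤ) (V : Finset ℕ)
    (S : Multiset (ZMod m)) (h1 : ∀ x ∈ S, (4 : ℤ) ∣ FA A x - FA B x - 2 * c)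
    (h2 : ∀ x ∈ S, Odd (addOrderOf x) → (addOrderOf x).primeFactors = V →
      ∃ d : ℤ, FA B x = 4 * d + 2)
    (h3 : ∀ x ∈ S, ¬ (Odd (addOrderOf x) ∧ (addOrderOf x).primeFactors = V) →
      (4 : ℤ) ∣ FA B x) :
    (4 : ℤ) ∣ (S.map (FA A)).sum - 2 * c * S.card - 2 * nV S V := by
  induction S using Multiset.induction_on with
  | empty => simp [nV]
  | cons x S ih =>
    have ih' := ih (fun y hy => h1 y (Multiset.mem_cons_of_mem hy))
      (fun y hy => h2 y (Multiset.mem_cons_of_mem hy))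
      (fun y hy => h3 y (Multiset.mem_cons_of_mem hy))
    obtain ⟨a, ha⟩ := ih'
    obtain ⟨b, hb⟩ := h1 x (Multiset.mem_cons_self x S)
    rw [Multiset.map_cons, Multiset.sum_cons, Multiset.card_cons]
    by_cases hx : Odd (addOrderOf x) ∧ (addOrderOf x).primeFactors = V
    · obtain ⟨d, hd⟩ := h2 x (Multiset.mem_cons_self x S) hx.1 hx.2
      have h4 : nV (x ::ₘ S) V = nV S V + 1 := by
        classical
        unfold nV
        rw [Multiset.filter_cons_of_pos
          (p := fun x => Odd (addOrderOf x) ∧ (addOrderOf x).primeFactors = V) S hx,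
          Multiset.card_cons]
      rw [h4]
      refine ⟨a + b + d, ?_⟩
      push_cast
      linear_combination ha + hb + hd
    · obtain ⟨d, hd⟩ := h3 x (Multiset.mem_cons_self x S) hx
      have h4 : nV (x ::ₘ S) V = nV S V := by
        classical
        unfold nV
        rw [Multiset.filter_cons_of_neg
          (p := fun x => Odd (addOrderOf x) ∧ (addOrderOf x).primeFactors = V) S hx]
      rw [h4]
      refine ⟨a + b + d, ?_⟩
      push_cast
      linear_combination ha + hb + hd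

theorem nV_four_odd {m p r l : ℕ} [NeZero m] (hmp : m.Coprime p) (hm : Odd m) (hr : r.Prime)
    (hl : l.Prime) (hrl : r ≠ l) (hpf : m.primeFactors = {r, l}) (hr4 : r % 4 = 1)
    (hj : jacobiSym l r = -1) (hneg : ∀ i : ℕ, ¬ r * l ∣ p ^ i + 1) {S : Multiset (ZMod m)}
    (h0 : (0 : ZMod m) ∉ S) (hc : Even S.card) (hT : TateN p S) : Even (nV S {r, l}) := by
  have hrm : r ∣ m := Nat.dvd_of_mem_primeFactors (by rw [hpf]; simp)
  have hlm : l ∣ m := Nat.dvd_of_mem_primeFactors (by rw [hpf]; simp)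
  have hr2 : r ≠ 2 := by
    rintro rfl
    omega
  have hrlm : r * l ∣ m := Nat.Coprime.mul_dvd_of_dvd_of_dvd
    ((Nat.coprime_primes hr hl).2 hrl) hrm hlm
  obtain ⟨g, hg⟩ : ∃ g : (ZMod m)ˣ, (g : ZMod m) = p :=
    ⟨ZMod.unitOfCoprime p hmp.symm, ZMod.coe_unitOfCoprime p hmp.symm⟩
  have hg1 : ∀ i : ℕ, g ^ i ≠ -1 := by
    intro i hi
    have h1 := congrArg (fun u : (ZMod m)ˣ => (u : ZMod m)) hi
    simp only [Units.val_pow_eq_pow_val, Units.val_neg, Units.val_one, hg] at h1
    have h2 : ((p ^ i + 1 : ℕ) : ZMod m) = 0 := by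
      push_cast
      rw [h1]
      ring
    rw [ZMod.natCast_eq_zero_iff] at h2
    exact hneg i (hrlm.trans h2)
  obtain ⟨A, hA, hgA⟩ := exists_hsys g hg1
  have h1 := fa_tate hg hgA h0 hT
  have hH : HSys (HR m r) := hr_hsys hr hr2 hrm
  have h2 := f4e_count A (HR m r) ((A \ HR m r).card : ℤ) {r, l} S
    (fun x hx => fa_flip hm hA hH (fun h => h0 (h ▸ hx)))
    (fun x _ _ hx => by
      refine hr_rl hm hr hl hrl hpf hj ?_ ?_
      · exact Nat.dvd_of_mem_primeFactors (by rw [hx]; simp)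
      · exact Nat.dvd_of_mem_primeFactors (by rw [hx]; simp))
    (fun x hxS hx => by
      have hx0 : x ≠ 0 := fun h => h0 (h ▸ hxS)
      by_cases hrx : r ∣ addOrderOf x
      · by_cases hlx : l ∣ addOrderOf x
        · exfalso
          refine hx ⟨hm.of_dvd_nat (order_dvd x), ?_⟩
          have h3 : addOrderOf x ≠ 0 := by
            intro h4
            have h5 := order_dvd x
            rw [h4] at h5
            exact NeZero.ne m (Nat.eq_zero_of_zero_dvd h5)
          apply Finset.Subset.antisymm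
          · rw [← hpf]
            exact Nat.primeFactors_mono (order_dvd x) (NeZero.ne m)
          · intro q hq
            rw [mem_insert, mem_singleton] at hq
            rcases hq with rfl | rfl
            · exact Nat.mem_primeFactors.2 ⟨hr, hrx, h3⟩
            · exact Nat.mem_primeFactors.2 ⟨hl, hlx, h3⟩
        · exact hr_r hm hr hl hrl hpf hr4 hx0 hlx
      · rw [hr_l hr hrm hrx]
        exact dvd_zero _)
  rw [h1] at h2
  obtain ⟨k, hk⟩ := hc
  rw [hk] at h2
  obtain ⟨j, hj⟩ := h2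
  have h5 : Even ((nV S {r, l} : ℕ) : ℤ) := by
    refine ⟨-(((A \ HR m r).card : ℤ) * k) - j, ?_⟩
    push_cast at hj
    linarith
  exact_mod_cast h5

end Pool.Agent.FT
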