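import Pool.Agent.FT.F4e

/-!
# FT-F4f: parity for levels not divisible by four with two odd prime factors

The level `2 * n`, `n` odd, is reduced to the level `n`: an element `x` of even residue gives the element
`x / 2` of `ZMod n`, an element of odd residue, different from `n`, gives the two elements `x` and `-x / 2`
of `ZMod n`, and `n` gives nothing. By the distribution relation for `2` the sums of the sawtooth function
over the new multiset are half the sums over the old one.
-/

set_option autoImplicit false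

namespace Pool.Agent.FT

open Finset
open Pool.Agent.FS (IsHodge emb sw rr)

/-- reduction modulo `n` -/
private def f4fc (n : ℕ) : ZMod (2 * n) →+* ZMod n := ZMod.castHom (Dvd.intro_left 2 rfl) (ZMod n)

/-- reduction modulo `2` -/
private def f4fe (n : ℕ) : ZMod (2 * n) →+* ZMod 2 := ZMod.castHom (Dvd.intro n rfl) (ZMod 2)

/-- one half -/
private def f4fh (n : ℕ) : ZMod n := (((n + 1) / 2 : ℕ) : ZMod n)

private theorem f4f_two_h {n : ℕ} (hn : Odd n) : (2 : ZMod n) * f4fh n = 1 := by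
  unfold f4fh
  have h1 : 2 * ((n + 1) / 2) = n + 1 := by
    obtain ⟨k, rfl⟩ := hn
    omega
  have h2 : ((2 * ((n + 1) / 2) : ℕ) : ZMod n) = ((n + 1 : ℕ) : ZMod n) := by rw [h1]
  push_cast at h2
  rw [ZMod.natCast_self, zero_add] at h2
  exact h2

private theorem f4f_h_mul {n : ℕ} (hn : Odd n) {a b : ZMod n} (h : a = 2 * b) :
    f4fh n * a = b := by
  rw [h, ← mul_assoc, mul_comm (f4fh n) 2, f4f_two_h hn, one_mul]

private theorem f4f_c {n : ℕ} [NeZero (2 * n)] (x : ZMod (2 * n)) :
    f4fc n x = ((x.val : ℕ) : ZMod n) := by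
  conv_lhs => rw [← ZMod.natCast_zmod_val x]
  rw [map_natCast]

private theorem f4f_e {n : ℕ} [NeZero (2 * n)] (x : ZMod (2 * n)) :
    f4fe n x = ((x.val : ℕ) : ZMod 2) := by
  conv_lhs => rw [← ZMod.natCast_zmod_val x]
  rw [map_natCast]

private theorem f4f_e_zero {n : ℕ} [NeZero (2 * n)] (x : ZMod (2 * n)) :
    f4fe n x = 0 ↔ 2 ∣ x.val := by
  rw [f4f_e, ZMod.natCast_eq_zero_iff]

private theorem f4f_sw_nat {n : ℕ} [NeZero n] {k : ℕ} (hk : k < n) (h0 : k ≠ 0) :
    sw ((k : ℕ) : ZMod n) = 2 * (k : ℤ) - n := by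
  have h1 : ((k : ℕ) : ZMod n) ≠ 0 := by
    rw [Ne, ZMod.natCast_eq_zero_iff]
    intro h
    exact absurd (Nat.le_of_dvd (Nat.pos_of_ne_zero h0) h) (by omega)
  rw [FS.Quot.sw_of_ne h1, ZMod.val_natCast_of_lt hk]

private theorem f4f_sw_val {n : ℕ} [NeZero n] (x : ZMod n) (h0 : x.val ≠ 0) :
    sw x = 2 * (x.val : ℤ) - n := by
  rw [FS.Quot.sw_of_ne]
  intro h
  rw [h, ZMod.val_zero] at h0
  exact h0 rfl

/-- elements with even residue -/
private theorem f4f_even {n : ℕ} [NeZero n] [NeZero (2 * n)] (hn : Odd n) (x : ZMod (2 * n))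
    (hx : f4fe n x = 0) : sw x = 2 * sw (f4fh n * f4fc n x) := by
  obtain ⟨k, hk⟩ := (f4f_e_zero x).1 hx
  have hlt := ZMod.val_lt x
  have h1 : f4fh n * f4fc n x = ((k : ℕ) : ZMod n) := by
    apply f4f_h_mul hn
    rw [f4f_c, hk]
    push_cast
    rfl
  rw [h1]
  by_cases h0 : k = 0
  · have h2 : x = 0 := by
      rw [← ZMod.val_eq_zero, hk, h0]
    rw [h2, h0, Nat.cast_zero, FS.Quot.sw_zero, FS.Quot.sw_zero, mul_zero]
  · rw [f4f_sw_nat (by omega) h0, f4f_sw_val x (by omega), hk]
    push_cast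
    ring

/-- elements with odd residue -/
private theorem f4f_odd {n : ℕ} [NeZero n] [NeZero (2 * n)] (hn : Odd n) (x : ZMod (2 * n))
    (hx : f4fe n x ≠ 0) : sw x = 2 * sw (f4fc n x) - 2 * sw (f4fh n * f4fc n x) := by
  have h2 : ¬ 2 ∣ x.val := fun h => hx ((f4f_e_zero x).2 h)
  have hlt := ZMod.val_lt x
  obtain ⟨q, hq⟩ := hn
  rw [f4f_sw_val x (by omega)]
  rcases lt_trichotomy x.val n with h3 | h3 | h3
  · have h1 : f4fh n * f4fc n x = (((x.val + n) / 2 : ℕ) : ZMod n) := by
      apply f4f_h_mul ⟨q, hq⟩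
      rw [f4f_c]
      have h4 : ((2 * ((x.val + n) / 2) : ℕ) : ZMod n) = ((x.val + n : ℕ) : ZMod n) := by
        congr 1
        omega
      push_cast at h4
      rw [ZMod.natCast_self, add_zero] at h4
      push_cast
      exact h4.symm
    rw [h1, f4f_c, f4f_sw_nat h3 (by omega), f4f_sw_nat (by omega) (by omega)]
    have h5 : (((x.val + n) / 2 : ℕ) : ℤ) * 2 = x.val + n := by
      have : (x.val + n) / 2 * 2 = x.val + n := by omega
      exact_mod_cast this
    push_cast at h5 ⊢
    linarith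
  · rw [f4f_c, h3, ZMod.natCast_self, mul_zero, FS.Quot.sw_zero]
    push_cast
    ring
  · have h6 : ((x.val : ℕ) : ZMod n) = ((x.val - n : ℕ) : ZMod n) := by
      rw [Nat.cast_sub h3.le, ZMod.natCast_self, sub_zero]
    have h1 : f4fh n * f4fc n x = (((x.val - n) / 2 : ℕ) : ZMod n) := by
      apply f4f_h_mul ⟨q, hq⟩
      rw [f4f_c, h6]
      have h4 : ((2 * ((x.val - n) / 2) : ℕ) : ZMod n) = ((x.val - n : ℕ) : ZMod n) := by
        congr 1
        omega
      rw [← h4]
      push_cast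
      rfl
    rw [h1, f4f_c, h6, f4f_sw_nat (by omega) (by omega), f4f_sw_nat (by omega) (by omega)]
    obtain ⟨j, hj⟩ : ∃ j, x.val = n + 2 * j := ⟨(x.val - n) / 2, by omega⟩
    have h5 : (x.val - n) / 2 = j := by omega
    have h7 : x.val - n = 2 * j := by omega
    rw [h5, h7, hj]
    push_cast
    ring

open Classical in
/-- the elements of `ZMod n` which belong to `x` -/
private noncomputable def f4fG (n : ℕ) (x : ZMod (2 * n)) : Multiset (ZMod n) :=
  if f4fe n x = 0 then {f4fh n * f4fc n x}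
  else if f4fc n x = 0 then 0 else {f4fc n x, -(f4fh n * f4fc n x)}

private theorem f4f_e_unit {n : ℕ} (u : (ZMod (2 * n))ˣ) : f4fe n (u : ZMod (2 * n)) = 1 := by
  have h1 : IsUnit (f4fe n (u : ZMod (2 * n))) := u.isUnit.map _
  generalize f4fe n (u : ZMod (2 * n)) = y at h1
  revert h1
  revert y
  decide

private theorem f4f_G_sw {n : ℕ} [NeZero n] [NeZero (2 * n)] (hn : Odd n) (u : (ZMod (2 * n))ˣ)
    (x : ZMod (2 * n)) : sw ((u : ZMod (2 * n)) * x) =
      2 * ((f4fG n x).map fun y => sw (f4fc n u * y)).sum := by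
  have h1 : f4fe n ((u : ZMod (2 * n)) * x) = f4fe n x := by
    rw [map_mul, f4f_e_unit, one_mul]
  unfold f4fG
  by_cases hx : f4fe n x = 0
  · rw [if_pos hx, Multiset.map_singleton, Multiset.sum_singleton,
      f4f_even hn _ (h1.trans hx), map_mul]
    congr 2
    ring
  · rw [if_neg hx, f4f_odd hn _ (by rw [h1]; exact hx), map_mul]
    by_cases h0 : f4fc n x = 0
    · rw [if_pos h0, h0]
      simp [FS.Quot.sw_zero]
    · rw [if_neg h0]
      simp only [Multiset.insert_eq_cons, Multiset.map_cons, Multiset.map_singleton,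
        Multiset.sum_cons, Multiset.sum_singleton]
      have h2 : f4fc n (u : ZMod (2 * n)) * -(f4fh n * f4fc n x) =
          -(f4fh n * (f4fc n u * f4fc n x)) := by ring
      rw [h2, FS.Quot.sw_neg]
      ring

/-- the sums of the sawtooth function -/
private theorem f4f_sum {m p f : ℕ} [NeZero m] (u : (ZMod m)ˣ) (hu : (u : ZMod m) = p)
    {S : Multiset (ZMod m)} (h0 : (0 : ZMod m) ∉ S) (t : (ZMod m)ˣ) :
    (S.map fun x => ∑ i ∈ range f, sw ((t : ZMod m) * ((p : ZMod m) ^ i * x))).sum =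
      2 * ((S.map fun x => ∑ i ∈ range f, ((p : ZMod m) ^ i * ((t : ZMod m) * x)).val).sum : ℕ) -
        m * f * S.card := by
  have h1 : (S.map fun x => ∑ i ∈ range f, sw ((t : ZMod m) * ((p : ZMod m) ^ i * x))) =
      S.map fun x =>
        2 * ((∑ i ∈ range f, ((p : ZMod m) ^ i * ((t : ZMod m) * x)).val : ℕ) : ℤ) - m * f := by
    refine Multiset.map_congr rfl fun x hx => ?_
    have hx0 : x ≠ 0 := fun h => h0 (h ▸ hx)
    have h2 : ∀ i, sw ((t : ZMod m) * ((p : ZMod m) ^ i * x)) =
        2 * (((p : ZMod m) ^ i * ((t : ZMod m) * x)).val : ℤ) - m := by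
      intro i
      rw [mul_left_comm]
      refine FS.Quot.sw_of_ne ?_
      rw [← hu, ← Units.val_pow_eq_pow_val]
      intro h3
      exact hx0 ((t.isUnit.mul_right_eq_zero).1 (((u ^ i).isUnit.mul_right_eq_zero).1 h3))
    rw [sum_congr rfl fun i _ => h2 i, sum_sub_distrib, ← mul_sum, sum_const, card_range]
    push_cast
    ring
  rw [h1]
  rw [Multiset.sum_map_sub, Multiset.sum_map_mul_left, Multiset.map_const',
    Multiset.sum_replicate, Nat.cast_multiset_sum, Multiset.map_map, nsmul_eq_mul]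
  simp only [Function.comp_def]
  ring

private theorem f4f_comm {α : Type*} (s : Finset ℕ) (S : Multiset α) (F : α → ℕ → ℤ) :
    (S.map fun x => ∑ i ∈ s, F x i).sum = ∑ i ∈ s, (S.map fun x => F x i).sum :=
  Multiset.sum_map_sum_map S s.val

private theorem f4f_G_ne {n : ℕ} [NeZero (2 * n)] (hn : Odd n) {x : ZMod (2 * n)} (hx : x ≠ 0) :
    (0 : ZMod n) ∉ f4fG n x := by
  have hu : ∀ y : ZMod n, f4fh n * y = 0 → y = 0 := by
    intro y hy
    calc y = 2 * f4fh n * y := by rw [f4f_two_h hn, one_mul]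
      _ = 0 := by rw [mul_assoc, hy, mul_zero]
  unfold f4fG
  by_cases h1 : f4fe n x = 0
  · rw [if_pos h1, Multiset.mem_singleton]
    intro h2
    have h3 := hu _ h2.symm
    rw [f4f_c, ZMod.natCast_eq_zero_iff] at h3
    have h4 := (f4f_e_zero x).1 h1
    have h5 : 2 * n ∣ x.val := by
      refine Nat.Coprime.mul_dvd_of_dvd_of_dvd ?_ h4 h3
      exact (Nat.coprime_two_left).2 hn
    apply hx
    rw [← ZMod.val_eq_zero]
    exact Nat.eq_zero_of_dvd_of_lt h5 (ZMod.val_lt x)
  · rw [if_neg h1]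
    by_cases h2 : f4fc n x = 0
    · rw [if_pos h2]
      exact Multiset.notMem_zero _
    · rw [if_neg h2, Multiset.insert_eq_cons, Multiset.mem_cons, Multiset.mem_singleton]
      rintro (h3 | h3)
      · exact h2 h3.symm
      · exact h2 (hu _ (neg_eq_zero.1 h3.symm))

private theorem f4f_tate {n p : ℕ} [NeZero n] [NeZero (2 * n)] (hn : Odd n)
    (hmp : (2 * n).Coprime p) {S : Multiset (ZMod (2 * n))} (h0 : (0 : ZMod (2 * n)) ∉ S)
    (hT : TateN p S) : TateN p (S.bind (f4fG n)) := by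
  obtain ⟨f, hf, hpf, hT⟩ := hT
  obtain ⟨u, hu⟩ : ∃ u : (ZMod (2 * n))ˣ, (u : ZMod (2 * n)) = p :=
    ⟨ZMod.unitOfCoprime p hmp.symm, ZMod.coe_unitOfCoprime p hmp.symm⟩
  obtain ⟨v, hv⟩ : ∃ v : (ZMod n)ˣ, (v : ZMod n) = p :=
    ⟨ZMod.unitOfCoprime p (hmp.symm.coprime_dvd_right (Dvd.intro_left 2 rfl)),
      ZMod.coe_unitOfCoprime p _⟩
  have hpn : f4fc n (p : ZMod (2 * n)) = (p : ZMod n) := map_natCast _ _
  refine ⟨f, hf, ?_, ?_⟩
  · rw [← hpn, ← map_pow, hpf, map_one]
  · intro t
    obtain ⟨t', ht'⟩ := ZMod.unitsMap_surjective (Dvd.intro_left 2 rfl : n ∣ 2 * n) t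
    have htt : f4fc n (t' : ZMod (2 * n)) = (t : ZMod n) := by
      rw [← ht']
      rfl
    have h0' : (0 : ZMod n) ∉ S.bind (f4fG n) := by
      rw [Multiset.mem_bind]
      rintro ⟨x, hx, hx0⟩
      exact f4f_G_ne hn (fun h => h0 (h ▸ hx)) hx0
    have e1 := f4f_sum (f := f) u hu h0 t'
    have e2 := f4f_sum (f := f) v hv h0' t
    have e3 := hT t'
    have e4 : (S.map fun x => ∑ i ∈ range f,
        sw ((t' : ZMod (2 * n)) * ((p : ZMod (2 * n)) ^ i * x))).sum = 0 := by
      rw [e1]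
      have : (2 * ((S.map fun x => ∑ i ∈ range f, ((p : ZMod (2 * n)) ^ i *
          ((t' : ZMod (2 * n)) * x)).val).sum : ℕ) : ℤ) = ((2 * n : ℕ) : ℤ) * f * S.card := by
        exact_mod_cast e3
      rw [this, sub_self]
    have e5 : (S.map fun x => ∑ i ∈ range f,
        sw ((t' : ZMod (2 * n)) * ((p : ZMod (2 * n)) ^ i * x))).sum =
        2 * ((S.bind (f4fG n)).map fun x => ∑ i ∈ range f,
          sw ((t : ZMod n) * ((p : ZMod n) ^ i * x))).sum := by
      rw [Multiset.map_bind, Multiset.sum_bind, ← Multiset.sum_map_mul_left]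
      congr 1
      refine Multiset.map_congr rfl fun x _ => ?_
      rw [f4f_comm, mul_sum]
      refine sum_congr rfl fun i _ => ?_
      have h7 := f4f_G_sw hn (t' * u ^ i) x
      have h8 : f4fc n ((t' * u ^ i : (ZMod (2 * n))ˣ) : ZMod (2 * n)) =
          (t : ZMod n) * (p : ZMod n) ^ i := by
        rw [Units.val_mul, Units.val_pow_eq_pow_val, hu, map_mul, map_pow, hpn, htt]
      rw [h8] at h7
      rw [Units.val_mul, Units.val_pow_eq_pow_val, hu, mul_assoc] at h7
      rw [h7]
      simp only [mul_assoc]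
    rw [e4] at e5
    have e6 : ((S.bind (f4fG n)).map fun x => ∑ i ∈ range f,
          sw ((t : ZMod n) * ((p : ZMod n) ^ i * x))).sum = 0 := by omega
    rw [e6] at e2
    have e7 : (2 * (((S.bind (f4fG n)).map fun x => ∑ i ∈ range f,
        ((p : ZMod n) ^ i * ((t : ZMod n) * x)).val).sum : ℕ) : ℤ) =
        (n : ℤ) * f * (S.bind (f4fG n)).card := by linarith
    exact_mod_cast e7

private theorem f4f_card {n : ℕ} (S : Multiset (ZMod (2 * n))) :
    (((S.bind (f4fG n)).card : ℕ) : ZMod 2) = (S.card : ZMod 2) + f4fe n S.sum := by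
  induction S using Multiset.induction with
  | empty => simp
  | cons x S ih =>
    rw [Multiset.cons_bind, Multiset.card_add, Nat.cast_add, ih, Multiset.card_cons,
      Multiset.sum_cons, map_add, Nat.cast_add, Nat.cast_one]
    have h1 : (((f4fG n x).card : ℕ) : ZMod 2) = 1 + f4fe n x := by
      unfold f4fG
      by_cases hx : f4fe n x = 0
      · rw [if_pos hx, hx]
        simp
      · rw [if_neg hx]
        have h2 : f4fe n x = 1 := by
          generalize f4fe n x = y at hx
          revert hx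
          revert y
          decide
        rw [h2]
        by_cases h3 : f4fc n x = 0
        · rw [if_pos h3, Multiset.card_zero]
          decide
        · rw [if_neg h3]
          rfl
    rw [h1]
    ring

private theorem f4f_nV_add {m : ℕ} (S T : Multiset (ZMod m)) (V : Finset ℕ) :
    nV (S + T) V = nV S V + nV T V := by
  unfold nV
  rw [Multiset.filter_add, Multiset.card_add]

private theorem f4f_ord_h {n : ℕ} (hn : Odd n) (y : ZMod n) :
    addOrderOf (f4fh n * y) = addOrderOf y := by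
  refine Nat.dvd_antisymm ?_ ?_
  · rw [addOrderOf_dvd_iff_nsmul_eq_zero, nsmul_eq_mul, mul_left_comm, ← nsmul_eq_mul,
      addOrderOf_nsmul_eq_zero, mul_zero]
  · rw [addOrderOf_dvd_iff_nsmul_eq_zero]
    calc addOrderOf (f4fh n * y) • y = 2 * f4fh n * (addOrderOf (f4fh n * y) • y) := by
          rw [f4f_two_h hn, one_mul]
      _ = 2 * (addOrderOf (f4fh n * y) • (f4fh n * y)) := by
          rw [nsmul_eq_mul, nsmul_eq_mul]
          ring
      _ = 0 := by rw [addOrderOf_nsmul_eq_zero, mul_zero]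

private theorem f4f_nV_G {n : ℕ} [NeZero n] [NeZero (2 * n)] (hn : Odd n) (x : ZMod (2 * n))
    (V : Finset ℕ) : Even (nV (f4fG n x) V + nV {x} V) := by
  classical
  have hodd : ∀ y : ZMod n, Odd (addOrderOf y) := by
    intro y
    refine Odd.of_dvd_nat hn ?_
    rw [addOrderOf_dvd_iff_nsmul_eq_zero, nsmul_eq_mul, ZMod.natCast_self, zero_mul]
  have hsing : ∀ {k : ℕ} (y : ZMod k), nV ({y} : Multiset (ZMod k)) V =
      if Odd (addOrderOf y) ∧ (addOrderOf y).primeFactors = V then 1 else 0 := by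
    intro k y
    unfold nV
    rw [Multiset.filter_singleton]
    split_ifs <;> rfl
  unfold f4fG
  by_cases hx : f4fe n x = 0
  · rw [if_pos hx, hsing, hsing]
    have h1 : addOrderOf (f4fh n * f4fc n x) = addOrderOf x := by
      rw [f4f_ord_h hn]
      refine Nat.dvd_antisymm ?_ ?_
      · rw [addOrderOf_dvd_iff_nsmul_eq_zero, ← map_nsmul, addOrderOf_nsmul_eq_zero, map_zero]
      · rw [addOrderOf_dvd_iff_nsmul_eq_zero]
        set k := addOrderOf (f4fc n x) with hk
        have h3 : f4fc n (k • x) = 0 := by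
          rw [map_nsmul, hk, addOrderOf_nsmul_eq_zero]
        have h4 : f4fe n (k • x) = 0 := by
          rw [map_nsmul, hx, nsmul_zero]
        rw [f4f_c, ZMod.natCast_eq_zero_iff] at h3
        rw [f4f_e_zero] at h4
        have h5 : 2 * n ∣ (k • x).val := by
          refine Nat.Coprime.mul_dvd_of_dvd_of_dvd ?_ h4 h3
          exact (Nat.coprime_two_left).2 hn
        rw [← ZMod.val_eq_zero]
        exact Nat.eq_zero_of_dvd_of_lt h5 (ZMod.val_lt _)
    rw [h1]
    exact ⟨_, rfl⟩
  · have h2 : ¬ Odd (addOrderOf x) := by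
      intro ho
      have h3 : f4fe n (addOrderOf x • x) = 0 := by
        rw [addOrderOf_nsmul_eq_zero, map_zero]
      rw [map_nsmul, nsmul_eq_mul, (ZMod.natCast_eq_one_iff_odd).2 ho, one_mul] at h3
      exact hx h3
    have h5 : nV ({x} : Multiset (ZMod (2 * n))) V = 0 := by
      rw [hsing x, if_neg (fun h => h2 h.1)]
    rw [if_neg hx, h5, add_zero]
    by_cases h3 : f4fc n x = 0
    · rw [if_pos h3]
      exact ⟨0, rfl⟩
    · rw [if_neg h3, Multiset.insert_eq_cons, ← Multiset.singleton_add, f4f_nV_add, hsing, hsing,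
        addOrderOf_neg, f4f_ord_h hn]
      exact ⟨_, rfl⟩

private theorem f4f_nV {n : ℕ} [NeZero n] [NeZero (2 * n)] (hn : Odd n)
    (S : Multiset (ZMod (2 * n))) (V : Finset ℕ) : Even (nV (S.bind (f4fG n)) V + nV S V) := by
  induction S using Multiset.induction with
  | empty => exact ⟨0, rfl⟩
  | cons x S ih =>
    rw [Multiset.cons_bind, f4f_nV_add, ← Multiset.singleton_add, f4f_nV_add]
    have h1 := f4f_nV_G hn x V
    have h2 : nV (f4fG n x) V + nV (S.bind (f4fG n)) V + (nV {x} V + nV S V) =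
        (nV (f4fG n x) V + nV {x} V) + (nV (S.bind (f4fG n)) V + nV S V) := by ring
    rw [h2]
    exact h1.add ih

theorem nV_four {m p r l : ℕ} [NeZero m] (hmp : m.Coprime p) (hm : ¬ 4 ∣ m) (hr : r.Prime)
    (hl : l.Prime) (hrl : r ≠ l) (hpf : m.primeFactors.erase 2 = {r, l}) (hr4 : r % 4 = 1)
    (hj : jacobiSym l r = -1) (hneg : ∀ i : ℕ, ¬ r * l ∣ p ^ i + 1) {S : Multiset (ZMod m)}
    (h0 : (0 : ZMod m) ∉ S) (hc : Even S.card) (hs : S.sum = 0) (hT : TateN p S) :
    Even (nV S {r, l}) := by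
  rcases Nat.even_or_odd m with he | ho
  · obtain ⟨n, hn⟩ := he
    obtain rfl : m = 2 * n := by omega
    have hno : Odd n := by
      rcases Nat.even_or_odd n with h | h
      · exfalso
        obtain ⟨k, hk⟩ := h
        exact hm ⟨k, by omega⟩
      · exact h
    have hn0 : n ≠ 0 := by
      rintro rfl
      exact absurd hno (by decide)
    have : NeZero n := ⟨hn0⟩
    have hpf' : n.primeFactors = {r, l} := by
      rw [← hpf, Nat.primeFactors_mul (by norm_num) hn0, Nat.Prime.primeFactors Nat.prime_two]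
      ext q
      rw [mem_erase, mem_union, mem_singleton]
      constructor
      · intro hq
        refine ⟨?_, Or.inr hq⟩
        rintro rfl
        have := Nat.dvd_of_mem_primeFactors hq
        obtain ⟨k, hk⟩ := hno
        omega
      · rintro ⟨h1, h2 | h2⟩
        · exact absurd h2 h1
        · exact h2
    have h0' : (0 : ZMod n) ∉ S.bind (f4fG n) := by
      rw [Multiset.mem_bind]
      rintro ⟨x, hx, hx0⟩
      exact f4f_G_ne hno (fun h => h0 (h ▸ hx)) hx0
    have hc' : Even (S.bind (f4fG n)).card := by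
      have h1 := f4f_card S
      rw [hs, map_zero, add_zero, (ZMod.natCast_eq_zero_iff_even).2 hc] at h1
      exact (ZMod.natCast_eq_zero_iff_even).1 h1
    have h2 := nV_four_odd (hmp.coprime_dvd_left (Dvd.intro_left 2 rfl)) hno hr hl hrl hpf' hr4 hj
      hneg h0' hc' (f4f_tate hno hmp h0 hT)
    have h3 := f4f_nV hno S {r, l}
    exact (Nat.even_add.1 h3).1 h2
  · refine nV_four_odd hmp ho hr hl hrl ?_ hr4 hj hneg h0 hc hT
    rw [← hpf, erase_eq_of_notMem]
    intro h
    have := Nat.dvd_of_mem_primeFactors h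
    obtain ⟨k, hk⟩ := ho
    omega

end Pool.Agent.FT
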