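import Mathlib

/-!
# The Tate conjecture for Fermat varieties over finite fields: definitions

See `Pool/Agent/Results/MP_2a05c8_ag/FermatAllChar.lean`. In the definitions `Z` is a proposition. If
it is false, only known algebraic cycles are used.
-/

set_option autoImplicit false

namespace Pool.Agent.FTF

open Finset

/-- Hodge characters: for all units `t` the representatives of the elements `t x`, `x ∈ S`, have
mean value `m / 2`. -/
def Hodge {m : ℕ} (S : Multiset (ZMod m)) : Prop :=
  ∀ t : (ZMod m)ˣ, 2 * (S.map fun x => ((t : ZMod m) * x).val).sum = m * S.card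

/-- Two Hodge characters, given by the level and the elements. -/
def special : List (ℕ × List ℕ) :=
  [(52, [1, 5, 9, 37, 12, 45, 49, 50]), (51, [1, 18, 34, 49, 10, 13, 28, 22, 37, 43])]

/-- The system of characters which are algebraic in characteristic zero: the smallest system of
multisets of elements of `ℤ/m` which contains

* the pairs `{x, -x}`, `x ≠ 0`,
* the standard elements: all `z` with `r z = r x`, and `- r x`, and `m / 2` if `r = 2`, where `r`
  is a prime divisor of `m` and `r x ≠ 0`,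
* the Hodge characters with four elements, all nonzero,
* the Hodge characters with an even number of elements, all nonzero, which are invariant under
  multiplication by the squares of the units,
* the multisets `{t (m / k) a | a ∈ l}` for the members `(k, l)` of `special` with `k ∣ m` and for
  the units `t`,

and is closed under joins and under the cancellation of pairs. -/
inductive Gen (m : ℕ) [NeZero m] : Multiset (ZMod m) → Prop
  | pair (x : ZMod m) (hx : x ≠ 0) : Gen m {x, -x}
  | standard (r : ℕ) (hr : r.Prime) (hrm : r ∣ m) (x : ZMod m) (hx : (r : ZMod m) * x ≠ 0) :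
      Gen m ((univ.filter fun z : ZMod m => (r : ZMod m) * z = r * x).val + {-(r * x)} +
        (if r = 2 then {((m / 2 : ℕ) : ZMod m)} else 0))
  | surface (S : Multiset (ZMod m)) (h0 : (0 : ZMod m) ∉ S) (hc : S.card = 4)
      (hS : Hodge S) : Gen m S
  | square (S : Multiset (ZMod m)) (h0 : (0 : ZMod m) ∉ S) (hc : Even S.card)
      (hS : Hodge S) (hu : ∀ u : (ZMod m)ˣ, (S.map fun x => (u : ZMod m) ^ 2 * x) = S) :
      Gen m S
  | listed (k : ℕ) (l : List ℕ) (h : (k, l) ∈ special) (hk : k ∣ m) (t : (ZMod m)ˣ) :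
      Gen m ((l : Multiset ℕ).map fun a => (t : ZMod m) * ((m / k * a : ℕ) : ZMod m))
  | join (S T : Multiset (ZMod m)) (hS : Gen m S) (hT : Gen m T) : Gen m (S + T)
  | cancel (S : Multiset (ZMod m)) (x : ZMod m) (hx : x ≠ 0) (hS : Gen m (S + {x, -x})) :
      Gen m S

/-- Tate characters in characteristic `p`: for all units `t` the representatives of the elements
`p ^ i t x`, `x ∈ S`, `i` running over a period of the powers of `p`, have mean value `m / 2`. -/
def TateN {m : ℕ} (p : ℕ) (S : Multiset (ZMod m)) : Prop :=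
  ∃ f : ℕ, 0 < f ∧ (p : ZMod m) ^ f = 1 ∧ ∀ t : (ZMod m)ˣ,
    2 * (S.map fun x => ∑ i ∈ range f, ((p : ZMod m) ^ i * ((t : ZMod m) * x)).val).sum =
      m * f * S.card

/-- the inclusion `x ↦ (M / m) x` of `ℤ/m` in `ℤ/M`, for `m ∣ M` -/
def up (M : ℕ) {m : ℕ} (x : ZMod m) : ZMod M := ((M / m * x.val : ℕ) : ZMod M)

/-- the elements `t (m / k) a` of `ℤ/m`, `a ∈ l` -/
def mult (m k : ℕ) (l : List ℕ) (t : (ZMod m)ˣ) : Multiset (ZMod m) :=
  (l : Multiset ℕ).map fun a => (t : ZMod m) * ((m / k * a : ℕ) : ZMod m)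

/-- The characters which are given by direct factors of rank one of `h^1` of curves: `{x, y, z}` with
`x + y + z = 0`, all nonzero, and, if `Z` is true and `330 ∣ m`, the unit multiples of
`{11 + 5 b | b = 1, 3, 4, 5, 9}`, level `55`. -/
inductive Curve (Z : Prop) (m : ℕ) : Multiset (ZMod m) → Prop
  | fermat (x y z : ZMod m) (hx : x ≠ 0) (hy : y ≠ 0) (hz : z ≠ 0) (h : x + y + z = 0) :
      Curve Z m {x, y, z}
  | cover (hZ : Z) (h : 330 ∣ m) (t : (ZMod m)ˣ) : Curve Z m (mult m 55 [16, 26, 31, 36, 1] t)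

/-- The system of characters which are algebraic in characteristic `p`: the smallest system of
multisets of elements of `ℤ/m` which contains

* the pairs `{x, -x}`, `x ≠ 0`,
* the standard elements (see `Gen`),
* the Tate characters `S + T`, `S` and `T` in `Curve Z m`,

and, if `Z` is true,

* the multisets whose image in some `ℤ/L`, `m ∣ L`, belongs to `Gen L`,
* if `570 ∣ m`, the Tate characters among the unit multiples of `{19 + 5 b | b}`, level `95`, `b`
  running over `0` and the nonzero squares modulo `19`,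
* the Tate characters with an even number of elements, all nonzero and of odd order, with sum zero,
  which are invariant under multiplication by the squares of the units,

and is closed under joins and under the cancellation of pairs. -/
inductive Alg (Z : Prop) (p m : ℕ) [NeZero m] : Multiset (ZMod m) → Prop
  | pair (x : ZMod m) (hx : x ≠ 0) : Alg Z p m {x, -x}
  | standard (r : ℕ) (hr : r.Prime) (hrm : r ∣ m) (x : ZMod m) (hx : (r : ZMod m) * x ≠ 0) :
      Alg Z p m ((univ.filter fun z : ZMod m => (r : ZMod m) * z = r * x).val + {-(r * x)} +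
        (if r = 2 then {((m / 2 : ℕ) : ZMod m)} else 0))
  | curves (S T : Multiset (ZMod m)) (hS : Curve Z m S) (hT : Curve Z m T)
      (h : TateN p (S + T)) : Alg Z p m (S + T)
  | hodge (hZ : Z) (S : Multiset (ZMod m)) (L : ℕ) (hL0 : NeZero L) (hL : m ∣ L)
      (hS : Gen L (S.map (up L))) : Alg Z p m S
  | plane (hZ : Z) (h : 570 ∣ m) (t : (ZMod m)ˣ)
      (hT : TateN p (mult m 95 [19, 24, 39, 44, 49, 54, 64, 74, 4, 9] t)) :
      Alg Z p m (mult m 95 [19, 24, 39, 44, 49, 54, 64, 74, 4, 9] t)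
  | squares (hZ : Z) (S : Multiset (ZMod m)) (h0 : (0 : ZMod m) ∉ S) (hc : Even S.card)
      (hs : S.sum = 0) (ho : ∀ x ∈ S, Odd (addOrderOf x)) (hT : TateN p S)
      (hu : ∀ u : (ZMod m)ˣ, (S.map fun x => (u : ZMod m) ^ 2 * x) = S) : Alg Z p m S
  | join (S T : Multiset (ZMod m)) (hS : Alg Z p m S) (hT : Alg Z p m T) : Alg Z p m (S + T)
  | cancel (S : Multiset (ZMod m)) (x : ZMod m) (hx : x ≠ 0) (hS : Alg Z p m (S + {x, -x})) :
      Alg Z p m S

/-- The image of `S` in some `ℤ/M`, where `M` is a multiple of `m` prime to `p`, is in the system. -/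
def Algebraic (Z : Prop) (p : ℕ) {m : ℕ} (S : Multiset (ZMod m)) : Prop :=
  ∃ (M : ℕ) (_ : NeZero M), m ∣ M ∧ M.Coprime p ∧ Alg Z p M (S.map (up M))

/-- Let `F` be a finite field with `q` elements and `χ` a character of order `m` of `Fˣ`. The multiset
`S` of nonzero elements of `ℤ/m` with sum zero and `2 k` elements is a Tate character if the product
of the Gauss sums `g(χ ^ x, ψ)`, `x ∈ S`, is `q ^ k` times a root of unity. -/
def IsTate {F : Type} [Field F] [Fintype F] {m : ℕ} (χ : MulChar F ℂ) (ψ : AddChar F ℂ)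
    (S : Multiset (ZMod m)) : Prop :=
  (0 : ZMod m) ∉ S ∧ S.sum = 0 ∧ Even S.card ∧ ∃ N : ℕ, 0 < N ∧
    ((S.map fun x => gaussSum (χ ^ x.val) ψ).prod) ^ N =
      ((Fintype.card F : ℂ) ^ (S.card / 2)) ^ N

/-- For primes: `l` is not `1` modulo `4`, or `l` is `5`, `13` or `17`. -/
def Nice (l : ℕ) : Prop := l % 4 ≠ 1 ∨ l = 5 ∨ l = 13 ∨ l = 17

/-- For primes: `r` is not `1` modulo `4`, `q` is `1` modulo `4`, and `r` is a square modulo `q`. -/
def Split (r q : ℕ) : Prop := r % 4 ≠ 1 ∧ q % 4 = 1 ∧ IsSquare (r : ZMod q)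

/-- The odd prime divisors of `m`, together with `2` if `4 ∣ m`, are not `1` modulo `4`, or they are
at most three primes which form good pairs. -/
def Allowed (m : ℕ) : Prop :=
  (∀ l ∈ m.primeFactors, l % 4 ≠ 1) ∨
    ((m.primeFactors.filter fun l => l = 2 → 4 ∣ m).card ≤ 3 ∧
      ∀ r ∈ m.primeFactors.filter fun l => l = 2 → 4 ∣ m,
        ∀ q ∈ m.primeFactors.filter fun l => l = 2 → 4 ∣ m,
          r < q → (Nice r ∧ Nice q) ∨ Split r q ∨ Split q r)

open Classical in
/-- The number of elements of `S` of odd order whose order has the set `V` of prime factors is even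
for all nonempty sets `V` of odd prime divisors of `m`, except for `{3}`, `{5}` and the sets such that
`-1` is a power of `p` modulo the product of `V`. If `Z` is true, only the sets which contain a prime
`1` modulo `4` are considered, and `{13}` and `{17}` are not. -/
def Parity (Z : Prop) (p : ℕ) {m : ℕ} (S : Multiset (ZMod m)) : Prop :=
  ∀ V ⊆ m.primeFactors.erase 2, V.Nonempty → (∀ i : ℕ, ¬ ∏ r ∈ V, r ∣ p ^ i + 1) →
    V ≠ {3} → V ≠ {5} → (Z → (∃ r ∈ V, r % 4 = 1) ∧ V ≠ {13} ∧ V ≠ {17}) →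
      Even (S.filter fun x => Odd (addOrderOf x) ∧ (addOrderOf x).primeFactors = V).card

/-- The condition on the character `S` of level `m` and the characteristic `p`. -/
def Good (Z : Prop) (p : ℕ) {m : ℕ} (S : Multiset (ZMod m)) : Prop :=
  Parity Z p S ∨ (m < 52 ∧ m ≠ 35 ∧ m ≠ 44 ∧ m ≠ 51) ∨ IsPrimePow m ∨
    (∃ n : ℕ, Odd n ∧ IsPrimePow n ∧ m = 2 * n) ∨
    m.primeFactors ⊆ {2, 3, 5} ∨ m.primeFactors ⊆ {2, 3, 7} ∨
    (¬ 4 ∣ m ∧ (m.primeFactors ⊆ {2, 3, 11} ∨ m.primeFactors ⊆ {2, 3, 13})) ∨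
    (∃ l : ℕ, l.Prime ∧ l % 8 = 7 ∧ m.primeFactors ⊆ {2, l}) ∨
    (Z ∧ ((m < 105 ∧ m ≠ 87) ∨ m.primeFactors ⊆ {2, 3, 13} ∨ m.primeFactors ⊆ {2, 5, 11} ∨
      m.primeFactors ⊆ {2, 5, 19} ∨
      (¬ 4 ∣ m ∧ ∃ r l : ℕ, m.primeFactors.erase 2 = {r, l} ∧ (r = 5 ∨ r = 13 ∨ r = 17) ∧
        (l % 4 = 3 ∨ l = 5 ∨ l = 13 ∨ l = 17) ∧ jacobiSym l r = -1) ∨
      (Odd (orderOf (p : ZMod m)) ∧ Allowed m)))

end Pool.Agent.FTF
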