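import Pool.Agent.FT.Z3
import Pool.Agent.FT.FinDefs

/-!
# The Tate conjecture for Fermat varieties over finite fields: proof
-/

set_option autoImplicit false

namespace Pool.Agent.FTF

open Finset

/-! ### The proof -/

theorem gen_of {m : ℕ} [NeZero m] {S : Multiset (ZMod m)} (h : FQ.Gen True FT.P2 m S) :
    Gen m S := by
  induction h with
  | pair x hx => exact Gen.pair x hx
  | standard r hr hrm x hx => exact Gen.standard r hr hrm x hx
  | surface S h0 hc hS => exact Gen.surface S h0 hc hS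
  | fourfold p q k l h hP hk t =>
    refine Gen.listed k l ?_ hk t
    unfold FT.P2 at hP
    unfold FSU.extra at h
    simp only [Set.mem_insert_iff, Set.mem_singleton_iff, List.mem_cons, List.not_mem_nil,
      Prod.mk.injEq, or_false] at h hP
    unfold special
    simp only [List.mem_cons, List.not_mem_nil, Prod.mk.injEq, or_false]
    rcases hP with ⟨rfl, rfl⟩ | ⟨rfl, rfl⟩
    · left
      norm_num at h
      exact h
    · right
      norm_num at h
      exact h
  | square hZ S h0 hc hS hu => exact Gen.square S h0 hc hS hu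
  | join S T _ _ ihS ihT => exact Gen.join S T ihS ihT
  | cancel S x hx _ ih => exact Gen.cancel S x hx ih

theorem lst_55 {m : ℕ} (u : (ZMod m)ˣ) :
    FT.lst m 55 FT.l55 u = mult m 55 [16, 26, 31, 36, 1] u := by
  have h : (FT.l55 : Multiset ℕ) = (([16, 26, 31, 36, 1] : List ℕ) : Multiset ℕ) := by decide
  unfold FT.lst mult
  rw [h]

theorem lst_95 {m : ℕ} (u : (ZMod m)ˣ) :
    FT.lst m 95 FT.l95 u = mult m 95 [19, 24, 39, 44, 49, 54, 64, 74, 4, 9] u := by
  have h : (FT.l95 : Multiset ℕ) =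
      (([19, 24, 39, 44, 49, 54, 64, 74, 4, 9] : List ℕ) : Multiset ℕ) := by decide
  unfold FT.lst mult
  rw [h]

/-- the flag given by a proposition -/
@[reducible] def fl (Z : Prop) : FT.Flag := ⟨Z⟩

theorem alg_of {Z : Prop} {p m : ℕ} [NeZero m] {S : Multiset (ZMod m)}
    (h : @FT.Alg (fl Z) p m _ S) : Alg Z p m S := by
  induction h with
  | pair x hx => exact Alg.pair x hx
  | standard r hr hrm x hx => exact Alg.standard r hr hrm x hx
  | hodge hZ S L hL0 hL hS => exact Alg.hodge hZ S L hL0 hL (gen_of hS)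
  | curves x y z x' y' z' hx hy hz hx' hy' hz' h h' hT =>
    exact Alg.curves {x, y, z} {x', y', z'} (Curve.fermat x y z hx hy hz h)
      (Curve.fermat x' y' z' hx' hy' hz' h') hT
  | squares hZ S h0 hc hs ho hT hu => exact Alg.squares hZ S h0 hc hs ho hT hu
  | cover hZ S h0 hc hs hT hC =>
    rcases hC with ⟨h, u, x, y, z, hx, hy, hz, hsum, rfl⟩ | ⟨h, u, rfl⟩
    · rw [lst_55] at hT ⊢
      exact Alg.curves _ _ (Curve.cover hZ h u) (Curve.fermat x y z hx hy hz hsum) hT
    · rw [lst_95] at hT ⊢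
      exact Alg.plane hZ h u hT
  | join S T _ _ ihS ihT => exact Alg.join S T ihS ihT
  | cancel S x hx _ ih => exact Alg.cancel S x hx ih

theorem algebraic_of {Z : Prop} {p m : ℕ} {S : Multiset (ZMod m)}
    (h : @FT.Inf (fl Z) p m S 1) : Algebraic Z p S := by
  obtain ⟨M, hM0, hM, hMp, hA⟩ := h
  rw [one_smul] at hA
  exact ⟨M, hM0, hM, hMp, alg_of hA⟩

theorem allowed_of {m : ℕ} (h : Allowed m) : FT.Allowed (FT.prA m) := by
  rcases h with h | h
  · exact Or.inl fun l hl => h l (mem_filter.1 hl).1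
  · exact Or.inr h

/-- the theorem for weights -/
theorem one_level (Z : Prop) (p : ℕ) (hp : p.Prime) (m : ℕ) [NeZero m] (hmp : m.Coprime p)
    (S : Multiset (ZMod m)) (h0 : (0 : ZMod m) ∉ S) (hc : Even S.card) (hs : S.sum = 0)
    (hT : TateN p S) (h : Good Z p S) : Algebraic Z p S := by
  letI : FT.Flag := fl Z
  refine algebraic_of ?_
  rcases h with h | ⟨h, h35, h44, h51⟩ | h | ⟨n, hodd, hn, h⟩ | h | h | ⟨h4, h | h⟩ |
    ⟨l, hl, hl8, h⟩ | ⟨hZ, h⟩
  · by_cases hZ : Z
    · refine FT.main_par hZ p hp m hmp S h0 hc hs hT fun V hV h1 hno h5 h13 h17 => ?_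
      obtain ⟨r, hr, hr1⟩ := h1
      refine h V hV ⟨r, hr⟩ hno ?_ h5 fun _ => ⟨⟨r, hr, hr1⟩, h13, h17⟩
      rintro rfl
      rw [mem_singleton] at hr
      subst hr
      omega
    · exact FT.main0_par p hp m hmp S h0 hc hs hT fun V hV hne hno h3 h5 =>
        h V hV hne hno h3 h5 fun h => absurd h hZ
  · exact FT.main0_small p hp m hmp h h35 h44 h51 S h0 hc hs hT
  · exact FT.main0_pp p hp m hmp h (Or.inl rfl) S h0 hc hs hT
  · exact FT.main0_pp p hp m hmp hn (Or.inr ⟨hodd, h⟩) S h0 hc hs hT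
  · exact FT.main0_15 p hp m hmp h S h0 hc hs hT
  · exact FT.main0_21 p hp m hmp h S h0 hc hs hT
  · exact FT.main0_33 p hp m hmp h4 h S h0 hc hs hT
  · exact FT.main0_39 p hp m hmp h4 h S h0 hc hs hT
  · exact FT.main0_l p hp m hmp hl hl8 h S h0 hc hs hT
  rcases h with ⟨h105, h87⟩ | h | h | h | ⟨h4, r, l, hpf, hr, hl, hj⟩ | ⟨hodd, hA⟩
  · exact FT.main_small hZ p hp m hmp h105 h87 S h0 hc hs hT
  · exact FT.main_39 hZ p hp m hmp h S h0 hc hs hT
  · exact FT.main_55 hZ p hp m hmp h S h0 hc hs hT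
  · exact FT.main_95 hZ p hp m hmp h S h0 hc hs hT
  · have hlp : l.Prime := by
      have h1 : l ∈ m.primeFactors.erase 2 := by
        rw [hpf]
        exact mem_insert_of_mem (mem_singleton_self l)
      exact Nat.prime_of_mem_primeFactors (mem_of_mem_erase h1)
    exact FT.main_rl hZ p hp m hmp h4 hlp hpf hr hl hj S h0 hc hs hT
  · exact FT.main_odd hZ p hp m hmp (allowed_of hA) hodd S h0 hc hs hT

theorem main_gauss (Z : Prop) (p : ℕ) [Fact p.Prime] (F : Type) [Field F] [Fintype F]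
    [CharP F p] (m : ℕ) [NeZero m] (χ : MulChar F ℂ) (hχ : orderOf χ = m) (ψ : AddChar F ℂ)
    (hψ : ψ ≠ 1) (S : Multiset (ZMod m)) (hS : IsTate χ ψ S) (hG : Good Z p S) :
    Algebraic Z p S := by
  classical
  obtain ⟨f, hfp⟩ := FiniteField.card F p
  have hfpos : 0 < (f : ℕ) := f.pos
  have hcard : Fintype.card F = p ^ (f : ℕ) := hfp.2
  have hdvd : m ∣ Fintype.card F - 1 := by
    rw [← hχ]
    exact orderOf_dvd_of_pow_eq_one (by
      have h1 := MulChar.pow_card_eq_one χ
      rwa [Fintype.card_units] at h1)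
  have hpF : (p : ZMod m) ^ (f : ℕ) = 1 := by
    have h1 : ((Fintype.card F - 1 : ℕ) : ZMod m) = 0 :=
      (ZMod.natCast_eq_zero_iff _ _).2 hdvd
    rw [Nat.cast_sub Fintype.card_pos, hcard, sub_eq_zero] at h1
    push_cast at h1
    exact h1
  have hp : IsUnit (p : ZMod m) := IsUnit.of_pow_eq_one hpF hfpos.ne'
  obtain ⟨h0, hs, hc, N, hN, hT⟩ := hS
  have hwt := Pool.Agent.Helper9.Fermat.wt_family (ι := Unit) (n := fun _ => m) (m := fun _ => m)
    hcard hfpos (fun i j hij => absurd (Subsingleton.elim i j) hij) (fun _ => Or.inl rfl)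
    (fun _ => χ) (fun _ => hχ) ψ hψ (fun _ => S)
    ⟨fun _ => ⟨h0, hs⟩, by simpa using hc, N, hN, by simpa using hT⟩ (fun _ => hp) ()
  have hmp : m.Coprime p := by
    rw [ZMod.isUnit_iff_coprime] at hp
    exact hp.symm
  refine one_level Z p Fact.out m hmp S h0 hc hs ?_ hG
  refine ⟨f, hfpos, hpF, fun t => ?_⟩
  have h2 := hwt t
  rw [Pool.Agent.Helper9.Fermat.wt_sum p f hp _ t.isUnit S h0, sub_eq_zero] at h2
  exact_mod_cast h2

end Pool.Agent.FTF
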