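import Pool.Agent.FQ.MainR
import Pool.Agent.FT.Univ
import Pool.Agent.FT.Base

/-!
# FT-HN: Hodge characters which contain a quadratic set

For a nonempty set `N` of an even number of primes (`2` or `3` modulo `4`) the quadratic set `QS m N`
is contained in a Hodge character whose other elements have order `2` or the order of a quadratic set
of a proper nonempty subset of `N`.
-/

set_option autoImplicit false

namespace Pool.Agent.FT

open Finset
open Pool.Agent.Helper9.Fermat (fib mem_fib)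
open Pool.Agent.FS (IsHodge emb sw rr hb)
open Pool.Agent.FQ (chiT QS nR PPr)

section

variable {m : ℕ} [NeZero m]

theorem order_QS {m : ℕ} [NeZero m] {N : Finset ℕ} (hN : ∀ l ∈ N, PPr l ∧ hb l ∣ m)
    {x : ZMod m} (hx : x ∈ QS m N) : addOrderOf x = nR m N := by
  obtain ⟨u, _, rfl⟩ := mem_image.1 hx
  exact FQ.order_bR (fun l hl => (hN l hl).1.1) u

private theorem hn_order_half (hm : 2 ∣ m) : addOrderOf ((m / 2 : ℕ) : ZMod m) = 2 := by
  have h1 := Pool.Agent.Helper9.Fermat.half_neg (m := m) hm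
  rw [neg_eq_iff_add_eq_zero] at h1
  have : Fact (Nat.Prime 2) := ⟨Nat.prime_two⟩
  refine addOrderOf_eq_prime ?_ (Pool.Agent.Helper9.Fermat.half_ne hm)
  rw [two_nsmul]
  exact h1

/-- the converse of `hodge_sw` -/
private theorem hn_hodge_of_sw {S : Multiset (ZMod m)} (h0 : (0 : ZMod m) ∉ S)
    (hS : ∀ t : (ZMod m)ˣ, (S.map fun x => sw ((t : ZMod m) * x)).sum = 0) : IsHodge S := by
  intro t
  have h1 : S.map (fun x => sw ((t : ZMod m) * x)) =
      S.map fun x => 2 * ((((t : ZMod m) * x).val : ℕ) : ℤ) - m := by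
    refine Multiset.map_congr rfl fun x hx => FS.Quot.sw_of_ne ?_
    intro h
    exact h0 ((t.isUnit.mul_right_eq_zero).1 h ▸ hx)
  have h2 := hS t
  have h3 : (S.map fun x => 2 * ((((t : ZMod m) * x).val : ℕ) : ℤ) - (m : ℤ)).sum =
      2 * ((S.map fun x => ((t : ZMod m) * x).val).sum : ℕ) - m * S.card := by
    rw [Multiset.sum_map_sub, Multiset.sum_map_mul_left, Multiset.map_const', Multiset.sum_replicate]
    push_cast
    rw [Multiset.map_map]
    simp [mul_comm]
  rw [h1, h3] at h2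
  have h4 : (2 * ((S.map fun x => ((t : ZMod m) * x).val).sum : ℕ) : ℤ) = m * S.card := by
    linarith
  exact_mod_cast h4

private theorem hn_closure {N : Finset ℕ} (hN : ∀ l ∈ N, PPr l ∧ hb l ∣ m)
    (z : (ZMod m)ˣ → ℤ)
    (hz : z ∈ AddSubgroup.closure {v : (ZMod m)ˣ → ℤ | ∃ T ⊂ N,
      v = FQ.vec (fun (t : (ZMod m)ˣ) (x : ZMod m) => sw ((t : ZMod m) * x)) T}) :
    ∃ S : Multiset (ZMod m), (0 : ZMod m) ∉ S ∧
      (∀ x ∈ S, ∃ T ⊂ N, T.Nonempty ∧ addOrderOf x = nR m T) ∧
      ∀ t : (ZMod m)ˣ, z t = m.totient * (S.map fun x => sw ((t : ZMod m) * x)).sum := by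
  induction hz using AddSubgroup.closure_induction with
  | mem v hv =>
    obtain ⟨T, hT, rfl⟩ := hv
    have hT' : ∀ l ∈ T, PPr l ∧ hb l ∣ m := fun l hl => hN l (hT.subset hl)
    have h1 : ∀ t : (ZMod m)ˣ,
        FQ.vec (fun (t : (ZMod m)ˣ) (x : ZMod m) => sw ((t : ZMod m) * x)) T t =
        m.totient * ∑ x ∈ QS m T, sw ((t : ZMod m) * x) := fun t =>
      FQ.AA_QS (fun x => sw ((t : ZMod m) * x)) hT'
    rcases T.eq_empty_or_nonempty with rfl | hne
    · refine ⟨0, by simp, by simp, fun t => ?_⟩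
      rw [h1 t, Multiset.map_zero, Multiset.sum_zero]
      congr 1
      refine sum_eq_zero fun x hx => ?_
      obtain ⟨u, _, rfl⟩ := mem_image.1 hx
      have h2 : FQ.bR m ∅ = 0 := by
        unfold FQ.bR nR
        rw [prod_empty, Nat.div_one, ZMod.natCast_self]
      rw [h2, mul_zero, mul_zero, FS.Quot.sw_zero]
    · refine ⟨(QS m T).val, FQ.QS_zero hT' hne, fun x hx => ⟨T, hT, hne, ?_⟩, fun t => h1 t⟩
      rw [mem_val] at hx
      exact order_QS hT' hx
  | zero => exact ⟨0, by simp, by simp, fun t => by simp⟩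
  | add a b _ _ iha ihb =>
    obtain ⟨S, h1, h2, h3⟩ := iha
    obtain ⟨S', h1', h2', h3'⟩ := ihb
    refine ⟨S + S', ?_, ?_, ?_⟩
    · rw [Multiset.mem_add, not_or]
      exact ⟨h1, h1'⟩
    · intro x hx
      rcases Multiset.mem_add.1 hx with hx | hx
      · exact h2 x hx
      · exact h2' x hx
    · intro t
      rw [Pi.add_apply, h3, h3', Multiset.map_add, Multiset.sum_add, mul_add]
  | neg a _ ih =>
    obtain ⟨S, h1, h2, h3⟩ := ih
    refine ⟨S.map fun x => -x, ?_, ?_, ?_⟩
    · rw [Multiset.mem_map]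
      rintro ⟨x, hx, hx0⟩
      rw [neg_eq_zero] at hx0
      exact h1 (hx0 ▸ hx)
    · intro x hx
      obtain ⟨y, hy, rfl⟩ := Multiset.mem_map.1 hx
      obtain ⟨T, hT, hne, ho⟩ := h2 y hy
      exact ⟨T, hT, hne, by rw [addOrderOf_neg, ho]⟩
    · intro t
      rw [Pi.neg_apply, h3, Multiset.map_map]
      have h4 : ((fun x : ZMod m => sw ((t : ZMod m) * x)) ∘ fun x : ZMod m => -x) =
          fun x => - sw ((t : ZMod m) * x) := by
        funext x
        rw [Function.comp_apply, mul_neg, FS.Quot.sw_neg]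
      rw [h4, Multiset.sum_map_neg, mul_neg]

end

theorem exists_HN {m : ℕ} [NeZero m] {N : Finset ℕ} (hN : ∀ l ∈ N, PPr l ∧ hb l ∣ m)
    (hne : N.Nonempty) (hev : Even N.card) :
    ∃ H' : Multiset (ZMod m), (0 : ZMod m) ∉ (QS m N).val + H' ∧
      Even ((QS m N).val + H').card ∧ IsHodge ((QS m N).val + H') ∧
      ∀ x ∈ H', addOrderOf x = 2 ∨ ∃ T ⊂ N, T.Nonempty ∧ addOrderOf x = nR m T := by
  obtain ⟨z, hz, hzero⟩ := FQ.vec_even
    (fun (t : (ZMod m)ˣ) (x : ZMod m) => sw ((t : ZMod m) * x))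
    (fun t r hr hrm y => sw_dist t r hr hrm y)
    (fun t x => by rw [mul_neg, FS.Quot.sw_neg]) N hN hev
  obtain ⟨S, h0, hord, hS⟩ := hn_closure hN z hz
  have h0' : (0 : ZMod m) ∉ (QS m N).val + S := by
    rw [Multiset.mem_add, not_or]
    exact ⟨FQ.QS_zero hN hne, h0⟩
  have hsw : ∀ t : (ZMod m)ˣ,
      (((QS m N).val + S).map fun x => sw ((t : ZMod m) * x)).sum = 0 := by
    intro t
    have h1 := congrFun hzero t
    have h2 : FQ.vec (fun (t : (ZMod m)ˣ) (x : ZMod m) => sw ((t : ZMod m) * x)) N t =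
        m.totient * ((QS m N).val.map fun x => sw ((t : ZMod m) * x)).sum :=
      FQ.AA_QS (fun x => sw ((t : ZMod m) * x)) hN
    rw [Pi.add_apply, Pi.zero_apply, h2, hS t, ← mul_add] at h1
    rw [Multiset.map_add, Multiset.sum_add]
    refine (mul_eq_zero.1 h1).resolve_left ?_
    have := Nat.totient_pos.2 (NeZero.pos m)
    exact_mod_cast this.ne'
  have hHodge := hn_hodge_of_sw h0' hsw
  rcases Nat.even_or_odd ((QS m N).val + S).card with he | ho
  · exact ⟨S, h0', he, hHodge, fun x hx => Or.inr (hord x hx)⟩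
  · have hm : 2 ∣ m := by
      have h1 := hHodge 1
      have h2 : 2 ∣ m * ((QS m N).val + S).card := ⟨_, h1.symm⟩
      rcases (Nat.prime_two.dvd_mul).1 h2 with h | h
      · exact h
      · exact absurd (even_iff_two_dvd.2 h) (Nat.not_even_iff_odd.2 ho)
    have h0'' : (0 : ZMod m) ∉ (QS m N).val + (S + {((m / 2 : ℕ) : ZMod m)}) := by
      rw [← add_assoc, Multiset.mem_add, not_or, Multiset.mem_singleton]
      exact ⟨h0', (Pool.Agent.Helper9.Fermat.half_ne hm).symm⟩
    refine ⟨S + {((m / 2 : ℕ) : ZMod m)}, h0'', ?_, hn_hodge_of_sw h0'' fun t => ?_, ?_⟩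
    · rw [← add_assoc, Multiset.card_add, Multiset.card_singleton]
      exact ho.add_one
    · rw [← add_assoc, Multiset.map_add, Multiset.sum_add, hsw t, Multiset.map_singleton,
        Multiset.sum_singleton, FS.Quot.sw_half hm, add_zero]
    · intro x hx
      rcases Multiset.mem_add.1 hx with hx | hx
      · exact Or.inr (hord x hx)
      · left
        rw [Multiset.mem_singleton.1 hx]
        exact hn_order_half hm

end Pool.Agent.FT
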