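import Pool.Agent.FT.Up

/-!
# FT-HodgeA: Hodge characters of allowed orders

Hodge characters of level `m` belong to the system, if the set of the odd prime divisors of `m`
(and `2` if `4 ∣ m`) is allowed.
-/

set_option autoImplicit false

namespace Pool.Agent.FT

open Finset
open Pool.Agent.Helper9.Fermat (fib mem_fib)
open Pool.Agent.FS (IsHodge emb)

/-- For primes: `l` is not `1` modulo `4`, or `l` is `5`, `13` or `17`. -/
def Nice (l : ℕ) : Prop := l % 4 ≠ 1 ∨ l = 5 ∨ l = 13 ∨ l = 17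

/-- For primes `r` and `q`: `r` is not `1` modulo `4`, `q` is `1` modulo `4`, and `r` is a square
modulo `q`. -/
def Split (r q : ℕ) : Prop :=
  r % 4 ≠ 1 ∧ q % 4 = 1 ∧ IsSquare (r : ZMod q)

/-- The allowed sets of primes: sets of primes which are not `1` modulo `4`, and sets with at most
three elements, any two of which form a good pair. -/
def Allowed (T : Finset ℕ) : Prop :=
  (∀ l ∈ T, l % 4 ≠ 1) ∨
    (T.card ≤ 3 ∧ ∀ r ∈ T, ∀ q ∈ T, r < q → (Nice r ∧ Nice q) ∨ Split r q ∨ Split q r)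

/-- the odd prime divisors of `m`, and `2` if `4 ∣ m` -/
def prA (m : ℕ) : Finset ℕ := m.primeFactors.filter fun l => l = 2 → 4 ∣ m

private theorem hodgeA_mem_prA {m l : ℕ} (hm : m ≠ 0) (hl : l.Prime)
    (h : Pool.Agent.FS.hb l ∣ m) : l ∈ prA m := by
  unfold Pool.Agent.FS.hb at h
  refine mem_filter.2 ⟨Nat.mem_primeFactors.2 ⟨hl, ?_, hm⟩, fun h2 => ?_⟩
  · split_ifs at h with h2
    · subst h2
      exact dvd_trans (by norm_num) h
    · exact h
  · rwa [if_pos h2] at h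

/-- a prime `3` modulo `4` which is not a square modulo the prime `q` -/
private theorem hodgeA_nonres {q : ℕ} (hq : q.Prime) (hq4 : q % 4 = 1) :
    ∃ s : ℕ, s.Prime ∧ s % 4 = 3 ∧ ¬ IsSquare (s : ZMod q) := by
  have : Fact q.Prime := ⟨hq⟩
  have hq2 : q ≠ 2 := by rintro rfl; omega
  obtain ⟨a, ha⟩ := FiniteField.exists_nonsquare (F := ZMod q) (by
    rw [ZMod.ringChar_zmod_n]; exact hq2)
  have ha0 : a ≠ 0 := by
    rintro rfl
    exact ha (IsSquare.zero)
  have hcop : Nat.Coprime 4 q := by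
    have h2 : Nat.Coprime 2 q := (Nat.coprime_primes Nat.prime_two hq).2 (Ne.symm hq2)
    exact Nat.Coprime.pow_left 2 h2
  obtain ⟨c, hc4, hcq⟩ := Nat.chineseRemainder hcop 3 a.val
  have hcu : IsUnit (c : ZMod (4 * q)) := by
    rw [ZMod.isUnit_iff_coprime]
    refine Nat.Coprime.mul_right ?_ ?_
    · have h1 : c % 4 = 3 := hc4
      have h2 : Nat.Coprime c 2 := by
        rw [Nat.coprime_comm, Nat.coprime_two_left, Nat.odd_iff]
        omega
      exact Nat.Coprime.pow_right 2 h2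
    · rw [← ZMod.isUnit_iff_coprime, isUnit_iff_ne_zero]
      have h1 : (c : ZMod q) = (a.val : ZMod q) := (ZMod.natCast_eq_natCast_iff _ _ _).2 hcq
      rw [h1, ZMod.natCast_zmod_val]
      exact ha0
  have : NeZero (4 * q) := ⟨by have := hq.pos; omega⟩
  obtain ⟨s, -, hs, hsc⟩ := Nat.forall_exists_prime_gt_and_eq_mod hcu 0
  have hsc' : s ≡ c [MOD 4 * q] := (ZMod.natCast_eq_natCast_iff _ _ _).1 hsc
  refine ⟨s, hs, ?_, ?_⟩
  · have h1 : s ≡ c [MOD 4] := hsc'.of_mul_right q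
    have h2 : s % 4 = c % 4 := h1
    have h3 : c % 4 = 3 := hc4
    omega
  · have h1 : s ≡ c [MOD q] := hsc'.of_mul_left 4
    have h2 : (s : ZMod q) = (a.val : ZMod q) :=
      (ZMod.natCast_eq_natCast_iff _ _ _).2 (h1.trans hcq)
    rw [h2, ZMod.natCast_zmod_val]
    exact ha

private theorem hodgeA_nice {l : ℕ} (hl : l.Prime) (h : Nice l) : FQ.PPr l ∨ FQ.SpP P2 l := by
  rcases h with h | h | h | h
  · exact Or.inl (FQ.PPr_of hl h)
  · exact Or.inr (Or.inl h)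
  · exact Or.inr (Or.inr (Or.inl ⟨h, Or.inl rfl⟩))
  · exact Or.inr (Or.inr (Or.inr ⟨h, Or.inr rfl⟩))

private theorem hodgeA_res {L r q : ℕ} (hr : r.Prime) (hq : q.Prime) (h : Split r q)
    (hs : ∃ s : ℕ, s.Prime ∧ s % 4 = 3 ∧ ¬ IsSquare (s : ZMod q) ∧ s ∣ L) : FQ.Res L r q := by
  obtain ⟨h1, h2, h3⟩ := h
  obtain ⟨s, hs, hs4, hsn, hsL⟩ := hs
  have : Fact q.Prime := ⟨hq⟩
  have hq2 : q ≠ 2 := by rintro rfl; omega
  have hrp : (r : ZMod q) ≠ 0 := by
    intro h0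
    rw [ZMod.natCast_eq_zero_iff] at h0
    have := (Nat.prime_dvd_prime_iff_eq hq hr).1 h0
    subst this
    exact h1 h2
  have hsb : Pool.Agent.FS.hb s ∣ L := by
    unfold Pool.Agent.FS.hb
    rw [if_neg (by rintro rfl; omega)]
    exact hsL
  refine ⟨FQ.PPr_of hr h1, hq, h2, ?_, s, FQ.PPr_of hs (by omega), hsb, ?_⟩
  · unfold FQ.chi
    rw [if_neg hq2, ← jacobiSym.legendreSym.to_jacobiSym]
    exact (legendreSym.eq_one_iff' q hrp).2 h3
  · unfold FQ.chi
    rw [if_neg hq2, ← jacobiSym.legendreSym.to_jacobiSym]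
    exact (legendreSym.eq_neg_one_iff' q).2 hsn

private theorem hodgeA_hh {l : ℕ} (hl : l.Prime) : 0 < Pool.Agent.SP.hh l := by
  have h := FQ.hh_eq hl
  unfold Pool.Agent.FS.hb at h
  rw [h]
  have h2 := hl.two_le
  split_ifs with hl2
  · norm_num
  · omega

theorem hodge_alg [Flag] (hZ : Flag.z) (p m : ℕ) [NeZero m] (hA : Allowed (prA m)) (S : Multiset (ZMod m))
    (h0 : (0 : ZMod m) ∉ S) (hc : Even S.card) (hS : IsHodge S) : Alg p m S := by
  classical
  have hm0 : m ≠ 0 := NeZero.ne m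
  -- the auxiliary primes
  have hex : ∀ q : ℕ, ∃ s : ℕ, 0 < s ∧ (q.Prime → q % 4 = 1 →
      s.Prime ∧ s % 4 = 3 ∧ ¬ IsSquare (s : ZMod q)) := by
    intro q
    by_cases h : q.Prime ∧ q % 4 = 1
    · obtain ⟨s, hs⟩ := hodgeA_nonres h.1 h.2
      exact ⟨s, hs.1.pos, fun _ _ => hs⟩
    · exact ⟨1, one_pos, fun h1 h2 => absurd ⟨h1, h2⟩ h⟩
  choose g hg0 hg using hex
  obtain ⟨s₀, hs₀⟩ : ∃ s₀ : ℕ, s₀ = ∏ q ∈ prA m, g q := ⟨_, rfl⟩
  have hs₀0 : s₀ ≠ 0 := by
    rw [hs₀]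
    exact prod_ne_zero_iff.2 fun q _ => (hg0 q).ne'
  obtain ⟨L, hL⟩ : ∃ L : ℕ, L = 12 * m * s₀ := ⟨_, rfl⟩
  have hL0 : NeZero L := ⟨by
    rw [hL]
    exact mul_ne_zero (mul_ne_zero (by norm_num) hm0) hs₀0⟩
  have hmL : m ∣ L := by
    rw [hL, mul_comm 12 m, mul_assoc]
    exact Dvd.intro _ rfl
  have h12 : 12 ∣ L := by
    rw [hL, mul_assoc]
    exact Dvd.intro _ rfl
  have hpr : ∀ q ∈ prA m, q.Prime := fun q hq =>
    Nat.prime_of_mem_primeFactors (mem_filter.1 hq).1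
  have haux : ∀ q ∈ prA m, q % 4 = 1 →
      ∃ s : ℕ, s.Prime ∧ s % 4 = 3 ∧ ¬ IsSquare (s : ZMod q) ∧ s ∣ L := by
    intro q hq hq4
    obtain ⟨h1, h2, h3⟩ := hg q (hpr q hq) hq4
    refine ⟨g q, h1, h2, h3, ?_⟩
    rw [hL, hs₀]
    exact (dvd_prod_of_mem g hq).mul_left _
  refine Alg.hodge hZ S L hL0 hmL ?_
  refine FQ.mainR True P2 L (even_iff_two_dvd.2 (dvd_trans (by norm_num) h12)) _ ?_ ?_ ?_ ?_
  · intro h
    obtain ⟨x, hx, hx0⟩ := Multiset.mem_map.1 h
    exact h0 ((emb_eq_zero_iff hmL).1 hx0 ▸ hx)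
  · rw [Multiset.card_map]
    exact hc
  · intro T hT hAl
    have hTm : ¬ T ⊆ prA m := by
      intro hsub
      apply hAl
      rcases hA with h | ⟨h1, h2⟩
      · exact Or.inl ⟨trivial, fun l hl => FQ.PPr_of (hT l hl) (h l (hsub hl))⟩
      · refine Or.inr ⟨(card_le_card hsub).trans h1, fun a ha b hb hab => Or.inr ⟨trivial, ?_⟩⟩
        rcases h2 a (hsub ha) b (hsub hb) hab with ⟨h3, h4⟩ | h | h
        · exact Or.inr (Or.inl ⟨h12, hodgeA_nice (hT a ha) h3, hodgeA_nice (hT b hb) h4⟩)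
        · exact Or.inr (Or.inr (Or.inl (hodgeA_res (hT a ha) (hT b hb) h
            (haux b (hsub hb) h.2.1))))
        · exact Or.inr (Or.inr (Or.inr (hodgeA_res (hT b hb) (hT a ha) h
            (haux a (hsub ha) h.2.1))))
    have hcnt : Pool.Agent.SP.cntW (FQ.coreQ (S.map (emb L m))) T = 0 := by
      unfold Pool.Agent.SP.cntW
      refine Multiset.sum_eq_zero ?_
      intro a ha
      obtain ⟨x, hx, rfl⟩ := Multiset.mem_map.1 ha
      rw [if_neg]
      intro hall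
      apply hTm
      intro l hl
      have hxS : x ∈ S.map (emb L m) := by
        unfold FQ.coreQ at hx
        exact (Multiset.mem_filter.1 hx).1
      obtain ⟨y, hy, rfl⟩ := Multiset.mem_map.1 hxS
      refine hodgeA_mem_prA hm0 (hT l hl) ((hall l hl).trans ?_)
      refine addOrderOf_dvd_of_nsmul_eq_zero ?_
      rw [nsmul_eq_mul]
      exact mul_emb hmL y
    right
    intro a ha b hb _
    left
    rw [hcnt]
    exact Nat.mul_pos (hodgeA_hh (hT a ha)) (hodgeA_hh (hT b hb))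
  · intro t
    obtain ⟨u, hu⟩ := isUnit_red hmL t
    have h1 := hS u
    rw [Multiset.map_map, Multiset.card_map]
    have h2 : (S.map ((fun x => ((t : ZMod L) * x).val) ∘ emb L m)) =
        S.map fun x => L / m * ((u : ZMod m) * x).val := by
      refine Multiset.map_congr rfl fun x _ => ?_
      rw [Function.comp_apply, unit_emb hmL, emb_val hmL, hu]
    rw [h2, Multiset.sum_map_mul_left]
    have h3 : L / m * m = L := Nat.div_mul_cancel hmL
    calc 2 * (L / m * (S.map fun x => ((u : ZMod m) * x).val).sum)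
        = L / m * (2 * (S.map fun x => ((u : ZMod m) * x).val).sum) := by ring
      _ = L * S.card := by rw [h1, ← mul_assoc, h3]

end Pool.Agent.FT
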