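import Pool.Agent.FT.RE

/-!
# FT-IndC: induction over the number of primes

`AM` is a property of sets of primes (`all minus`), inherited by subsets.
The proof is by induction on the number of primes: if `b V = 0` for `V.card < n`, then for even
`n` also for `V.card = n` (`b_even`), and for odd `n` the function `b` is modified by multiples of
the indicator functions of `Bel V`, `V.card = n`, which changes none of the sums.
-/

set_option autoImplicit false

namespace Pool.Agent.FT

open Finset
open Pool.Agent.FS (IsHodge emb sw rr hb)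
open Pool.Agent.FQ (chiT QS nR PPr)

private theorem indc_prime {m : ℕ} [NeZero m] (hm : ∀ r : ℕ, r.Prime → r ∣ m → r % 4 ≠ 1)
    {V : Finset ℕ} (hV : V ⊆ m.primeFactors.erase 2) : ∀ l ∈ V, l.Prime ∧ l % 4 = 3 ∧ l ∣ m := by
  intro l hl
  have h1 := hV hl
  rw [mem_erase, Nat.mem_primeFactors] at h1
  obtain ⟨hl2, hlp, hlm, -⟩ := h1
  refine ⟨hlp, ?_, hlm⟩
  have h3 := hm l hlp hlm
  have h4 := hlp.eq_two_or_odd
  omega

private theorem indc_chiT {V : Finset ℕ} (hV : ∀ l ∈ V, l.Prime ∧ l % 4 = 3) :
    chiT V 2 = 1 ∨ chiT V 2 = -1 := by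
  unfold chiT
  induction V using Finset.induction_on with
  | empty => left; simp
  | insert a s ha ih =>
    rw [prod_insert ha]
    have h1 := ih fun l hl => hV l (mem_insert_of_mem hl)
    obtain ⟨hap, ha3⟩ := hV a (mem_insert_self a s)
    have h2 : Nat.Coprime 2 a := by
      rw [Nat.coprime_two_left]
      exact Nat.odd_iff.2 (by omega)
    rcases FQ.chi_sq hap h2 with h | h <;> rcases h1 with h' | h' <;> rw [h, h'] <;> norm_num

open Classical in
private theorem indc_count {m : ℕ} {B : Type} [AddCommGroup B] (b0 : B) (V : Finset ℕ)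
    (S : Multiset (ZMod m)) :
    (S.map (vl fun T => if Bel V T then b0 else 0)).sum =
      (S.filter fun x => Odd (addOrderOf x) ∧ Bel V (addOrderOf x).primeFactors).card • b0 := by
  induction S using Multiset.induction_on with
  | empty => simp
  | cons x S ih =>
    rw [Multiset.map_cons, Multiset.sum_cons, ih]
    by_cases h : Odd (addOrderOf x) ∧ Bel V (addOrderOf x).primeFactors
    · rw [Multiset.filter_cons_of_pos (p := fun x : ZMod m => Odd (addOrderOf x) ∧
        Bel V (addOrderOf x).primeFactors) S h, Multiset.card_cons, succ_nsmul, add_comm]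
      congr 1
      unfold vl
      rw [if_pos h.1]
      exact if_pos h.2
    · rw [Multiset.filter_cons_of_neg (p := fun x : ZMod m => Odd (addOrderOf x) ∧
        Bel V (addOrderOf x).primeFactors) S h]
      have h1 : vl (fun T => if Bel V T then b0 else 0) x = 0 := by
        unfold vl
        by_cases h2 : Odd (addOrderOf x)
        · rw [if_pos h2]
          exact if_neg fun h3 => h ⟨h2, h3⟩
        · rw [if_neg h2]
      rw [h1, zero_add]

open Classical in
private theorem indc_count_zero {m : ℕ} {B : Type} [AddCommGroup B] {b0 : B} (h2 : 2 • b0 = 0)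
    {V : Finset ℕ} {S : Multiset (ZMod m)}
    (h : b0 ≠ 0 → Even (S.filter fun x => Odd (addOrderOf x) ∧
      Bel V (addOrderOf x).primeFactors).card) :
    (S.map (vl fun T => if Bel V T then b0 else 0)).sum = 0 := by
  rw [indc_count]
  by_cases hb : b0 = 0
  · rw [hb, nsmul_zero]
  · obtain ⟨k, hk⟩ := h hb
    rw [hk, ← two_mul, mul_comm, mul_nsmul', h2, nsmul_zero]

open Classical in
private theorem indc_vl_sub {m : ℕ} {B : Type} [AddCommGroup B] (b : Finset ℕ → B)
    (F : Finset (Finset ℕ)) (x : ZMod m) :
    vl (fun T => b T - ∑ V ∈ F, if Bel V T then b V else 0) x =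
      vl b x - ∑ V ∈ F, vl (fun T => if Bel V T then b V else 0) x := by
  unfold vl
  by_cases h : Odd (addOrderOf x)
  · simp only [if_pos h]
  · simp only [if_neg h, sum_const_zero, sub_zero]

open Classical in
private theorem indc_sum_sub {m : ℕ} {B : Type} [AddCommGroup B] (b : Finset ℕ → B)
    (F : Finset (Finset ℕ)) (S : Multiset (ZMod m)) :
    (S.map (vl fun T => b T - ∑ V ∈ F, if Bel V T then b V else 0)).sum =
      (S.map (vl b)).sum - ∑ V ∈ F, (S.map (vl fun T => if Bel V T then b V else 0)).sum := by
  induction S using Multiset.induction_on with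
  | empty => simp
  | cons x S ih =>
    simp only [Multiset.map_cons, Multiset.sum_cons]
    rw [ih, indc_vl_sub, sum_add_distrib]
    abel

open Classical in
private theorem indc_aux {m : ℕ} [NeZero m] (hm : ∀ r : ℕ, r.Prime → r ∣ m → r % 4 ≠ 1)
    (h4 : 2 ∣ m → 4 ∣ m) {B : Type} [AddCommGroup B] (AM : Finset ℕ → Prop)
    (hmono : ∀ V V' : Finset ℕ, V ⊆ V' → AM V' → AM V) (S : Multiset (ZMod m))
    (hS : ∀ V ⊆ m.primeFactors.erase 2, Odd V.card → (2 ∣ m → chiT V 2 = 1) → ¬ AM V →
      Even (S.filter fun x => Odd (addOrderOf x) ∧ Bel V (addOrderOf x).primeFactors).card)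
    (k : ℕ) : ∀ n : ℕ, 1 ≤ n → (m.primeFactors.erase 2).card < n + k → ∀ b : Finset ℕ → B,
      (∀ V, 2 • b V = 0) → X1 m b →
      (∀ V ⊆ m.primeFactors.erase 2, V.Nonempty → AM V → b V = 0) →
      (∀ V ⊆ m.primeFactors.erase 2, V.card < n → b V = 0) → (S.map (vl b)).sum = 0 := by
  induction k with
  | zero =>
    intro n hn hP b h2 hX hAM hb
    have hz : ∀ x : ZMod m, vl b x = 0 := by
      intro x
      unfold vl
      by_cases hx : Odd (addOrderOf x)
      · rw [if_pos hx]
        have hsub : (addOrderOf x).primeFactors ⊆ m.primeFactors.erase 2 := by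
          intro q hq
          rw [Nat.mem_primeFactors] at hq
          have h1 : addOrderOf x ∣ m := by
            have h := addOrderOf_dvd_card (x := x)
            rwa [ZMod.card] at h
          rw [mem_erase, Nat.mem_primeFactors]
          refine ⟨?_, hq.1, hq.2.1.trans h1, NeZero.ne m⟩
          rintro rfl
          exact (Nat.not_even_iff_odd.2 hx) (even_iff_two_dvd.2 hq.2.1)
        exact hb _ hsub (lt_of_le_of_lt (card_le_card hsub) (by simpa using hP))
      · rw [if_neg hx]
    rw [Multiset.map_congr rfl fun x _ => hz x]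
    simp
  | succ k ih =>
    intro n hn hP b h2 hX hAM hb
    have hP' : (m.primeFactors.erase 2).card < (n + 1) + k := by omega
    have hlow : ∀ V ⊆ m.primeFactors.erase 2, V.card = n → ∀ V' ⊂ V, b V' = 0 := by
      intro V hV hc V' hV'
      exact hb V' (hV'.subset.trans hV) (hc ▸ card_lt_card hV')
    have hne : ∀ V : Finset ℕ, V.card = n → V.Nonempty := by
      intro V hc
      rw [← card_pos]
      omega
    rcases Nat.even_or_odd n with hev | hodd
    · refine ih (n + 1) (by omega) hP' b h2 hX hAM ?_
      intro V hV hc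
      by_cases hc' : V.card < n
      · exact hb V hV hc'
      · have hcn : V.card = n := by omega
        exact b_even h2 hX (indc_prime hm hV) (hne V hcn) (hcn ▸ hev) (hlow V hV hcn)
    · have hchi : ∀ V ⊆ m.primeFactors.erase 2, V.card = n → b V ≠ 0 → 2 ∣ m →
          chiT V 2 = 1 := by
        intro V hV hc hbV h2m
        rcases indc_chiT (fun l hl => ⟨(indc_prime hm hV l hl).1,
          (indc_prime hm hV l hl).2.1⟩) with h | h
        · exact h
        · exact absurd (b_two (h4 h2m) h2 hX (indc_prime hm hV) (hc ▸ hodd) h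
            (hlow V hV hc)) hbV
      have hzero : ∀ S' : Multiset (ZMod m),
          (∀ V ⊆ m.primeFactors.erase 2, V.card = n → b V ≠ 0 →
            Even (S'.filter fun x => Odd (addOrderOf x) ∧
              Bel V (addOrderOf x).primeFactors).card) →
          (S'.map (vl fun T => b T - ∑ V ∈ (m.primeFactors.erase 2).powersetCard n,
            if Bel V T then b V else 0)).sum = (S'.map (vl b)).sum := by
        intro S' hS'
        rw [indc_sum_sub, sum_eq_zero, sub_zero]
        intro V hV
        rw [mem_powersetCard] at hV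
        exact indc_count_zero (h2 V) (hS' V hV.1 hV.2)
      rw [← hzero S fun V hV hc hbV => hS V hV (hc ▸ hodd) (hchi V hV hc hbV)
        fun hA => hbV (hAM V hV (hne V hc) hA)]
      refine ih (n + 1) (by omega) hP' _ ?_ ?_ ?_ ?_
      · intro T
        rw [nsmul_sub, h2, smul_sum, sum_eq_zero, sub_zero]
        intro V _
        split_ifs
        · exact h2 V
        · exact nsmul_zero 2
      · intro H h0 hHe hH
        rw [hzero H fun V hV hc hbV => tf_even hm (indc_prime hm hV) (hc ▸ hodd)
          (hchi V hV hc hbV) (hodge_tw V h0 hH)]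
        exact hX H h0 hHe hH
      · intro T hT hTn hA
        rw [hAM T hT hTn hA, sum_eq_zero, sub_zero]
        intro V hV
        rw [mem_powersetCard] at hV
        split_ifs with h
        · exact hAM V hV.1 (hne V hV.2) (hmono V T h.1 hA)
        · rfl
      · intro T hT hc
        by_cases hc' : T.card < n
        · rw [hb T hT hc', sum_eq_zero, sub_zero]
          intro V hV
          rw [mem_powersetCard] at hV
          refine if_neg fun h => ?_
          have := card_le_card h.1
          omega
        · have hcn : T.card = n := by omega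
          rw [sum_eq_single T, if_pos ⟨subset_rfl, fun q hq hq' => absurd hq hq'⟩, sub_self]
          · intro V hV hVT
            rw [mem_powersetCard] at hV
            refine if_neg fun h => hVT ?_
            exact eq_of_subset_of_card_le h.1 (by omega)
          · intro hT'
            exact absurd (mem_powersetCard.2 ⟨hT, hcn⟩) hT'

open Classical in
theorem ind_c {m : ℕ} [NeZero m] (hm : ∀ r : ℕ, r.Prime → r ∣ m → r % 4 ≠ 1)
    (h4 : 2 ∣ m → 4 ∣ m) {B : Type} [AddCommGroup B] {b : Finset ℕ → B} (h0 : b ∅ = 0)
    (h2 : ∀ V, 2 • b V = 0) (hX : X1 m b) (AM : Finset ℕ → Prop)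
    (hmono : ∀ V V' : Finset ℕ, V ⊆ V' → AM V' → AM V)
    (hAM : ∀ V ⊆ m.primeFactors.erase 2, V.Nonempty → AM V → b V = 0) (S : Multiset (ZMod m))
    (hS : ∀ V ⊆ m.primeFactors.erase 2, Odd V.card → (2 ∣ m → chiT V 2 = 1) → ¬ AM V →
      Even (S.filter fun x => Odd (addOrderOf x) ∧ Bel V (addOrderOf x).primeFactors).card) :
    (S.map (vl b)).sum = 0 := by
  refine indc_aux hm h4 AM hmono S hS (m.primeFactors.erase 2).card 1 le_rfl (by omega) b h2 hX
    hAM ?_
  intro V _ hc
  have hV : V = ∅ := card_eq_zero.1 (by omega)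
  rw [hV, h0]

end Pool.Agent.FT
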