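import Pool.Agent.FT.Quot
import Pool.Agent.FT.Mono
import Pool.Agent.FT.Base

/-!
# FT-Lim: the limit over all levels prime to `p`

The groups of `exists_B` for all levels prime to `p`, modulo the families which vanish at all
multiples of some level.
-/

set_option autoImplicit false

namespace Pool.Agent.FT

open Finset
open Pool.Agent.Helper9.Fermat (fib mem_fib)
open Pool.Agent.FS (IsHodge emb)

/-- Odd distributions of all levels prime to `p`, compatible and invariant under `p`, which vanish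
on the system and detect it in the limit. -/
structure Lim [Flag] (p : ℕ) {B : Type} [AddCommGroup B] (f : ∀ m : ℕ, ZMod m → B) : Prop where
  dist : ∀ (m : ℕ) [NeZero m], m.Coprime p → ODist m (f m)
  inv : ∀ (m : ℕ) [NeZero m], m.Coprime p → ∀ x, f m ((p : ZMod m) * x) = f m x
  up : ∀ (m M : ℕ) [NeZero m] [NeZero M], m ∣ M → M.Coprime p → ∀ x, f M (emb M m x) = f m x
  alg : ∀ (m : ℕ) [NeZero m], m.Coprime p → ∀ S, Alg p m S → (S.map (f m)).sum = 0
  zero : ∀ (m : ℕ) [NeZero m], m.Coprime p → ∀ S : Multiset (ZMod m), (0 : ZMod m) ∉ S →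
    Even S.card → S.sum = 0 → (S.map (f m)).sum = 0 → Inf p m S 1

/-- the levels -/
private abbrev LimI (p : ℕ) : Type := {M : ℕ // 1 < M ∧ M.Coprime p}

private instance limNeZero {p : ℕ} (i : LimI p) : NeZero i.1 := ⟨by have := i.2.1; omega⟩

private def limMul {p : ℕ} (i j : LimI p) : LimI p :=
  ⟨i.1 * j.1, one_lt_mul'' i.2.1 j.2.1, Nat.Coprime.mul_left i.2.2 j.2.2⟩

private def limOf (p : ℕ) (hp : p.Prime) (m : ℕ) (hm : m ≠ 0) (hmp : m.Coprime p) : LimI p :=
  ⟨m * (p + 1), by
    have h1 := hp.one_lt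
    have h2 : 1 ≤ m := Nat.one_le_iff_ne_zero.2 hm
    nlinarith, Nat.Coprime.mul_left hmp (by simp)⟩

private theorem lim_unit {p : ℕ} (i : LimI p) : IsUnit (p : ZMod i.1) := by
  rw [ZMod.isUnit_iff_coprime]
  exact i.2.2.symm

section fam

variable {p : ℕ} {B : LimI p → Type} [∀ i, AddCommGroup (B i)]

/-- the families which vanish at all multiples of some level -/
private def limK (i₁ : LimI p) : AddSubgroup (∀ i : LimI p, B i) where
  carrier := {b | ∃ i₀ : LimI p, ∀ i : LimI p, i₀.1 ∣ i.1 → b i = 0}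
  zero_mem' := ⟨i₁, fun _ _ => rfl⟩
  add_mem' := by
    rintro a b ⟨i, hi⟩ ⟨j, hj⟩
    refine ⟨limMul i j, fun k hk => ?_⟩
    have h1 : i.1 ∣ k.1 := (dvd_mul_right i.1 j.1).trans hk
    have h2 : j.1 ∣ k.1 := (dvd_mul_left j.1 i.1).trans hk
    rw [Pi.add_apply, hi k h1, hj k h2, add_zero]
  neg_mem' := by
    rintro a ⟨i, hi⟩
    exact ⟨i, fun k hk => by rw [Pi.neg_apply, hi k hk, neg_zero]⟩

private noncomputable def limFam (f : ∀ i : LimI p, ZMod i.1 → B i) (m : ℕ) (x : ZMod m) :
    ∀ i : LimI p, B i :=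
  fun i => if m ∣ i.1 then f i (emb i.1 m x) else 0

private theorem limFam_sum (f : ∀ i : LimI p, ZMod i.1 → B i) (m : ℕ) (S : Multiset (ZMod m))
    (i : LimI p) : (S.map (limFam f m)).sum i = (S.map fun x => limFam f m x i).sum := by
  have h := (Pi.evalAddMonoidHom B i).map_multiset_sum (S.map (limFam f m))
  rw [Multiset.map_map] at h
  exact h

private theorem limMk_sum (f : ∀ i : LimI p, ZMod i.1 → B i) (i₁ : LimI p) (m : ℕ)
    (S : Multiset (ZMod m)) :
    (S.map fun x => QuotientAddGroup.mk' (limK i₁) (limFam f m x)).sum =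
      QuotientAddGroup.mk' (limK i₁) (S.map (limFam f m)).sum := by
  rw [map_multiset_sum, Multiset.map_map]
  rfl

end fam

theorem exists_lim [Flag] (p : ℕ) (hp : p.Prime) :
    ∃ (B : Type) (_ : AddCommGroup B) (f : ∀ m : ℕ, ZMod m → B), Lim p f := by
  classical
  choose B inst f hf hfp hf0 hf1 using fun i : LimI p => exists_B p i.1 i.2.1 (lim_unit i)
  let i₁ : LimI p := limOf p hp 1 one_ne_zero (Nat.coprime_one_left p)
  refine ⟨(∀ i : LimI p, B i) ⧸ (limK (B := B) i₁), inferInstance,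
    fun m x => QuotientAddGroup.mk' (limK (B := B) i₁) (limFam f m x), ?_⟩
  have hmk : ∀ {a b : ∀ i : LimI p, B i}, (∃ i₀ : LimI p, ∀ i : LimI p, i₀.1 ∣ i.1 → a i = b i) →
      QuotientAddGroup.mk' (limK (B := B) i₁) a = QuotientAddGroup.mk' (limK (B := B) i₁) b := by
    rintro a b ⟨i₀, h⟩
    rw [QuotientAddGroup.mk'_apply, QuotientAddGroup.mk'_apply, QuotientAddGroup.eq]
    refine ⟨i₀, fun i hi => ?_⟩
    rw [Pi.add_apply, Pi.neg_apply, h i hi, neg_add_cancel]
  refine ⟨?_, ?_, ?_, ?_, ?_⟩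
  · intro m _ hm
    refine ⟨?_, ?_, ?_⟩
    · rw [← map_zero (QuotientAddGroup.mk' (limK (B := B) i₁))]
      refine hmk ⟨i₁, fun i _ => ?_⟩
      unfold limFam
      split_ifs with h
      · exact ((hf i).restr h).zero
      · rfl
    · intro x
      rw [← map_neg]
      refine hmk ⟨i₁, fun i _ => ?_⟩
      rw [Pi.neg_apply]
      unfold limFam
      split_ifs with h
      · exact ((hf i).restr h).odd x
      · rw [neg_zero]
    · intro r hr hrm y
      rw [← map_sum]
      refine hmk ⟨i₁, fun i _ => ?_⟩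
      rw [Finset.sum_apply]
      unfold limFam
      split_ifs with h
      · exact ((hf i).restr h).dist r hr hrm y
      · exact sum_const_zero
  · intro m _ hm x
    refine hmk ⟨i₁, fun i _ => ?_⟩
    unfold limFam
    split_ifs with h
    · rw [emb_mul h, hfp]
    · rfl
  · intro m M _ _ hmM hMp x
    refine hmk ⟨limOf p hp M (NeZero.ne M) hMp, fun i hi => ?_⟩
    have h1 : M ∣ i.1 := (dvd_mul_right M (p + 1)).trans hi
    unfold limFam
    rw [if_pos h1, if_pos (hmM.trans h1), emb_emb hmM h1]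
  · intro m _ hm S hS
    rw [limMk_sum, ← map_zero (QuotientAddGroup.mk' (limK (B := B) i₁))]
    refine hmk ⟨i₁, fun i _ => ?_⟩
    rw [limFam_sum]
    unfold limFam
    split_ifs with h
    · have h1 := hf0 i _ (alg_up h i.2.2 hS)
      rw [Multiset.map_map] at h1
      exact h1
    · simp
  · intro m _ hm S h0 hc hs hz
    rw [limMk_sum, QuotientAddGroup.mk'_apply, QuotientAddGroup.eq_zero_iff] at hz
    obtain ⟨i₀, hi₀⟩ := hz
    set j : LimI p := limMul i₀ (limOf p hp m (NeZero.ne m) hm) with hj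
    have hmj : m ∣ j.1 := (dvd_mul_right m (p + 1)).trans (dvd_mul_left _ _)
    have h1 := hi₀ j (dvd_mul_right _ _)
    rw [limFam_sum] at h1
    unfold limFam at h1
    simp only [if_pos hmj] at h1
    refine ⟨j.1, inferInstance, hmj, j.2.2, ?_⟩
    rw [one_nsmul]
    refine hf1 j _ ?_ ?_ ?_ ?_
    · have := zero_notMem_emb hmj h0 1
      rwa [one_nsmul] at this
    · rw [Multiset.card_map]
      exact hc
    · rw [emb_sum hmj, hs, emb_zero hmj]
    · rw [Multiset.map_map]
      exact h1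

theorem Lim.inf [Flag] {p : ℕ} {B : Type} [AddCommGroup B] {f : ∀ m : ℕ, ZMod m → B} (hL : Lim p f)
    {m : ℕ} [NeZero m] (hmp : m.Coprime p) {S : Multiset (ZMod m)} {N : ℕ} (h : Inf p m S N) :
    N • (S.map (f m)).sum = 0 := by
  obtain ⟨M, _, hmM, hMp, hA⟩ := h
  have h1 := hL.alg M hMp _ hA
  rw [Multiset.map_nsmul, Multiset.sum_nsmul, Multiset.map_map] at h1
  rw [← h1]
  congr 2
  exact Multiset.map_congr rfl fun x _ => (hL.up m M hmM hMp x).symm

end Pool.Agent.FT
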