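import Pool.Agent.FT.Cur

/-!
# FT-SqP: auxiliary primes

`exists_sq`: for `p = 2` the residue of `s` modulo `8` is `5`, for odd `p` it is `1` modulo `8` and a
nonresidue modulo `p`, and `-1` modulo the prime divisors `3` modulo `4` of `m`; Chinese remainders and
the theorem of Dirichlet. `exists_q'`: `exists_q` for odd `p`, and `3` for `p = 2`.
-/

set_option autoImplicit false

namespace Pool.Agent.FT.Sq

open Finset Pool.Agent.FS Pool.Agent.FQ

private theorem sqp_dir {A R a : ℕ} (hAR : A.Coprime R) (hA : A ≠ 0) (hR : R ≠ 0)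
    (ha : a.Coprime A) (B : ℕ) :
    ∃ s : ℕ, s.Prime ∧ B < s ∧ s ≡ a [MOD A] ∧ s ≡ R - 1 [MOD R] := by
  obtain ⟨x, hxA, hxR⟩ := Nat.chineseRemainder hAR a (R - 1)
  have : NeZero (A * R) := ⟨mul_ne_zero hA hR⟩
  have hx : IsUnit ((x : ℕ) : ZMod (A * R)) := by
    rw [ZMod.isUnit_iff_coprime]
    refine Nat.Coprime.mul_right ?_ ?_
    · rw [Nat.Coprime, hxA.gcd_eq]
      exact ha
    · rw [Nat.Coprime, hxR.gcd_eq]
      obtain ⟨k, rfl⟩ := Nat.exists_eq_succ_of_ne_zero hR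
      simp
  obtain ⟨s, hsB, hs, hsx⟩ := Nat.forall_exists_prime_gt_and_eq_mod hx B
  have h3 : s ≡ x [MOD A * R] := (ZMod.natCast_eq_natCast_iff _ _ _).1 hsx
  exact ⟨s, hs, hsB, (h3.of_mul_right R).trans hxA, (h3.of_mul_left A).trans hxR⟩

private theorem sqp_three {R s r : ℕ} (hR : R ≠ 0) (hs : s ≡ R - 1 [MOD R]) (hr : r ∣ R)
    (h4 : r % 4 = 3) : chi r s = -1 := by
  have h2 : r ≠ 2 := by omega
  have hodd : Odd r := Nat.odd_iff.2 (by omega)
  unfold chi
  rw [if_neg h2]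
  have h1 : s + 1 ≡ R - 1 + 1 [MOD r] := (hs.of_dvd hr).add_right 1
  rw [Nat.sub_add_cancel (Nat.one_le_iff_ne_zero.2 hR)] at h1
  have h3 : r ∣ s + 1 := by
    rw [← Nat.modEq_zero_iff_dvd]
    exact h1.trans ((Nat.modEq_zero_iff_dvd).2 hr)
  have h5 : ((s : ℤ)) % (r : ℤ) = (-1) % (r : ℤ) := by
    apply Int.emod_emod_of_dvd _ (dvd_refl _) |>.symm.trans
    rw [Int.emod_emod_of_dvd _ (dvd_refl _)]
    apply Int.ModEq.symm
    rw [Int.modEq_iff_dvd]
    have : ((r : ℤ)) ∣ ((s + 1 : ℕ) : ℤ) := Int.natCast_dvd_natCast.2 h3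
    simpa using this
  rw [jacobiSym.mod_left' h5, jacobiSym.at_neg_one hodd, ZMod.χ₄_nat_three_mod_four h4]

theorem exists_sq {p : ℕ} (hp : p.Prime) {m : ℕ} (hm : m ≠ 0) (hmp : m.Coprime p) :
    ∃ s : ℕ, s.Prime ∧ s % 4 = 1 ∧ s ≠ p ∧ chi s p = -1 ∧
      ∀ r : ℕ, r.Prime → r ∣ m → r % 4 = 3 → chi r s = -1 := by
  classical
  set F : Finset ℕ := m.primeFactors.filter (fun r => r % 4 = 3) with hF
  set R : ℕ := ∏ r ∈ F, r with hRdef
  have hFp : ∀ r ∈ F, r.Prime ∧ r ∣ m ∧ r % 4 = 3 := by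
    intro r hr
    rw [hF, mem_filter, Nat.mem_primeFactors] at hr
    exact ⟨hr.1.1, hr.1.2.1, hr.2⟩
  have hR : R ≠ 0 := Finset.prod_ne_zero_iff.2 fun r hr => (hFp r hr).1.ne_zero
  have hR8 : Nat.Coprime 8 R := by
    have h2 : Nat.Coprime 2 R := by
      refine Nat.Coprime.prod_right fun r hr => ?_
      rw [Nat.coprime_two_left, Nat.odd_iff]
      have := (hFp r hr).2.2
      omega
    exact Nat.Coprime.pow_left 3 h2
  have hRp : Nat.Coprime p R :=
    Nat.Coprime.prod_right fun r hr => (Nat.Coprime.coprime_dvd_left (hFp r hr).2.1 hmp).symm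
  have hlast : ∀ s : ℕ, s ≡ R - 1 [MOD R] →
      ∀ r : ℕ, r.Prime → r ∣ m → r % 4 = 3 → chi r s = -1 := by
    intro s hs r hr hrm h4
    refine sqp_three hR hs (Finset.dvd_prod_of_mem _ ?_) h4
    rw [hF, mem_filter, Nat.mem_primeFactors]
    exact ⟨⟨hr, hrm, hm⟩, h4⟩
  by_cases hp2 : p = 2
  · obtain ⟨s, hs, hsB, hsA, hsR⟩ := sqp_dir (a := 5) hR8 (by norm_num) hR (by norm_num) p
    have h8 : s % 8 = 5 := hsA
    refine ⟨s, hs, by omega, by omega, ?_, hlast s hsR⟩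
    have h2 : s ≠ 2 := by omega
    unfold chi
    rw [if_neg h2, hp2]
    have hodd : Odd s := Nat.odd_iff.2 (by omega)
    have h3 := jacobiSym.at_two hodd
    rw [ZMod.χ₈_nat_eq_if_mod_eight, if_neg (by omega), if_neg (by omega)] at h3
    exact_mod_cast h3
  · have : Fact p.Prime := ⟨hp⟩
    obtain ⟨a, ha⟩ := FiniteField.exists_nonsquare (F := ZMod p) (by
      rw [ZMod.ringChar_zmod_n]; exact hp2)
    have hcop : Nat.Coprime 8 p := by
      have : Nat.Coprime 2 p := (Nat.coprime_primes Nat.prime_two hp).2 (Ne.symm hp2)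
      exact Nat.Coprime.pow_left 3 this
    obtain ⟨c, hc8, hcp⟩ := Nat.chineseRemainder hcop 1 a.val
    have hcc : Nat.Coprime c (8 * p) := by
      refine Nat.Coprime.mul_right ?_ ?_
      · rw [Nat.Coprime, hc8.gcd_eq]
        norm_num
      · rw [Nat.Coprime, hcp.gcd_eq]
        refine ((Nat.Prime.coprime_iff_not_dvd hp).2 fun hd => ?_).symm
        apply ha
        have h5 : a = 0 := by
          rw [← ZMod.natCast_zmod_val a, ZMod.natCast_eq_zero_iff]
          exact hd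
        rw [h5]
        exact IsSquare.zero
    obtain ⟨s, hs, hsB, hsA, hsR⟩ := sqp_dir (A := 8 * p) (a := c)
      (Nat.Coprime.mul_left hR8 hRp) (mul_ne_zero (by norm_num) hp.ne_zero) hR hcc p
    have h8 : s % 8 = 1 := (hsA.of_mul_right p).trans hc8
    have hsp : s ≡ a.val [MOD p] := (hsA.of_mul_left 8).trans hcp
    have h4 : s % 4 = 1 := by omega
    refine ⟨s, hs, h4, by omega, ?_, hlast s hsR⟩
    have h2 : s ≠ 2 := by omega
    unfold chi
    rw [if_neg h2]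
    have hpo : Odd p := hp.odd_of_ne_two hp2
    rw [← jacobiSym.quadratic_reciprocity_one_mod_four h4 hpo]
    have h5 : ((s : ℕ) : ZMod p) = a := by
      rw [← ZMod.natCast_zmod_val a]
      exact (ZMod.natCast_eq_natCast_iff _ _ _).2 hsp
    rw [← jacobiSym.legendreSym.to_jacobiSym, legendreSym.eq_neg_one_iff]
    rw [show (((s : ℕ) : ℤ) : ZMod p) = a by push_cast; exact h5]
    exact ha

theorem exists_q' {p : ℕ} (hp : p.Prime) :
    ∃ q : ℕ, q.Prime ∧ q % 8 = 3 ∧ q ≠ p ∧ jacobiSym p q = -1 := by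
  by_cases hp2 : p = 2
  · refine ⟨3, Nat.prime_three, by norm_num, by omega, ?_⟩
    rw [hp2]
    have h3 := jacobiSym.at_two (b := 3) (by decide)
    rw [ZMod.χ₈_nat_eq_if_mod_eight, if_neg (by omega), if_neg (by omega)] at h3
    exact_mod_cast h3
  · obtain ⟨q, hq, hpq, h8, hj⟩ := exists_q hp hp2 p
    exact ⟨q, hq, h8, by omega, hj⟩

end Pool.Agent.FT.Sq
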