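import Pool.Agent.FT.SqS

/-!
# FT-SqV: the sets of primes `3` modulo `4`

`b_type1`: the values `b V` vanish for every non-empty set `V` of primes `3` modulo `4` dividing `n`
at which a prime `s = 1` modulo `4` with `chi s p = -1` is a non-residue. The proof is a strong
induction on `V`: if `V.card` is even or `chiT V p = -1`, the relation `sq_main` is used for the set
`V` itself, otherwise for `insert s V`.
-/

set_option autoImplicit false

namespace Pool.Agent.FT.Sq

open Finset Pool.Agent.FS Pool.Agent.FQ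
open Pool.Agent.FF

private theorem sqv_odd {B : Type} [AddCommGroup B] {x : B} (h2 : 2 • x = 0) {k : ℕ}
    (hk : Odd k) (h : k • x = 0) : x = 0 := by
  obtain ⟨j, rfl⟩ := hk
  rw [add_smul, one_smul, mul_comm, mul_smul, h2, smul_zero, zero_add] at h
  exact h

private theorem sqv_unit {T : Finset ℕ} {w : ℕ} (hT : ∀ l ∈ T, l.Prime ∧ w.Coprime l) :
    chiT T w = 1 ∨ chiT T w = -1 := by
  unfold chiT
  induction T using Finset.induction_on with
  | empty => left; rw [prod_empty]
  | insert a T ha ih =>
    rw [prod_insert ha]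
    have h1 := chi_sq (hT a (mem_insert_self a T)).1 (hT a (mem_insert_self a T)).2
    have h2 := ih fun l hl => hT l (mem_insert_of_mem hl)
    rcases h1 with h1 | h1 <;> rcases h2 with h2 | h2 <;> rw [h1, h2] <;> norm_num

theorem b_type1 [Flag] (hZ : Flag.z) {p n : ℕ} [NeZero n] (hn : Odd n) (hnp : n.Coprime p) {B : Type}
    [AddCommGroup B] {b : Finset ℕ → B} (h2 : ∀ V, 2 • b V = 0)
    (hb : ∀ S : Multiset (ZMod n), Alg p n S → TateN p S → (S.map (vl b)).sum = 0)
    {q : ℕ} (hq : q.Prime) (hq4 : q % 4 = 3) (hqn : q ∣ n) (hqp : chiT {q} p = -1)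
    (hbq : b {q} = 0) {s : ℕ} (hs : s.Prime) (hs4 : s % 4 = 1) (hsn : s ∣ n)
    (hsp : chi s p = -1) {V : Finset ℕ} (hne : V.Nonempty)
    (hV : ∀ r ∈ V, r.Prime ∧ r % 4 = 3 ∧ r ∣ n ∧ chi r s = -1) : b V = 0 := by
  classical
  have hpf : (p : ZMod n) ^ orderOf (p : ZMod n) = 1 := pow_orderOf_eq_one _
  have hbo : ∀ l : ℕ, l ≠ 2 → Pool.Agent.FS.hb l = l := fun l hl => by
    unfold Pool.Agent.FS.hb
    rw [if_neg hl]
  revert hne hV
  induction V using Finset.strongInduction with
  | H V ih =>
    intro hne hV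
    have hV2 : ∀ l ∈ V, l ≠ 2 := by
      intro l hl h
      have := (hV l hl).2.1
      omega
    have hqv : ∀ T, T ⊂ V → T.Nonempty → ∑ x ∈ QS n T, vl b x = 0 := by
      intro T hT hTne
      rw [qs_vl b fun l hl => ⟨(hV l (hT.1 hl)).1, hV2 l (hT.1 hl), (hV l (hT.1 hl)).2.2.1⟩]
      rw [ih T hT hTne fun r hr => hV r (hT.1 hr), smul_zero]
    have hqV : ∑ x ∈ QS n V, vl b x = (QS n V).card • b V :=
      qs_vl b fun l hl => ⟨(hV l hl).1, hV2 l hl, (hV l hl).2.2.1⟩
    have hodd : Odd (QS n V).card := qs_odd fun l hl => ⟨(hV l hl).1, (hV l hl).2.1,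
      (hV l hl).2.2.1⟩
    by_cases hcase : Even V.card ∨ chiT V p = -1
    · -- the set itself
      have hR : ∀ l ∈ V, l.Prime ∧ Pool.Agent.FS.hb l ∣ n := fun l hl =>
        ⟨(hV l hl).1, by rw [hbo l (hV2 l hl)]; exact (hV l hl).2.2.1⟩
      have haa : ∀ t : (ZMod n)ˣ, aa (Wt n p (orderOf (p : ZMod n)) t) V = 0 := by
        intro t
        rcases hcase with he | hp
        · exact aa_even (wt_neg t) (fun l hl => ⟨⟨(hV l hl).1, Or.inr (hV l hl).2.1⟩,
            (hR l hl).2⟩) he
        · exact aa_p hnp (wt_p hpf t) hR hp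
      obtain ⟨d, d1, d2, d3, d4⟩ := sq_closure V hR
      have hm := sq_main hZ hn hnp h2 hb hq hq4 hqn hqp hbq
        (fun l hl => ⟨(hV l hl).1, (hV l hl).2.2.1⟩) haa d4
      rw [Finset.sum_eq_single V] at hm
      · rw [d1, one_smul, hqV] at hm
        exact sqv_odd (h2 V) hodd hm
      · intro T hT hTV
        rw [mem_erase, mem_powerset] at hT
        rw [hqv T (hT.2.ssubset_of_ne hTV) (nonempty_iff_ne_empty.2 hT.1), smul_zero]
      · intro h
        exact absurd (mem_erase.2 ⟨hne.ne_empty, mem_powerset_self V⟩) h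
    · -- add the prime `s`
      push Not at hcase
      have hoddV : Odd V.card := Nat.not_even_iff_odd.1 hcase.1
      have hsV : s ∉ V := fun h => by
        have := (hV s h).2.1
        omega
      have hs2 : s ≠ 2 := fun h => by omega
      have hcp : chiT V p = 1 := by
        rcases sqv_unit (T := V) (w := p) fun l hl =>
          ⟨(hV l hl).1, (hnp.coprime_dvd_left (hV l hl).2.2.1).symm⟩ with h | h
        · exact h
        · exact absurd h hcase.2
      have hcs : chiT V s = -1 := by
        unfold chiT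
        rw [prod_congr rfl fun r hr => (hV r hr).2.2.2, prod_const, hoddV.neg_one_pow]
      have hRp : ∀ l ∈ insert s V, l.Prime ∧ l ≠ 2 ∧ l ∣ n := by
        intro l hl
        rw [mem_insert] at hl
        rcases hl with rfl | hl
        · exact ⟨hs, hs2, hsn⟩
        · exact ⟨(hV l hl).1, hV2 l hl, (hV l hl).2.2.1⟩
      have hR : ∀ l ∈ insert s V, l.Prime ∧ Pool.Agent.FS.hb l ∣ n := fun l hl =>
        ⟨(hRp l hl).1, by rw [hbo l (hRp l hl).2.1]; exact (hRp l hl).2.2⟩
      have hcR : chiT (insert s V) p = -1 := by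
        have h1 : chiT (insert s V) p = chi s p * chiT V p := by
          unfold chiT
          rw [prod_insert hsV]
        rw [h1, hsp, hcp]
        norm_num
      obtain ⟨d, d1, d2, d3, d4⟩ := sq_closure (insert s V) hR
      have hm := sq_main hZ hn hnp h2 hb hq hq4 hqn hqp hbq
        (fun l hl => ⟨(hRp l hl).1, (hRp l hl).2.2⟩)
        (fun t => aa_p hnp (wt_p hpf t) hR hcR) d4
      have hdV : d V = -1 := by
        have h1 := d3 s (mem_insert_self s V)
        rw [erase_insert hsV, hcs] at h1
        omega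
      rw [Finset.sum_eq_single V] at hm
      · rw [hdV, neg_smul, one_smul, neg_eq_zero, hqV] at hm
        exact sqv_odd (h2 V) hodd hm
      · intro T hT hTV
        rw [mem_erase, mem_powerset] at hT
        by_cases hsT : s ∈ T
        · rw [qs_even h2 (fun l hl => hRp l (hT.2 hl)) hsT hs4, smul_zero]
        · have hTV' : T ⊆ V := by
            intro l hl
            have h1 := hT.2 hl
            rw [mem_insert] at h1
            rcases h1 with rfl | h1
            · exact absurd hl hsT
            · exact h1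
          rw [hqv T (hTV'.ssubset_of_ne hTV) (nonempty_iff_ne_empty.2 hT.1), smul_zero]
      · intro h
        exact absurd (mem_erase.2 ⟨hne.ne_empty, mem_powerset.2 (subset_insert s V)⟩) h

end Pool.Agent.FT.Sq
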