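import Pool.Agent.FT.BBx
import Pool.Agent.FT.SqV
import Pool.Agent.FT.SqP
import Pool.Agent.FT.NV

/-!
# FT-MainD: Tate characters in all characteristics and of all levels
-/

set_option autoImplicit false

namespace Pool.Agent.FT

open Finset
open Pool.Agent.FS (IsHodge emb sw rr hb)
open Pool.Agent.FQ (chiT QS nR PPr)

theorem vl_count {B : Type} [AddCommGroup B] (b : Finset ℕ → B) {m : ℕ} [NeZero m]
    (S : Multiset (ZMod m)) :
    (S.map (vl b)).sum = ∑ V ∈ (m.primeFactors.erase 2).powerset, nV S V • b V := by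
  classical
  induction S using Multiset.induction_on with
  | empty => simp [nV]
  | cons x S ih =>
    rw [Multiset.map_cons, Multiset.sum_cons, ih]
    by_cases h : Odd (addOrderOf x)
    · have hV : (addOrderOf x).primeFactors ∈ (m.primeFactors.erase 2).powerset := by
        rw [mem_powerset]
        intro r hr
        rw [mem_erase]
        refine ⟨?_, Nat.primeFactors_mono (order_dvd x) (NeZero.ne m) hr⟩
        rintro rfl
        exact (Nat.not_even_iff_odd.2 h) (even_iff_two_dvd.2 (Nat.dvd_of_mem_primeFactors hr))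
      rw [vl_odd h, ← add_sum_erase _ _ hV, ← add_sum_erase _ _ hV, ← add_assoc]
      congr 1
      · unfold nV
        rw [Multiset.filter_cons_of_pos (p := fun y : ZMod m => Odd (addOrderOf y) ∧
          (addOrderOf y).primeFactors = (addOrderOf x).primeFactors) S ⟨h, rfl⟩,
          Multiset.card_cons, succ_nsmul, add_comm]
      · refine sum_congr rfl fun V hV' => ?_
        unfold nV
        rw [Multiset.filter_cons_of_neg (p := fun y : ZMod m => Odd (addOrderOf y) ∧
          (addOrderOf y).primeFactors = V) S fun h' => (ne_of_mem_erase hV') h'.2.symm]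
    · rw [vl_even (Nat.not_odd_iff_even.1 h), zero_add]
      refine sum_congr rfl fun V _ => ?_
      unfold nV
      rw [Multiset.filter_cons_of_neg (p := fun y : ZMod m => Odd (addOrderOf y) ∧
        (addOrderOf y).primeFactors = V) S fun h' => h h'.1]

theorem nV_empty {m : ℕ} {S : Multiset (ZMod m)} (h0 : (0 : ZMod m) ∉ S) : nV S ∅ = 0 := by
  classical
  unfold nV
  rw [Multiset.card_eq_zero, Multiset.filter_eq_nil]
  rintro x hx ⟨h1, h2⟩
  rw [Nat.primeFactors_eq_empty] at h2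
  rcases h2 with h2 | h2
  · rw [h2] at h1
    exact absurd h1 (by decide)
  · rw [AddMonoid.addOrderOf_eq_one_iff] at h2
    exact h0 (h2 ▸ hx)

/-- the Hodge characters of a level with allowed primes -/
theorem bb_x1 [Flag] (hZ : Flag.z) {p M : ℕ} {B : Type} [AddCommGroup B] {b : Finset ℕ → B} (hb : BB p M b)
    (hMp : M.Coprime p) {m : ℕ} [NeZero m] (h : m ∣ M) (hA : Allowed (prA m)) : X1 m b := by
  intro H h0 hc hH
  exact hb.alg m h H (hodge_alg hZ p m hA H h0 hc hH)
    (hodge_tate (Nat.Coprime.coprime_dvd_left h hMp) hH)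

private theorem mnd_hodge {n : ℕ} [NeZero n] (l : List ℕ)
    (h : ∀ t < n, t.Coprime n → 2 * (l.map fun a => (t * a) % n).sum = n * l.length) :
    IsHodge (Multiset.ofList (l.map fun a : ℕ => (a : ZMod n))) := by
  intro t
  have h1 := h (t : ZMod n).val (ZMod.val_lt _) (ZMod.val_coe_unit_coprime t)
  rw [Multiset.map_coe, Multiset.sum_coe, Multiset.coe_card, List.length_map, List.map_map]
  have h2 : (l.map ((fun x => ((t : ZMod n) * x).val) ∘ fun a : ℕ => (a : ZMod n))) =
      l.map fun a => ((t : ZMod n).val * a) % n := by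
    refine List.map_congr_left fun a _ => ?_
    rw [Function.comp_apply, ZMod.val_mul, ZMod.val_natCast, Nat.mul_mod_mod]
  rw [h2]
  exact h1

private theorem mnd_vl {n : ℕ} [NeZero n] {B : Type} [AddCommGroup B]
    (b : Finset ℕ → B) (a : ℕ) :
    vl b (a : ZMod n) = if Odd (n / n.gcd a) then b (n / n.gcd a).primeFactors else 0 := by
  unfold vl
  rw [ZMod.addOrderOf_coe a (NeZero.ne n)]

/-- the Hodge character `{1, 10, 13, 18, 22, 28, 34, 37, 43, 49}` of level `51` -/
theorem b_17 {B : Type} [AddCommGroup B] {b : Finset ℕ → B} (hX : X1 51 b) (h3 : b {3} = 0)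
    (h51 : 2 • b {3, 17} = 0) : b {17} = 0 := by
  set l : List ℕ := [1, 18, 34, 49, 10, 13, 28, 22, 37, 43] with hl
  have h1 : (0 : ZMod 51) ∉ Multiset.ofList (l.map fun a : ℕ => (a : ZMod 51)) := by
    rw [hl]
    decide
  have h2 := hX (Multiset.ofList (l.map fun a : ℕ => (a : ZMod 51))) h1 (by
    rw [Multiset.coe_card, List.length_map, hl]
    decide) (mnd_hodge l (by rw [hl]; decide))
  rw [Multiset.map_coe, Multiset.sum_coe, List.map_map] at h2
  have h4 : l.map (vl b ∘ fun a : ℕ => (a : ZMod 51)) =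
      l.map fun a => if Odd (51 / Nat.gcd 51 a) then b (51 / Nat.gcd 51 a).primeFactors else 0 := by
    refine List.map_congr_left fun a _ => ?_
    rw [Function.comp_apply, mnd_vl]
  have f3 : Nat.primeFactors 3 = {3} := Nat.Prime.primeFactors (by norm_num)
  have f17 : Nat.primeFactors 17 = {17} := Nat.Prime.primeFactors (by norm_num)
  have f51 : Nat.primeFactors 51 = {3, 17} := by
    have h5 : (51 : ℕ) = 3 * 17 := by norm_num
    rw [h5, Nat.primeFactors_mul (by norm_num) (by norm_num), f3, f17]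
    rfl
  have g1 : 51 / Nat.gcd 51 1 = 51 := by decide
  have g2 : 51 / Nat.gcd 51 18 = 17 := by decide
  have g3 : 51 / Nat.gcd 51 34 = 3 := by decide
  have g4 : 51 / Nat.gcd 51 49 = 51 := by decide
  have g5 : 51 / Nat.gcd 51 10 = 51 := by decide
  have g6 : 51 / Nat.gcd 51 13 = 51 := by decide
  have g7 : 51 / Nat.gcd 51 28 = 51 := by decide
  have g8 : 51 / Nat.gcd 51 22 = 51 := by decide
  have g9 : 51 / Nat.gcd 51 37 = 51 := by decide
  have g10 : 51 / Nat.gcd 51 43 = 51 := by decide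
  rw [h4, hl] at h2
  simp only [List.map_cons, List.map_nil, List.sum_cons, List.sum_nil, g1, g2, g3, g4, g5, g6, g7,
    g8, g9, g10, if_pos (show Odd 51 by decide), if_pos (show Odd 17 by decide),
    if_pos (show Odd 3 by decide), f3, f17, f51, h3] at h2
  have h6 : b {17} + (2 • b {3, 17} + 2 • b {3, 17} + 2 • b {3, 17} + 2 • b {3, 17}) = 0 := by
    rw [← h2]
    abel
  rw [h51] at h6
  simpa using h6

theorem allowed_pair {a r k : ℕ} (ha : a.Prime) (hr : r.Prime) (hk : k ≠ 0) (hna : Nice a)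
    (hnr : Nice r) : Allowed (prA (a ^ k * r)) := by
  have h1 : (a ^ k * r).primeFactors = {a, r} := by
    rw [Nat.primeFactors_mul (pow_ne_zero k ha.ne_zero) hr.ne_zero,
      Nat.primeFactors_prime_pow hk ha, hr.primeFactors]
    rfl
  have h2 : prA (a ^ k * r) ⊆ {a, r} := by
    rw [← h1]
    exact filter_subset _ _
  have h3 : ∀ x ∈ prA (a ^ k * r), Nice x := by
    intro x hx
    have h4 := h2 hx
    rw [mem_insert, mem_singleton] at h4
    rcases h4 with rfl | rfl
    · exact hna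
    · exact hnr
  refine Or.inr ⟨?_, fun x hx y hy _ => Or.inl ⟨h3 x hx, h3 y hy⟩⟩
  refine (card_le_card h2).trans ((card_insert_le _ _).trans ?_)
  rw [card_singleton]
  norm_num

theorem dvd_oc {p : ℕ} {d N : ℕ} (hd : d ∣ N)
    (hdp : d.Coprime p) : d ∣ ordCompl[p] N := by
  have h1 : d ∣ p ^ N.factorization p * ordCompl[p] N := by
    rwa [Nat.ordProj_mul_ordCompl_eq_self]
  exact (Nat.Coprime.pow_right _ hdp).dvd_of_dvd_mul_left h1

theorem main_all [Flag] (hZ : Flag.z) (p : ℕ) (hp : p.Prime) (m : ℕ) [NeZero m] (hmp : m.Coprime p)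
    (S : Multiset (ZMod m)) (h0 : (0 : ZMod m) ∉ S) (hc : Even S.card) (hs : S.sum = 0)
    (hT : TateN p S)
    (hV : ∀ V ⊆ m.primeFactors.erase 2, (∃ r ∈ V, r % 4 = 1) →
      (∀ i : ℕ, ¬ ∏ r ∈ V, r ∣ p ^ i + 1) → V ≠ {5} → V ≠ {13} → V ≠ {17} → Even (nV S V)) :
    Inf p m S 1 := by
  obtain ⟨q, hq, hq8, hqp, hjq⟩ := Sq.exists_q' hp
  have hm0 : m ≠ 0 := NeZero.ne m
  set m₁ : ℕ := m * (if p = 3 then 1 else 3) with hm₁
  have hm₁0 : m₁ ≠ 0 := by
    rw [hm₁]
    split_ifs <;> omega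
  have hm₁p : m₁.Coprime p := by
    rw [hm₁]
    split_ifs with h3
    · rwa [mul_one]
    · exact Nat.Coprime.mul_left hmp ((Nat.coprime_primes Nat.prime_three hp).2 (Ne.symm h3))
  obtain ⟨s, hsp, hs4, hsnp, hchi, hnr⟩ := Sq.exists_sq hp hm₁0 hm₁p
  set e : ℕ := ordCompl[p] 13260 with he
  have he0 : e ≠ 0 := (Nat.ordCompl_pos p (by norm_num)).ne'
  have hep : e.Coprime p := (Nat.coprime_ordCompl hp (by norm_num)).symm
  set M : ℕ := m * q * s * e with hM
  have hM0 : NeZero M := ⟨mul_ne_zero (mul_ne_zero (mul_ne_zero hm0 hq.ne_zero) hsp.ne_zero) he0⟩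
  have hMp : M.Coprime p :=
    Nat.Coprime.mul_left (Nat.Coprime.mul_left (Nat.Coprime.mul_left hmp
      ((Nat.coprime_primes hq hp).2 hqp)) ((Nat.coprime_primes hsp hp).2 hsnp)) hep
  have hmM : m ∣ M := Dvd.dvd.mul_right (Dvd.dvd.mul_right (dvd_mul_right _ _) _) _
  have hqM : q ∣ M := Dvd.dvd.mul_right (Dvd.dvd.mul_right (dvd_mul_left _ _) _) _
  have hsM : s ∣ M := Dvd.dvd.mul_right (dvd_mul_left _ _) _
  have heM : ∀ d : ℕ, d ∣ 13260 → d.Coprime p → d ∣ M := fun d hd hdp =>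
    Dvd.dvd.mul_left (dvd_oc hd hdp) _
  have h2p : p ≠ 2 → Nat.Coprime 2 p := fun h => (Nat.coprime_primes Nat.prime_two hp).2 (Ne.symm h)
  have h4M : p ≠ 2 → 4 ∣ M := fun h => heM 4 (by norm_num) (Nat.Coprime.pow_left 2 (h2p h))
  obtain ⟨B, _, b, hbb, hbq, hfin⟩ := exists_bb hZ hp hmM hMp hq hq8 hqM h4M
  refine hfin S h0 hc hs hT ?_
  rw [vl_count]
  -- the sets of primes which are not `1` modulo `4`
  set n : ℕ := ordCompl[2] M with hn
  have hn0 : NeZero n := ⟨(Nat.ordCompl_pos 2 hM0.out).ne'⟩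
  have hnM : n ∣ M := Nat.ordCompl_dvd M 2
  have hnodd : Odd n := (Nat.coprime_two_left).1 (Nat.coprime_ordCompl Nat.prime_two hM0.out)
  have hnp : n.Coprime p := Nat.Coprime.coprime_dvd_left hnM hMp
  have hdn : ∀ d : ℕ, d ∣ M → Odd d → d ∣ n := fun d hd hodd =>
    dvd_oc hd ((Nat.coprime_two_right).2 hodd)
  have hqodd : Odd q := by rw [Nat.odd_iff]; omega
  have hsodd : Odd s := by rw [Nat.odd_iff]; omega
  have hchq : chiT {q} p = -1 := by
    unfold chiT
    rw [prod_singleton]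
    unfold FQ.chi
    rw [if_neg (by rintro rfl; omega)]
    exact hjq
  have type1 : ∀ V : Finset ℕ, V.Nonempty → (∀ r ∈ V, r.Prime ∧ r % 4 = 3 ∧ r ∣ M ∧ r ∣ m₁) →
      b V = 0 := by
    intro V hne hV'
    refine Sq.b_type1 hZ (n := n) hnodd hnp hbb.two (hbb.alg n hnM) hq (by omega) (hdn q hqM hqodd)
      hchq hbq hsp hs4 (hdn s hsM hsodd) hchi hne fun r hr => ?_
    obtain ⟨h1, h2, h3, h4⟩ := hV' r hr
    exact ⟨h1, h2, hdn r h3 (by rw [Nat.odd_iff]; omega), hnr r h1 h4 h2⟩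
  refine sum_eq_zero fun V hVm => ?_
  rw [mem_powerset] at hVm
  have hVp : ∀ r ∈ V, r.Prime ∧ r ≠ 2 ∧ r ∣ m := by
    intro r hr
    have h1 := hVm hr
    rw [mem_erase] at h1
    exact ⟨Nat.prime_of_mem_primeFactors h1.2, h1.1, Nat.dvd_of_mem_primeFactors h1.2⟩
  rcases V.eq_empty_or_nonempty with rfl | hne
  · rw [nV_empty h0, zero_smul]
  by_cases h1 : ∃ r ∈ V, r % 4 = 1
  swap
  · rw [type1 V hne, smul_zero]
    intro r hr
    obtain ⟨h2, h3, h4⟩ := hVp r hr
    have h5 := h2.eq_two_or_odd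
    have h6 : r % 4 ≠ 1 := fun h => h1 ⟨r, hr, h⟩
    exact ⟨h2, by omega, h4.trans hmM, h4.mul_right _⟩
  by_cases h2 : ∃ i : ℕ, ∏ r ∈ V, r ∣ p ^ i + 1
  · obtain ⟨i, hi⟩ := h2
    rw [bb_am hp hMp (fun h => dvd_trans (by norm_num) (h4M h)) hbb hq (by omega) hqM hjq hbq hne
      (fun r hr => ⟨(hVp r hr).1, (hVp r hr).2.1, (hVp r hr).2.2.trans hmM⟩) hi, smul_zero]
  have h2' : ∀ i : ℕ, ¬ ∏ r ∈ V, r ∣ p ^ i + 1 := fun i hi => h2 ⟨i, hi⟩
  by_cases h5 : V = {5}
  · subst h5
    rw [prod_singleton] at h2'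
    have hp2 : p ≠ 2 := by
      rintro rfl
      exact h2' 2 (by norm_num)
    have h5p : Nat.Coprime 5 p := Nat.Coprime.coprime_dvd_left (hVp 5 (mem_singleton_self 5)).2.2 hmp
    have h20 : 20 ∣ M := heM 20 (by norm_num)
      (show Nat.Coprime (4 * 5) p from Nat.Coprime.mul_left (Nat.Coprime.pow_left 2 (h2p hp2)) h5p)
    rw [b_1mod4 (m := 20) (Or.inl rfl) dvd_rfl (bb_x1 hZ hbb hMp h20 (allowed_pair (a := 2) (r := 5)
      (k := 2) Nat.prime_two (by norm_num) (by norm_num) (Or.inl (by norm_num))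
      (Or.inr (Or.inl rfl)))), smul_zero]
  by_cases h13 : V = {13}
  · subst h13
    rw [prod_singleton] at h2'
    have hp2 : p ≠ 2 := by
      rintro rfl
      exact h2' 6 (by norm_num)
    have h13p : Nat.Coprime 13 p :=
      Nat.Coprime.coprime_dvd_left (hVp 13 (mem_singleton_self 13)).2.2 hmp
    have h52 : 52 ∣ M := heM 52 (by norm_num)
      (show Nat.Coprime (4 * 13) p from
        Nat.Coprime.mul_left (Nat.Coprime.pow_left 2 (h2p hp2)) h13p)
    rw [b_1mod4 (m := 52) (Or.inr rfl) dvd_rfl (bb_x1 hZ hbb hMp h52 (allowed_pair (a := 2)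
      (r := 13) (k := 2) Nat.prime_two (by norm_num) (by norm_num) (Or.inl (by norm_num))
      (Or.inr (Or.inr (Or.inl rfl))))), smul_zero]
  by_cases h17 : V = {17}
  · subst h17
    rw [prod_singleton] at h2'
    have hp2 : p ≠ 2 := by
      rintro rfl
      exact h2' 4 (by norm_num)
    have hp3 : p ≠ 3 := by
      rintro rfl
      exact h2' 8 (by norm_num)
    have h17p : Nat.Coprime 17 p :=
      Nat.Coprime.coprime_dvd_left (hVp 17 (mem_singleton_self 17)).2.2 hmp
    have h3p : Nat.Coprime 3 p := (Nat.coprime_primes Nat.prime_three hp).2 (Ne.symm hp3)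
    have h51 : 51 ∣ M := heM 51 (by norm_num)
      (show Nat.Coprime (3 * 17) p from Nat.Coprime.mul_left h3p h17p)
    have h3M : 3 ∣ M := dvd_trans (by norm_num) h51
    have hb3 : b {3} = 0 := by
      refine type1 {3} (singleton_nonempty 3) fun r hr => ?_
      rw [mem_singleton] at hr
      subst hr
      refine ⟨Nat.prime_three, by norm_num, h3M, ?_⟩
      rw [hm₁, if_neg hp3]
      exact dvd_mul_left _ _
    rw [b_17 (bb_x1 hZ hbb hMp h51 (allowed_pair (a := 3) (r := 17) (k := 1) Nat.prime_three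
      (by norm_num) (by norm_num) (Or.inl (by norm_num)) (Or.inr (Or.inr (Or.inr rfl))))) hb3
      (hbb.two _), smul_zero]
  exact smul_even (hbb.two V) (hV V hVm h1 h2' h5 h13 h17)

end Pool.Agent.FT
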