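import Pool.Agent.FT.MainD
import Pool.Agent.FT.CM
import Pool.Agent.FT.CN
import Pool.Agent.FT.CK

/-!
# FT-MainE: the theorem of MainD with four more sets of primes
-/

set_option autoImplicit false

namespace Pool.Agent.FT

open Finset
open Pool.Agent.FS (IsHodge emb sw rr hb)
open Pool.Agent.FQ (chiT QS nR PPr)

theorem main_e [Flag] (hZ : Flag.z) (p : ℕ) (hp : p.Prime) (m : ℕ) [NeZero m] (hmp : m.Coprime p)
    (S : Multiset (ZMod m)) (h0 : (0 : ZMod m) ∉ S) (hc : Even S.card) (hs : S.sum = 0)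
    (hT : TateN p S)
    (hV : ∀ V ⊆ m.primeFactors.erase 2, (∃ r ∈ V, r % 4 = 1) →
      (∀ i : ℕ, ¬ ∏ r ∈ V, r ∣ p ^ i + 1) → V ≠ {5} → V ≠ {13} → V ≠ {17} →
      ¬ (V = {3, 5} ∧ (p % 15 = 7 ∨ p % 15 = 11 ∨ p % 15 = 13)) →
      ¬ (V = {3, 13} ∧ p % 39 ∈ [7, 14, 19, 28, 29, 31, 34, 35, 37]) →
      ¬ (V = {5, 11} ∧
        p % 55 ∈ [3, 6, 12, 21, 23, 27, 37, 38, 41, 42, 46, 47, 48, 51, 53]) →
      ¬ (V = {5, 19} ∧ p % 95 ∈ r95) → Even (nV S V)) :
    Inf p m S 1 := by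
  obtain ⟨q, hq, hq8, hqp, hjq⟩ := Sq.exists_q' hp
  have hm0 : m ≠ 0 := NeZero.ne m
  set m₁ : ℕ := m * (if p = 3 then 1 else 3) with hm₁
  have hm₁0 : m₁ ≠ 0 := by
    rw [hm₁]
    split_ifs <;> omega
  have hm₁p : m₁.Coprime p := by
    rw [hm₁]
    split_ifs with h3
    · rwa [mul_one]
    · exact Nat.Coprime.mul_left hmp ((Nat.coprime_primes Nat.prime_three hp).2 (Ne.symm h3))
  obtain ⟨s, hsp, hs4, hsnp, hchi, hnr⟩ := Sq.exists_sq hp hm₁0 hm₁p
  set e : ℕ := ordCompl[p] 145860 with he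
  have he0 : e ≠ 0 := (Nat.ordCompl_pos p (by norm_num)).ne'
  have hep : e.Coprime p := (Nat.coprime_ordCompl hp (by norm_num)).symm
  set M : ℕ := m * q * s * e with hM
  have hM0 : NeZero M := ⟨mul_ne_zero (mul_ne_zero (mul_ne_zero hm0 hq.ne_zero) hsp.ne_zero) he0⟩
  have hMp : M.Coprime p :=
    Nat.Coprime.mul_left (Nat.Coprime.mul_left (Nat.Coprime.mul_left hmp
      ((Nat.coprime_primes hq hp).2 hqp)) ((Nat.coprime_primes hsp hp).2 hsnp)) hep
  have hmM : m ∣ M := Dvd.dvd.mul_right (Dvd.dvd.mul_right (dvd_mul_right _ _) _) _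
  have hqM : q ∣ M := Dvd.dvd.mul_right (Dvd.dvd.mul_right (dvd_mul_left _ _) _) _
  have hsM : s ∣ M := Dvd.dvd.mul_right (dvd_mul_left _ _) _
  have heM : ∀ d : ℕ, d ∣ 145860 → d.Coprime p → d ∣ M := fun d hd hdp =>
    Dvd.dvd.mul_left (dvd_oc hd hdp) _
  have h2p : p ≠ 2 → Nat.Coprime 2 p := fun h => (Nat.coprime_primes Nat.prime_two hp).2 (Ne.symm h)
  have h4M : p ≠ 2 → 4 ∣ M := fun h => heM 4 (by norm_num) (Nat.Coprime.pow_left 2 (h2p h))
  obtain ⟨B, _, b, hbb, hbq, hfin⟩ := exists_bb hZ hp hmM hMp hq hq8 hqM h4M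
  refine hfin S h0 hc hs hT ?_
  rw [vl_count]
  -- the sets of primes which are not `1` modulo `4`
  set n : ℕ := ordCompl[2] M with hn
  have hn0 : NeZero n := ⟨(Nat.ordCompl_pos 2 hM0.out).ne'⟩
  have hnM : n ∣ M := Nat.ordCompl_dvd M 2
  have hnodd : Odd n := (Nat.coprime_two_left).1 (Nat.coprime_ordCompl Nat.prime_two hM0.out)
  have hnp : n.Coprime p := Nat.Coprime.coprime_dvd_left hnM hMp
  have hdn : ∀ d : ℕ, d ∣ M → Odd d → d ∣ n := fun d hd hodd =>
    dvd_oc hd ((Nat.coprime_two_right).2 hodd)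
  have hqodd : Odd q := by rw [Nat.odd_iff]; omega
  have hsodd : Odd s := by rw [Nat.odd_iff]; omega
  have hchq : chiT {q} p = -1 := by
    unfold chiT
    rw [prod_singleton]
    unfold FQ.chi
    rw [if_neg (by rintro rfl; omega)]
    exact hjq
  have type1 : ∀ V : Finset ℕ, V.Nonempty → (∀ r ∈ V, r.Prime ∧ r % 4 = 3 ∧ r ∣ M ∧ r ∣ m₁) →
      b V = 0 := by
    intro V hne hV'
    refine Sq.b_type1 hZ (n := n) hnodd hnp hbb.two (hbb.alg n hnM) hq (by omega) (hdn q hqM hqodd)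
      hchq hbq hsp hs4 (hdn s hsM hsodd) hchi hne fun r hr => ?_
    obtain ⟨h1, h2, h3, h4⟩ := hV' r hr
    exact ⟨h1, h2, hdn r h3 (by rw [Nat.odd_iff]; omega), hnr r h1 h4 h2⟩
  refine sum_eq_zero fun V hVm => ?_
  rw [mem_powerset] at hVm
  have hVp : ∀ r ∈ V, r.Prime ∧ r ≠ 2 ∧ r ∣ m := by
    intro r hr
    have h1 := hVm hr
    rw [mem_erase] at h1
    exact ⟨Nat.prime_of_mem_primeFactors h1.2, h1.1, Nat.dvd_of_mem_primeFactors h1.2⟩
  rcases V.eq_empty_or_nonempty with rfl | hne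
  · rw [nV_empty h0, zero_smul]
  by_cases h1 : ∃ r ∈ V, r % 4 = 1
  swap
  · rw [type1 V hne, smul_zero]
    intro r hr
    obtain ⟨h2, h3, h4⟩ := hVp r hr
    have h5 := h2.eq_two_or_odd
    have h6 : r % 4 ≠ 1 := fun h => h1 ⟨r, hr, h⟩
    exact ⟨h2, by omega, h4.trans hmM, h4.mul_right _⟩
  by_cases h2 : ∃ i : ℕ, ∏ r ∈ V, r ∣ p ^ i + 1
  · obtain ⟨i, hi⟩ := h2
    rw [bb_am hp hMp (fun h => dvd_trans (by norm_num) (h4M h)) hbb hq (by omega) hqM hjq hbq hne
      (fun r hr => ⟨(hVp r hr).1, (hVp r hr).2.1, (hVp r hr).2.2.trans hmM⟩) hi, smul_zero]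
  have h2' : ∀ i : ℕ, ¬ ∏ r ∈ V, r ∣ p ^ i + 1 := fun i hi => h2 ⟨i, hi⟩
  have b5 : p ≠ 2 → Nat.Coprime 5 p → b {5} = 0 := by
    intro hp2 h5p
    have h20 : 20 ∣ M := heM 20 (by norm_num)
      (show Nat.Coprime (4 * 5) p from Nat.Coprime.mul_left (Nat.Coprime.pow_left 2 (h2p hp2)) h5p)
    exact b_1mod4 (m := 20) (Or.inl rfl) dvd_rfl (bb_x1 hZ hbb hMp h20 (allowed_pair (a := 2) (r := 5)
      (k := 2) Nat.prime_two (by norm_num) (by norm_num) (Or.inl (by norm_num))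
      (Or.inr (Or.inl rfl))))
  have b13 : p ≠ 2 → Nat.Coprime 13 p → b {13} = 0 := by
    intro hp2 h13p
    have h52 : 52 ∣ M := heM 52 (by norm_num)
      (show Nat.Coprime (4 * 13) p from
        Nat.Coprime.mul_left (Nat.Coprime.pow_left 2 (h2p hp2)) h13p)
    exact b_1mod4 (m := 52) (Or.inr rfl) dvd_rfl (bb_x1 hZ hbb hMp h52 (allowed_pair (a := 2)
      (r := 13) (k := 2) Nat.prime_two (by norm_num) (by norm_num) (Or.inl (by norm_num))
      (Or.inr (Or.inr (Or.inl rfl)))))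
  by_cases h5 : V = {5}
  · subst h5
    rw [prod_singleton] at h2'
    have hp2 : p ≠ 2 := by
      rintro rfl
      exact h2' 2 (by norm_num)
    rw [b5 hp2 (Nat.Coprime.coprime_dvd_left (hVp 5 (mem_singleton_self 5)).2.2 hmp), smul_zero]
  by_cases h13 : V = {13}
  · subst h13
    rw [prod_singleton] at h2'
    have hp2 : p ≠ 2 := by
      rintro rfl
      exact h2' 6 (by norm_num)
    rw [b13 hp2 (Nat.Coprime.coprime_dvd_left (hVp 13 (mem_singleton_self 13)).2.2 hmp), smul_zero]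
  by_cases h17 : V = {17}
  · subst h17
    rw [prod_singleton] at h2'
    have hp2 : p ≠ 2 := by
      rintro rfl
      exact h2' 4 (by norm_num)
    have hp3 : p ≠ 3 := by
      rintro rfl
      exact h2' 8 (by norm_num)
    have h17p : Nat.Coprime 17 p :=
      Nat.Coprime.coprime_dvd_left (hVp 17 (mem_singleton_self 17)).2.2 hmp
    have h3p : Nat.Coprime 3 p := (Nat.coprime_primes Nat.prime_three hp).2 (Ne.symm hp3)
    have h51 : 51 ∣ M := heM 51 (by norm_num)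
      (show Nat.Coprime (3 * 17) p from Nat.Coprime.mul_left h3p h17p)
    have h3M : 3 ∣ M := dvd_trans (by norm_num) h51
    have hb3 : b {3} = 0 := by
      refine type1 {3} (singleton_nonempty 3) fun r hr => ?_
      rw [mem_singleton] at hr
      subst hr
      refine ⟨Nat.prime_three, by norm_num, h3M, ?_⟩
      rw [hm₁, if_neg hp3]
      exact dvd_mul_left _ _
    rw [b_17 (bb_x1 hZ hbb hMp h51 (allowed_pair (a := 3) (r := 17) (k := 1) Nat.prime_three
      (by norm_num) (by norm_num) (Or.inl (by norm_num)) (Or.inr (Or.inr (Or.inr rfl))))) hb3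
      (hbb.two _), smul_zero]
  -- the pairs of primes
  have single : ∀ r ∈ V, r % 4 = 3 → b {r} = 0 := by
    intro r hr hr4
    refine type1 {r} (singleton_nonempty r) fun r' hr' => ?_
    rw [mem_singleton] at hr'
    subst hr'
    exact ⟨(hVp r' hr).1, hr4, (hVp r' hr).2.2.trans hmM, (hVp r' hr).2.2.mul_right _⟩
  have cop : ∀ r ∈ V, Nat.Coprime r p := fun r hr =>
    Nat.Coprime.coprime_dvd_left (hVp r hr).2.2 hmp
  by_cases h35 : V = {3, 5} ∧ (p % 15 = 7 ∨ p % 15 = 11 ∨ p % 15 = 13)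
  · obtain ⟨rfl, hc15⟩ := h35
    have hp2 : p ≠ 2 := by
      rintro rfl
      omega
    have h3p := cop 3 (by simp)
    have h5p := cop 5 (by simp)
    have h60 : 60 ∣ M := heM 60 (by norm_num)
      (show Nat.Coprime (4 * 3 * 5) p from Nat.Coprime.mul_left
        (Nat.Coprime.mul_left (Nat.Coprime.pow_left 2 (h2p hp2)) h3p) h5p)
    rw [kil_3_5 hMp h60 hbb (single 3 (by simp) (by norm_num)) (b5 hp2 h5p) hc15, smul_zero]
  by_cases h313 : V = {3, 13} ∧ p % 39 ∈ [7, 14, 19, 28, 29, 31, 34, 35, 37]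
  · obtain ⟨rfl, hc39⟩ := h313
    have hp2 : p ≠ 2 := by
      rintro rfl
      revert hc39
      decide
    have h3p := cop 3 (by simp)
    have h13p := cop 13 (by simp)
    have h156 : 156 ∣ M := heM 156 (by norm_num)
      (show Nat.Coprime (4 * 3 * 13) p from Nat.Coprime.mul_left
        (Nat.Coprime.mul_left (Nat.Coprime.pow_left 2 (h2p hp2)) h3p) h13p)
    rw [kil_3_13 hMp h156 hbb (single 3 (by simp) (by norm_num)) (b13 hp2 h13p) hc39, smul_zero]
  by_cases h511 : V = {5, 11} ∧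
      p % 55 ∈ [3, 6, 12, 21, 23, 27, 37, 38, 41, 42, 46, 47, 48, 51, 53]
  · obtain ⟨rfl, hc55⟩ := h511
    have hp2 : p ≠ 2 := by
      rintro rfl
      revert hc55
      decide
    have h5p := cop 5 (by simp)
    have h11p := cop 11 (by simp)
    by_cases h21 : p % 55 = 21
    · have hp3 : p ≠ 3 := by
        rintro rfl
        omega
      have h3p : Nat.Coprime 3 p := (Nat.coprime_primes Nat.prime_three hp).2 (Ne.symm hp3)
      have h330 : 330 ∣ M := heM 330 (by norm_num)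
        (show Nat.Coprime (2 * 3 * 5 * 11) p from Nat.Coprime.mul_left
          (Nat.Coprime.mul_left (Nat.Coprime.mul_left (h2p hp2) h3p) h5p) h11p)
      rw [kil_5_11b hZ hMp h330 hbb (single 11 (by simp) (by norm_num)) h21, smul_zero]
    have hc55' : p % 55 ∈ [3, 6, 12, 23, 27, 37, 38, 41, 42, 46, 47, 48, 51, 53] := by
      simp only [List.mem_cons, List.not_mem_nil, or_false] at hc55 ⊢
      omega
    have h110 : 110 ∣ M := heM 110 (by norm_num)
      (show Nat.Coprime (2 * 5 * 11) p from Nat.Coprime.mul_left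
        (Nat.Coprime.mul_left (h2p hp2) h5p) h11p)
    rw [kil_5_11 hMp h110 hbb (b5 hp2 h5p) (single 11 (by simp) (by norm_num)) hc55', smul_zero]
  by_cases h519 : V = {5, 19} ∧ p % 95 ∈ r95
  · obtain ⟨rfl, hc95⟩ := h519
    have hp2 : p ≠ 2 := by
      rintro rfl
      revert hc95
      decide
    have hp3 : p ≠ 3 := by
      rintro rfl
      revert hc95
      decide
    have h5p := cop 5 (by simp)
    have h3p : Nat.Coprime 3 p := (Nat.coprime_primes Nat.prime_three hp).2 (Ne.symm hp3)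
    have h30 : 30 ∣ M := heM 30 (by norm_num)
      (show Nat.Coprime (2 * 3 * 5) p from Nat.Coprime.mul_left
        (Nat.Coprime.mul_left (h2p hp2) h3p) h5p)
    have h19 : 19 ∣ M := (hVp 19 (by simp)).2.2.trans hmM
    have h570 : 570 ∣ M := Nat.Coprime.mul_dvd_of_dvd_of_dvd (by norm_num : Nat.Coprime 30 19)
      h30 h19
    rw [kil_5_19 hZ hMp h570 hbb (b5 hp2 h5p) hc95, smul_zero]
  exact smul_even (hbb.two V) (hV V hVm h1 h2' h5 h13 h17 h35 h313 h511 h519)

end Pool.Agent.FT
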