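import Pool.Agent.FT.MainD
import Pool.Agent.FSP.Fam

/-!
# FT-PPw: Tate characters of prime power level and of twice an odd prime power level
-/

set_option autoImplicit false

namespace Pool.Agent.FT

open Finset
open Pool.Agent.FS (IsHodge emb sw rr hb)
open Pool.Agent.Helper9.Fermat (wt ee genW mem_all_one mem_all_two gen_of_wt neg_pow_of_odd)

theorem alg_of_fgen [Flag] {p m : ℕ} [NeZero m] (hp : IsUnit (p : ZMod m)) {S : Multiset (ZMod m)}
    (h : Pool.Agent.Helper9.Fermat.Gen p m S) : Alg p m S := by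
  induction h with
  | pair x hx => exact Alg.pair x hx
  | graph x y z hx hy hz h => exact QuotT.alg_six hp x y z hx hy hz h
  | standard r hr hrm x hx => exact Alg.standard r hr hrm x hx
  | join S T hS hT h1 h2 => exact Alg.join S T h1 h2
  | cancel S x hx hS h1 => exact Alg.cancel S x hx h1

theorem wt_of_tate {p m : ℕ} [NeZero m] (hp : IsUnit (p : ZMod m)) {S : Multiset (ZMod m)}
    (h0 : (0 : ZMod m) ∉ S) (hT : TateN p S) : ∃ F : ℕ, 0 < F ∧ (p : ZMod m) ^ F = 1 ∧
      ∀ t : (ZMod m)ˣ, (S.map (wt p F (t : ZMod m))).sum = 0 := by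
  obtain ⟨F, hF0, hF, hT⟩ := hT
  refine ⟨F, hF0, hF, fun t => ?_⟩
  rw [Pool.Agent.Helper9.Fermat.wt_sum p F hp _ t.isUnit S h0, sub_eq_zero]
  exact_mod_cast hT t

theorem inf_of_alg [Flag] {p m : ℕ} [NeZero m] (hmp : m.Coprime p) {S : Multiset (ZMod m)}
    (h : Alg p m S) : Inf p m S 1 :=
  ⟨m, inferInstance, dvd_rfl, hmp, by rw [one_smul, QuotT.map_emb_self]; exact h⟩

theorem neg_dvd {p n : ℕ} {i : ℕ} (h : (p : ZMod n) ^ i = -1) : n ∣ p ^ i + 1 := by
  rw [← ZMod.natCast_eq_zero_iff]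
  push_cast
  rw [h]
  ring

theorem main_pp [Flag] (hZ : Flag.z) (p : ℕ) (hp : p.Prime) (m : ℕ) [NeZero m] (hmp : m.Coprime p) {n : ℕ}
    (hn : IsPrimePow n) (hm : m = n ∨ (Odd n ∧ m = 2 * n))
    (S : Multiset (ZMod m)) (h0 : (0 : ZMod m) ∉ S) (hc : Even S.card) (hs : S.sum = 0)
    (hT : TateN p S) : Inf p m S 1 := by
  have hn0 : NeZero n := ⟨hn.ne_zero⟩
  have hpu : IsUnit (p : ZMod m) := by
    rw [ZMod.isUnit_iff_coprime]
    exact hmp.symm
  have hnp : n.Coprime p := by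
    refine Nat.Coprime.coprime_dvd_left ?_ hmp
    rcases hm with h | ⟨-, h⟩
    · rw [h]
    · exact ⟨2, by rw [h, mul_comm]⟩
  obtain ⟨l, k, hl, hk, hlk⟩ := hn
  have hl' : l.Prime := hl.nat_prime
  have hpp : IsPrimePow n := ⟨l, k, hl, hk, hlk⟩
  have hln : l ∣ n := by
    rw [← hlk]
    exact dvd_pow_self l hk.ne'
  by_cases hneg : ∃ i : ℕ, (p : ZMod l) ^ i = -1
  · obtain ⟨i, hi⟩ := hneg
    have hd := neg_dvd hi
    refine main_all hZ p hp m hmp S h0 hc hs hT fun V hV hr hno _ _ _ => ?_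
    exfalso
    have hVl : V ⊆ {l} := by
      intro r hr
      have h1 := hV hr
      rw [mem_erase] at h1
      have h2 := Nat.prime_of_mem_primeFactors h1.2
      have h3 := Nat.dvd_of_mem_primeFactors h1.2
      rw [mem_singleton]
      have h4 : r ∣ n := by
        rcases hm with h | ⟨-, h⟩
        · rwa [h] at h3
        · rw [h] at h3
          exact (h2.dvd_mul.1 h3).resolve_left fun h5 =>
            h1.1 ((Nat.prime_dvd_prime_iff_eq h2 Nat.prime_two).1 h5)
      rw [← hlk] at h4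
      exact (Nat.prime_dvd_prime_iff_eq h2 hl').1 (h2.dvd_of_dvd_pow h4)
    refine hno i ((prod_dvd_prod_of_subset _ _ _ hVl).trans ?_)
    rw [prod_singleton]
    exact hd
  · have hneg' : ∀ i : ℕ, (p : ZMod n) ^ i ≠ -1 := by
      intro i hi
      have h1 := hln.trans (neg_dvd hi)
      refine hneg ⟨i, ?_⟩
      rw [← ZMod.natCast_eq_zero_iff] at h1
      push_cast at h1
      exact eq_neg_of_add_eq_zero_left h1
    obtain ⟨F, hF0, hF, hwt⟩ := wt_of_tate hpu h0 hT
    refine inf_of_alg hmp (alg_of_fgen hpu ?_)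
    rcases hm with hm | ⟨hodd, hm⟩
    · have hm1 : m = 1 * n := by rw [hm, one_mul]
      exact gen_of_wt hpp hm1 (fun x => mem_all_one hl' hlk.symm hm1 x) hpu F hF0 hF hneg' S h0 hs
        hc hwt
    · have hl2 : l ≠ 2 := by
        rintro rfl
        rw [← hlk, Nat.odd_pow_iff hk.ne'] at hodd
        exact absurd hodd (by decide)
      exact gen_of_wt hpp hm (fun x => mem_all_two hl' hl2 hlk.symm hm x) hpu F hF0 hF hneg' S h0
        hs hc hwt

end Pool.Agent.FT
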