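import Pool.Agent.FQ.MainR

/-!
# FT-SqA: quadratic sets of arbitrary primes

The norm relation for character sums and the quadratic sets (`FQ/Char1.lean`, `FQ/Char2.lean`,
`FQ/Quad.lean`) for arbitrary odd primes instead of the primes `3` modulo `4`.
-/

set_option autoImplicit false

namespace Pool.Agent.FT.Sq

open Finset Pool.Agent.FS Pool.Agent.FQ
open Pool.Agent.FF
open Pool.Agent.Helper9.Fermat (fib mem_fib)

section

variable {m : ℕ} [NeZero m]

theorem chiT_sq {T : Finset ℕ} (hT : ∀ l ∈ T, l.Prime ∧ hb l ∣ m) (u : (ZMod m)ˣ) :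
    chiT T (rr u) * chiT T (rr u) = 1 := by
  unfold chiT
  rw [← prod_mul_distrib]
  refine prod_eq_one fun l hl => ?_
  have h3 : (rr u).Coprime l := by
    refine (rr_coprime u).coprime_dvd_right (dvd_trans ?_ (hT l hl).2)
    unfold hb
    split_ifs with h
    · rw [h]; norm_num
    · exact dvd_rfl
  rcases chi_sq (hT l hl).1 h3 with h | h <;> rw [h] <;> norm_num

theorem SS_rel {g : ZMod m → ℤ} (hg : IsDist g) {R T : Finset ℕ}
    (hR : ∀ l ∈ R, l.Prime ∧ hb l ∣ m) {l : ℕ} (hl : l ∈ R) (hT : T ⊆ R.erase l) :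
    (Nat.card (Kl m l) : ℤ) * SS g R T = (1 - chiT T l) * SS g (R.erase l) T := by
  classical
  have hRp : ∀ l ∈ R, l.Prime := fun l hl => (hR l hl).1
  have hlp := hRp l hl
  have hlhb : l ∣ hb l := by
    unfold hb
    split_ifs with h
    · rw [h]; norm_num
    · exact dvd_rfl
  have hlm : l ∣ m := hlhb.trans (hR l hl).2
  have hTR : ∀ a ∈ T, a.Prime ∧ hb a ∣ m := fun a ha => hR a (mem_of_mem_erase (hT ha))
  have hTm : ∀ a ∈ T, hb a ∣ m := fun a ha => (hTR a ha).2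
  have hTl : ∀ a ∈ T, hb a ∣ ordCompl[l] m := by
    intro a ha
    have hne : a ≠ l := (mem_erase.1 (hT ha)).1
    have h3 : (hb a).Coprime (ordProj[l] m) := by
      refine Nat.Coprime.pow_right _ ?_
      unfold hb
      split_ifs with h
      · subst h
        have h4 := (Nat.coprime_primes (hTR 2 ha).1 hlp).2 hne
        exact Nat.Coprime.pow_left 2 h4
      · exact (Nat.coprime_primes (hTR a ha).1 hlp).2 hne
    refine h3.dvd_of_dvd_mul_left ?_
    rw [Nat.ordProj_mul_ordCompl_eq_self]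
    exact hTm a ha
  -- the character is invariant under `Kl m l`
  have hk : ∀ (k : Kl m l) (u : (ZMod m)ˣ), chiT T (rr ((k : (ZMod m)ˣ) * u)) = chiT T (rr u) :=
    fun k u => prod_congr rfl fun a ha => chi_mod (Kl_mul_mod k.2 (hTl a ha) u)
  -- sum over the cosets
  have e1 : (Nat.card (Kl m l) : ℤ) * SS g R T =
      ∑ u : (ZMod m)ˣ, chiT T (rr u) *
        ∑ᶠ k : Kl m l, g (((k : (ZMod m)ˣ) : ZMod m) * ((u : ZMod m) * bR m R)) := by
    have e2 : ∀ k : Kl m l, SS g R T = ∑ u : (ZMod m)ˣ, chiT T (rr u) *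
        g (((k : (ZMod m)ˣ) : ZMod m) * ((u : ZMod m) * bR m R)) := by
      intro k
      unfold SS
      rw [← Equiv.sum_comp (Equiv.mulLeft (k : (ZMod m)ˣ))]
      refine sum_congr rfl fun u _ => ?_
      rw [Equiv.coe_mulLeft, hk, Units.val_mul, mul_assoc]
    have e3 : (Nat.card (Kl m l) : ℤ) * SS g R T = ∑ k : Kl m l, SS g R T := by
      rw [sum_const, card_univ, ← Nat.card_eq_fintype_card, nsmul_eq_mul]
    rw [e3, sum_congr rfl fun k _ => e2 k, sum_comm]
    refine sum_congr rfl fun u _ => ?_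
    rw [finsum_eq_sum_of_fintype, mul_sum]
  rw [e1]
  obtain ⟨w, _, hw⟩ := exists_lunit (m := m) hlp
  have e4 : ∀ u : (ZMod m)ˣ, chiT T (rr u) *
      ∑ᶠ k : Kl m l, g (((k : (ZMod m)ˣ) : ZMod m) * ((u : ZMod m) * bR m R)) =
      chiT T (rr u) * g ((u : ZMod m) * bR m (R.erase l)) -
        chiT T (rr u) * g (be m l * ((u : ZMod m) * bR m R)) := by
    intro u
    rw [norm_rel hg hRp hl hlm u, al_bR hRp hl u]
    ring
  rw [sum_congr rfl fun u _ => e4 u, sum_sub_distrib]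
  have e5 : ∑ u : (ZMod m)ˣ, chiT T (rr u) * g (be m l * ((u : ZMod m) * bR m R)) =
      chiT T l * SS g (R.erase l) T := by
    rw [← Equiv.sum_comp (Equiv.mulRight w)]
    unfold SS
    rw [mul_sum]
    refine sum_congr rfl fun u _ => ?_
    rw [Equiv.coe_mulRight, be_bR hRp hl hlm w hw u, chiT_rr_mul hTm]
    have h1 : chiT T (rr w) = chiT T l := chiT_mod hTl hw
    rw [h1]
    ring
  rw [e5]
  unfold SS
  ring

theorem SS_prod {g : ZMod m → ℤ} (hg : IsDist g) {T : Finset ℕ}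
    (hT : ∀ l ∈ T, l.Prime ∧ hb l ∣ m) (E : Finset ℕ) (hE : ∀ l ∈ E, l.Prime ∧ hb l ∣ m)
    (hTE : Disjoint T E) :
    Ph m (T ∪ E) * SS g (T ∪ E) T = (∏ l ∈ E, (1 - chiT T l)) * aa g T := by
  induction E using Finset.induction_on with
  | empty => rw [union_empty, prod_empty, one_mul, aa]
  | insert l E hl ih =>
    have hE' : ∀ l ∈ E, l.Prime ∧ hb l ∣ m := fun l' hl' => hE l' (mem_insert_of_mem hl')
    have hTE' : Disjoint T E := hTE.mono_right (subset_insert l E)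
    have hlT : l ∉ T := fun h => (disjoint_left.1 hTE) h (mem_insert_self l E)
    have ih' := ih hE' hTE'
    have h1 : T ∪ insert l E = insert l (T ∪ E) := union_insert _ _ _
    have hlTE : l ∉ T ∪ E := by
      rw [mem_union, not_or]
      exact ⟨hlT, hl⟩
    have h2 : (insert l (T ∪ E)).erase l = T ∪ E := erase_insert hlTE
    have hR : ∀ a ∈ insert l (T ∪ E), a.Prime ∧ hb a ∣ m := by
      intro a ha
      rw [mem_insert, mem_union] at ha
      rcases ha with rfl | ha | ha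
      · exact hE a (mem_insert_self _ _)
      · exact hT a ha
      · exact hE' a ha
    have h3 := SS_rel hg hR (mem_insert_self l (T ∪ E)) (T := T) (by
      rw [h2]
      exact subset_union_left)
    rw [h2] at h3
    have h4 : Ph m (insert l (T ∪ E)) = (Nat.card (Kl m l) : ℤ) * Ph m (T ∪ E) := by
      unfold Ph
      rw [prod_insert hlTE]
    rw [h1, h4, prod_insert hl]
    linear_combination Ph m (T ∪ E) * h3 + (1 - chiT T l) * ih'

theorem two_ind {R : Finset ℕ} (hR : ∀ l ∈ R, l.Prime ∧ hb l ∣ m) (u : (ZMod m)ˣ) :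
    (2 : ℤ) ^ R.card * (if ∀ l ∈ R, chi l (rr u) = 1 then 1 else 0) =
      ∑ T ∈ R.powerset, chiT T (rr u) := by
  have h1 : ∑ T ∈ R.powerset, chiT T (rr u) = ∏ l ∈ R, (1 + chi l (rr u)) :=
    (prod_one_add (f := fun l => chi l (rr u)) R).symm
  rw [h1]
  have hsq : ∀ l ∈ R, chi l (rr u) = 1 ∨ chi l (rr u) = -1 := by
    intro l hl
    refine chi_sq (hR l hl).1 ((rr_coprime u).coprime_dvd_right (dvd_trans ?_ (hR l hl).2))
    unfold hb
    split_ifs with h
    · rw [h]; norm_num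
    · exact dvd_rfl
  by_cases h : ∀ l ∈ R, chi l (rr u) = 1
  · rw [if_pos h, mul_one, prod_congr rfl fun l hl => by rw [h l hl], prod_const]
    norm_num
  · rw [if_neg h, mul_zero]
    push Not at h
    obtain ⟨l, hl, hne⟩ := h
    symm
    refine prod_eq_zero hl ?_
    rw [(hsq l hl).resolve_left hne]
    norm_num

theorem AA_eq {g : ZMod m → ℤ} (hg : IsDist g) {R : Finset ℕ}
    (hR : ∀ l ∈ R, l.Prime ∧ hb l ∣ m) :
    (2 : ℤ) ^ R.card * AA g R = ∑ T ∈ R.powerset, (∏ l ∈ R \ T, (1 - chiT T l)) * aa g T := by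
  have h1 : (2 : ℤ) ^ R.card * AA g R = ∑ T ∈ R.powerset, Ph m R * SS g R T := by
    unfold AA SS
    rw [sum_filter, ← mul_sum, sum_comm, mul_left_comm, mul_sum]
    congr 1
    refine sum_congr rfl fun u _ => ?_
    rw [← sum_mul, ← two_ind hR u]
    split_ifs <;> ring
  rw [h1]
  refine sum_congr rfl fun T hT => ?_
  rw [mem_powerset] at hT
  have h2 := SS_prod hg (T := T) (fun l hl => hR l (hT hl)) (R \ T)
    (fun l hl => hR l (sdiff_subset hl)) disjoint_sdiff
  rw [union_sdiff_of_subset hT] at h2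
  exact h2

theorem hb_dvd_nR {R : Finset ℕ} (hR : ∀ l ∈ R, l.Prime ∧ hb l ∣ m) {l : ℕ} (hl : l ∈ R) :
    hb l ∣ nR m R :=
  (hb_dvd_qq' (Pool.Agent.FS.qq_ge (hR l hl).1 (hR l hl).2)).trans (qq_dvd_nR hl)

/-- the condition depends on the element only -/
theorem cond_iff {R : Finset ℕ} (hR : ∀ l ∈ R, l.Prime ∧ hb l ∣ m) {u v : (ZMod m)ˣ}
    (h : (u : ZMod m) * bR m R = (v : ZMod m) * bR m R) :
    (∀ l ∈ R, chi l (rr u) = 1) ↔ ∀ l ∈ R, chi l (rr v) = 1 := by
  rw [mul_bR_eq (fun l hl => (hR l hl).1)] at h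
  constructor
  · intro h1 l hl
    rw [← chi_mod (h.of_dvd (hb_dvd_nR hR hl))]
    exact h1 l hl
  · intro h1 l hl
    rw [chi_mod (h.of_dvd (hb_dvd_nR hR hl))]
    exact h1 l hl

theorem AA_QS (g : ZMod m → ℤ) {R : Finset ℕ} (hR : ∀ l ∈ R, l.Prime ∧ hb l ∣ m) :
    AA g R = m.totient * ∑ x ∈ QS m R, g x := by
  have hRp : ∀ l ∈ R, l.Prime := fun l hl => (hR l hl).1
  have hRd : ∀ l ∈ R, l.Prime ∧ l ∣ m := by
    intro l hl
    refine ⟨(hR l hl).1, dvd_trans ?_ (hR l hl).2⟩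
    unfold hb
    split_ifs with h
    · rw [h]; norm_num
    · exact dvd_rfl
  unfold AA
  rw [Ph_eq hRd]
  have h1 : ∑ u ∈ univ.filter (fun u : (ZMod m)ˣ => ∀ l ∈ R, chi l (rr u) = 1),
      g ((u : ZMod m) * bR m R) =
      ∑ x ∈ QS m R, ∑ u ∈ (univ.filter (fun u : (ZMod m)ˣ => ∀ l ∈ R, chi l (rr u) = 1)).filter
        (fun u : (ZMod m)ˣ => (u : ZMod m) * bR m R = x), g ((u : ZMod m) * bR m R) := by
    refine (sum_fiberwise_of_maps_to ?_ _).symm
    intro u hu
    exact mem_image_of_mem _ hu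
  rw [h1, mul_sum, mul_sum]
  refine sum_congr rfl fun x hx => ?_
  obtain ⟨v, hv, rfl⟩ := mem_image.1 hx
  rw [mem_filter] at hv
  have h2 : ∑ u ∈ (univ.filter (fun u : (ZMod m)ˣ => ∀ l ∈ R, chi l (rr u) = 1)).filter
      (fun u : (ZMod m)ˣ => (u : ZMod m) * bR m R = (v : ZMod m) * bR m R),
        g ((u : ZMod m) * bR m R) =
      ∑ u ∈ univ.filter (fun u : (ZMod m)ˣ => (u : ZMod m) * bR m R = (v : ZMod m) * bR m R),
        g ((v : ZMod m) * bR m R) := by
    refine sum_congr ?_ ?_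
    · ext u
      rw [mem_filter, mem_filter, mem_filter]
      constructor
      · rintro ⟨⟨_, _⟩, h⟩
        exact ⟨mem_univ _, h⟩
      · rintro ⟨_, h⟩
        exact ⟨⟨mem_univ _, (cond_iff hR h).2 hv.2⟩, h⟩
    · intro u hu
      rw [mem_filter] at hu
      rw [hu.2]
  rw [h2, sum_const, nsmul_eq_mul, ← card_stab hRp v]
  ring

end

end Pool.Agent.FT.Sq
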