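import Pool.Agent.FT.TFa
import Pool.Agent.FT.TFn

/-!
# FT-TF: the parity of the weights of the quadratic characters

`W` is a set with an odd number of primes `l = 3 mod 4`, `l ∣ m`; all odd prime divisors of `m` are
`3` modulo `4`.  The weights `TW m W x` have the same power of `2` for all `x` of odd order seen by
the character of `W` (`Bel`), and vanish for the other `x` of odd order.  So a multiset whose total
weight is zero has an even number of such elements (`tf_even`; `tf_four` is the version for `4 ∣ m`).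
-/

set_option autoImplicit false

namespace Pool.Agent.FT

open Finset
open Pool.Agent.Helper9.Fermat (fib mem_fib)
open Pool.Agent.FS (IsHodge emb sw rr)
open Pool.Agent.FQ (chiT)


section absT

variable {m : ℕ} [NeZero m]

private theorem tf_ord_pos (x : ZMod m) : 0 < addOrderOf x := addOrderOf_pos x

theorem tf_ord_dvd (x : ZMod m) : addOrderOf x ∣ m := by
  have := addOrderOf_dvd_card (x := x)
  rwa [ZMod.card] at this

omit [NeZero m] in
theorem tf_ord_mul {q : ℕ} (hq : q.Prime) {x : ZMod m} (h : q ∣ addOrderOf x) :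
    addOrderOf ((q : ZMod m) * x) = addOrderOf x / q := by
  rw [← nsmul_eq_mul]
  exact addOrderOf_nsmul_of_dvd hq.ne_zero h

theorem tf_pf_div {q d : ℕ} (hq : q.Prime) (hd : d ≠ 0) (h : q ^ 2 ∣ d) :
    (d / q).primeFactors = d.primeFactors := by
  obtain ⟨k, rfl⟩ := h
  have hk : k ≠ 0 := by rintro rfl; simp at hd
  have h1 : q ^ 2 * k / q = q * k := by
    rw [pow_two, mul_assoc, Nat.mul_div_cancel_left _ hq.pos]
  rw [h1, Nat.primeFactors_mul hq.ne_zero hk, Nat.primeFactors_mul (pow_ne_zero 2 hq.ne_zero) hk,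
    Nat.primeFactors_prime_pow two_ne_zero hq, hq.primeFactors]

theorem tf_pf_mul {q d : ℕ} (hq : q.Prime) (hd : d ≠ 0) {r : ℕ} (hrq : r ≠ q) :
    r ∈ (q * d).primeFactors ↔ r ∈ d.primeFactors := by
  rw [Nat.primeFactors_mul hq.ne_zero hd, mem_union, hq.primeFactors, mem_singleton]
  constructor
  · rintro (h | h)
    · exact absurd h hrq
    · exact h
  · exact Or.inr

/-- elements with the same order as the base element -/
private theorem tf_assoc {D : ℕ} (hD : D ∣ m) {x : ZMod m} (hx : addOrderOf x = D) :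
    ∃ u : (ZMod m)ˣ, x = (u : ZMod m) * ((m / D : ℕ) : ZMod m) := by
  have h2 : (D : ZMod m) * x = 0 := by
    rw [← nsmul_eq_mul, ← hx]
    exact addOrderOf_nsmul_eq_zero x
  obtain ⟨k, rfl⟩ := id hD
  have hm : 0 < D * k := Nat.pos_of_ne_zero (NeZero.ne _)
  have hD0 : 0 < D := Nat.pos_of_mul_pos_right hm
  have hk0 : 0 < k := Nat.pos_of_mul_pos_left hm
  have : NeZero D := ⟨hD0.ne'⟩
  rw [Nat.mul_div_cancel_left k hD0]
  have h1 : D * k ∣ D * x.val := by
    have h3 : ((D * x.val : ℕ) : ZMod (D * k)) = 0 := by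
      push_cast
      rw [ZMod.natCast_zmod_val]
      exact h2
    exact (ZMod.natCast_eq_zero_iff _ _).1 h3
  have h2 : k ∣ x.val := (Nat.mul_dvd_mul_iff_left hD0).1 h1
  obtain ⟨a, ha⟩ := h2
  have hxa : x = ((k * a : ℕ) : ZMod (D * k)) := by
    rw [← ha, ZMod.natCast_zmod_val]
  have hcop : a.Coprime D := by
    have h3 : addOrderOf x = D * k / (D * k).gcd (k * a) := by
      rw [hxa, ZMod.addOrderOf_coe _ (NeZero.ne _)]
    rw [hx, mul_comm D k, Nat.gcd_mul_left, Nat.mul_div_mul_left _ _ hk0] at h3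
    have h4 : D.gcd a ∣ D := Nat.gcd_dvd_left D a
    obtain ⟨b, hb⟩ := h4
    have hg0 : 0 < D.gcd a := Nat.gcd_pos_of_pos_left a hD0
    have h5 : D / D.gcd a = b := Nat.div_eq_of_eq_mul_right hg0 hb
    rw [h5] at h3
    rw [← h3] at hb
    have h6 : D.gcd a = 1 := by
      have h7 : D.gcd a * D = 1 * D := by rw [one_mul]; exact hb.symm
      exact Nat.eq_of_mul_eq_mul_right hD0 h7
    exact Nat.coprime_comm.1 h6
  obtain ⟨u, hu⟩ := ZMod.unitsMap_surjective (n := D) (m := D * k) (Dvd.intro k rfl)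
    (ZMod.unitOfCoprime a hcop)
  refine ⟨u, ?_⟩
  have h3 : ((u : ZMod (D * k)).val : ZMod D) = (a : ZMod D) := by
    have h4 := congrArg (fun v : (ZMod D)ˣ => (v : ZMod D)) hu
    simp only [ZMod.unitsMap_val, ZMod.coe_unitOfCoprime] at h4
    rw [← h4]
    simp [ZMod.natCast_val]
  have h4 : (u : ZMod (D * k)).val ≡ a [MOD D] := (ZMod.natCast_eq_natCast_iff _ _ _).1 h3
  have h5 : (u : ZMod (D * k)).val * k ≡ a * k [MOD D * k] := Nat.ModEq.mul_right' k h4
  have h6 := (ZMod.natCast_eq_natCast_iff _ _ _).2 h5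
  push_cast at h6
  rw [ZMod.natCast_zmod_val] at h6
  rw [h6, hxa]
  push_cast
  ring

theorem tf_pow_odd {v : ℕ} {q t c : ℤ} (hq : Odd q) (hc : Odd c) (h : q * t = 2 ^ v * c) :
    ∃ c' : ℤ, Odd c' ∧ t = 2 ^ v * c' := by
  have h1 : (2 : ℤ) ^ v ∣ q * t := ⟨c, h⟩
  have h2 : IsCoprime ((2 : ℤ) ^ v) q := by
    refine IsCoprime.pow_left ?_
    obtain ⟨k, hk⟩ := hq
    exact ⟨-k, 1, by rw [hk]; ring⟩
  obtain ⟨c', hc'⟩ := h2.dvd_of_dvd_mul_left h1
  refine ⟨c', ?_, hc'⟩
  rw [hc'] at h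
  have h3 : (2 : ℤ) ^ v * (q * c') = 2 ^ v * c := by rw [← h]; ring
  have h4 : q * c' = c := mul_left_cancel₀ (pow_ne_zero v two_ne_zero) h3
  rw [← h4] at hc
  exact (Int.odd_mul.1 hc).2

private theorem tf_even_card {α : Type*} (T c : α → ℤ) (v : ℕ) (S : Multiset α)
    (hT : ∀ x ∈ S, T x = 2 ^ v * c x) (hodd : ∀ x ∈ S, Odd (c x)) (h0 : (S.map T).sum = 0) :
    Even S.card := by
  have h1 : (S.map T).sum = 2 ^ v * (S.map c).sum := by
    rw [← Multiset.sum_map_mul_left]
    exact congrArg Multiset.sum (Multiset.map_congr rfl hT)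
  rw [h0] at h1
  have h2 : (S.map c).sum = 0 := by
    have := h1.symm
    rcases mul_eq_zero.1 this with h | h
    · exact absurd h (pow_ne_zero v two_ne_zero)
    · exact h
  have h3 : ∀ S : Multiset α, (∀ x ∈ S, Odd (c x)) →
      (Even (S.map c).sum ↔ Even S.card) := by
    intro S
    induction S using Multiset.induction_on with
    | empty => intro _; simp
    | cons x S ih =>
      intro h
      have h4 := ih fun y hy => h y (Multiset.mem_cons_of_mem hy)
      have h5 : ¬ Even (c x) := Int.not_even_iff_odd.2 (h x (Multiset.mem_cons_self x S))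
      rw [Multiset.map_cons, Multiset.sum_cons, Multiset.card_cons, Int.even_add, Nat.even_add_one,
        h4]
      tauto
  exact (h3 S hodd).1 (by rw [h2]; exact Even.zero)

private theorem tf_even_filter {α : Type*} (T : α → ℤ) (v : ℕ) (P : α → Prop) [DecidablePred P]
    (S : Multiset α) (hT : ∀ x ∈ S, P x → ∃ c : ℤ, Odd c ∧ T x = 2 ^ v * c)
    (hz : ∀ x ∈ S, ¬ P x → T x = 0) (h0 : (S.map T).sum = 0) : Even (S.filter P).card := by
  choose! c hc using hT
  refine tf_even_card T c v (S.filter P) ?_ ?_ ?_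
  · intro x hx
    rw [Multiset.mem_filter] at hx
    exact (hc x hx.1 hx.2).2
  · intro x hx
    rw [Multiset.mem_filter] at hx
    exact (hc x hx.1 hx.2).1
  · have h1 := Multiset.filter_add_not P S
    rw [← h1, Multiset.map_add, Multiset.sum_add] at h0
    have h2 : ((S.filter fun x => ¬ P x).map T).sum = 0 := by
      refine Multiset.sum_eq_zero fun y hy => ?_
      obtain ⟨x, hx, rfl⟩ := Multiset.mem_map.1 hy
      rw [Multiset.mem_filter] at hx
      exact hz x hx.1 hx.2
    rwa [h2, add_zero] at h0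

variable (T : ZMod m → ℤ) (W : Finset ℕ) (c : ℕ → ℤ)

private structure TfH : Prop where
  hm : ∀ r : ℕ, r.Prime → r ∣ m → r % 4 ≠ 1
  hW : ∀ l ∈ W, l.Prime ∧ l % 4 = 3 ∧ l ∣ m
  unit : ∀ (u : (ZMod m)ˣ) (x : ZMod m), T ((u : ZMod m) * x) = T x ∨ T ((u : ZMod m) * x) = - T x
  zero : ∀ l ∈ W, ∀ x : ZMod m, ¬ l ∣ addOrderOf x → T x = 0
  sq : ∀ q : ℕ, q.Prime → ∀ x : ZMod m, q ^ 2 ∣ addOrderOf x → T ((q : ZMod m) * x) = q * T x
  qq : ∀ q : ℕ, q.Prime → q ∉ W → ∀ x : ZMod m, q ∣ addOrderOf x → ¬ q ^ 2 ∣ addOrderOf x →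
    ∃ z₀ : ZMod m, addOrderOf x = q * addOrderOf z₀ ∧
      ((q : ℤ) - 1) * T x = (c q - 1) * T z₀
  cc : ∀ q : ℕ, q.Prime → q ∉ W → c q = 1 ∨ c q = -1
  ne : T ((m / ∏ l ∈ W, l : ℕ) : ZMod m) ≠ 0

variable {T W c} (H : TfH T W c)

include H

omit [NeZero m] in
private theorem TfH.two_notMem : 2 ∉ W := by
  intro h
  have := (H.hW 2 h).2.1
  norm_num at this

private theorem TfH.mod4 {q : ℕ} (hq : q.Prime) {x : ZMod m} (hx : q ∣ addOrderOf x)
    (ho : Odd (addOrderOf x)) : q % 4 = 3 := by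
  have h1 := H.hm q hq (hx.trans (tf_ord_dvd x))
  have h2 : Odd q := Odd.of_dvd_nat ho hx
  rw [Nat.odd_iff] at h2
  omega

private theorem TfH.main : ∃ v : ℕ, ∀ d : ℕ, ∀ x : ZMod m, addOrderOf x = d → Odd d →
    (W ⊆ d.primeFactors ∧ ∀ q ∈ d.primeFactors, q ∉ W → c q = -1) →
    ∃ c' : ℤ, Odd c' ∧ T x = 2 ^ v * c' := by
  obtain ⟨v, c0, hc0, hC⟩ : ∃ (v : ℕ) (c0 : ℤ), Odd c0 ∧
      T ((m / ∏ l ∈ W, l : ℕ) : ZMod m) = 2 ^ v * c0 := by
    obtain ⟨k, a, ha, hn⟩ := Nat.exists_eq_two_pow_mul_odd (Int.natAbs_ne_zero.2 H.ne)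
    have ha' : Odd (a : ℤ) := by exact_mod_cast ha
    rcases Int.natAbs_eq (T ((m / ∏ l ∈ W, l : ℕ) : ZMod m)) with h | h
    · refine ⟨k, a, ha', ?_⟩
      rw [h, hn]
      push_cast
      ring
    · refine ⟨k, -a, ha'.neg, ?_⟩
      rw [h, hn]
      push_cast
      ring
  refine ⟨v, ?_⟩
  intro d
  induction d using Nat.strong_induction_on with
  | _ d ih =>
  intro x hx ho hB
  have hd0 : d ≠ 0 := by rw [← hx]; exact (tf_ord_pos x).ne'
  by_cases h1 : ∃ q : ℕ, q.Prime ∧ q ^ 2 ∣ d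
  · obtain ⟨q, hq, hqd⟩ := h1
    have hqd' : q ∣ d := (dvd_pow_self q two_ne_zero).trans hqd
    have h2 := H.sq q hq x (by rw [hx]; exact hqd)
    have h3 : addOrderOf ((q : ZMod m) * x) = d / q := by
      rw [tf_ord_mul hq (by rw [hx]; exact hqd'), hx]
    have h4 : d / q < d := Nat.div_lt_self (Nat.pos_of_ne_zero hd0) hq.one_lt
    have h5 : Odd (d / q) := Odd.of_dvd_nat ho (Nat.div_dvd_of_dvd hqd')
    have h6 := tf_pf_div hq hd0 hqd
    obtain ⟨c', hc', hT⟩ := ih (d / q) h4 _ h3 h5 (by rw [h6]; exact hB)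
    rw [h2] at hT
    have h7 : Odd (q : ℤ) := by
      have : Odd q := Odd.of_dvd_nat ho hqd'
      exact_mod_cast this
    exact tf_pow_odd h7 hc' hT
  · push Not at h1
    by_cases h2 : ∃ q ∈ d.primeFactors, q ∉ W
    · obtain ⟨q, hqd, hqW⟩ := h2
      have hq : q.Prime := Nat.prime_of_mem_primeFactors hqd
      have hqd' : q ∣ d := Nat.dvd_of_mem_primeFactors hqd
      obtain ⟨z, hz, hTz⟩ := H.qq q hq hqW x (by rw [hx]; exact hqd') (by rw [hx]; exact h1 q hq)
      rw [hB.2 q hqd hqW] at hTz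
      have h43 : q % 4 = 3 := H.mod4 hq (x := x) (by rw [hx]; exact hqd') (by rw [hx]; exact ho)
      rw [hx] at hz
      have hz0 : addOrderOf z ≠ 0 := (tf_ord_pos z).ne'
      have h4 : addOrderOf z < d := by
        rw [hz]
        have := hq.one_lt
        nlinarith [tf_ord_pos z]
      have h5 : Odd (addOrderOf z) := Odd.of_dvd_nat ho ⟨q, by rw [hz]; ring⟩
      have h6 : W ⊆ (addOrderOf z).primeFactors := by
        intro l hl
        have h7 := hB.1 hl
        rw [hz, tf_pf_mul hq hz0 (by rintro rfl; exact hqW hl)] at h7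
        exact h7
      have h7 : ∀ r ∈ (addOrderOf z).primeFactors, r ∉ W → c r = -1 := by
        intro r hr hrW
        refine hB.2 r ?_ hrW
        rw [hz, Nat.primeFactors_mul hq.ne_zero hz0]
        exact mem_union_right _ hr
      obtain ⟨c', hc', hT⟩ := ih _ h4 z rfl h5 ⟨h6, h7⟩
      obtain ⟨k, hk⟩ : ∃ k : ℕ, q = 4 * k + 3 := ⟨q / 4, by omega⟩
      have h8 : (2 * (k : ℤ) + 1) * T x = 2 ^ v * (-c') := by
        rw [hT, hk] at hTz
        push_cast at hTz
        linarith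
      exact tf_pow_odd ⟨k, rfl⟩ (Odd.neg hc') h8
    · push Not at h2
      have h3 : d.primeFactors = W := Subset.antisymm h2 hB.1
      have hsf : Squarefree d := by
        rw [Nat.squarefree_iff_prime_squarefree]
        intro q hq h
        exact h1 q hq (by rw [pow_two]; exact h)
      have h4 : ∏ l ∈ W, l = d := by
        rw [← h3]
        exact Nat.prod_primeFactors_of_squarefree hsf
      have hdm : d ∣ m := by rw [← hx]; exact tf_ord_dvd x
      obtain ⟨u, hu⟩ := tf_assoc hdm hx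
      rw [h4] at hC
      rcases H.unit u ((m / d : ℕ) : ZMod m) with h | h
      · exact ⟨c0, hc0, by rw [hu, h, hC]⟩
      · exact ⟨-c0, hc0.neg, by rw [hu, h, hC]; ring⟩

private theorem TfH.odd_zero : ∀ d : ℕ, ∀ x : ZMod m, addOrderOf x = d →
    ∀ q : ℕ, q.Prime → q ∉ W → q ∣ d → c q = 1 → T x = 0 := by
  intro d
  induction d using Nat.strong_induction_on with
  | _ d ih =>
  intro x hx q hq hqW hqd hcq
  have hd0 : d ≠ 0 := by rw [← hx]; exact (tf_ord_pos x).ne'
  by_cases h1 : q ^ 2 ∣ d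
  · have h2 := H.sq q hq x (by rw [hx]; exact h1)
    have h3 : addOrderOf ((q : ZMod m) * x) = d / q := by
      rw [tf_ord_mul hq (by rw [hx]; exact hqd), hx]
    have h4 : d / q < d := Nat.div_lt_self (Nat.pos_of_ne_zero hd0) hq.one_lt
    have h5 : q ∣ d / q := by
      rw [pow_two] at h1
      exact Nat.dvd_div_of_mul_dvd h1
    rw [ih (d / q) h4 _ h3 q hq hqW h5 hcq] at h2
    have h6 : (q : ℤ) ≠ 0 := by exact_mod_cast hq.ne_zero
    rcases mul_eq_zero.1 h2.symm with h | h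
    · exact absurd h h6
    · exact h
  · obtain ⟨z, hz, hTz⟩ := H.qq q hq hqW x (by rw [hx]; exact hqd) (by rw [hx]; exact h1)
    rw [hcq, sub_self, zero_mul] at hTz
    have h6 : (q : ℤ) - 1 ≠ 0 := by
      have := hq.one_lt
      have h7 : (1 : ℤ) < q := by exact_mod_cast this
      omega
    rcases mul_eq_zero.1 hTz with h | h
    · exact absurd h h6
    · exact h

private theorem TfH.zero' {x : ZMod m}
    (h : ¬ (W ⊆ (addOrderOf x).primeFactors ∧
      ∀ q ∈ (addOrderOf x).primeFactors, q ∉ W → c q = -1)) : T x = 0 := by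
  by_cases h1 : W ⊆ (addOrderOf x).primeFactors
  · have h2 : ∃ q ∈ (addOrderOf x).primeFactors, q ∉ W ∧ c q ≠ -1 := by
      by_contra h3
      push Not at h3
      exact h ⟨h1, h3⟩
    obtain ⟨q, hq, hqW, hcq⟩ := h2
    have hqp := Nat.prime_of_mem_primeFactors hq
    exact H.odd_zero _ x rfl q hqp hqW (Nat.dvd_of_mem_primeFactors hq)
      ((H.cc q hqp hqW).resolve_right hcq)
  · rw [not_subset] at h1
    obtain ⟨l, hl, hlx⟩ := h1
    refine H.zero l hl x fun h2 => hlx ?_
    exact Nat.mem_primeFactors.2 ⟨(H.hW l hl).1, h2, (tf_ord_pos x).ne'⟩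

end absT

private theorem tf_H {m : ℕ} [NeZero m] (hm : ∀ r : ℕ, r.Prime → r ∣ m → r % 4 ≠ 1) {W : Finset ℕ}
    (hW : ∀ l ∈ W, l.Prime ∧ l % 4 = 3 ∧ l ∣ m) (hodd : Odd W.card) :
    TfH (TW m W) W (chiT W) where
  hm := hm
  hW := hW
  unit := by
    intro u x
    have h1 : ∀ l ∈ W, Pool.Agent.FQ.PPr l ∧ Pool.Agent.FS.hb l ∣ m := by
      intro l hl
      obtain ⟨h1, h2, h3⟩ := hW l hl
      refine ⟨⟨h1, Or.inr h2⟩, ?_⟩
      unfold Pool.Agent.FS.hb
      rw [if_neg (by rintro rfl; norm_num at h2)]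
      exact h3
    have h2 := Pool.Agent.FQ.chiT_sq h1 u
    rw [tw_unit hW]
    rcases mul_self_eq_one_iff.1 h2 with h | h
    · left; rw [h, one_mul]
    · right; rw [h, neg_one_mul]
  zero := fun l hl x hx => tw_zero hW hl hx
  sq := fun q hq x hx => tw_sq hW hq hx
  qq := fun q hq hqW x hx hx2 => tw_q hW hq hqW hx hx2
  cc := fun q hq hqW => Pool.Agent.FQ.chiT_unit (fun l hl => (hW l hl).1) hq hqW
  ne := tw_ne hW hodd

open Classical in
theorem tf_even {m : ℕ} [NeZero m] (hm : ∀ r : ℕ, r.Prime → r ∣ m → r % 4 ≠ 1) {W : Finset ℕ}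
    (hW : ∀ l ∈ W, l.Prime ∧ l % 4 = 3 ∧ l ∣ m) (hodd : Odd W.card) (h2 : 2 ∣ m → chiT W 2 = 1)
    {S : Multiset (ZMod m)} (hS : (S.map (TW m W)).sum = 0) :
    Even (S.filter fun x => Odd (addOrderOf x) ∧ Bel W (addOrderOf x).primeFactors).card := by
  have H := tf_H hm hW hodd
  obtain ⟨v, hv⟩ := H.main
  refine tf_even_filter (TW m W) v
    (fun x => Odd (addOrderOf x) ∧ Bel W (addOrderOf x).primeFactors) S ?_ ?_ hS
  · rintro x _ ⟨ho, hB⟩
    exact hv _ x rfl ho hB
  · intro x _ hP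
    by_cases ho : Odd (addOrderOf x)
    · exact H.zero' fun hB => hP ⟨ho, hB⟩
    · rw [Nat.not_odd_iff_even, even_iff_two_dvd] at ho
      exact H.odd_zero _ x rfl 2 Nat.prime_two H.two_notMem ho (h2 (ho.trans (tf_ord_dvd x)))

open Classical in
theorem tf_four {m n' : ℕ} [NeZero m] (hmn : m = 4 * n') (hn' : Odd n') {W : Finset ℕ}
    (hWn : n'.primeFactors = W) (hW : ∀ l ∈ W, l.Prime ∧ l % 4 = 3 ∧ l ∣ m) (hodd : Odd W.card)
    (h2 : chiT W 2 = -1) {S : Multiset (ZMod m)} (hS : (S.map (TW m W)).sum = 0)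
    (hS2 : ∀ x ∈ S, W ⊆ (addOrderOf x).primeFactors → addOrderOf x % 4 ≠ 2) :
    Even (S.filter fun x => W ⊆ (addOrderOf x).primeFactors).card := by
  have hn0 : n' ≠ 0 := by rintro rfl; exact (NeZero.ne m) (by rw [hmn, mul_zero])
  have hm2 : ∀ r : ℕ, r.Prime → r ∣ m → r = 2 ∨ r ∈ W := by
    intro r hr hrm
    rw [hmn] at hrm
    rcases (Nat.Prime.dvd_mul hr).1 hrm with h | h
    · left
      have h1 : r ∣ 2 ^ 2 := h
      exact (Nat.prime_dvd_prime_iff_eq hr Nat.prime_two).1 (hr.dvd_of_dvd_pow h1)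
    · right
      rw [← hWn]
      exact Nat.mem_primeFactors.2 ⟨hr, h, hn0⟩
  have hm : ∀ r : ℕ, r.Prime → r ∣ m → r % 4 ≠ 1 := by
    intro r hr hrm
    rcases hm2 r hr hrm with rfl | h
    · norm_num
    · rw [(hW r h).2.1]; norm_num
  have H := tf_H hm hW hodd
  obtain ⟨v, hv⟩ := H.main
  have hBel : ∀ x : ZMod m, Odd (addOrderOf x) → W ⊆ (addOrderOf x).primeFactors →
      ∃ c : ℤ, Odd c ∧ TW m W x = 2 ^ v * c := by
    intro x ho hx
    refine hv _ x rfl ho ⟨hx, ?_⟩
    intro q hq hqW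
    exfalso
    have hqp := Nat.prime_of_mem_primeFactors hq
    have hqd := Nat.dvd_of_mem_primeFactors hq
    rcases hm2 q hqp (hqd.trans (tf_ord_dvd x)) with rfl | h
    · have := Odd.of_dvd_nat ho hqd
      exact absurd this (by decide)
    · exact hqW h
  refine tf_even_filter (TW m W) v (fun x => W ⊆ (addOrderOf x).primeFactors) S ?_ ?_ hS
  · intro x hxS hx
    by_cases ho : Odd (addOrderOf x)
    · exact hBel x ho hx
    · have h3 := hS2 x hxS hx
      rw [Nat.not_odd_iff_even, even_iff_two_dvd] at ho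
      have h4 : 4 ∣ addOrderOf x := by omega
      obtain ⟨d, hd⟩ := h4
      have hd0 : d ≠ 0 := by
        rintro rfl
        have := tf_ord_pos x
        omega
      have h5 : Odd d := by
        have h6 : 4 * d ∣ 4 * n' := by
          rw [← hd, ← hmn]
          exact tf_ord_dvd x
        exact Odd.of_dvd_nat hn' ((Nat.mul_dvd_mul_iff_left (by norm_num)).1 h6)
      have h6 : 2 ^ 2 ∣ addOrderOf x := by rw [hd]; exact ⟨d, rfl⟩
      have h7 := H.sq 2 Nat.prime_two x h6
      have h8 : addOrderOf (((2 : ℕ) : ZMod m) * x) = 2 * d := by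
        rw [tf_ord_mul Nat.prime_two ((dvd_pow_self 2 two_ne_zero).trans h6), hd]
        omega
      obtain ⟨z, hz, hTz⟩ := H.qq 2 Nat.prime_two H.two_notMem (((2 : ℕ) : ZMod m) * x)
        (by rw [h8]; exact ⟨d, rfl⟩) (by
          rw [h8]
          intro h9
          have h10 : 2 * 2 ∣ 2 * d := by simpa [pow_two] using h9
          have h11 := (Nat.mul_dvd_mul_iff_left (by norm_num : 0 < 2)).1 h10
          rw [Nat.odd_iff] at h5
          omega)
      rw [h8] at hz
      have hz' : addOrderOf z = d := by omega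
      have hzW : W ⊆ (addOrderOf z).primeFactors := by
        intro l hl
        have h9 := hx hl
        have hl2 : l ≠ 2 := by
          rintro rfl
          exact H.two_notMem hl
        have e : 4 * d = 2 * (2 * d) := by ring
        rw [hd, e, tf_pf_mul Nat.prime_two (by omega) hl2, tf_pf_mul Nat.prime_two hd0 hl2] at h9
        rw [hz']
        exact h9
      obtain ⟨c, hc, hT⟩ := hBel z (by rw [hz']; exact h5) hzW
      refine ⟨-c, hc.neg, ?_⟩
      rw [h7, h2, hT] at hTz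
      push_cast at hTz
      linarith
  · intro x _ hP
    exact H.zero' fun hB => hP hB.1

theorem tf_par {α : Type*} (T c : α → ℤ) (v : ℕ) (P : α → Prop) {dP : DecidablePred P}
    (S : Multiset α) (hT : ∀ x ∈ S, T x = 2 ^ v * c x) (hodd : ∀ x ∈ S, Odd (c x) ↔ P x)
    (h0 : (S.map T).sum = 0) : Even (S.filter P).card := by
  have h1 : (S.map T).sum = 2 ^ v * (S.map c).sum := by
    rw [← Multiset.sum_map_mul_left]
    exact congrArg Multiset.sum (Multiset.map_congr rfl hT)
  rw [h0] at h1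
  have h2 : (S.map c).sum = 0 := by
    rcases mul_eq_zero.1 h1.symm with h | h
    · exact absurd h (pow_ne_zero v two_ne_zero)
    · exact h
  have h3 : ∀ S : Multiset α, (∀ x ∈ S, Odd (c x) ↔ P x) →
      (Even (S.map c).sum ↔ Even (S.filter P).card) := by
    intro S
    induction S using Multiset.induction_on with
    | empty => intro _; simp
    | cons x S ih =>
      intro h
      have h4 := ih fun y hy => h y (Multiset.mem_cons_of_mem hy)
      have h5 := h x (Multiset.mem_cons_self x S)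
      rw [Multiset.map_cons, Multiset.sum_cons, Int.even_add, h4]
      by_cases hP : P x
      · rw [Multiset.filter_cons_of_pos _ hP, Multiset.card_cons, Nat.even_add_one]
        have h6 : ¬ Even (c x) := Int.not_even_iff_odd.2 (h5.2 hP)
        tauto
      · rw [Multiset.filter_cons_of_neg _ hP]
        have h6 : Even (c x) := by
          rw [← Int.not_odd_iff_even, h5]
          exact hP
        tauto
  exact (h3 S hodd).1 (by rw [h2]; exact Even.zero)

open Classical in
/-- the theorem for levels which are not divisible by four -/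
theorem tf_even_two {m : ℕ} [NeZero m] (hm : ∀ r : ℕ, r.Prime → r ∣ m → r % 4 ≠ 1) {W : Finset ℕ}
    (hW : ∀ l ∈ W, l.Prime ∧ l % 4 = 3 ∧ l ∣ m) (hodd : Odd W.card) (h4 : ¬ 4 ∣ m)
    {S : Multiset (ZMod m)} (hS : (S.map (TW m W)).sum = 0) :
    Even (S.filter fun x => Odd (addOrderOf x) ∧ Bel W (addOrderOf x).primeFactors).card := by
  have H := tf_H hm hW hodd
  obtain ⟨v, hv⟩ := H.main
  -- elements of odd order
  have ho : ∀ x : ZMod m, Odd (addOrderOf x) → ∃ c : ℤ, TW m W x = 2 ^ v * c ∧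
      (Odd c ↔ Bel W (addOrderOf x).primeFactors) := by
    intro x hx
    by_cases hB : Bel W (addOrderOf x).primeFactors
    · obtain ⟨c, hc, hT⟩ := hv _ x rfl hx hB
      exact ⟨c, hT, ⟨fun _ => hB, fun _ => hc⟩⟩
    · refine ⟨0, by rw [H.zero' hB, mul_zero], ⟨fun h => ?_, fun h => absurd h hB⟩⟩
      exact absurd h (by decide)
  have hex : ∀ x : ZMod m, ∃ c : ℤ, TW m W x = 2 ^ v * c ∧
      (Odd c ↔ Odd (addOrderOf x) ∧ Bel W (addOrderOf x).primeFactors) := by
    intro x
    by_cases hx : Odd (addOrderOf x)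
    · obtain ⟨c, hc, hP⟩ := ho x hx
      exact ⟨c, hc, ⟨fun h => ⟨hx, hP.1 h⟩, fun h => hP.2 h.2⟩⟩
    · rw [Nat.not_odd_iff_even, even_iff_two_dvd] at hx
      have h1 : ¬ 2 ^ 2 ∣ addOrderOf x := fun h => h4 (by
        have := h.trans (tf_ord_dvd x)
        simpa using this)
      obtain ⟨z, hz, hTz⟩ := H.qq 2 Nat.prime_two H.two_notMem x hx h1
      have hzo : Odd (addOrderOf z) := by
        rw [← Nat.not_even_iff_odd]
        intro he
        apply h1
        obtain ⟨k, hk⟩ := he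
        exact ⟨k, by rw [hz, hk]; ring⟩
      obtain ⟨c, hc, -⟩ := ho z hzo
      rw [hc] at hTz
      push_cast at hTz
      have hno : ¬ (Odd (addOrderOf x) ∧ Bel W (addOrderOf x).primeFactors) := fun h =>
        (Nat.not_even_iff_odd.2 h.1) (even_iff_two_dvd.2 hx)
      rcases H.cc 2 Nat.prime_two H.two_notMem with h | h
      · refine ⟨0, ?_, ⟨fun h => absurd h (by decide), fun h => absurd h hno⟩⟩
        rw [h] at hTz
        linarith
      · refine ⟨2 * (-c), ?_, ⟨fun h => ?_, fun h => absurd h hno⟩⟩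
        · rw [h] at hTz
          linarith
        · exact absurd h (Int.not_odd_iff_even.2 (even_two_mul _))
  choose c hc1 hc2 using hex
  exact tf_par (TW m W) c v _ S (fun x _ => hc1 x) (fun x _ => hc2 x) hS

end Pool.Agent.FT
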