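import Pool.Agent.FT.TFa

/-!
# FT-TFt: the weights of Tate and Hodge characters

Hodge characters, and Tate characters in characteristic `p` if the quadratic character of `W` is
trivial at `p`, have weight zero. Hodge characters are Tate characters, and have sum zero if the
number of elements is even.
-/

set_option autoImplicit false

namespace Pool.Agent.FT

open Finset
open Pool.Agent.FS (IsHodge emb sw rr)
open Pool.Agent.FQ (chiT)

theorem TFt_comm {ι α : Type*} (s : Finset ι) (S : Multiset α) (F : α → ι → ℤ) :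
    (S.map fun x => ∑ i ∈ s, F x i).sum = ∑ i ∈ s, (S.map fun x => F x i).sum :=
  Multiset.sum_map_sum_map S s.val

/-- the weights in the form of a sum over the units -/
private theorem TFt_tw {m : ℕ} [NeZero m] (W : Finset ℕ) {α : Type*} (S : Multiset α)
    (F : α → ZMod m) : (S.map fun a => TW m W (F a)).sum =
      ∑ t : (ZMod m)ˣ, chiT W (rr t) * (S.map fun a => sw ((t : ZMod m) * F a)).sum := by
  unfold TW
  rw [TFt_comm]
  exact sum_congr rfl fun t _ => Multiset.sum_map_mul_left

/-- the sums of the sawtooth function over a Tate character -/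
theorem TFt_sw {m p f : ℕ} [NeZero m] (u : (ZMod m)ˣ) (hu : (u : ZMod m) = p)
    {S : Multiset (ZMod m)} (h0 : (0 : ZMod m) ∉ S) (t : (ZMod m)ˣ)
    (h : 2 * (S.map fun x => ∑ i ∈ range f, ((p : ZMod m) ^ i * ((t : ZMod m) * x)).val).sum =
      m * f * S.card) :
    (S.map fun x => ∑ i ∈ range f, sw ((t : ZMod m) * ((p : ZMod m) ^ i * x))).sum = 0 := by
  have h1 : (S.map fun x => ∑ i ∈ range f, sw ((t : ZMod m) * ((p : ZMod m) ^ i * x))) =
      S.map fun x =>
        2 * ((∑ i ∈ range f, ((p : ZMod m) ^ i * ((t : ZMod m) * x)).val : ℕ) : ℤ) - m * f := by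
    refine Multiset.map_congr rfl fun x hx => ?_
    have hx0 : x ≠ 0 := fun h => h0 (h ▸ hx)
    have h2 : ∀ i, sw ((t : ZMod m) * ((p : ZMod m) ^ i * x)) =
        2 * (((p : ZMod m) ^ i * ((t : ZMod m) * x)).val : ℤ) - m := by
      intro i
      rw [mul_left_comm]
      refine FS.Quot.sw_of_ne ?_
      rw [← hu, ← Units.val_pow_eq_pow_val]
      intro h3
      exact hx0 ((t.isUnit.mul_right_eq_zero).1 (((u ^ i).isUnit.mul_right_eq_zero).1 h3))
    rw [sum_congr rfl fun i _ => h2 i, sum_sub_distrib, ← mul_sum, sum_const, card_range]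
    push_cast
    ring
  rw [h1]
  have h3 : (S.map fun x =>
      2 * ((∑ i ∈ range f, ((p : ZMod m) ^ i * ((t : ZMod m) * x)).val : ℕ) : ℤ) -
        (m : ℤ) * f).sum =
      2 * ((S.map fun x => ∑ i ∈ range f, ((p : ZMod m) ^ i * ((t : ZMod m) * x)).val).sum : ℕ) -
        m * f * S.card := by
    rw [Multiset.sum_map_sub, Multiset.sum_map_mul_left, Multiset.map_const',
      Multiset.sum_replicate, Nat.cast_multiset_sum, Multiset.map_map, nsmul_eq_mul]
    simp only [Function.comp_def]
    ring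
  rw [h3]
  have h4 : (2 * ((S.map fun x =>
      ∑ i ∈ range f, ((p : ZMod m) ^ i * ((t : ZMod m) * x)).val).sum : ℕ) : ℤ) =
      m * f * S.card := by
    exact_mod_cast h
  rw [h4, sub_self]

theorem tate_tw {m p : ℕ} [NeZero m] (hmp : m.Coprime p) {W : Finset ℕ}
    (hW : ∀ l ∈ W, l.Prime ∧ l % 4 = 3 ∧ l ∣ m) (hp : chiT W p = 1) {S : Multiset (ZMod m)}
    (h0 : (0 : ZMod m) ∉ S) (hT : TateN p S) : (S.map (TW m W)).sum = 0 := by
  obtain ⟨f, hf, _, hT⟩ := hT
  obtain ⟨u, hu⟩ : ∃ u : (ZMod m)ˣ, (u : ZMod m) = p :=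
    ⟨ZMod.unitOfCoprime p hmp.symm, ZMod.coe_unitOfCoprime p hmp.symm⟩
  have h1 : chiT W (rr u) = 1 := by
    rw [← hp]
    refine FQ.chiT_mod (n := m) ?_ ?_
    · intro l hl
      obtain ⟨_, h2, h3⟩ := hW l hl
      unfold FS.hb
      rw [if_neg (by rintro rfl; omega)]
      exact h3
    · rw [← ZMod.natCast_eq_natCast_iff, rr, ZMod.natCast_zmod_val, hu]
  have h2 : ∀ (i : ℕ) (x : ZMod m), TW m W ((p : ZMod m) ^ i * x) = TW m W x := by
    intro i x
    induction i with
    | zero => rw [pow_zero, one_mul]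
    | succ i ih =>
      rw [pow_succ', mul_assoc, ← hu, tw_unit hW, h1, one_mul, hu, ih]
  have h3 : (S.map fun x => ∑ i ∈ range f, TW m W ((p : ZMod m) ^ i * x)).sum =
      f * (S.map (TW m W)).sum := by
    rw [← Multiset.sum_map_mul_left]
    congr 1
    refine Multiset.map_congr rfl fun x _ => ?_
    rw [sum_congr rfl fun i _ => h2 i x, sum_const, card_range, nsmul_eq_mul]
  have h4 : (S.map fun x => ∑ i ∈ range f, TW m W ((p : ZMod m) ^ i * x)).sum = 0 := by
    rw [TFt_comm]
    rw [sum_congr rfl fun i _ => TFt_tw W S fun x => (p : ZMod m) ^ i * x, sum_comm]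
    refine sum_eq_zero fun t _ => ?_
    rw [← mul_sum, ← TFt_comm, TFt_sw u hu h0 t (hT t), mul_zero]
  rw [h3] at h4
  rcases mul_eq_zero.1 h4 with h5 | h5
  · exact absurd (Int.natCast_eq_zero.1 h5) (by omega)
  · exact h5

theorem hodge_tw {m : ℕ} [NeZero m] (W : Finset ℕ) {S : Multiset (ZMod m)}
    (h0 : (0 : ZMod m) ∉ S) (hS : IsHodge S) : (S.map (TW m W)).sum = 0 := by
  have h := TFt_tw W S fun x => x
  refine h.trans (sum_eq_zero fun t _ => ?_)
  rw [hodge_sw h0 hS t, mul_zero]

theorem hodge_tate {m p : ℕ} [NeZero m] (hmp : m.Coprime p) {S : Multiset (ZMod m)}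
    (hS : IsHodge S) : TateN p S := by
  obtain ⟨u, hu⟩ : ∃ u : (ZMod m)ˣ, (u : ZMod m) = p :=
    ⟨ZMod.unitOfCoprime p hmp.symm, ZMod.coe_unitOfCoprime p hmp.symm⟩
  refine ⟨orderOf u, orderOf_pos u, ?_, ?_⟩
  · rw [← hu, ← Units.val_pow_eq_pow_val, pow_orderOf_eq_one, Units.val_one]
  · intro t
    have h1 : (S.map fun x =>
        ∑ i ∈ range (orderOf u), ((p : ZMod m) ^ i * ((t : ZMod m) * x)).val).sum =
        ∑ i ∈ range (orderOf u),
          (S.map fun x => ((p : ZMod m) ^ i * ((t : ZMod m) * x)).val).sum :=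
      Multiset.sum_map_sum_map S (range (orderOf u)).val
    rw [h1, mul_sum]
    have h2 : ∀ i, 2 * (S.map fun x => ((p : ZMod m) ^ i * ((t : ZMod m) * x)).val).sum =
        m * S.card := by
      intro i
      have h3 := hS (u ^ i * t)
      rw [Units.val_mul, Units.val_pow_eq_pow_val, hu] at h3
      simp only [mul_assoc] at h3
      exact h3
    rw [sum_congr rfl fun i _ => h2 i, sum_const, card_range, smul_eq_mul]
    ring

/-- a Hodge character with an even number of elements has sum zero -/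
theorem hodge_sum {m : ℕ} [NeZero m] {S : Multiset (ZMod m)} (hc : Even S.card)
    (hS : IsHodge S) : S.sum = 0 := by
  obtain ⟨c, hc⟩ := hc
  have h1 := hS 1
  rw [hc] at h1
  simp only [Units.val_one, one_mul] at h1
  have h2 : (S.map fun x => x.val).sum = m * c := by
    have h3 : m * (c + c) = 2 * (m * c) := by ring
    omega
  have h4 : S.sum = (((S.map fun x => x.val).sum : ℕ) : ZMod m) := by
    rw [Nat.cast_multiset_sum, Multiset.map_map]
    conv_lhs => rw [← Multiset.map_id S]
    congr 1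
    refine Multiset.map_congr rfl fun x _ => ?_
    simp
  rw [h4, h2]
  simp

end Pool.Agent.FT
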