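import Pool.Agent.FT.QA
import Pool.Agent.FT.QN
import Pool.Agent.FT.TFt
import Pool.Agent.FT.TF
import Pool.Agent.FT.NV

/-!
# Parity of the number of elements whose order is divisible by all odd primes

`qt_tate`: the weights of a Tate character sum to zero if the quadratic character of `W` is trivial at `p`.
`nV_top_even`: the weights of the elements counted by `nV` have the same power of `2`, and the other
weights are divisible by a higher power of `2`.
-/

set_option autoImplicit false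

namespace Pool.Agent.FT

open Finset
open Pool.Agent.FS (IsHodge emb sw rr)
open Pool.Agent.FQ (chiT)

private theorem QE_comm {ι α : Type*} (s : Finset ι) (S : Multiset α) (F : α → ι → ℤ) :
    (S.map fun x => ∑ i ∈ s, F x i).sum = ∑ i ∈ s, (S.map fun x => F x i).sum :=
  Multiset.sum_map_sum_map S s.val

/-- the weights in the form of a sum over the units -/
private theorem QE_tw {m : ℕ} [NeZero m] (W : Finset ℕ) {α : Type*} (S : Multiset α)
    (F : α → ZMod m) : (S.map fun a => TW m W (F a)).sum =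
      ∑ t : (ZMod m)ˣ, chiT W (rr t) * (S.map fun a => sw ((t : ZMod m) * F a)).sum := by
  unfold TW
  rw [QE_comm]
  exact sum_congr rfl fun t _ => Multiset.sum_map_mul_left

/-- the sums of the sawtooth function over a Tate character -/
private theorem QE_sw {m p f : ℕ} [NeZero m] (u : (ZMod m)ˣ) (hu : (u : ZMod m) = p)
    {S : Multiset (ZMod m)} (h0 : (0 : ZMod m) ∉ S) (t : (ZMod m)ˣ)
    (h : 2 * (S.map fun x => ∑ i ∈ range f, ((p : ZMod m) ^ i * ((t : ZMod m) * x)).val).sum =
      m * f * S.card) :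
    (S.map fun x => ∑ i ∈ range f, sw ((t : ZMod m) * ((p : ZMod m) ^ i * x))).sum = 0 := by
  have h1 : (S.map fun x => ∑ i ∈ range f, sw ((t : ZMod m) * ((p : ZMod m) ^ i * x))) =
      S.map fun x =>
        2 * ((∑ i ∈ range f, ((p : ZMod m) ^ i * ((t : ZMod m) * x)).val : ℕ) : ℤ) - m * f := by
    refine Multiset.map_congr rfl fun x hx => ?_
    have hx0 : x ≠ 0 := fun h => h0 (h ▸ hx)
    have h2 : ∀ i, sw ((t : ZMod m) * ((p : ZMod m) ^ i * x)) =
        2 * (((p : ZMod m) ^ i * ((t : ZMod m) * x)).val : ℤ) - m := by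
      intro i
      rw [mul_left_comm]
      refine FS.Quot.sw_of_ne ?_
      rw [← hu, ← Units.val_pow_eq_pow_val]
      intro h3
      exact hx0 ((t.isUnit.mul_right_eq_zero).1 (((u ^ i).isUnit.mul_right_eq_zero).1 h3))
    rw [sum_congr rfl fun i _ => h2 i, sum_sub_distrib, ← mul_sum, sum_const, card_range]
    push_cast
    ring
  rw [h1]
  have h3 : (S.map fun x =>
      2 * ((∑ i ∈ range f, ((p : ZMod m) ^ i * ((t : ZMod m) * x)).val : ℕ) : ℤ) -
        (m : ℤ) * f).sum =
      2 * ((S.map fun x => ∑ i ∈ range f, ((p : ZMod m) ^ i * ((t : ZMod m) * x)).val).sum : ℕ) -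
        m * f * S.card := by
    rw [Multiset.sum_map_sub, Multiset.sum_map_mul_left, Multiset.map_const',
      Multiset.sum_replicate, Nat.cast_multiset_sum, Multiset.map_map, nsmul_eq_mul]
    simp only [Function.comp_def]
    ring
  rw [h3]
  have h4 : (2 * ((S.map fun x =>
      ∑ i ∈ range f, ((p : ZMod m) ^ i * ((t : ZMod m) * x)).val).sum : ℕ) : ℤ) =
      m * f * S.card := by
    exact_mod_cast h
  rw [h4, sub_self]

section absQ

variable {m : ℕ} [NeZero m]

private theorem qe_ord_pos (x : ZMod m) : 0 < addOrderOf x := addOrderOf_pos x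

private theorem qe_ord_dvd (x : ZMod m) : addOrderOf x ∣ m := by
  have := addOrderOf_dvd_card (x := x)
  rwa [ZMod.card] at this

omit [NeZero m] in
private theorem qe_ord_mul {q : ℕ} (hq : q.Prime) {x : ZMod m} (h : q ∣ addOrderOf x) :
    addOrderOf ((q : ZMod m) * x) = addOrderOf x / q := by
  rw [← nsmul_eq_mul]
  exact addOrderOf_nsmul_of_dvd hq.ne_zero h

private theorem qe_pf_div {q d : ℕ} (hq : q.Prime) (hd : d ≠ 0) (h : q ^ 2 ∣ d) :
    (d / q).primeFactors = d.primeFactors := by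
  obtain ⟨k, rfl⟩ := h
  have hk : k ≠ 0 := by rintro rfl; simp at hd
  have h1 : q ^ 2 * k / q = q * k := by
    rw [pow_two, mul_assoc, Nat.mul_div_cancel_left _ hq.pos]
  rw [h1, Nat.primeFactors_mul hq.ne_zero hk, Nat.primeFactors_mul (pow_ne_zero 2 hq.ne_zero) hk,
    Nat.primeFactors_prime_pow two_ne_zero hq, hq.primeFactors]

/-- elements with the same order as the base element -/
private theorem qe_assoc {D : ℕ} (hD : D ∣ m) {x : ZMod m} (hx : addOrderOf x = D) :
    ∃ u : (ZMod m)ˣ, x = (u : ZMod m) * ((m / D : ℕ) : ZMod m) := by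
  have h2 : (D : ZMod m) * x = 0 := by
    rw [← nsmul_eq_mul, ← hx]
    exact addOrderOf_nsmul_eq_zero x
  obtain ⟨k, rfl⟩ := id hD
  have hm : 0 < D * k := Nat.pos_of_ne_zero (NeZero.ne _)
  have hD0 : 0 < D := Nat.pos_of_mul_pos_right hm
  have hk0 : 0 < k := Nat.pos_of_mul_pos_left hm
  have : NeZero D := ⟨hD0.ne'⟩
  rw [Nat.mul_div_cancel_left k hD0]
  have h1 : D * k ∣ D * x.val := by
    have h3 : ((D * x.val : ℕ) : ZMod (D * k)) = 0 := by
      push_cast
      rw [ZMod.natCast_zmod_val]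
      exact h2
    exact (ZMod.natCast_eq_zero_iff _ _).1 h3
  have h2 : k ∣ x.val := (Nat.mul_dvd_mul_iff_left hD0).1 h1
  obtain ⟨a, ha⟩ := h2
  have hxa : x = ((k * a : ℕ) : ZMod (D * k)) := by
    rw [← ha, ZMod.natCast_zmod_val]
  have hcop : a.Coprime D := by
    have h3 : addOrderOf x = D * k / (D * k).gcd (k * a) := by
      rw [hxa, ZMod.addOrderOf_coe _ (NeZero.ne _)]
    rw [hx, mul_comm D k, Nat.gcd_mul_left, Nat.mul_div_mul_left _ _ hk0] at h3
    have h4 : D.gcd a ∣ D := Nat.gcd_dvd_left D a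
    obtain ⟨b, hb⟩ := h4
    have hg0 : 0 < D.gcd a := Nat.gcd_pos_of_pos_left a hD0
    have h5 : D / D.gcd a = b := Nat.div_eq_of_eq_mul_right hg0 hb
    rw [h5] at h3
    rw [← h3] at hb
    have h6 : D.gcd a = 1 := by
      have h7 : D.gcd a * D = 1 * D := by rw [one_mul]; exact hb.symm
      exact Nat.eq_of_mul_eq_mul_right hD0 h7
    exact Nat.coprime_comm.1 h6
  obtain ⟨u, hu⟩ := ZMod.unitsMap_surjective (n := D) (m := D * k) (Dvd.intro k rfl)
    (ZMod.unitOfCoprime a hcop)
  refine ⟨u, ?_⟩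
  have h3 : ((u : ZMod (D * k)).val : ZMod D) = (a : ZMod D) := by
    have h4 := congrArg (fun v : (ZMod D)ˣ => (v : ZMod D)) hu
    simp only [ZMod.unitsMap_val, ZMod.coe_unitOfCoprime] at h4
    rw [← h4]
    simp [ZMod.natCast_val]
  have h4 : (u : ZMod (D * k)).val ≡ a [MOD D] := (ZMod.natCast_eq_natCast_iff _ _ _).1 h3
  have h5 : (u : ZMod (D * k)).val * k ≡ a * k [MOD D * k] := Nat.ModEq.mul_right' k h4
  have h6 := (ZMod.natCast_eq_natCast_iff _ _ _).2 h5
  push_cast at h6
  rw [ZMod.natCast_zmod_val] at h6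
  rw [h6, hxa]
  push_cast
  ring

private theorem qe_pow_odd {v : ℕ} {q t c : ℤ} (hq : Odd q) (hc : Odd c) (h : q * t = 2 ^ v * c) :
    ∃ c' : ℤ, Odd c' ∧ t = 2 ^ v * c' := by
  have h1 : (2 : ℤ) ^ v ∣ q * t := ⟨c, h⟩
  have h2 : IsCoprime ((2 : ℤ) ^ v) q := by
    refine IsCoprime.pow_left ?_
    obtain ⟨k, hk⟩ := hq
    exact ⟨-k, 1, by rw [hk]; ring⟩
  obtain ⟨c', hc'⟩ := h2.dvd_of_dvd_mul_left h1
  refine ⟨c', ?_, hc'⟩
  rw [hc'] at h
  have h3 : (2 : ℤ) ^ v * (q * c') = 2 ^ v * c := by rw [← h]; ring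
  have h4 : q * c' = c := mul_left_cancel₀ (pow_ne_zero v two_ne_zero) h3
  rw [← h4] at hc
  exact (Int.odd_mul.1 hc).2

end absQ

private theorem qe_par {α : Type*} (T c : α → ℤ) (v : ℕ) (P : α → Prop) {dP : DecidablePred P}
    (S : Multiset α) (hT : ∀ x ∈ S, T x = 2 ^ v * c x) (hodd : ∀ x ∈ S, Odd (c x) ↔ P x)
    (h0 : (S.map T).sum = 0) : Even (S.filter P).card := by
  have h1 : (S.map T).sum = 2 ^ v * (S.map c).sum := by
    rw [← Multiset.sum_map_mul_left]
    exact congrArg Multiset.sum (Multiset.map_congr rfl hT)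
  rw [h0] at h1
  have h2 : (S.map c).sum = 0 := by
    rcases mul_eq_zero.1 h1.symm with h | h
    · exact absurd h (pow_ne_zero v two_ne_zero)
    · exact h
  have h3 : ∀ S : Multiset α, (∀ x ∈ S, Odd (c x) ↔ P x) →
      (Even (S.map c).sum ↔ Even (S.filter P).card) := by
    intro S
    induction S using Multiset.induction_on with
    | empty => intro _; simp
    | cons x S ih =>
      intro h
      have h4 := ih fun y hy => h y (Multiset.mem_cons_of_mem hy)
      have h5 := h x (Multiset.mem_cons_self x S)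
      rw [Multiset.map_cons, Multiset.sum_cons, Int.even_add, h4]
      by_cases hP : P x
      · rw [Multiset.filter_cons_of_pos _ hP, Multiset.card_cons, Nat.even_add_one]
        have h6 : ¬ Even (c x) := Int.not_even_iff_odd.2 (h5.2 hP)
        tauto
      · rw [Multiset.filter_cons_of_neg _ hP]
        have h6 : Even (c x) := by
          rw [← Int.not_odd_iff_even, h5]
          exact hP
        tauto
  exact (h3 S hodd).1 (by rw [h2]; exact Even.zero)

/-- weights of the elements of odd order which are seen by all the primes -/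
private theorem qe_main {m : ℕ} [NeZero m] {W : Finset ℕ}
    (hW : ∀ l ∈ W, l.Prime ∧ l ≠ 2 ∧ l ∣ m) {v : ℕ} {c0 : ℤ} (hc0 : Odd c0)
    (hC : TW m W ((m / ∏ l ∈ W, l : ℕ) : ZMod m) = 2 ^ v * c0) :
    ∀ d : ℕ, ∀ x : ZMod m, addOrderOf x = d → Odd d → d.primeFactors = W →
      ∃ c' : ℤ, Odd c' ∧ TW m W x = 2 ^ v * c' := by
  intro d
  induction d using Nat.strong_induction_on with
  | _ d ih =>
  intro x hx ho hB
  have hd0 : d ≠ 0 := by rw [← hx]; exact (qe_ord_pos x).ne'
  by_cases h1 : ∃ q : ℕ, q.Prime ∧ q ^ 2 ∣ d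
  · obtain ⟨q, hq, hqd⟩ := h1
    have hqd' : q ∣ d := (dvd_pow_self q two_ne_zero).trans hqd
    have h2 := qt_sq hW hq (x := x) (by rw [hx]; exact hqd)
    have h3 : addOrderOf ((q : ZMod m) * x) = d / q := by
      rw [qe_ord_mul hq (by rw [hx]; exact hqd'), hx]
    have h4 : d / q < d := Nat.div_lt_self (Nat.pos_of_ne_zero hd0) hq.one_lt
    have h5 : Odd (d / q) := Odd.of_dvd_nat ho (Nat.div_dvd_of_dvd hqd')
    have h6 := qe_pf_div hq hd0 hqd
    obtain ⟨c', hc', hT⟩ := ih (d / q) h4 _ h3 h5 (by rw [h6]; exact hB)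
    rw [h2] at hT
    have h7 : Odd (q : ℤ) := by
      have : Odd q := Odd.of_dvd_nat ho hqd'
      exact_mod_cast this
    exact qe_pow_odd h7 hc' hT
  · push Not at h1
    have hsf : Squarefree d := by
      rw [Nat.squarefree_iff_prime_squarefree]
      intro q hq h
      exact h1 q hq (by rw [pow_two]; exact h)
    have h4 : ∏ l ∈ W, l = d := by
      rw [← hB]
      exact Nat.prod_primeFactors_of_squarefree hsf
    have hdm : d ∣ m := by rw [← hx]; exact qe_ord_dvd x
    obtain ⟨u, hu⟩ := qe_assoc hdm hx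
    rw [h4] at hC
    have h5 := qt_unit hW u ((m / d : ℕ) : ZMod m)
    rw [← hu, hC] at h5
    rcases qt_pm hW u with h | h
    · exact ⟨c0, hc0, by rw [h5, h, one_mul]⟩
    · exact ⟨-c0, hc0.neg, by rw [h5, h]; ring⟩

theorem qt_tate {m p : ℕ} [NeZero m] (hmp : m.Coprime p) {W : Finset ℕ}
    (hW : ∀ l ∈ W, l.Prime ∧ l ≠ 2 ∧ l ∣ m) (hp : chiT W p = 1) {S : Multiset (ZMod m)}
    (h0 : (0 : ZMod m) ∉ S) (hT : TateN p S) : (S.map (TW m W)).sum = 0 := by
  obtain ⟨f, hf, _, hT⟩ := hT
  obtain ⟨u, hu⟩ : ∃ u : (ZMod m)ˣ, (u : ZMod m) = p :=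
    ⟨ZMod.unitOfCoprime p hmp.symm, ZMod.coe_unitOfCoprime p hmp.symm⟩
  have h1 : chiT W (rr u) = 1 := by
    rw [← hp]
    refine FQ.chiT_mod (n := m) ?_ ?_
    · intro l hl
      obtain ⟨_, h2, h3⟩ := hW l hl
      unfold FS.hb
      rw [if_neg h2]
      exact h3
    · rw [← ZMod.natCast_eq_natCast_iff, rr, ZMod.natCast_zmod_val, hu]
  have h2 : ∀ (i : ℕ) (x : ZMod m), TW m W ((p : ZMod m) ^ i * x) = TW m W x := by
    intro i x
    induction i with
    | zero => rw [pow_zero, one_mul]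
    | succ i ih =>
      rw [pow_succ', mul_assoc, ← hu, qt_unit hW, h1, one_mul, hu, ih]
  have h3 : (S.map fun x => ∑ i ∈ range f, TW m W ((p : ZMod m) ^ i * x)).sum =
      f * (S.map (TW m W)).sum := by
    rw [← Multiset.sum_map_mul_left]
    congr 1
    refine Multiset.map_congr rfl fun x _ => ?_
    rw [sum_congr rfl fun i _ => h2 i x, sum_const, card_range, nsmul_eq_mul]
  have h4 : (S.map fun x => ∑ i ∈ range f, TW m W ((p : ZMod m) ^ i * x)).sum = 0 := by
    rw [QE_comm]
    rw [sum_congr rfl fun i _ => QE_tw W S fun x => (p : ZMod m) ^ i * x, sum_comm]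
    refine sum_eq_zero fun t _ => ?_
    rw [← mul_sum, ← QE_comm, QE_sw u hu h0 t (hT t), mul_zero]
  rw [h3] at h4
  rcases mul_eq_zero.1 h4 with h5 | h5
  · exact absurd (Int.natCast_eq_zero.1 h5) (by omega)
  · exact h5

theorem nV_top_even {m p : ℕ} [NeZero m] (hmp : m.Coprime p) {S : Multiset (ZMod m)}
    (h0 : (0 : ZMod m) ∉ S) (hT : TateN p S)
    (hodd : Odd ((m.primeFactors.erase 2).filter fun l => l % 4 = 3).card)
    (hp : chiT (m.primeFactors.erase 2) p = 1)
    (h2 : 4 ∣ m → chiT (m.primeFactors.erase 2) 2 = 1) :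
    Even (nV S (m.primeFactors.erase 2)) := by
  set W := m.primeFactors.erase 2 with hWdef
  have hm0 : m ≠ 0 := NeZero.ne m
  have hW : ∀ l ∈ W, l.Prime ∧ l ≠ 2 ∧ l ∣ m := by
    intro l hl
    rw [hWdef, mem_erase] at hl
    exact ⟨Nat.prime_of_mem_primeFactors hl.2, hl.1, Nat.dvd_of_mem_primeFactors hl.2⟩
  have h2W : 2 ∉ W := fun h => (hW 2 h).2.1 rfl
  have hsum := qt_tate hmp hW hp h0 hT
  obtain ⟨v, c0, hc0, hC⟩ : ∃ (v : ℕ) (c0 : ℤ), Odd c0 ∧
      TW m W ((m / ∏ l ∈ W, l : ℕ) : ZMod m) = 2 ^ v * c0 := by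
    obtain ⟨k, a, ha, hn⟩ := Nat.exists_eq_two_pow_mul_odd (Int.natAbs_ne_zero.2 (qt_ne hW hodd))
    have ha' : Odd (a : ℤ) := by exact_mod_cast ha
    rcases Int.natAbs_eq (TW m W ((m / ∏ l ∈ W, l : ℕ) : ZMod m)) with h | h
    · refine ⟨k, a, ha', ?_⟩
      rw [h, hn]
      push_cast
      ring
    · refine ⟨k, -a, ha'.neg, ?_⟩
      rw [h, hn]
      push_cast
      ring
  have hmain := qe_main hW hc0 hC
  -- elements of odd order
  have hoddz : ∀ x : ZMod m, Odd (addOrderOf x) → (addOrderOf x).primeFactors ≠ W →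
      TW m W x = 0 := by
    intro x ho hne
    have hsub : (addOrderOf x).primeFactors ⊆ W := by
      intro r hr
      have hrp := Nat.prime_of_mem_primeFactors hr
      have hrd := Nat.dvd_of_mem_primeFactors hr
      rw [hWdef, mem_erase]
      refine ⟨?_, Nat.mem_primeFactors.2 ⟨hrp, hrd.trans (qe_ord_dvd x), hm0⟩⟩
      rintro rfl
      have := Odd.of_dvd_nat ho hrd
      exact absurd this (by decide)
    have h1 : ¬ W ⊆ (addOrderOf x).primeFactors := fun h => hne (Subset.antisymm hsub h)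
    rw [not_subset] at h1
    obtain ⟨l, hl, hlx⟩ := h1
    refine qt_zero hW hl fun h2 => hlx ?_
    exact Nat.mem_primeFactors.2 ⟨(hW l hl).1, h2, (qe_ord_pos x).ne'⟩
  -- elements of odd order have weight divisible by `2 ^ v`
  have hoddv : ∀ x : ZMod m, Odd (addOrderOf x) → ∃ c : ℤ, TW m W x = 2 ^ v * c := by
    intro x ho
    by_cases h : (addOrderOf x).primeFactors = W
    · obtain ⟨c, -, hc⟩ := hmain _ x rfl ho h
      exact ⟨c, hc⟩
    · exact ⟨0, by rw [hoddz x ho h, mul_zero]⟩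
  -- elements of even order
  have heven : ∀ x : ZMod m, ¬ Odd (addOrderOf x) → ∃ c : ℤ, TW m W x = 2 ^ v * (2 * c) := by
    intro x ho
    rw [Nat.not_odd_iff_even, even_iff_two_dvd] at ho
    by_cases h4 : 4 ∣ m
    · have hc2 := h2 h4
      have hz : ∀ d : ℕ, ∀ x : ZMod m, addOrderOf x = d → 2 ∣ d → TW m W x = 0 := by
        intro d
        induction d using Nat.strong_induction_on with
        | _ d ih =>
        intro x hx hqd
        have hd0 : d ≠ 0 := by rw [← hx]; exact (qe_ord_pos x).ne'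
        by_cases h1 : 2 ^ 2 ∣ d
        · have h2 := qt_sq hW Nat.prime_two (x := x) (by rw [hx]; exact h1)
          have h3 : addOrderOf (((2 : ℕ) : ZMod m) * x) = d / 2 := by
            rw [qe_ord_mul Nat.prime_two (by rw [hx]; exact hqd), hx]
          have h4 : d / 2 < d := Nat.div_lt_self (Nat.pos_of_ne_zero hd0) (by norm_num)
          have h5 : 2 ∣ d / 2 := by
            rw [pow_two] at h1
            exact Nat.dvd_div_of_mul_dvd h1
          rw [ih (d / 2) h4 _ h3 h5] at h2
          push_cast at h2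
          omega
        · obtain ⟨z, hz, hTz⟩ := qt_q hW Nat.prime_two h2W (x := x) (by rw [hx]; exact hqd)
            (by rw [hx]; exact h1)
          rw [hc2, sub_self, zero_mul] at hTz
          push_cast at hTz
          linarith
      exact ⟨0, by rw [hz _ x rfl ho]; ring⟩
    · have h1 : ¬ 2 ^ 2 ∣ addOrderOf x := fun h => h4 (by
        have := h.trans (qe_ord_dvd x)
        simpa using this)
      obtain ⟨z, hz, hTz⟩ := qt_q hW Nat.prime_two h2W (x := x) ho h1
      have hzo : Odd (addOrderOf z) := by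
        rw [← Nat.not_even_iff_odd]
        intro he
        apply h1
        obtain ⟨k, hk⟩ := he
        exact ⟨k, by rw [hz, hk]; ring⟩
      obtain ⟨c, hc⟩ := hoddv z hzo
      rw [hc] at hTz
      push_cast at hTz
      rcases Pool.Agent.FQ.chiT_unit (fun l hl => (hW l hl).1) Nat.prime_two h2W with h | h
      · refine ⟨0, ?_⟩
        rw [h] at hTz
        linarith
      · refine ⟨-c, ?_⟩
        rw [h] at hTz
        linarith
  have hex : ∀ x : ZMod m, ∃ c : ℤ, TW m W x = 2 ^ v * c ∧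
      (Odd c ↔ Odd (addOrderOf x) ∧ (addOrderOf x).primeFactors = W) := by
    intro x
    by_cases ho : Odd (addOrderOf x)
    · by_cases hx : (addOrderOf x).primeFactors = W
      · obtain ⟨c, hc, hT⟩ := hmain _ x rfl ho hx
        exact ⟨c, hT, ⟨fun _ => ⟨ho, hx⟩, fun _ => hc⟩⟩
      · refine ⟨0, by rw [hoddz x ho hx, mul_zero], ?_⟩
        constructor
        · intro h
          exact absurd h (by decide)
        · intro h
          exact absurd h.2 hx
    · obtain ⟨c, hc⟩ := heven x ho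
      refine ⟨2 * c, hc, ?_⟩
      constructor
      · intro h
        exact absurd h (Int.not_odd_iff_even.2 (even_two_mul c))
      · intro h
        exact absurd h.1 ho
  choose c hc1 hc2 using hex
  unfold nV
  exact qe_par (TW m W) c v _ S (fun x _ => hc1 x) (fun x _ => hc2 x) hsum

end Pool.Agent.FT
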