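import Pool.Agent.FT.BB

/-!
# FT-QL: classes of p modulo 15, 39 and 55

Finite checks of all residues: the value of `chiT` at `p` and the divisibility of `p ^ i + 1` depend on
the residue only.
-/

set_option autoImplicit false

namespace Pool.Agent.FT

open Finset
open Pool.Agent.FQ (chiT)

private theorem QL_red {n : ℕ} {T : Finset ℕ} (L : ℕ → Prop)
    (hT : ∀ l ∈ T, Pool.Agent.FS.hb l ∣ n) {p : ℕ} (hn : 0 < n) (h : Nat.Coprime n p)
    (hc : ∀ r < n, Nat.Coprime n r → L r ∨ chiT T r = 1 ∨ ∃ i : ℕ, n ∣ r ^ i + 1) :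
    L (p % n) ∨ chiT T p = 1 ∨ ∃ i : ℕ, n ∣ p ^ i + 1 := by
  have hm : p % n ≡ p [MOD n] := Nat.mod_modEq p n
  have hco : Nat.Coprime n (p % n) := by
    rw [Nat.coprime_iff_gcd_eq_one, Nat.gcd_comm, ← Nat.gcd_rec]
    exact h
  rcases hc (p % n) (Nat.mod_lt _ hn) hco with h1 | h1 | ⟨i, hi⟩
  · exact Or.inl h1
  · refine Or.inr (Or.inl ?_)
    rw [← Pool.Agent.FQ.chiT_mod hT hm]
    exact h1
  · refine Or.inr (Or.inr ⟨i, ?_⟩)
    have h2 : (p % n) ^ i + 1 ≡ p ^ i + 1 [MOD n] := (hm.pow i).add_right 1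
    exact (Nat.modEq_zero_iff_dvd).1 (h2.symm.trans ((Nat.modEq_zero_iff_dvd).2 hi))

private theorem QL_chi {a b w : ℕ} (hab : a ≠ b) (ha : a ≠ 2) (hb' : b ≠ 2) :
    chiT {a, b} w = jacobiSym (w : ℤ) a * jacobiSym (w : ℤ) b := by
  unfold Pool.Agent.FQ.chiT
  rw [Finset.prod_pair hab]
  unfold Pool.Agent.FQ.chi
  rw [if_neg ha, if_neg hb']

private theorem QL_hb {a b n : ℕ} (ha : a ≠ 2) (hb' : b ≠ 2) (han : a ∣ n) (hbn : b ∣ n) :
    ∀ l ∈ ({a, b} : Finset ℕ), Pool.Agent.FS.hb l ∣ n := by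
  intro l hl
  rw [Finset.mem_insert, Finset.mem_singleton] at hl
  unfold Pool.Agent.FS.hb
  rcases hl with rfl | rfl
  · rw [if_neg ha]
    exact han
  · rw [if_neg hb']
    exact hbn

theorem cls_15 {p : ℕ} (h : Nat.Coprime 15 p) :
    (p % 15 = 7 ∨ p % 15 = 11 ∨ p % 15 = 13) ∨ chiT {3, 5} p = 1 ∨ ∃ i : ℕ, 15 ∣ p ^ i + 1 := by
  refine QL_red (fun r => r = 7 ∨ r = 11 ∨ r = 13)
    (QL_hb (by decide) (by decide) (by decide) (by decide)) (by decide) h ?_
  intro r hr hco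
  interval_cases r <;>
    first
    | exact absurd hco (by decide)
    | (left; decide)
    | (right; right; exact ⟨1, by decide⟩)
    | (right; left; rw [QL_chi (by decide) (by decide) (by decide)]; norm_num)

theorem cls_39 {p : ℕ} (h : Nat.Coprime 39 p) :
    p % 39 ∈ [7, 14, 19, 28, 29, 31, 34, 35, 37] ∨ chiT {3, 13} p = 1 ∨
      ∃ i : ℕ, 39 ∣ p ^ i + 1 := by
  refine QL_red (fun r => r ∈ [7, 14, 19, 28, 29, 31, 34, 35, 37])
    (QL_hb (by decide) (by decide) (by decide) (by decide)) (by decide) h ?_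
  intro r hr hco
  interval_cases r <;>
    first
    | exact absurd hco (by decide)
    | (left; decide)
    | (right; right; exact ⟨1, by decide⟩)
    | (right; right; exact ⟨3, by decide⟩)
    | (right; left; rw [QL_chi (by decide) (by decide) (by decide)]; norm_num)

theorem cls_55 {p : ℕ} (h : Nat.Coprime 55 p) :
    p % 55 ∈ [3, 6, 12, 23, 27, 37, 38, 41, 42, 46, 47, 48, 51, 53] ∨ p % 55 = 21 ∨
      chiT {5, 11} p = 1 ∨ ∃ i : ℕ, 55 ∣ p ^ i + 1 := by
  have key := QL_red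
    (fun r => r ∈ [3, 6, 12, 23, 27, 37, 38, 41, 42, 46, 47, 48, 51, 53] ∨ r = 21)
    (QL_hb (a := 5) (b := 11) (by decide) (by decide) (by decide) (by decide)) (by decide) h ?_
  · rcases key with (h1 | h1) | h1 | h1
    · exact Or.inl h1
    · exact Or.inr (Or.inl h1)
    · exact Or.inr (Or.inr (Or.inl h1))
    · exact Or.inr (Or.inr (Or.inr h1))
  intro r hr hco
  interval_cases r <;>
    first
    | exact absurd hco (by decide)
    | (left; decide)
    | (right; right; exact ⟨1, by decide⟩)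
    | (right; right; exact ⟨5, by decide⟩)
    | (right; left; rw [QL_chi (by decide) (by decide) (by decide)]; norm_num)

theorem chi_two_15 : chiT {3, 5} 2 = 1 := by
  rw [QL_chi (by decide) (by decide) (by decide)]
  norm_num

theorem chi_two_39 : chiT {3, 13} 2 = 1 := by
  rw [QL_chi (by decide) (by decide) (by decide)]
  norm_num

end Pool.Agent.FT
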