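import Pool.Agent.FT.CK

/-!
# FT-QM: classes of p modulo 95
-/

set_option autoImplicit false

namespace Pool.Agent.FT

open Finset
open Pool.Agent.FQ (chiT)

private theorem QM_chi {a b w : ℕ} (hab : a ≠ b) (ha : a ≠ 2) (hb' : b ≠ 2) :
    chiT {a, b} w = jacobiSym (w : ℤ) a * jacobiSym (w : ℤ) b := by
  unfold Pool.Agent.FQ.chiT
  rw [Finset.prod_pair hab]
  unfold Pool.Agent.FQ.chi
  rw [if_neg ha, if_neg hb']

theorem cls_95 {p : ℕ} (h : Nat.Coprime 95 p) :
    p % 95 ∈ r95 ∨ chiT {5, 19} p = 1 ∨ ∃ i : ℕ, 95 ∣ p ^ i + 1 := by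
  have hm : p % 95 ≡ p [MOD 95] := Nat.mod_modEq p 95
  have hco : Nat.Coprime 95 (p % 95) := by
    rw [Nat.coprime_iff_gcd_eq_one, Nat.gcd_comm, ← Nat.gcd_rec]
    exact h
  have hT : ∀ l ∈ ({5, 19} : Finset ℕ), Pool.Agent.FS.hb l ∣ 95 := by
    intro l hl
    rw [Finset.mem_insert, Finset.mem_singleton] at hl
    unfold Pool.Agent.FS.hb
    rcases hl with rfl | rfl
    · rw [if_neg (by decide)]
      decide
    · rw [if_neg (by decide)]
      decide
  have hlt : p % 95 < 95 := Nat.mod_lt _ (by norm_num)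
  rw [← Pool.Agent.FQ.chiT_mod hT hm]
  have key : ∀ r < 95, Nat.Coprime 95 r → r ∈ r95 ∨ chiT {5, 19} r = 1 ∨ 95 ∣ r ^ 9 + 1 := by
    intro r hr hco
    interval_cases r <;>
      first
      | exact absurd hco (by decide)
      | (left; decide)
      | (right; right; decide)
      | (right; left; rw [QM_chi (by decide) (by decide) (by decide)]; norm_num)
  rcases key _ hlt hco with h1 | h1 | h1
  · exact Or.inl h1
  · exact Or.inr (Or.inl h1)
  · refine Or.inr (Or.inr ⟨9, ?_⟩)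
    have h2 : (p % 95) ^ 9 + 1 ≡ p ^ 9 + 1 [MOD 95] := (hm.pow 9).add_right 1
    exact (Nat.modEq_zero_iff_dvd).1 (h2.symm.trans ((Nat.modEq_zero_iff_dvd).2 h1))

theorem chi_two_95 : chiT {5, 19} 2 = 1 := by
  rw [QM_chi (by decide) (by decide) (by decide)]
  norm_num

end Pool.Agent.FT
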