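import Pool.Agent.FT.MainE
import Pool.Agent.FT.PPw
import Pool.Agent.FT.QE
import Pool.Agent.FT.QL
import Pool.Agent.FT.QM
import Pool.Agent.FT.F4f

/-!
# FT-MainF: the levels for which the parity conditions hold automatically
-/

set_option autoImplicit false

namespace Pool.Agent.FT

open Finset
open Pool.Agent.FS (IsHodge emb sw rr hb)
open Pool.Agent.FQ (chiT QS nR PPr)

/-- the parity condition -/
def Par {m : ℕ} (p : ℕ) (S : Multiset (ZMod m)) : Prop :=
  ∀ V ⊆ m.primeFactors.erase 2, (∃ r ∈ V, r % 4 = 1) → (∀ i : ℕ, ¬ ∏ r ∈ V, r ∣ p ^ i + 1) →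
    V ≠ {5} → V ≠ {13} → V ≠ {17} → Even (nV S V)

section

variable {p m : ℕ} [NeZero m] (hmp : m.Coprime p) {S : Multiset (ZMod m)}
  (h0 : (0 : ZMod m) ∉ S) (hc : Even S.card) (hs : S.sum = 0) (hT : TateN p S)

theorem eq_pair {a b : ℕ} {V : Finset ℕ} (hV : V ⊆ m.primeFactors.erase 2)
    (hpf : m.primeFactors.erase 2 ⊆ {a, b}) (hb1 : a % 4 ≠ 1) (h1 : ∃ r ∈ V, r % 4 = 1) :
    V = {b} ∨ (V = {a, b} ∧ m.primeFactors.erase 2 = {a, b}) := by
  have hVs : V ⊆ {a, b} := hV.trans hpf
  obtain ⟨r, hr, hr1⟩ := h1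
  have hrb : r = b := by
    have h2 := hVs hr
    rw [mem_insert, mem_singleton] at h2
    rcases h2 with rfl | rfl
    · exact absurd hr1 hb1
    · rfl
  subst hrb
  by_cases ha : a ∈ V
  · right
    have h3 : ({a, r} : Finset ℕ) ⊆ V := by
      intro x hx
      rw [mem_insert, mem_singleton] at hx
      rcases hx with rfl | rfl
      · exact ha
      · exact hr
    exact ⟨Subset.antisymm hVs h3, Subset.antisymm hpf (h3.trans hV)⟩
  · left
    refine Subset.antisymm ?_ (singleton_subset_iff.2 hr)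
    intro x hx
    have h2 := hVs hx
    rw [mem_insert, mem_singleton] at h2
    rcases h2 with rfl | rfl
    · exact absurd hx ha
    · exact mem_singleton_self _

include hmp h0 hT

theorem even_pair {a b : ℕ} (ha3 : a % 4 = 3) (hb1 : b % 4 = 1)
    (hpf : m.primeFactors.erase 2 = {a, b}) (hp : chiT {a, b} p = 1) (h2 : chiT {a, b} 2 = 1) :
    Even (nV S {a, b}) := by
  have h3 : (({a, b} : Finset ℕ).filter fun l => l % 4 = 3) = {a} := by
    ext x
    rw [mem_filter, mem_insert, mem_singleton, mem_singleton]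
    constructor
    · rintro ⟨rfl | rfl, h⟩
      · rfl
      · omega
    · rintro rfl
      exact ⟨Or.inl rfl, ha3⟩
  have h := nV_top_even hmp h0 hT (by rw [hpf, h3, card_singleton]; exact odd_one)
    (by rw [hpf]; exact hp) (fun _ => by rw [hpf]; exact h2)
  rwa [hpf] at h

end

theorem chi_two_55 : chiT {5, 11} 2 = 1 := by
  unfold chiT
  rw [prod_pair (by norm_num)]
  unfold FQ.chi
  rw [if_neg (by norm_num), if_neg (by norm_num)]
  norm_num

theorem pf_erase {m : ℕ} {T : Finset ℕ} (h : m.primeFactors ⊆ insert 2 T) :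
    m.primeFactors.erase 2 ⊆ T := by
  intro x hx
  rw [mem_erase] at hx
  exact mem_of_mem_insert_of_ne (h hx.2) hx.1

theorem main_15 [Flag] (hZ : Flag.z) (p : ℕ) (hp : p.Prime) (m : ℕ) [NeZero m] (hmp : m.Coprime p)
    (hpf : m.primeFactors ⊆ {2, 3, 5}) (S : Multiset (ZMod m)) (h0 : (0 : ZMod m) ∉ S)
    (hc : Even S.card) (hs : S.sum = 0) (hT : TateN p S) : Inf p m S 1 := by
  refine main_e hZ p hp m hmp S h0 hc hs hT fun V hV h1 hno h5 h13 h17 h35 h39 h55 h95 => ?_
  rcases eq_pair hV (pf_erase hpf) (by norm_num) h1 with rfl | ⟨rfl, hpf'⟩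
  · exact absurd rfl h5
  · have hc15 : Nat.Coprime 15 p := by
      have h3 : 3 ∣ m := Nat.dvd_of_mem_primeFactors (mem_of_mem_erase (hV (by simp)))
      have h5 : 5 ∣ m := Nat.dvd_of_mem_primeFactors (mem_of_mem_erase (hV (by simp)))
      exact (show Nat.Coprime (3 * 5) p from Nat.Coprime.mul_left
        (Nat.Coprime.coprime_dvd_left h3 hmp) (Nat.Coprime.coprime_dvd_left h5 hmp))
    rcases cls_15 hc15 with h | h | ⟨i, hi⟩
    · exact absurd ⟨rfl, h⟩ h35
    · exact even_pair hmp h0 hT (by norm_num) (by norm_num) hpf' h chi_two_15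
    · exact absurd (by simpa using hi) (hno i)

theorem main_39 [Flag] (hZ : Flag.z) (p : ℕ) (hp : p.Prime) (m : ℕ) [NeZero m] (hmp : m.Coprime p)
    (hpf : m.primeFactors ⊆ {2, 3, 13}) (S : Multiset (ZMod m)) (h0 : (0 : ZMod m) ∉ S)
    (hc : Even S.card) (hs : S.sum = 0) (hT : TateN p S) : Inf p m S 1 := by
  refine main_e hZ p hp m hmp S h0 hc hs hT fun V hV h1 hno h5 h13 h17 h35 h39 h55 h95 => ?_
  rcases eq_pair hV (pf_erase hpf) (by norm_num) h1 with rfl | ⟨rfl, hpf'⟩
  · exact absurd rfl h13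
  · have hc39 : Nat.Coprime 39 p := by
      have h3 : 3 ∣ m := Nat.dvd_of_mem_primeFactors (mem_of_mem_erase (hV (by simp)))
      have h13 : 13 ∣ m := Nat.dvd_of_mem_primeFactors (mem_of_mem_erase (hV (by simp)))
      exact (show Nat.Coprime (3 * 13) p from Nat.Coprime.mul_left
        (Nat.Coprime.coprime_dvd_left h3 hmp) (Nat.Coprime.coprime_dvd_left h13 hmp))
    rcases cls_39 hc39 with h | h | ⟨i, hi⟩
    · exact absurd ⟨rfl, h⟩ h39
    · exact even_pair hmp h0 hT (by norm_num) (by norm_num) hpf' h chi_two_39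
    · exact absurd (by simpa using hi) (hno i)

theorem pair_swap (a b : ℕ) : ({a, b} : Finset ℕ) = {b, a} := Finset.pair_comm a b

theorem main_55 [Flag] (hZ : Flag.z) (p : ℕ) (hp : p.Prime) (m : ℕ) [NeZero m] (hmp : m.Coprime p)
    (hpf : m.primeFactors ⊆ {2, 5, 11}) (S : Multiset (ZMod m))
    (h0 : (0 : ZMod m) ∉ S) (hc : Even S.card) (hs : S.sum = 0) (hT : TateN p S) :
    Inf p m S 1 := by
  refine main_e hZ p hp m hmp S h0 hc hs hT fun V hV h1 hno h5 h13 h17 h35 h39 h55 h95 => ?_
  have hpf2 : m.primeFactors.erase 2 ⊆ {11, 5} := by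
    rw [pair_swap]
    exact pf_erase hpf
  rcases eq_pair hV hpf2 (by norm_num) h1 with rfl | ⟨rfl, hpf'⟩
  · exact absurd rfl h5
  · have hc55 : Nat.Coprime 55 p := by
      have h3 : 5 ∣ m := Nat.dvd_of_mem_primeFactors (mem_of_mem_erase (hV (by simp)))
      have h13 : 11 ∣ m := Nat.dvd_of_mem_primeFactors (mem_of_mem_erase (hV (by simp)))
      exact (show Nat.Coprime (5 * 11) p from Nat.Coprime.mul_left
        (Nat.Coprime.coprime_dvd_left h3 hmp) (Nat.Coprime.coprime_dvd_left h13 hmp))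
    rcases cls_55 hc55 with h | h | h | ⟨i, hi⟩
    · refine absurd ⟨pair_swap 11 5, ?_⟩ h55
      simp only [List.mem_cons, List.not_mem_nil, or_false] at h ⊢
      omega
    · refine absurd ⟨pair_swap 11 5, ?_⟩ h55
      rw [h]
      decide
    · have h6 : chiT {11, 5} p = 1 := by rw [pair_swap]; exact h
      have h7 : chiT {11, 5} 2 = 1 := by rw [pair_swap]; exact chi_two_55
      exact even_pair hmp h0 hT (by norm_num) (by norm_num) hpf' h6 h7
    · exact absurd (by simpa using hi) (hno i)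

theorem main_95 [Flag] (hZ : Flag.z) (p : ℕ) (hp : p.Prime) (m : ℕ) [NeZero m] (hmp : m.Coprime p)
    (hpf : m.primeFactors ⊆ {2, 5, 19}) (S : Multiset (ZMod m))
    (h0 : (0 : ZMod m) ∉ S) (hc : Even S.card) (hs : S.sum = 0) (hT : TateN p S) :
    Inf p m S 1 := by
  refine main_e hZ p hp m hmp S h0 hc hs hT fun V hV h1 hno h5 h13 h17 h35 h39 h55 h95 => ?_
  have hpf2 : m.primeFactors.erase 2 ⊆ {19, 5} := by
    rw [pair_swap]
    exact pf_erase hpf
  rcases eq_pair hV hpf2 (by norm_num) h1 with rfl | ⟨rfl, hpf'⟩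
  · exact absurd rfl h5
  · have hc95 : Nat.Coprime 95 p := by
      have h3 : 5 ∣ m := Nat.dvd_of_mem_primeFactors (mem_of_mem_erase (hV (by simp)))
      have h13 : 19 ∣ m := Nat.dvd_of_mem_primeFactors (mem_of_mem_erase (hV (by simp)))
      exact (show Nat.Coprime (5 * 19) p from Nat.Coprime.mul_left
        (Nat.Coprime.coprime_dvd_left h3 hmp) (Nat.Coprime.coprime_dvd_left h13 hmp))
    rcases cls_95 hc95 with h | h | ⟨i, hi⟩
    · exact absurd ⟨pair_swap 19 5, h⟩ h95
    · have h6 : chiT {19, 5} p = 1 := by rw [pair_swap]; exact h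
      have h7 : chiT {19, 5} 2 = 1 := by rw [pair_swap]; exact chi_two_95
      exact even_pair hmp h0 hT (by norm_num) (by norm_num) hpf' h6 h7
    · exact absurd (by simpa using hi) (hno i)

theorem main_par [Flag] (hZ : Flag.z) (p : ℕ) (hp : p.Prime) (m : ℕ) [NeZero m] (hmp : m.Coprime p)
    (S : Multiset (ZMod m)) (h0 : (0 : ZMod m) ∉ S) (hc : Even S.card) (hs : S.sum = 0)
    (hT : TateN p S) (h : Par p S) : Inf p m S 1 :=
  main_e hZ p hp m hmp S h0 hc hs hT fun V hV h1 hno h5 h13 h17 _ _ _ _ => h V hV h1 hno h5 h13 h17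

/-- two odd primes `r ∈ {5, 13, 17}` and `l` -/
theorem main_rl [Flag] (hZ : Flag.z) (p : ℕ) (hp : p.Prime) (m : ℕ) [NeZero m] (hmp : m.Coprime p) (h4 : ¬ 4 ∣ m)
    {r l : ℕ} (hl : l.Prime) (hpf : m.primeFactors.erase 2 = {r, l})
    (hr : r = 5 ∨ r = 13 ∨ r = 17) (hl4 : l % 4 = 3 ∨ l = 5 ∨ l = 13 ∨ l = 17)
    (hj : jacobiSym l r = -1) (S : Multiset (ZMod m)) (h0 : (0 : ZMod m) ∉ S)
    (hc : Even S.card) (hs : S.sum = 0) (hT : TateN p S) : Inf p m S 1 := by
  refine main_par hZ p hp m hmp S h0 hc hs hT fun V hV h1 hno h5 h13 h17 => ?_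
  have hrp : r.Prime := by rcases hr with rfl | rfl | rfl <;> norm_num
  have hr1 : r % 4 = 1 := by rcases hr with rfl | rfl | rfl <;> norm_num
  have hrl : r ≠ l := by
    rintro rfl
    have : NeZero r := ⟨hrp.ne_zero⟩
    rw [jacobiSym.eq_zero_iff_not_coprime.2 (by
      rw [Int.gcd_natCast_natCast, Nat.gcd_self]
      exact hrp.one_lt.ne')] at hj
    norm_num at hj
  have hVs : V ⊆ {r, l} := hpf ▸ hV
  have key : V = {r, l} := by
    refine Subset.antisymm hVs ?_
    have hne : ∀ x : ℕ, (x = 5 ∨ x = 13 ∨ x = 17) → V ≠ {x} := by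
      rintro x (rfl | rfl | rfl)
      · exact h5
      · exact h13
      · exact h17
    obtain ⟨x, hx, hx1⟩ := h1
    have hx2 := hVs hx
    rw [mem_insert, mem_singleton] at hx2
    have hnx : ∀ y ∈ V, y = x → ∀ z ∈ ({r, l} : Finset ℕ), z ∈ V ∨ V = {x} := by
      intro y _ _ z hz
      by_cases hzV : z ∈ V
      · exact Or.inl hzV
      · right
        refine Subset.antisymm ?_ (singleton_subset_iff.2 hx)
        intro w hw
        have h6 := hVs hw
        rw [mem_insert, mem_singleton] at h6 hz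
        rw [mem_singleton]
        rcases hz with rfl | rfl
        · rcases h6 with rfl | rfl
          · exact absurd hw hzV
          · rcases hx2 with rfl | rfl
            · exact absurd hx hzV
            · rfl
        · rcases h6 with rfl | rfl
          · rcases hx2 with rfl | rfl
            · rfl
            · exact absurd hx hzV
          · exact absurd hw hzV
    have hxx : V ≠ {x} := by
      refine hne x ?_
      rcases hx2 with rfl | rfl
      · exact hr
      · rcases hl4 with h | h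
        · omega
        · exact h
    intro z hz
    exact (hnx x hx rfl z hz).resolve_right hxx
  subst key
  have hprod : ∏ x ∈ ({r, l} : Finset ℕ), x = r * l := prod_pair hrl
  rw [hprod] at hno
  exact nV_four hmp h4 hrp hl hrl hpf hr1 hj hno h0 hc hs hT

/-! ### small degrees -/

/-- the primes below `105` -/
def pl : List ℕ := [2, 3, 5, 7, 11, 13, 17, 19, 23, 29, 31, 37, 41, 43, 47, 53, 59, 61, 67, 71, 73,
  79, 83, 89, 97, 101, 103]

theorem mem_pl {r : ℕ} (hr : r.Prime) (h : r < 105) : r ∈ pl := by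
  by_contra hcon
  revert hr
  interval_cases r
  all_goals first
    | exact absurd (by decide) hcon
    | norm_num

/-- the prime factors of `m` below `105` belong to a list -/
def Cl (l : List ℕ) (m : ℕ) : Prop := ∀ r ∈ pl, r ∣ m → r ∈ l

instance (l : List ℕ) (m : ℕ) : Decidable (Cl l m) := by
  unfold Cl
  infer_instance

/-- prime powers and twice odd prime powers -/
def Cp (m : ℕ) : Prop :=
  ∃ l ∈ pl, ∃ k ∈ [1, 2, 3, 4, 5, 6], m = l ^ k ∨ (l ≠ 2 ∧ m = 2 * l ^ k)

instance (m : ℕ) : Decidable (Cp m) := by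
  unfold Cp
  infer_instance

/-- a degree covered by the theorems below -/
def Cs (m : ℕ) : Prop :=
  (∀ r ∈ pl, r % 4 = 1 → ¬ r ∣ m) ∨ Cl [2, 3, 5] m ∨ Cl [2, 3, 13] m ∨ Cl [2, 17] m ∨ Cp m ∨
    m ∈ [35, 51, 55, 65, 70, 85, 91, 95, 102]

instance (m : ℕ) : Decidable (Cs m) := by
  unfold Cs
  infer_instance

theorem small_cls0 : ∀ m < 105, m = 0 ∨ m = 87 ∨ Cs m := by
  decide +kernel

theorem small_cls (m : ℕ) (h : m < 105) (h0 : m ≠ 0) (h87 : m ≠ 87) : Cs m :=
  ((small_cls0 m h).resolve_left h0).resolve_left h87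

theorem pl_prime {l : ℕ} (h : l ∈ pl) : l.Prime := by
  simp only [pl, List.mem_cons, List.not_mem_nil, or_false] at h
  rcases h with rfl | rfl | rfl | rfl | rfl | rfl | rfl | rfl | rfl | rfl | rfl | rfl | rfl | rfl |
    rfl | rfl | rfl | rfl | rfl | rfl | rfl | rfl | rfl | rfl | rfl | rfl | rfl <;> norm_num

theorem pf_two_mul {a b : ℕ} (ha : a.Prime) (hb : b.Prime) (ha2 : a ≠ 2) (hb2 : b ≠ 2) :
    (a * b).primeFactors.erase 2 = {a, b} ∧ (2 * (a * b)).primeFactors.erase 2 = {a, b} := by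
  have h1 : (a * b).primeFactors = {a, b} := by
    rw [Nat.primeFactors_mul ha.ne_zero hb.ne_zero, ha.primeFactors, hb.primeFactors]
    rfl
  have h2 : (2 : ℕ) ∉ ({a, b} : Finset ℕ) := by
    rw [mem_insert, mem_singleton]
    rintro (h | h)
    · exact ha2 h.symm
    · exact hb2 h.symm
  refine ⟨by rw [h1, erase_eq_of_notMem h2], ?_⟩
  rw [Nat.primeFactors_mul two_ne_zero (mul_ne_zero ha.ne_zero hb.ne_zero), h1,
    Nat.prime_two.primeFactors, ← insert_eq, erase_insert h2]

theorem pf_sub {a b : ℕ} (ha : a.Prime) (hb : b.Prime) (ha2 : a ≠ 2) (hb2 : b ≠ 2) :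
    (a * b).primeFactors ⊆ {2, a, b} := by
  have h1 := (pf_two_mul ha hb ha2 hb2).1
  intro x hx
  by_cases h2 : x = 2
  · rw [h2]
    exact mem_insert_self _ _
  · have h3 : x ∈ (a * b).primeFactors.erase 2 := mem_erase.2 ⟨h2, hx⟩
    rw [h1] at h3
    exact mem_insert_of_mem h3

theorem main_small [Flag] (hZ : Flag.z) (p : ℕ) (hp : p.Prime) (m : ℕ) [NeZero m] (hmp : m.Coprime p)
    (h105 : m < 105) (h87 : m ≠ 87) (S : Multiset (ZMod m)) (h0 : (0 : ZMod m) ∉ S)
    (hc : Even S.card) (hs : S.sum = 0) (hT : TateN p S) : Inf p m S 1 := by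
  have hm0 := NeZero.ne m
  have hmem : ∀ r ∈ m.primeFactors, r ∈ pl ∧ r ∣ m := by
    intro r hr
    have h1 := Nat.dvd_of_mem_primeFactors hr
    exact ⟨mem_pl (Nat.prime_of_mem_primeFactors hr)
      (lt_of_le_of_lt (Nat.le_of_dvd (Nat.pos_of_ne_zero hm0) h1) h105), h1⟩
  rcases small_cls m h105 hm0 h87 with h | h | h | h | h | h
  · refine main_par hZ p hp m hmp S h0 hc hs hT fun V hV h1 _ _ _ _ => ?_
    obtain ⟨r, hr, hr1⟩ := h1
    obtain ⟨h2, h3⟩ := hmem r (mem_of_mem_erase (hV hr))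
    exact absurd h3 (h r h2 hr1)
  · refine main_15 hZ p hp m hmp (fun r hr => ?_) S h0 hc hs hT
    obtain ⟨h2, h3⟩ := hmem r hr
    have h4 := h r h2 h3
    simp only [List.mem_cons, List.not_mem_nil, or_false] at h4
    rcases h4 with rfl | rfl | rfl <;> simp
  · refine main_39 hZ p hp m hmp (fun r hr => ?_) S h0 hc hs hT
    obtain ⟨h2, h3⟩ := hmem r hr
    have h4 := h r h2 h3
    simp only [List.mem_cons, List.not_mem_nil, or_false] at h4
    rcases h4 with rfl | rfl | rfl <;> simp
  · refine main_par hZ p hp m hmp S h0 hc hs hT fun V hV h1 _ _ _ h17 => ?_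
    exfalso
    refine h17 (Subset.antisymm ?_ ?_)
    · intro r hr
      have h4 := hV hr
      rw [mem_erase] at h4
      obtain ⟨h2, h3⟩ := hmem r h4.2
      rw [mem_singleton]
      have h5 := h r h2 h3
      simp only [List.mem_cons, List.not_mem_nil, or_false] at h5
      exact h5.resolve_left h4.1
    · obtain ⟨r, hr, hr1⟩ := h1
      obtain ⟨h2, h3⟩ := hmem r (mem_of_mem_erase (hV hr))
      rw [singleton_subset_iff]
      have h5 := h r h2 h3
      simp only [List.mem_cons, List.not_mem_nil, or_false] at h5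
      rcases h5 with rfl | rfl
      · omega
      · exact hr
  · obtain ⟨l, hl, k, hk6, h⟩ := h
    have hk : k ≠ 0 := by
      rintro rfl
      exact absurd hk6 (by decide)
    have hlp := pl_prime hl
    have hpp : IsPrimePow (l ^ k) := hlp.isPrimePow.pow hk
    refine main_pp hZ p hp m hmp hpp ?_ S h0 hc hs hT
    rcases h with h | ⟨hl2, h⟩
    · exact Or.inl h
    · exact Or.inr ⟨(hlp.odd_of_ne_two hl2).pow, h⟩
  · simp only [List.mem_cons, List.not_mem_nil, or_false] at h
    rcases h with rfl | rfl | rfl | rfl | rfl | rfl | rfl | rfl | rfl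
    · exact main_rl hZ p hp 35 hmp (by norm_num) (r := 5) (l := 7) (by norm_num)
        (pf_two_mul (a := 5) (b := 7) (by norm_num) (by norm_num) (by norm_num) (by norm_num)).1
        (by norm_num) (by norm_num) (by norm_num) S h0 hc hs hT
    · exact main_rl hZ p hp 51 hmp (by norm_num) (r := 17) (l := 3) (by norm_num)
        (pf_two_mul (a := 17) (b := 3) (by norm_num) (by norm_num) (by norm_num) (by norm_num)).1
        (by norm_num) (by norm_num) (by norm_num) S h0 hc hs hT
    · exact main_55 hZ p hp 55 hmp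
        (pf_sub (a := 5) (b := 11) (by norm_num) (by norm_num) (by norm_num) (by norm_num))
        S h0 hc hs hT
    · exact main_rl hZ p hp 65 hmp (by norm_num) (r := 5) (l := 13) (by norm_num)
        (pf_two_mul (a := 5) (b := 13) (by norm_num) (by norm_num) (by norm_num) (by norm_num)).1
        (by norm_num) (by norm_num) (by norm_num) S h0 hc hs hT
    · exact main_rl hZ p hp 70 hmp (by norm_num) (r := 5) (l := 7) (by norm_num)
        (pf_two_mul (a := 5) (b := 7) (by norm_num) (by norm_num) (by norm_num) (by norm_num)).2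
        (by norm_num) (by norm_num) (by norm_num) S h0 hc hs hT
    · exact main_rl hZ p hp 85 hmp (by norm_num) (r := 5) (l := 17) (by norm_num)
        (pf_two_mul (a := 5) (b := 17) (by norm_num) (by norm_num) (by norm_num) (by norm_num)).1
        (by norm_num) (by norm_num) (by norm_num) S h0 hc hs hT
    · exact main_rl hZ p hp 91 hmp (by norm_num) (r := 13) (l := 7) (by norm_num)
        (pf_two_mul (a := 13) (b := 7) (by norm_num) (by norm_num) (by norm_num) (by norm_num)).1
        (by norm_num) (by norm_num) (by norm_num) S h0 hc hs hT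
    · exact main_95 hZ p hp 95 hmp
        (pf_sub (a := 5) (b := 19) (by norm_num) (by norm_num) (by norm_num) (by norm_num))
        S h0 hc hs hT
    · exact main_rl hZ p hp 102 hmp (by norm_num) (r := 17) (l := 3) (by norm_num)
        (pf_two_mul (a := 17) (b := 3) (by norm_num) (by norm_num) (by norm_num) (by norm_num)).2
        (by norm_num) (by norm_num) (by norm_num) S h0 hc hs hT

end Pool.Agent.FT
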