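import Pool.Agent.FT.OneL
import Pool.Agent.FT.HodgeA

/-!
# FT-Odd: Tate characters in a characteristic of odd order
-/

set_option autoImplicit false

namespace Pool.Agent.FT

open Finset
open Pool.Agent.FS (IsHodge emb)

section

variable {p m : ℕ} [NeZero m] {S : Multiset (ZMod m)} (h0 : (0 : ZMod m) ∉ S)
  (hc : Even S.card) (hs : S.sum = 0)

include h0 hc hs

theorem mk_inf [Flag] {M : ℕ} [NeZero M] (h : m ∣ M) (hM : 1 < M) (hMp : M.Coprime p) (N : ℕ)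
    (H : ∀ (B : Type) [AddCommGroup B] (f : ZMod M → B), ODist M f →
      (∀ x, f ((p : ZMod M) * x) = f x) → (∀ T, Alg p M T → (T.map f).sum = 0) →
      N • (S.map fun x => f (emb M m x)).sum = 0) : Inf p m S N := by
  obtain ⟨B, _, f, hf, hfp, hf1, hf2⟩ := exists_B p M hM (by
    rw [ZMod.isUnit_iff_coprime]
    exact hMp.symm)
  refine ⟨M, inferInstance, h, hMp, hf2 _ (zero_notMem_emb h h0 _) ?_ ?_ ?_⟩
  · rw [Multiset.card_nsmul, Multiset.card_map]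
    exact hc.mul_left _
  · rw [Multiset.sum_nsmul, emb_sum h, hs, emb_zero h, smul_zero]
  · rw [Multiset.map_nsmul, Multiset.sum_nsmul, Multiset.map_map]
    exact H B f hf hfp hf1

theorem inf_gcd [Flag] (hp : p.Prime) {N₁ N₂ : ℕ} (h₁ : Inf p m S N₁) (h₂ : Inf p m S N₂) :
    Inf p m S (Nat.gcd N₁ N₂) := by
  obtain ⟨M₁, hn₁, hd₁, hc₁, hA₁⟩ := h₁
  obtain ⟨M₂, hn₂, hd₂, hc₂, hA₂⟩ := h₂
  have hn : NeZero (M₁ * M₂ * (p + 1)) :=
    ⟨mul_ne_zero (mul_ne_zero (NeZero.ne M₁) (NeZero.ne M₂)) (by omega)⟩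
  have hpp : (p + 1).Coprime p := by simp
  have hMp : (M₁ * M₂ * (p + 1)).Coprime p :=
    Nat.Coprime.mul_left (Nat.Coprime.mul_left hc₁ hc₂) hpp
  have e1 : M₁ ∣ M₁ * M₂ * (p + 1) := ⟨M₂ * (p + 1), by ring⟩
  have e2 : M₂ ∣ M₁ * M₂ * (p + 1) := ⟨M₁ * (p + 1), by ring⟩
  have hM1 : 1 < M₁ * M₂ * (p + 1) := by
    have h4 := Nat.le_of_dvd (Nat.pos_of_ne_zero (NeZero.ne (M₁ * M₂ * (p + 1))))
      (dvd_mul_left (p + 1) (M₁ * M₂))
    have := hp.two_le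
    omega
  refine mk_inf h0 hc hs (hd₁.trans e1) hM1 hMp _ fun B _ f hf hfp hfA => ?_
  have key : ∀ (M' N : ℕ) [NeZero M'], m ∣ M' → M' ∣ M₁ * M₂ * (p + 1) →
      Alg p M' (N • S.map (emb M' m)) →
      N • (S.map fun x => f (emb (M₁ * M₂ * (p + 1)) m x)).sum = 0 := by
    intro M' N _ h1 h2 h3
    have h4 := hfA _ (alg_up h2 hMp h3)
    rw [Multiset.map_nsmul, Multiset.map_nsmul, Multiset.sum_nsmul, Multiset.map_map,
      Multiset.map_map] at h4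
    rw [← h4]
    congr 2
    exact Multiset.map_congr rfl fun x _ => by
      simp only [Function.comp_apply, emb_emb h1 h2]
  have k1 := key M₁ N₁ hd₁ e1 hA₁
  have k2 := key M₂ N₂ hd₂ e2 hA₂
  rw [← addOrderOf_dvd_iff_nsmul_eq_zero] at k1 k2 ⊢
  exact Nat.dvd_gcd k1 k2

theorem inf_order [Flag] (hZ : Flag.z) (hp : p.Prime) (hmp : m.Coprime p) (hA : Allowed (prA m)) (f₀ : ℕ)
    (hY : IsHodge (Yp p f₀ S)) : Inf p m S f₀ := by
  have hn : NeZero (m * (p + 1)) := ⟨mul_ne_zero (NeZero.ne m) (by omega)⟩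
  have hpp : (p + 1).Coprime p := by simp
  have hMp : (m * (p + 1)).Coprime p := Nat.Coprime.mul_left hmp hpp
  have e1 : m ∣ m * (p + 1) := dvd_mul_right _ _
  have hM1 : 1 < m * (p + 1) := by
    have h4 := Nat.le_of_dvd (Nat.pos_of_ne_zero (NeZero.ne (m * (p + 1))))
      (dvd_mul_left (p + 1) m)
    have := hp.two_le
    omega
  refine mk_inf h0 hc hs e1 hM1 hMp _ fun B _ f hf hfp hfA => ?_
  have hup : IsUnit (p : ZMod m) := by
    rw [ZMod.isUnit_iff_coprime]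
    exact hmp.symm
  have h1 : Alg p m (Yp p f₀ S) := hodge_alg hZ p m hA _ (zero_notMem_Yp hup f₀ h0)
    (by rw [card_Yp]; exact hc.mul_left _) hY
  have h2 := hfA _ (alg_up e1 hMp h1)
  rw [Multiset.map_map] at h2
  rw [← h2]
  exact (sum_Yp_inv (F := fun x => f (emb (m * (p + 1)) m x))
    (fun x => by rw [emb_mul e1, hfp]) f₀ S).symm

theorem inf_order' [Flag] (hp : p.Prime) (hmp : m.Coprime p) (f₀ : ℕ) (hY : IsHodge (Yp p f₀ S)) :
    ∃ j, Inf p m S (2 ^ j * f₀) := by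
  obtain ⟨j, hj⟩ := univ m
  refine ⟨j, ?_⟩
  have hn : NeZero (m * (p + 1)) := ⟨mul_ne_zero (NeZero.ne m) (by omega)⟩
  have hpp : (p + 1).Coprime p := by simp
  have hMp : (m * (p + 1)).Coprime p := Nat.Coprime.mul_left hmp hpp
  have e1 : m ∣ m * (p + 1) := dvd_mul_right _ _
  have hM1 : 1 < m * (p + 1) := by
    have h4 := Nat.le_of_dvd (Nat.pos_of_ne_zero (NeZero.ne (m * (p + 1))))
      (dvd_mul_left (p + 1) m)
    have := hp.two_le
    omega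
  refine mk_inf h0 hc hs e1 hM1 hMp _ fun B _ f hf hfp hfA => ?_
  have hup : IsUnit (p : ZMod m) := by
    rw [ZMod.isUnit_iff_coprime]
    exact hmp.symm
  have h2 := hj B _ (hf.restr e1) (Yp p f₀ S) (zero_notMem_Yp hup f₀ h0) hY
  rw [sum_Yp_inv (F := fun x => f (emb (m * (p + 1)) m x))
    (fun x => by rw [emb_mul e1, hfp]) f₀ S] at h2
  rw [mul_smul]
  exact h2

/-- The system contains a power of two times each Tate character. -/
theorem inf_pow_two [Flag] (hp : p.Prime) (hmp : m.Coprime p) (f₀ : ℕ)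
    (hf0 : 0 < f₀) (hf₀ : (p : ZMod m) ^ f₀ = 1) (hY : IsHodge (Yp p f₀ S)) :
    ∃ j, Inf p m S (2 ^ j) := by
  classical
  obtain ⟨j₀, hj₀⟩ := inf_order' h0 hc hs hp hmp f₀ hY
  have hex : ∃ N, 0 < N ∧ Inf p m S N := ⟨2 ^ j₀ * f₀, by positivity, hj₀⟩
  obtain ⟨hN0, hN⟩ := Nat.find_spec hex
  have hmin := fun N => Nat.find_min' hex (m := N)
  generalize Nat.find hex = N₀ at hN0 hN hmin
  have hdvd : ∀ N, Inf p m S N → N₀ ∣ N := by
    intro N h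
    have h1 := inf_gcd h0 hc hs hp hN h
    have h2 : 0 < Nat.gcd N₀ N := Nat.gcd_pos_of_pos_left N hN0
    have h3 := hmin _ ⟨h2, h1⟩
    have h4 : Nat.gcd N₀ N = N₀ := le_antisymm (Nat.gcd_le_left N hN0) h3
    exact h4 ▸ Nat.gcd_dvd_right N₀ N
  have h2 : ∀ l : ℕ, l.Prime → l ∣ N₀ → l = 2 := by
    intro l hl hlN
    by_contra hl2
    obtain ⟨j, hj⟩ := one_l p hp m hmp S h0 hc hs f₀ hf0 hf₀ hY l hl hl2
      (f₀.factorization l) (ordCompl[l] f₀) (Nat.ordProj_mul_ordCompl_eq_self f₀ l).symm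
      (Nat.coprime_ordCompl hl hf0.ne')
    have h3 := hlN.trans (hdvd _ hj)
    rcases (Nat.Prime.dvd_mul hl).1 h3 with h4 | h4
    · exact hl2 ((Nat.prime_dvd_prime_iff_eq hl Nat.prime_two).1 (hl.dvd_of_dvd_pow h4))
    · exact Nat.not_dvd_ordCompl hl hf0.ne' h4
  obtain ⟨j, hj⟩ : ∃ j, N₀ = 2 ^ j := ⟨_, Nat.eq_prime_pow_of_unique_prime_dvd hN0.ne' @h2⟩
  exact ⟨j, hj ▸ hN⟩

/-- The system contains a power of two times each Tate character. -/
theorem inf_two [Flag] (hZ : Flag.z) (hp : p.Prime) (hmp : m.Coprime p) (hA : Allowed (prA m)) (f₀ : ℕ)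
    (hf0 : 0 < f₀) (hf₀ : (p : ZMod m) ^ f₀ = 1) (hY : IsHodge (Yp p f₀ S)) :
    ∃ j, 2 ^ j ∣ f₀ ∧ Inf p m S (2 ^ j) := by
  classical
  have hex : ∃ N, 0 < N ∧ Inf p m S N := ⟨f₀, hf0, inf_order h0 hc hs hZ hp hmp hA f₀ hY⟩
  obtain ⟨hN0, hN⟩ := Nat.find_spec hex
  have hmin := fun N => Nat.find_min' hex (m := N)
  generalize Nat.find hex = N₀ at hN0 hN hmin
  have hdvd : ∀ N, Inf p m S N → N₀ ∣ N := by
    intro N h
    have h1 := inf_gcd h0 hc hs hp hN h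
    have h2 : 0 < Nat.gcd N₀ N := Nat.gcd_pos_of_pos_left N hN0
    have h3 := hmin _ ⟨h2, h1⟩
    have h4 : Nat.gcd N₀ N = N₀ := le_antisymm (Nat.gcd_le_left N hN0) h3
    exact h4 ▸ Nat.gcd_dvd_right N₀ N
  have h1 := hdvd f₀ (inf_order h0 hc hs hZ hp hmp hA f₀ hY)
  have h2 : ∀ l : ℕ, l.Prime → l ∣ N₀ → l = 2 := by
    intro l hl hlN
    by_contra hl2
    obtain ⟨j, hj⟩ := one_l p hp m hmp S h0 hc hs f₀ hf0 hf₀ hY l hl hl2
      (f₀.factorization l) (ordCompl[l] f₀) (Nat.ordProj_mul_ordCompl_eq_self f₀ l).symm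
      (Nat.coprime_ordCompl hl hf0.ne')
    have h3 := hlN.trans (hdvd _ hj)
    rcases (Nat.Prime.dvd_mul hl).1 h3 with h4 | h4
    · exact hl2 ((Nat.prime_dvd_prime_iff_eq hl Nat.prime_two).1 (hl.dvd_of_dvd_pow h4))
    · exact Nat.not_dvd_ordCompl hl hf0.ne' h4
  obtain ⟨j, hj⟩ : ∃ j, N₀ = 2 ^ j := ⟨_, Nat.eq_prime_pow_of_unique_prime_dvd hN0.ne' @h2⟩
  exact ⟨j, hj ▸ h1, hj ▸ hN⟩

end

/-- Tate characters in a characteristic of odd order. -/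
theorem main_odd [Flag] (hZ : Flag.z) (p : ℕ) (hp : p.Prime) (m : ℕ) [NeZero m] (hmp : m.Coprime p)
    (hA : Allowed (prA m)) (hodd : Odd (orderOf (p : ZMod m))) (S : Multiset (ZMod m))
    (h0 : (0 : ZMod m) ∉ S) (hc : Even S.card) (hs : S.sum = 0) (hT : TateN p S) :
    Inf p m S 1 := by
  obtain ⟨j, h1, h2⟩ := inf_two h0 hc hs hZ hp hmp hA (orderOf (p : ZMod m)) hodd.pos
    (pow_orderOf_eq_one _) (hodge_of_tate hT)
  have hj : j = 0 := by
    by_contra hj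
    have h3 : 2 ∣ orderOf (p : ZMod m) := (dvd_pow_self 2 hj).trans h1
    exact (Nat.not_even_iff_odd.2 hodd) (even_iff_two_dvd.2 h3)
  rw [hj, pow_zero] at h2
  exact h2

end Pool.Agent.FT
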