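import Pool.Agent.FT.Up
import Pool.Agent.FQ.Quot

/-!
# FT-Quot: the group attached to the system

The free abelian group on `ℤ/M` modulo the members of the system `Alg p M`, the class of `0` and the
differences `[x] - [p x]`, with the odd distribution given by the classes of the generators.
-/

set_option autoImplicit false

namespace Pool.Agent.FT

open Finset
open Pool.Agent.Helper9.Fermat (fib mem_fib)
open Pool.Agent.FS (IsHodge emb)

namespace QuotT

open Pool.Agent.Helper9.Fermat (fib_card fib_sum half_ne half_neg cnt cnt_add cnt_zero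
  cnt_singleton cnt_eq ext ext_single ext_cnt wt wt_neg wt_frob wt_sum)
open Pool.Agent.FSU (extra_spec)

noncomputable section

/-! ### basic facts -/

theorem cast_sum_val {m : ℕ} [NeZero m] (T : Multiset (ZMod m)) :
    (((T.map fun x => x.val).sum : ℕ) : ZMod m) = T.sum := by
  induction T using Multiset.induction_on with
  | empty => simp
  | cons x T ih =>
    rw [Multiset.map_cons, Multiset.sum_cons, Nat.cast_add, ih, ZMod.natCast_zmod_val,
      Multiset.sum_cons]

theorem hodge_sum {m : ℕ} [NeZero m] (T : Multiset (ZMod m)) (hc : Even T.card)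
    (hT : IsHodge T) : T.sum = 0 := by
  obtain ⟨k, hk⟩ := hc
  have h1 := hT 1
  simp only [Units.val_one, one_mul] at h1
  rw [hk] at h1
  have h2 : (T.map fun x => x.val).sum = m * k := by
    have h3 : 2 * (T.map fun x => x.val).sum = 2 * (m * k) := by
      rw [h1]
      ring
    omega
  rw [← cast_sum_val, h2, Nat.cast_mul, ZMod.natCast_self, zero_mul]

theorem gen_sum {Z : Prop} {P : Set (ℕ × ℕ)} {m : ℕ} [NeZero m] {S : Multiset (ZMod m)}
    (h : Pool.Agent.FQ.Gen Z P m S) : S.sum = 0 := by
  induction h with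
  | pair x hx => simp
  | standard r hr hrm x hx =>
    exact (Pool.Agent.Helper9.Fermat.Gen.basic (p := 1) (by simp)
      (Pool.Agent.Helper9.Fermat.Gen.standard (p := 1) r hr hrm x hx)).2.2
  | surface S h0 hc hS => exact hodge_sum S (by rw [hc]; decide) hS
  | fourfold p q k l h hP hk t =>
    exact hodge_sum _ (extra_spec h hk t).2.1 (extra_spec h hk t).2.2
  | square hZ S h0 hc hS hu => exact hodge_sum S hc hS
  | join S T _ _ ihS ihT => rw [Multiset.sum_add, ihS, ihT, add_zero]
  | cancel S x hx _ ih =>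
    rw [Multiset.sum_add] at ih
    simpa using ih

variable [Flag] {p M : ℕ} [NeZero M]

/-- Members of the system do not contain zero and have even cardinality and sum zero. -/
theorem basic {S : Multiset (ZMod M)} (h : Alg p M S) :
    (0 : ZMod M) ∉ S ∧ Even S.card ∧ S.sum = 0 := by
  induction h with
  | pair x hx =>
    exact Pool.Agent.Helper9.Fermat.Gen.basic (p := 1) (by simp)
      (Pool.Agent.Helper9.Fermat.Gen.pair (p := 1) x hx)
  | standard r hr hrm x hx =>
    exact Pool.Agent.Helper9.Fermat.Gen.basic (p := 1) (by simp)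
      (Pool.Agent.Helper9.Fermat.Gen.standard (p := 1) r hr hrm x hx)
  | hodge _ S L hL0 hL hS =>
    have h1 := Pool.Agent.FQ.Quot.basic hS
    have h2 := gen_sum hS
    refine ⟨fun h0 => h1.1 ?_, ?_, ?_⟩
    · rw [← emb_zero (m := M) (M := L) hL]
      exact Multiset.mem_map_of_mem _ h0
    · have h3 := h1.2
      rwa [Multiset.card_map] at h3
    · have h3 : (S.map (emb L M)).sum = emb L M S.sum :=
        ((AddMonoidHom.mk' (emb L M) (emb_add hL)).map_multiset_sum S).symm
      rw [h3] at h2
      exact (emb_eq_zero_iff hL).1 h2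
  | curves x y z x' y' z' hx hy hz hx' hy' hz' h h' hT =>
    refine ⟨?_, ?_, ?_⟩
    · simp only [Multiset.insert_eq_cons, Multiset.mem_cons, Multiset.mem_singleton, not_or]
      exact ⟨hx.symm, hy.symm, hz.symm, hx'.symm, hy'.symm, hz'.symm⟩
    · simp only [Multiset.insert_eq_cons, Multiset.card_cons, Multiset.card_singleton]
      decide
    · simp only [Multiset.insert_eq_cons, Multiset.sum_cons, Multiset.sum_singleton]
      linear_combination h + h'
  | squares _ S h0 hc hs _ _ _ => exact ⟨h0, hc, hs⟩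
  | cover _ S h0 hc hs _ _ => exact ⟨h0, hc, hs⟩
  | join S T _ _ ihS ihT =>
    refine ⟨?_, ?_, ?_⟩
    · rw [Multiset.mem_add, not_or]
      exact ⟨ihS.1, ihT.1⟩
    · rw [Multiset.card_add]
      exact ihS.2.1.add ihT.2.1
    · rw [Multiset.sum_add, ihS.2.2, ihT.2.2, add_zero]
  | cancel S x hx _ ih =>
    refine ⟨?_, ?_, ?_⟩
    · intro h
      exact ih.1 (Multiset.mem_add.2 (Or.inl h))
    · have h1 := ih.2.1
      rw [Multiset.card_add] at h1
      have h2 : Multiset.card ({x, -x} : Multiset (ZMod M)) = 2 := by simp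
      rw [h2, Nat.even_add] at h1
      exact h1.2 (by decide)
    · have h1 := ih.2.2
      rw [Multiset.sum_add] at h1
      simpa using h1

omit [Flag] in
theorem tateN_neg {m : ℕ} {S : Multiset (ZMod m)} (h : TateN p S) :
    TateN p (S.map fun z => -z) := by
  obtain ⟨f, hf, hpf, h1⟩ := h
  refine ⟨f, hf, hpf, fun t => ?_⟩
  rw [Multiset.map_map, Multiset.card_map, ← h1 (-t)]
  refine congrArg (fun s => 2 * Multiset.sum s) (Multiset.map_congr rfl fun x _ => ?_)
  rw [Function.comp_apply]
  refine Finset.sum_congr rfl fun i _ => ?_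
  rw [Units.val_neg, neg_mul, mul_neg (t : ZMod m) x]

omit [Flag] in
theorem lst_neg {m : ℕ} (k : ℕ) (l : List ℕ) (u : (ZMod m)ˣ) :
    (lst m k l u).map (fun z => -z) = lst m k l (-u) := by
  unfold lst
  rw [Multiset.map_map]
  refine Multiset.map_congr rfl fun x _ => ?_
  rw [Function.comp_apply, Units.val_neg, neg_mul]

omit [Flag] in
theorem cover_neg {m : ℕ} {S : Multiset (ZMod m)} (hS : Cover S) :
    Cover (S.map fun z => -z) := by
  rcases hS with ⟨hd, t, x, y, z, hx, hy, hz, hs, rfl⟩ | ⟨hd, t, rfl⟩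
  · refine Or.inl ⟨hd, -t, -x, -y, -z, neg_ne_zero.2 hx, neg_ne_zero.2 hy, neg_ne_zero.2 hz,
      by linear_combination -hs, ?_⟩
    rw [Multiset.map_add, lst_neg]
    simp only [Multiset.insert_eq_cons, Multiset.map_cons, Multiset.map_singleton]
  · exact Or.inr ⟨hd, -t, lst_neg _ _ _⟩

theorem neg {S : Multiset (ZMod M)} (h : Alg p M S) : Alg p M (S.map fun z => -z) := by
  induction h with
  | pair x hx =>
    have h := Alg.pair (p := p) (-x) (neg_ne_zero.2 hx)
    simpa using h
  | standard r hr hrm x hx =>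
    have h := Alg.standard (p := p) r hr hrm (-x) (by rw [mul_neg]; exact neg_ne_zero.2 hx)
    change Alg p M ((fib M r (r * -x)).val + _ + _) at h
    change Alg p M (((fib M r (r * x)).val + _ + _).map _)
    have h5 : fib M r (-(r * x)) = fib M r (r * -x) := by rw [mul_neg]
    rw [Multiset.map_add, Multiset.map_add, Pool.Agent.FS.Quot.fib_neg, h5]
    have h3 : Multiset.map (fun z : ZMod M => -z) {-(r * x)} = {-(r * -x)} := by simp
    have h4 : Multiset.map (fun z : ZMod M => -z) (if r = 2 then {((M / 2 : ℕ) : ZMod M)} else 0) =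
        (if r = 2 then {((M / 2 : ℕ) : ZMod M)} else 0) := by
      by_cases h2 : r = 2
      · subst h2
        rw [if_pos rfl, Multiset.map_singleton, half_neg hrm]
      · rw [if_neg h2, Multiset.map_zero]
    rw [h3, h4]
    exact h
  | hodge hZ S L hL0 hL hS =>
    refine Alg.hodge hZ _ L hL0 hL ?_
    have h1 := Pool.Agent.FQ.Quot.neg hS
    rw [Multiset.map_map] at h1 ⊢
    have h2 : (emb L M ∘ fun z => -z) = (fun z => -z) ∘ emb L M := by
      funext z
      exact emb_neg hL z
    rw [h2]
    exact h1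
  | curves x y z x' y' z' hx hy hz hx' hy' hz' h h' hT =>
    have e : Multiset.map (fun w : ZMod M => -w) {x, y, z, x', y', z'} =
        {-x, -y, -z, -x', -y', -z'} := by
      simp
    have hT' := tateN_neg hT
    rw [e] at hT' ⊢
    exact Alg.curves _ _ _ _ _ _ (neg_ne_zero.2 hx) (neg_ne_zero.2 hy) (neg_ne_zero.2 hz)
      (neg_ne_zero.2 hx') (neg_ne_zero.2 hy') (neg_ne_zero.2 hz') (by linear_combination -h)
      (by linear_combination -h') hT'
  | squares hZ S h0 hc hs ho hT hu =>
    refine Alg.squares hZ _ ?_ ?_ ?_ ?_ (tateN_neg hT) ?_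
    · intro h
      obtain ⟨x, hx, hx0⟩ := Multiset.mem_map.1 h
      rw [neg_eq_zero] at hx0
      exact h0 (hx0 ▸ hx)
    · rw [Multiset.card_map]
      exact hc
    · have h1 : (S.map fun z => -z).sum = -S.sum := Multiset.sum_map_neg' S
      rw [h1, hs, neg_zero]
    · intro x hx
      obtain ⟨y, hy, rfl⟩ := Multiset.mem_map.1 hx
      rw [addOrderOf_neg]
      exact ho y hy
    · intro u
      have h1 := congrArg (Multiset.map fun z : ZMod M => -z) (hu u)
      rw [Multiset.map_map] at h1 ⊢
      rw [← h1]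
      refine Multiset.map_congr rfl fun x _ => ?_
      rw [Function.comp_apply, Function.comp_apply, mul_neg]
  | cover hZ S h0 hc hs hT hC =>
    refine Alg.cover hZ _ ?_ ?_ ?_ (tateN_neg hT) (cover_neg hC)
    · intro h
      obtain ⟨x, hx, hx0⟩ := Multiset.mem_map.1 h
      rw [neg_eq_zero] at hx0
      exact h0 (hx0 ▸ hx)
    · rw [Multiset.card_map]
      exact hc
    · have h1 : (S.map fun z => -z).sum = -S.sum := Multiset.sum_map_neg' S
      rw [h1, hs, neg_zero]
  | join S T _ _ ihS ihT =>
    rw [Multiset.map_add]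
    exact Alg.join _ _ ihS ihT
  | cancel S x hx _ ih =>
    refine Alg.cancel _ (-x) (neg_ne_zero.2 hx) ?_
    rw [Multiset.map_add] at ih
    simpa using ih

theorem cancel_all (T : Multiset (ZMod M)) (h0 : (0 : ZMod M) ∉ T) (S : Multiset (ZMod M))
    (h : Alg p M (S + (T + T.map fun z => -z))) : Alg p M S := by
  induction T using Multiset.induction_on with
  | empty => simpa using h
  | cons x T ih =>
    have hx : x ≠ 0 := by
      rintro rfl
      exact h0 (Multiset.mem_cons_self _ _)
    refine ih (fun h1 => h0 (Multiset.mem_cons_of_mem h1)) ?_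
    refine Alg.cancel _ x hx ?_
    have h1 : S + (T + T.map fun z => -z) + {x, -x} =
        S + ((x ::ₘ T) + (x ::ₘ T).map fun z => -z) := by
      rw [Multiset.map_cons, Multiset.insert_eq_cons, ← Multiset.singleton_add x {-x},
        ← Multiset.singleton_add x T, ← Multiset.singleton_add (-x) (T.map _)]
      abel
    rw [h1]
    exact h

omit [Flag] in
theorem map_emb_self (S : Multiset (ZMod M)) : S.map (emb M M) = S := by
  have h : (emb M M : ZMod M → ZMod M) = id := by
    funext x
    rw [emb, Nat.div_self (Nat.pos_of_ne_zero (NeZero.ne M)), one_mul, ZMod.natCast_zmod_val]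
    rfl
  rw [h, Multiset.map_id]

theorem alg_zero (hM : 1 < M) : Alg p M 0 := by
  have : Fact (1 < M) := ⟨hM⟩
  refine Alg.cancel 0 1 one_ne_zero ?_
  rw [zero_add]
  exact Alg.pair 1 one_ne_zero

theorem alg_six (hp : IsUnit (p : ZMod M)) (x y z : ZMod M) (hx : x ≠ 0) (hy : y ≠ 0)
    (hz : z ≠ 0) (h : x + y + z = 0) :
    Alg p M {x, y, z, -((p : ZMod M) * x), -((p : ZMod M) * y), -((p : ZMod M) * z)} := by
  have h1 : ∀ u : ZMod M, u ≠ 0 → -((p : ZMod M) * u) ≠ 0 := by
    intro u hu h2
    rw [neg_eq_zero] at h2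
    exact hu ((hp.mul_right_eq_zero).1 h2)
  refine Alg.curves _ _ _ _ _ _ hx hy hz (h1 x hx) (h1 y hy) (h1 z hz) h
    (by linear_combination -(p : ZMod M) * h) ?_
  obtain ⟨F, hF, hpF⟩ : ∃ F : ℕ, 0 < F ∧ (p : ZMod M) ^ F = 1 := by
    obtain ⟨u, hu⟩ := hp
    refine ⟨Fintype.card (ZMod M)ˣ, Fintype.card_pos, ?_⟩
    rw [← hu, ← Units.val_pow_eq_pow_val, pow_card_eq_one, Units.val_one]
  refine ⟨F, hF, hpF, fun t => ?_⟩
  have h0 : (0 : ZMod M) ∉
      ({x, y, z, -((p : ZMod M) * x), -((p : ZMod M) * y), -((p : ZMod M) * z)} :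
        Multiset (ZMod M)) := by
    simp only [Multiset.insert_eq_cons, Multiset.mem_cons, Multiset.mem_singleton, not_or]
    exact ⟨hx.symm, hy.symm, hz.symm, (h1 x hx).symm, (h1 y hy).symm, (h1 z hz).symm⟩
  have h2 := wt_sum p F hp (t : ZMod M) t.isUnit _ h0
  have h3 : (({x, y, z, -((p : ZMod M) * x), -((p : ZMod M) * y), -((p : ZMod M) * z)} :
      Multiset (ZMod M)).map (wt p F (t : ZMod M))).sum = 0 := by
    simp only [Multiset.insert_eq_cons, Multiset.map_cons, Multiset.map_singleton,
      Multiset.sum_cons, Multiset.sum_singleton, wt_neg, wt_frob p F hpF]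
    ring
  rw [h3] at h2
  have h4 : ((2 * (({x, y, z, -((p : ZMod M) * x), -((p : ZMod M) * y), -((p : ZMod M) * z)} :
      Multiset (ZMod M)).map fun x => ∑ i ∈ range F,
        ((p : ZMod M) ^ i * ((t : ZMod M) * x)).val).sum : ℕ) : ℤ) =
      ((M * F * (Multiset.card ({x, y, z, -((p : ZMod M) * x), -((p : ZMod M) * y),
        -((p : ZMod M) * z)} : Multiset (ZMod M))) : ℕ) : ℤ) := by
    rw [Nat.cast_mul, Nat.cast_mul, Nat.cast_mul, Nat.cast_ofNat]
    linarith
  exact_mod_cast h4

/-! ### the group -/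

variable (p M)

/-- the subgroup generated by the members of the system and the class of `0` -/
def subA : AddSubgroup (ZMod M → ℤ) :=
  AddSubgroup.closure ({f | ∃ S, Alg p M S ∧ f = cnt S} ∪ {Pi.single 0 1})

variable {p M}

theorem cnt_mem {S : Multiset (ZMod M)} (h : Alg p M S) : cnt S ∈ subA p M :=
  AddSubgroup.subset_closure (Or.inl ⟨S, h, rfl⟩)

theorem exists_of_mem (hM : 1 < M) {f : ZMod M → ℤ} (hf : f ∈ subA p M) :
    ∃ S T : Multiset (ZMod M), Alg p M S ∧ Alg p M T ∧ ∃ n : ℤ,
      f = cnt S - cnt T + n • Pi.single (0 : ZMod M) 1 := by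
  unfold subA at hf
  induction hf using AddSubgroup.closure_induction with
  | mem x hx =>
    rcases hx with ⟨S, hS, rfl⟩ | hx
    · exact ⟨S, 0, hS, alg_zero hM, 0, by rw [cnt_zero]; simp⟩
    · rw [Set.mem_singleton_iff] at hx
      exact ⟨0, 0, alg_zero hM, alg_zero hM, 1, by rw [hx]; simp⟩
  | zero => exact ⟨0, 0, alg_zero hM, alg_zero hM, 0, by simp⟩
  | add x y _ _ ihx ihy =>
    obtain ⟨S, T, hS, hT, n, rfl⟩ := ihx
    obtain ⟨S', T', hS', hT', n', rfl⟩ := ihy
    refine ⟨S + S', T + T', Alg.join _ _ hS hS', Alg.join _ _ hT hT', n + n', ?_⟩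
    rw [cnt_add, cnt_add, add_smul]
    abel
  | neg x _ ih =>
    obtain ⟨S, T, hS, hT, n, rfl⟩ := ih
    refine ⟨T, S, hT, hS, -n, ?_⟩
    rw [neg_smul]
    abel

/-- A multiset without zero whose multiplicity function is in the group is a member of the
system. -/
theorem alg_of_mem (hM : 1 < M) {S : Multiset (ZMod M)}
    (h0 : (0 : ZMod M) ∉ S) (h : cnt S ∈ subA p M) : Alg p M S := by
  obtain ⟨S1, S2, h1, h2, n, hn⟩ := exists_of_mem hM h
  have h3 : n = 0 := by
    have h4 := congrFun hn 0
    have h5 : cnt S1 (0 : ZMod M) = 0 := by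
      simp only [cnt]
      rw [Multiset.count_eq_zero_of_notMem (basic h1).1]
      rfl
    have h6 : cnt S2 (0 : ZMod M) = 0 := by
      simp only [cnt]
      rw [Multiset.count_eq_zero_of_notMem (basic h2).1]
      rfl
    have h7 : cnt S (0 : ZMod M) = 0 := by
      simp only [cnt]
      rw [Multiset.count_eq_zero_of_notMem h0]
      rfl
    simp only [Pi.add_apply, Pi.sub_apply, Pi.smul_apply, Pi.single_eq_same, h5, h6, h7] at h4
    simpa using h4.symm
  subst h3
  have h4 : S + S2 = S1 := by
    ext x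
    have h5 := congrFun hn x
    simp only [cnt, Pi.add_apply, Pi.sub_apply, zero_smul, Pi.zero_apply, add_zero] at h5
    rw [Multiset.count_add]
    omega
  refine cancel_all S2 (basic h2).1 S ?_
  rw [← add_assoc, h4]
  exact Alg.join _ _ h1 (neg h2)

variable (p M)

/-- the quotient group -/
abbrev QA := (ZMod M → ℤ) ⧸ subA p M

variable {M}

/-- the class of a generator -/
def ee (x : ZMod M) : QA p M :=
  QuotientAddGroup.mk' (subA p M) (Pi.single x 1)

/-- the class of a multiset -/
def cl (S : Multiset (ZMod M)) : QA p M :=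
  QuotientAddGroup.mk' (subA p M) (cnt S)

variable {p}

theorem cl_eq (S : Multiset (ZMod M)) : cl p S = (S.map (ee p)).sum := by
  rw [cl, cnt_eq, map_multiset_sum, Multiset.map_map]
  rfl

theorem cl_eq_zero {S : Multiset (ZMod M)} (h : Alg p M S) : cl p S = 0 := by
  rw [cl, QuotientAddGroup.mk'_apply, QuotientAddGroup.eq_zero_iff]
  exact cnt_mem h

theorem alg_of_cl (hM : 1 < M) {S : Multiset (ZMod M)}
    (h0 : (0 : ZMod M) ∉ S) (h : cl p S = 0) : Alg p M S := by
  rw [cl, QuotientAddGroup.mk'_apply, QuotientAddGroup.eq_zero_iff] at h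
  exact alg_of_mem hM h0 h

theorem ee_zero : ee p (0 : ZMod M) = 0 := by
  rw [ee, QuotientAddGroup.mk'_apply, QuotientAddGroup.eq_zero_iff]
  exact AddSubgroup.subset_closure (Or.inr rfl)

theorem ee_neg (x : ZMod M) : ee p (-x) = - ee p x := by
  by_cases hx : x = 0
  · rw [hx, neg_zero, ee_zero, neg_zero]
  · have h := cl_eq_zero (Alg.pair (p := p) x hx)
    rw [cl_eq] at h
    simp only [Multiset.insert_eq_cons, Multiset.map_cons, Multiset.map_singleton,
      Multiset.sum_cons, Multiset.sum_singleton] at h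
    rw [eq_neg_iff_add_eq_zero, add_comm]
    exact h

/-- the additive homomorphism given by the graphs of Frobenius -/
def gg (hp : IsUnit (p : ZMod M)) : ZMod M →+ QA p M :=
  AddMonoidHom.mk' (fun x => ee p x - ee p ((p : ZMod M) * x)) (by
    intro x y
    have key : ∀ x y z : ZMod M, x ≠ 0 → y ≠ 0 → z ≠ 0 → x + y + z = 0 →
        (ee p x - ee p ((p : ZMod M) * x)) + (ee p y - ee p ((p : ZMod M) * y)) +
          (ee p z - ee p ((p : ZMod M) * z)) = 0 := by
      intro x y z hx hy hz h
      have h1 := cl_eq_zero (alg_six hp x y z hx hy hz h)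
      rw [cl_eq] at h1
      simp only [Multiset.insert_eq_cons, Multiset.map_cons, Multiset.map_singleton,
        Multiset.sum_cons, Multiset.sum_singleton, ee_neg] at h1
      rw [← h1]
      abel
    by_cases hx : x = 0
    · subst hx
      rw [zero_add, mul_zero, ee_zero]
      abel
    by_cases hy : y = 0
    · subst hy
      rw [add_zero, mul_zero, ee_zero]
      abel
    by_cases hz : x + y = 0
    · have h1 : y = -x := by linear_combination hz
      rw [h1, mul_neg, ee_neg, ee_neg, add_neg_cancel, mul_zero, ee_zero]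
      abel
    have h1 := key x y (-(x + y)) hx hy (neg_ne_zero.2 hz) (by ring)
    rw [mul_neg, ee_neg, ee_neg] at h1
    rw [← sub_eq_zero, ← neg_eq_zero, ← h1]
    abel)

theorem gg_apply (hp : IsUnit (p : ZMod M)) (x : ZMod M) :
    gg hp x = ee p x - ee p ((p : ZMod M) * x) := rfl

/-- the distribution relation -/
theorem ee_dist {r : ℕ} (hr : r.Prime) (hrm : r ∣ M) (x : ZMod M) (hx : (r : ZMod M) * x ≠ 0) :
    ee p ((r : ZMod M) * x) = ∑ z ∈ fib M r (r * x), ee p z +
      (if r = 2 then ee p ((M / 2 : ℕ) : ZMod M) else 0) := by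
  have h := cl_eq_zero (Alg.standard (p := p) r hr hrm x hx)
  change cl p ((fib M r (r * x)).val + _ + _) = 0 at h
  rw [cl_eq, Multiset.map_add, Multiset.map_add, Multiset.sum_add, Multiset.sum_add,
    Multiset.map_singleton, Multiset.sum_singleton, ee_neg] at h
  have h2 : (Multiset.map (ee p) (if r = 2 then {((M / 2 : ℕ) : ZMod M)} else 0)).sum =
      (if r = 2 then ee p ((M / 2 : ℕ) : ZMod M) else 0) := by
    by_cases h2 : r = 2
    · rw [if_pos h2, if_pos h2, Multiset.map_singleton, Multiset.sum_singleton]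
    · rw [if_neg h2, if_neg h2, Multiset.map_zero, Multiset.sum_zero]
  rw [h2] at h
  rw [← sub_eq_zero, ← neg_eq_zero]
  refine Eq.trans ?_ h
  rw [Finset.sum]
  abel

theorem ext_ker : subA p M ≤ (ext (fun x : ZMod M => x)).ker := by
  rw [subA, AddSubgroup.closure_le]
  rintro f (⟨S, hS, rfl⟩ | hf)
  · change ext (fun x : ZMod M => x) (cnt S) = 0
    rw [ext_cnt, Multiset.map_id', (basic hS).2.2]
  · rw [Set.mem_singleton_iff] at hf
    change ext (fun x : ZMod M => x) f = 0
    rw [hf, ext_single]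

/-- the sum of the elements -/
def sm (p M : ℕ) [NeZero M] : QA p M →+ ZMod M :=
  QuotientAddGroup.lift (subA p M) (ext fun x : ZMod M => x) ext_ker

theorem sm_ee (x : ZMod M) : sm p M (ee p x) = x := ext_single _ x

theorem sm_cl (S : Multiset (ZMod M)) : sm p M (cl p S) = S.sum := by
  have h : sm p M (cl p S) = ext (fun x : ZMod M => x) (cnt S) := rfl
  rw [h, ext_cnt, Multiset.map_id']

/-! ### the odd distribution -/

/-- the class of `M / 2` -/
def cc (p M : ℕ) [NeZero M] : QA p M := if 2 ∣ M then ee p ((M / 2 : ℕ) : ZMod M) else 0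

theorem two_half (h2 : 2 ∣ M) :
    ee p ((M / 2 : ℕ) : ZMod M) + ee p ((M / 2 : ℕ) : ZMod M) = 0 := by
  have h := ee_neg (p := p) ((M / 2 : ℕ) : ZMod M)
  rw [half_neg h2] at h
  exact eq_neg_iff_add_eq_zero.mp h

theorem cc_add : cc p M + cc p M = 0 := by
  unfold cc
  split_ifs with h2
  · exact two_half h2
  · exact add_zero _

theorem nsmul_cc {k : ℕ} (hk : Even k) : k • cc p M = 0 := by
  obtain ⟨j, rfl⟩ := hk
  rw [← two_mul, mul_comm, mul_nsmul', two_nsmul, cc_add]
  simp

variable (p)

/-- the odd distribution -/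
def ff (x : ZMod M) : QA p M := if x = 0 then 0 else ee p x + cc p M

variable {p}

theorem ff_of_ne {x : ZMod M} (hx : x ≠ 0) : ff p x = ee p x + cc p M := if_neg hx

theorem ff_zero : ff p (0 : ZMod M) = 0 := if_pos rfl

theorem ff_neg (x : ZMod M) : ff p (-x) = - ff p x := by
  by_cases hx : x = 0
  · rw [hx, neg_zero, ff_zero, neg_zero]
  · rw [ff_of_ne hx, ff_of_ne (neg_ne_zero.2 hx), ee_neg, neg_add]
    congr 1
    exact eq_neg_of_add_eq_zero_left cc_add

theorem ff_dist {r : ℕ} (hr : r.Prime) (hrm : r ∣ M) (y : ZMod M) :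
    ∑ z ∈ fib M r ((r : ZMod M) * y), ff p z = ff p ((r : ZMod M) * y) := by
  by_cases hy : (r : ZMod M) * y = 0
  · rw [hy, ff_zero]
    refine Finset.sum_involution (fun z _ => -z) ?_ ?_ ?_ ?_
    · intro z _
      rw [ff_neg, add_neg_cancel]
    · intro z _ hz hneg
      apply hz
      rcases (ZMod.neg_eq_self_iff z).mp hneg with h0 | h0
      · rw [h0, ff_zero]
      · have h2 : 2 ∣ M := ⟨z.val, h0.symm⟩
        have h3 : z = ((M / 2 : ℕ) : ZMod M) := by
          have h4 : M / 2 = z.val := by omega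
          rw [h4, ZMod.natCast_zmod_val]
        rw [h3, ff_of_ne (half_ne h2), cc, if_pos h2, two_half h2]
    · intro z hz
      rw [mem_fib] at hz ⊢
      rw [mul_neg, hz, neg_zero]
    · intro z _
      exact neg_neg z
  · have h1 : ∀ z ∈ fib M r (r * y), ff p z = ee p z + cc p M := by
      intro z hz
      refine ff_of_ne ?_
      rintro rfl
      rw [mem_fib, mul_zero] at hz
      exact hy hz.symm
    rw [sum_congr rfl h1, sum_add_distrib, sum_const, fib_card hr.pos hrm, ff_of_ne hy,
      ee_dist hr hrm y hy]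
    by_cases hr2 : r = 2
    · subst hr2
      rw [if_pos rfl, two_nsmul, add_assoc, cc, if_pos hrm]
    · rw [if_neg hr2, add_zero]
      obtain ⟨j, hj⟩ := hr.odd_of_ne_two hr2
      rw [hj, add_nsmul, one_nsmul, nsmul_cc (even_two_mul j), zero_add]

theorem ff_sum (S : Multiset (ZMod M)) (h0 : (0 : ZMod M) ∉ S) :
    (S.map (ff p)).sum = cl p S + S.card • cc p M := by
  rw [cl_eq]
  induction S using Multiset.induction_on with
  | empty => simp
  | cons x T ih =>
    have hx : x ≠ 0 := by
      rintro rfl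
      exact h0 (Multiset.mem_cons_self _ _)
    rw [Multiset.map_cons, Multiset.sum_cons, ih (fun h => h0 (Multiset.mem_cons_of_mem h)),
      Multiset.map_cons, Multiset.sum_cons, Multiset.card_cons, ff_of_ne hx, add_nsmul, one_nsmul]
    abel

end

end QuotT

open QuotT in
/-- the group generated by the elements of `ℤ/M` modulo the members of the system and `x - p x` -/
theorem exists_B [Flag] (p M : ℕ) [NeZero M] (hM : 1 < M) (hp : IsUnit (p : ZMod M)) :
    ∃ (B : Type) (_ : AddCommGroup B) (f : ZMod M → B), ODist M f ∧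
      (∀ x, f ((p : ZMod M) * x) = f x) ∧
      (∀ S, Alg p M S → (S.map f).sum = 0) ∧
      ∀ S : Multiset (ZMod M), (0 : ZMod M) ∉ S → Even S.card → S.sum = 0 →
        (S.map f).sum = 0 → Alg p M S := by
  refine ⟨QA p M ⧸ (gg hp).range, inferInstance,
    fun x => QuotientAddGroup.mk' (gg hp).range (ff p x), ⟨?_, ?_, ?_⟩, ?_, ?_, ?_⟩
  · rw [ff_zero, map_zero]
  · intro x
    rw [ff_neg, map_neg]
  · intro r hr hrm y
    rw [← map_sum, ff_dist hr hrm]
  · intro x
    by_cases hx : x = 0
    · rw [hx, mul_zero]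
    · have hpx : (p : ZMod M) * x ≠ 0 := fun h => hx ((hp.mul_right_eq_zero).1 h)
      change QuotientAddGroup.mk' (gg hp).range (ff p ((p : ZMod M) * x)) =
        QuotientAddGroup.mk' (gg hp).range (ff p x)
      rw [ff_of_ne hx, ff_of_ne hpx]
      refine QuotientAddGroup.eq.2 ⟨x, ?_⟩
      rw [gg_apply]
      abel
  · intro S hS
    have hb := basic hS
    have h1 : (S.map fun x => QuotientAddGroup.mk' (gg hp).range (ff p x)).sum =
        QuotientAddGroup.mk' (gg hp).range (S.map (ff p)).sum := by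
      rw [map_multiset_sum, Multiset.map_map]
      rfl
    rw [h1, ff_sum S hb.1, cl_eq_zero hS, nsmul_cc hb.2.1, add_zero, map_zero]
  · intro S h0 hc hs hsum
    have h1 : (S.map fun x => QuotientAddGroup.mk' (gg hp).range (ff p x)).sum =
        QuotientAddGroup.mk' (gg hp).range (S.map (ff p)).sum := by
      rw [map_multiset_sum, Multiset.map_map]
      rfl
    rw [h1, ff_sum S h0, nsmul_cc hc, add_zero, QuotientAddGroup.mk'_apply,
      QuotientAddGroup.eq_zero_iff] at hsum
    obtain ⟨s, hs'⟩ := hsum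
    have h2 : s - (p : ZMod M) * s = 0 := by
      have h3 := congrArg (sm p M) hs'
      rwa [sm_cl, hs, gg_apply, map_sub, sm_ee, sm_ee] at h3
    refine alg_of_cl hM h0 ?_
    rw [← hs', gg_apply, ← sub_eq_zero.1 h2, sub_self]

end Pool.Agent.FT
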