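import Pool.Agent.FT.Up

/-!
# FT-Step1: an auxiliary prime

For a prime `k` not dividing `m` and an odd distribution `f` of level `m k`, invariant under `p`, the
sum over the elements of order `k` modulo the powers of `p ^ f₀` is an odd distribution of level `m`
(except for the value at zero), with the relation given by the distribution relation at `k`.
-/

set_option autoImplicit false

namespace Pool.Agent.FT

open Finset
open Pool.Agent.Helper9.Fermat (fib mem_fib)
open Pool.Agent.FS (IsHodge emb)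

section quotient

variable {G : Type} [CommGroup G] [Fintype G] {B : Type} [AddCommGroup B] {H : Subgroup G}
  {h : G → B}

omit [Fintype G] in
private theorem step1_out (hH : ∀ a ∈ H, ∀ u, h (u * a) = h u) (u : G) :
    h (QuotientGroup.mk (s := H) u).out = h u := by
  obtain ⟨a, ha⟩ := QuotientGroup.mk_out_eq_mul H u
  rw [ha, hH a a.2]

private theorem step1_shift [Fintype (G ⧸ H)] (hH : ∀ a ∈ H, ∀ u, h (u * a) = h u) (w : G) :
    ∑ q : G ⧸ H, h (w * q.out) = ∑ q : G ⧸ H, h q.out := by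
  have h1 : ∀ q : G ⧸ H, h (w * q.out) = h ((QuotientGroup.mk (s := H) w) * q).out := by
    intro q
    rw [← step1_out hH (w * q.out), QuotientGroup.mk_mul, QuotientGroup.out_eq']
  simp only [h1]
  exact Equiv.sum_comp (Equiv.mulLeft (QuotientGroup.mk (s := H) w)) (fun q : G ⧸ H => h q.out)

private theorem step1_total [Fintype (G ⧸ H)] (hH : ∀ a ∈ H, ∀ u, h (u * a) = h u) :
    ∑ u : G, h u = Nat.card H • ∑ q : G ⧸ H, h q.out := by
  classical
  have hbij : Function.Bijective fun x : (G ⧸ H) × H => x.1.out * (x.2 : G) := by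
    constructor
    · rintro ⟨q, a⟩ ⟨q', a'⟩ he
      have he' : q.out * (a : G) = q'.out * (a' : G) := he
      have h1 : QuotientGroup.mk (s := H) (q.out * (a : G)) = q := by
        rw [QuotientGroup.mk_mul_of_mem _ a.2, QuotientGroup.out_eq']
      have h2 : QuotientGroup.mk (s := H) (q'.out * (a' : G)) = q' := by
        rw [QuotientGroup.mk_mul_of_mem _ a'.2, QuotientGroup.out_eq']
      have h3 : q = q' := by rw [← h1, ← h2, he']
      subst h3
      have h4 : (a : G) = a' := mul_left_cancel he'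
      rw [Subtype.ext h4]
    · intro u
      obtain ⟨a, ha⟩ := QuotientGroup.mk_out_eq_mul H u
      refine ⟨(QuotientGroup.mk u, a⁻¹), ?_⟩
      show (QuotientGroup.mk (s := H) u).out * ((a⁻¹ : H) : G) = u
      rw [ha, Subgroup.coe_inv, mul_inv_cancel_right]
  rw [← hbij.sum_comp h, Fintype.sum_prod_type, Finset.smul_sum]
  refine Finset.sum_congr rfl fun q _ => ?_
  have h1 : ∀ a : H, h (q.out * (a : G)) = h q.out := fun a => hH a a.2 _
  simp only [h1]
  rw [Finset.sum_const, card_univ, Nat.card_eq_fintype_card]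

end quotient

/-- For a prime `k` not dividing `m` and an odd distribution `f` of level `m k`, invariant under
`p`, let `F x` be the sum of `f (x + v)` over the elements `v` of order `k` modulo the powers of
`p ^ f₀`. -/
theorem step1 {m k : ℕ} [NeZero m] [NeZero (m * k)] (hk : k.Prime) (hkm : ¬ k ∣ m) {p : ℕ}
    (hp : IsUnit (p : ZMod (m * k))) {B : Type} [AddCommGroup B] (f : ZMod (m * k) → B)
    (hf : ODist (m * k) f) (hfp : ∀ x, f ((p : ZMod (m * k)) * x) = f x) (f₀ : ℕ)
    (hf₀ : (p : ZMod m) ^ f₀ = 1) :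
    ∃ F : ZMod m → B, (∀ x, F (-x) = - F x) ∧
      (∀ r : ℕ, r.Prime → r ∣ m → ∀ y : ZMod m,
        ∑ z ∈ fib m r ((r : ZMod m) * y), F z = F ((r : ZMod m) * y)) ∧
      (∀ x, F ((p : ZMod m) * x) = F x) ∧
      ∀ x, f (emb (m * k) m ((k : ZMod m) * x)) =
        f (emb (m * k) m x) + orderOf ((p : ZMod k) ^ f₀) • F x := by
  classical
  have hkf : Fact k.Prime := ⟨hk⟩
  have hkz : NeZero k := ⟨hk.ne_zero⟩
  have hm : m ∣ m * k := dvd_mul_right m k
  have hk' : k ∣ m * k := dvd_mul_left k m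
  -- `p` as a unit modulo `k`
  have hpc : Nat.Coprime p k := by
    rw [ZMod.isUnit_iff_coprime] at hp
    exact Nat.Coprime.coprime_dvd_right hk' hp
  obtain ⟨p', hp'⟩ : ∃ u : (ZMod k)ˣ, (u : ZMod k) = (p : ZMod k) :=
    ⟨ZMod.unitOfCoprime p hpc, ZMod.coe_unitOfCoprime p hpc⟩
  set P : (ZMod k)ˣ := p' ^ f₀ with hP
  set H : Subgroup (ZMod k)ˣ := Subgroup.zpowers P with hHdef
  set i := emb (m * k) m with hi
  set j := emb (m * k) k with hj
  -- invariance
  have hfpow : ∀ (n : ℕ) (x : ZMod (m * k)), f ((p : ZMod (m * k)) ^ n * x) = f x := by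
    intro n
    induction n with
    | zero => intro x; rw [pow_zero, one_mul]
    | succ n ih => intro x; rw [pow_succ', mul_assoc, hfp, ih]
  have hinvP : ∀ (x : ZMod m) (u : (ZMod k)ˣ),
      f (i x + j ((u * P : (ZMod k)ˣ) : ZMod k)) = f (i x + j (u : ZMod k)) := by
    intro x u
    rw [← hfpow f₀ (i x + j (u : ZMod k)), mul_add]
    have h1 : (p : ZMod (m * k)) ^ f₀ * i x = i x := by
      rw [← Nat.cast_pow, hi, ← emb_mul hm, Nat.cast_pow, hf₀, one_mul]
    have h2 : (p : ZMod (m * k)) ^ f₀ * j (u : ZMod k) = j ((u * P : (ZMod k)ˣ) : ZMod k) := by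
      rw [← Nat.cast_pow, hj, ← emb_mul hk', Nat.cast_pow, ← hp', Units.val_mul, hP,
        Units.val_pow_eq_pow_val]
      congr 1
      ring
    rw [h1, h2]
  have hinv : ∀ (x : ZMod m), ∀ a ∈ H, ∀ u : (ZMod k)ˣ,
      f (i x + j ((u * a : (ZMod k)ˣ) : ZMod k)) = f (i x + j (u : ZMod k)) := by
    intro x a ha
    obtain ⟨n, rfl⟩ := Subgroup.mem_zpowers_iff.1 ha
    induction n using Int.induction_on with
    | zero => intro u; rw [zpow_zero, mul_one]
    | succ n ih =>
      intro u
      rw [zpow_add_one, ← mul_assoc, hinvP]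
      exact ih (Subgroup.zpow_mem_zpowers _ _) u
    | pred n ih =>
      intro u
      rw [← hinvP x (u * P ^ (-(n : ℤ) - 1)), mul_assoc, ← zpow_add_one, sub_add_cancel]
      exact ih (Subgroup.zpow_mem_zpowers _ _) u
  refine ⟨fun x => ∑ q : (ZMod k)ˣ ⧸ H, f (i x + j ((q.out : (ZMod k)ˣ) : ZMod k)), ?_, ?_, ?_, ?_⟩
  · intro x
    show ∑ q : (ZMod k)ˣ ⧸ H, f (i (-x) + j ((q.out : (ZMod k)ˣ) : ZMod k)) =
      -∑ q : (ZMod k)ˣ ⧸ H, f (i x + j ((q.out : (ZMod k)ˣ) : ZMod k))
    rw [← step1_shift (h := fun u : (ZMod k)ˣ => f (i x + j (u : ZMod k))) (hinv x) (-1),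
      ← Finset.sum_neg_distrib]
    refine Finset.sum_congr rfl fun q _ => ?_
    rw [← hf.odd]
    congr 1
    have h1 : i (-x) = -i x := emb_neg hm x
    have h2 : (((-1 : (ZMod k)ˣ) * q.out : (ZMod k)ˣ) : ZMod k) = -((q.out : (ZMod k)ˣ) : ZMod k) := by
      rw [Units.val_mul, Units.val_neg, Units.val_one, neg_one_mul]
    have h3 : j (-((q.out : (ZMod k)ˣ) : ZMod k)) = -j ((q.out : (ZMod k)ˣ) : ZMod k) :=
      emb_neg hk' _
    rw [h1, h2, h3]
    ring
  · intro r hr hrm y
    show ∑ z ∈ fib m r ((r : ZMod m) * y),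
        ∑ q : (ZMod k)ˣ ⧸ H, f (i z + j ((q.out : (ZMod k)ˣ) : ZMod k)) =
      ∑ q : (ZMod k)ˣ ⧸ H, f (i ((r : ZMod m) * y) + j ((q.out : (ZMod k)ˣ) : ZMod k))
    have hrk : Nat.Coprime r k := by
      rw [Nat.coprime_primes hr hk]
      rintro rfl
      exact hkm hrm
    obtain ⟨r', hr'⟩ : ∃ u : (ZMod k)ˣ, (u : ZMod k) = (r : ZMod k) :=
      ⟨ZMod.unitOfCoprime r hrk, ZMod.coe_unitOfCoprime r hrk⟩
    rw [← step1_shift (h := fun u : (ZMod k)ˣ => f (i ((r : ZMod m) * y) + j (u : ZMod k)))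
      (hinv _) r', Finset.sum_comm]
    refine Finset.sum_congr rfl fun q _ => ?_
    set u : ZMod k := ((q.out : (ZMod k)ˣ) : ZMod k) with hu
    have h1 := hf.dist r hr (hrm.trans hm) (i y + j u)
    have h2 : fib (m * k) r ((r : ZMod (m * k)) * (i y + j u)) =
        (fib m r ((r : ZMod m) * y)).image fun z => i z + j u := by
      ext w
      rw [mem_fib, mem_image]
      constructor
      · intro hw
        have h3 : w - j u ∈ fib (m * k) r ((r : ZMod (m * k)) * i y) := by
          rw [mem_fib, mul_sub, hw]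
          ring
        rw [hi, fib_emb hm hrm y, mem_image] at h3
        obtain ⟨z, hz, hzw⟩ := h3
        exact ⟨z, hz, by rw [hi, hzw]; ring⟩
      · rintro ⟨z, hz, rfl⟩
        have h3 : i z ∈ fib (m * k) r ((r : ZMod (m * k)) * i y) := by
          rw [hi, fib_emb hm hrm y, mem_image]
          exact ⟨z, hz, rfl⟩
        rw [mem_fib] at h3
        rw [mul_add, h3]
        ring
    rw [h2, Finset.sum_image] at h1
    · rw [h1]
      show f ((r : ZMod (m * k)) * (i y + j u)) =
        f (i ((r : ZMod m) * y) + j ((r' * q.out : (ZMod k)ˣ) : ZMod k))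
      rw [Units.val_mul, hr', mul_add, hi, hj, emb_mul hm, emb_mul hk']
    · intro a _ b _ hab
      exact emb_inj hm (add_right_cancel hab)
  · intro x
    show ∑ q : (ZMod k)ˣ ⧸ H, f (i ((p : ZMod m) * x) + j ((q.out : (ZMod k)ˣ) : ZMod k)) =
      ∑ q : (ZMod k)ˣ ⧸ H, f (i x + j ((q.out : (ZMod k)ˣ) : ZMod k))
    rw [← step1_shift (h := fun u : (ZMod k)ˣ => f (i x + j (u : ZMod k))) (hinv x) p'⁻¹]
    refine Finset.sum_congr rfl fun q _ => ?_
    rw [← hfp (i x + j ((p'⁻¹ * q.out : (ZMod k)ˣ) : ZMod k)), mul_add]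
    congr 1
    rw [hi, hj, emb_mul hm, ← emb_mul hk']
    congr 2
    rw [Units.val_mul, ← mul_assoc, ← hp', ← Units.val_mul, mul_inv_cancel, Units.val_one,
      one_mul]
  · intro x
    have hord : orderOf ((p : ZMod k) ^ f₀) = Nat.card H := by
      rw [← hp', ← Units.val_pow_eq_pow_val, ← hP, orderOf_units, hHdef, Nat.card_zpowers]
    have h1 := hf.dist k hk hk' (i x)
    have h2 : fib (m * k) k ((k : ZMod (m * k)) * i x) =
        (univ : Finset (ZMod k)).image fun v => i x + j v := by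
      ext w
      rw [mem_fib, mem_image]
      constructor
      · intro hw
        have h3 : (k : ZMod (m * k)) * (w - i x) = 0 := by
          rw [mul_sub, hw, sub_self]
        obtain ⟨v, hv⟩ := exists_emb hk' h3
        exact ⟨v, mem_univ _, by rw [hj, hv]; ring⟩
      · rintro ⟨v, -, rfl⟩
        rw [mul_add, hj, mul_emb hk' v, add_zero]
    rw [h2, Finset.sum_image] at h1
    · have h4 : f (i ((k : ZMod m) * x)) = f ((k : ZMod (m * k)) * i x) := by
        rw [hi, emb_mul hm]
      rw [h4, ← h1, Fintype.sum_eq_add_sum_compl (0 : ZMod k)]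
      have h5 : j (0 : ZMod k) = 0 := emb_zero hk'
      rw [h5, add_zero]
      congr 1
      show _ = orderOf ((p : ZMod k) ^ f₀) •
        ∑ q : (ZMod k)ˣ ⧸ H, f (i x + j ((q.out : (ZMod k)ˣ) : ZMod k))
      rw [hord, ← step1_total (h := fun u : (ZMod k)ˣ => f (i x + j (u : ZMod k))) (hinv x)]
      symm
      refine Finset.sum_bij (fun (u : (ZMod k)ˣ) _ => (u : ZMod k)) ?_ ?_ ?_ ?_
      · intro u _
        rw [mem_compl, mem_singleton]
        exact u.ne_zero
      · intro u _ v _ huv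
        exact Units.ext huv
      · intro v hv
        rw [mem_compl, mem_singleton] at hv
        exact ⟨Units.mk0 v hv, mem_univ _, rfl⟩
      · intro u _
        rfl
    · intro a _ b _ hab
      exact emb_inj hk' (add_left_cancel hab)

end Pool.Agent.FT
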