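import Pool.Agent.FT.Up

/-!
# FT-Tower: the tower for a prime divisor of the level

An odd distribution `f` of level `m l ^ c`, invariant under `p`, factors on the elements which are
not divisible by `l` through a function `g` of level `m` (lifting the exponent). The odd
distribution `F` of level `m` is the sum of `g w - g (t w)` over all roots `w` of `l ^ j w = x`,
`j < a`, which are not divisible by `l`.
-/

set_option autoImplicit false

namespace Pool.Agent.FT

open Finset
open Pool.Agent.Helper9.Fermat (fib mem_fib fib_card)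
open Pool.Agent.FS (IsHodge emb)

/-- lifting the exponent -/
private theorem tower_lte {l a P : ℕ} (hl : l.Prime) (ha : 0 < a) (ha2 : l = 2 → 2 ≤ a)
    (hP : 1 < P) (h1 : l ^ a ∣ P - 1) (h2 : ¬ l ^ (a + 1) ∣ P - 1) (c n : ℕ)
    (h : l ^ (a + c) ∣ P ^ n - 1) : l ^ c ∣ n := by
  have := Fact.mk hl
  rcases Nat.eq_zero_or_pos n with rfl | hn
  · exact dvd_zero _
  have hlP1 : l ∣ P - 1 := (dvd_pow_self l ha.ne').trans h1
  have hlP : ¬ l ∣ P := by
    intro h3
    have : l ∣ P - (P - 1) := Nat.dvd_sub h3 hlP1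
    rw [Nat.sub_sub_self hP.le] at this
    exact hl.one_lt.ne' (Nat.dvd_one.mp this)
  have hP0 : P - 1 ≠ 0 := by omega
  have hva : padicValNat l (P - 1) = a := by
    apply le_antisymm
    · by_contra h3
      exact h2 ((padicValNat_dvd_iff_le hP0).mpr (by omega))
    · exact (padicValNat_dvd_iff_le hP0).mp h1
  have hPn : P ^ n - 1 ≠ 0 := by
    have : 1 < P ^ n := Nat.one_lt_pow hn.ne' hP
    omega
  rw [padicValNat_dvd_iff_le hn.ne']
  rw [padicValNat_dvd_iff_le hPn] at h
  rcases hl.eq_two_or_odd' with rfl | hodd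
  · have h4 : padicValNat 2 (P + 1) = 1 := by
      have h5 := ha2 rfl
      have h6 : 4 ∣ P - 1 := (pow_dvd_pow 2 h5).trans h1
      apply le_antisymm
      · by_contra h7
        have h8 : 2 ^ 2 ∣ P + 1 := (padicValNat_dvd_iff_le (by omega)).mpr (by omega)
        omega
      · refine (padicValNat_dvd_iff_le (p := 2) (n := 1) (by omega)).mp ?_
        omega
    have h5 : P ^ (2 * n) - 1 = (P ^ n + 1) * (P ^ n - 1) := by
      rw [mul_comm 2 n, pow_mul, ← Nat.sq_sub_sq, one_pow]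
    have h6 := padicValNat.pow_two_sub_pow (x := P) (y := 1) hP hlP1 hlP (n := 2 * n)
      (by omega) (even_two_mul n)
    rw [one_pow, h4, hva, h5, padicValNat.mul (by positivity) hPn,
      padicValNat.mul (by norm_num) hn.ne', padicValNat.self (by norm_num)] at h6
    have h7 : 1 ≤ padicValNat 2 (P ^ n + 1) := by
      refine (padicValNat_dvd_iff_le (p := 2) (n := 1) (by positivity)).mp ?_
      have h8 : ¬ 2 ∣ P ^ n := fun h9 => hlP (hl.dvd_of_dvd_pow h9)
      omega
    omega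
  · have h6 := padicValNat.pow_sub_pow hodd (x := P) (y := 1) hP hlP1 hlP (n := n) hn.ne'
    rw [one_pow, hva] at h6
    omega

/-- elements which vanish modulo `d` are multiples of `d` -/
private theorem tower_div {n d : ℕ} [NeZero n] (h : d ∣ n) (x : ZMod n)
    (hx : ZMod.castHom h (ZMod d) x = 0) : ∃ y : ZMod n, x = (d : ZMod n) * y := by
  rw [← ZMod.natCast_zmod_val x, map_natCast, ZMod.natCast_eq_zero_iff] at hx
  obtain ⟨e, he⟩ := hx
  exact ⟨(e : ZMod n), by rw [← Nat.cast_mul, ← he, ZMod.natCast_zmod_val]⟩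

/-- elements killed by `l ^ j` vanish modulo `l` -/
private theorem tower_ker {n l j : ℕ} [NeZero n] (hl : l ∣ n) (h : l ^ (j + 1) ∣ n) (u : ZMod n)
    (hu : ((l ^ j : ℕ) : ZMod n) * u = 0) : ZMod.castHom hl (ZMod l) u = 0 := by
  rw [← ZMod.natCast_zmod_val u, ← Nat.cast_mul, ZMod.natCast_eq_zero_iff] at hu
  rw [← ZMod.natCast_zmod_val u, map_natCast, ZMod.natCast_eq_zero_iff]
  have h0 : 0 < l := Nat.pos_of_ne_zero (by
    rintro rfl
    exact NeZero.ne n (Nat.eq_zero_of_zero_dvd hl))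
  have h1 := h.trans hu
  rw [pow_succ] at h1
  exact Nat.dvd_of_mul_dvd_mul_left (pow_pos h0 j) h1

/-- the distribution relation for powers of `l` -/
private theorem tower_dist {n l : ℕ} [NeZero n] {B : Type} [AddCommGroup B] (f : ZMod n → B)
    (hd : ∀ y : ZMod n, ∑ z ∈ fib n l ((l : ZMod n) * y), f z = f ((l : ZMod n) * y)) :
    ∀ j : ℕ, l ^ j ∣ n → ∀ y : ZMod n,
      ∑ z ∈ fib n (l ^ j) (((l ^ j : ℕ) : ZMod n) * y), f z = f (((l ^ j : ℕ) : ZMod n) * y) := by
  intro j
  induction j with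
  | zero =>
    intro _ y
    have h1 : fib n (l ^ 0) (((l ^ 0 : ℕ) : ZMod n) * y) = {y} := by
      ext z
      rw [mem_fib, mem_singleton]
      simp
    rw [h1, sum_singleton]
    simp
  | succ j ih =>
    intro hj y
    have hj' : l ^ j ∣ n := (pow_dvd_pow l (Nat.le_succ j)).trans hj
    have hln : l ∣ n := (dvd_pow_self l (Nat.succ_ne_zero j)).trans hj
    have h2 := ih hj' ((l : ZMod n) * y)
    have hcomm : ((l ^ j : ℕ) : ZMod n) * ((l : ZMod n) * y) =
        ((l ^ (j + 1) : ℕ) : ZMod n) * y := by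
      push_cast
      ring
    rw [hcomm] at h2
    rw [← h2]
    rw [← sum_fiberwise_of_maps_to (s := fib n (l ^ (j + 1)) (((l ^ (j + 1) : ℕ) : ZMod n) * y))
      (t := fib n (l ^ j) (((l ^ (j + 1) : ℕ) : ZMod n) * y)) (g := fun z => (l : ZMod n) * z)]
    · apply sum_congr rfl
      intro u hu
      rw [mem_fib] at hu
      have h3 : ((l ^ j : ℕ) : ZMod n) * (u - (l : ZMod n) * y) = 0 := by
        rw [mul_sub, hu, hcomm, sub_self]
      obtain ⟨v, hv⟩ := tower_div hln _ (tower_ker hln hj _ h3)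
      have h4 : u = (l : ZMod n) * (y + v) := by
        rw [mul_add, ← hv]
        ring
      rw [h4, ← hd (y + v), ← h4]
      apply sum_congr _ fun _ _ => rfl
      ext z
      rw [mem_filter, mem_fib, mem_fib]
      constructor
      · exact fun h => h.2
      · intro h
        refine ⟨?_, h⟩
        rw [← hu, ← h]
        push_cast
        ring
    · intro z hz
      rw [mem_fib] at hz ⊢
      rw [← hz]
      push_cast
      ring

/-- the roots of a full element -/
private theorem tower_indep {m l a c m' : ℕ} [NeZero m] [NeZero (m * l ^ c)] (hl : l.Prime)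
    (ha : 0 < a) (ha2 : l = 2 → 2 ≤ a) (hm : m = l ^ a * m') {p : ℕ} {B : Type}
    (f : ZMod (m * l ^ c) → B)
    (hfp : ∀ x, f ((p : ZMod (m * l ^ c)) * x) = f x) (f₀ : ℕ) (hf₀ : (p : ZMod m) ^ f₀ = 1)
    (hex : ¬ l ^ (a + 1) ∣ p ^ f₀ - 1) (hlM : l ∣ m * l ^ c) (z u : ZMod (m * l ^ c))
    (hz : ZMod.castHom hlM (ZMod l) z ≠ 0)
    (hu : ((l ^ c : ℕ) : ZMod (m * l ^ c)) * u = ((l ^ c : ℕ) : ZMod (m * l ^ c)) * z) :
    f u = f z := by
  have hlm : l ∣ m := by
    rw [hm]
    exact (dvd_pow_self l ha.ne').mul_right m'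
  have hP0 : 0 < p ^ f₀ := by
    rcases Nat.eq_zero_or_pos (p ^ f₀) with h | h
    · have h1 : ((p ^ f₀ : ℕ) : ZMod m) = 1 := by
        push_cast
        exact hf₀
      rw [h, Nat.cast_zero] at h1
      have h2 : ((1 : ℕ) : ZMod m) = 0 := by
        rw [Nat.cast_one]
        exact h1.symm
      rw [ZMod.natCast_eq_zero_iff] at h2
      exact absurd (Nat.dvd_one.mp (hlm.trans h2)) hl.one_lt.ne'
    · exact h
  generalize hPdef : p ^ f₀ = P at *
  have hPm : m ∣ P - 1 := by
    rw [← ZMod.natCast_eq_zero_iff, Nat.cast_sub hP0, ← hPdef]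
    push_cast
    rw [hf₀, sub_self]
  have hP1 : 1 < P := by
    rcases Nat.lt_or_ge 1 P with h | h
    · exact h
    · exfalso
      apply hex
      have : P - 1 = 0 := by omega
      rw [this]
      exact dvd_zero _
  have hfP : ∀ (n : ℕ) (x : ZMod (m * l ^ c)), f (((P ^ n : ℕ) : ZMod (m * l ^ c)) * x) = f x := by
    intro n
    rw [← hPdef, ← pow_mul]
    generalize f₀ * n = N
    induction N with
    | zero =>
      intro x
      simp
    | succ N ih =>
      intro x
      have : ((p ^ (N + 1) : ℕ) : ZMod (m * l ^ c)) * x =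
          (p : ZMod (m * l ^ c)) * (((p ^ N : ℕ) : ZMod (m * l ^ c)) * x) := by
        push_cast
        ring
      rw [this, hfp, ih]
  have hla : l ^ a ∣ P - 1 := (Dvd.intro m' hm.symm).trans hPm
  have hlP : ¬ l ∣ P := by
    intro h3
    have : l ∣ P - (P - 1) := Nat.dvd_sub h3 (hlm.trans hPm)
    rw [Nat.sub_sub_self hP0] at this
    exact hl.one_lt.ne' (Nat.dvd_one.mp this)
  have hlz : ¬ l ∣ z.val := by
    intro h
    apply hz
    rw [← ZMod.natCast_zmod_val z, map_natCast, ZMod.natCast_eq_zero_iff]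
    exact h
  have hsub : (range (l ^ c)).image (fun n => ((P ^ n : ℕ) : ZMod (m * l ^ c)) * z) ⊆
      fib (m * l ^ c) (l ^ c) (((l ^ c : ℕ) : ZMod (m * l ^ c)) * z) := by
    intro w hw
    rw [mem_image] at hw
    obtain ⟨n, -, rfl⟩ := hw
    rw [mem_fib]
    have h1 : ((l ^ c * (P ^ n - 1) : ℕ) : ZMod (m * l ^ c)) = 0 := by
      rw [ZMod.natCast_eq_zero_iff, mul_comm m]
      apply Nat.mul_dvd_mul_left
      have := Nat.sub_dvd_pow_sub_pow P 1 n
      rw [one_pow] at this
      exact hPm.trans this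
    rw [Nat.cast_mul, Nat.cast_sub (Nat.one_le_pow n P hP0)] at h1
    push_cast at h1 ⊢
    linear_combination z * h1
  have hinj : Set.InjOn (fun n => ((P ^ n : ℕ) : ZMod (m * l ^ c)) * z)
      (range (l ^ c) : Set ℕ) := by
    have key : ∀ n₁ n₂ : ℕ, n₁ ≤ n₂ → n₂ < l ^ c →
        ((P ^ n₁ : ℕ) : ZMod (m * l ^ c)) * z = ((P ^ n₂ : ℕ) : ZMod (m * l ^ c)) * z →
        n₁ = n₂ := by
      intro n₁ n₂ h12 hn₂ h
      have h1 : ((P ^ n₁ * (P ^ (n₂ - n₁) - 1) * z.val : ℕ) : ZMod (m * l ^ c)) = 0 := by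
        have h2 : P ^ n₂ = P ^ n₁ * P ^ (n₂ - n₁) := by
          rw [← pow_add, Nat.add_sub_cancel' h12]
        rw [h2] at h
        rw [Nat.cast_mul, Nat.cast_mul, Nat.cast_sub (Nat.one_le_pow _ P hP0),
          ZMod.natCast_zmod_val]
        push_cast at h ⊢
        linear_combination - h
      rw [ZMod.natCast_eq_zero_iff] at h1
      have h3 : l ^ (a + c) ∣ P ^ n₁ * (P ^ (n₂ - n₁) - 1) * z.val := by
        refine Dvd.dvd.trans ?_ h1
        rw [hm, pow_add]
        exact ⟨m', by ring⟩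
      have h4 : (l ^ (a + c)).Coprime z.val :=
        Nat.Coprime.pow_left _ ((Nat.Prime.coprime_iff_not_dvd hl).mpr hlz)
      have h5 : (l ^ (a + c)).Coprime (P ^ n₁) :=
        Nat.Coprime.pow _ _ ((Nat.Prime.coprime_iff_not_dvd hl).mpr hlP)
      have h6 := h5.dvd_of_dvd_mul_left (h4.dvd_of_dvd_mul_right h3)
      have h7 := tower_lte hl ha ha2 hP1 hla hex c _ h6
      have h8 : n₂ - n₁ = 0 := Nat.eq_zero_of_dvd_of_lt h7 (by omega)
      omega
    intro n₁ h₁ n₂ h₂ h
    rw [coe_range, Set.mem_Iio] at h₁ h₂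
    rcases le_total n₁ n₂ with h12 | h12
    · exact key n₁ n₂ h12 h₂ h
    · exact (key n₂ n₁ h12 h₁ h.symm).symm
  have heq := eq_of_subset_of_card_le hsub (by
    rw [card_image_of_injOn hinj, card_range, fib_card (pow_pos hl.pos c) (Dvd.intro_left m rfl)])
  have hmem : u ∈ fib (m * l ^ c) (l ^ c) (((l ^ c : ℕ) : ZMod (m * l ^ c)) * z) := by
    rw [mem_fib]
    exact hu
  rw [← heq, mem_image] at hmem
  obtain ⟨n, -, rfl⟩ := hmem
  exact hfP n z

/-- the inclusion after the reduction -/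
private theorem tower_emb_red {m l c : ℕ} [NeZero m] [NeZero (m * l ^ c)] (z : ZMod (m * l ^ c)) :
    emb (m * l ^ c) m (ZMod.castHom (Dvd.intro _ rfl : m ∣ m * l ^ c) (ZMod m) z) =
      ((l ^ c : ℕ) : ZMod (m * l ^ c)) * z := by
  rw [← ZMod.natCast_zmod_val z, map_natCast, emb_cast (Dvd.intro _ rfl),
    Nat.mul_div_cancel_left _ (Nat.pos_of_ne_zero (NeZero.ne m)), Nat.cast_mul]

private theorem tower_red_red {m l c : ℕ} (hlm : l ∣ m)
    (hlM : l ∣ m * l ^ c) (z : ZMod (m * l ^ c)) :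
    ZMod.castHom hlm (ZMod l) (ZMod.castHom (Dvd.intro _ rfl : m ∣ m * l ^ c) (ZMod m) z) =
      ZMod.castHom hlM (ZMod l) z := by
  rw [← RingHom.comp_apply]
  congr 1
  exact RingHom.ext_zmod _ _

private theorem tower_red_cast {m l c : ℕ} [NeZero m] (w : ZMod m) :
    ZMod.castHom (Dvd.intro _ rfl : m ∣ m * l ^ c) (ZMod m) ((w.val : ℕ) : ZMod (m * l ^ c)) =
      w := by
  rw [map_natCast, ZMod.natCast_zmod_val]

/-- the function of level `m` on the full elements -/
private theorem tower_g {m l a c m' : ℕ} [NeZero m] [NeZero (m * l ^ c)] (hl : l.Prime)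
    (ha : 0 < a) (ha2 : l = 2 → 2 ≤ a) (hm : m = l ^ a * m') {p : ℕ} {B : Type}
    [AddCommGroup B] (f : ZMod (m * l ^ c) → B) (hf : ODist (m * l ^ c) f)
    (hfp : ∀ x, f ((p : ZMod (m * l ^ c)) * x) = f x) (f₀ : ℕ) (hf₀ : (p : ZMod m) ^ f₀ = 1)
    (hex : ¬ l ^ (a + 1) ∣ p ^ f₀ - 1) (hlm : l ∣ m)
    (hpu : ZMod.castHom hlm (ZMod l) (p : ZMod m) ≠ 0) :
    ∃ g : ZMod m → B,
      (∀ w, ZMod.castHom hlm (ZMod l) w ≠ 0 → g (-w) = - g w) ∧
      (∀ w, ZMod.castHom hlm (ZMod l) w ≠ 0 → g ((p : ZMod m) * w) = g w) ∧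
      (∀ r : ℕ, r.Prime → r ∣ m → r ≠ l → ∀ y : ZMod m, ZMod.castHom hlm (ZMod l) y ≠ 0 →
        ∑ w ∈ fib m r ((r : ZMod m) * y), g w = g ((r : ZMod m) * y)) ∧
      ∀ w, ZMod.castHom hlm (ZMod l) w ≠ 0 → f (emb (m * l ^ c) m w) = l ^ c • g w := by
  have := Fact.mk hl
  have hlM : l ∣ m * l ^ c := hlm.mul_right _
  have hmM : m ∣ m * l ^ c := Dvd.intro _ rfl
  have hg : ∀ z : ZMod (m * l ^ c), ZMod.castHom hlM (ZMod l) z ≠ 0 →
      f z = f (((ZMod.castHom (Dvd.intro _ rfl : m ∣ m * l ^ c) (ZMod m) z).val : ℕ) :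
        ZMod (m * l ^ c)) := by
    intro z hz
    refine (tower_indep hl ha ha2 hm f hfp f₀ hf₀ hex hlM z _ hz ?_).symm
    rw [← tower_emb_red z, ← tower_emb_red, tower_red_cast]
  set g : ZMod m → B := fun w => f ((w.val : ℕ) : ZMod (m * l ^ c)) with hgdef
  have hg' : ∀ z : ZMod (m * l ^ c), ZMod.castHom hlM (ZMod l) z ≠ 0 →
      f z = g (ZMod.castHom (Dvd.intro _ rfl : m ∣ m * l ^ c) (ZMod m) z) := hg
  have hlift : ∀ w : ZMod m, ZMod.castHom hlm (ZMod l) w ≠ 0 → ∃ z : ZMod (m * l ^ c),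
      ZMod.castHom (Dvd.intro _ rfl : m ∣ m * l ^ c) (ZMod m) z = w ∧
        ZMod.castHom hlM (ZMod l) z ≠ 0 := by
    intro w hw
    refine ⟨((w.val : ℕ) : ZMod (m * l ^ c)), tower_red_cast w, ?_⟩
    rw [← tower_red_red hlm hlM, tower_red_cast]
    exact hw
  refine ⟨g, ?_, ?_, ?_, ?_⟩
  · intro w hw
    obtain ⟨z, rfl, hz⟩ := hlift w hw
    rw [← map_neg, ← hg' z hz, ← hg' (-z), hf.odd]
    rw [map_neg]
    exact neg_ne_zero.mpr hz
  · intro w hw
    obtain ⟨z, rfl, hz⟩ := hlift w hw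
    have h1 : (p : ZMod m) * ZMod.castHom (Dvd.intro _ rfl : m ∣ m * l ^ c) (ZMod m) z =
        ZMod.castHom (Dvd.intro _ rfl : m ∣ m * l ^ c) (ZMod m)
          ((p : ZMod (m * l ^ c)) * z) := by
      rw [map_mul, map_natCast]
    rw [h1, ← hg' z hz, ← hg' _, hfp]
    rw [map_mul, map_natCast]
    rw [map_natCast] at hpu
    exact mul_ne_zero hpu hz
  · intro r hr hrm hrl y hy
    obtain ⟨z, rfl, hz⟩ := hlift y hy
    have hrl' : ((r : ℕ) : ZMod l) ≠ 0 := by
      rw [Ne, ZMod.natCast_eq_zero_iff]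
      intro h
      exact hrl ((Nat.prime_dvd_prime_iff_eq hl hr).mp h).symm
    have h1 : (r : ZMod m) * ZMod.castHom (Dvd.intro _ rfl : m ∣ m * l ^ c) (ZMod m) z =
        ZMod.castHom (Dvd.intro _ rfl : m ∣ m * l ^ c) (ZMod m)
          ((r : ZMod (m * l ^ c)) * z) := by
      rw [map_mul, map_natCast]
    have hrz : ZMod.castHom hlM (ZMod l) ((r : ZMod (m * l ^ c)) * z) ≠ 0 := by
      rw [map_mul, map_natCast]
      exact mul_ne_zero hrl' hz
    have hfull : ∀ v ∈ fib (m * l ^ c) r ((r : ZMod (m * l ^ c)) * z),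
        ZMod.castHom hlM (ZMod l) v ≠ 0 := by
      intro v hv h0
      rw [mem_fib] at hv
      apply hrz
      rw [← hv, map_mul, h0, mul_zero]
    have hinj : Set.InjOn (ZMod.castHom (Dvd.intro _ rfl : m ∣ m * l ^ c) (ZMod m))
        (fib (m * l ^ c) r ((r : ZMod (m * l ^ c)) * z) : Set (ZMod (m * l ^ c))) := by
      intro v₁ hv₁ v₂ hv₂ hv
      rw [mem_coe, mem_fib] at hv₁ hv₂
      have h2 : ((l ^ c : ℕ) : ZMod (m * l ^ c)) * v₁ = ((l ^ c : ℕ) : ZMod (m * l ^ c)) * v₂ := by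
        rw [← tower_emb_red, ← tower_emb_red, hv]
      have h3 : Int.gcd (r : ℤ) ((l ^ c : ℕ) : ℤ) = 1 := by
        rw [Int.gcd_natCast_natCast]
        exact Nat.Coprime.pow_right _ ((Nat.coprime_primes hr hl).mpr hrl)
      obtain ⟨u, v, huv⟩ := Int.isCoprime_iff_gcd_eq_one.mpr h3
      have h4 : (u : ZMod (m * l ^ c)) * (r : ZMod (m * l ^ c)) +
          (v : ZMod (m * l ^ c)) * ((l ^ c : ℕ) : ZMod (m * l ^ c)) = 1 := by
        have := congrArg (Int.cast : ℤ → ZMod (m * l ^ c)) huv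
        push_cast at this ⊢
        exact this
      calc v₁ = ((u : ZMod (m * l ^ c)) * (r : ZMod (m * l ^ c)) +
          (v : ZMod (m * l ^ c)) * ((l ^ c : ℕ) : ZMod (m * l ^ c))) * v₁ := by rw [h4, one_mul]
        _ = ((u : ZMod (m * l ^ c)) * (r : ZMod (m * l ^ c)) +
          (v : ZMod (m * l ^ c)) * ((l ^ c : ℕ) : ZMod (m * l ^ c))) * v₂ := by
            linear_combination (u : ZMod (m * l ^ c)) * (hv₁ - hv₂) +
              (v : ZMod (m * l ^ c)) * h2
        _ = v₂ := by rw [h4, one_mul]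
    have himg : (fib (m * l ^ c) r ((r : ZMod (m * l ^ c)) * z)).image
        (ZMod.castHom (Dvd.intro _ rfl : m ∣ m * l ^ c) (ZMod m)) =
        fib m r ((r : ZMod m) *
          ZMod.castHom (Dvd.intro _ rfl : m ∣ m * l ^ c) (ZMod m) z) := by
      apply eq_of_subset_of_card_le
      · intro w hw
        rw [mem_image] at hw
        obtain ⟨v, hv, rfl⟩ := hw
        rw [mem_fib] at hv ⊢
        rw [h1, ← hv, map_mul, map_natCast]
      · rw [card_image_of_injOn hinj, fib_card hr.pos hrm, fib_card hr.pos (hrm.trans hmM)]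
    rw [← himg, sum_image hinj, h1, ← hg' _ hrz, ← hf.dist r hr (hrm.trans hmM) z]
    exact sum_congr rfl fun v hv => (hg' v (hfull v hv)).symm
  · intro w hw
    obtain ⟨z, rfl, hz⟩ := hlift w hw
    rw [tower_emb_red, ← hg' z hz, ← tower_dist f (fun y => hf.dist l hl hlM y) c
      (Dvd.intro_left m rfl) z]
    rw [sum_congr rfl (fun v hv => tower_indep hl ha ha2 hm f hfp f₀ hf₀ hex hlM z v hz
      (mem_fib.mp hv)), sum_const, fib_card (pow_pos hl.pos c) (Dvd.intro_left m rfl)]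

/-- the full elements `w` with `l ^ j w = x` -/
private def towerT (m l : ℕ) [NeZero m] (hlm : l ∣ m) (j : ℕ) (x : ZMod m) : Finset (ZMod m) :=
  univ.filter fun w => ZMod.castHom hlm (ZMod l) w ≠ 0 ∧ ((l ^ j : ℕ) : ZMod m) * w = x

private theorem mem_towerT {m l : ℕ} [NeZero m] {hlm : l ∣ m} {j : ℕ} {x w : ZMod m} :
    w ∈ towerT m l hlm j x ↔
      ZMod.castHom hlm (ZMod l) w ≠ 0 ∧ ((l ^ j : ℕ) : ZMod m) * w = x := by
  rw [towerT, mem_filter]
  simp

private theorem tower_lt {m l i j : ℕ} [NeZero m] (hlm : l ∣ m) (hij : i < j)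
    (h : l ^ (i + 1) ∣ m) (w y : ZMod m)
    (hw : ((l ^ i : ℕ) : ZMod m) * w = ((l ^ j : ℕ) : ZMod m) * y) :
    ZMod.castHom hlm (ZMod l) w = 0 := by
  obtain ⟨k, rfl⟩ := Nat.exists_eq_add_of_lt hij
  have h1 : ((l ^ i : ℕ) : ZMod m) * (w - ((l : ℕ) : ZMod m) * (((l ^ k : ℕ) : ZMod m) * y)) = 0 := by
    rw [mul_sub, hw]
    push_cast
    ring
  have h2 := tower_ker hlm h _ h1
  rw [map_sub, map_mul, map_natCast, ZMod.natCast_self, zero_mul, sub_zero] at h2
  exact h2

private theorem tower_eq {m l j : ℕ} [NeZero m] (hlm : l ∣ m)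
    (h : l ^ (j + 1) ∣ m) (w y : ZMod m)
    (hw : ((l ^ j : ℕ) : ZMod m) * w = ((l ^ j : ℕ) : ZMod m) * y) :
    ZMod.castHom hlm (ZMod l) w = ZMod.castHom hlm (ZMod l) y := by
  have h1 : ((l ^ j : ℕ) : ZMod m) * (w - y) = 0 := by
    rw [mul_sub, hw, sub_self]
  have h2 := tower_ker hlm h _ h1
  rw [map_sub] at h2
  exact sub_eq_zero.mp h2

private theorem tower_cases {m l : ℕ} [NeZero m] (hlm : l ∣ m) (x : ZMod m) (a : ℕ) :
    (∃ s, x = ((l ^ a : ℕ) : ZMod m) * s) ∨
      ∃ j, j < a ∧ ∃ y, ZMod.castHom hlm (ZMod l) y ≠ 0 ∧ x = ((l ^ j : ℕ) : ZMod m) * y := by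
  induction a with
  | zero => exact Or.inl ⟨x, by simp⟩
  | succ a ih =>
    rcases ih with ⟨s, hs⟩ | ⟨j, hj, y, hy, hx⟩
    · by_cases h : ZMod.castHom hlm (ZMod l) s = 0
      · obtain ⟨v, rfl⟩ := tower_div hlm s h
        refine Or.inl ⟨v, ?_⟩
        rw [hs]
        push_cast
        ring
      · exact Or.inr ⟨a, Nat.lt_succ_self a, s, h, hs⟩
    · exact Or.inr ⟨j, hj.trans (Nat.lt_succ_self a), y, hy, hx⟩

/-- distribution at `l` -/
private theorem tower_sum_l {m l : ℕ} [NeZero m] (hlm : l ∣ m) {B : Type} [AddCommGroup B]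
    (E : ZMod m → B) (j : ℕ) (y : ZMod m) :
    ∑ x ∈ fib m l ((l : ZMod m) * y), ∑ w ∈ towerT m l hlm j x, E w =
      ∑ w ∈ towerT m l hlm (j + 1) ((l : ZMod m) * y), E w := by
  rw [← sum_fiberwise_of_maps_to (s := towerT m l hlm (j + 1) ((l : ZMod m) * y))
    (t := fib m l ((l : ZMod m) * y)) (g := fun w => ((l ^ j : ℕ) : ZMod m) * w)]
  · apply sum_congr rfl
    intro x hx
    rw [mem_fib] at hx
    apply sum_congr _ fun _ _ => rfl
    ext w
    rw [mem_filter, mem_towerT, mem_towerT]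
    constructor
    · rintro ⟨h1, h2⟩
      refine ⟨⟨h1, ?_⟩, h2⟩
      rw [← hx, ← h2]
      push_cast
      ring
    · rintro ⟨⟨h1, -⟩, h2⟩
      exact ⟨h1, h2⟩
  · intro w hw
    rw [mem_towerT] at hw
    rw [mem_fib, ← hw.2]
    push_cast
    ring

/-- distribution at other primes -/
private theorem tower_sum_r {m l : ℕ} [NeZero m] (hl : l.Prime) (hlm : l ∣ m) {B : Type}
    [AddCommGroup B] (E : ZMod m → B) {r : ℕ} (hr : r.Prime) (hrm : r ∣ m) (hrl : r ≠ l)
    (hE : ∀ y : ZMod m, ZMod.castHom hlm (ZMod l) y ≠ 0 →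
        ∑ w ∈ fib m r ((r : ZMod m) * y), E w = E ((r : ZMod m) * y)) (j : ℕ) (y : ZMod m) :
    ∑ x ∈ fib m r ((r : ZMod m) * y), ∑ w ∈ towerT m l hlm j x, E w =
      ∑ w ∈ towerT m l hlm j ((r : ZMod m) * y), E w := by
  have := Fact.mk hl
  have := Fact.mk hr
  have hrl' : ((r : ℕ) : ZMod l) ≠ 0 := by
    rw [Ne, ZMod.natCast_eq_zero_iff]
    intro h
    exact hrl ((Nat.prime_dvd_prime_iff_eq hl hr).mp h).symm
  have hlr' : ((l : ℕ) : ZMod r) ≠ 0 := by
    rw [Ne, ZMod.natCast_eq_zero_iff]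
    intro h
    exact hrl ((Nat.prime_dvd_prime_iff_eq hr hl).mp h)
  set S : Finset (ZMod m) := univ.filter fun w => ZMod.castHom hlm (ZMod l) w ≠ 0 ∧
    (r : ZMod m) * (((l ^ j : ℕ) : ZMod m) * w) = (r : ZMod m) * y with hS
  have hmS : ∀ w, w ∈ S ↔ ZMod.castHom hlm (ZMod l) w ≠ 0 ∧
      (r : ZMod m) * (((l ^ j : ℕ) : ZMod m) * w) = (r : ZMod m) * y := by
    intro w
    rw [hS, mem_filter]
    simp
  have h1 : ∑ x ∈ fib m r ((r : ZMod m) * y), ∑ w ∈ towerT m l hlm j x, E w = ∑ w ∈ S, E w := by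
    rw [← sum_fiberwise_of_maps_to (s := S)
      (t := fib m r ((r : ZMod m) * y)) (g := fun w => ((l ^ j : ℕ) : ZMod m) * w)]
    · apply sum_congr rfl
      intro x hx
      rw [mem_fib] at hx
      apply sum_congr _ fun _ _ => rfl
      ext w
      rw [mem_filter, mem_towerT, hmS]
      constructor
      · rintro ⟨h1, h2⟩
        exact ⟨⟨h1, by rw [h2, hx]⟩, h2⟩
      · rintro ⟨⟨h1, -⟩, h2⟩
        exact ⟨h1, h2⟩
    · intro w hw
      rw [hmS] at hw
      rw [mem_fib]
      exact hw.2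
  rw [h1, ← sum_fiberwise_of_maps_to (s := S) (t := towerT m l hlm j ((r : ZMod m) * y))
    (g := fun w => (r : ZMod m) * w)]
  · apply sum_congr rfl
    intro w' hw'
    rw [mem_towerT] at hw'
    obtain ⟨hw1, hw2⟩ := hw'
    have h3 : ZMod.castHom hrm (ZMod r) w' = 0 := by
      have h4 := congrArg (ZMod.castHom hrm (ZMod r)) hw2
      rw [map_mul, map_mul, map_natCast, map_natCast, ZMod.natCast_self, zero_mul,
        Nat.cast_pow] at h4
      exact (mul_eq_zero.mp h4).resolve_left (pow_ne_zero _ hlr')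
    obtain ⟨y', rfl⟩ := tower_div hrm w' h3
    have hy' : ZMod.castHom hlm (ZMod l) y' ≠ 0 := by
      intro h0
      apply hw1
      rw [map_mul, h0, mul_zero]
    rw [← hE y' hy']
    apply sum_congr _ fun _ _ => rfl
    ext w
    rw [mem_filter, mem_fib, hmS]
    constructor
    · exact fun h => h.2
    · intro h
      refine ⟨⟨?_, ?_⟩, h⟩
      · intro h0
        apply hw1
        rw [← h, map_mul, h0, mul_zero]
      · rw [← hw2, ← h]
        ring
  · intro w hw
    rw [hmS] at hw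
    rw [mem_towerT]
    refine ⟨?_, ?_⟩
    · rw [map_mul, map_natCast]
      exact mul_ne_zero hrl' hw.1
    · rw [← hw.2]
      ring

/-- Let `l ^ a` be the exact power of `l` which divides `m` and `p ^ f₀ - 1`, and `m ∣ p ^ f₀ - 1`.
For an odd distribution `f` of level `m l ^ c`, invariant under `p`, the function
`f x - f (t x)`, `t = -1` modulo powers of `l`, `t = 1` modulo the rest of `m`, is `l ^ c` times an
odd distribution of level `m`. -/
theorem tower {m l a c m' : ℕ} [NeZero m] [NeZero (m * l ^ c)] (hl : l.Prime) (ha : 0 < a)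
    (ha2 : l = 2 → 2 ≤ a) (hm : m = l ^ a * m') (hlm : l.Coprime m') {p : ℕ} {B : Type}
    [AddCommGroup B] (f : ZMod (m * l ^ c) → B) (hf : ODist (m * l ^ c) f)
    (hfp : ∀ x, f ((p : ZMod (m * l ^ c)) * x) = f x) (f₀ : ℕ) (hf₀ : (p : ZMod m) ^ f₀ = 1)
    (hex : ¬ l ^ (a + 1) ∣ p ^ f₀ - 1) (t : ℕ) (ht1 : (t : ZMod (l ^ (a + c))) = -1)
    (ht2 : (t : ZMod m') = 1) :
    ∃ F : ZMod m → B, ODist m F ∧ (∀ x, F ((p : ZMod m) * x) = F x) ∧
      ∀ x, f (emb (m * l ^ c) m x) =
        f ((t : ZMod (m * l ^ c)) * emb (m * l ^ c) m x) + l ^ c • F x := by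
  have := Fact.mk hl
  have hlm' : l ∣ m := by
    rw [hm]
    exact (dvd_pow_self l ha.ne').mul_right m'
  have hlam : l ^ a ∣ m := Dvd.intro m' hm.symm
  have hmM : m ∣ m * l ^ c := Dvd.intro _ rfl
  have hf₀0 : f₀ ≠ 0 := by
    rintro rfl
    apply hex
    rw [pow_zero, Nat.sub_self]
    exact dvd_zero _
  have hpunit : IsUnit (p : ZMod m) := IsUnit.of_pow_eq_one hf₀ hf₀0
  have hpu : ZMod.castHom hlm' (ZMod l) (p : ZMod m) ≠ 0 :=
    (hpunit.map (ZMod.castHom hlm' (ZMod l))).ne_zero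
  obtain ⟨g, g1, g2, g3, g4⟩ := tower_g hl ha ha2 hm f hf hfp f₀ hf₀ hex hlm' hpu
  -- the unit `t`
  have ht1' : ((t + 1 : ℕ) : ZMod (l ^ a)) = 0 := by
    have h1 : ((t + 1 : ℕ) : ZMod (l ^ (a + c))) = 0 := by
      rw [Nat.cast_add, ht1, Nat.cast_one, neg_add_cancel]
    rw [ZMod.natCast_eq_zero_iff] at h1 ⊢
    exact (pow_dvd_pow l (Nat.le_add_right a c)).trans h1
  have hla1 : l ^ a ∣ t + 1 := (ZMod.natCast_eq_zero_iff _ _).mp ht1'
  have ht2' : ((m' : ℕ) : ℤ) ∣ (t : ℤ) - 1 := by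
    rw [← ZMod.intCast_zmod_eq_zero_iff_dvd]
    push_cast
    rw [ht2, sub_self]
  have htl : ZMod.castHom hlm' (ZMod l) (t : ZMod m) = -1 := by
    rw [map_natCast, eq_neg_iff_add_eq_zero]
    have h1 : ((t + 1 : ℕ) : ZMod l) = 0 := by
      rw [ZMod.natCast_eq_zero_iff]
      exact (dvd_pow_self l ha.ne').trans hla1
    rw [Nat.cast_add, Nat.cast_one] at h1
    exact h1
  have htla : ∀ s : ZMod m, (t : ZMod m) * (((l ^ a : ℕ) : ZMod m) * s) =
      ((l ^ a : ℕ) : ZMod m) * s := by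
    intro s
    obtain ⟨e, he⟩ := ht2'
    have h1 : ((t : ZMod m) - 1) = ((m' : ℕ) : ZMod m) * (e : ZMod m) := by
      have := congrArg (Int.cast : ℤ → ZMod m) he
      push_cast at this
      exact this
    have h2 : ((l ^ a : ℕ) : ZMod m) * ((m' : ℕ) : ZMod m) = 0 := by
      rw [← Nat.cast_mul, ← hm, ZMod.natCast_self]
    linear_combination ((l ^ a : ℕ) : ZMod m) * s * h1 + s * (e : ZMod m) * h2
  have htt : (t : ZMod m) * (t : ZMod m) = 1 := by
    obtain ⟨e, he⟩ := hla1
    have h1 : (t : ZMod m) + 1 = ((l ^ a : ℕ) : ZMod m) * (e : ZMod m) := by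
      have := congrArg (Nat.cast : ℕ → ZMod m) he
      push_cast at this ⊢
      exact this
    have h2 := htla (e : ZMod m)
    rw [← h1] at h2
    linear_combination h2
  have htfull : ∀ w : ZMod m, ZMod.castHom hlm' (ZMod l) w ≠ 0 →
      ZMod.castHom hlm' (ZMod l) ((t : ZMod m) * w) ≠ 0 := by
    intro w hw
    rw [map_mul, htl]
    exact mul_ne_zero (neg_ne_zero.mpr one_ne_zero) hw
  set E : ZMod m → B := fun w => g w - g ((t : ZMod m) * w) with hEdef
  set F : ZMod m → B := fun x => ∑ j ∈ range a, ∑ w ∈ towerT m l hlm' j x, E w with hFdef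
  have hFx : ∀ x, F x = ∑ j ∈ range a, ∑ w ∈ towerT m l hlm' j x, E w := fun _ => rfl
  -- small fibres
  have hF0 : ∀ s : ZMod m, F (((l ^ a : ℕ) : ZMod m) * s) = 0 := by
    intro s
    rw [hFx]
    apply sum_eq_zero
    intro j hj
    rw [mem_range] at hj
    apply sum_eq_zero
    intro w hw
    rw [mem_towerT] at hw
    exact absurd (tower_lt hlm' hj ((pow_dvd_pow l hj).trans hlam) w s hw.2) hw.1
  have hFj : ∀ (j : ℕ) (y : ZMod m), j < a → ZMod.castHom hlm' (ZMod l) y ≠ 0 →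
      F (((l ^ j : ℕ) : ZMod m) * y) =
        ∑ w ∈ fib m (l ^ j) (((l ^ j : ℕ) : ZMod m) * y), E w := by
    intro j y hj hy
    rw [hFx, sum_eq_single_of_mem j (mem_range.mpr hj)]
    · apply sum_congr _ fun _ _ => rfl
      ext w
      rw [mem_towerT, mem_fib]
      constructor
      · exact fun h => h.2
      · intro h
        refine ⟨?_, h⟩
        rw [tower_eq hlm' ((pow_dvd_pow l hj).trans hlam) w y h]
        exact hy
    · intro i hi hij
      rw [mem_range] at hi
      apply sum_eq_zero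
      intro w hw
      rw [mem_towerT] at hw
      rcases Nat.lt_or_gt_of_ne hij with h | h
      · exact absurd (tower_lt hlm' h ((pow_dvd_pow l hi).trans hlam) w y hw.2) hw.1
      · exact absurd (tower_lt hlm' h ((pow_dvd_pow l hj).trans hlam) y w hw.2.symm) hy
  refine ⟨F, ⟨?_, ?_, ?_⟩, ?_, ?_⟩
  · have := hF0 0
    rwa [mul_zero] at this
  · intro x
    rw [hFx, hFx, ← sum_neg_distrib]
    apply sum_congr rfl
    intro j _
    rw [← sum_neg_distrib]
    refine sum_nbij' (fun w => -w) (fun w => -w) ?_ ?_ (fun _ _ => neg_neg _)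
      (fun _ _ => neg_neg _) ?_
    · intro w hw
      rw [mem_towerT] at hw ⊢
      rw [map_neg, mul_neg, hw.2, neg_neg]
      exact ⟨neg_ne_zero.mpr hw.1, rfl⟩
    · intro w hw
      rw [mem_towerT] at hw ⊢
      rw [map_neg, mul_neg, hw.2]
      exact ⟨neg_ne_zero.mpr hw.1, rfl⟩
    · intro w hw
      rw [mem_towerT] at hw
      rw [hEdef]
      simp only
      rw [mul_neg, g1 w hw.1, g1 _ (htfull w hw.1)]
      abel
  · intro r hr hrm y
    by_cases hrl : r = l
    · subst hrl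
      rw [hFx]
      simp only [hFx]
      rw [sum_comm]
      rw [sum_congr rfl (fun j _ => tower_sum_l hlm' E j y)]
      have h1 := sum_range_succ' (fun j => ∑ w ∈ towerT m r hlm' j ((r : ZMod m) * y), E w) a
      have h2 := sum_range_succ (fun j => ∑ w ∈ towerT m r hlm' j ((r : ZMod m) * y), E w) a
      rw [h2] at h1
      have h3 : ∑ w ∈ towerT m r hlm' 0 ((r : ZMod m) * y), E w = 0 := by
        apply sum_eq_zero
        intro w hw
        rw [mem_towerT] at hw
        exfalso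
        apply hw.1
        have h4 := hw.2
        rw [pow_zero, Nat.cast_one, one_mul] at h4
        rw [h4, map_mul, map_natCast, ZMod.natCast_self, zero_mul]
      have h4 : ∑ w ∈ towerT m r hlm' a ((r : ZMod m) * y), E w = 0 := by
        rw [hEdef]
        simp only
        rw [sum_sub_distrib, sub_eq_zero]
        refine sum_nbij' (fun w => (t : ZMod m) * w) (fun w => (t : ZMod m) * w) ?_ ?_ ?_ ?_ ?_
        · intro w hw
          rw [mem_towerT] at hw ⊢
          refine ⟨htfull w hw.1, ?_⟩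
          have h5 := htla w
          rw [← hw.2, ← h5]
          ring
        · intro w hw
          rw [mem_towerT] at hw ⊢
          refine ⟨htfull w hw.1, ?_⟩
          have h5 := htla w
          rw [← hw.2, ← h5]
          ring
        · intro w _
          rw [← mul_assoc, htt, one_mul]
        · intro w _
          rw [← mul_assoc, htt, one_mul]
        · intro w _
          rw [← mul_assoc, htt, one_mul]
      rw [h3, h4, add_zero, add_zero] at h1
      exact h1.symm
    · rw [hFx]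
      simp only [hFx]
      rw [sum_comm]
      apply sum_congr rfl
      intro j _
      apply tower_sum_r hl hlm' E hr hrm hrl
      intro y' hy'
      rw [hEdef]
      simp only
      rw [sum_sub_distrib, g3 r hr hrm hrl y' hy']
      congr 1
      have h1 : (t : ZMod m) * ((r : ZMod m) * y') = (r : ZMod m) * ((t : ZMod m) * y') := by
        ring
      rw [h1, ← g3 r hr hrm hrl _ (htfull y' hy')]
      refine sum_nbij' (fun w => (t : ZMod m) * w) (fun w => (t : ZMod m) * w) ?_ ?_ ?_ ?_ ?_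
      · intro w hw
        rw [mem_fib] at hw ⊢
        linear_combination (t : ZMod m) * hw
      · intro w hw
        rw [mem_fib] at hw ⊢
        linear_combination (t : ZMod m) * hw + (r : ZMod m) * y' * htt
      · intro w _
        rw [← mul_assoc, htt, one_mul]
      · intro w _
        rw [← mul_assoc, htt, one_mul]
      · intro w _
        rfl
  · intro x
    rw [hFx, hFx]
    apply sum_congr rfl
    intro j _
    obtain ⟨q, hq⟩ := hpunit.exists_left_inv
    symm
    refine sum_nbij' (fun w => (p : ZMod m) * w) (fun w => q * w) ?_ ?_ ?_ ?_ ?_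
    · intro w hw
      rw [mem_towerT] at hw ⊢
      refine ⟨?_, ?_⟩
      · rw [map_mul]
        exact mul_ne_zero hpu hw.1
      · rw [← hw.2]
        ring
    · intro w hw
      rw [mem_towerT] at hw ⊢
      refine ⟨?_, ?_⟩
      · intro h0
        apply hw.1
        have h1 : w = (p : ZMod m) * (q * w) := by
          rw [← mul_assoc, mul_comm _ q, hq, one_mul]
        rw [h1, map_mul, h0, mul_zero]
      · linear_combination q * hw.2 + x * hq
    · intro w _
      rw [← mul_assoc, hq, one_mul]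
    · intro w _
      rw [← mul_assoc, mul_comm _ q, hq, one_mul]
    · intro w hw
      rw [mem_towerT] at hw
      rw [hEdef]
      simp only
      have h1 : (t : ZMod m) * ((p : ZMod m) * w) = (p : ZMod m) * ((t : ZMod m) * w) := by
        ring
      rw [h1, g2 w hw.1, g2 _ (htfull w hw.1)]
  · intro x
    rw [← emb_mul hmM]
    rcases tower_cases hlm' x a with ⟨s, rfl⟩ | ⟨j, hj, y, hy, rfl⟩
    · rw [hF0, smul_zero, add_zero, htla]
    · have hgen : ∀ y : ZMod m, ZMod.castHom hlm' (ZMod l) y ≠ 0 →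
          f (emb (m * l ^ c) m (((l ^ j : ℕ) : ZMod m) * y)) =
            l ^ c • ∑ w ∈ fib m (l ^ j) (((l ^ j : ℕ) : ZMod m) * y), g w := by
        intro y hy
        have hljm : l ^ j ∣ m := (pow_dvd_pow l hj.le).trans hlam
        rw [emb_mul hmM, ← tower_dist f (fun y => hf.dist l hl (hlm'.trans hmM) y) j
          (hljm.trans hmM) (emb (m * l ^ c) m y), fib_emb hmM hljm,
          sum_image (fun a _ b _ hab => emb_inj hmM hab), smul_sum]
        apply sum_congr rfl
        intro w hw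
        rw [mem_fib] at hw
        apply g4
        rw [tower_eq hlm' ((pow_dvd_pow l hj).trans hlam) w y hw]
        exact hy
      have h1 : (t : ZMod m) * (((l ^ j : ℕ) : ZMod m) * y) =
          ((l ^ j : ℕ) : ZMod m) * ((t : ZMod m) * y) := by
        ring
      rw [h1, hgen y hy, hgen _ (htfull y hy), hFj j y hj hy, hEdef]
      simp only
      rw [sum_sub_distrib, smul_sub]
      have h2 : ∑ w ∈ fib m (l ^ j) (((l ^ j : ℕ) : ZMod m) * y), g ((t : ZMod m) * w) =
          ∑ w ∈ fib m (l ^ j) (((l ^ j : ℕ) : ZMod m) * ((t : ZMod m) * y)), g w := by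
        refine sum_nbij' (fun w => (t : ZMod m) * w) (fun w => (t : ZMod m) * w) ?_ ?_ ?_ ?_ ?_
        · intro w hw
          rw [mem_fib] at hw ⊢
          linear_combination (t : ZMod m) * hw
        · intro w hw
          rw [mem_fib] at hw ⊢
          linear_combination (t : ZMod m) * hw + ((l ^ j : ℕ) : ZMod m) * y * htt
        · intro w _
          rw [← mul_assoc, htt, one_mul]
        · intro w _
          rw [← mul_assoc, htt, one_mul]
        · intro w _
          rfl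
      rw [h2]
      abel

end Pool.Agent.FT
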