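import Pool.Agent.FT.AuxP
import Pool.Agent.FT.Step1
import Pool.Agent.FT.Tower
import Pool.Agent.FT.Quot
import Pool.Agent.FT.Mono
import Pool.Agent.FT.Univ
import Pool.Agent.FT.Base

/-!
# FT-OneL: the part at an odd prime divisor of the order of `p`
-/

set_option autoImplicit false

namespace Pool.Agent.FT

open Finset
open Pool.Agent.Helper9.Fermat (fib mem_fib)
open Pool.Agent.FS (IsHodge emb)

/-- The auxiliary prime `k` acts on `ℤ/m₁` as `- t`; `f x - f (t x)` is divisible by `L`. -/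
theorem kill_l {m₁ M k : ℕ} [NeZero m₁] [NeZero M] (hk : k.Prime) (hkm : ¬ k ∣ m₁)
    (hM : m₁ * k ∣ M) {p : ℕ} (hp : M.Coprime p) {B : Type} [AddCommGroup B] (f : ZMod M → B)
    (hf : ODist M f) (hfp : ∀ x, f ((p : ZMod M) * x) = f x) (f₀ : ℕ)
    (hf₀ : (p : ZMod m₁) ^ f₀ = 1) (t : ℕ) (hkt : (k : ZMod m₁) = -(t : ZMod m₁)) (L f₁ : ℕ)
    (hfL : f₀ = L * f₁) (hL : L ∣ orderOf ((p : ZMod k) ^ f₀)) (F₂ : ZMod m₁ → B)
    (hF₂ : ODist m₁ F₂) (hF₂p : ∀ x, F₂ ((p : ZMod m₁) * x) = F₂ x)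
    (hF₂e : ∀ x, f (emb M m₁ x) = f ((t : ZMod M) * emb M m₁ x) + L • F₂ x) (j : ℕ)
    (hj : ∀ F : ZMod m₁ → B, ODist m₁ F → ∀ Y : Multiset (ZMod m₁), (0 : ZMod m₁) ∉ Y →
      IsHodge Y → 2 ^ j • (Y.map F).sum = 0) (S : Multiset (ZMod m₁)) (h0 : (0 : ZMod m₁) ∉ S)
    (hY : IsHodge (Yp p f₀ S)) :
    (2 ^ (j + 2) * f₁) • (S.map fun x => f (emb M m₁ x)).sum = 0 := by
  have hk0 : k ≠ 0 := hk.ne_zero
  have hn : NeZero (m₁ * k) := ⟨mul_ne_zero (NeZero.ne m₁) hk0⟩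
  have hmM : m₁ ∣ M := (dvd_mul_right m₁ k).trans hM
  have hpk : IsUnit (p : ZMod (m₁ * k)) := pow_unit_cast hM hp
  obtain ⟨F, hF1, hF2, hF3, hF4⟩ := step1 hk hkm hpk (fun x => f (emb M (m₁ * k) x))
    (hf.restr hM) (fun x => by rw [emb_mul hM, hfp]) f₀ hf₀
  obtain ⟨c, hc⟩ := hL
  have h1 : ∀ x, (2 : ℕ) • f (emb M m₁ x) + (L * c) • F x = L • F₂ x := by
    intro x
    have h2 := hF4 x
    rw [emb_emb (dvd_mul_right m₁ k) hM, emb_emb (dvd_mul_right m₁ k) hM, hkt, neg_mul,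
      emb_neg hmM, emb_mul hmM, hf.odd, hc] at h2
    have h3 := hF₂e x
    rw [two_nsmul]
    have h4 : f (emb M m₁ x) + (f (emb M m₁ x) + (L * c) • F x) =
        f (emb M m₁ x) + -f ((t : ZMod M) * emb M m₁ x) := by rw [← h2]
    rw [add_assoc, h4, h3]
    abel
  have hF : ODist m₁ fun x => (2 : ℕ) • F x := by
    refine ⟨?_, ?_, ?_⟩
    · have h2 := hF1 0
      rw [neg_zero] at h2
      change (2 : ℕ) • F 0 = 0
      rw [two_nsmul]
      nth_rewrite 1 [h2]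
      rw [neg_add_cancel]
    · intro x
      change (2 : ℕ) • F (-x) = - ((2 : ℕ) • F x)
      rw [hF1, smul_neg]
    · intro r hr hrm y
      change ∑ z ∈ fib m₁ r ((r : ZMod m₁) * y), (2 : ℕ) • F z = (2 : ℕ) • F ((r : ZMod m₁) * y)
      rw [← smul_sum, hF2 r hr hrm y]
  have hup : IsUnit (p : ZMod m₁) := pow_unit_cast hmM hp
  have h0Y : (0 : ZMod m₁) ∉ Yp p f₀ S := zero_notMem_Yp hup f₀ h0
  have hA := hj _ hF _ h0Y hY
  have hB := hj _ hF₂ _ h0Y hY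
  rw [sum_Yp_inv (F := fun x => (2 : ℕ) • F x) (fun x => by rw [hF3]) f₀ S] at hA
  rw [sum_Yp_inv (F := F₂) hF₂p f₀ S] at hB
  have h2F : (S.map fun x => (2 : ℕ) • F x).sum = (2 : ℕ) • (S.map F).sum := by
    rw [Multiset.sum_map_nsmul]
  rw [h2F] at hA
  have h5 : (2 : ℕ) • (S.map fun x => f (emb M m₁ x)).sum + (L * c) • (S.map F).sum =
      L • (S.map F₂).sum := by
    rw [← Multiset.sum_map_nsmul, ← Multiset.sum_map_nsmul, ← Multiset.sum_map_nsmul,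
      ← Multiset.sum_map_add]
    exact congrArg Multiset.sum (Multiset.map_congr rfl fun x _ => h1 x)
  generalize (S.map fun x => f (emb M m₁ x)).sum = a at h5 ⊢
  generalize (S.map F).sum = b at h5 hA
  generalize (S.map F₂).sum = d at h5 hB
  have h6 : (2 ^ (j + 2) * f₁) • a = (2 ^ (j + 1) * f₁) • ((2 : ℕ) • a) := by
    rw [← mul_smul]
    congr 1
    ring
  have h7 : (2 : ℕ) • a = L • d - (L * c) • b := by rw [← h5, add_sub_cancel_right]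
  rw [h6, h7, smul_sub]
  have h8 : (2 ^ (j + 1) * f₁) • (L • d) = (2 : ℕ) • (2 ^ j • (f₀ • d)) := by
    rw [← mul_smul, ← mul_smul, ← mul_smul, hfL]
    congr 1
    ring
  have h9 : (2 ^ (j + 1) * f₁) • ((L * c) • b) = c • (2 ^ j • (f₀ • ((2 : ℕ) • b))) := by
    rw [← mul_smul, ← mul_smul, ← mul_smul, ← mul_smul, hfL]
    congr 1
    ring
  rw [h8, h9, hB, hA, smul_zero, smul_zero, sub_zero]

/-- the auxiliary prime -/
theorem exists_k (l p : ℕ) (hl : l.Prime) (hp : p.Prime) (e v m' f₀ f₁ : ℕ) [NeZero m']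
    (hlm : l.Coprime m') (hf : f₀ = l ^ e * f₁) (hf₁ : l.Coprime f₁) (B : ℕ) :
    ∃ k : ℕ, k.Prime ∧ B < k ∧ (k : ZMod (l ^ v)) = 1 ∧ (k : ZMod m') = -1 ∧
      l ^ e ∣ orderOf ((p : ZMod k) ^ f₀) := by
  obtain ⟨k, hk, hBk, h1, ⟨i, hi⟩, ⟨i', hi'⟩, h2⟩ := exists_aux l p hl hp (v + 2 * e) m' hlm (-1) B
  refine ⟨k, hk, hBk, ?_, ?_, ?_⟩
  · have h3 : l ^ v ∣ l ^ (v + 2 * e) := pow_dvd_pow l (by omega)
    have h4 := congrArg (ZMod.castHom h3 (ZMod (l ^ v))) h1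
    rw [map_natCast, map_one] at h4
    exact h4
  · rcases Nat.even_or_odd i with he | ho
    · rw [Units.val_neg, Units.val_one, he.neg_one_pow] at hi
      rw [hi, one_pow] at hi'
      rw [Units.val_neg, Units.val_one] at hi'
      rw [hi]
      exact hi'
    · rw [Units.val_neg, Units.val_one, ho.neg_one_pow] at hi
      exact hi
  · set n := orderOf ((p : ZMod k) ^ f₀) with hn
    have h3 : orderOf (p : ZMod k) ∣ f₀ * n := by
      rw [orderOf_dvd_iff_pow_eq_one, pow_mul, hn, pow_orderOf_eq_one]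
    have h4 : l ^ (2 * e) ∣ l ^ e * (f₁ * n) := by
      rw [← mul_assoc, ← hf]
      exact ((pow_dvd_pow l (by omega)).trans h2).trans h3
    have h5 : l ^ e ∣ f₁ * n := by
      rw [two_mul, pow_add] at h4
      exact Nat.dvd_of_mul_dvd_mul_left (pow_pos hl.pos e) h4
    exact (hf₁.pow_left e).dvd_of_dvd_mul_left h5

/-- the part at an odd prime which does not divide the level -/
theorem one_l_a [Flag] (p : ℕ) (hp : p.Prime) (m : ℕ) [NeZero m] (hmp : m.Coprime p)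
    (S : Multiset (ZMod m)) (h0 : (0 : ZMod m) ∉ S) (hc : Even S.card) (hs : S.sum = 0) (f₀ : ℕ)
    (hf₀ : (p : ZMod m) ^ f₀ = 1) (hY : IsHodge (Yp p f₀ S)) (l : ℕ) (hl : l.Prime)
    (hlm : ¬ l ∣ m) (e f₁ : ℕ) (hfe : f₀ = l ^ e * f₁) (hf₁ : l.Coprime f₁) :
    ∃ j, Inf p m S (2 ^ j * f₁) := by
  obtain ⟨k, hk, hBk, h1, h2, h3⟩ := exists_k l p hl hp e 0 m f₀ f₁
    ((Nat.Prime.coprime_iff_not_dvd hl).2 hlm) hfe hf₁ (m + p)
  obtain ⟨j, hj⟩ := univ m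
  have hk0 : k ≠ 0 := hk.ne_zero
  have hn : NeZero (m * k) := ⟨mul_ne_zero (NeZero.ne m) hk0⟩
  have hm0 : 0 < m := Nat.pos_of_ne_zero (NeZero.ne m)
  have hkp : k.Coprime p := by
    rw [Nat.coprime_primes hk hp]
    omega
  have hM : (m * k).Coprime p := Nat.Coprime.mul_left hmp hkp
  have hkm : ¬ k ∣ m := fun h => by
    have := Nat.le_of_dvd hm0 h
    omega
  have hM1 : 1 < m * k := by
    have := hk.two_le
    nlinarith
  obtain ⟨B, _, f, hf, hfp, hf1, hf2⟩ := exists_B p (m * k) hM1 (by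
    rw [ZMod.isUnit_iff_coprime]
    exact hM.symm)
  refine ⟨j + 2, m * k, hn, dvd_mul_right m k, hM, hf2 _ (zero_notMem_emb (dvd_mul_right m k) h0 _)
    ?_ ?_ ?_⟩
  · rw [Multiset.card_nsmul, Multiset.card_map]
    exact hc.mul_left _
  · rw [Multiset.sum_nsmul, emb_sum (dvd_mul_right m k), hs, emb_zero (dvd_mul_right m k),
      smul_zero]
  · rw [Multiset.map_nsmul, Multiset.sum_nsmul, Multiset.map_map]
    refine kill_l hk hkm dvd_rfl hM f hf hfp f₀ hf₀ 1 ?_ (l ^ e) f₁ hfe h3 (fun _ => 0)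
      ⟨rfl, fun _ => neg_zero.symm, fun _ _ _ _ => sum_const_zero⟩ (fun _ => rfl) ?_ j
      (fun F hF Y hY0 hYh => hj B F hF Y hY0 hYh) S h0 hY
    · rw [h2, Nat.cast_one]
    · intro x
      rw [Nat.cast_one, one_mul, smul_zero, add_zero]

/-- `f₀ = l ^ e f₁` and the level is `l ^ v m'`, where `l ^ v` is the exact power of `l` which
divides `p ^ f₀ - 1` -/
theorem one_l_b [Flag] (p : ℕ) (hp : p.Prime) (l v m' m₁ : ℕ) (hl : l.Prime) (hl2 : l ≠ 2) (hv : 0 < v)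
    (hlm : l.Coprime m') [NeZero m₁] (hm₁ : m₁ = l ^ v * m') (hmp : m₁.Coprime p)
    (S : Multiset (ZMod m₁)) (h0 : (0 : ZMod m₁) ∉ S) (hc : Even S.card)
    (hs : S.sum = 0) (f₀ : ℕ) (hf₀ : (p : ZMod m₁) ^ f₀ = 1)
    (hex : ¬ l ^ (v + 1) ∣ p ^ f₀ - 1) (hY : IsHodge (Yp p f₀ S)) (e f₁ : ℕ)
    (hfe : f₀ = l ^ e * f₁) (hf₁ : l.Coprime f₁) :
    ∃ j, Inf p m₁ S (2 ^ j * f₁) := by
  have hm₁0 : m₁ ≠ 0 := NeZero.ne m₁
  have hm'0 : NeZero m' := ⟨fun h => hm₁0 (by rw [hm₁, h, mul_zero])⟩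
  obtain ⟨k, hk, hBk, h1, h2, h3⟩ := exists_k l p hl hp e v m' f₀ f₁ hlm hfe hf₁ (m₁ + p)
  obtain ⟨j, hj⟩ := univ m₁
  have hk0 : k ≠ 0 := hk.ne_zero
  have hm0 : 0 < m₁ := Nat.pos_of_ne_zero hm₁0
  have hle : l ^ e ≠ 0 := (pow_pos hl.pos e).ne'
  have hn₂ : NeZero (m₁ * l ^ e) := ⟨mul_ne_zero hm₁0 hle⟩
  have hn : NeZero (m₁ * l ^ e * k) := ⟨mul_ne_zero (NeZero.ne _) hk0⟩
  have hkp : k.Coprime p := by
    rw [Nat.coprime_primes hk hp]
    omega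
  have hlp : l.Coprime p := by
    refine Nat.Coprime.coprime_dvd_left ?_ hmp
    rw [hm₁]
    exact (dvd_pow_self l hv.ne').trans (dvd_mul_right _ _)
  have hM : (m₁ * l ^ e * k).Coprime p :=
    Nat.Coprime.mul_left (Nat.Coprime.mul_left hmp (hlp.pow_left e)) hkp
  have hkm : ¬ k ∣ m₁ := fun h => by
    have := Nat.le_of_dvd hm0 h
    omega
  have hd1 : m₁ ∣ m₁ * l ^ e := dvd_mul_right _ _
  have hd2 : m₁ * l ^ e ∣ m₁ * l ^ e * k := dvd_mul_right _ _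
  have hd : m₁ ∣ m₁ * l ^ e * k := hd1.trans hd2
  have hd3 : m₁ * k ∣ m₁ * l ^ e * k := by
    refine mul_dvd_mul hd1 dvd_rfl
  have hM1 : 1 < m₁ * l ^ e * k := by
    have h4 := Nat.le_of_dvd (Nat.pos_of_ne_zero (NeZero.ne (m₁ * l ^ e * k)))
      (dvd_mul_left k (m₁ * l ^ e))
    have := hk.two_le
    omega
  obtain ⟨B, _, f, hf, hfp, hf1, hf2⟩ := exists_B p (m₁ * l ^ e * k) hM1 (by
    rw [ZMod.isUnit_iff_coprime]
    exact hM.symm)
  -- the number `t`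
  obtain ⟨t, ht1, ht2⟩ : ∃ t : ℕ, (t : ZMod (l ^ (v + e))) = -1 ∧ (t : ZMod m') = 1 := by
    obtain ⟨t, ht⟩ := Nat.chineseRemainder (hlm.pow_left (v + e)) (l ^ (v + e) - 1) 1
    refine ⟨t, ?_, ?_⟩
    · rw [(ZMod.natCast_eq_natCast_iff t _ _).2 ht.1, Nat.cast_sub (pow_pos hl.pos _),
        ZMod.natCast_self, Nat.cast_one, zero_sub]
    · rw [(ZMod.natCast_eq_natCast_iff t _ _).2 ht.2, Nat.cast_one]
  obtain ⟨F₂, hF₂, hF₂p, hF₂e⟩ := tower hl hv (fun h => absurd h hl2) hm₁ hlm (p := p)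
    (fun x => f (emb (m₁ * l ^ e * k) (m₁ * l ^ e) x)) (hf.restr hd2)
    (fun x => by rw [emb_mul hd2, hfp]) f₀ hf₀ hex t ht1 ht2
  have hkt : (k : ZMod m₁) = -(t : ZMod m₁) := by
    rw [eq_neg_iff_add_eq_zero, ← Nat.cast_add, ZMod.natCast_eq_zero_iff, hm₁]
    refine Nat.Coprime.mul_dvd_of_dvd_of_dvd (hlm.pow_left v) ?_ ?_
    · rw [← ZMod.natCast_eq_zero_iff, Nat.cast_add, h1]
      have h4 : l ^ v ∣ l ^ (v + e) := pow_dvd_pow l (by omega)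
      have h5 := congrArg (ZMod.castHom h4 (ZMod (l ^ v))) ht1
      rw [map_natCast, map_neg, map_one] at h5
      rw [h5, add_neg_cancel]
    · rw [← ZMod.natCast_eq_zero_iff, Nat.cast_add, h2, ht2, neg_add_cancel]
  refine ⟨j + 2, m₁ * l ^ e * k, hn, hd, hM, hf2 _ (zero_notMem_emb hd h0 _) ?_ ?_ ?_⟩
  · rw [Multiset.card_nsmul, Multiset.card_map]
    exact hc.mul_left _
  · rw [Multiset.sum_nsmul, emb_sum hd, hs, emb_zero hd, smul_zero]
  · rw [Multiset.map_nsmul, Multiset.sum_nsmul, Multiset.map_map]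
    refine kill_l hk hkm hd3 hM f hf hfp f₀ hf₀ t hkt (l ^ e) f₁ hfe h3 F₂ hF₂ hF₂p ?_ j
      (fun F hF Y hY0 hYh => hj B F hF Y hY0 hYh) S h0 hY
    intro x
    have h4 := hF₂e x
    rw [emb_emb hd1 hd2, emb_mul hd2, emb_emb hd1 hd2] at h4
    exact h4

/-- the part at an odd prime -/
theorem one_l [Flag] (p : ℕ) (hp : p.Prime) (m : ℕ) [NeZero m] (hmp : m.Coprime p)
    (S : Multiset (ZMod m)) (h0 : (0 : ZMod m) ∉ S) (hc : Even S.card) (hs : S.sum = 0) (f₀ : ℕ)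
    (hf0 : 0 < f₀) (hf₀ : (p : ZMod m) ^ f₀ = 1) (hY : IsHodge (Yp p f₀ S)) (l : ℕ)
    (hl : l.Prime) (hl2 : l ≠ 2) (e f₁ : ℕ) (hfe : f₀ = l ^ e * f₁) (hf₁ : l.Coprime f₁) :
    ∃ j, Inf p m S (2 ^ j * f₁) := by
  by_cases hlm : l ∣ m
  · have hm0 : m ≠ 0 := NeZero.ne m
    have hP : p ^ f₀ - 1 ≠ 0 := by
      have h1 : 1 < p ^ f₀ := Nat.one_lt_pow hf0.ne' hp.one_lt
      omega
    have hmP : m ∣ p ^ f₀ - 1 := by
      rw [← ZMod.natCast_eq_zero_iff, Nat.cast_sub (pow_pos hp.pos _), Nat.cast_pow, hf₀,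
        Nat.cast_one, sub_self]
    obtain ⟨v, hv⟩ : ∃ v, v = (p ^ f₀ - 1).factorization l := ⟨_, rfl⟩
    have hv1 : l ^ v ∣ p ^ f₀ - 1 := by rw [hv]; exact Nat.ordProj_dvd _ _
    have hv2 : ¬ l ^ (v + 1) ∣ p ^ f₀ - 1 := by
      rw [hv]
      exact Nat.pow_succ_factorization_not_dvd hP hl
    have hv0 : 0 < v := by
      rw [hv]
      exact hl.factorization_pos_of_dvd hP (hlm.trans hmP)
    have hcop : l.Coprime (ordCompl[l] m) := Nat.coprime_ordCompl hl hm0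
    have hle : m.factorization l ≤ v := by
      rw [hv]
      exact (Nat.factorization_le_iff_dvd hm0 hP).2 hmP l
    have hdv : m ∣ l ^ v * ordCompl[l] m := by
      conv_lhs => rw [← Nat.ordProj_mul_ordCompl_eq_self m l]
      exact mul_dvd_mul (pow_dvd_pow l hle) dvd_rfl
    have hne : NeZero (l ^ v * ordCompl[l] m) :=
      ⟨mul_ne_zero (pow_pos hl.pos v).ne' (Nat.ordCompl_pos l hm0).ne'⟩
    have hPd : l ^ v * ordCompl[l] m ∣ p ^ f₀ - 1 :=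
      Nat.Coprime.mul_dvd_of_dvd_of_dvd (hcop.pow_left v) hv1 ((Nat.ordCompl_dvd m l).trans hmP)
    have hf₀' : (p : ZMod (l ^ v * ordCompl[l] m)) ^ f₀ = 1 := by
      rw [← ZMod.natCast_eq_zero_iff, Nat.cast_sub (pow_pos hp.pos _), Nat.cast_pow,
        Nat.cast_one, sub_eq_zero] at hPd
      exact hPd
    have hmp' : (l ^ v * ordCompl[l] m).Coprime p := by
      refine Nat.Coprime.mul_left ?_ (Nat.Coprime.coprime_dvd_left (Nat.ordCompl_dvd m l) hmp)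
      exact (Nat.Coprime.coprime_dvd_left hlm hmp).pow_left v
    obtain ⟨j, M, hM, hd, hMp, hA⟩ := one_l_b p hp l v (ordCompl[l] m) _ hl hl2 hv0 hcop rfl hmp'
      (S.map (emb _ m)) (by
        have h := zero_notMem_emb hdv h0 1
        rw [one_smul] at h
        exact h)
      (by rw [Multiset.card_map]; exact hc) (by rw [emb_sum hdv, hs, emb_zero hdv]) f₀ hf₀' hv2
      (by rw [Yp_emb hdv]; exact hodge_emb hdv hY) e f₁ hfe hf₁
    refine ⟨j, M, hM, hdv.trans hd, hMp, ?_⟩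
    rw [Multiset.map_map] at hA
    have h5 : S.map (emb M (l ^ v * ordCompl[l] m) ∘ emb (l ^ v * ordCompl[l] m) m) =
        S.map (emb M m) := Multiset.map_congr rfl fun x _ => emb_emb hdv hd x
    rw [h5] at hA
    exact hA
  · exact one_l_a p hp m hmp S h0 hc hs f₀ hf₀ hY l hl hlm e f₁ hfe hf₁

end Pool.Agent.FT
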