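import Pool.Agent.FT.TF
import Pool.Agent.FT.TFt
import Pool.Agent.FT.TFn
import Pool.Agent.FT.NV

/-!
# FT-P13: elements whose order is a power of 13

Weights with the characteristic function of the cubic roots of unity modulo `13`. For levels whose
prime factors are `2`, `3` and `13`, not divisible by four, Tate characters have an even number of
elements whose order is a power of `13`, if the order of `p` modulo `13` divides three.
-/

set_option autoImplicit false

namespace Pool.Agent.FT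

open Finset
open Pool.Agent.Helper9.Fermat (fib mem_fib)
open Pool.Agent.FS (IsHodge emb sw rr)
open Pool.Agent.FQ (chiT)

/-- odd distributions invariant under the units which are cubic roots of unity modulo `13` -/
structure TC (m : ℕ) [NeZero m] (T : ZMod m → ℤ) : Prop where
  dist : ∀ r : ℕ, r.Prime → r ∣ m → ∀ y : ZMod m,
    ∑ z ∈ fib m r ((r : ZMod m) * y), T z = T ((r : ZMod m) * y)
  unit : ∀ u : (ZMod m)ˣ, rr u ^ 3 ≡ 1 [MOD 13] → ∀ x, T ((u : ZMod m) * x) = T x
  neg : ∀ x, T (-x) = - T x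

section

variable {m : ℕ} [NeZero m] (h13 : 13 ∣ m) {T : ZMod m → ℤ} (hT : TC m T)

private theorem pr13 : Nat.Prime 13 := by norm_num

include hT

private theorem tc_sum {q : ℕ} (hq : q.Prime) {x : ZMod m} (hx : q ∣ addOrderOf x) :
    T ((q : ZMod m) * x) =
      ∑ j ∈ range q, T (((1 + j * (addOrderOf x / q) : ℕ) : ZMod m) * x) := by
  rw [← hT.dist q hq (hx.trans (tfa_ord x).1) x, ← tfa_fib hq hx,
    sum_image (tfa_fib_inj hq hx)]

include h13

omit hT in
private theorem tc_compl {q : ℕ} (hq : q.Prime) (h : q ≠ 13) : 13 ∣ ordCompl[q] m := by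
  have h3 : Nat.Coprime 13 (ordProj[q] m) :=
    Nat.Coprime.pow_right _ ((Nat.coprime_primes pr13 hq).2 (Ne.symm h))
  refine h3.dvd_of_dvd_mul_left ?_
  rw [Nat.ordProj_mul_ordCompl_eq_self]
  exact h13

private theorem tc_zero {x : ZMod m} (hx : ¬ 13 ∣ addOrderOf x) : T x = 0 := by
  have h2 : ordCompl[13] (addOrderOf x) = addOrderOf x := by
    rw [Nat.factorization_eq_zero_of_not_dvd hx, pow_zero, Nat.div_one]
  obtain ⟨h4, h5⟩ := tfa_ord x
  -- a unit which is `1` modulo `13` and `-1` modulo the order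
  have h1 : ordProj[13] (addOrderOf x) = 1 := by
    rw [Nat.factorization_eq_zero_of_not_dvd hx, pow_zero]
  have hc0 : 0 < ordCompl[13] m := Nat.ordCompl_pos 13 (NeZero.ne m)
  have hb : (ordCompl[13] m - 1).Coprime (ordCompl[13] m) := by
    have h3 : (ordCompl[13] m - 1).Coprime (ordCompl[13] m - 1 + 1) := by simp
    rwa [Nat.sub_add_cancel hc0] at h3
  obtain ⟨u, hu1, hu2, hu3⟩ := tfa_unit pr13 x 1 (ordCompl[13] m - 1) (ordCompl[13] m - 1)
    (Nat.coprime_one_left _) hb (by rw [h1]; exact Nat.modEq_one) (Nat.ModEq.refl _)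
  have h6 : ((ordCompl[13] m - 1 : ℕ) : ZMod m) * x = -x := by
    have h7 : addOrderOf x ∣ ordCompl[13] m := by
      rw [← h2]
      exact Nat.ordCompl_dvd_ordCompl_of_dvd h4 13
    have h8 : ((ordCompl[13] m : ℕ) : ZMod m) * x = 0 := by
      rw [← nsmul_eq_mul]
      exact addOrderOf_dvd_iff_nsmul_eq_zero.1 h7
    have h9 : ((ordCompl[13] m - 1 : ℕ) : ZMod m) * x + x =
        ((ordCompl[13] m : ℕ) : ZMod m) * x := by
      have h10 : (ordCompl[13] m : ℕ) = (ordCompl[13] m - 1) + 1 :=
        (Nat.sub_add_cancel hc0).symm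
      conv_rhs => rw [h10]
      push_cast
      ring
    rw [h8] at h9
    exact eq_neg_of_add_eq_zero_left h9
  rw [h6] at hu3
  have h7 := hT.unit u (by
    have h8 : rr u ≡ 1 [MOD 13] :=
      hu1.of_dvd (dvd_pow_self 13 (pr13.factorization_pos_of_dvd (NeZero.ne m) h13).ne')
    simpa using h8.pow 3) x
  rw [hu3, hT.neg] at h7
  linarith

private theorem tc_eq {q : ℕ} (hq : q.Prime) {x : ZMod m} (hx : q ∣ addOrderOf x) (j : ℕ)
    (h1 : ¬ q ∣ 1 + j * (addOrderOf x / q)) (h2 : q ≠ 13 ∨ q ∣ addOrderOf x / q) :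
    T (((1 + j * (addOrderOf x / q) : ℕ) : ZMod m) * x) = T x := by
  obtain ⟨h4, h5⟩ := tfa_ord x
  have h6 : (1 + j * (addOrderOf x / q)).Coprime q := ((Nat.Prime.coprime_iff_not_dvd hq).2 h1).symm
  have h7 : ordCompl[q] (addOrderOf x) ∣ addOrderOf x / q := by
    have h8 : 1 ≤ (addOrderOf x).factorization q := hq.factorization_pos_of_dvd h5 hx
    have h9 := Nat.ordProj_mul_ordCompl_eq_self (addOrderOf x) q
    have h10 : q * q ^ ((addOrderOf x).factorization q - 1) = ordProj[q] (addOrderOf x) := by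
      rw [← pow_succ', Nat.sub_add_cancel h8]
    refine ⟨q ^ ((addOrderOf x).factorization q - 1), Nat.div_eq_of_eq_mul_right hq.pos ?_⟩
    calc addOrderOf x = ordProj[q] (addOrderOf x) * ordCompl[q] (addOrderOf x) := h9.symm
      _ = (q * q ^ ((addOrderOf x).factorization q - 1)) * ordCompl[q] (addOrderOf x) := by
        rw [h10]
      _ = _ := by ring
  obtain ⟨u, hu1, hu2, hu3⟩ := tfa_unit hq x (1 + j * (addOrderOf x / q)) 1
    (1 + j * (addOrderOf x / q)) (tfa_cop h6) (Nat.coprime_one_left _) (Nat.ModEq.refl _) (by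
      refine (Nat.modEq_iff_dvd' (Nat.le_add_right _ _)).2 ?_
      rw [Nat.add_sub_cancel_left]
      exact h7.mul_left j)
  rw [← hu3]
  refine hT.unit u ?_ x
  have h8 : rr u ≡ 1 [MOD 13] := by
    by_cases hq13 : q = 13
    · subst hq13
      have h2' : 13 ∣ addOrderOf x / 13 := h2.resolve_left (fun h => h rfl)
      refine (hu1.of_dvd (dvd_pow_self 13
        (hq.factorization_pos_of_dvd (NeZero.ne m) (hx.trans h4)).ne')).trans ?_
      refine Nat.ModEq.symm ((Nat.modEq_iff_dvd' (Nat.le_add_right _ _)).2 ?_)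
      rw [Nat.add_sub_cancel_left]
      exact h2'.mul_left j
    · exact hu2.of_dvd (tc_compl h13 hq hq13)
  simpa using h8.pow 3

private theorem tc_sq {q : ℕ} (hq : q.Prime) {x : ZMod m} (hx : q ^ 2 ∣ addOrderOf x) :
    T ((q : ZMod m) * x) = q * T x := by
  have hqx : q ∣ addOrderOf x := (dvd_pow_self q two_ne_zero).trans hx
  have h1 : q ∣ addOrderOf x / q := by
    refine (Nat.dvd_div_iff_mul_dvd hqx).2 ?_
    rw [← pow_two]
    exact hx
  rw [tc_sum hT hq hqx, sum_congr rfl fun j _ => tc_eq h13 hT hq hqx j ?_ (Or.inr h1), sum_const,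
    card_range, nsmul_eq_mul]
  intro h2
  have h3 : q ∣ 1 := (Nat.dvd_add_left (h1.mul_left j)).1 h2
  exact hq.one_lt.ne' (Nat.dvd_one.1 h3)

private theorem tc_q {q : ℕ} (hq : q.Prime) (hq13 : q ≠ 13) {x : ZMod m} (hx : q ∣ addOrderOf x)
    (hx2 : ¬ q ^ 2 ∣ addOrderOf x) :
    ∃ z₀ : ZMod m, addOrderOf x = q * addOrderOf z₀ ∧
      ((q : ℤ) - 1) * T x = T ((q : ZMod m) * x) - T z₀ ∧
        (q ^ 3 ≡ 1 [MOD 13] → T z₀ = T ((q : ZMod m) * x)) := by
  classical
  obtain ⟨h4, h5⟩ := tfa_ord x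
  obtain ⟨n', hn'⟩ := hx
  have hqx : q ∣ addOrderOf x := ⟨n', hn'⟩
  have h6 : addOrderOf x / q = n' := by rw [hn', Nat.mul_div_cancel_left _ hq.pos]
  have hqn : ¬ q ∣ n' := by
    rintro ⟨c, rfl⟩
    exact hx2 ⟨c, by rw [hn']; ring⟩
  obtain ⟨j₀, hj₀, hdj⟩ : ∃ j₀ < q, q ∣ 1 + j₀ * n' := by
    have := Fact.mk hq
    have h7 : ((n' : ℕ) : ZMod q) ≠ 0 := by
      intro h
      exact hqn ((ZMod.natCast_eq_zero_iff n' q).1 h)
    refine ⟨(-((n' : ℕ) : ZMod q)⁻¹).val, ZMod.val_lt _, ?_⟩
    rw [← ZMod.natCast_eq_zero_iff]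
    push_cast
    rw [ZMod.natCast_zmod_val, neg_mul, inv_mul_cancel₀ h7]
    ring
  have hz₀ : addOrderOf (((1 + j₀ * n' : ℕ) : ZMod m) * x) = n' := by
    rw [← nsmul_eq_mul, addOrderOf_nsmul]
    have h7 : (addOrderOf x).gcd (1 + j₀ * n') = q := by
      rw [hn']
      have h8 : n'.Coprime (1 + j₀ * n') := by
        rw [Nat.coprime_add_mul_right_right]
        exact Nat.coprime_one_right _
      rw [Nat.Coprime.gcd_mul_right_cancel _ h8]
      exact Nat.gcd_eq_left hdj
    rw [h7, h6]
  refine ⟨((1 + j₀ * n' : ℕ) : ZMod m) * x, by rw [hz₀, hn'], ?_, ?_⟩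
  · have hs := tc_sum hT hq hqx
    rw [h6, ← add_sum_erase _ _ (mem_range.2 hj₀)] at hs
    have h8 : ∑ j ∈ (range q).erase j₀, T (((1 + j * n' : ℕ) : ZMod m) * x) =
        ((q : ℤ) - 1) * T x := by
      rw [sum_congr rfl fun j hj => (show T (((1 + j * n' : ℕ) : ZMod m) * x) = T x from
        ?_), sum_const, card_erase_of_mem (mem_range.2 hj₀), card_range, nsmul_eq_mul,
        Nat.cast_sub hq.one_lt.le, Nat.cast_one]
      have h9 := tc_eq h13 hT hq hqx j ?_ (Or.inl hq13)
      · rwa [h6] at h9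
      · rw [h6]
        intro h10
        apply ne_of_mem_erase hj
        have h11 : 1 + j * n' ≡ 1 + j₀ * n' [MOD q] :=
          ((Nat.modEq_zero_iff_dvd).2 h10).trans ((Nat.modEq_zero_iff_dvd).2 hdj).symm
        have h12 := Nat.ModEq.cancel_right_of_coprime
          ((Nat.Prime.coprime_iff_not_dvd hq).2 hqn) (Nat.ModEq.add_left_cancel' 1 h11)
        exact Nat.ModEq.eq_of_lt_of_lt h12 (mem_range.1 (mem_of_mem_erase hj)) hj₀
    rw [h8] at hs
    linear_combination -hs
  · intro hq3
    have h9 : (q : ZMod m) * (((1 + j₀ * n' : ℕ) : ZMod m) * x) = (q : ZMod m) * x := by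
      have h10 : (((1 + j₀ * n' : ℕ) : ZMod m) * x) ∈ fib m q ((q : ZMod m) * x) := by
        rw [← tfa_fib hq hqx, mem_image]
        exact ⟨j₀, mem_range.2 hj₀, by rw [h6]⟩
      exact mem_fib.1 h10
    have h10 : ordProj[q] n' = 1 := by
      rw [Nat.factorization_eq_zero_of_not_dvd hqn, pow_zero]
    obtain ⟨u, hu1, hu2, hu3⟩ := tfa_unit hq (((1 + j₀ * n' : ℕ) : ZMod m) * x) 1 q q
      (Nat.coprime_one_left _) (Nat.coprime_ordCompl hq (NeZero.ne m))
      (by rw [hz₀, h10]; exact Nat.modEq_one) (Nat.ModEq.refl _)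
    have h11 := hT.unit u (((hu2.of_dvd (tc_compl h13 hq hq13)).pow 3).trans hq3)
      (((1 + j₀ * n' : ℕ) : ZMod m) * x)
    rw [hu3, h9] at h11
    exact h11.symm

/-- elements whose order is divisible by `3` -/
private theorem tc_three : ∀ d : ℕ, ∀ x : ZMod m, addOrderOf x = d → 3 ∣ d → T x = 0 := by
  intro d
  induction d using Nat.strong_induction_on with
  | _ d ih =>
    intro x hx h3
    have h5 := (tfa_ord x).2
    rw [hx] at h5
    by_cases h9 : 3 ^ 2 ∣ d
    · have h1 := tc_sq h13 hT Nat.prime_three (x := x) (by rw [hx]; exact h9)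
      have h2 : addOrderOf (((3 : ℕ) : ZMod m) * x) = d / 3 := by
        rw [tf_ord_mul Nat.prime_three (by rw [hx]; exact h3), hx]
      have h4 := ih (d / 3) (Nat.div_lt_self (Nat.pos_of_ne_zero h5) (by norm_num)) _ h2 (by
        obtain ⟨k, hk⟩ := h9
        exact ⟨k, by omega⟩)
      rw [h4] at h1
      push_cast at h1
      linarith
    · obtain ⟨z, hz, h1, h2⟩ := tc_q h13 hT Nat.prime_three (by norm_num) (x := x)
        (by rw [hx]; exact h3) (by rw [hx]; exact h9)
      rw [h2 (by decide)] at h1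
      push_cast at h1
      linarith

variable {C : ℤ} (hC : C ≠ 0) (hbase : ∀ x : ZMod m, addOrderOf x = 13 → T x = C ∨ T x = -C)

include hC hbase

private theorem tc_main : ∃ v : ℕ, ∀ d : ℕ, ∀ x : ZMod m, addOrderOf x = d →
    d.primeFactors = {13} → ∃ c : ℤ, Odd c ∧ T x = 2 ^ v * c := by
  obtain ⟨k, a, ha, hn⟩ := Nat.exists_eq_two_pow_mul_odd (Int.natAbs_ne_zero.2 hC)
  have ha' : Odd (a : ℤ) := by exact_mod_cast ha
  have hC' : ∃ c : ℤ, Odd c ∧ C = 2 ^ k * c := by
    rcases Int.natAbs_eq C with h | h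
    · exact ⟨a, ha', by rw [h, hn]; push_cast; ring⟩
    · exact ⟨-a, ha'.neg, by rw [h, hn]; push_cast; ring⟩
  refine ⟨k, fun d => ?_⟩
  induction d using Nat.strong_induction_on with
  | _ d ih =>
    intro x hx hd
    have h5 := (tfa_ord x).2
    rw [hx] at h5
    have hd13 : 13 ∣ d := Nat.dvd_of_mem_primeFactors (by rw [hd]; exact mem_singleton_self _)
    by_cases h9 : 13 ^ 2 ∣ d
    · have h1 := tc_sq h13 hT pr13 (x := x) (by rw [hx]; exact h9)
      have h2 : addOrderOf (((13 : ℕ) : ZMod m) * x) = d / 13 := by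
        rw [tf_ord_mul pr13 (by rw [hx]; exact hd13), hx]
      obtain ⟨c, hc, h4⟩ := ih (d / 13) (Nat.div_lt_self (Nat.pos_of_ne_zero h5) (by norm_num)) _
        h2 (by rw [tf_pf_div pr13 h5 h9, hd])
      rw [h4] at h1
      exact tf_pow_odd (q := ((13 : ℕ) : ℤ)) (by decide) hc h1.symm
    · -- the order is `13`
      have h10 : d = 13 := by
        obtain ⟨e, he⟩ := hd13
        have he0 : e ≠ 0 := by
          rintro rfl
          exact h5 (by rw [he])
        have he1 : e.primeFactors = ∅ := by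
          rw [eq_empty_iff_forall_notMem]
          intro r hr
          have h11 : r ∈ d.primeFactors := by
            rw [he, Nat.primeFactors_mul (by norm_num) he0]
            exact mem_union_right _ hr
          rw [hd, mem_singleton] at h11
          subst h11
          obtain ⟨g, hg⟩ := Nat.dvd_of_mem_primeFactors hr
          exact h9 ⟨g, by rw [he, hg]; ring⟩
        rw [Nat.primeFactors_eq_empty] at he1
        rcases he1 with h | h
        · exact absurd h he0
        · rw [he, h]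
      obtain ⟨c, hc, hCc⟩ := hC'
      rcases hbase x (by rw [hx, h10]) with h | h
      · exact ⟨c, hc, by rw [h, hCc]⟩
      · exact ⟨-c, hc.neg, by rw [h, hCc]; ring⟩

open Classical in
/-- the number of elements whose order is a power of `13` is even -/
theorem tc_par (h4 : ¬ 4 ∣ m) (hpf : m.primeFactors ⊆ {2, 3, 13}) {S : Multiset (ZMod m)}
    (hS : (S.map T).sum = 0) : Even (nV S {13}) := by
  obtain ⟨v, hv⟩ := tc_main h13 hT hC hbase
  have hex : ∀ x : ZMod m, ∃ c : ℤ, T x = 2 ^ v * c ∧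
      (Odd c ↔ Odd (addOrderOf x) ∧ (addOrderOf x).primeFactors = {13}) := by
    intro x
    obtain ⟨h5, h6⟩ := tfa_ord x
    by_cases hB : (addOrderOf x).primeFactors = {13}
    · obtain ⟨c, hc, h1⟩ := hv _ x rfl hB
      refine ⟨c, h1, fun _ => ⟨?_, hB⟩, fun _ => hc⟩
      rw [← Nat.not_even_iff_odd]
      intro he
      have h7 : 2 ∈ (addOrderOf x).primeFactors :=
        Nat.mem_primeFactors.2 ⟨Nat.prime_two, he.two_dvd, h6⟩
      rw [hB] at h7
      exact absurd h7 (by decide)
    · by_cases h13x : 13 ∣ addOrderOf x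
      swap
      · exact ⟨0, by rw [tc_zero h13 hT h13x, mul_zero], fun h => absurd h (by decide),
          fun h => absurd h.2 hB⟩
      by_cases h3 : 3 ∣ addOrderOf x
      · exact ⟨0, by rw [tc_three h13 hT _ x rfl h3, mul_zero], fun h => absurd h (by decide),
          fun h => absurd h.2 hB⟩
      by_cases h2 : 2 ∣ addOrderOf x
      swap
      · exfalso
        apply hB
        refine Subset.antisymm (fun r hr => ?_) (singleton_subset_iff.2
          (Nat.mem_primeFactors.2 ⟨pr13, h13x, h6⟩))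
        have h7 := hpf (Nat.primeFactors_mono h5 (NeZero.ne m) hr)
        have h8 := Nat.dvd_of_mem_primeFactors hr
        simp only [mem_insert, mem_singleton] at h7 ⊢
        rcases h7 with rfl | rfl | rfl
        · exact absurd h8 h2
        · exact absurd h8 h3
        · rfl
      have h22 : ¬ 2 ^ 2 ∣ addOrderOf x := fun h => h4 (by simpa using h.trans h5)
      obtain ⟨z, hz, h1, -⟩ := tc_q h13 hT Nat.prime_two (by norm_num) h2 h22
      have hz0 : addOrderOf z ≠ 0 := (tfa_ord z).2
      have hpz : (addOrderOf z).primeFactors = {13} := by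
        refine Subset.antisymm (fun r hr => ?_) (singleton_subset_iff.2
          (Nat.mem_primeFactors.2 ⟨pr13, ?_, hz0⟩))
        · have h8 := Nat.dvd_of_mem_primeFactors hr
          have h9 : r ∣ addOrderOf x := by
            rw [hz]
            exact h8.mul_left 2
          have h7 := hpf (Nat.mem_primeFactors.2 ⟨Nat.prime_of_mem_primeFactors hr,
            h9.trans h5, NeZero.ne m⟩)
          simp only [mem_insert, mem_singleton] at h7 ⊢
          rcases h7 with rfl | rfl | rfl
          · exfalso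
            apply h22
            rw [hz, pow_two]
            exact mul_dvd_mul_left 2 h8
          · exact absurd h9 h3
          · rfl
        · rw [hz] at h13x
          exact (by norm_num : Nat.Coprime 13 2).dvd_of_dvd_mul_left h13x
      have h2x : addOrderOf (((2 : ℕ) : ZMod m) * x) = addOrderOf z := by
        rw [tf_ord_mul Nat.prime_two h2, hz, Nat.mul_div_cancel_left _ (by norm_num)]
      obtain ⟨c1, hc1, e1⟩ := hv _ z rfl hpz
      obtain ⟨c2, hc2, e2⟩ := hv _ (((2 : ℕ) : ZMod m) * x) rfl (by rw [h2x, hpz])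
      refine ⟨c2 - c1, ?_, fun h => ?_, fun h => absurd h.2 hB⟩
      · rw [e1, e2] at h1
        push_cast at h1
        linarith
      · exact absurd h (Int.not_odd_iff_even.2 (hc2.sub_odd hc1))
  choose c hc1 hc2 using hex
  exact tf_par T c v _ S (fun x _ => hc1 x) (fun x _ => hc2 x) hS

end

end Pool.Agent.FT
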