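import Pool.Agent.FT.P13

/-!
# FT-P13b: the weight with the cubic roots of unity modulo 13
-/

set_option autoImplicit false

namespace Pool.Agent.FT

open Finset
open Pool.Agent.Helper9.Fermat (fib mem_fib)
open Pool.Agent.FS (IsHodge emb sw rr)
open Pool.Agent.FQ (chiT)

/-- the characteristic function of the cubic roots of unity modulo `13` -/
def c13 (n : ℕ) : ℤ := if n ^ 3 % 13 = 1 then 1 else 0

theorem c13_mod {a b : ℕ} (h : a ≡ b [MOD 13]) : c13 a = c13 b := by
  unfold c13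
  have h1 : a ^ 3 % 13 = b ^ 3 % 13 := h.pow 3
  rw [h1]

theorem c13_mul {a b : ℕ} (h : b ^ 3 ≡ 1 [MOD 13]) : c13 (a * b) = c13 a := by
  unfold c13
  have h1 : (a * b) ^ 3 % 13 = a ^ 3 % 13 := by
    rw [mul_pow]
    have h2 := h.mul_left (a ^ 3)
    rw [mul_one] at h2
    exact h2
  rw [h1]

/-- the weight -/
def D13 (m : ℕ) [NeZero m] (x : ZMod m) : ℤ :=
  ∑ t : (ZMod m)ˣ, c13 (rr t) * sw ((t : ZMod m) * x)

theorem rr_mul13 {m : ℕ} [NeZero m] (h13 : 13 ∣ m) (t u : (ZMod m)ˣ) :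
    rr (t * u) ≡ rr t * rr u [MOD 13] := by
  unfold rr
  rw [Units.val_mul, ZMod.val_mul]
  exact (Nat.mod_modEq _ m).of_dvd h13

theorem tc_D13 {m : ℕ} [NeZero m] (h13 : 13 ∣ m) : TC m (D13 m) := by
  refine ⟨fun r hr hrm y => ?_, fun u hu x => ?_, fun x => ?_⟩
  · unfold D13
    rw [sum_comm]
    refine sum_congr rfl fun t _ => ?_
    rw [← mul_sum, sw_dist t r hr hrm y]
  · unfold D13
    rw [← Equiv.sum_comp (Equiv.mulRight u)
      (fun t : (ZMod m)ˣ => c13 (rr t) * sw ((t : ZMod m) * x))]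
    refine sum_congr rfl fun t _ => ?_
    rw [Equiv.coe_mulRight, Units.val_mul, mul_assoc, c13_mod (rr_mul13 h13 t u), c13_mul hu]
  · unfold D13
    rw [← sum_neg_distrib]
    refine sum_congr rfl fun t _ => ?_
    rw [mul_neg (t : ZMod m) x, Pool.Agent.FS.Quot.sw_neg, mul_neg]

/-- sums over the units of a level -/
theorem sum_units {d m : ℕ} [NeZero d] [NeZero m] (h : d ∣ m) (g : (ZMod d)ˣ → ℤ) :
    ∑ t : (ZMod m)ˣ, g (ZMod.unitsMap h t) =
      ((Finset.univ.filter fun t : (ZMod m)ˣ => ZMod.unitsMap h t = 1).card : ℤ) *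
        ∑ s : (ZMod d)ˣ, g s := by
  classical
  have hsurj := ZMod.unitsMap_surjective h
  rw [← sum_fiberwise Finset.univ (fun t : (ZMod m)ˣ => ZMod.unitsMap h t), mul_sum]
  refine sum_congr rfl fun s _ => ?_
  rw [sum_congr rfl (g := fun _ => g s) fun t ht => by
    rw [(mem_filter.1 ht).2], sum_const, nsmul_eq_mul]
  congr 1
  obtain ⟨k, hk⟩ := hsurj s
  have hcard : (Finset.univ.filter fun t : (ZMod m)ˣ => ZMod.unitsMap h t = s).card =
      (Finset.univ.filter fun t : (ZMod m)ˣ => ZMod.unitsMap h t = 1).card := by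
    refine Finset.card_bij' (fun t _ => k⁻¹ * t) (fun t _ => k * t) ?_ ?_ ?_ ?_
    · intro t ht
      rw [mem_filter] at ht ⊢
      refine ⟨Finset.mem_univ _, ?_⟩
      rw [map_mul, map_inv, hk, ht.2, inv_mul_cancel]
    · intro t ht
      rw [mem_filter] at ht ⊢
      refine ⟨Finset.mem_univ _, ?_⟩
      rw [map_mul, hk, ht.2, mul_one]
    · intro t _
      rw [mul_inv_cancel_left]
    · intro t _
      rw [inv_mul_cancel_left]
  exact_mod_cast hcard

private theorem p13_level : ∀ c : ZMod 13, c ≠ 0 →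
    (∑ s : (ZMod 13)ˣ, c13 (rr s) * sw ((s : ZMod 13) * c) = 13 ∨
      ∑ s : (ZMod 13)ˣ, c13 (rr s) * sw ((s : ZMod 13) * c) = -13) := by
  decide +kernel

theorem D13_base {m : ℕ} [NeZero m] (h13 : 13 ∣ m) : ∃ C : ℤ, C ≠ 0 ∧
    ∀ x : ZMod m, addOrderOf x = 13 → D13 m x = C ∨ D13 m x = -C := by
  classical
  refine ⟨((m / 13 : ℕ) : ℤ) *
    (((Finset.univ.filter fun t : (ZMod m)ˣ => ZMod.unitsMap h13 t = 1).card : ℤ) * 13), ?_, ?_⟩
  · have h1 : ((m / 13 : ℕ) : ℤ) ≠ 0 := by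
      have : 0 < m / 13 := Nat.div_pos (Nat.le_of_dvd (Nat.pos_of_ne_zero (NeZero.ne m)) h13)
        (by norm_num)
      exact_mod_cast this.ne'
    have h2 : ((Finset.univ.filter fun t : (ZMod m)ˣ => ZMod.unitsMap h13 t = 1).card : ℤ) ≠
        0 := by
      have : 0 < (Finset.univ.filter fun t : (ZMod m)ˣ => ZMod.unitsMap h13 t = 1).card :=
        card_pos.2 ⟨1, mem_filter.2 ⟨Finset.mem_univ _, map_one _⟩⟩
      exact_mod_cast this.ne'
    exact mul_ne_zero h1 (mul_ne_zero h2 (by norm_num))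
  · intro x hx
    obtain ⟨c, rfl⟩ := exists_emb (M := m) (m := 13) h13 (y := x) (by
      rw [← nsmul_eq_mul, ← hx]
      exact addOrderOf_nsmul_eq_zero x)
    have hc : c ≠ 0 := by
      rintro rfl
      rw [emb_zero h13, addOrderOf_zero] at hx
      exact absurd hx (by norm_num)
    have hterm : ∀ t : (ZMod m)ˣ, c13 (rr t) * sw ((t : ZMod m) * emb m 13 c) =
        ((m / 13 : ℕ) : ℤ) * ((fun s : (ZMod 13)ˣ => c13 (rr s) * sw ((s : ZMod 13) * c))
          (ZMod.unitsMap h13 t)) := by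
      intro t
      have h2 : ((ZMod.unitsMap h13 t : (ZMod 13)ˣ) : ZMod 13) =
          (((t : ZMod m).val : ℕ) : ZMod 13) := by
        change (ZMod.castHom h13 (ZMod 13)) (t : ZMod m) = _
        rw [ZMod.castHom_apply, ZMod.natCast_val]
      have h3 : c13 (rr (ZMod.unitsMap h13 t)) = c13 (rr t) := by
        refine c13_mod ?_
        rw [← ZMod.natCast_eq_natCast_iff]
        unfold rr
        rw [ZMod.natCast_zmod_val, h2]
      simp only []
      rw [unit_emb h13, sw_emb h13, h3, h2]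
      ring
    have hD : D13 m (emb m 13 c) = ((m / 13 : ℕ) : ℤ) *
        (((Finset.univ.filter fun t : (ZMod m)ˣ => ZMod.unitsMap h13 t = 1).card : ℤ) *
          ∑ s : (ZMod 13)ˣ, c13 (rr s) * sw ((s : ZMod 13) * c)) := by
      unfold D13
      rw [sum_congr rfl fun t _ => hterm t, ← mul_sum,
        sum_units h13 (fun s : (ZMod 13)ˣ => c13 (rr s) * sw ((s : ZMod 13) * c))]
    rcases p13_level c hc with h | h
    · left
      rw [hD, h]
    · right
      rw [hD, h]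
      ring

theorem D13_tate {m p : ℕ} [NeZero m] (hmp : m.Coprime p) (h13 : 13 ∣ m)
    (hp : p ^ 3 ≡ 1 [MOD 13]) {S : Multiset (ZMod m)} (h0 : (0 : ZMod m) ∉ S)
    (hT : TateN p S) : (S.map (D13 m)).sum = 0 := by
  obtain ⟨f, hf, _, hT⟩ := hT
  obtain ⟨u, hu⟩ : ∃ u : (ZMod m)ˣ, (u : ZMod m) = p :=
    ⟨ZMod.unitOfCoprime p hmp.symm, ZMod.coe_unitOfCoprime p hmp.symm⟩
  have hur : rr u ^ 3 ≡ 1 [MOD 13] := by
    have h1 : rr u ≡ p [MOD m] := by
      rw [← ZMod.natCast_eq_natCast_iff, rr, ZMod.natCast_zmod_val, hu]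
    exact ((h1.of_dvd h13).pow 3).trans hp
  have h2 : ∀ (i : ℕ) (x : ZMod m), D13 m ((p : ZMod m) ^ i * x) = D13 m x := by
    intro i x
    induction i with
    | zero => rw [pow_zero, one_mul]
    | succ i ih => rw [pow_succ', mul_assoc, ← hu, (tc_D13 h13).unit u hur, hu, ih]
  have h3 : (S.map fun x => ∑ i ∈ range f, D13 m ((p : ZMod m) ^ i * x)).sum =
      f * (S.map (D13 m)).sum := by
    rw [← Multiset.sum_map_mul_left]
    congr 1
    refine Multiset.map_congr rfl fun x _ => ?_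
    rw [sum_congr rfl fun i _ => h2 i x, sum_const, card_range, nsmul_eq_mul]
  have h4 : (S.map fun x => ∑ i ∈ range f, D13 m ((p : ZMod m) ^ i * x)).sum = 0 := by
    have h5 : ∀ x : ZMod m, ∑ i ∈ range f, D13 m ((p : ZMod m) ^ i * x) =
        ∑ t : (ZMod m)ˣ, c13 (rr t) *
          ∑ i ∈ range f, sw ((t : ZMod m) * ((p : ZMod m) ^ i * x)) := by
      intro x
      unfold D13
      rw [sum_comm]
      exact sum_congr rfl fun t _ => by rw [mul_sum]
    rw [Multiset.map_congr rfl fun x _ => h5 x, TFt_comm]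
    refine sum_eq_zero fun t _ => ?_
    rw [Multiset.sum_map_mul_left, TFt_sw u hu h0 t (hT t), mul_zero]
  rw [h3] at h4
  rcases mul_eq_zero.1 h4 with h5 | h5
  · exact absurd (Int.natCast_eq_zero.1 h5) (by omega)
  · exact h5

theorem n13_even {m p : ℕ} [NeZero m] (hmp : m.Coprime p) (h4 : ¬ 4 ∣ m)
    (hpf : m.primeFactors ⊆ {2, 3, 13}) (hp : p ^ 3 ≡ 1 [MOD 13]) {S : Multiset (ZMod m)}
    (h0 : (0 : ZMod m) ∉ S) (hT : TateN p S) : Even (nV S {13}) := by
  classical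
  by_cases h13 : 13 ∣ m
  · obtain ⟨C, hC, hbase⟩ := D13_base h13
    exact tc_par h13 (tc_D13 h13) hC hbase h4 hpf (D13_tate hmp h13 hp h0 hT)
  · have h1 : nV S {13} = 0 := by
      unfold nV
      rw [Multiset.card_eq_zero, Multiset.filter_eq_nil]
      rintro x - ⟨-, h2⟩
      have h3 : 13 ∈ (addOrderOf x).primeFactors := by
        rw [h2]
        exact mem_singleton_self _
      exact h13 ((Nat.dvd_of_mem_primeFactors h3).trans (tfa_ord x).1)
    rw [h1]
    exact Even.zero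

end Pool.Agent.FT
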