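import Pool.Agent.FT.Lim
import Pool.Agent.FT.Odd

/-!
# FT-PreBeta: the Tate characters modulo two

An auxiliary prime `k = - t` (with the tower at two if `p` is odd) gives an odd distribution `β` with
`2 β = 0` which has the same sums over Tate characters as the function `f` of the limit.
-/

set_option autoImplicit false

namespace Pool.Agent.FT

open Finset
open Pool.Agent.Helper9.Fermat (fib mem_fib)
open Pool.Agent.FS (IsHodge emb)

theorem hodge_Yp_mul {p m : ℕ} [NeZero m] {S : Multiset (ZMod m)} (hT : TateN p S) (f : ℕ)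
    (hf : (p : ZMod m) ^ f = 1) : IsHodge (Yp p f S) := by
  have h0 := (hodge_Yp_iff p (orderOf (p : ZMod m)) S).1 (hodge_of_tate hT)
  obtain ⟨k, hk⟩ := orderOf_dvd_of_pow_eq_one hf
  rw [hodge_Yp_iff]
  intro t
  have h1 : ∀ x : ZMod m, ∑ i ∈ range f, ((p : ZMod m) ^ i * ((t : ZMod m) * x)).val =
      k * ∑ i ∈ range (orderOf (p : ZMod m)), ((p : ZMod m) ^ i * ((t : ZMod m) * x)).val := by
    intro x
    rw [hk]
    refine sum_period _ _ (fun i => ?_) k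
    rw [pow_add, pow_orderOf_eq_one, one_mul]
  rw [Multiset.map_congr rfl fun x _ => h1 x, Multiset.sum_map_mul_left]
  have h2 := h0 t
  calc _ = k * (2 * (S.map fun x => ∑ i ∈ range (orderOf (p : ZMod m)),
      ((p : ZMod m) ^ i * ((t : ZMod m) * x)).val).sum) := by ring
    _ = k * (m * orderOf (p : ZMod m) * S.card) := by rw [h2]
    _ = m * (orderOf (p : ZMod m) * k) * S.card := by ring
    _ = _ := by rw [← hk]

theorem exists_k2 (l p : ℕ) (hl : l.Prime) (hp : p.Prime) (e v m' f₀ f₁ E : ℕ) [NeZero m']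
    (hlm : l.Coprime m') (hf : f₀ = l ^ e * f₁) (hf₁ : l.Coprime f₁) (B : ℕ) :
    ∃ k : ℕ, k.Prime ∧ B < k ∧ (k : ZMod (l ^ v)) = 1 ∧ (k : ZMod m') = -1 ∧
      l ^ E ∣ orderOf ((p : ZMod k) ^ f₀) := by
  obtain ⟨k, hk, hBk, h1, ⟨i, hi⟩, ⟨i', hi'⟩, h2⟩ :=
    exists_aux l p hl hp (v + e + E) m' hlm (-1) B
  refine ⟨k, hk, hBk, ?_, ?_, ?_⟩
  · have h3 : l ^ v ∣ l ^ (v + e + E) := pow_dvd_pow l (by omega)
    have h4 := congrArg (ZMod.castHom h3 (ZMod (l ^ v))) h1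
    rw [map_natCast, map_one] at h4
    exact h4
  · rcases Nat.even_or_odd i with he | ho
    · rw [Units.val_neg, Units.val_one, he.neg_one_pow] at hi
      rw [hi, one_pow] at hi'
      rw [Units.val_neg, Units.val_one] at hi'
      rw [hi]
      exact hi'
    · rw [Units.val_neg, Units.val_one, ho.neg_one_pow] at hi
      exact hi
  · set n := orderOf ((p : ZMod k) ^ f₀) with hn
    have h3 : orderOf (p : ZMod k) ∣ f₀ * n := by
      rw [orderOf_dvd_iff_pow_eq_one, pow_mul, hn, pow_orderOf_eq_one]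
    have h4 : l ^ (e + E) ∣ l ^ e * (f₁ * n) := by
      rw [← mul_assoc, ← hf]
      exact ((pow_dvd_pow l (by omega)).trans h2).trans h3
    have h5 : l ^ E ∣ f₁ * n := by
      rw [pow_add] at h4
      exact Nat.dvd_of_mul_dvd_mul_left (pow_pos hl.pos e) h4
    exact (hf₁.pow_left E).dvd_of_dvd_mul_left h5

private theorem preBeta_core [Flag] {p : ℕ} (hp : p.Prime) {B : Type} [AddCommGroup B]
    {f : ∀ m : ℕ, ZMod m → B} (hL : Lim p f) {m n n₁ : ℕ} [NeZero m] [NeZero n] [NeZero n₁]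
    (hmn : m ∣ n) (hnn : n ∣ n₁) (hnp : n₁.Coprime p)
    (F0 e f₁ j c' : ℕ) (hF0 : 0 < F0) (hFe : F0 = 2 ^ e * f₁) (hf₁ : Nat.Coprime 2 f₁)
    (hpm : (p : ZMod m) ^ F0 = 1)
    (hj : ∀ F : ZMod m → B, ODist m F → ∀ Y : Multiset (ZMod m), (0 : ZMod m) ∉ Y →
      IsHodge Y → 2 ^ j • (Y.map F).sum = 0)
    (F F₂ : ZMod n₁ → B) (hF1 : ∀ x, F (-x) = - F x)
    (hF2 : ∀ r : ℕ, r.Prime → r ∣ n₁ → ∀ y : ZMod n₁,
        ∑ z ∈ fib n₁ r ((r : ZMod n₁) * y), F z = F ((r : ZMod n₁) * y))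
    (hF3 : ∀ x, F ((p : ZMod n₁) * x) = F x) (hF₂ : ODist n₁ F₂)
    (hF₂p : ∀ x, F₂ ((p : ZMod n₁) * x) = F₂ x)
    (key : ∀ x, (2 : ℕ) • f n₁ x + (2 ^ (j + 1 + e + 1) * c') • F x =
      2 ^ (j + 1 + e + 1) • F₂ x) :
    ∃ β : ZMod n → B, ODist n β ∧ (∀ x, 2 • β x = 0) ∧ (∀ x, β ((p : ZMod n) * x) = β x) ∧
      ∀ S : Multiset (ZMod m), (0 : ZMod m) ∉ S → Even S.card → S.sum = 0 → TateN p S →
        (S.map (f m)).sum = (S.map fun x => β (emb n m x)).sum := by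
  have hmn1 : m ∣ n₁ := hmn.trans hnn
  have hmp : m.Coprime p := Nat.Coprime.coprime_dvd_left hmn1 hnp
  have hfD := hL.dist n₁ hnp
  have h2F0 : (2 : ℕ) • F 0 = 0 := by
    have h2 := hF1 0
    rw [neg_zero] at h2
    rw [two_nsmul]
    nth_rewrite 1 [h2]
    rw [neg_add_cancel]
  have hC0 : (2 ^ (j + 1 + e) * c') • F 0 = 0 := by
    have h1 : 2 ^ (j + 1 + e) * c' = (2 ^ (j + e) * c') * 2 := by ring
    rw [h1, mul_smul, h2F0, smul_zero]
  have hD1 : ODist n₁ fun x => f n₁ x + (2 ^ (j + 1 + e) * c') • F x - 2 ^ (j + 1 + e) • F₂ x := by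
    refine ⟨?_, ?_, ?_⟩
    · rw [hfD.zero, hC0, hF₂.zero, smul_zero, add_zero, sub_zero]
    · intro x
      rw [hfD.odd, hF1, hF₂.odd, smul_neg, smul_neg]
      abel
    · intro r hr hrm y
      rw [sum_sub_distrib, sum_add_distrib, ← smul_sum, ← smul_sum, hfD.dist r hr hrm y,
        hF2 r hr hrm y, hF₂.dist r hr hrm y]
  have hF2D : ODist n₁ fun x => (2 : ℕ) • F x := by
    refine ⟨h2F0, ?_, ?_⟩
    · intro x
      rw [hF1, smul_neg]
    · intro r hr hrm y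
      rw [← smul_sum, hF2 r hr hrm y]
  have h2β : ∀ x : ZMod n₁, (2 : ℕ) •
      (f n₁ x + (2 ^ (j + 1 + e) * c') • F x - 2 ^ (j + 1 + e) • F₂ x) = 0 := by
    intro x
    rw [smul_sub, smul_add, ← mul_smul, ← mul_smul]
    have h1 : 2 * (2 ^ (j + 1 + e) * c') = 2 ^ (j + 1 + e + 1) * c' := by ring
    have h2 : 2 * 2 ^ (j + 1 + e) = 2 ^ (j + 1 + e + 1) := by ring
    rw [h1, h2, key x, sub_self]
  refine ⟨fun x => f n₁ (emb n₁ n x) + (2 ^ (j + 1 + e) * c') • F (emb n₁ n x) -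
    2 ^ (j + 1 + e) • F₂ (emb n₁ n x), hD1.restr hnn, fun x => h2β _, ?_, ?_⟩
  · intro x
    change f n₁ (emb n₁ n ((p : ZMod n) * x)) +
      (2 ^ (j + 1 + e) * c') • F (emb n₁ n ((p : ZMod n) * x)) -
      2 ^ (j + 1 + e) • F₂ (emb n₁ n ((p : ZMod n) * x)) = _
    rw [emb_mul hnn, hL.inv n₁ hnp, hF3, hF₂p]
  · intro S h0 hc hs hT
    have hY := hodge_Yp_mul hT F0 hpm
    have hup : IsUnit (p : ZMod m) := by
      rw [ZMod.isUnit_iff_coprime]
      exact hmp.symm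
    have h0Y : (0 : ZMod m) ∉ Yp p F0 S := zero_notMem_Yp hup F0 h0
    have hA1 := hj _ (hF2D.restr hmn1) _ h0Y hY
    have hB1 := hj _ (hF₂.restr hmn1) _ h0Y hY
    rw [sum_Yp_inv (F := fun x => (2 : ℕ) • F (emb n₁ m x))
      (fun x => by rw [emb_mul hmn1, hF3]) F0 S, Multiset.sum_map_nsmul] at hA1
    rw [sum_Yp_inv (F := fun x => F₂ (emb n₁ m x))
      (fun x => by rw [emb_mul hmn1, hF₂p]) F0 S] at hB1
    obtain ⟨i, hi⟩ := inf_pow_two h0 hc hs hp hmp F0 hF0 hpm hY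
    have ha := hL.inf hmp hi
    have hβ : (S.map fun x => (f n₁ (emb n₁ n (emb n m x)) +
        (2 ^ (j + 1 + e) * c') • F (emb n₁ n (emb n m x)) -
        2 ^ (j + 1 + e) • F₂ (emb n₁ n (emb n m x)))).sum =
        (S.map (f m)).sum + (2 ^ (j + 1 + e) * c') • (S.map fun x => F (emb n₁ m x)).sum -
        2 ^ (j + 1 + e) • (S.map fun x => F₂ (emb n₁ m x)).sum := by
      rw [← Multiset.sum_map_nsmul, ← Multiset.sum_map_nsmul, ← Multiset.sum_map_add,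
        ← Multiset.sum_map_sub]
      refine congrArg Multiset.sum (Multiset.map_congr rfl fun x _ => ?_)
      rw [emb_emb hmn hnn, hL.up m n₁ hmn1 hnp]
    have h2s : (2 : ℕ) • (S.map fun x => (f n₁ (emb n₁ n (emb n m x)) +
        (2 ^ (j + 1 + e) * c') • F (emb n₁ n (emb n m x)) -
        2 ^ (j + 1 + e) • F₂ (emb n₁ n (emb n m x)))).sum = 0 := by
      rw [← Multiset.sum_map_nsmul]
      refine Multiset.sum_eq_zero fun y hy => ?_
      obtain ⟨x, -, rfl⟩ := Multiset.mem_map.1 hy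
      exact h2β _
    rw [hβ] at h2s ⊢
    generalize (S.map (f m)).sum = a at ha h2s ⊢
    generalize (S.map fun x => F (emb n₁ m x)).sum = b at hA1 h2s ⊢
    generalize (S.map fun x => F₂ (emb n₁ m x)).sum = d at hB1 h2s ⊢
    obtain ⟨D, hD⟩ : ∃ D, D = (2 ^ (j + 1 + e) * c') • b - 2 ^ (j + 1 + e) • d := ⟨_, rfl⟩
    have h3 : a + (2 ^ (j + 1 + e) * c') • b - 2 ^ (j + 1 + e) • d = a + D := by
      rw [hD, add_sub_assoc]
    rw [h3] at h2s ⊢
    have hf1D : f₁ • D = 0 := by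
      rw [hD, smul_sub]
      have h4 : f₁ • ((2 ^ (j + 1 + e) * c') • b) = c' • (2 ^ j • (F0 • ((2 : ℕ) • b))) := by
        rw [← mul_smul, ← mul_smul, ← mul_smul, ← mul_smul, hFe]
        congr 1
        ring
      have h5 : f₁ • (2 ^ (j + 1 + e) • d) = (2 : ℕ) • (2 ^ j • (F0 • d)) := by
        rw [← mul_smul, ← mul_smul, ← mul_smul, hFe]
        congr 1
        ring
      rw [h4, h5, hA1, hB1, smul_zero, smul_zero, sub_zero]
    have h2D : 2 ^ (i + 1) • D = 0 := by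
      have h4 : D = (a + D) - a := by rw [add_sub_cancel_left]
      have h5 : 2 ^ (i + 1) • (a + D) = 2 ^ i • ((2 : ℕ) • (a + D)) := by
        rw [← mul_smul, pow_succ]
      have h6 : 2 ^ (i + 1) • a = (2 : ℕ) • (2 ^ i • a) := by
        rw [← mul_smul, pow_succ, mul_comm]
      rw [h4, smul_sub, h5, h2s, h6, ha, smul_zero, smul_zero, sub_zero]
    have hD0 : D = 0 := by
      rw [← addOrderOf_dvd_iff_nsmul_eq_zero] at hf1D h2D
      have h4 : Nat.Coprime (2 ^ (i + 1)) f₁ := hf₁.pow_left _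
      have h5 : addOrderOf D ∣ 1 := by
        rw [← h4.gcd_eq_one]
        exact Nat.dvd_gcd h2D hf1D
      exact AddMonoid.addOrderOf_eq_one_iff.1 (Nat.dvd_one.1 h5)
    rw [hD0, add_zero]

theorem pre_beta [Flag] {p : ℕ} (hp : p.Prime) {B : Type} [AddCommGroup B] {f : ∀ m : ℕ, ZMod m → B}
    (hL : Lim p f) {m n : ℕ} [NeZero m] [NeZero n] (hmn : m ∣ n) (hnp : n.Coprime p) :
    ∃ β : ZMod n → B, ODist n β ∧ (∀ x, 2 • β x = 0) ∧ (∀ x, β ((p : ZMod n) * x) = β x) ∧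
      ∀ S : Multiset (ZMod m), (0 : ZMod m) ∉ S → Even S.card → S.sum = 0 → TateN p S →
        (S.map (f m)).sum = (S.map fun x => β (emb n m x)).sum := by
  obtain ⟨j, hj⟩ := univ m
  have hn0 : n ≠ 0 := NeZero.ne n
  have ho : 0 < orderOf (p : ZMod n) := by
    rw [← ZMod.coe_unitOfCoprime p hnp.symm, orderOf_units]
    exact orderOf_pos _
  obtain ⟨F0, hF0⟩ : ∃ F0, F0 = 2 * orderOf (p : ZMod n) := ⟨_, rfl⟩
  have hF0p : 0 < F0 := by omega
  have hpn : (p : ZMod n) ^ F0 = 1 := by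
    rw [hF0, mul_comm, pow_mul, pow_orderOf_eq_one, one_pow]
  have hP : p ^ F0 - 1 ≠ 0 := by
    have h1 : 1 < p ^ F0 := Nat.one_lt_pow hF0p.ne' hp.one_lt
    omega
  have cast_dvd : ∀ d : ℕ, (p : ZMod d) ^ F0 = 1 ↔ d ∣ p ^ F0 - 1 := by
    intro d
    rw [← ZMod.natCast_eq_zero_iff, Nat.cast_sub (pow_pos hp.pos _), Nat.cast_pow, Nat.cast_one,
      sub_eq_zero]
  have hpm : (p : ZMod m) ^ F0 = 1 := (cast_dvd m).2 (hmn.trans ((cast_dvd n).1 hpn))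
  obtain ⟨e, f₁, hf₁, hFe⟩ : ∃ e f₁ : ℕ, Nat.Coprime 2 f₁ ∧ F0 = 2 ^ e * f₁ :=
    ⟨F0.factorization 2, ordCompl[2] F0, Nat.coprime_ordCompl Nat.prime_two hF0p.ne',
      (Nat.ordProj_mul_ordCompl_eq_self F0 2).symm⟩
  by_cases hp2 : p = 2
  · -- `p = 2`
    have hlm : Nat.Coprime 2 n := by
      rw [← hp2]
      exact hnp.symm
    obtain ⟨k, hk, hBk, -, h2, ⟨c', h3⟩⟩ := exists_k2 2 p Nat.prime_two hp e 0 n F0 f₁
      (j + 1 + e + 1) hlm hFe hf₁ (n + p)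
    have hk0 : k ≠ 0 := hk.ne_zero
    have hnk : NeZero (n * k) := ⟨mul_ne_zero hn0 hk0⟩
    have hkp : k.Coprime p := by
      rw [Nat.coprime_primes hk hp]
      omega
    have hM : (n * k).Coprime p := Nat.Coprime.mul_left hnp hkp
    have hkm : ¬ k ∣ n := fun h => by
      have := Nat.le_of_dvd (Nat.pos_of_ne_zero hn0) h
      omega
    have hpk : IsUnit (p : ZMod (n * k)) := by
      rw [ZMod.isUnit_iff_coprime]
      exact hM.symm
    obtain ⟨F, hF1, hF2, hF3, hF4⟩ := step1 hk hkm hpk (f (n * k)) (hL.dist _ hM)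
      (hL.inv _ hM) F0 hpn
    have hd : n ∣ n * k := dvd_mul_right n k
    refine preBeta_core hp hL hmn dvd_rfl hnp F0 e f₁ j c' hF0p hFe hf₁ hpm (hj B) F
      (fun _ => 0) hF1 hF2 hF3 ⟨rfl, fun _ => neg_zero.symm, fun _ _ _ _ => sum_const_zero⟩
      (fun _ => rfl) fun x => ?_
    have h4 := hF4 x
    rw [hL.up n (n * k) hd hM, hL.up n (n * k) hd hM, h2, neg_one_mul, (hL.dist n hnp).odd,
      h3] at h4
    rw [smul_zero, two_nsmul, add_assoc, ← h4, add_neg_cancel]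
  · -- `p` is odd
    obtain ⟨v, hv⟩ : ∃ v, v = (p ^ F0 - 1).factorization 2 := ⟨_, rfl⟩
    have hv1 : 2 ^ v ∣ p ^ F0 - 1 := by rw [hv]; exact Nat.ordProj_dvd _ _
    have hv2 : ¬ 2 ^ (v + 1) ∣ p ^ F0 - 1 := by
      rw [hv]
      exact Nat.pow_succ_factorization_not_dvd hP Nat.prime_two
    have hpo : p % 2 = 1 := (hp.eq_two_or_odd).resolve_left hp2
    have h8 : 2 ^ 3 ∣ p ^ F0 - 1 := by
      have h1 : p ^ 2 % 8 = 1 := by
        have h2 : p % 8 = 1 ∨ p % 8 = 3 ∨ p % 8 = 5 ∨ p % 8 = 7 := by omega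
        rcases h2 with h | h | h | h <;> rw [Nat.pow_mod, h]
      have h2 : p ^ F0 % 8 = 1 := by
        rw [hF0, pow_mul, Nat.pow_mod, h1, one_pow]
        norm_num
      omega
    have hv0 : 3 ≤ v := by
      rw [hv]
      exact (Nat.Prime.pow_dvd_iff_le_factorization Nat.prime_two hP).1 h8
    have hcop : Nat.Coprime 2 (ordCompl[2] n) := Nat.coprime_ordCompl Nat.prime_two hn0
    have hnP : n ∣ p ^ F0 - 1 := (cast_dvd n).1 hpn
    have hle : n.factorization 2 ≤ v := by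
      rw [hv]
      exact (Nat.factorization_le_iff_dvd hn0 hP).2 hnP 2
    have hdv : n ∣ 2 ^ v * ordCompl[2] n := by
      conv_lhs => rw [← Nat.ordProj_mul_ordCompl_eq_self n 2]
      exact mul_dvd_mul (pow_dvd_pow 2 hle) dvd_rfl
    have hPd : 2 ^ v * ordCompl[2] n ∣ p ^ F0 - 1 :=
      Nat.Coprime.mul_dvd_of_dvd_of_dvd (hcop.pow_left v) hv1 ((Nat.ordCompl_dvd n 2).trans hnP)
    have h2p : Nat.Coprime 2 p := by
      rw [Nat.coprime_primes Nat.prime_two hp]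
      exact fun h => hp2 h.symm
    have hn₁p : (2 ^ v * ordCompl[2] n).Coprime p :=
      Nat.Coprime.mul_left (h2p.pow_left v)
        (Nat.Coprime.coprime_dvd_left (Nat.ordCompl_dvd n 2) hnp)
    have hn'0 : ordCompl[2] n ≠ 0 := (Nat.ordCompl_pos 2 hn0).ne'
    generalize ordCompl[2] n = n' at hcop hdv hPd hn₁p hn'0
    have hn'N : NeZero n' := ⟨hn'0⟩
    obtain ⟨n₁, hn₁⟩ : ∃ n₁, n₁ = 2 ^ v * n' := ⟨_, rfl⟩
    rw [← hn₁] at hdv hPd hn₁p
    have hn₁0 : n₁ ≠ 0 := by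
      rw [hn₁]
      exact mul_ne_zero (pow_pos (by norm_num) v).ne' hn'0
    have hn₁N : NeZero n₁ := ⟨hn₁0⟩
    obtain ⟨k, hk, hBk, h1, h2, ⟨c', h3⟩⟩ := exists_k2 2 p Nat.prime_two hp e v n' F0 f₁
      (j + 1 + e + 1) hcop hFe hf₁ (n₁ + p)
    have hk0 : k ≠ 0 := hk.ne_zero
    have hkp : k.Coprime p := by
      rw [Nat.coprime_primes hk hp]
      omega
    have hnk : NeZero (n₁ * k) := ⟨mul_ne_zero hn₁0 hk0⟩
    have hM : (n₁ * k).Coprime p := Nat.Coprime.mul_left hn₁p hkp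
    have hkm : ¬ k ∣ n₁ := fun h => by
      have := Nat.le_of_dvd (Nat.pos_of_ne_zero hn₁0) h
      omega
    have hpk : IsUnit (p : ZMod (n₁ * k)) := by
      rw [ZMod.isUnit_iff_coprime]
      exact hM.symm
    have hpn₁ : (p : ZMod n₁) ^ F0 = 1 := (cast_dvd n₁).2 hPd
    obtain ⟨F, hF1, hF2, hF3, hF4⟩ := step1 hk hkm hpk (f (n₁ * k)) (hL.dist _ hM)
      (hL.inv _ hM) F0 hpn₁
    have hd : n₁ ∣ n₁ * k := dvd_mul_right n₁ k
    have hn₂ : NeZero (n₁ * 2 ^ (j + 1 + e + 1)) :=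
      ⟨mul_ne_zero hn₁0 (pow_pos (by norm_num) _).ne'⟩
    have hM₂ : (n₁ * 2 ^ (j + 1 + e + 1)).Coprime p :=
      Nat.Coprime.mul_left hn₁p (h2p.pow_left _)
    obtain ⟨t, ht1, ht2⟩ : ∃ t : ℕ, (t : ZMod (2 ^ (v + (j + 1 + e + 1)))) = -1 ∧
        (t : ZMod n') = 1 := by
      obtain ⟨t, ht⟩ := Nat.chineseRemainder (hcop.pow_left (v + (j + 1 + e + 1)))
        (2 ^ (v + (j + 1 + e + 1)) - 1) 1
      refine ⟨t, ?_, ?_⟩
      · rw [(ZMod.natCast_eq_natCast_iff t _ _).2 ht.1, Nat.cast_sub Nat.one_le_two_pow,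
          ZMod.natCast_self, Nat.cast_one, zero_sub]
      · rw [(ZMod.natCast_eq_natCast_iff t _ _).2 ht.2, Nat.cast_one]
    obtain ⟨F₂, hF₂, hF₂p, hF₂e⟩ := tower Nat.prime_two (by omega : 0 < v) (fun _ => by omega)
      hn₁ hcop (p := p) (f (n₁ * 2 ^ (j + 1 + e + 1))) (hL.dist _ hM₂) (hL.inv _ hM₂) F0 hpn₁
      hv2 t ht1 ht2
    have hd₂ : n₁ ∣ n₁ * 2 ^ (j + 1 + e + 1) := dvd_mul_right _ _
    have hkt : (k : ZMod n₁) = -(t : ZMod n₁) := by
      rw [eq_neg_iff_add_eq_zero, ← Nat.cast_add, ZMod.natCast_eq_zero_iff, hn₁]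
      refine Nat.Coprime.mul_dvd_of_dvd_of_dvd (hcop.pow_left v) ?_ ?_
      · rw [← ZMod.natCast_eq_zero_iff, Nat.cast_add, h1]
        have h4 : 2 ^ v ∣ 2 ^ (v + (j + 1 + e + 1)) := pow_dvd_pow 2 (by omega)
        have h5 := congrArg (ZMod.castHom h4 (ZMod (2 ^ v))) ht1
        rw [map_natCast, map_neg, map_one] at h5
        rw [h5, add_neg_cancel]
      · rw [← ZMod.natCast_eq_zero_iff, Nat.cast_add, h2, ht2, neg_add_cancel]
    refine preBeta_core hp hL hmn hdv hn₁p F0 e f₁ j c' hF0p hFe hf₁ hpm (hj B) F F₂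
      hF1 hF2 hF3 hF₂ hF₂p fun x => ?_
    have h4 := hF4 x
    rw [hL.up n₁ (n₁ * k) hd hM, hL.up n₁ (n₁ * k) hd hM, hkt, neg_mul, (hL.dist n₁ hn₁p).odd,
      h3] at h4
    have h5 := hF₂e x
    rw [← emb_mul hd₂, hL.up n₁ _ hd₂ hM₂, hL.up n₁ _ hd₂ hM₂] at h5
    have h6 : (2 : ℕ) • f n₁ x + (2 ^ (j + 1 + e + 1) * c') • F x =
        f n₁ x + (f n₁ x + (2 ^ (j + 1 + e + 1) * c') • F x) := by
      rw [two_nsmul, add_assoc]
    rw [h6, ← h4]
    nth_rewrite 1 [h5]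
    abel

end Pool.Agent.FT
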