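import Pool.Agent.FQ.KillPP

/-!
# FT-QSc: the number of elements of the quadratic sets

`2 ^ |N|` times the number of elements of the quadratic set of `N` is `φ (nR m N)`, which is
`2 ^ |N|` times an odd number.
-/

set_option autoImplicit false

namespace Pool.Agent.FT

open Finset
open Pool.Agent.FS (IsHodge emb sw rr hb)
open Pool.Agent.FQ (chiT QS nR PPr)

private theorem QSc_hb {l : ℕ} : l ∣ hb l := by
  unfold hb
  split_ifs with h
  · rw [h]; norm_num
  · exact dvd_rfl

/-- the sum of a nontrivial quadratic character over the units is zero -/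
private theorem QSc_sum {m : ℕ} [NeZero m] {T : Finset ℕ} (hT : ∀ l ∈ T, PPr l ∧ hb l ∣ m)
    (hne : T.Nonempty) : ∑ u : (ZMod m)ˣ, chiT T (rr u) = 0 := by
  obtain ⟨l, hl⟩ := hne
  have hlp : l.Prime := (hT l hl).1.1
  have hq3 : 3 ≤ Pool.Agent.FS.qq m l := Pool.Agent.FS.qq_ge hlp (hT l hl).2
  have hq : hb l ∣ Pool.Agent.FS.qq m l := Pool.Agent.FS.hb_dvd_qq' hq3
  obtain ⟨w, hw1, hw2⟩ := Pool.Agent.FS.exists_unit_crt (Pool.Agent.FS.RNorm_qq_mul (m := m) l).symm
    (Pool.Agent.FS.RNorm_qq_coprime (m := m) hlp) (Pool.Agent.FS.qq m l - 1) 1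
    (by
      rw [Nat.coprime_comm]
      exact (Nat.coprime_self_sub_right (by omega)).2 (Nat.coprime_one_right _))
    (Nat.coprime_one_left _)
  have hTm : ∀ a ∈ T, hb a ∣ m := fun a ha => (hT a ha).2
  have h1 : chiT T (rr w) = -1 := by
    unfold chiT
    rw [← mul_prod_erase T _ hl]
    have e1 : Pool.Agent.FQ.chi l (rr w) = -1 := by
      have h2 : 1 + rr w ≡ 0 [MOD hb l] := by
        refine Nat.ModEq.of_dvd hq ?_
        have h3 : 1 + rr w ≡ 1 + (Pool.Agent.FS.qq m l - 1) [MOD Pool.Agent.FS.qq m l] :=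
          Nat.ModEq.add_left 1 hw1
        refine h3.trans ?_
        rw [Nat.add_sub_cancel' (by omega)]
        exact (Nat.modEq_zero_iff_dvd).2 dvd_rfl
      rw [Pool.Agent.FQ.chi_neg (hT l hl).1 h2, Pool.Agent.FQ.chi_one]
    have e2 : ∏ x ∈ T.erase l, Pool.Agent.FQ.chi x (rr w) = 1 := by
      refine prod_eq_one fun a ha => ?_
      have hne : a ≠ l := (mem_erase.1 ha).1
      have haT := mem_of_mem_erase ha
      have h3 : (hb a).Coprime (ordProj[l] m) := by
        refine Nat.Coprime.pow_right _ ?_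
        unfold hb
        split_ifs with h
        · subst h
          have h4 := (Nat.coprime_primes (hT 2 haT).1.1 hlp).2 hne
          exact Nat.Coprime.pow_left 2 h4
        · exact (Nat.coprime_primes (hT a haT).1.1 hlp).2 hne
      have h4 : hb a ∣ ordCompl[l] m := by
        refine h3.dvd_of_dvd_mul_left ?_
        rw [Nat.ordProj_mul_ordCompl_eq_self]
        exact hTm a haT
      rw [Pool.Agent.FQ.chi_mod (hw2.of_dvd h4), Pool.Agent.FQ.chi_one]
    rw [e1, e2]
    norm_num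
  have h2 : ∑ u : (ZMod m)ˣ, chiT T (rr u) = - ∑ u : (ZMod m)ˣ, chiT T (rr u) := by
    conv_lhs => rw [← Equiv.sum_comp (Equiv.mulRight w)]
    rw [← sum_neg_distrib]
    refine sum_congr rfl fun u _ => ?_
    rw [Equiv.coe_mulRight, Pool.Agent.FQ.chiT_rr_mul hTm, h1, mul_neg_one]
  omega

private theorem QSc_count {m : ℕ} [NeZero m] {N : Finset ℕ} (hN : ∀ l ∈ N, PPr l ∧ hb l ∣ m) :
    (2 : ℤ) ^ N.card * (univ.filter fun u : (ZMod m)ˣ =>
      ∀ l ∈ N, Pool.Agent.FQ.chi l (rr u) = 1).card = m.totient := by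
  have h1 : (2 : ℤ) ^ N.card * (univ.filter fun u : (ZMod m)ˣ =>
      ∀ l ∈ N, Pool.Agent.FQ.chi l (rr u) = 1).card =
      ∑ u : (ZMod m)ˣ, ∑ T ∈ N.powerset, chiT T (rr u) := by
    rw [sum_congr rfl fun u _ => (Pool.Agent.FQ.two_ind hN u).symm, ← mul_sum, ← sum_filter,
      sum_const, nsmul_eq_mul, mul_one]
  rw [h1, sum_comm, sum_eq_single_of_mem ∅ (empty_mem_powerset N)]
  · have h2 : ∀ u : (ZMod m)ˣ, chiT ∅ (rr u) = 1 := fun u => by
      unfold chiT
      exact prod_empty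
    rw [sum_congr rfl fun u _ => h2 u, sum_const, nsmul_eq_mul, mul_one, card_univ,
      ZMod.card_units_eq_totient]
  · intro T hT hne
    exact QSc_sum (fun l hl => hN l (mem_powerset.1 hT hl)) (nonempty_iff_ne_empty.2 hne)

private theorem QSc_card {m : ℕ} [NeZero m] {N : Finset ℕ} (hN : ∀ l ∈ N, PPr l ∧ hb l ∣ m) :
    (2 : ℤ) ^ N.card * (QS m N).card = Pool.Agent.FQ.Ph m N := by
  have h1 := Pool.Agent.FQ.AA_QS (fun _ : ZMod m => (1 : ℤ)) hN
  unfold Pool.Agent.FQ.AA at h1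
  rw [sum_const, sum_const, nsmul_eq_mul, nsmul_eq_mul, mul_one, mul_one] at h1
  have h2 := QSc_count hN
  have h3 : (m.totient : ℤ) ≠ 0 := by
    exact_mod_cast (Nat.totient_pos.2 (NeZero.pos m)).ne'
  refine mul_left_cancel₀ h3 ?_
  rw [mul_left_comm, ← h1, mul_left_comm, h2, mul_comm]

theorem odd_QS {m : ℕ} [NeZero m] {N : Finset ℕ} (hN : ∀ l ∈ N, PPr l ∧ hb l ∣ m)
    (h8 : 2 ∈ N → ¬ 8 ∣ m) : Odd (QS m N).card := by
  have h1 := QSc_card hN
  have h2 : ∀ l ∈ N, ∃ k : ℕ, Nat.card (Pool.Agent.FS.Kl m l) = 2 * (2 * k + 1) := by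
    intro l hl
    have hlp : l.Prime := (hN l hl).1.1
    have hlm : l ∣ m := QSc_hb.trans (hN l hl).2
    rw [Pool.Agent.FS.card_Kl l hlp hlm]
    have hf : 1 ≤ m.factorization l := hlp.factorization_pos_of_dvd (NeZero.ne m) hlm
    rcases (hN l hl).1.2 with h | h
    · subst h
      have h4 : m.factorization 2 = 2 := by
        refine le_antisymm ?_ ?_
        · by_contra hcon
          refine h8 hl ?_
          have : 2 ^ 3 ∣ m :=
            (Nat.prime_two.pow_dvd_iff_le_factorization (NeZero.ne m)).2 (by omega)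
          exact this
        · refine (Nat.prime_two.pow_dvd_iff_le_factorization (NeZero.ne m)).1 ?_
          have := (hN 2 hl).2
          unfold hb at this
          simpa using this
      refine ⟨0, ?_⟩
      unfold Pool.Agent.FS.qq
      rw [h4]
      norm_num
    · obtain ⟨a, ha⟩ : ∃ a, m.factorization l = a + 1 := ⟨m.factorization l - 1, by omega⟩
      have e1 : Pool.Agent.FS.qq m l / l = l ^ a := by
        unfold Pool.Agent.FS.qq
        rw [ha, pow_succ, Nat.mul_div_cancel _ hlp.pos]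
      rw [e1]
      have e2 : Odd (l ^ a) := Odd.pow (Nat.odd_iff.2 (by omega))
      obtain ⟨b, hb'⟩ : ∃ b, l - 1 = 2 * (2 * b + 1) := ⟨l / 4, by omega⟩
      obtain ⟨k, hk⟩ := e2.mul (odd_two_mul_add_one b)
      refine ⟨k, ?_⟩
      rw [hb', ← hk]
      ring
  have h3 : ∃ k : ℕ, Pool.Agent.FQ.Ph m N = 2 ^ N.card * (2 * k + 1) := by
    unfold Pool.Agent.FQ.Ph
    clear h1 h8 hN
    induction N using Finset.induction_on with
    | empty => exact ⟨0, by simp⟩
    | insert l N hl ih =>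
      obtain ⟨k, hk⟩ := ih fun a ha => h2 a (mem_insert_of_mem ha)
      obtain ⟨j, hj⟩ := h2 l (mem_insert_self _ _)
      rw [prod_insert hl, hk, hj, card_insert_of_notMem hl]
      refine ⟨2 * k * j + k + j, ?_⟩
      push_cast
      ring
  obtain ⟨k, hk⟩ := h3
  rw [hk] at h1
  have h4 : ((QS m N).card : ℤ) = 2 * k + 1 := mul_left_cancel₀ (by positivity) h1
  exact ⟨k, by exact_mod_cast h4⟩

end Pool.Agent.FT
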