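import Pool.Agent.FT.Rad
import Pool.Agent.FT.TF
import Pool.Agent.FT.HN
import Pool.Agent.FT.QSc
import Pool.Agent.FT.TFt

/-!
# FT-RE: two relations

`X1 m b`: the function `vl b` (see `Rad.lean`) vanishes on the Hodge characters of level `m`.
`b_even`: `b V = 0` for a nonempty set `V` with an even number of elements if `b` vanishes on the
proper subsets (evaluation on the Hodge character of `exists_HN` for `V`). `b_two`: the same for an
odd number of elements if `chiT V 2 = -1` (Hodge character of `exists_HN` for `insert 2 V` at the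
level `4 ∏ l`, parity from `tf_four`).
-/

set_option autoImplicit false

namespace Pool.Agent.FT

open Finset
open Pool.Agent.FS (IsHodge emb sw rr hb)
open Pool.Agent.FQ (chiT QS nR PPr)

/-- vanishing on the Hodge characters -/
def X1 (m : ℕ) {B : Type} [AddCommGroup B] (b : Finset ℕ → B) : Prop :=
  ∀ H : Multiset (ZMod m), (0 : ZMod m) ∉ H → Even H.card → IsHodge H → (H.map (vl b)).sum = 0

private theorem re_hN {m : ℕ} {V : Finset ℕ}
    (hV : ∀ l ∈ V, l.Prime ∧ l % 4 = 3 ∧ l ∣ m) : ∀ l ∈ V, PPr l ∧ hb l ∣ m := by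
  intro l hl
  obtain ⟨h1, h2, h3⟩ := hV l hl
  refine ⟨⟨h1, Or.inr h2⟩, ?_⟩
  have h4 : l ≠ 2 := by rintro rfl; omega
  unfold hb
  rw [if_neg h4]
  exact h3

private theorem re_pf {m : ℕ} [NeZero m] {T : Finset ℕ} (hT : ∀ l ∈ T, l.Prime ∧ l ∣ m) :
    (nR m T).primeFactors = T := by
  have hp : ∀ l ∈ T, l.Prime := fun l hl => (hT l hl).1
  ext l
  rw [Nat.mem_primeFactors]
  constructor
  · rintro ⟨h1, h2, _⟩
    exact FQ.mem_of_dvd_nR hp h1 h2
  · intro hl
    refine ⟨hp l hl, ?_, FQ.nR_ne hp⟩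
    refine dvd_trans ?_ (FQ.qq_dvd_nR hl)
    exact dvd_pow_self l ((hp l hl).factorization_pos_of_dvd (NeZero.ne m) (hT l hl).2).ne'

private theorem re_odd {m : ℕ} [NeZero m] {T : Finset ℕ} (hp : ∀ l ∈ T, l.Prime) (h2 : 2 ∉ T) :
    Odd (nR m T) := by
  rw [← Nat.not_even_iff_odd, even_iff_two_dvd]
  exact fun h => h2 (FQ.mem_of_dvd_nR hp Nat.prime_two h)

private theorem re_vl_odd {m : ℕ} [NeZero m] {B : Type} [AddCommGroup B] (b : Finset ℕ → B)
    {T : Finset ℕ} (hT : ∀ l ∈ T, l.Prime ∧ l ∣ m) (h2 : 2 ∉ T) {x : ZMod m}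
    (hx : addOrderOf x = nR m T) : vl b x = b T := by
  unfold vl
  rw [hx, if_pos (re_odd (fun l hl => (hT l hl).1) h2), re_pf hT]

private theorem re_vl_even {m : ℕ} {B : Type} [AddCommGroup B] (b : Finset ℕ → B)
    {x : ZMod m} (hx : 2 ∣ addOrderOf x) : vl b x = 0 := by
  unfold vl
  rw [if_neg]
  rw [Nat.not_odd_iff_even, even_iff_two_dvd]
  exact hx

private theorem re_odd_smul {B : Type} [AddCommGroup B] {c : B} (h2 : 2 • c = 0) {n : ℕ}
    (hn : Odd n) (h : n • c = 0) : c = 0 := by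
  obtain ⟨k, rfl⟩ := hn
  rw [add_smul, one_smul, mul_comm, mul_smul, h2, smul_zero, zero_add] at h
  exact h

private theorem re_sum {α : Type} {B : Type} [AddCommGroup B] (P : α → Prop)
    [DecidablePred P] (c : B)
    (S : Multiset α) : (S.map fun x => if P x then c else 0).sum = (S.filter P).card • c := by
  induction S using Multiset.induction_on with
  | empty => simp
  | cons x S ih =>
    rw [Multiset.map_cons, Multiset.sum_cons, ih]
    by_cases h : P x
    · rw [if_pos h, Multiset.filter_cons_of_pos _ h, Multiset.card_cons, add_smul, one_smul,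
        add_comm]
    · rw [if_neg h, Multiset.filter_cons_of_neg _ h, zero_add]

private theorem re_order {m M : ℕ} [NeZero m] [NeZero M] (h : m ∣ M) (x : ZMod m) :
    addOrderOf (emb M m x) = addOrderOf x :=
  addOrderOf_injective (AddMonoidHom.mk' (emb M m) (emb_add h)) (emb_inj h) x

theorem b_even {m : ℕ} [NeZero m] {B : Type} [AddCommGroup B] {b : Finset ℕ → B}
    (h2 : ∀ V, 2 • b V = 0) (hX : X1 m b) {V : Finset ℕ}
    (hV : ∀ l ∈ V, l.Prime ∧ l % 4 = 3 ∧ l ∣ m) (hne : V.Nonempty) (hev : Even V.card)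
    (hlow : ∀ V' ⊂ V, b V' = 0) : b V = 0 := by
  have hN := re_hN hV
  have hV2 : 2 ∉ V := fun h => by have := (hV 2 h).2.1; omega
  have hVd : ∀ l ∈ V, l.Prime ∧ l ∣ m := fun l hl => ⟨(hV l hl).1, (hV l hl).2.2⟩
  obtain ⟨H', h0, hc, hH, hor⟩ := exists_HN hN hne hev
  have h3 := hX _ h0 hc hH
  rw [Multiset.map_add, Multiset.sum_add] at h3
  have h4 : ((QS m V).val.map (vl b)).sum = (QS m V).card • b V := by
    change ∑ x ∈ QS m V, vl b x = _
    rw [sum_congr rfl fun x hx => re_vl_odd b hVd hV2 (order_QS hN hx), sum_const]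
  have h5 : (H'.map (vl b)).sum = 0 := by
    apply Multiset.sum_eq_zero
    intro y hy
    obtain ⟨x, hx, rfl⟩ := Multiset.mem_map.1 hy
    rcases hor x hx with h | ⟨T, hTV, _, h⟩
    · exact re_vl_even b (by rw [h])
    · rw [re_vl_odd b (fun l hl => hVd l (hTV.1 hl)) (fun h' => hV2 (hTV.1 h')) h]
      exact hlow T hTV
  rw [h4, h5, add_zero] at h3
  exact re_odd_smul (h2 V) (odd_QS hN fun h => absurd h hV2) h3

theorem b_two {m : ℕ} [NeZero m] (h4 : 4 ∣ m) {B : Type} [AddCommGroup B] {b : Finset ℕ → B}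
    (h2 : ∀ V, 2 • b V = 0) (hX : X1 m b) {V : Finset ℕ}
    (hV : ∀ l ∈ V, l.Prime ∧ l % 4 = 3 ∧ l ∣ m) (hodd : Odd V.card) (hχ : chiT V 2 = -1)
    (hlow : ∀ V' ⊂ V, b V' = 0) : b V = 0 := by
  classical
  have hV2 : 2 ∉ V := fun h => by have := (hV 2 h).2.1; omega
  have hVne : V.Nonempty := by
    rw [← card_pos]
    obtain ⟨k, hk⟩ := hodd
    omega
  have hDm : ∏ l ∈ V, l ∣ m :=
    Finset.prod_primes_dvd m (fun l hl => (hV l hl).1.prime) fun l hl => (hV l hl).2.2
  have hDodd : Odd (∏ l ∈ V, l) := by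
    rw [← Nat.not_even_iff_odd, even_iff_two_dvd]
    intro h
    rw [Prime.dvd_finsetProd_iff Nat.prime_two.prime] at h
    obtain ⟨l, hl, h'⟩ := h
    rw [Nat.prime_dvd_prime_iff_eq Nat.prime_two (hV l hl).1] at h'
    exact hV2 (h' ▸ hl)
  obtain ⟨D, hD⟩ : ∃ D, D = ∏ l ∈ V, l := ⟨_, rfl⟩
  rw [← hD] at hDm hDodd
  have hm4 : 4 * D ∣ m := by
    refine Nat.Coprime.mul_dvd_of_dvd_of_dvd ?_ h4 hDm
    have : (2 ^ 2).Coprime D := Nat.Coprime.pow_left 2 (Nat.coprime_two_left.2 hDodd)
    exact this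
  have hM0 : 4 * D ≠ 0 := by
    intro h
    rw [h] at hm4
    exact NeZero.ne m (Nat.eq_zero_of_zero_dvd hm4)
  obtain ⟨M, hM⟩ : ∃ M, M = 4 * D := ⟨_, rfl⟩
  rw [← hM] at hm4 hM0
  have : NeZero M := ⟨hM0⟩
  have hlD : ∀ l ∈ V, l ∣ D := fun l hl => by rw [hD]; exact dvd_prod_of_mem _ hl
  have hVM : ∀ l ∈ V, l.Prime ∧ l % 4 = 3 ∧ l ∣ M := fun l hl =>
    ⟨(hV l hl).1, (hV l hl).2.1, (hlD l hl).trans (by rw [hM]; exact dvd_mul_left _ _)⟩
  have hN : ∀ l ∈ insert 2 V, PPr l ∧ hb l ∣ M := by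
    intro l hl
    rw [mem_insert] at hl
    rcases hl with rfl | hl
    · refine ⟨⟨Nat.prime_two, Or.inl rfl⟩, ?_⟩
      unfold hb
      rw [if_pos rfl, hM]
      exact dvd_mul_right _ _
    · exact re_hN hVM l hl
  have hNd : ∀ l ∈ insert 2 V, l.Prime ∧ l ∣ M := by
    intro l hl
    rw [mem_insert] at hl
    rcases hl with rfl | hl
    · refine ⟨Nat.prime_two, ?_⟩
      rw [hM]
      exact (by norm_num : (2 : ℕ) ∣ 4).trans (dvd_mul_right _ _)
    · exact ⟨(hVM l hl).1, (hVM l hl).2.2⟩
  have hNcard : Even (insert 2 V).card := by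
    rw [card_insert_of_notMem hV2]
    exact hodd.add_one
  obtain ⟨H', h0, hc, hH, hor⟩ := exists_HN hN (insert_nonempty 2 V) hNcard
  -- the sum of the values
  have hs1 : ((QS M (insert 2 V)).val.map fun x => vl b x).sum + (H'.map fun x => vl b x).sum
      = 0 := by
    have h6 := hX (((QS M (insert 2 V)).val + H').map (emb m M)) ?_ ?_ (hodge_emb hm4 hH)
    · rw [Multiset.map_map] at h6
      have h7 : ((QS M (insert 2 V)).val + H').map (vl b ∘ emb m M) =
          ((QS M (insert 2 V)).val + H').map fun x => vl b x := by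
        refine Multiset.map_congr rfl fun x _ => ?_
        change vl b (emb m M x) = vl b x
        unfold vl
        rw [re_order hm4]
      rw [h7, Multiset.map_add, Multiset.sum_add] at h6
      exact h6
    · intro h7
      obtain ⟨x, hx, hx0⟩ := Multiset.mem_map.1 h7
      exact h0 (((emb_eq_zero_iff hm4).1 hx0) ▸ hx)
    · rw [Multiset.card_map]
      exact hc
  have h2N : 2 ∣ nR M (insert 2 V) := by
    have h7 := FQ.hb_dvd_nR hN (mem_insert_self 2 V)
    unfold hb at h7
    rw [if_pos rfl] at h7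
    exact (by norm_num : (2 : ℕ) ∣ 4).trans h7
  have hs2 : ((QS M (insert 2 V)).val.map fun x => vl b x).sum = 0 := by
    apply Multiset.sum_eq_zero
    intro y hy
    obtain ⟨x, hx, rfl⟩ := Multiset.mem_map.1 hy
    exact re_vl_even b (by rw [order_QS hN hx]; exact h2N)
  rw [hs2, zero_add] at hs1
  -- the parity
  have hVnot : ¬ V ⊆ (2 : ℕ).primeFactors := by
    intro h
    obtain ⟨l, hl⟩ := hVne
    have h7 := h hl
    rw [Nat.prime_two.primeFactors, mem_singleton] at h7
    exact hV2 (h7 ▸ hl)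
  have hTV : ∀ T ⊂ insert 2 V, V ⊆ T → T = V := by
    intro T hT hVT
    have h7 : 2 ∉ T := by
      intro h
      exact hT.2 (insert_subset h hVT)
    refine Subset.antisymm (fun l hl => ?_) hVT
    have h8 := hT.1 hl
    rw [mem_insert] at h8
    rcases h8 with rfl | h8
    · exact absurd hl h7
    · exact h8
  have hpfT : ∀ T ⊂ insert 2 V, (nR M T).primeFactors = T := fun T hT =>
    re_pf fun l hl => hNd l (hT.1 hl)
  have hpar : Even (((QS M (insert 2 V)).val + H').filter fun x =>
      V ⊆ (addOrderOf x).primeFactors).card := by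
    refine tf_four hM hDodd ?_ hVM hodd hχ (hodge_tw V h0 hH) ?_
    · rw [hD]
      exact Nat.primeFactors_prod fun l hl => (hV l hl).1
    · intro x hx hVx
      rw [Multiset.mem_add] at hx
      rcases hx with hx | hx
      · rw [order_QS hN hx]
        have h7 := FQ.hb_dvd_nR hN (mem_insert_self 2 V)
        unfold hb at h7
        rw [if_pos rfl] at h7
        omega
      · rcases hor x hx with h | ⟨T, hT, _, h⟩
        · rw [h] at hVx
          exact absurd hVx hVnot
        · rw [h, hpfT T hT] at hVx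
          rw [h, hTV T hT hVx]
          have h7 := re_odd (m := M) (fun l hl => (hV l hl).1) hV2
          obtain ⟨k, hk⟩ := h7
          omega
  rw [Multiset.filter_add, Multiset.card_add] at hpar
  have hQf : ((QS M (insert 2 V)).val.filter fun x => V ⊆ (addOrderOf x).primeFactors) =
      (QS M (insert 2 V)).val := by
    rw [Multiset.filter_eq_self]
    intro x hx
    rw [order_QS hN hx, re_pf hNd]
    exact subset_insert _ _
  rw [hQf] at hpar
  have hQodd : Odd (QS M (insert 2 V)).card := by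
    refine odd_QS hN fun _ h8 => ?_
    rw [hM] at h8
    obtain ⟨k, hk⟩ := hDodd
    omega
  have hodd' : Odd (H'.filter fun x => V ⊆ (addOrderOf x).primeFactors).card := by
    rcases Nat.even_or_odd (H'.filter fun x => V ⊆ (addOrderOf x).primeFactors).card with h | h
    · exact absurd hpar (Nat.not_even_iff_odd.2 (Odd.add_even hQodd h))
    · exact h
  have hval : (H'.map fun x => vl b x) =
      H'.map fun x => if V ⊆ (addOrderOf x).primeFactors then b V else 0 := by
    refine Multiset.map_congr rfl fun x hx => ?_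
    rcases hor x hx with h | ⟨T, hT, _, h⟩
    · rw [re_vl_even b (by rw [h]), h, if_neg hVnot]
    · rw [h, hpfT T hT]
      by_cases hVT : V ⊆ T
      · rw [if_pos hVT]
        have h7 := hTV T hT hVT
        rw [h7] at h
        exact re_vl_odd b (fun l hl => ⟨(hVM l hl).1, (hVM l hl).2.2⟩) hV2 h
      · rw [if_neg hVT]
        by_cases h2T : 2 ∈ T
        · refine re_vl_even b ?_
          rw [h]
          have h7 : 2 ∈ (nR M T).primeFactors := by rw [hpfT T hT]; exact h2T
          exact Nat.dvd_of_mem_primeFactors h7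
        · rw [re_vl_odd b (fun l hl => hNd l (hT.1 hl)) h2T h]
          refine hlow T ⟨fun l hl => ?_, hVT⟩
          have h8 := hT.1 hl
          rw [mem_insert] at h8
          rcases h8 with rfl | h8
          · exact absurd hl h2T
          · exact h8
  rw [hval, re_sum (fun x : ZMod M => V ⊆ (addOrderOf x).primeFactors)] at hs1
  exact re_odd_smul (h2 V) hodd' hs1

end Pool.Agent.FT
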