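import Pool.Agent.FT.UInv

/-!
# FT-Rad: dependence on the prime factors of the order

An odd distribution of odd level with values killed by two which is invariant under the units depends
only on the set of prime factors of the order. `vl b x` is the value at `x` of the function given by
`b`.
-/

set_option autoImplicit false

namespace Pool.Agent.FT

open Finset
open Pool.Agent.Helper9.Fermat (fib mem_fib)
open Pool.Agent.FS (IsHodge emb)

/-- the function on `ℤ/m` which vanishes on the elements of even order and depends on the set of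
prime factors of the order -/
noncomputable def vl {B : Type} [AddCommGroup B] (b : Finset ℕ → B) {m : ℕ} (x : ZMod m) : B :=
  if Odd (addOrderOf x) then b (addOrderOf x).primeFactors else 0

private theorem rad_same {n : ℕ} [NeZero n] {x y : ZMod n} (h : addOrderOf x = addOrderOf y) :
    ∃ u : (ZMod n)ˣ, y = (u : ZMod n) * x := by
  have hd0 : addOrderOf x ≠ 0 := by
    have h1 : addOrderOf x ∣ n := by
      apply addOrderOf_dvd_of_nsmul_eq_zero
      rw [nsmul_eq_mul, ZMod.natCast_self, zero_mul]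
    intro h0
    rw [h0] at h1
    exact NeZero.ne n (Nat.eq_zero_of_zero_dvd h1)
  obtain ⟨d, hd⟩ : ∃ d, d = addOrderOf x := ⟨_, rfl⟩
  have hdn : d ∣ n := by
    rw [hd]
    apply addOrderOf_dvd_of_nsmul_eq_zero
    rw [nsmul_eq_mul, ZMod.natCast_self, zero_mul]
  have : NeZero d := ⟨by rw [hd]; exact hd0⟩
  obtain ⟨w1, hw1⟩ := (Pool.Agent.FS.exists_emb hdn x).mp hd.symm
  obtain ⟨w2, hw2⟩ := (Pool.Agent.FS.exists_emb hdn y).mp (by rw [← h, ← hd])
  obtain ⟨u, hu⟩ := ZMod.unitsMap_surjective hdn (w2 * w1⁻¹)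
  refine ⟨u, ?_⟩
  rw [hw1, hw2, unit_emb hdn]
  congr 1
  have h2 := congrArg (fun z : (ZMod d)ˣ => (z : ZMod d)) hu
  simp only [ZMod.unitsMap_val] at h2
  rw [ZMod.natCast_val, h2, ← Units.val_mul, inv_mul_cancel_right]

private theorem rad_step {n : ℕ} [NeZero n] (hn : Odd n) {B : Type} [AddCommGroup B]
    {γ : ZMod n → B} (hγ : ODist n γ) (h2 : ∀ x, 2 • γ x = 0)
    (hu : ∀ (u : (ZMod n)ˣ) (x : ZMod n), γ ((u : ZMod n) * x) = γ x) {x : ZMod n} {r : ℕ}
    (hr : r.Prime) (hrd : r * r ∣ addOrderOf x) : γ ((r : ZMod n) * x) = γ x := by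
  have hdn : addOrderOf x ∣ n := by
    apply addOrderOf_dvd_of_nsmul_eq_zero
    rw [nsmul_eq_mul, ZMod.natCast_self, zero_mul]
  have hrn : r ∣ n := (Dvd.intro _ rfl : r ∣ r * r).trans (hrd.trans hdn)
  have h1 : ∀ z ∈ fib n r ((r : ZMod n) * x), γ z = γ x := by
    intro z hz
    rw [mem_fib] at hz
    have hv : r • (z - x) = 0 := by
      rw [nsmul_eq_mul, mul_sub, hz, sub_self]
    have hkey : ∀ k : ℕ, r ∣ k → k • z = k • x := by
      rintro k ⟨c, rfl⟩
      have h3 : (r * c) • (z - x) = 0 := by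
        rw [mul_comm, mul_nsmul', hv, smul_zero]
      rw [smul_sub, sub_eq_zero] at h3
      exact h3
    have hrx : r ∣ addOrderOf x := (Dvd.intro _ rfl : r ∣ r * r).trans hrd
    have ho : addOrderOf x = addOrderOf z := by
      apply Nat.dvd_antisymm
      · have h4 : (r * addOrderOf z) • x = 0 := by
          rw [← hkey _ (Dvd.intro _ rfl), mul_comm, mul_nsmul, addOrderOf_nsmul_eq_zero, smul_zero]
        have h5 := addOrderOf_dvd_of_nsmul_eq_zero h4
        have h6 : r ∣ addOrderOf z := Nat.dvd_of_mul_dvd_mul_left hr.pos (hrd.trans h5)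
        apply addOrderOf_dvd_of_nsmul_eq_zero
        rw [← hkey _ h6, addOrderOf_nsmul_eq_zero]
      · apply addOrderOf_dvd_of_nsmul_eq_zero
        rw [hkey _ hrx, addOrderOf_nsmul_eq_zero]
    obtain ⟨u, hux⟩ := rad_same ho
    rw [hux, hu]
  have h3 := hγ.dist r hr hrn x
  rw [sum_congr rfl h1, sum_const, Pool.Agent.Helper9.Fermat.fib_card hr.pos hrn] at h3
  rw [← h3]
  obtain ⟨k, hk⟩ := hn.of_dvd_nat hrn
  rw [hk, add_smul, one_smul, mul_comm, mul_smul, h2, smul_zero, zero_add]

theorem rad_of_uinv {n : ℕ} [NeZero n] (hn : Odd n) {B : Type} [AddCommGroup B] (γ : ZMod n → B)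
    (hγ : ODist n γ) (h2 : ∀ x, 2 • γ x = 0)
    (hu : ∀ (u : (ZMod n)ˣ) (x : ZMod n), γ ((u : ZMod n) * x) = γ x) :
    ∃ b : Finset ℕ → B, b ∅ = 0 ∧ (∀ V, 2 • b V = 0) ∧ ∀ x, γ x = b (addOrderOf x).primeFactors := by
  classical
  have hn0 : n ≠ 0 := NeZero.ne n
  refine ⟨fun V => if (∏ l ∈ V, l) ∣ n then γ ((n / ∏ l ∈ V, l : ℕ) : ZMod n) else 0, ?_, ?_, ?_⟩
  · simp only [prod_empty, Nat.div_one, ZMod.natCast_self, hγ.zero, ite_self]
  · intro V
    simp only
    split_ifs
    · exact h2 _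
    · exact smul_zero _
  · intro x
    obtain ⟨d, hd⟩ : ∃ d, d = addOrderOf x := ⟨_, rfl⟩
    induction d using Nat.strong_induction_on generalizing x with
    | _ d ih =>
      have hdn : d ∣ n := by
        rw [hd]
        apply addOrderOf_dvd_of_nsmul_eq_zero
        rw [nsmul_eq_mul, ZMod.natCast_self, zero_mul]
      have hd0 : 0 < d := Nat.pos_of_dvd_of_pos hdn (Nat.pos_of_ne_zero hn0)
      by_cases hsq : Squarefree d
      · simp only [← hd]
        rw [Nat.prod_primeFactors_of_squarefree hsq, if_pos hdn]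
        have h3 : addOrderOf x = addOrderOf ((n / d : ℕ) : ZMod n) := by
          rw [ZMod.addOrderOf_coe _ hn0, Nat.gcd_eq_right (Nat.div_dvd_of_dvd hdn),
            Nat.div_div_self hdn hn0, hd]
        obtain ⟨u, hux⟩ := rad_same h3
        rw [hux, hu]
      · rw [Nat.squarefree_iff_prime_squarefree] at hsq
        push Not at hsq
        obtain ⟨r, hr, hrd⟩ := hsq
        have h3 := rad_step hn hγ h2 hu hr (hd ▸ hrd)
        have hrd' : r ∣ d := (Dvd.intro _ rfl : r ∣ r * r).trans hrd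
        have h4 : addOrderOf ((r : ZMod n) * x) = d / r := by
          rw [← nsmul_eq_mul, addOrderOf_nsmul_of_dvd hr.ne_zero (hd ▸ hrd'), ← hd]
        have h5 : d / r < d := Nat.div_lt_self hd0 hr.one_lt
        have h6 := ih (d / r) h5 ((r : ZMod n) * x) h4.symm
        rw [← h3, h6]
        have h7 : (addOrderOf ((r : ZMod n) * x)).primeFactors = (addOrderOf x).primeFactors := by
          rw [h4, ← hd]
          obtain ⟨e, he⟩ := hrd
          have he0 : e ≠ 0 := by rintro rfl; omega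
          have h8 : d / r = r * e := by
            rw [he, mul_assoc, Nat.mul_div_cancel_left _ hr.pos]
          have h9 : (r * e).primeFactors = {r} ∪ e.primeFactors := by
            rw [Nat.primeFactors_mul hr.ne_zero he0, hr.primeFactors]
          rw [h8, he, mul_assoc, Nat.primeFactors_mul hr.ne_zero (mul_ne_zero hr.ne_zero he0),
            h9, hr.primeFactors, ← union_assoc, union_idempotent]
        simp only [h7]

theorem exists_rad [Flag] {p : ℕ} (hp : p.Prime) {B : Type} [AddCommGroup B] {f : ∀ m : ℕ, ZMod m → B}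
    (hL : Lim p f) {m : ℕ} [NeZero m] (hmp : m.Coprime p) :
    ∃ b : Finset ℕ → B, b ∅ = 0 ∧ (∀ V, 2 • b V = 0) ∧
      ∀ S : Multiset (ZMod m), (0 : ZMod m) ∉ S → Even S.card → S.sum = 0 → TateN p S →
        (S.map (f m)).sum = (S.map (vl b)).sum := by
  obtain ⟨γ, hγ, h2, hu, β, hβ0, hβ, hS⟩ := exists_uinv hp hL hmp
  have hm0 : m ≠ 0 := NeZero.ne m
  have hodd : Odd (ordCompl[2] m) := by
    rw [← Nat.not_even_iff_odd, even_iff_two_dvd]
    exact Nat.not_dvd_ordCompl Nat.prime_two hm0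
  have hdvd : ordCompl[2] m ∣ m := Nat.ordCompl_dvd m 2
  obtain ⟨b, hb0, hb2, hb⟩ := rad_of_uinv hodd γ hγ h2 hu
  refine ⟨b, hb0, hb2, fun S h0 hc hs hT => ?_⟩
  rw [hS S h0 hc hs hT]
  congr 1
  refine Multiset.map_congr rfl fun x _ => ?_
  unfold vl
  split_ifs with hx
  · have h3 : addOrderOf x ∣ m := by
      apply addOrderOf_dvd_of_nsmul_eq_zero
      rw [nsmul_eq_mul, ZMod.natCast_self, zero_mul]
    have h4 : addOrderOf x ∣ ordCompl[2] m := by
      have h5 : addOrderOf x ∣ ordProj[2] m * ordCompl[2] m := by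
        rwa [Nat.ordProj_mul_ordCompl_eq_self]
      refine Nat.Coprime.dvd_of_dvd_mul_left ?_ h5
      exact Nat.Coprime.pow_right _ (Nat.coprime_two_right.mpr hx)
    have h6 : ((ordCompl[2] m : ℕ) : ZMod m) * x = 0 := by
      rw [← nsmul_eq_mul]
      exact addOrderOf_dvd_iff_nsmul_eq_zero.mp h4
    obtain ⟨y, rfl⟩ := Pool.Agent.FT.exists_emb hdvd h6
    rw [hβ, hb]
    congr 2
    exact (addOrderOf_injective (AddMonoidHom.mk' (emb m (ordCompl[2] m))
      (emb_add hdvd)) (emb_inj hdvd) y).symm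
  · rw [Nat.not_odd_iff_even] at hx
    exact hβ0 x hx

end Pool.Agent.FT
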