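import Pool.Agent.FT.SqA

/-!
# FT-SqC: the relation between the quadratic sets of the subsets

`aa g R` is `2 ^ R.card` times an integral combination of the `AA g T`, `T ⊆ R`, with coefficients
`d T` which do not depend on `g`; the coefficients of `R` and of the sets `R.erase s` are given.
-/

set_option autoImplicit false

namespace Pool.Agent.FT.Sq

open Finset Pool.Agent.FS Pool.Agent.FQ
open Pool.Agent.FF

theorem sq_closure {m : ℕ} [NeZero m] (R : Finset ℕ) (hR : ∀ l ∈ R, l.Prime ∧ hb l ∣ m) :
    ∃ d : Finset ℕ → ℤ, d R = 1 ∧ (∀ T, ¬ T ⊆ R → d T = 0) ∧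
      (∀ s ∈ R, 2 * d (R.erase s) = -(1 - chiT (R.erase s) s)) ∧
      ∀ g : ZMod m → ℤ, IsDist g → aa g R = 2 ^ R.card * ∑ T ∈ R.powerset, d T * AA g T := by
  classical
  induction R using Finset.strongInduction with
  | H R ih =>
    -- the proper subsets
    have h1 : ∀ T ⊂ R, ∃ dd : Finset ℕ → ℤ, dd T = 1 ∧ (∀ T', ¬ T' ⊆ T → dd T' = 0) ∧
        ∀ g : ZMod m → ℤ, IsDist g →
          aa g T = 2 ^ T.card * ∑ T' ∈ T.powerset, dd T' * AA g T' := by
      intro T hT
      obtain ⟨dd, hd1, hd2, -, hd4⟩ := ih T hT fun l hl => hR l (hT.subset hl)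
      exact ⟨dd, hd1, hd2, hd4⟩
    have h2 : ∀ T ⊂ R, ∃ e : ℤ, ∏ l ∈ R \ T, (1 - chiT T l) = 2 ^ (R \ T).card * e := by
      intro T hT
      exact prod_two (T := T) (fun l hl => (hR l (hT.subset hl)).1) (R \ T)
        (fun l hl => (hR l (sdiff_subset hl)).1) disjoint_sdiff
    choose! dd hdd1 hdd2 hdd3 using h1
    choose! e he using h2
    refine ⟨fun T' => (if T' = R then 1 else 0) - ∑ T ∈ R.ssubsets, e T * dd T T', ?_, ?_, ?_, ?_⟩
    · show (if R = R then (1 : ℤ) else 0) - ∑ T ∈ R.ssubsets, e T * dd T R = 1
      rw [if_pos rfl, sum_eq_zero, sub_zero]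
      intro T hT
      rw [mem_ssubsets] at hT
      rw [hdd2 T hT R hT.2, mul_zero]
    · intro T' hT'
      show (if T' = R then (1 : ℤ) else 0) - ∑ T ∈ R.ssubsets, e T * dd T T' = 0
      have hne : T' ≠ R := by
        rintro rfl
        exact hT' (Subset.refl _)
      rw [if_neg hne, sum_eq_zero, sub_zero]
      intro T hT
      rw [mem_ssubsets] at hT
      rw [hdd2 T hT T' (fun h => hT' (h.trans hT.1)), mul_zero]
    · intro s hs
      show 2 * ((if R.erase s = R then (1 : ℤ) else 0) -
        ∑ T ∈ R.ssubsets, e T * dd T (R.erase s)) = -(1 - chiT (R.erase s) s)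
      have hss : R.erase s ⊂ R := erase_ssubset hs
      rw [if_neg hss.ne, zero_sub]
      have h3 : ∑ T ∈ R.ssubsets, e T * dd T (R.erase s) = e (R.erase s) := by
        rw [sum_eq_single (R.erase s)]
        · rw [hdd1 _ hss, mul_one]
        · intro T hT hne
          rw [mem_ssubsets] at hT
          rw [hdd2 T hT, mul_zero]
          intro hsub
          apply hne
          have hsT : s ∉ T := by
            intro hsT
            apply hT.2
            intro x hx
            by_cases hxs : x = s
            · rw [hxs]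
              exact hsT
            · exact hsub (mem_erase.2 ⟨hxs, hx⟩)
          refine Subset.antisymm (fun x hx => mem_erase.2 ⟨?_, hT.1 hx⟩) hsub
          rintro rfl
          exact hsT hx
        · intro h
          exact absurd (mem_ssubsets.2 hss) h
      have h4 : R \ R.erase s = {s} := by
        ext x
        rw [mem_sdiff, mem_erase, mem_singleton]
        constructor
        · rintro ⟨h5, h6⟩
          by_contra h7
          exact h6 ⟨h7, h5⟩
        · rintro rfl
          exact ⟨hs, fun h => h.1 rfl⟩
      have h5 := he _ hss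
      rw [h4, prod_singleton, card_singleton, pow_one] at h5
      rw [h3, h5]
      ring
    · intro g hg
      have h3 := AA_eq hg hR
      rw [← insert_erase (mem_powerset_self R), sum_insert (notMem_erase _ _)] at h3
      have h4 : (R.powerset.erase R) = R.ssubsets := rfl
      rw [h4, sdiff_self, bot_eq_empty, prod_empty, one_mul] at h3
      have h5 : ∑ T ∈ R.ssubsets, (∏ l ∈ R \ T, (1 - chiT T l)) * aa g T =
          (2 : ℤ) ^ R.card * ∑ T ∈ R.ssubsets, ∑ T' ∈ R.powerset, e T * dd T T' * AA g T' := by
        rw [mul_sum]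
        refine sum_congr rfl fun T hT => ?_
        rw [mem_ssubsets] at hT
        have h6 : ∑ T' ∈ T.powerset, dd T T' * AA g T' = ∑ T' ∈ R.powerset, dd T T' * AA g T' := by
          refine sum_subset (powerset_mono.2 hT.1) ?_
          intro T' _ hT'
          rw [mem_powerset] at hT'
          rw [hdd2 T hT T' hT', zero_mul]
        have h7 : R.card = (R \ T).card + T.card := by
          rw [card_sdiff_add_card_eq_card hT.subset]
        rw [he T hT, hdd3 T hT g hg, h6, h7, pow_add]
        have h8 : ∑ T' ∈ R.powerset, e T * dd T T' * AA g T' =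
            e T * ∑ T' ∈ R.powerset, dd T T' * AA g T' := by
          rw [mul_sum]
          exact sum_congr rfl fun T' _ => by ring
        rw [h8]
        ring
      rw [h5, sum_comm] at h3
      have h6 : ∑ T' ∈ R.powerset, ((if T' = R then (1 : ℤ) else 0) -
          ∑ T ∈ R.ssubsets, e T * dd T T') * AA g T' =
          AA g R - ∑ T' ∈ R.powerset, ∑ T ∈ R.ssubsets, e T * dd T T' * AA g T' := by
        simp only [sub_mul]
        rw [sum_sub_distrib]
        congr 1
        · simp only [ite_mul, one_mul, zero_mul]
          rw [sum_ite_eq' R.powerset R, if_pos (mem_powerset_self R)]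
        · exact sum_congr rfl fun T' _ => by rw [sum_mul]
      rw [h6]
      linarith

end Pool.Agent.FT.Sq
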