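import Pool.Agent.FT.SqA
import Pool.Agent.FT.QSc
import Pool.Agent.FT.HN
import Pool.Agent.FT.Rad

/-!
# FT-SqQ: properties of the quadratic sets

The order, the invariance under the squares and the parity of the quadratic sets.
-/

set_option autoImplicit false

namespace Pool.Agent.FT.Sq

open Finset Pool.Agent.FS Pool.Agent.FQ
open Pool.Agent.FF

variable {m : ℕ} [NeZero m]

theorem qs_order {R : Finset ℕ} (hR : ∀ l ∈ R, l.Prime) {x : ZMod m} (hx : x ∈ QS m R) :
    addOrderOf x = nR m R := by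
  obtain ⟨u, _, rfl⟩ := mem_image.1 hx
  exact FQ.order_bR hR u

theorem qs_zero {R : Finset ℕ} (hR : ∀ l ∈ R, l.Prime ∧ l ∣ m) (hne : R.Nonempty) :
    (0 : ZMod m) ∉ QS m R := by
  intro h
  have h1 := qs_order (fun l hl => (hR l hl).1) h
  rw [addOrderOf_zero] at h1
  obtain ⟨l, hl⟩ := hne
  have h2 : qq m l ∣ 1 := by
    rw [h1]
    exact qq_dvd_nR hl
  have h3 : l ∣ qq m l := by
    have h4 : 1 ≤ m.factorization l :=
      (hR l hl).1.factorization_pos_of_dvd (NeZero.ne m) (hR l hl).2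
    exact dvd_pow_self l (by omega)
  exact (hR l hl).1.one_lt.ne' (Nat.dvd_one.1 (h3.trans h2))

theorem qs_empty {x : ZMod m} (hx : x ∈ QS m ∅) : x = 0 := by
  obtain ⟨u, _, rfl⟩ := mem_image.1 hx
  have h2 : bR m ∅ = 0 := by
    unfold bR nR
    rw [prod_empty, Nat.div_one, ZMod.natCast_self]
  rw [h2, mul_zero]

private theorem sqq_hb {l : ℕ} : l ∣ hb l := by
  unfold hb
  split_ifs with h
  · rw [h]; norm_num
  · exact dvd_rfl

/-- invariance under the squares -/
theorem qs_sq {R : Finset ℕ} (hR : ∀ l ∈ R, l.Prime ∧ hb l ∣ m) (u : (ZMod m)ˣ) :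
    (QS m R).val.map (fun x => (u : ZMod m) ^ 2 * x) = (QS m R).val := by
  have hinj : Function.Injective (fun x : ZMod m => (u : ZMod m) ^ 2 * x) := by
    intro x y h
    exact ((u.isUnit.pow 2).mul_right_inj).1 h
  have hmap : (QS m R).map ⟨fun x : ZMod m => (u : ZMod m) ^ 2 * x, hinj⟩ = QS m R := by
    apply Finset.eq_of_subset_of_card_le
    · intro y hy
      obtain ⟨x, hx, rfl⟩ := Finset.mem_map.1 hy
      obtain ⟨v, hv, rfl⟩ := mem_image.1 hx
      rw [mem_filter] at hv
      refine mem_image.2 ⟨u * u * v, ?_, ?_⟩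
      · rw [mem_filter]
        refine ⟨mem_univ _, fun l hl => ?_⟩
        have h1 : rr (u * u * v) ≡ rr u * rr u * rr v [MOD m] :=
          (rr_mul (u * u) v).trans ((rr_mul u u).mul_right _)
        rw [chi_mod (h1.of_dvd (hR l hl).2), chi_mul, chi_mul, hv.2 l hl, mul_one]
        have h3 : (rr u).Coprime l :=
          (rr_coprime u).coprime_dvd_right (sqq_hb.trans (hR l hl).2)
        rcases chi_sq (hR l hl).1 h3 with h | h <;> rw [h] <;> norm_num
      · simp only [Function.Embedding.coeFn_mk, Units.val_mul]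
        ring
    · rw [Finset.card_map]
  have h2 := congrArg Finset.val hmap
  rw [Finset.map_val] at h2
  exact h2

theorem nR_facts {R : Finset ℕ} (hR : ∀ l ∈ R, l.Prime ∧ l ≠ 2 ∧ l ∣ m) :
    Odd (nR m R) ∧ (nR m R).primeFactors = R := by
  induction R using Finset.induction_on with
  | empty =>
    unfold nR
    rw [prod_empty]
    exact ⟨odd_one, Nat.primeFactors_one⟩
  | insert l R hl ih =>
    obtain ⟨h1, h2⟩ := ih fun a ha => hR a (mem_insert_of_mem ha)
    obtain ⟨hlp, hl2, hlm⟩ := hR l (mem_insert_self _ _)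
    have e : nR m (insert l R) = qq m l * nR m R := by
      unfold nR
      rw [prod_insert hl]
    have hf : 1 ≤ m.factorization l := hlp.factorization_pos_of_dvd (NeZero.ne m) hlm
    have hq : (qq m l).primeFactors = {l} := Nat.primeFactors_prime_pow (by omega) hlp
    have hodd : Odd (qq m l) := (hlp.odd_of_ne_two hl2).pow
    have hcop : (qq m l).Coprime (nR m R) := by
      unfold nR
      refine Nat.Coprime.prod_right fun a ha => ?_
      refine qq_coprime hlp (hR a (mem_insert_of_mem ha)).1 ?_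
      rintro rfl
      exact hl ha
    rw [e]
    refine ⟨hodd.mul h1, ?_⟩
    rw [hcop.primeFactors_mul, hq, h2]
    rfl

/-- the values of a function which depends on the prime factors of the order -/
theorem qs_vl {B : Type} [AddCommGroup B] (b : Finset ℕ → B) {R : Finset ℕ}
    (hR : ∀ l ∈ R, l.Prime ∧ l ≠ 2 ∧ l ∣ m) :
    ∑ x ∈ QS m R, vl b x = (QS m R).card • b R := by
  obtain ⟨h1, h2⟩ := nR_facts (m := m) hR
  rw [← Finset.sum_const]
  refine sum_congr rfl fun x hx => ?_
  have h3 := qs_order (fun l hl => (hR l hl).1) hx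
  unfold vl
  rw [h3, if_pos h1, h2]

theorem qs_even {B : Type} [AddCommGroup B] {b : Finset ℕ → B} (h2 : ∀ V, 2 • b V = 0)
    {R : Finset ℕ} (hR : ∀ l ∈ R, l.Prime ∧ l ≠ 2 ∧ l ∣ m) {s : ℕ} (hs : s ∈ R)
    (hs4 : s % 4 = 1) : ∑ x ∈ QS m R, vl b x = 0 := by
  obtain ⟨h1, h2'⟩ := nR_facts (m := m) hR
  have hval : ∀ x ∈ QS m R, vl b x = b R := by
    intro x hx
    have h3 := qs_order (fun l hl => (hR l hl).1) hx
    unfold vl
    rw [h3, if_pos h1, h2']
  obtain ⟨hsp, hs2, hsm⟩ := hR s hs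
  have hsf : 1 ≤ m.factorization s := hsp.factorization_pos_of_dvd (NeZero.ne m) hsm
  have hsq : s ∣ qq m s := dvd_pow_self s (by omega)
  have hs3 : 3 ≤ s := by
    have := hsp.two_le
    omega
  have hq3 : 3 ≤ qq m s := hs3.trans (Nat.le_of_dvd (Nat.ordProj_pos m s) hsq)
  have hhb : hb s = s := by
    unfold hb
    rw [if_neg hs2]
  obtain ⟨w, hw1, hw2⟩ := exists_unit_crt (RNorm_qq_mul (m := m) s).symm
    (RNorm_qq_coprime (m := m) hsp) (qq m s - 1) 1
    (by
      rw [Nat.coprime_comm]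
      exact (Nat.coprime_self_sub_right (by omega)).2 (Nat.coprime_one_right _))
    (Nat.coprime_one_left _)
  -- `w` is an involution
  have hww : (w : ZMod m) * (w : ZMod m) = 1 := by
    have e1 : rr w * rr w ≡ 1 [MOD qq m s] := by
      refine (hw1.mul hw1).trans ?_
      have e2 : (qq m s - 1) * (qq m s - 1) = qq m s * (qq m s - 2) + 1 := by
        obtain ⟨c, hc⟩ : ∃ c, qq m s = c + 2 := ⟨qq m s - 2, by omega⟩
        rw [hc]
        have e3 : c + 2 - 1 = c + 1 := by omega
        have e4 : c + 2 - 2 = c := by omega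
        rw [e3, e4]
        ring
      rw [e2]
      exact (Nat.modEq_iff_dvd' (Nat.le_add_left 1 _)).2 (by
        rw [Nat.add_sub_cancel]
        exact Dvd.intro _ rfl) |>.symm
    have e2 : rr w * rr w ≡ 1 [MOD ordCompl[s] m] := hw2.mul hw2
    have e3 : rr w * rr w ≡ 1 [MOD qq m s * ordCompl[s] m] :=
      (Nat.modEq_and_modEq_iff_modEq_mul (RNorm_qq_coprime (m := m) hsp)).1 ⟨e1, e2⟩
    rw [RNorm_qq_mul, ← ZMod.natCast_eq_natCast_iff, Nat.cast_mul, Nat.cast_one, rr,
      ZMod.natCast_zmod_val] at e3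
    exact e3
  -- the characters at `w`
  have hchi : ∀ l ∈ R, chi l (rr w) = 1 := by
    intro l hl
    obtain ⟨hlp, hl2, hlm⟩ := hR l hl
    by_cases hls : l = s
    · subst hls
      have e1 : rr w ≡ qq m l - 1 [MOD l] := hw1.of_dvd hsq
      unfold chi
      rw [if_neg hs2]
      have e2 : jacobiSym (rr w : ℤ) l = jacobiSym (-1) l := by
        apply jacobiSym.mod_left'
        apply Int.ModEq.symm
        rw [Int.modEq_iff_dvd]
        have e3 : ((rr w : ℕ) : ℤ) ≡ ((qq m l - 1 : ℕ) : ℤ) [ZMOD (l : ℤ)] :=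
          (Int.natCast_modEq_iff).2 e1
        have e4 : ((l : ℕ) : ℤ) ∣ ((qq m l - 1 : ℕ) : ℤ) - (rr w : ℤ) := e3.dvd
        have e5 : ((qq m l - 1 : ℕ) : ℤ) = (qq m l : ℤ) - 1 := by
          rw [Nat.cast_sub (by omega), Nat.cast_one]
        rw [e5] at e4
        have e6 : (l : ℤ) ∣ (qq m l : ℤ) := by exact_mod_cast hsq
        have e7 : (rr w : ℤ) - (-1) = (qq m l : ℤ) - ((qq m l : ℤ) - 1 - (rr w : ℤ)) := by ring
        rw [e7]
        exact dvd_sub e6 e4
      rw [e2, jacobiSym.at_neg_one (hlp.odd_of_ne_two hl2), ZMod.χ₄_nat_one_mod_four hs4]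
    · have e1 : hb l ∣ ordCompl[s] m := by
        have e2 : hb l = l := by
          unfold hb
          rw [if_neg hl2]
        rw [e2]
        have e3 : l.Coprime (ordProj[s] m) :=
          Nat.Coprime.pow_right _ ((Nat.coprime_primes hlp hsp).2 hls)
        refine e3.dvd_of_dvd_mul_left ?_
        rw [Nat.ordProj_mul_ordCompl_eq_self]
        exact hlm
      rw [chi_mod (hw2.of_dvd e1), chi_one]
  refine Finset.sum_involution (fun x _ => (w : ZMod m) * x) ?_ ?_ ?_ ?_
  · intro x hx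
    have hx2 : (w : ZMod m) * x ∈ QS m R := by
      obtain ⟨v, hv, rfl⟩ := mem_image.1 hx
      rw [mem_filter] at hv
      refine mem_image.2 ⟨w * v, ?_, ?_⟩
      · rw [mem_filter]
        refine ⟨mem_univ _, fun l hl => ?_⟩
        have hlm : hb l ∣ m := by
          unfold hb
          rw [if_neg (hR l hl).2.1]
          exact (hR l hl).2.2
        rw [chi_mod ((rr_mul w v).of_dvd hlm), chi_mul, hchi l hl, hv.2 l hl, mul_one]
      · rw [Units.val_mul, mul_assoc]
    rw [hval x hx, hval _ hx2, ← two_smul ℕ (b R)]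
    exact h2 R
  · intro x hx _ hwx
    obtain ⟨v, hv, rfl⟩ := mem_image.1 hx
    have e1 : ((w * v : (ZMod m)ˣ) : ZMod m) * bR m R = (v : ZMod m) * bR m R := by
      rw [Units.val_mul, mul_assoc]
      exact hwx
    rw [mul_bR_eq (fun l hl => (hR l hl).1)] at e1
    have e2 : rr w * rr v ≡ 1 * rr v [MOD qq m s] := by
      rw [one_mul]
      refine ((rr_mul w v).symm.of_dvd ?_).trans (e1.of_dvd (qq_dvd_nR hs))
      exact Nat.ordProj_dvd m s
    have e3 : (qq m s).Coprime (rr v) :=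
      ((rr_coprime v).coprime_dvd_right (Nat.ordProj_dvd m s)).symm
    have e4 : rr w ≡ 1 [MOD qq m s] := Nat.ModEq.cancel_right_of_coprime e3 e2
    have e5 : qq m s - 1 ≡ 1 [MOD qq m s] := hw1.symm.trans e4
    have e6 : qq m s ∣ qq m s - 1 - 1 := (Nat.modEq_iff_dvd' (by omega)).1 e5.symm
    have e7 := Nat.le_of_dvd (by omega) e6
    omega
  · intro x hx
    obtain ⟨v, hv, rfl⟩ := mem_image.1 hx
    rw [mem_filter] at hv
    refine mem_image.2 ⟨w * v, ?_, ?_⟩
    · rw [mem_filter]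
      refine ⟨mem_univ _, fun l hl => ?_⟩
      have hlm : hb l ∣ m := by
        unfold hb
        rw [if_neg (hR l hl).2.1]
        exact (hR l hl).2.2
      rw [chi_mod ((rr_mul w v).of_dvd hlm), chi_mul, hchi l hl, hv.2 l hl, mul_one]
    · rw [Units.val_mul, mul_assoc]
  · intro x _
    rw [← mul_assoc, hww, one_mul]

theorem qs_odd {R : Finset ℕ} (hR : ∀ l ∈ R, l.Prime ∧ l % 4 = 3 ∧ l ∣ m) :
    Odd (QS m R).card := by
  apply odd_QS
  · intro l hl
    obtain ⟨hlp, hl4, hlm⟩ := hR l hl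
    refine ⟨⟨hlp, Or.inr hl4⟩, ?_⟩
    unfold hb
    rw [if_neg (by omega)]
    exact hlm
  · intro h2
    have := (hR 2 h2).2.1
    omega

end Pool.Agent.FT.Sq
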