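import Pool.Agent.FT.SqA
import Pool.Agent.FT.TFt
import Pool.Agent.FT.Base

/-!
# FT-SqT: the weights of the elements in characteristic `p`

`Wt m p f t x` is the sum of the sawtooth function `sw` over the elements `t p ^ i x`, `i < f`. It is
an odd distribution in `x`, invariant under `p` if `p ^ f = 1`. A multiset with vanishing weights is
a Tate character (compare `TFt_sw` in `TFt.lean` and `hn_hodge_of_sw` in `HN.lean`).
`aa_p`: the character sum for a character with `χ(p) = -1` vanishes (compare `FQ.aa_even`): the sum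
changes its sign if `u` is replaced by `p u`.
-/

set_option autoImplicit false

namespace Pool.Agent.FT.Sq

open Finset Pool.Agent.FS Pool.Agent.FQ
open Pool.Agent.FF

/-- the weight -/
def Wt (m p f : ℕ) [NeZero m] (t : (ZMod m)ˣ) (x : ZMod m) : ℤ :=
  ∑ i ∈ range f, sw ((t : ZMod m) * ((p : ZMod m) ^ i * x))

variable {m p f : ℕ} [NeZero m]

theorem wt_dist (t : (ZMod m)ˣ) (hmp : m.Coprime p) : IsDist (Wt m p f t) := by
  obtain ⟨u, hu⟩ : ∃ u : (ZMod m)ˣ, (u : ZMod m) = p :=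
    ⟨ZMod.unitOfCoprime p hmp.symm, ZMod.coe_unitOfCoprime p hmp.symm⟩
  have h1 : ∀ x : ZMod m, Wt m p f t x =
      ∑ i ∈ range f, sw (((t * u ^ i : (ZMod m)ˣ) : ZMod m) * x) := by
    intro x
    unfold Wt
    refine sum_congr rfl fun i _ => ?_
    rw [Units.val_mul, Units.val_pow_eq_pow_val, hu, mul_assoc]
  intro r hr hrm y
  rw [h1, sum_congr rfl fun z _ => h1 z, sum_comm]
  exact sum_congr rfl fun i _ => sw_dist (t * u ^ i) r hr hrm y

theorem wt_neg (t : (ZMod m)ˣ) (x : ZMod m) : Wt m p f t (-x) = - Wt m p f t x := by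
  unfold Wt
  rw [← sum_neg_distrib]
  refine sum_congr rfl fun i _ => ?_
  rw [mul_neg, mul_neg, FS.Quot.sw_neg]

theorem wt_zero (t : (ZMod m)ˣ) : Wt m p f t 0 = 0 := by
  unfold Wt
  refine sum_eq_zero fun i _ => ?_
  rw [mul_zero, mul_zero, FS.Quot.sw_zero]

theorem wt_p (hpf : (p : ZMod m) ^ f = 1) (t : (ZMod m)ˣ) (x : ZMod m) :
    Wt m p f t ((p : ZMod m) * x) = Wt m p f t x := by
  unfold Wt
  have h1 : ∀ i, sw ((t : ZMod m) * ((p : ZMod m) ^ i * ((p : ZMod m) * x))) =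
      sw ((t : ZMod m) * ((p : ZMod m) ^ (i + 1) * x)) := by
    intro i
    rw [pow_succ, mul_assoc ((p : ZMod m) ^ i)]
  have h2 := sum_range_succ (fun i => sw ((t : ZMod m) * ((p : ZMod m) ^ i * x))) f
  have h3 := sum_range_succ' (fun i => sw ((t : ZMod m) * ((p : ZMod m) ^ i * x))) f
  rw [sum_congr rfl fun i _ => h1 i]
  rw [hpf] at h2
  rw [pow_zero] at h3
  linarith

theorem tate_of_wt (hf : 0 < f) (hmp : m.Coprime p) (hpf : (p : ZMod m) ^ f = 1)
    {S : Multiset (ZMod m)} (h0 : (0 : ZMod m) ∉ S)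
    (hS : ∀ t : (ZMod m)ˣ, (S.map (Wt m p f t)).sum = 0) : TateN p S := by
  obtain ⟨u, hu⟩ : ∃ u : (ZMod m)ˣ, (u : ZMod m) = p :=
    ⟨ZMod.unitOfCoprime p hmp.symm, ZMod.coe_unitOfCoprime p hmp.symm⟩
  refine ⟨f, hf, hpf, fun t => ?_⟩
  have h1 : (S.map (Wt m p f t)) =
      S.map fun x =>
        2 * ((∑ i ∈ range f, ((p : ZMod m) ^ i * ((t : ZMod m) * x)).val : ℕ) : ℤ) - m * f := by
    refine Multiset.map_congr rfl fun x hx => ?_
    have hx0 : x ≠ 0 := fun h => h0 (h ▸ hx)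
    have h2 : ∀ i, sw ((t : ZMod m) * ((p : ZMod m) ^ i * x)) =
        2 * (((p : ZMod m) ^ i * ((t : ZMod m) * x)).val : ℤ) - m := by
      intro i
      rw [mul_left_comm]
      refine FS.Quot.sw_of_ne ?_
      rw [← hu, ← Units.val_pow_eq_pow_val]
      intro h3
      exact hx0 ((t.isUnit.mul_right_eq_zero).1 (((u ^ i).isUnit.mul_right_eq_zero).1 h3))
    unfold Wt
    rw [sum_congr rfl fun i _ => h2 i, sum_sub_distrib, ← mul_sum, sum_const, card_range]
    push_cast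
    ring
  have h3 : (S.map fun x =>
      2 * ((∑ i ∈ range f, ((p : ZMod m) ^ i * ((t : ZMod m) * x)).val : ℕ) : ℤ) -
        (m : ℤ) * f).sum =
      2 * ((S.map fun x => ∑ i ∈ range f, ((p : ZMod m) ^ i * ((t : ZMod m) * x)).val).sum : ℕ) -
        m * f * S.card := by
    rw [Multiset.sum_map_sub, Multiset.sum_map_mul_left, Multiset.map_const',
      Multiset.sum_replicate, Nat.cast_multiset_sum, Multiset.map_map, nsmul_eq_mul]
    simp only [Function.comp_def]
    ring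
  have h4 := hS t
  rw [h1, h3] at h4
  have h5 : (2 * ((S.map fun x =>
      ∑ i ∈ range f, ((p : ZMod m) ^ i * ((t : ZMod m) * x)).val).sum : ℕ) : ℤ) =
      m * f * S.card := by linarith
  exact_mod_cast h5

theorem aa_p (hmp : m.Coprime p) {g : ZMod m → ℤ} (hg : ∀ x, g ((p : ZMod m) * x) = g x)
    {R : Finset ℕ} (hR : ∀ l ∈ R, l.Prime ∧ hb l ∣ m) (hp : chiT R p = -1) : aa g R = 0 := by
  obtain ⟨v, hv⟩ : ∃ v : (ZMod m)ˣ, (v : ZMod m) = p :=
    ⟨ZMod.unitOfCoprime p hmp.symm, ZMod.coe_unitOfCoprime p hmp.symm⟩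
  have hRm : ∀ l ∈ R, hb l ∣ m := fun l hl => (hR l hl).2
  have h0 : chiT R (rr v) = -1 := by
    rw [← hp]
    refine FQ.chiT_mod (n := m) hRm ?_
    rw [← ZMod.natCast_eq_natCast_iff, rr, ZMod.natCast_zmod_val, hv]
  have h1 : SS g R R = - SS g R R := by
    conv_lhs => rw [SS, ← Equiv.sum_comp (Equiv.mulLeft v)]
    rw [SS, ← sum_neg_distrib]
    refine sum_congr rfl fun u _ => ?_
    rw [Equiv.coe_mulLeft, FQ.chiT_rr_mul hRm, h0, Units.val_mul, hv,
      mul_assoc (p : ZMod m), hg]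
    ring
  unfold aa
  have h2 : SS g R R = 0 := by omega
  rw [h2, mul_zero]

end Pool.Agent.FT.Sq
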