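import Pool.Agent.FT.SqQ
import Pool.Agent.FT.SqT
import Pool.Agent.FT.SqC
import Pool.Agent.FT.Ord

/-!
# FT-SqS: the relation given by the quadratic sets

From a relation `aa g R = 2 ^ R.card * ∑ T, d T * AA g T` the multiset `sS` of `d T` copies of the
quadratic sets of the nonempty subsets `T` of `R` is formed. Its triple (if necessary after adding
the quadratic set of `{q}`) is a Tate character with an even number of nonzero elements of odd order,
with sum zero, and it is invariant under the squares of the units.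
-/

set_option autoImplicit false

namespace Pool.Agent.FT.Sq

open Finset Pool.Agent.FS Pool.Agent.FQ
open Pool.Agent.FF

/-- `d T` copies of the quadratic sets -/
private def sS (n : ℕ) [NeZero n] (d : Finset ℕ → ℤ) (I : Finset (Finset ℕ)) :
    Multiset (ZMod n) :=
  ∑ T ∈ I, ((d T).toNat • (QS n T).val + (-d T).toNat • (QS n T).val.map fun x => -x)

private theorem sS_sum {n : ℕ} [NeZero n] {G : Type} [AddCommGroup G] {F : ZMod n → G}
    (hF : ∀ x, F (-x) = - F x) (d : Finset ℕ → ℤ) (I : Finset (Finset ℕ)) :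
    ((sS n d I).map F).sum = ∑ T ∈ I, d T • ∑ x ∈ QS n T, F x := by
  classical
  unfold sS
  induction I using Finset.induction_on with
  | empty => rw [sum_empty, sum_empty, Multiset.map_zero, Multiset.sum_zero]
  | insert T I hT ih =>
    rw [sum_insert hT, sum_insert hT, Multiset.map_add, Multiset.sum_add, ih, Multiset.map_add,
      Multiset.sum_add, Multiset.map_nsmul, Multiset.map_nsmul, Multiset.sum_nsmul,
      Multiset.sum_nsmul, Multiset.map_map]
    have h1 : ((QS n T).val.map (F ∘ fun x => -x)).sum = -((QS n T).val.map F).sum := by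
      have h3 : (QS n T).val.map (F ∘ fun x => -x) = (QS n T).val.map fun x => - F x :=
        Multiset.map_congr rfl fun x _ => hF x
      rw [h3, Multiset.sum_map_neg]
    have h2 : ((QS n T).val.map F).sum = ∑ x ∈ QS n T, F x := rfl
    rw [h1, h2]
    congr 1
    conv_rhs => rw [← Int.toNat_sub_toNat_neg (d T), sub_smul, natCast_zsmul, natCast_zsmul]
    rw [smul_neg, sub_eq_add_neg]

private theorem sS_mem {n : ℕ} [NeZero n] {d : Finset ℕ → ℤ} {I : Finset (Finset ℕ)}
    {x : ZMod n} (hx : x ∈ sS n d I) : ∃ T ∈ I, x ∈ QS n T ∨ -x ∈ QS n T := by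
  unfold sS at hx
  rw [Multiset.mem_sum] at hx
  obtain ⟨T, hT, h⟩ := hx
  refine ⟨T, hT, ?_⟩
  rw [Multiset.mem_add] at h
  rcases h with h | h
  · exact Or.inl ((Multiset.mem_of_mem_nsmul h))
  · obtain ⟨y, hy, hyx⟩ := Multiset.mem_map.1 (Multiset.mem_of_mem_nsmul h)
    right
    rw [← hyx, neg_neg]
    exact hy

private theorem sS_inv {n : ℕ} [NeZero n] {d : Finset ℕ → ℤ} {I : Finset (Finset ℕ)}
    {c : ZMod n} (h : ∀ T ∈ I, (QS n T).val.map (fun x => c * x) = (QS n T).val) :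
    (sS n d I).map (fun x => c * x) = sS n d I := by
  unfold sS
  have h1 : (∑ T ∈ I, ((d T).toNat • (QS n T).val +
      (-d T).toNat • (QS n T).val.map fun x => -x)).map (fun x => c * x) =
      ∑ T ∈ I, ((d T).toNat • (QS n T).val +
      (-d T).toNat • (QS n T).val.map fun x => -x).map (fun x => c * x) :=
    map_sum (Multiset.mapAddMonoidHom (fun x : ZMod n => c * x)) _ _
  rw [h1]
  refine sum_congr rfl fun T hT => ?_
  rw [Multiset.map_add, Multiset.map_nsmul, Multiset.map_nsmul, h T hT, Multiset.map_map]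
  congr 2
  have h2 : ((fun x : ZMod n => c * x) ∘ fun x => -x) = (fun x => -x) ∘ fun x => c * x := by
    funext x
    show c * -x = -(c * x)
    rw [mul_neg]
  rw [h2, ← Multiset.map_map, h T hT]

private theorem sqs_two {B : Type} [AddCommGroup B] {b : Finset ℕ → B} (h2 : ∀ V, 2 • b V = 0)
    {n : ℕ} (x : ZMod n) : 2 • vl b x = 0 := by
  unfold vl
  split_ifs
  · exact h2 _
  · exact smul_zero _

private theorem sqs_neg {B : Type} [AddCommGroup B] {b : Finset ℕ → B} (h2 : ∀ V, 2 • b V = 0)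
    {n : ℕ} (x : ZMod n) : vl b (-x) = - vl b x := by
  have h1 : vl b (-x) = vl b x := by
    unfold vl
    rw [addOrderOf_neg]
  rw [h1, eq_neg_iff_add_eq_zero, ← two_nsmul]
  exact sqs_two h2 x

private theorem sqs_key [Flag] (hZ : Flag.z) {p n : ℕ} [NeZero n] (hn : Odd n) (hnp : n.Coprime p) {B : Type}
    [AddCommGroup B] {b : Finset ℕ → B} (h2 : ∀ V, 2 • b V = 0)
    (hb : ∀ S : Multiset (ZMod n), Alg p n S → TateN p S → (S.map (vl b)).sum = 0)
    {S : Multiset (ZMod n)} (h0 : (0 : ZMod n) ∉ S) (hc : Even S.card)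
    (hw : ∀ t : (ZMod n)ˣ, (S.map (Wt n p (orderOf (p : ZMod n)) t)).sum = 0)
    (hu : ∀ u : (ZMod n)ˣ, (S.map fun x => (u : ZMod n) ^ 2 * x) = S) :
    (S.map (vl b)).sum = 0 := by
  have hf : 0 < orderOf (p : ZMod n) := by
    obtain ⟨w, hw⟩ := pow_unit_cast (dvd_refl n) hnp
    rw [← hw, orderOf_units]
    exact orderOf_pos w
  have h3 : (3 : ℕ) • S.sum = 0 := by
    have e1 := congrArg Multiset.sum (hu (ZMod.unitOfCoprime 2 (Nat.coprime_two_left.2 hn)))
    rw [Multiset.sum_map_mul_left, Multiset.map_id', ZMod.coe_unitOfCoprime] at e1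
    have e2 : (3 : ℕ) • S.sum = ((2 : ℕ) : ZMod n) ^ 2 * S.sum - S.sum := by
      rw [nsmul_eq_mul]
      push_cast
      ring
    rw [e2, e1, sub_self]
  have h0' : (0 : ZMod n) ∉ 3 • S := fun h => h0 (Multiset.mem_of_mem_nsmul h)
  have hT : TateN p (3 • S) := by
    refine tate_of_wt hf hnp (pow_orderOf_eq_one _) h0' fun t => ?_
    rw [Multiset.map_nsmul, Multiset.sum_nsmul, hw t, smul_zero]
  have hA : Alg p n (3 • S) := by
    refine Alg.squares hZ _ h0' ?_ ?_ ?_ hT ?_
    · rw [Multiset.card_nsmul]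
      exact hc.mul_left 3
    · rw [Multiset.sum_nsmul, h3]
    · intro x _
      exact hn.of_dvd_nat (order_dvd x)
    · intro u
      rw [Multiset.map_nsmul, hu u]
  have h4 := hb _ hA hT
  rw [Multiset.map_nsmul, Multiset.sum_nsmul] at h4
  have h5 : 2 • (S.map (vl b)).sum = 0 := by
    rw [← Multiset.sum_map_nsmul, Multiset.map_congr rfl fun x _ => sqs_two h2 x,
      Multiset.map_const', Multiset.sum_replicate, smul_zero]
  have h6 : (3 : ℕ) • (S.map (vl b)).sum = 2 • (S.map (vl b)).sum + (S.map (vl b)).sum := by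
    rw [show (3 : ℕ) = 2 + 1 from rfl, add_smul, one_smul]
  rw [h6, h5, zero_add] at h4
  exact h4

private theorem sqs_hb {n : ℕ} (hn : Odd n) {l : ℕ} (h : l ∣ n) : l ≠ 2 ∧ Pool.Agent.FS.hb l = l := by
  have h1 : l ≠ 2 := by
    rintro rfl
    have := hn.of_dvd_nat h
    exact absurd this (by decide)
  refine ⟨h1, ?_⟩
  unfold Pool.Agent.FS.hb
  rw [if_neg h1]

/-- the sum of the weights over a relation -/
private theorem sqs_rel {n : ℕ} [NeZero n] (hn : Odd n) {g : ZMod n → ℤ} (hg : IsDist g)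
    (hg0 : g 0 = 0) {R : Finset ℕ} (hR : ∀ l ∈ R, l.Prime ∧ l ∣ n) (haa : aa g R = 0)
    {d : Finset ℕ → ℤ}
    (hd : ∀ g : ZMod n → ℤ, IsDist g → aa g R = 2 ^ R.card * ∑ T ∈ R.powerset, d T * AA g T) :
    ∑ T ∈ R.powerset.erase ∅, d T • ∑ x ∈ QS n T, g x = 0 := by
  have h1 := hd g hg
  rw [haa] at h1
  have h2 : ∑ T ∈ R.powerset, d T * AA g T = 0 := by
    rcases mul_eq_zero.1 h1.symm with h | h
    · exact absurd h (pow_ne_zero _ (by norm_num))
    · exact h
  rw [← add_sum_erase _ _ (empty_mem_powerset R)] at h2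
  have h3 : ∀ T ∈ R.powerset, d T * AA g T = (n.totient : ℤ) * (d T • ∑ x ∈ QS n T, g x) := by
    intro T hT
    rw [AA_QS g (fun l hl => ?_), smul_eq_mul]
    · ring
    · have h4 := hR l (mem_powerset.1 hT hl)
      exact ⟨h4.1, by rw [(sqs_hb hn h4.2).2]; exact h4.2⟩
  have h5 : d ∅ * AA g ∅ = 0 := by
    rw [h3 ∅ (empty_mem_powerset R), sum_eq_zero fun x hx => by rw [qs_empty hx, hg0], smul_zero,
      mul_zero]
  rw [h5, zero_add, sum_congr rfl fun T hT => h3 T (mem_of_mem_erase hT), ← mul_sum] at h2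
  rcases mul_eq_zero.1 h2 with h | h
  · have h6 : 0 < n.totient := Nat.totient_pos.2 (Nat.pos_of_ne_zero (NeZero.ne n))
    exact absurd h (by exact_mod_cast h6.ne')
  · exact h

theorem sq_main [Flag] (hZ : Flag.z) {p n : ℕ} [NeZero n] (hn : Odd n) (hnp : n.Coprime p) {B : Type}
    [AddCommGroup B] {b : Finset ℕ → B} (h2 : ∀ V, 2 • b V = 0)
    (hb : ∀ S : Multiset (ZMod n), Alg p n S → TateN p S → (S.map (vl b)).sum = 0)
    {q : ℕ} (hq : q.Prime) (hq4 : q % 4 = 3) (hqn : q ∣ n) (hqp : chiT {q} p = -1)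
    (hbq : b {q} = 0) {R : Finset ℕ} (hR : ∀ l ∈ R, l.Prime ∧ l ∣ n)
    (haa : ∀ t : (ZMod n)ˣ, aa (Wt n p (orderOf (p : ZMod n)) t) R = 0) {d : Finset ℕ → ℤ}
    (hd : ∀ g : ZMod n → ℤ, IsDist g → aa g R = 2 ^ R.card * ∑ T ∈ R.powerset, d T * AA g T) :
    ∑ T ∈ R.powerset.erase ∅, d T • ∑ x ∈ QS n T, vl b x = 0 := by
  classical
  have hpf : (p : ZMod n) ^ orderOf (p : ZMod n) = 1 := pow_orderOf_eq_one _
  have hsub : ∀ T ∈ R.powerset.erase ∅, T.Nonempty ∧ ∀ l ∈ T, l.Prime ∧ l ≠ 2 ∧ l ∣ n ∧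
      Pool.Agent.FS.hb l ∣ n := by
    intro T hT
    rw [mem_erase, mem_powerset] at hT
    refine ⟨nonempty_iff_ne_empty.2 hT.1, fun l hl => ?_⟩
    have h1 := hR l (hT.2 hl)
    have h3 := sqs_hb hn h1.2
    exact ⟨h1.1, h3.1, h1.2, by rw [h3.2]; exact h1.2⟩
  obtain ⟨S, hS⟩ : ∃ S, S = sS n d (R.powerset.erase ∅) := ⟨_, rfl⟩
  have h0 : (0 : ZMod n) ∉ S := by
    intro h
    rw [hS] at h
    obtain ⟨T, hT, h4⟩ := sS_mem h
    rw [neg_zero, or_self] at h4
    exact qs_zero (fun l hl => ⟨((hsub T hT).2 l hl).1, ((hsub T hT).2 l hl).2.2.1⟩)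
      (hsub T hT).1 h4
  have hw : ∀ t : (ZMod n)ˣ, (S.map (Wt n p (orderOf (p : ZMod n)) t)).sum = 0 := by
    intro t
    rw [hS, sS_sum (fun x => wt_neg t x)]
    exact sqs_rel hn (wt_dist t hnp) (wt_zero t) hR (haa t) hd
  have hu : ∀ u : (ZMod n)ˣ, (S.map fun x => (u : ZMod n) ^ 2 * x) = S := by
    intro u
    rw [hS]
    refine sS_inv fun T hT => ?_
    exact qs_sq (fun l hl => ⟨((hsub T hT).2 l hl).1, ((hsub T hT).2 l hl).2.2.2⟩) u
  rw [← sS_sum (fun x => sqs_neg h2 x) d (R.powerset.erase ∅), ← hS]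
  rcases Nat.even_or_odd S.card with hev | hodd
  · exact sqs_key hZ hn hnp h2 hb h0 hev hw hu
  · -- the quadratic set of `q`
    have hq2 := sqs_hb hn hqn
    have hqR : ∀ l ∈ ({q} : Finset ℕ), l.Prime ∧ l ∣ n := by
      intro l hl
      rw [mem_singleton] at hl
      subst hl
      exact ⟨hq, hqn⟩
    have hqR' : ∀ l ∈ ({q} : Finset ℕ), l.Prime ∧ Pool.Agent.FS.hb l ∣ n := by
      intro l hl
      rw [mem_singleton] at hl
      subst hl
      exact ⟨hq, by rw [hq2.2]; exact hqn⟩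
    have hq0 : (0 : ZMod n) ∉ (QS n {q}).val := fun h =>
      qs_zero hqR (singleton_nonempty q) (h)
    have hqodd : Odd (QS n {q}).card := by
      refine qs_odd fun l hl => ?_
      rw [mem_singleton] at hl
      subst hl
      exact ⟨hq, hq4, hqn⟩
    obtain ⟨e, he1, _, _, he⟩ := sq_closure (m := n) {q} hqR'
    have hqw : ∀ t : (ZMod n)ˣ,
        ((QS n {q}).val.map (Wt n p (orderOf (p : ZMod n)) t)).sum = 0 := by
      intro t
      have h5 := sqs_rel hn (wt_dist t hnp) (wt_zero t) hqR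
        (aa_p hnp (fun x => wt_p hpf t x) hqR' hqp) he
      have h6 : ({q} : Finset ℕ).powerset.erase ∅ = {{q}} := by
        ext T
        rw [mem_erase, mem_powerset, mem_singleton, subset_singleton_iff]
        constructor
        · rintro ⟨h7, h8⟩
          exact h8.resolve_left h7
        · rintro rfl
          exact ⟨singleton_ne_empty q, Or.inr rfl⟩
      rw [h6, sum_singleton, he1, one_smul] at h5
      exact h5
    have hqu : ∀ u : (ZMod n)ˣ, ((QS n {q}).val.map fun x => (u : ZMod n) ^ 2 * x) =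
        (QS n {q}).val := fun u => qs_sq hqR' u
    have hqb : ((QS n {q}).val.map (vl b)).sum = 0 := by
      have h7 := qs_vl (m := n) b (R := {q}) (fun l hl => by
        rw [mem_singleton] at hl
        subst hl
        exact ⟨hq, hq2.1, hqn⟩)
      rw [hbq, smul_zero] at h7
      exact h7
    have h8 := sqs_key hZ hn hnp h2 hb (S := S + (QS n {q}).val) (by
      rw [Multiset.mem_add, not_or]
      exact ⟨h0, hq0⟩) (by
      rw [Multiset.card_add]
      exact hodd.add_odd hqodd) (fun t => by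
      rw [Multiset.map_add, Multiset.sum_add, hw, hqw, add_zero]) (fun u => by
      rw [Multiset.map_add, hu, hqu])
    rw [Multiset.map_add, Multiset.sum_add, hqb, add_zero] at h8
    exact h8

end Pool.Agent.FT.Sq
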