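import Pool.Agent.FQ.Allow
import Pool.Agent.FT.Defs

/-!
# FT-UA: odd distributions with weights

The lemmas of `FS.NormA`, `FS.Norm`, `FS.Mixed`, `FS.RemoveA`, `FF.T4`, `FQ.Fam` and `FQ.Allow` on
odd distributions, without the hypothesis that the Hodge characters with four elements vanish.
-/

set_option autoImplicit false

namespace Pool.Agent.FT

open Finset
open Pool.Agent.Helper9.Fermat (fib mem_fib)

/-- An odd distribution on `ℤ/m` with the sawtooth weights. -/
structure Dat (m : ℕ) [NeZero m] (A : Type) [AddCommGroup A] where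
  f : ZMod m → A
  W : (ZMod m)ˣ → A →+ ℤ
  zero : f 0 = 0
  odd : ∀ x, f (-x) = - f x
  dist : ∀ r : ℕ, r.Prime → r ∣ m → ∀ y : ZMod m,
    ∑ z ∈ fib m r ((r : ZMod m) * y), f z = f ((r : ZMod m) * y)
  wf : ∀ (t : (ZMod m)ˣ) (x : ZMod m), W t (f x) = Pool.Agent.FS.sw ((t : ZMod m) * x)

/-- the subgroup generated by the values at the elements with order in `L` -/
def Dat.lev {m : ℕ} [NeZero m] {A : Type} [AddCommGroup A] (D : Dat m A) (L : Set ℕ) :
    AddSubgroup A :=
  AddSubgroup.closure {a | ∃ z : ZMod m, addOrderOf z ∈ L ∧ a = D.f z}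

section FSpart

open Pool.Agent.FS

variable {m : ℕ} [NeZero m] {A : Type} [AddCommGroup A] (D : Dat m A)

/-- Module M4a (i): the distribution relation for all divisors. -/
theorem dist_gen (d : ℕ) (hd : d ∣ m) (y : ZMod m) :
    ∑ z ∈ fib m d ((d : ZMod m) * y), D.f z = D.f ((d : ZMod m) * y) := by
  induction d using Nat.recOnMul generalizing y with
  | zero => exact absurd (Nat.eq_zero_of_zero_dvd hd) (NeZero.ne m)
  | one =>
    have h : fib m 1 (((1 : ℕ) : ZMod m) * y) = {y} := by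
      ext z
      rw [mem_fib, mem_singleton, Nat.cast_one, one_mul, one_mul]
    rw [h, sum_singleton, Nat.cast_one, one_mul]
  | prime r hr => exact D.dist r hr hd y
  | mul a b iha ihb =>
    have ha0 : a ≠ 0 := by
      rintro rfl
      rw [zero_mul] at hd
      exact absurd (Nat.eq_zero_of_zero_dvd hd) (NeZero.ne m)
    have hda : a ∣ m := (Dvd.intro b rfl).trans hd
    have hdb : b ∣ m := (Dvd.intro_left a rfl).trans hd
    have e1 : ((a * b : ℕ) : ZMod m) * y = (a : ZMod m) * ((b : ZMod m) * y) := by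
      push_cast
      ring
    rw [e1, ← iha hda ((b : ZMod m) * y)]
    have e2 : fib m (a * b) ((a : ZMod m) * ((b : ZMod m) * y)) =
        (fib m a ((a : ZMod m) * ((b : ZMod m) * y))).biUnion fun w => fib m b w := by
      ext z
      rw [mem_biUnion, mem_fib]
      constructor
      · intro hz
        refine ⟨(b : ZMod m) * z, ?_, ?_⟩
        · rw [mem_fib, ← hz]
          push_cast
          ring
        · rw [mem_fib]
      · rintro ⟨w, hw, hz⟩
        rw [mem_fib] at hw hz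
        rw [← hw, ← hz]
        push_cast
        ring
    rw [e2, sum_biUnion]
    · refine sum_congr rfl fun w hw => ?_
      rw [mem_fib] at hw
      obtain ⟨v, hv⟩ := exists_mul_of_mul_eq_zero (a := a) (b := b) ha0 hd (w - (b : ZMod m) * y)
        (by rw [mul_sub, hw, sub_self])
      have hw' : w = (b : ZMod m) * (v + y) := by linear_combination hv
      rw [hw']
      exact ihb hdb (v + y)
    · intro w _ w' _ hww
      rw [Function.onFun, Finset.disjoint_left]
      intro z hz hz'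
      rw [mem_fib] at hz hz'
      exact hww (hz.symm.trans hz')

/-- (vi): the distribution relation for `2` -/
theorem f_half (hm : 2 ∣ m) (x : ZMod m) :
    D.f (x + ((m / 2 : ℕ) : ZMod m)) = D.f (2 * x) - D.f x := by
  have hne : x ≠ x + ((m / 2 : ℕ) : ZMod m) := by
    intro h
    have h1 : ((m / 2 : ℕ) : ZMod m) = 0 := by linear_combination -h
    exact Pool.Agent.Helper9.Fermat.half_ne hm h1
  have h := D.dist 2 Nat.prime_two hm x
  have hf : fib m 2 (((2 : ℕ) : ZMod m) * x) = {x, x + ((m / 2 : ℕ) : ZMod m)} := by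
    symm
    refine Finset.eq_of_subset_of_card_le ?_ ?_
    · intro z hz
      rw [mem_insert, mem_singleton] at hz
      rw [mem_fib]
      rcases hz with rfl | rfl
      · rfl
      · have h2 : ((m / 2 : ℕ) : ZMod m) + ((m / 2 : ℕ) : ZMod m) = 0 := by
          have := Pool.Agent.Helper9.Fermat.half_neg (m := m) hm
          rw [neg_eq_iff_add_eq_zero] at this
          exact this
        push_cast at h2 ⊢
        linear_combination h2
    · rw [Pool.Agent.Helper9.Fermat.fib_card (by norm_num) hm, card_pair hne]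
  rw [hf, sum_pair hne] at h
  have e2 : ((2 : ℕ) : ZMod m) = 2 := by norm_num
  rw [e2] at h
  rw [← h]
  abel

/-- (iii): coefficients -/
theorem exists_coeff {n : ℕ} [NeZero n] (hn : n ∣ m) (L : Set ℕ) {a : A}
    (ha : a ∈ D.lev (insert n L)) :
    ∃ N : (ZMod n)ˣ → ℤ, ∃ b ∈ D.lev L, a = ∑ w : (ZMod n)ˣ, N w • D.f (emb m n w) + b := by
  classical
  induction ha using AddSubgroup.closure_induction with
  | mem x hx =>
    obtain ⟨z, hz, rfl⟩ := hx
    rcases hz with hz | hz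
    · obtain ⟨w, rfl⟩ := (exists_emb hn z).1 hz
      refine ⟨Pi.single w 1, 0, zero_mem _, ?_⟩
      rw [add_zero, Finset.sum_eq_single w]
      · rw [Pi.single_eq_same, one_smul]
      · intro u _ hu
        rw [Pi.single_eq_of_ne hu, zero_smul]
      · intro h
        exact absurd (mem_univ _) h
    · exact ⟨0, D.f z, AddSubgroup.subset_closure ⟨z, hz, rfl⟩, by simp⟩
  | zero => exact ⟨0, 0, zero_mem _, by simp⟩
  | add x y _ _ ihx ihy =>
    obtain ⟨N, b, hb, rfl⟩ := ihx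
    obtain ⟨N', b', hb', rfl⟩ := ihy
    refine ⟨N + N', b + b', add_mem hb hb', ?_⟩
    simp only [Pi.add_apply, add_smul, sum_add_distrib]
    abel
  | neg x _ ih =>
    obtain ⟨N, b, hb, rfl⟩ := ih
    refine ⟨-N, -b, neg_mem hb, ?_⟩
    simp only [Pi.neg_apply, neg_smul, sum_neg_distrib]
    abel

theorem lev_mono {L L' : Set ℕ} (h : L ⊆ L') : D.lev L ≤ D.lev L' :=
  AddSubgroup.closure_mono fun _ ⟨z, hz, e⟩ => ⟨z, h hz, e⟩

theorem f_mem {L : Set ℕ} {z : ZMod m} (h : addOrderOf z ∈ L) : D.f z ∈ D.lev L :=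
  AddSubgroup.subset_closure ⟨z, h, rfl⟩

/-- (v): raising the order -/
theorem f_mem_lev (x : ZMod m) (_hx : x ≠ 0) :
    D.f x ∈ D.lev {∏ l ∈ (addOrderOf x).primeFactors, qq m l} := by
  have hm0 : m ≠ 0 := NeZero.ne m
  set e := addOrderOf x with he
  set n := ∏ l ∈ e.primeFactors, qq m l with hn
  have hem : e ∣ m := by
    have := addOrderOf_dvd_card (x := x)
    rwa [ZMod.card] at this
  have he0 : e ≠ 0 := fun h => hm0 (Nat.eq_zero_of_zero_dvd (h ▸ hem))
  have hnm : n ∣ m := prod_qq_dvd _ fun l hl => Nat.prime_of_mem_primeFactors hl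
  have hn0 : n ≠ 0 := fun h => hm0 (Nat.eq_zero_of_zero_dvd (h ▸ hnm))
  obtain ⟨d, hd⟩ : e ∣ n := dvd_prod_qq hem
  have hd0 : d ≠ 0 := by rintro rfl; exact hn0 (by rw [hd, mul_zero])
  -- primes dividing `d` divide `e`
  have hpr : ∀ l : ℕ, l.Prime → l ∣ d → l ∣ e := by
    intro l hl hld
    have h1 : l ∣ n := hld.trans (hd ▸ Dvd.intro_left e rfl)
    rw [hn, Prime.dvd_finsetProd_iff hl.prime] at h1
    obtain ⟨l', hl', h2⟩ := h1
    have h3 : l ∣ l' := hl.dvd_of_dvd_pow h2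
    have h4 := (Nat.prime_dvd_prime_iff_eq hl (Nat.prime_of_mem_primeFactors hl')).1 h3
    rw [h4]
    exact Nat.dvd_of_mem_primeFactors hl'
  -- `x` is divisible by `d`
  obtain ⟨x0, hx0⟩ : ∃ x0 : ZMod m, x = (d : ZMod m) * x0 := by
    obtain ⟨k, hk⟩ := hnm
    refine exists_mul_of_mul_eq_zero (a := e) (b := d) he0 ?_ x ?_
    · rw [← hd]
      exact Dvd.intro k hk.symm
    · rw [← nsmul_eq_mul, he]
      exact addOrderOf_nsmul_eq_zero x
  have hdm : d ∣ m := (hd ▸ Dvd.intro_left e rfl : d ∣ n).trans hnm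
  rw [hx0, ← dist_gen D d hdm x0]
  refine sum_mem fun z hz => ?_
  rw [mem_fib, ← hx0] at hz
  refine f_mem D ?_
  rw [Set.mem_singleton_iff]
  -- the order of `z`
  have h1 : addOrderOf (d • z) = addOrderOf z / (addOrderOf z).gcd d := addOrderOf_nsmul' z hd0
  rw [nsmul_eq_mul, hz, ← he] at h1
  set g := (addOrderOf z).gcd d with hg
  have hz0 : addOrderOf z ≠ 0 := (addOrderOf_pos z).ne'
  have hg0 : 0 < g := Nat.gcd_pos_of_pos_right _ (Nat.pos_of_ne_zero hd0)
  obtain ⟨N', hN'⟩ : g ∣ addOrderOf z := Nat.gcd_dvd_left _ _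
  obtain ⟨d', hd'⟩ : g ∣ d := Nat.gcd_dvd_right _ _
  have h2 : e = N' := by
    rw [h1, hN']
    exact Nat.mul_div_cancel_left N' hg0
  have h3 : N'.Coprime d' := by
    have h4 : g * N'.gcd d' = g * 1 := by
      rw [← Nat.gcd_mul_left, ← hN', ← hd', mul_one]
    exact Nat.eq_of_mul_eq_mul_left hg0 h4
  have h5 : d' = 1 := by
    by_contra hne
    obtain ⟨l, hl, hld⟩ := Nat.exists_prime_and_dvd hne
    have h6 : l ∣ e := hpr l hl (hld.trans (hd' ▸ Dvd.intro_left g rfl))
    rw [h2] at h6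
    exact Nat.not_coprime_of_dvd_of_dvd hl.one_lt h6 hld h3
  rw [hN', ← h2, hd, mul_comm g e]
  rw [h5, mul_one] at hd'
  rw [← hd']

/-- (iv): the norm relation -/
theorem coset_sum_mem {n : ℕ} [NeZero n] (hn : n ∣ m) (hu : n.Coprime (m / n)) (l : ℕ)
    (hl : l.Prime) (hln : l ∣ n) (L : Set ℕ) (hL : ordCompl[l] n ∈ L ∨ ordCompl[l] n = 1)
    (w : (ZMod n)ˣ) :
    ∑ᶠ k : Kl n l, D.f (emb m n (((k : (ZMod n)ˣ) * w : (ZMod n)ˣ) : ZMod n)) ∈ D.lev L := by
  classical
  have hn0 : n ≠ 0 := NeZero.ne n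
  set n' := ordCompl[l] n with hn'
  obtain ⟨a, ha⟩ : ∃ a, n.factorization l = a + 1 := by
    refine ⟨n.factorization l - 1, ?_⟩
    have := hl.factorization_pos_of_dvd hn0 hln
    omega
  set q := l ^ (a + 1) with hq
  have hqn : n = q * n' := by
    rw [hq, ← ha]
    exact (Nat.ordProj_mul_ordCompl_eq_self n l).symm
  have hcop : l.Coprime n' := Nat.coprime_ordCompl hl hn0
  have hql : q = l ^ a * l := pow_succ l a
  have hqm : q ∣ m := (hqn ▸ Dvd.intro n' rfl : q ∣ n).trans hn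
  have hqlm : l ^ a ∣ m := (hql ▸ Dvd.intro l rfl : l ^ a ∣ q).trans hqm
  have hn'0 : n' ≠ 0 := by rintro h; rw [h, mul_zero] at hqn; exact hn0 hqn
  haveI : NeZero n' := ⟨hn'0⟩
  have hn'n : n' ∣ n := hqn ▸ Dvd.intro_left q rfl
  set z0 : ZMod m := emb m n (w : ZMod n) with hz0
  have hord0 : addOrderOf z0 = n := (exists_emb hn z0).2 ⟨w, rfl⟩
  -- inverse of `l` modulo `n'`
  obtain ⟨lam, hlam⟩ : ∃ lam : ℕ, ((l * lam : ℕ) : ZMod n') = 1 := by
    refine ⟨((l : ZMod n')⁻¹).val, ?_⟩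
    rw [Nat.cast_mul, ZMod.natCast_zmod_val]
    exact ZMod.coe_mul_inv_eq_one l hcop
  have hlam' : ∀ y : ZMod m, (n' : ZMod m) * y = 0 → (l : ZMod m) * ((lam : ZMod m) * y) = y := by
    intro y hy
    have h1 : (n' : ℤ) ∣ ((l * lam : ℕ) : ℤ) - 1 := by
      rw [← ZMod.intCast_zmod_eq_zero_iff_dvd]
      push_cast at hlam ⊢
      rw [hlam, sub_self]
    obtain ⟨k, hk⟩ := h1
    have h2 : ((l * lam : ℕ) : ZMod m) - 1 = (n' : ZMod m) * (k : ZMod m) := by
      have := congrArg (Int.cast : ℤ → ZMod m) hk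
      push_cast at this ⊢
      exact this
    push_cast at h2
    linear_combination y * h2 + (k : ZMod m) * hy
  have hlamcop : lam.Coprime n' := by
    have h1 : IsUnit ((lam : ℕ) : ZMod n') := by
      refine IsUnit.of_mul_eq_one (l : ZMod n') ?_
      rw [mul_comm]
      exact_mod_cast hlam
    exact (ZMod.isUnit_iff_coprime lam n').1 h1
  have hnz0 : (n' : ZMod m) * ((q : ZMod m) * z0) = 0 := by
    have h1 : (n : ZMod m) * z0 = 0 := by
      rw [← nsmul_eq_mul, ← hord0]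
      exact addOrderOf_nsmul_eq_zero z0
    have h2 : (n : ZMod m) = (q : ZMod m) * (n' : ZMod m) := by
      rw [← Nat.cast_mul, ← hqn]
    rw [h2] at h1
    linear_combination h1
  have hlq : (q : ZMod m) = (l : ZMod m) ^ a * (l : ZMod m) := by
    rw [hql]
    push_cast
    ring
  set z1 : ZMod m := (l : ZMod m) * ((lam : ZMod m) * z0) with hz1
  have hy1 : ((l ^ a : ℕ) : ZMod m) * z1 = (lam : ZMod m) * ((q : ZMod m) * z0) := by
    rw [hz1, hlq]
    push_cast
    ring
  -- the orders of the two elements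
  have ho1 : addOrderOf ((q : ZMod m) * z0) = n' := by
    rw [← nsmul_eq_mul, addOrderOf_nsmul' z0 (pow_ne_zero _ hl.ne_zero), hord0, hqn,
      Nat.gcd_eq_right (Dvd.intro n' rfl), Nat.mul_div_cancel_left n' (pow_pos hl.pos _)]
  have ho2 : addOrderOf (((l ^ a : ℕ) : ZMod m) * z1) = n' := by
    rw [hy1, ← nsmul_eq_mul, Nat.Coprime.addOrderOf_nsmul, ho1]
    rw [ho1]
    exact hlamcop.symm
  have hmem : ∀ y : ZMod m, addOrderOf y = n' → D.f y ∈ D.lev L := by
    intro y hy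
    rcases hL with hL | hL
    · exact f_mem D (by rw [hy]; exact hL)
    · rw [hL, AddMonoid.addOrderOf_eq_one_iff] at hy
      rw [hy, D.zero]
      exact zero_mem _
  -- the characterisation of the elements of smaller order
  have hX2 : (fib m q ((q : ZMod m) * z0)).filter (fun z => ¬ addOrderOf z = n) =
      fib m (l ^ a) (((l ^ a : ℕ) : ZMod m) * z1) := by
    ext z
    rw [mem_filter, mem_fib, mem_fib, hy1]
    constructor
    · rintro ⟨hz, ho⟩
      have h1 : addOrderOf z ∣ n := by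
        rw [addOrderOf_dvd_iff_nsmul_eq_zero, nsmul_eq_mul]
        have h2 : (n : ZMod m) = (n' : ZMod m) * (q : ZMod m) := by
          rw [← Nat.cast_mul, mul_comm n' q, ← hqn]
        rw [h2, mul_assoc, hz, hnz0]
      have h2 : n' ∣ addOrderOf z := by
        rw [← ho1, ← hz, ← nsmul_eq_mul]
        exact addOrderOf_smul_dvd q
      obtain ⟨N, hN⟩ := h2
      have h3 : N ∣ l ^ (a + 1) := by
        rw [hN, hqn, mul_comm n' N] at h1
        exact Nat.dvd_of_mul_dvd_mul_right (Nat.pos_of_ne_zero hn'0) h1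
      obtain ⟨j, hj, rfl⟩ := (Nat.dvd_prime_pow hl).1 h3
      have h4 : j ≤ a := by
        rcases Nat.lt_or_ge j (a + 1) with h | h
        · omega
        · exfalso
          apply ho
          have : j = a + 1 := by omega
          rw [hN, this, hqn, mul_comm]
      have h5 : (n' : ZMod m) * (((l ^ a : ℕ) : ZMod m) * z) = 0 := by
        have h6 : addOrderOf z ∣ n' * l ^ a := by
          rw [hN]
          exact Nat.mul_dvd_mul_left n' (pow_dvd_pow l h4)
        rw [addOrderOf_dvd_iff_nsmul_eq_zero, nsmul_eq_mul] at h6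
        push_cast at h6 ⊢
        linear_combination h6
      rw [← hlam' _ h5, ← hz, hlq]
      push_cast
      ring
    · intro hz
      have h1 : (q : ZMod m) * z = (q : ZMod m) * z0 := by
        have h2 := hlam' _ hnz0
        rw [← hz] at h2
        rw [← h2, hlq]
        push_cast
        ring
      refine ⟨h1, ?_⟩
      intro ho
      have h3 : ((n' * l ^ a : ℕ) : ZMod m) * z = 0 := by
        push_cast at hz ⊢
        linear_combination (n' : ZMod m) * hz + (lam : ZMod m) * hnz0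
      rw [← nsmul_eq_mul, ← addOrderOf_dvd_iff_nsmul_eq_zero, ho, hqn, mul_comm n' (l ^ a)] at h3
      have h4 := Nat.dvd_of_mul_dvd_mul_right (Nat.pos_of_ne_zero hn'0) h3
      have h5 := Nat.le_of_dvd (pow_pos hl.pos a) h4
      rw [hql] at h5
      have h6 := hl.two_le
      have h7 : 0 < l ^ a := pow_pos hl.pos a
      nlinarith
  have hsplit := Finset.sum_filter_add_sum_filter_not (fib m q ((q : ZMod m) * z0))
    (fun z => addOrderOf z = n) D.f
  rw [hX2, dist_gen D q hqm z0, dist_gen D (l ^ a) hqlm z1] at hsplit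
  -- the sum over the coset
  have hcoset : ∑ᶠ k : Kl n l, D.f (emb m n (((k : (ZMod n)ˣ) * w : (ZMod n)ˣ) : ZMod n)) =
      ∑ z ∈ (fib m q ((q : ZMod m) * z0)).filter (fun z => addOrderOf z = n), D.f z := by
    rw [finsum_eq_sum_of_fintype]
    refine Finset.sum_bij (fun k _ => emb m n (((k : (ZMod n)ˣ) * w : (ZMod n)ˣ) : ZMod n))
      ?_ ?_ ?_ ?_
    · intro k _
      rw [mem_filter, mem_fib]
      refine ⟨?_, (exists_emb hn _).2 ⟨_, rfl⟩⟩
      rw [hz0, mul_emb_eq_iff hn hqn]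
      have hk := k.2
      change ZMod.unitsMap (Nat.ordCompl_dvd n l) (k : (ZMod n)ˣ) = 1 at hk
      have h1 : ZMod.unitsMap (Nat.ordCompl_dvd n l) ((k : (ZMod n)ˣ) * w) =
          ZMod.unitsMap (Nat.ordCompl_dvd n l) w := by
        rw [map_mul, hk, one_mul]
      have h2 := congrArg (fun u : (ZMod n')ˣ => (u : ZMod n')) h1
      exact h2
    · intro k _ k' _ h
      have h1 := emb_inj hn h
      have h2 := Units.val_injective h1
      exact Subtype.ext (mul_right_cancel h2)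
    · intro z hz
      rw [mem_filter, mem_fib] at hz
      obtain ⟨u, hu'⟩ := (exists_emb hn z).1 hz.2
      have h1 := hz.1
      rw [hu', hz0, mul_emb_eq_iff hn hqn] at h1
      have h2 : u * w⁻¹ ∈ Kl n l := by
        change ZMod.unitsMap (Nat.ordCompl_dvd n l) (u * (w : (ZMod n)ˣ)⁻¹) = 1
        rw [map_mul, map_inv, mul_inv_eq_one]
        ext
        exact h1
      refine ⟨⟨u * w⁻¹, h2⟩, mem_univ _, ?_⟩
      rw [hu']
      congr 1
      simp
    · intro k _
      rfl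
  rw [hcoset, eq_sub_of_add_eq hsplit]
  exact sub_mem (hmem _ ho1) (hmem _ ho2)

/-- the lower terms are killed -/
theorem Mixed_lower (ls : List ℕ) (L : Set ℕ) (hL : ∀ n' ∈ L, ∃ l ∈ ls, ¬ l ∣ n')
    (κs : List (ZMod m)ˣ)
    (hκ : ∀ l ∈ ls, ∃ κ ∈ κs, ∀ z : ZMod m, ¬ l ∣ addOrderOf z → (κ : ZMod m) * z = z)
    {b : A} (hb : b ∈ D.lev L) : difs κs (fun t => D.W t b) = 0 := by
  induction hb using AddSubgroup.closure_induction with
  | mem x hx =>
    obtain ⟨z, hz, rfl⟩ := hx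
    obtain ⟨l, hl, hlz⟩ := hL _ hz
    obtain ⟨κ, hκ1, hκ2⟩ := hκ l hl
    apply Mixed_difs_kill hκ1
    funext t
    simp only [dif, D.wf, Pi.zero_apply]
    have : ((κ * t : (ZMod m)ˣ) : ZMod m) * z = (t : ZMod m) * z := by
      rw [Units.val_mul, mul_comm (κ : ZMod m), mul_assoc, hκ2 z hlz]
    rw [this, sub_self]
  | zero =>
    have : (fun t : (ZMod m)ˣ => D.W t (0 : A)) = 0 := by
      funext t; simp
    rw [this, Mixed_difs_zero]
  | add x y _ _ hx hy =>
    have : (fun t : (ZMod m)ˣ => D.W t (x + y)) =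
        (fun t => D.W t x) + (fun t => D.W t y) := by
      funext t; simp
    rw [this, Mixed_difs_add, hx, hy, add_zero]
  | neg x _ hx =>
    have : (fun t : (ZMod m)ˣ => D.W t (-x)) = -(fun t => D.W t x) := by
      funext t; simp
    rw [this, Mixed_difs_neg, hx, neg_zero]

/-- Module M4b: the mixed differences vanish. -/
theorem mixed {n : ℕ} [NeZero n] (hn : n ∣ m) (hu : n.Coprime (m / n)) (ls : List ℕ)
    (hlp : ∀ l ∈ ls, l.Prime ∧ l ∣ n) (hls : ∀ l : ℕ, l.Prime → l ∣ n → l ∈ ls) (L : Set ℕ)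
    (hL : ∀ n' ∈ L, ∃ l ∈ ls, ¬ l ∣ n') (N : (ZMod n)ˣ → ℤ) (b : A) (hb : b ∈ D.lev L)
    (hW : ∀ t : (ZMod m)ˣ, D.W t (∑ w : (ZMod n)ˣ, N w • D.f (emb m n w) + b) = 0)
    (ks : List (ZMod n)ˣ) (hks : List.Forall₂ (fun l k => k ∈ Kl n l) ls ks)
    (g : (ZMod n)ˣ) : difs ks (fun g => N g - N (-1 * g)) g = 0 := by
  have hm0 : 0 < m := Nat.pos_of_ne_zero (NeZero.ne m)
  have hn0 : 0 < n := Nat.pos_of_ne_zero (NeZero.ne n)
  have hq : 0 < m / n := Nat.div_pos (Nat.le_of_dvd hm0 hn) hn0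
  by_cases h1 : n = 1
  · subst h1
    have e1 : (fun g : (ZMod 1)ˣ => N g - N (-1 * g)) = 0 := by
      funext g
      have : -1 * g = g := Subsingleton.elim _ _
      rw [this, sub_self]; rfl
    rw [e1, Mixed_difs_zero]; rfl
  -- the sawtooth sums
  set c : (ZMod n)ˣ → ℤ := fun u => 2 * ((u : ZMod n).val : ℤ) - n with hc
  have hval : ∀ t : (ZMod m)ˣ, D.W t (∑ w : (ZMod n)ˣ, N w • D.f (emb m n w)) =
      ((m / n : ℕ) : ℤ) * ∑ w, N w * c (ZMod.unitsMap hn t * w) := by
    intro t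
    rw [map_sum, Finset.mul_sum]
    apply Finset.sum_congr rfl
    intro w _
    rw [map_zsmul, D.wf, Mixed_mul_emb hn, ← Units.val_mul, Mixed_sw_emb hn h1, smul_eq_mul, hc]
    ring
  -- the lists of inverses
  have key : ∀ ks : List (ZMod n)ˣ, List.Forall₂ (fun l k => k ∈ Kl n l) ls ks →
      ∀ s, ∑ w, difs (ks.map fun k => k⁻¹) N w * c (s * w) = 0 := by
    intro ks hks s
    obtain ⟨κs, h2, h3⟩ := Mixed_lift_list hn hu ls hlp ks hks
    obtain ⟨t, rfl⟩ := ZMod.unitsMap_surjective hn s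
    have e1 := Mixed_lower D ls L hL κs h3 hb
    have e2 : (fun t : (ZMod m)ˣ => D.W t b) =
        -(fun t => ((m / n : ℕ) : ℤ) * ∑ w, N w * c (ZMod.unitsMap hn t * w)) := by
      funext t
      have := hW t
      rw [map_add, hval] at this
      simp only [Pi.neg_apply]
      linear_combination this
    rw [e2, Mixed_difs_neg, neg_eq_zero,
      Mixed_difs_comp (ZMod.unitsMap hn) κs
        (fun s => ((m / n : ℕ) : ℤ) * ∑ w, N w * c (s * w)), h2] at e1
    have e3 : (fun s : (ZMod n)ˣ => ((m / n : ℕ) : ℤ) * ∑ w, N w * c (s * w)) =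
        fun s => ∑ w, (((m / n : ℕ) : ℤ) * N w) * c (s * w) := by
      funext s
      rw [Finset.mul_sum]
      exact Finset.sum_congr rfl fun w _ => by ring
    rw [e3, Mixed_difs_conv] at e1
    have e4 := congrFun e1 t
    simp only [Pi.zero_apply] at e4
    have e5 : ∀ (ks : List (ZMod n)ˣ), difs ks (fun w => ((m / n : ℕ) : ℤ) * N w) =
        fun w => ((m / n : ℕ) : ℤ) * difs ks N w := by
      intro ks
      induction ks with
      | nil => rfl
      | cons k ks ih =>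
        rw [Mixed_difs_cons, ih, Mixed_difs_cons]
        funext w
        simp only [dif]
        ring
    rw [e5] at e4
    simp only [mul_assoc] at e4
    rw [← Finset.mul_sum] at e4
    rcases mul_eq_zero.mp e4 with h | h
    · exact absurd h (by exact_mod_cast hq.ne')
    · exact h
  -- the odd part vanishes, for inverses
  have key2 : ∀ ks : List (ZMod n)ˣ, List.Forall₂ (fun l k => k ∈ Kl n l) ls ks →
      ∀ u, dif (-1 : (ZMod n)ˣ) (difs (ks.map fun k => k⁻¹) N) u = 0 := by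
    intro ks hks
    set β₀ := difs (ks.map fun k => k⁻¹) N with hβ₀
    apply saw_inj_n n
    · intro u
      simp only [dif]
      rw [show (-1 : (ZMod n)ˣ) * -u = u by simp, show (-1 : (ZMod n)ˣ) * u = -u by simp]
      ring
    · intro t
      have e1 := key ks hks t
      have e2 := key ks hks (-t)
      have e3 : ∑ w, β₀ (-1 * w) * c (t * w) = ∑ w, β₀ w * c (-t * w) := by
        rw [← Equiv.sum_comp (Equiv.neg (ZMod n)ˣ)]
        apply Finset.sum_congr rfl
        intro w _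
        rw [Equiv.neg_apply, show (-1 : (ZMod n)ˣ) * -w = w by simp, mul_neg, neg_mul]
      have e4 : ∀ u, dif (-1 : (ZMod n)ˣ) β₀ u *
          (2 * (((t * u : (ZMod n)ˣ) : ZMod n).val : ℤ) - n) =
          β₀ u * c (t * u) - β₀ (-1 * u) * c (t * u) := by
        intro u
        simp only [dif, hc]
        ring
      rw [Finset.sum_congr rfl fun u _ => e4 u, Finset.sum_sub_distrib, e1, e3, e2, sub_zero]
    · intro l hl hln u
      -- a factor of the list
      obtain ⟨k, hk, hkl⟩ : ∃ k ∈ ks.map fun k => k⁻¹, k ∈ Kl n l := by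
        obtain ⟨k, hk, hkl⟩ := Mixed_forall_mem hks (hls l hl hln)
        exact ⟨k⁻¹, List.mem_map.mpr ⟨k, hk, rfl⟩, (Kl n l).inv_mem hkl⟩
      obtain ⟨ks', hks'⟩ := Mixed_difs_mem hk
      have e1 : dif (-1 : (ZMod n)ˣ) β₀ = dif k (dif (-1) (difs ks' N)) := by
        rw [hβ₀, hks' N, Mixed_dif_comm]
      rw [e1]
      exact Mixed_coset_sum ⟨k, hkl⟩ _ u
  have hks' : List.Forall₂ (fun l k => k ∈ Kl n l) ls (ks.map fun k => k⁻¹) := by
    rw [List.forall₂_map_right_iff]
    refine hks.imp ?_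
    intro l k hk
    exact (Kl n l).inv_mem hk
  have e1 := key2 _ hks' g
  have e2 : (ks.map fun k => k⁻¹).map (fun k => k⁻¹) = ks := by
    rw [List.map_map]
    simp
  rw [e2, ← Mixed_difs_dif] at e1
  exact e1

theorem even_sum {n : ℕ} [NeZero n] (hn : n ∣ m) (h3 : 3 ≤ n) (E : (ZMod n)ˣ → ℤ)
    (hE : ∀ g, E (-1 * g) = E g) : ∑ w : (ZMod n)ˣ, E w • D.f (emb m n w) = 0 := by
  refine Finset.sum_involution (fun w _ => -1 * w) ?_ ?_ ?_ ?_
  · intro w _
    rw [hE, emb_neg hn, D.odd, smul_neg, add_neg_cancel]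
  · intro w _ _ h
    have h1 : (-1 : (ZMod n)ˣ) = 1 := mul_eq_right.1 h
    have h2 : ((2 : ℕ) : ZMod n) = 0 := by
      have h4 := congrArg (fun u : (ZMod n)ˣ => (u : ZMod n)) h1
      simp only [Units.val_neg, Units.val_one] at h4
      push_cast
      linear_combination -h4
    rw [ZMod.natCast_eq_zero_iff] at h2
    have := Nat.le_of_dvd (by norm_num) h2
    omega
  · intro w _
    exact mem_univ _
  · intro w _
    rw [← mul_assoc]
    simp

open Classical in
theorem inv_sum_mem {n : ℕ} [NeZero n] (hn : n ∣ m) (hu : n.Coprime (m / n)) (l : ℕ)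
    (hl : l.Prime) (hln : l ∣ n) (L : Set ℕ) (hL : ordCompl[l] n ∈ L ∨ ordCompl[l] n = 1)
    (N : (ZMod n)ˣ → ℤ) (hN : ∀ k ∈ Kl n l, ∀ g, N (k * g) = N g) :
    ∑ w : (ZMod n)ˣ, N w • D.f (emb m n w) ∈ D.lev L := by
  rw [← Finset.sum_fiberwise univ (fun u : (ZMod n)ˣ => (u : (ZMod n)ˣ ⧸ Kl n l))]
  refine sum_mem fun y _ => ?_
  have h1 : ∀ w ∈ univ.filter (fun u : (ZMod n)ˣ => (u : (ZMod n)ˣ ⧸ Kl n l) = y),
      w * y.out⁻¹ ∈ Kl n l := by
    intro w hw
    rw [mem_filter] at hw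
    have h2 : ((w : (ZMod n)ˣ) : (ZMod n)ˣ ⧸ Kl n l) = ((y.out : (ZMod n)ˣ) : _ ⧸ Kl n l) := by
      rw [hw.2, QuotientGroup.out_eq']
    have h3 := QuotientGroup.eq.1 h2.symm
    rwa [mul_comm] at h3
  have h2 : ∑ w ∈ univ.filter (fun u : (ZMod n)ˣ => (u : (ZMod n)ˣ ⧸ Kl n l) = y),
      N w • D.f (emb m n w) = N y.out •
        ∑ᶠ k : Kl n l, D.f (emb m n (((k : (ZMod n)ˣ) * y.out : (ZMod n)ˣ) : ZMod n)) := by
    rw [finsum_eq_sum_of_fintype, smul_sum]
    symm
    refine Finset.sum_bij (fun k _ => (k : (ZMod n)ˣ) * y.out) ?_ ?_ ?_ ?_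
    · intro k _
      rw [mem_filter]
      refine ⟨mem_univ _, ?_⟩
      have h5 : (((k : (ZMod n)ˣ)) : (ZMod n)ˣ ⧸ Kl n l) = 1 := (QuotientGroup.eq_one_iff _).2 k.2
      have h6 : (((k : (ZMod n)ˣ) * y.out : (ZMod n)ˣ) : (ZMod n)ˣ ⧸ Kl n l) =
          ((k : (ZMod n)ˣ) : (ZMod n)ˣ ⧸ Kl n l) * ((y.out : (ZMod n)ˣ) : (ZMod n)ˣ ⧸ Kl n l) := rfl
      rw [h6, h5, QuotientGroup.out_eq']
      exact one_mul y
    · intro k _ k' _ h
      exact Subtype.ext (mul_right_cancel h)
    · intro w hw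
      exact ⟨⟨w * y.out⁻¹, h1 w hw⟩, mem_univ _, by simp⟩
    · intro k _
      rw [hN k k.2]
  rw [h2]
  exact AddSubgroup.zsmul_mem _ (coset_sum_mem D hn hu l hl hln L hL _) _

end FSpart

section FFpart

open Pool.Agent.FS Pool.Agent.FF

variable {m : ℕ} [NeZero m] {A : Type} [AddCommGroup A] (D : Dat m A)

theorem dec_mem {n : ℕ} [NeZero n] (hn : n ∣ m) (hu : n.Coprime (m / n)) (ls : List ℕ)
    (hp : ∀ l ∈ ls, l.Prime ∧ l ∣ n) (L : Set ℕ) (hL : ∀ l ∈ ls, ordCompl[l] n ∈ L)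
    (R : (ZMod n)ˣ → ℤ) (hR : R ∈ Dec (Kl n) [] ls) :
    ∑ w : (ZMod n)ˣ, R w • D.f (emb m n w) ∈ D.lev L := by
  unfold Dec at hR
  induction hR using AddSubgroup.closure_induction with
  | mem F hF =>
    obtain ⟨l, hl, hF⟩ := hF
    exact inv_sum_mem D hn hu l (hp l hl).1 (hp l hl).2 L (Or.inl (hL l hl)) F
      (fun k hk g => hF l (List.mem_cons_self) k hk g)
  | zero =>
    simp only [Pi.zero_apply, zero_smul, Finset.sum_const_zero]
    exact zero_mem _
  | add F G _ _ h1 h2 =>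
    simp only [Pi.add_apply, add_smul, Finset.sum_add_distrib]
    exact add_mem h1 h2
  | neg F _ h1 =>
    simp only [Pi.neg_apply, neg_smul, Finset.sum_neg_distrib]
    exact neg_mem h1

private theorem T4_three_le {l n : ℕ} (hn0 : n ≠ 0) (hl : l.Prime) (h : hb l ∣ n) : 3 ≤ n := by
  have h1 : 3 ≤ hb l := by
    unfold hb
    split_ifs with h2
    · norm_num
    · have := hl.two_le
      omega
  exact h1.trans (Nat.le_of_dvd (Nat.pos_of_ne_zero hn0) h)

private theorem T4_dvd_hb (l : ℕ) : l ∣ hb l := by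
  unfold hb
  split_ifs with h2
  · rw [h2]; norm_num
  · exact dvd_rfl

theorem T4 {n : ℕ} [NeZero n] (hn : n ∣ m) (hu : n.Coprime (m / n)) (ls : List ℕ)
    (hnd : ls.Nodup) (hlen : Even ls.length) (hne : ls ≠ []) (hp : ∀ l ∈ ls, l.Prime ∧ hb l ∣ n)
    (hall : ∀ l : ℕ, l.Prime → l ∣ n → l ∈ ls) (L : Set ℕ) (hL : ∀ n' ∈ L, ∃ l ∈ ls, ¬ l ∣ n')
    (hLo : ∀ l ∈ ls, ordCompl[l] n ∈ L) (κ : ℕ → (ZMod n)ˣ →* (ZMod n)ˣ) (hκ : IsProj n κ ls)
    (N : (ZMod n)ˣ → ℤ) (b : A) (hb : b ∈ D.lev L)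
    (hW : ∀ t : (ZMod m)ˣ, D.W t (∑ w : (ZMod n)ˣ, N w • D.f (emb m n w) + b) = 0)
    (hpar : ∃ g, Even (oss (ls.map fun l => κ l (-1)) N g)) :
    ∑ w : (ZMod n)ˣ, N w • D.f (emb m n w) ∈ D.lev L := by
  have hp1 : ∀ l ∈ ls, l.Prime := fun l hl => (hp l hl).1
  have hp2 : ∀ l ∈ ls, l.Prime ∧ l ∣ n := fun l hl => ⟨hp1 l hl, (T4_dvd_hb l).trans (hp l hl).2⟩
  have hP := proj_dec n ls hnd hp1 hall κ hκ
  have hH := half_sys n ls hp
  obtain ⟨R, hR, E, hE, hNE⟩ := comb_even hP hH hlen N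
    (fun ks hks g => mixed D hn hu ls hp2 hall L hL N b hb hW ks hks g) hpar
  obtain ⟨l, hl⟩ := List.exists_mem_of_ne_nil ls hne
  have h3 : 3 ≤ n := T4_three_le (NeZero.ne n) (hp l hl).1 (hp l hl).2
  have h4 : ∑ w : (ZMod n)ˣ, N w • D.f (emb m n w) =
      ∑ w : (ZMod n)ˣ, R w • D.f (emb m n w) + ∑ w : (ZMod n)ˣ, E w • D.f (emb m n w) := by
    rw [← Finset.sum_add_distrib]
    exact Finset.sum_congr rfl fun w _ => by rw [← add_smul, ← hNE]
  rw [h4, even_sum D hn h3 E hE, add_zero]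
  exact dec_mem D hn hu ls hp2 L hLo R hR

end FFpart

section FQpart

open Pool.Agent.FS Pool.Agent.FF Pool.Agent.FQ

variable {m : ℕ} [NeZero m] {A : Type} [AddCommGroup A] (D : Dat m A)

theorem T_odd {n : ℕ} [NeZero n] (hn : n ∣ m) (hu : n.Coprime (m / n)) (ls : List ℕ)
    (hnd : ls.Nodup) (hlen : Odd ls.length) (hp : ∀ l ∈ ls, l.Prime ∧ hb l ∣ n)
    (hall : ∀ l : ℕ, l.Prime → l ∣ n → l ∈ ls) (L : Set ℕ) (hL : ∀ n' ∈ L, ∃ l ∈ ls, ¬ l ∣ n')
    (hLo : ∀ l ∈ ls, ordCompl[l] n ∈ L)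
    (N : (ZMod n)ˣ → ℤ) (b : A) (hb : b ∈ D.lev L)
    (hW : ∀ t : (ZMod m)ˣ, D.W t (∑ w : (ZMod n)ˣ, N w • D.f (emb m n w) + b) = 0) :
    ∑ w : (ZMod n)ˣ, N w • D.f (emb m n w) ∈ D.lev L := by
  have hdvhb : ∀ l : ℕ, l ∣ Pool.Agent.FS.hb l := by
    intro l
    unfold Pool.Agent.FS.hb
    split_ifs with h2
    · rw [h2]; norm_num
    · exact dvd_rfl
  have hp1 : ∀ l ∈ ls, l.Prime := fun l hl => (hp l hl).1
  have hp2 : ∀ l ∈ ls, l.Prime ∧ l ∣ n := fun l hl => ⟨hp1 l hl, (hdvhb l).trans (hp l hl).2⟩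
  obtain ⟨κ, hκ⟩ := exists_proj n ls hp1
  have hP := proj_dec n ls hnd hp1 hall κ hκ
  have hH := half_sys n ls hp
  obtain ⟨R, hR, E, hE, hNE⟩ := comb_odd hP hH hlen N
    (fun ks hks g => mixed D hn hu ls hp2 hall L hL N b hb hW ks hks g)
  have h3 : 3 ≤ n := by
    obtain ⟨l, hl⟩ : ∃ l, l ∈ ls := List.exists_mem_of_ne_nil ls (by
      rintro rfl
      simp at hlen)
    have h1 : 3 ≤ Pool.Agent.FS.hb l := by
      unfold Pool.Agent.FS.hb
      split_ifs with h2
      · norm_num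
      · have := (hp1 l hl).two_le
        omega
    exact h1.trans (Nat.le_of_dvd (Nat.pos_of_ne_zero (NeZero.ne n)) (hp l hl).2)
  have h4 : ∑ w : (ZMod n)ˣ, N w • D.f (emb m n w) =
      ∑ w : (ZMod n)ˣ, R w • D.f (emb m n w) + ∑ w : (ZMod n)ˣ, E w • D.f (emb m n w) := by
    rw [← Finset.sum_add_distrib]
    exact Finset.sum_congr rfl fun w _ => by rw [← add_smul, ← hNE]
  rw [h4, even_sum D hn h3 E hE, add_zero]
  exact dec_mem D hn hu ls hp2 L hLo R hR

variable {Al : Finset ℕ → Prop} (hAl : ∀ T, Al T → ∀ T' ⊆ T, Al T')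

include hAl

/-- elements of odd order or of order divisible by four -/
theorem f_mem_of_orderA (y : ZMod m) (h2 : ¬ 2 ∣ addOrderOf y ∨ 4 ∣ addOrderOf y)
    (hA : Al (addOrderOf y).primeFactors) : D.f y ∈ D.lev (levF m (famA Al m)) := by
  have hm0 : m ≠ 0 := NeZero.ne m
  by_cases hy : y = 0
  · rw [hy, D.zero]
    exact zero_mem _
  have hem : addOrderOf y ∣ m := by
    have := addOrderOf_dvd_card (x := y)
    rwa [ZMod.card] at this
  have h := f_mem_lev D y hy
  refine lev_mono D ?_ h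
  rw [Set.singleton_subset_iff]
  refine ⟨(addOrderOf y).primeFactors, mem_famA.2 ⟨?_, hA⟩, rfl⟩
  intro l hl
  have hlp := Nat.prime_of_mem_primeFactors hl
  have hld := Nat.dvd_of_mem_primeFactors hl
  refine mem_prs hlp (Pool.Agent.FS.qq_ge hlp ?_)
  unfold hb
  split_ifs with hl2
  · rcases h2 with h2 | h2
    · exact absurd (hl2 ▸ hld) h2
    · exact h2.trans hem
  · exact hld.trans hem

theorem f_mem_of_mulA (e : ℕ) (he : ¬ 2 ∣ e) (hA : Al e.primeFactors) (y : ZMod m)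
    (hy : (e : ZMod m) * y = 0) : D.f y ∈ D.lev (levF m (famA Al m)) := by
  have he0 : e ≠ 0 := by rintro rfl; exact he (dvd_zero 2)
  have h1 : addOrderOf y ∣ e := by
    rw [addOrderOf_dvd_iff_nsmul_eq_zero, nsmul_eq_mul]
    exact hy
  refine f_mem_of_orderA D hAl y (Or.inl fun h => he (h.trans h1)) (hAl _ hA _ ?_)
  exact Nat.primeFactors_mono h1 he0

theorem f_goodA (hm : 2 ∣ m) (x : ZMod m) (hx : GoodA Al (addOrderOf x)) :
    D.f x ∈ D.lev (levF m (famA Al m)) := by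
  have hm0 : m ≠ 0 := NeZero.ne m
  have hpos : 0 < addOrderOf x := addOrderOf_pos x
  obtain ⟨e', he', hA⟩ := hx
  have hsub : ∀ e₁ : ℕ, ¬ 2 ∣ e₁ → e₁ ∣ addOrderOf x → e₁.primeFactors ⊆ e'.primeFactors := by
    intro e₁ h2 hd l hl
    have hlp := Nat.prime_of_mem_primeFactors hl
    have hld := Nat.dvd_of_mem_primeFactors hl
    have hl2 : l ≠ 2 := by rintro rfl; exact h2 hld
    rcases he' with he' | he'
    · rw [he'] at hd hpos
      exact Nat.mem_primeFactors.2 ⟨hlp, hld.trans hd, hpos.ne'⟩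
    · rw [he'] at hd hpos
      have h3 : l ∣ e' := by
        rcases hlp.dvd_mul.1 (hld.trans hd) with h | h
        · exact absurd ((Nat.prime_dvd_prime_iff_eq hlp Nat.prime_two).1 h) hl2
        · exact h
      exact Nat.mem_primeFactors.2 ⟨hlp, h3, by rintro rfl; simp at hpos⟩
  by_cases h2 : 2 ∣ addOrderOf x
  · by_cases h4 : 4 ∣ addOrderOf x
    · refine f_mem_of_orderA D hAl x (Or.inr h4) (hAl _ hA _ ?_)
      rcases he' with he' | he'
      · rw [he']
      · rw [he'] at h4 ⊢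
        have h5 : 2 ∣ e' := by omega
        have he0 : e' ≠ 0 := by rintro rfl; rw [he'] at hpos; simp at hpos
        rw [Nat.primeFactors_mul (by norm_num) he0, Nat.prime_two.primeFactors]
        refine union_subset ?_ subset_rfl
        rw [singleton_subset_iff]
        exact Nat.mem_primeFactors.2 ⟨Nat.prime_two, h5, he0⟩
    · -- order `2 e₁` with `e₁` odd
      obtain ⟨e₁, he₁⟩ := h2
      have hodd : ¬ 2 ∣ e₁ := fun h => h4 (by rw [he₁]; obtain ⟨c, rfl⟩ := h; exact ⟨c, by ring⟩)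
      have hA1 : Al e₁.primeFactors :=
        hAl _ hA _ (hsub e₁ hodd (he₁ ▸ Dvd.intro_left 2 rfl))
      set h := ((m / 2 : ℕ) : ZMod m) with hh
      have hh2 : h + h = 0 := by
        have := Pool.Agent.Helper9.Fermat.half_neg (m := m) hm
        rw [neg_eq_iff_add_eq_zero] at this
        exact this
      -- `e₁ x = m / 2`
      have h1 : (e₁ : ZMod m) * x = h := by
        have h3 : ((2 : ℕ) : ZMod m) * ((e₁ : ZMod m) * x) = 0 := by
          rw [← mul_assoc, ← Nat.cast_mul, ← he₁, ← nsmul_eq_mul]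
          exact addOrderOf_nsmul_eq_zero x
        have h4' : (e₁ : ZMod m) * x ≠ 0 := by
          intro h5
          rw [← nsmul_eq_mul, ← addOrderOf_dvd_iff_nsmul_eq_zero, he₁] at h5
          have he1 : 0 < e₁ := Nat.pos_of_ne_zero (by rintro rfl; exact hodd (dvd_zero 2))
          have := Nat.le_of_dvd he1 h5
          omega
        have h6 : (e₁ : ZMod m) * x ∈ Pool.Agent.Helper9.Fermat.fib m 2 (((2 : ℕ) : ZMod m) * 0) := by
          rw [Pool.Agent.Helper9.Fermat.mem_fib, h3, mul_zero]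
        have h7 : Pool.Agent.Helper9.Fermat.fib m 2 (((2 : ℕ) : ZMod m) * 0) = {0, h} := by
          symm
          refine Finset.eq_of_subset_of_card_le ?_ ?_
          · intro z hz
            rw [mem_insert, mem_singleton] at hz
            rw [Pool.Agent.Helper9.Fermat.mem_fib]
            rcases hz with rfl | rfl
            · rfl
            · push_cast
              linear_combination hh2
          · rw [Pool.Agent.Helper9.Fermat.fib_card (by norm_num) hm,
              card_pair (Pool.Agent.Helper9.Fermat.half_ne hm).symm]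
        rw [h7, mem_insert, mem_singleton] at h6
        exact h6.resolve_left h4'
      obtain ⟨c, hc⟩ : ∃ c, e₁ = 2 * c + 1 := ⟨e₁ / 2, by omega⟩
      have h5 : (e₁ : ZMod m) * (x + h) = 0 := by
        have h6 : (e₁ : ZMod m) * h = h := by
          rw [hc]
          push_cast
          linear_combination (c : ZMod m) * hh2
        rw [mul_add, h1, h6, hh2]
      have hx' : x = (x + h) + h := by rw [add_assoc, hh2, add_zero]
      rw [hx', f_half D hm (x + h)]
      refine sub_mem (f_mem_of_mulA D hAl e₁ hodd hA1 _ ?_) (f_mem_of_mulA D hAl e₁ hodd hA1 _ h5)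
      linear_combination 2 * h5
  · refine f_mem_of_orderA D hAl x (Or.inl h2) (hAl _ hA _ (hsub _ h2 dvd_rfl))

end FQpart

end Pool.Agent.FT
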