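import Pool.Agent.FT.Beta

/-!
# FT-UInv: invariance under the units

By auxiliary primes (one for every unit modulo the odd part of `m`, with even order of a power of
`p`) the distribution modulo two of `exists_beta` is invariant under the units on the elements of
odd order.
-/

set_option autoImplicit false

namespace Pool.Agent.FT

open Finset
open Pool.Agent.Helper9.Fermat (fib mem_fib)
open Pool.Agent.FS (IsHodge emb)

instance ordCompl_ne (m : ℕ) [NeZero m] : NeZero (ordCompl[2] m) :=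
  ⟨(Nat.ordCompl_pos 2 (NeZero.ne m)).ne'⟩

/-- the auxiliary primes -/
private theorem uinv_prime (p : ℕ) (hp : p.Prime) (m' : ℕ) [NeZero m'] (h2 : Nat.Coprime 2 m')
    (f₀ : ℕ) (hf₀ : f₀ ≠ 0) (g : (ZMod m')ˣ) (B : ℕ) :
    ∃ k : ℕ, k.Prime ∧ B < k ∧ (∃ i : ℕ, (k : ZMod m') ^ i = g) ∧
      2 ∣ orderOf ((p : ZMod k) ^ f₀) := by
  obtain ⟨e, f₁, hf₁, hfe⟩ := Nat.exists_eq_pow_mul_and_not_dvd hf₀ 2 (by norm_num)
  obtain ⟨k, hk, hBk, -, -, hi, h3⟩ := exists_aux 2 p Nat.prime_two hp (e + 1) m' h2 g B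
  refine ⟨k, hk, hBk, hi, ?_⟩
  set n := orderOf ((p : ZMod k) ^ f₀) with hn
  have h4 : orderOf (p : ZMod k) ∣ f₀ * n := by
    rw [orderOf_dvd_iff_pow_eq_one, pow_mul, hn, pow_orderOf_eq_one]
  have h5 : 2 ^ (e + 1) ∣ 2 ^ e * (f₁ * n) := by
    rw [← mul_assoc, ← hfe]
    exact h3.trans h4
  rw [pow_succ] at h5
  have h6 : 2 ∣ f₁ * n := Nat.dvd_of_mul_dvd_mul_left (pow_pos two_pos e) h5
  exact (Nat.prime_two.dvd_mul.1 h6).resolve_left hf₁

/-- the invariance under an auxiliary prime -/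
private theorem uinv_step {m k n : ℕ} [NeZero m] [NeZero n] (hk : k.Prime) (hkm : ¬ k ∣ m)
    (hkn : m * k ∣ n) {p : ℕ} (hnp : n.Coprime p) {B : Type} [AddCommGroup B] (β : ZMod n → B)
    (hβ : ODist n β) (hβ2 : ∀ x, 2 • β x = 0) (hβp : ∀ x, β ((p : ZMod n) * x) = β x) (f₀ : ℕ)
    (hf₀ : (p : ZMod m) ^ f₀ = 1) (h2 : 2 ∣ orderOf ((p : ZMod k) ^ f₀)) (x : ZMod m) :
    β (emb n m ((k : ZMod m) * x)) = β (emb n m x) := by
  have hmk : NeZero (m * k) := ⟨mul_ne_zero (NeZero.ne m) hk.ne_zero⟩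
  have hm : m ∣ m * k := dvd_mul_right m k
  obtain ⟨K, hK⟩ : ∃ K : AddSubgroup B, ∀ b, b ∈ K ↔ 2 • b = 0 :=
    ⟨(nsmulAddMonoidHom (α := B) 2).ker, fun b => AddMonoidHom.mem_ker⟩
  have hr := hβ.restr hkn
  obtain ⟨φ, hφ⟩ : ∃ φ : ZMod (m * k) → K, ∀ z, (φ z : B) = β (emb n (m * k) z) :=
    ⟨fun z => ⟨β (emb n (m * k) z), (hK _).2 (hβ2 _)⟩, fun z => rfl⟩
  have hφd : ODist (m * k) φ := by
    refine ⟨?_, ?_, ?_⟩
    · apply Subtype.ext
      rw [hφ]
      exact hr.zero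
    · intro z
      apply Subtype.ext
      rw [AddSubgroup.coe_neg, hφ, hφ]
      exact hr.odd z
    · intro r hrp hrm y
      apply Subtype.ext
      rw [AddSubgroup.val_finsetSum, hφ, sum_congr rfl fun z _ => hφ z]
      exact hr.dist r hrp hrm y
  have hφp : ∀ z, φ ((p : ZMod (m * k)) * z) = φ z := by
    intro z
    apply Subtype.ext
    rw [hφ, hφ, emb_mul hkn, hβp]
  have hp : IsUnit (p : ZMod (m * k)) := pow_unit_cast hkn hnp
  obtain ⟨F, -, -, -, hF⟩ := step1 hk hkm hp φ hφd hφp f₀ hf₀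
  have h3 := congrArg (fun b : K => (b : B)) (hF x)
  obtain ⟨c, hc⟩ := h2
  have h4 : orderOf ((p : ZMod k) ^ f₀) • F x = 0 := by
    apply Subtype.ext
    have h5 : 2 • ((F x : K) : B) = 0 := (hK _).1 (F x).2
    rw [hc, mul_comm, mul_smul]
    show ((c • (2 • F x) : K) : B) = 0
    rw [AddSubgroup.coe_nsmul, AddSubgroup.coe_nsmul, h5, smul_zero]
  rw [h4, add_zero] at h3
  simp only [hφ] at h3
  rw [emb_emb hm hkn, emb_emb hm hkn] at h3
  exact h3

private theorem uinv_main [Flag] {p : ℕ} (hp : p.Prime) {B : Type} [AddCommGroup B]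
    {f : ∀ m : ℕ, ZMod m → B} (hL : Lim p f) {m : ℕ} [NeZero m] (hmp : m.Coprime p)
    (m' : ℕ) [NeZero m'] (hm'm : m' ∣ m) (h2m' : Nat.Coprime 2 m') :
    ∃ γ : ZMod m' → B, ODist m' γ ∧ (∀ x, 2 • γ x = 0) ∧
      (∀ (u : (ZMod m')ˣ) (x : ZMod m'), γ ((u : ZMod m') * x) = γ x) ∧
      ∃ β : ZMod m → B, (∀ x, Even (addOrderOf x) → β x = 0) ∧
        (∀ y : ZMod m', β (emb m m' y) = γ y) ∧
        ∀ S : Multiset (ZMod m), (0 : ZMod m) ∉ S → Even S.card → S.sum = 0 → TateN p S →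
          (S.map (f m)).sum = (S.map β).sum := by
  have hm0 : m ≠ 0 := NeZero.ne m
  have hpu : IsUnit (p : ZMod m) := pow_unit_cast dvd_rfl hmp
  obtain ⟨f₀, hf₀0, hf₀⟩ : ∃ f₀ : ℕ, f₀ ≠ 0 ∧ (p : ZMod m) ^ f₀ = 1 := by
    obtain ⟨u, hu⟩ := hpu
    refine ⟨orderOf u, (orderOf_pos u).ne', ?_⟩
    rw [← hu, ← Units.val_pow_eq_pow_val, pow_orderOf_eq_one, Units.val_one]
  have hk := fun g : (ZMod m')ˣ => uinv_prime p hp m' h2m' f₀ hf₀0 g (m + p)
  choose k hkp hkB hki hko using hk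
  have hn0 : m * ∏ g, k g ≠ 0 :=
    mul_ne_zero hm0 (prod_ne_zero_iff.2 fun g _ => (hkp g).ne_zero)
  have hnp : (m * ∏ g, k g).Coprime p := by
    refine Nat.Coprime.mul_left hmp (Nat.Coprime.prod_left fun g _ => ?_)
    rw [Nat.coprime_primes (hkp g) hp]
    have := hkB g
    omega
  have hmn : m ∣ m * ∏ g, k g := dvd_mul_right _ _
  have hkn : ∀ g, m * k g ∣ m * ∏ g, k g := fun g =>
    mul_dvd_mul_left m (dvd_prod_of_mem k (mem_univ g))
  generalize (m * ∏ g, k g) = n at *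
  have hnn : NeZero n := ⟨hn0⟩
  obtain ⟨β, hβ, hβ2, hβp, hβe, hβS⟩ := exists_beta hp hL hmn hnp
  have hm'n : m' ∣ n := hm'm.trans hmn
  have hkm : ∀ g, ¬ k g ∣ m := by
    intro g h
    have h1 := Nat.le_of_dvd (Nat.pos_of_ne_zero hm0) h
    have h2 := hkB g
    omega
  have hinv : ∀ g (x : ZMod m), β (emb n m ((k g : ZMod m) * x)) = β (emb n m x) := fun g x =>
    uinv_step (hkp g) (hkm g) (hkn g) hnp β hβ hβ2 hβp f₀ hf₀ (hko g) x
  have hγk : ∀ g (y : ZMod m'), β (emb n m' ((k g : ZMod m') * y)) = β (emb n m' y) := by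
    intro g y
    rw [← emb_emb hm'm hmn, ← emb_emb hm'm hmn, emb_mul hm'm, hinv]
  have hγi : ∀ g (i : ℕ) (y : ZMod m'),
      β (emb n m' ((k g : ZMod m') ^ i * y)) = β (emb n m' y) := by
    intro g i
    induction i with
    | zero => intro y; rw [pow_zero, one_mul]
    | succ i ih => intro y; rw [pow_succ', mul_assoc, hγk, ih]
  refine ⟨fun y => β (emb n m' y), hβ.restr hm'n, fun x => hβ2 _, ?_, fun x => β (emb n m x), ?_,
    ?_, ?_⟩
  · intro u x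
    obtain ⟨i, hi⟩ := hki u
    show β (emb n m' ((u : ZMod m') * x)) = β (emb n m' x)
    rw [← hi]
    exact hγi u i x
  · intro x hx
    refine hβe _ ?_
    have h1 : addOrderOf (emb n m x) = addOrderOf x := by
      have h2 := addOrderOf_injective
        (⟨⟨emb n m, emb_zero hmn⟩, emb_add hmn⟩ : ZMod m →+ ZMod n) (emb_inj hmn) x
      exact h2
    rw [h1]
    exact hx
  · intro y
    show β (emb n m (emb m m' y)) = β (emb n m' y)
    rw [emb_emb hm'm hmn]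
  · intro S h0 hc hs hT
    exact hβS S h0 hc hs hT

theorem exists_uinv [Flag] {p : ℕ} (hp : p.Prime) {B : Type} [AddCommGroup B] {f : ∀ m : ℕ, ZMod m → B}
    (hL : Lim p f) {m : ℕ} [NeZero m] (hmp : m.Coprime p) :
    ∃ γ : ZMod (ordCompl[2] m) → B, ODist (ordCompl[2] m) γ ∧ (∀ x, 2 • γ x = 0) ∧
      (∀ (u : (ZMod (ordCompl[2] m))ˣ) (x : ZMod (ordCompl[2] m)),
        γ ((u : ZMod (ordCompl[2] m)) * x) = γ x) ∧
      ∃ β : ZMod m → B, (∀ x, Even (addOrderOf x) → β x = 0) ∧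
        (∀ y : ZMod (ordCompl[2] m), β (emb m (ordCompl[2] m) y) = γ y) ∧
        ∀ S : Multiset (ZMod m), (0 : ZMod m) ∉ S → Even S.card → S.sum = 0 → TateN p S →
          (S.map (f m)).sum = (S.map β).sum := by
  exact uinv_main hp hL hmp (ordCompl[2] m) (Nat.ordCompl_dvd m 2)
    (Nat.coprime_ordCompl Nat.prime_two (NeZero.ne m))

end Pool.Agent.FT
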