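import Pool.Agent.FT.Defs

/-!
# FT-Up: the inclusions `ℤ/m → ℤ/M`
-/

set_option autoImplicit false

namespace Pool.Agent.FT

open Finset
open Pool.Agent.Helper9.Fermat (fib mem_fib wt)
open Pool.Agent.FS (IsHodge emb sw)

section

variable {m M : ℕ} [NeZero m] [NeZero M] (h : m ∣ M)

include h

theorem emb_val (x : ZMod m) : (emb M m x).val = M / m * x.val := by
  rw [emb, ZMod.val_natCast, Nat.mod_eq_of_lt]
  obtain ⟨c, rfl⟩ := h
  have hm : 0 < m := Nat.pos_of_ne_zero (NeZero.ne m)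
  have hM : 0 < m * c := Nat.pos_of_ne_zero (NeZero.ne _)
  rw [Nat.mul_div_cancel_left c hm, mul_comm m c]
  exact Nat.mul_lt_mul_of_pos_left (ZMod.val_lt x) (Nat.pos_of_mul_pos_left hM)

theorem emb_cast (a : ℕ) : emb M m (a : ZMod m) = ((M / m * a : ℕ) : ZMod M) := by
  obtain ⟨c, rfl⟩ := h
  have hm : 0 < m := Nat.pos_of_ne_zero (NeZero.ne m)
  rw [emb, Nat.mul_div_cancel_left c hm, ZMod.natCast_eq_natCast_iff, ZMod.val_natCast,
    mul_comm m c]
  exact Nat.ModEq.mul_left' c (Nat.mod_modEq a m)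

theorem emb_zero : emb M m (0 : ZMod m) = 0 := by
  have := emb_cast h 0
  simpa using this

theorem emb_add (x y : ZMod m) : emb M m (x + y) = emb M m x + emb M m y := by
  rw [← ZMod.natCast_zmod_val x, ← ZMod.natCast_zmod_val y, ← Nat.cast_add, emb_cast h,
    emb_cast h, emb_cast h, mul_add, Nat.cast_add]

theorem emb_neg (x : ZMod m) : emb M m (-x) = - emb M m x := by
  rw [eq_neg_iff_add_eq_zero, ← emb_add h, neg_add_cancel, emb_zero h]

theorem emb_mul (c : ℕ) (x : ZMod m) : emb M m ((c : ZMod m) * x) = (c : ZMod M) * emb M m x := by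
  rw [← ZMod.natCast_zmod_val x, ← Nat.cast_mul, emb_cast h, emb_cast h, ← Nat.cast_mul]
  congr 1
  ring

theorem emb_inj : Function.Injective (emb M m) := by
  intro x y hxy
  have h1 := emb_val h x
  rw [hxy, emb_val h y] at h1
  have h2 : 0 < M / m := Nat.div_pos (Nat.le_of_dvd (Nat.pos_of_ne_zero (NeZero.ne M)) h)
    (Nat.pos_of_ne_zero (NeZero.ne m))
  exact ZMod.val_injective m (Nat.eq_of_mul_eq_mul_left h2 h1).symm

theorem emb_ne_zero {x : ZMod m} (hx : x ≠ 0) : emb M m x ≠ 0 := fun h0 =>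
  hx (emb_inj h (h0.trans (emb_zero h).symm))

theorem emb_eq_zero_iff {x : ZMod m} : emb M m x = 0 ↔ x = 0 :=
  ⟨fun h0 => by_contra fun hx => emb_ne_zero h hx h0, fun hx => by rw [hx, emb_zero h]⟩

/-- the image consists of the elements killed by `m` -/
theorem exists_emb {y : ZMod M} (hy : (m : ZMod M) * y = 0) : ∃ x : ZMod m, emb M m x = y := by
  have hm : 0 < m := Nat.pos_of_ne_zero (NeZero.ne m)
  rw [← ZMod.natCast_zmod_val y, ← Nat.cast_mul, ZMod.natCast_eq_zero_iff] at hy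
  have hc : M = m * (M / m) := (Nat.mul_div_cancel' h).symm
  have h1 : M / m ∣ y.val := Nat.dvd_of_mul_dvd_mul_left hm (by rw [← hc]; exact hy)
  obtain ⟨a, ha⟩ := h1
  refine ⟨(a : ZMod m), ?_⟩
  rw [emb_cast h, ← ha]
  exact ZMod.natCast_zmod_val y

theorem mul_emb (x : ZMod m) : (m : ZMod M) * emb M m x = 0 := by
  rw [← emb_mul h, ZMod.natCast_self, zero_mul, emb_zero h]

/-- the action of units -/
theorem unit_emb (t : ZMod M) (x : ZMod m) :
    t * emb M m x = emb M m (((t.val : ℕ) : ZMod m) * x) := by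
  rw [emb_mul h, ZMod.natCast_zmod_val]

theorem isUnit_red (t : (ZMod M)ˣ) : IsUnit (((t : ZMod M).val : ℕ) : ZMod m) := by
  rw [ZMod.isUnit_iff_coprime]
  exact Nat.Coprime.coprime_dvd_right h (ZMod.val_coe_unit_coprime t)

theorem sw_emb (x : ZMod m) : sw (emb M m x) = ((M / m : ℕ) : ℤ) * sw x := by
  unfold sw
  by_cases hx : x = 0
  · rw [if_pos hx, if_pos (by rw [hx, emb_zero h]), mul_zero]
  · rw [if_neg hx, if_neg (emb_ne_zero h hx), emb_val h]
    have h1 : ((M / m : ℕ) : ℤ) * m = M := by exact_mod_cast Nat.div_mul_cancel h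
    rw [Nat.cast_mul]
    linear_combination h1

theorem fib_emb {r : ℕ} (hr : r ∣ m) (y : ZMod m) :
    fib M r ((r : ZMod M) * emb M m y) = (fib m r ((r : ZMod m) * y)).image (emb M m) := by
  ext w
  rw [mem_fib, mem_image]
  constructor
  · intro hw
    have h1 : (m : ZMod M) * w = 0 := by
      obtain ⟨s, rfl⟩ := hr
      have h2 : ((r * s : ℕ) : ZMod M) * w = (s : ZMod M) * ((r : ZMod M) * w) := by
        push_cast
        ring
      rw [h2, hw, ← mul_emb h y]
      push_cast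
      ring
    obtain ⟨z, rfl⟩ := exists_emb h h1
    refine ⟨z, ?_, rfl⟩
    rw [mem_fib]
    rw [← emb_mul h, ← emb_mul h] at hw
    exact emb_inj h hw
  · rintro ⟨z, hz, rfl⟩
    rw [mem_fib] at hz
    rw [← emb_mul h, ← emb_mul h, hz]

/-- restriction of odd distributions -/
theorem ODist.restr {B : Type} [AddCommGroup B] {F : ZMod M → B} (hF : ODist M F) :
    ODist m fun x => F (emb M m x) where
  zero := by rw [emb_zero h, hF.zero]
  odd := fun x => by rw [emb_neg h, hF.odd]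
  dist := by
    intro r hr hrm y
    have h1 := hF.dist r hr (hrm.trans h) (emb M m y)
    rw [fib_emb h hrm, sum_image (fun a _ b _ hab => emb_inj h hab)] at h1
    rw [h1, emb_mul h]

end

theorem emb_emb {m d M : ℕ} [NeZero m] [NeZero d] [NeZero M] (h1 : m ∣ d) (h2 : d ∣ M)
    (x : ZMod m) : emb M d (emb d m x) = emb M m x := by
  rw [← ZMod.natCast_zmod_val x, emb_cast h1, emb_cast h2, emb_cast (h1.trans h2), ← mul_assoc]
  have h3 : M / d * (d / m) = M / m := by
    rw [Nat.div_mul_div_comm h2 h1, mul_comm d m]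
    exact Nat.mul_div_mul_right _ _ (Nat.pos_of_ne_zero (NeZero.ne d))
  rw [h3]

end Pool.Agent.FT
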