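import Pool.Agent.FT.CL
import Pool.Agent.FT.BBx
import Pool.Agent.FT.NV

/-!
# FT-Z0: the function on the sets of odd primes, without further generators

The flag may be false: only the pairs of curves are used.
-/

set_option autoImplicit false

namespace Pool.Agent.FT

open Finset
open Pool.Agent.FS (IsHodge emb sw rr hb)
open Pool.Agent.FQ (chiT QS nR PPr)

/-! ### pairs of curves in characteristic zero -/

/-- the decidable conditions for a pair of triples to be a Hodge character -/
def ChkH (n x y z x' y' z' : ℕ) : Prop :=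
  (∀ a ∈ [x, y, z, x', y', z'], ¬ n ∣ a) ∧ n ∣ x + y + z ∧ n ∣ x' + y' + z' ∧
    ∀ t < n, t.Coprime n → 2 * ([x, y, z, x', y', z'].map fun a => (t * a) % n).sum = n * 6

instance (n x y z x' y' z' : ℕ) : Decidable (ChkH n x y z x' y' z') := by
  unfold ChkH
  infer_instance

private theorem z0_val {n : ℕ} [NeZero n] (t : ZMod n) (a : ℕ) :
    (t * (a : ZMod n)).val = (t.val * a) % n := by
  have h2 : t * (a : ZMod n) = ((t.val * a : ℕ) : ZMod n) := by
    push_cast
    rw [ZMod.natCast_zmod_val]
  rw [h2, ZMod.val_natCast]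

private theorem z0_vl {n : ℕ} [NeZero n] {B : Type} [AddCommGroup B] (b : Finset ℕ → B) (a : ℕ) :
    vl b (a : ZMod n) = if Odd (n / n.gcd a) then b (n / n.gcd a).primeFactors else 0 := by
  unfold vl
  rw [ZMod.addOrderOf_coe a (NeZero.ne n)]

theorem curH_list [Flag] {p M : ℕ} (hMp : M.Coprime p) {B : Type} [AddCommGroup B]
    {b : Finset ℕ → B} (hb : BB p M b) {n : ℕ} [NeZero n] (hn : n ∣ M) {x y z x' y' z' : ℕ}
    (h : ChkH n x y z x' y' z') :
    ([x, y, z, x', y', z'].map fun a =>
      if Odd (n / n.gcd a) then b (n / n.gcd a).primeFactors else 0).sum = 0 := by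
  obtain ⟨h3, h4, h5, h6⟩ := h
  have hne : ∀ a ∈ [x, y, z, x', y', z'], (a : ZMod n) ≠ 0 := fun a ha h0 =>
    h3 a ha ((ZMod.natCast_eq_zero_iff a n).1 h0)
  have hH : IsHodge ({(x : ZMod n), (y : ZMod n), (z : ZMod n), (x' : ZMod n), (y' : ZMod n),
      (z' : ZMod n)} : Multiset (ZMod n)) := by
    intro t
    have h7 := h6 (t : ZMod n).val (ZMod.val_lt _) (ZMod.val_coe_unit_coprime t)
    simp only [Multiset.insert_eq_cons, Multiset.map_cons, Multiset.map_singleton,
      Multiset.sum_cons, Multiset.sum_singleton, Multiset.card_cons, Multiset.card_singleton,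
      z0_val]
    simp only [List.map_cons, List.map_nil, List.sum_cons, List.sum_nil, add_zero] at h7
    exact h7
  have hT := hodge_tate (p := p) (Nat.Coprime.coprime_dvd_left hn hMp) hH
  have e1 : (x : ZMod n) + y + z = 0 := by
    have := (ZMod.natCast_eq_zero_iff (x + y + z) n).2 h4
    push_cast at this
    exact this
  have e2 : (x' : ZMod n) + y' + z' = 0 := by
    have := (ZMod.natCast_eq_zero_iff (x' + y' + z') n).2 h5
    push_cast at this
    exact this
  have h8 := hb.alg n hn _ (Alg.curves (x : ZMod n) y z x' y' z' (hne x (by simp))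
    (hne y (by simp)) (hne z (by simp)) (hne x' (by simp)) (hne y' (by simp)) (hne z' (by simp))
    e1 e2 hT) hT
  simp only [Multiset.insert_eq_cons, Multiset.map_cons, Multiset.map_singleton,
    Multiset.sum_cons, Multiset.sum_singleton, z0_vl] at h8
  simp only [List.map_cons, List.map_nil, List.sum_cons, List.sum_nil, add_zero]
  exact h8

theorem z0_even {n a : ℕ} {B : Type} [AddCommGroup B] (b : Finset ℕ → B) (k : ℕ)
    (hk : n / n.gcd a = k) (h : ¬ Odd k) :
    (if Odd (n / n.gcd a) then b (n / n.gcd a).primeFactors else 0) = 0 := by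
  rw [hk, if_neg h]

theorem z0_odd {n a k : ℕ} {B : Type} [AddCommGroup B] (b : Finset ℕ → B)
    {V : Finset ℕ} (hk : n / n.gcd a = k) (ho : Odd k) (hV : k.primeFactors = V) :
    (if Odd (n / n.gcd a) then b (n / n.gcd a).primeFactors else 0) = b V := by
  rw [hk, if_pos ho, hV]

theorem z0_pf {a b : ℕ} (ha : a.Prime) (hb : b.Prime) :
    Nat.primeFactors (a * b) = {a, b} := by
  rw [Nat.primeFactors_mul ha.ne_zero hb.ne_zero, ha.primeFactors, hb.primeFactors]
  rfl

section kills

variable [Flag] {p M : ℕ} (hMp : M.Coprime p) {B : Type} [AddCommGroup B]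
  {b : Finset ℕ → B} (hb : BB p M b)

include hMp hb

theorem b0_three (hM : 12 ∣ M) : b {3} = 0 := by
  have h1 := curH_list hMp hb hM (x := 2) (y := 11) (z := 11) (x' := 1) (y' := 3) (z' := 8)
    (by decide +kernel)
  simp only [List.map_cons, List.map_nil, List.sum_cons, List.sum_nil] at h1
  rw [z0_even b 6 (by decide) (by decide), z0_even b 12 (by decide) (by decide),
    z0_even b 12 (by decide) (by decide), z0_even b 4 (by decide) (by decide),
    z0_odd b (k := 3) (V := {3}) (by decide) (by decide) (Nat.Prime.primeFactors (by norm_num))]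
    at h1
  simpa using h1

theorem b0_five (hM : 20 ∣ M) : b {5} = 0 := by
  have h1 := curH_list hMp hb hM (x := 2) (y := 19) (z := 19) (x' := 1) (y' := 3) (z' := 16)
    (by decide +kernel)
  simp only [List.map_cons, List.map_nil, List.sum_cons, List.sum_nil] at h1
  rw [z0_even b 10 (by decide) (by decide), z0_even b 20 (by decide) (by decide),
    z0_even b 20 (by decide) (by decide), z0_even b 20 (by decide) (by decide),
    z0_odd b (k := 5) (V := {5}) (by decide) (by decide) (Nat.Prime.primeFactors (by norm_num))]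
    at h1
  simpa using h1

theorem b0_seven (hM : 21 ∣ M) : b {7} = b {3, 7} := by
  have h1 := curH_list hMp hb hM (x := 2) (y := 20) (z := 20) (x' := 1) (y' := 3) (z' := 17)
    (by decide +kernel)
  simp only [List.map_cons, List.map_nil, List.sum_cons, List.sum_nil] at h1
  have e21 : Nat.primeFactors 21 = {3, 7} := z0_pf (a := 3) (b := 7) (by norm_num) (by norm_num)
  have e7 : Nat.primeFactors 7 = {7} := Nat.Prime.primeFactors (by norm_num)
  rw [z0_odd b (a := 2) (k := 21) (by decide) (by decide) e21,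
    z0_odd b (a := 20) (k := 21) (by decide) (by decide) e21,
    z0_odd b (a := 1) (k := 21) (by decide) (by decide) e21,
    z0_odd b (a := 3) (k := 7) (by decide) (by decide) e7,
    z0_odd b (a := 17) (k := 21) (by decide) (by decide) e21] at h1
  have h2 := hb.two {3, 7}
  have h3 : b {7} - b {3, 7} + (2 • b {3, 7} + 2 • b {3, 7} + 2 • b {3, 7}) = 0 := by
    rw [← h1, two_nsmul]
    abel
  rw [h2, add_zero, add_zero, add_zero] at h3
  exact sub_eq_zero.1 h3

theorem b0_eleven (hM : 66 ∣ M) : b {3} + b {3, 11} = 0 := by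
  have h1 := curH_list hMp hb hM (x := 4) (y := 63) (z := 65) (x' := 3) (y' := 22) (z' := 41)
    (by decide +kernel)
  simp only [List.map_cons, List.map_nil, List.sum_cons, List.sum_nil] at h1
  have e33 : Nat.primeFactors 33 = {3, 11} := z0_pf (a := 3) (b := 11) (by norm_num) (by norm_num)
  have e3 : Nat.primeFactors 3 = {3} := Nat.Prime.primeFactors (by norm_num)
  rw [z0_odd b (a := 4) (k := 33) (by decide) (by decide) e33,
    z0_even b (a := 63) 22 (by decide) (by decide), z0_even b (a := 65) 66 (by decide) (by decide),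
    z0_even b (a := 3) 22 (by decide) (by decide),
    z0_odd b (a := 22) (k := 3) (by decide) (by decide) e3,
    z0_even b (a := 41) 66 (by decide) (by decide)] at h1
  rw [← h1]
  abel

theorem kil_7 (hM : 84 ∣ M) (hp : p % 84 = 13 ∨ p % 84 = 61 ∨ p % 84 = 73) : b {7} = 0 := by
  have _ := hMp
  have e7 : Nat.primeFactors 7 = {7} := Nat.Prime.primeFactors (by norm_num)
  rcases hp with h | h | h
  · have h1 := cur_list hb hM (p₀ := 13) (f := 2) (x := 5) (y := 12) (z := 67) (x' := 3)
      (y' := 38) (z' := 43) h (by norm_num) (by decide +kernel)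
    simp only [List.map_cons, List.map_nil, List.sum_cons, List.sum_nil] at h1
    rw [z0_even b (a := 5) 84 (by decide) (by decide),
      z0_odd b (a := 12) (k := 7) (by decide) (by decide) e7,
      z0_even b (a := 67) 84 (by decide) (by decide),
      z0_even b (a := 3) 28 (by decide) (by decide),
      z0_even b (a := 38) 42 (by decide) (by decide),
      z0_even b (a := 43) 84 (by decide) (by decide)] at h1
    simpa using h1
  · have h1 := cur_list hb hM (p₀ := 61) (f := 6) (x := 1) (y := 11) (z := 72) (x' := 1)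
      (y' := 2) (z' := 81) h (by norm_num) (by decide +kernel)
    simp only [List.map_cons, List.map_nil, List.sum_cons, List.sum_nil] at h1
    rw [z0_even b (a := 1) 84 (by decide) (by decide),
      z0_even b (a := 11) 84 (by decide) (by decide),
      z0_odd b (a := 72) (k := 7) (by decide) (by decide) e7,
      z0_even b (a := 2) 42 (by decide) (by decide),
      z0_even b (a := 81) 28 (by decide) (by decide)] at h1
    simpa using h1
  · have h1 := cur_list hb hM (p₀ := 73) (f := 6) (x := 1) (y := 11) (z := 72) (x' := 1)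
      (y' := 2) (z' := 81) h (by norm_num) (by decide +kernel)
    simp only [List.map_cons, List.map_nil, List.sum_cons, List.sum_nil] at h1
    rw [z0_even b (a := 1) 84 (by decide) (by decide),
      z0_even b (a := 11) 84 (by decide) (by decide),
      z0_odd b (a := 72) (k := 7) (by decide) (by decide) e7,
      z0_even b (a := 2) 42 (by decide) (by decide),
      z0_even b (a := 81) 28 (by decide) (by decide)] at h1
    simpa using h1

/-- sets of primes modulo which a power of `p` is `-1`, with a supersingular triple whose value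
is known -/
theorem bb_am0 [NeZero M] {y₁ y₂ y₃ : ZMod M} (n₁ : y₁ ≠ 0) (n₂ : y₂ ≠ 0) (n₃ : y₃ ≠ 0)
    (hs : y₁ + y₂ + y₃ = 0) (s₁ : ∃ j, (p : ZMod M) ^ j * y₁ = -y₁)
    (s₂ : ∃ j, (p : ZMod M) ^ j * y₂ = -y₂) (s₃ : ∃ j, (p : ZMod M) ^ j * y₃ = -y₃)
    (hv : vl b y₁ + vl b y₂ + vl b y₃ = 0) {V : Finset ℕ} (hne : V.Nonempty)
    (hV : ∀ r ∈ V, r.Prime ∧ r ≠ 2 ∧ r ∣ M) {i : ℕ} (hi : ∏ r ∈ V, r ∣ p ^ i + 1) : b V = 0 := by
  obtain ⟨x, x1, x2, x3, x4, x5⟩ := bb_elt b hne hV
  have e1 : (p : ZMod M) ^ i * x = -x := bb_sup hi x5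
  have e2 : (p : ZMod M) ^ i * (-(x + x)) = -(-(x + x)) := by
    refine bb_sup hi ?_
    rw [smul_neg, smul_add, x5, add_zero, neg_zero]
  have h0 : (0 : ZMod M) ∉ ({x, x, -(x + x), y₁, y₂, y₃} : Multiset (ZMod M)) := by
    intro h0
    simp only [Multiset.insert_eq_cons, Multiset.mem_cons, Multiset.mem_singleton] at h0
    rcases h0 with h0 | h0 | h0 | h0 | h0 | h0
    · exact x1 h0.symm
    · exact x1 h0.symm
    · exact neg_ne_zero.2 x2 h0.symm
    · exact n₁ h0.symm
    · exact n₂ h0.symm
    · exact n₃ h0.symm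
  have hT : TateN p ({x, x, -(x + x), y₁, y₂, y₃} : Multiset (ZMod M)) := by
    refine tate_sup hMp h0 fun w hw => ?_
    simp only [Multiset.insert_eq_cons, Multiset.mem_cons, Multiset.mem_singleton] at hw
    rcases hw with rfl | rfl | rfl | rfl | rfl | rfl
    · exact ⟨i, e1⟩
    · exact ⟨i, e1⟩
    · exact ⟨i, e2⟩
    · exact s₁
    · exact s₂
    · exact s₃
  have h1 := hb.alg M (dvd_refl M) _ (Alg.curves x x (-(x + x)) y₁ y₂ y₃ x1 x1
    (neg_ne_zero.2 x2) n₁ n₂ n₃ (by ring) hs hT) hT
  simp only [Multiset.insert_eq_cons, Multiset.map_cons, Multiset.map_singleton,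
    Multiset.sum_cons, Multiset.sum_singleton, x3, x4] at h1
  have h2 := hb.two V
  rw [two_nsmul] at h2
  have h3 : b V + (b V + b V) + (vl b y₁ + vl b y₂ + vl b y₃) = 0 := by
    rw [← h1]
    abel
  rwa [h2, hv, add_zero, add_zero] at h3

/-- the supersingular triple of a set of primes whose value is known -/
theorem bb_am1 [NeZero M] {W : Finset ℕ} (hWne : W.Nonempty)
    (hW : ∀ r ∈ W, r.Prime ∧ r ≠ 2 ∧ r ∣ M) {j : ℕ} (hj : ∏ r ∈ W, r ∣ p ^ j + 1)
    (hbW : b W = 0) {V : Finset ℕ} (hne : V.Nonempty)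
    (hV : ∀ r ∈ V, r.Prime ∧ r ≠ 2 ∧ r ∣ M) {i : ℕ} (hi : ∏ r ∈ V, r ∣ p ^ i + 1) : b V = 0 := by
  obtain ⟨y, y1, y2, y3, y4, y5⟩ := bb_elt b hWne hW
  have e3 : (p : ZMod M) ^ j * y = -y := bb_sup hj y5
  have e4 : (p : ZMod M) ^ j * (-(y + y)) = -(-(y + y)) := by
    refine bb_sup hj ?_
    rw [smul_neg, smul_add, y5, add_zero, neg_zero]
  exact bb_am0 hMp hb y1 y1 (neg_ne_zero.2 y2) (by ring) ⟨j, e3⟩ ⟨j, e3⟩ ⟨j, e4⟩
    (by rw [y3, y4, hbW]; simp) hne hV hi

end kills

/-! ### existence -/

theorem exists_bb0 [Flag] {p : ℕ} (hp : p.Prime) {m M : ℕ} [NeZero m] [NeZero M] (hmM : m ∣ M)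
    (hMp : M.Coprime p) :
    ∃ (B : Type) (_ : AddCommGroup B) (b : Finset ℕ → B), BB p M b ∧ (p = 2 → b {3} = 0) ∧
      ∀ S : Multiset (ZMod m), (0 : ZMod m) ∉ S → Even S.card → S.sum = 0 → TateN p S →
        (S.map (vl b)).sum = 0 → Inf p m S 1 := by
  have hmp : m.Coprime p := Nat.Coprime.coprime_dvd_left hmM hMp
  obtain ⟨B, _, f, hL⟩ := exists_lim p hp
  obtain ⟨b, hb0, hb2, hb⟩ := exists_rad hp hL hMp
  -- the sums over the Tate characters of all levels
  have key : ∀ (m' : ℕ) [NeZero m'], m' ∣ M → ∀ S : Multiset (ZMod m'), (0 : ZMod m') ∉ S →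
      Even S.card → S.sum = 0 → TateN p S → (S.map (f m')).sum = (S.map (vl b)).sum := by
    intro m' _ hd S h0 hc hs hT
    have h1 := hb (S.map (emb M m')) (by
        have h := zero_notMem_emb hd h0 1
        rwa [one_smul] at h) (by rw [Multiset.card_map]; exact hc)
      (by rw [emb_sum hd, hs, emb_zero hd]) (tate_emb hd hMp hT)
    rw [Multiset.map_map, Multiset.map_map] at h1
    have e1 : S.map (f M ∘ emb M m') = S.map (f m') :=
      Multiset.map_congr rfl fun x _ => hL.up m' M hd hMp x
    have e2 : S.map (vl b ∘ emb M m') = S.map (vl b) :=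
      Multiset.map_congr rfl fun x _ => vl_emb b hd x
    rwa [e1, e2] at h1
  have halg : BB p M b := by
    refine ⟨hb2, fun m' _ hd S hS hT => ?_⟩
    obtain ⟨h0, hc, hs⟩ := QuotT.basic hS
    rw [← key m' hd S h0 hc hs hT]
    exact hL.alg m' (Nat.Coprime.coprime_dvd_left hd hMp) S hS
  by_cases hp2 : p = 2
  · subst hp2
    have hodd : ∀ m' : ℕ, m' ∣ M → Odd m' := by
      intro m' hd
      rw [← Nat.coprime_two_right]
      exact Nat.Coprime.coprime_dvd_left hd hMp
    refine ⟨B, inferInstance, fun V => if V = ∅ then 0 else b V - b {3}, ⟨?_, ?_⟩, ?_, ?_⟩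
    · intro V
      change 2 • (if V = ∅ then 0 else b V - b {3}) = 0
      by_cases hV : V = ∅
      · rw [if_pos hV, smul_zero]
      · rw [if_neg hV, smul_sub, hb2, hb2, sub_zero]
    · intro m' _ hd S hS hT
      obtain ⟨h0, hc, hs⟩ := QuotT.basic hS
      rw [vl_shift (hb2 _) (hodd m' hd) h0 hc]
      exact halg.alg m' hd S hS hT
    · intro _
      change (if ({3} : Finset ℕ) = ∅ then 0 else b {3} - b {3}) = 0
      rw [if_neg (singleton_ne_empty 3), sub_self]
    · intro S h0 hc hs hT hS
      rw [vl_shift (hb2 _) (hodd m hmM) h0 hc, ← key m hmM S h0 hc hs hT] at hS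
      exact hL.zero m hmp S h0 hc hs hS
  · refine ⟨B, inferInstance, b, halg, fun h => absurd h hp2, ?_⟩
    intro S h0 hc hs hT hS
    rw [← key m hmM S h0 hc hs hT] at hS
    exact hL.zero m hmp S h0 hc hs hS

end Pool.Agent.FT
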