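import Pool.Agent.FT.ZT
import Pool.Agent.FT.MainF
import Pool.Agent.FT.TF
import Pool.Agent.FT.TFt

/-!
# FT-Z1: theorems without further generators
-/

set_option autoImplicit false

namespace Pool.Agent.FT

open Finset
open Pool.Agent.FS (IsHodge emb sw rr hb)
open Pool.Agent.FQ (chiT QS nR PPr)

/-! ### counting -/

theorem sub_pair {a b : ℕ} {V : Finset ℕ} (h : V ⊆ {a, b}) :
    V = ∅ ∨ V = {a} ∨ V = {b} ∨ V = {a, b} := by
  have hx : ∀ x ∈ V, x = a ∨ x = b := by
    intro x hx
    have h1 := h hx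
    rwa [mem_insert, mem_singleton] at h1
  by_cases ha : a ∈ V <;> by_cases hb : b ∈ V
  · right; right; right
    refine Subset.antisymm h fun x hx => ?_
    rw [mem_insert, mem_singleton] at hx
    rcases hx with rfl | rfl <;> assumption
  · right; left
    refine Subset.antisymm (fun x h1 => ?_) (singleton_subset_iff.2 ha)
    rw [mem_singleton]
    exact (hx x h1).resolve_right fun h2 => hb (h2 ▸ h1)
  · right; right; left
    refine Subset.antisymm (fun x h1 => ?_) (singleton_subset_iff.2 hb)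
    rw [mem_singleton]
    exact (hx x h1).resolve_left fun h2 => ha (h2 ▸ h1)
  · left
    rw [eq_empty_iff_forall_notMem]
    intro x h1
    rcases hx x h1 with rfl | rfl
    · exact ha h1
    · exact hb h1

theorem nV_zero {m : ℕ} [NeZero m] (S : Multiset (ZMod m)) {V : Finset ℕ}
    (hV : ¬ V ⊆ m.primeFactors.erase 2) : nV S V = 0 := by
  classical
  unfold nV
  rw [Multiset.card_eq_zero, Multiset.filter_eq_nil]
  rintro x - ⟨h1, h2⟩
  refine hV ?_
  rw [← h2]
  intro r hr
  rw [mem_erase]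
  refine ⟨?_, Nat.primeFactors_mono (order_dvd x) (NeZero.ne m) hr⟩
  rintro rfl
  exact (Nat.not_even_iff_odd.2 h1) (even_iff_two_dvd.2 (Nat.dvd_of_mem_primeFactors hr))

/-- the sum vanishes if all terms do -/
theorem vl_terms {B : Type} [AddCommGroup B] (b : Finset ℕ → B) {m : ℕ} [NeZero m]
    {S : Multiset (ZMod m)} (h0 : (0 : ZMod m) ∉ S)
    (h : ∀ V ⊆ m.primeFactors.erase 2, V.Nonempty → nV S V • b V = 0) :
    (S.map (vl b)).sum = 0 := by
  rw [vl_count]
  refine sum_eq_zero fun V hV => ?_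
  rcases V.eq_empty_or_nonempty with rfl | hne
  · rw [nV_empty h0, zero_smul]
  · exact h V (mem_powerset.1 hV) hne

theorem vl_two {B : Type} [AddCommGroup B] (b : Finset ℕ → B) {m : ℕ} [NeZero m]
    {S : Multiset (ZMod m)} (h0 : (0 : ZMod m) ∉ S) {r l : ℕ} (hrl : r ≠ l)
    (hpf : m.primeFactors.erase 2 ⊆ {r, l}) :
    (S.map (vl b)).sum = nV S {r} • b {r} + nV S {l} • b {l} + nV S {r, l} • b {r, l} := by
  rw [vl_count]
  have h1 : ∑ V ∈ (m.primeFactors.erase 2).powerset, nV S V • b V =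
      ∑ V ∈ ({r, l} : Finset ℕ).powerset, nV S V • b V := by
    refine sum_subset (powerset_mono.2 hpf) fun V _ hV => ?_
    rw [mem_powerset] at hV
    rw [nV_zero S hV, zero_smul]
  have h2 : ({r, l} : Finset ℕ).powerset = {∅, {r}, {l}, {r, l}} := by
    ext V
    rw [mem_powerset]
    simp only [mem_insert, mem_singleton]
    refine ⟨sub_pair, ?_⟩
    rintro (rfl | rfl | rfl | rfl)
    · exact empty_subset _
    · exact singleton_subset_iff.2 (mem_insert_self _ _)
    · exact singleton_subset_iff.2 (mem_insert_of_mem (mem_singleton_self _))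
    · exact Subset.rfl
  have n1 : ({r} : Finset ℕ) ≠ {l} := fun h => hrl (singleton_injective h)
  have n2 : ({r} : Finset ℕ) ≠ {r, l} := by
    intro h
    have h3 : l ∈ ({r} : Finset ℕ) := by
      rw [h]
      exact mem_insert_of_mem (mem_singleton_self _)
    exact hrl (mem_singleton.1 h3).symm
  have n3 : ({l} : Finset ℕ) ≠ {r, l} := by
    intro h
    have h3 : r ∈ ({l} : Finset ℕ) := by
      rw [h]
      exact mem_insert_self _ _
    exact hrl (mem_singleton.1 h3)
  have e1 : (∅ : Finset ℕ) ∉ ({{r}, {l}, {r, l}} : Finset (Finset ℕ)) := by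
    simp only [mem_insert, mem_singleton, not_or]
    refine ⟨(singleton_ne_empty r).symm, (singleton_ne_empty l).symm, ?_⟩
    exact (insert_ne_empty r {l}).symm
  have e2 : ({r} : Finset ℕ) ∉ ({{l}, {r, l}} : Finset (Finset ℕ)) := by
    simp only [mem_insert, mem_singleton, not_or]
    exact ⟨n1, n2⟩
  have e3 : ({l} : Finset ℕ) ∉ ({{r, l}} : Finset (Finset ℕ)) := by
    rw [mem_singleton]
    exact n3
  rw [h1, h2, sum_insert e1, sum_insert e2, sum_insert e3, sum_singleton, nV_empty h0, zero_smul,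
    zero_add, add_assoc]

open Classical in
theorem vl_ind {m : ℕ} (P : Finset ℕ → Prop) (S : Multiset (ZMod m)) :
    (S.map (vl fun V => if P V then (1 : ℤ) else 0)).sum =
      ((S.filter fun x => Odd (addOrderOf x) ∧ P (addOrderOf x).primeFactors).card : ℤ) := by
  induction S using Multiset.induction_on with
  | empty => simp
  | cons x S ih =>
    rw [Multiset.map_cons, Multiset.sum_cons, ih]
    by_cases h : Odd (addOrderOf x) ∧ P (addOrderOf x).primeFactors
    · rw [Multiset.filter_cons_of_pos (p := fun x : ZMod m => Odd (addOrderOf x) ∧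
        P (addOrderOf x).primeFactors) S h, Multiset.card_cons, vl_odd h.1, if_pos h.2]
      push_cast
      ring
    · rw [Multiset.filter_cons_of_neg (p := fun x : ZMod m => Odd (addOrderOf x) ∧
        P (addOrderOf x).primeFactors) S h]
      have h1 : vl (fun V => if P V then (1 : ℤ) else 0) x = 0 := by
        by_cases ho : Odd (addOrderOf x)
        · rw [vl_odd ho, if_neg fun h2 => h ⟨ho, h2⟩]
        · exact vl_even (Nat.not_odd_iff_even.1 ho)
      rw [h1, zero_add]

open Classical in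
theorem cnt_two {m : ℕ} [NeZero m] {S : Multiset (ZMod m)} (h0 : (0 : ZMod m) ∉ S) {r l : ℕ}
    (hrl : r ≠ l) (hpf : m.primeFactors.erase 2 ⊆ {r, l}) (P : Finset ℕ → Prop) :
    (S.filter fun x => Odd (addOrderOf x) ∧ P (addOrderOf x).primeFactors).card =
      (if P {r} then nV S {r} else 0) + (if P {l} then nV S {l} else 0) +
        (if P {r, l} then nV S {r, l} else 0) := by
  have h1 := vl_ind P S
  rw [vl_two _ h0 hrl hpf] at h1
  have h2 : ((S.filter fun x => Odd (addOrderOf x) ∧ P (addOrderOf x).primeFactors).card : ℤ) =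
      (((if P {r} then nV S {r} else 0) + (if P {l} then nV S {l} else 0) +
        (if P {r, l} then nV S {r, l} else 0) : ℕ) : ℤ) := by
    rw [← h1]
    push_cast
    split_ifs <;> simp
  exact_mod_cast h2

private theorem z1_even_sum {α : Type*} (f : α → ℕ) (P : α → Prop) [DecidablePred P]
    (hP : ∀ x, P x ↔ Odd (f x)) (S : Multiset α) :
    Even (S.map f).sum ↔ Even (S.filter P).card := by
  induction S using Multiset.induction_on with
  | empty => simp
  | cons x S ih =>
    rw [Multiset.map_cons, Multiset.sum_cons, Nat.even_add, ih]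
    by_cases h : P x
    · rw [Multiset.filter_cons_of_pos _ h, Multiset.card_cons, Nat.even_add_one]
      have h6 : ¬ Even (f x) := Nat.not_even_iff_odd.2 ((hP x).1 h)
      tauto
    · rw [Multiset.filter_cons_of_neg _ h]
      have h6 : Even (f x) := by
        rw [← Nat.not_odd_iff_even, ← hP]
        exact h
      tauto

open Classical in
/-- for levels which are not divisible by four the number of elements of odd order is even -/
theorem tot_par {m : ℕ} [NeZero m] (h4 : ¬ 4 ∣ m) {S : Multiset (ZMod m)} (hc : Even S.card)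
    (hs : S.sum = 0) : Even (S.filter fun x => Odd (addOrderOf x)).card := by
  by_cases h2 : 2 ∣ m
  swap
  · have h1 : (S.filter fun x => Odd (addOrderOf x)) = S := by
      rw [Multiset.filter_eq_self]
      intro x _
      refine Odd.of_dvd_nat ?_ (order_dvd x)
      rw [← Nat.not_even_iff_odd, even_iff_two_dvd]
      exact h2
    rw [h1]
    exact hc
  have key : ∀ x : ZMod m, ¬ Odd (addOrderOf x) ↔ Odd x.val := by
    intro x
    have h1 : addOrderOf x = m / m.gcd x.val := by
      conv_lhs => rw [← ZMod.natCast_zmod_val x]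
      exact ZMod.addOrderOf_coe _ (NeZero.ne m)
    have h3 : m.gcd x.val * (m / m.gcd x.val) = m := Nat.mul_div_cancel' (Nat.gcd_dvd_left _ _)
    rw [h1]
    constructor
    · intro h5
      rw [Nat.not_odd_iff_even, even_iff_two_dvd] at h5
      rw [← Nat.not_even_iff_odd, even_iff_two_dvd]
      intro h6
      apply h4
      have h7 : 2 ∣ m.gcd x.val := Nat.dvd_gcd h2 h6
      have h8 : 2 * 2 ∣ m := by
        rw [← h3]
        exact mul_dvd_mul h7 h5
      exact h8
    · intro h5 h6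
      have h7 : Odd (m.gcd x.val) := h5.of_dvd_nat (Nat.gcd_dvd_right _ _)
      have h8 : Odd m := by
        rw [← h3]
        exact h7.mul h6
      exact (Nat.not_even_iff_odd.2 h8) (even_iff_two_dvd.2 h2)
  have h1 : m ∣ (S.map ZMod.val).sum := by
    rw [← ZMod.natCast_eq_zero_iff, Nat.cast_multiset_sum, Multiset.map_map]
    rw [← hs]
    congr 1
    conv_rhs => rw [← Multiset.map_id S]
    refine Multiset.map_congr rfl fun x _ => ?_
    exact ZMod.natCast_zmod_val x
  have h3 : Even (S.map ZMod.val).sum := even_iff_two_dvd.2 (h2.trans h1)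
  rw [z1_even_sum ZMod.val (fun x => ¬ Odd (addOrderOf x)) key S] at h3
  have h5 : (S.filter fun x => Odd (addOrderOf x)).card +
      (S.filter fun x => ¬ Odd (addOrderOf x)).card = S.card := by
    rw [← Multiset.card_add, Multiset.filter_add_not]
  rw [← h5, Nat.even_add] at hc
  exact hc.2 h3

theorem tot_two {m : ℕ} [NeZero m] (h4 : ¬ 4 ∣ m) {S : Multiset (ZMod m)} (hc : Even S.card)
    (hs : S.sum = 0) (h0 : (0 : ZMod m) ∉ S) {r l : ℕ} (hrl : r ≠ l)
    (hpf : m.primeFactors.erase 2 ⊆ {r, l}) : Even (nV S {r} + nV S {l} + nV S {r, l}) := by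
  classical
  have h1 := tot_par h4 hc hs
  have h2 := cnt_two h0 hrl hpf fun _ => True
  simp only [and_true, if_true] at h2
  rwa [h2] at h1

theorem z1_chi {l w : ℕ} (hl : l ≠ 2) : chiT {l} w = jacobiSym (w : ℤ) l := by
  unfold Pool.Agent.FQ.chiT
  rw [Finset.prod_singleton]
  unfold Pool.Agent.FQ.chi
  rw [if_neg hl]

theorem z1_sign {p l : ℕ} (h : Nat.Coprime l p) :
    jacobiSym (p : ℤ) l = 1 ∨ jacobiSym (p : ℤ) l = -1 := by
  refine jacobiSym.eq_one_or_neg_one ?_
  rw [Int.gcd_natCast_natCast]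
  exact h.symm

theorem z1_minus {p l : ℕ} (hl : l.Prime) (hl4 : l % 4 = 3) (h : jacobiSym (p : ℤ) l = -1) :
    ∃ i : ℕ, ∏ r ∈ ({l} : Finset ℕ), r ∣ p ^ i + 1 := by
  obtain ⟨i, -, hi⟩ := minus_pow (p := p) (V := {l}) (by
    intro r hr
    rw [mem_singleton] at hr
    subst hr
    exact ⟨hl, hl4⟩) (by
    intro r hr
    rw [mem_singleton] at hr
    subst hr
    exact h)
  exact ⟨i, hi⟩

/-! ### the context -/

theorem ctx0 [Flag] {p : ℕ} (hp : p.Prime) (m : ℕ) [NeZero m] (hmp : m.Coprime p) :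
    ∃ (M : ℕ) (_ : NeZero M) (B : Type) (_ : AddCommGroup B) (b : Finset ℕ → B),
      m ∣ M ∧ M.Coprime p ∧ (∀ d : ℕ, d ∣ 4620 → d.Coprime p → d ∣ M) ∧ BB p M b ∧
      (p ≠ 3 → b {3} = 0) ∧ (p ≠ 5 → b {5} = 0) ∧
      (∀ V : Finset ℕ, V.Nonempty → (∀ r ∈ V, r.Prime ∧ r ≠ 2 ∧ r ∣ M) →
        (∃ i : ℕ, ∏ r ∈ V, r ∣ p ^ i + 1) → b V = 0) ∧
      ∀ S : Multiset (ZMod m), (0 : ZMod m) ∉ S → Even S.card → S.sum = 0 → TateN p S →
        (S.map (vl b)).sum = 0 → Inf p m S 1 := by
  have hm0 : m ≠ 0 := NeZero.ne m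
  obtain ⟨e, he⟩ : ∃ e : ℕ, e = ordCompl[p] 4620 := ⟨_, rfl⟩
  have he0 : e ≠ 0 := by
    rw [he]
    exact (Nat.ordCompl_pos p (by norm_num)).ne'
  have hep : e.Coprime p := by
    rw [he]
    exact (Nat.coprime_ordCompl hp (by norm_num)).symm
  have hed : ∀ d : ℕ, d ∣ 4620 → d.Coprime p → d ∣ e := fun d hd hdp => by
    rw [he]
    exact dvd_oc hd hdp
  have hco : ∀ l : ℕ, l.Prime → p ≠ l → Nat.Coprime l p := fun l hl h =>
    (Nat.coprime_primes hl hp).2 (Ne.symm h)
  -- the power of two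
  obtain ⟨E, hE0, hEp, hE⟩ : ∃ E : ℕ, E ≠ 0 ∧ E.Coprime p ∧
      (p ≠ 2 → 2 ^ ((p - 1).factorization 2 + 2) ∣ E) := by
    by_cases h2 : p = 2
    · exact ⟨1, one_ne_zero, Nat.coprime_one_left p, fun h => absurd h2 h⟩
    · exact ⟨2 ^ ((p - 1).factorization 2 + 2), by positivity,
        Nat.Coprime.pow_left _ (hco 2 Nat.prime_two h2), fun _ => dvd_rfl⟩
  obtain ⟨M, hM⟩ : ∃ M : ℕ, M = m * e * E := ⟨_, rfl⟩
  have hM0 : NeZero M := ⟨by rw [hM]; exact mul_ne_zero (mul_ne_zero hm0 he0) hE0⟩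
  have hMp : M.Coprime p := by
    rw [hM]
    exact Nat.Coprime.mul_left (Nat.Coprime.mul_left hmp hep) hEp
  have hmM : m ∣ M := by
    rw [hM, mul_assoc]
    exact dvd_mul_right _ _
  have heM : ∀ d : ℕ, d ∣ 4620 → d.Coprime p → d ∣ M := fun d hd hdp => by
    rw [hM, mul_assoc]
    exact Dvd.dvd.mul_left (Dvd.dvd.mul_right (hed d hd hdp) _) _
  have hEM : p ≠ 2 → 2 ^ ((p - 1).factorization 2 + 2) ∣ M := fun h => by
    rw [hM]
    exact Dvd.dvd.mul_left (hE h) _
  obtain ⟨B, _, b, hbb, hb2, hfin⟩ := exists_bb0 hp hmM hMp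
  have h4M : p ≠ 2 → 4 ∣ M := fun h => heM 4 (by norm_num)
    (Nat.Coprime.pow_left 2 (hco 2 Nat.prime_two h))
  have h3M : p ≠ 3 → 3 ∣ M := fun h => heM 3 (by norm_num) (hco 3 Nat.prime_three h)
  have h5M : p ≠ 5 → 5 ∣ M := fun h => heM 5 (by norm_num) (hco 5 Nat.prime_five h)
  have b3 : p ≠ 3 → b {3} = 0 := by
    intro h
    by_cases h2 : p = 2
    · exact hb2 h2
    · refine b0_three hMp hbb ?_
      have h1 : 4 * 3 ∣ M :=
        (by norm_num : Nat.Coprime 4 3).mul_dvd_of_dvd_of_dvd (h4M h2) (h3M h)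
      exact h1
  have one : ∀ l : ℕ, l.Prime → l ≠ 2 → l ∣ M → ∀ r ∈ ({l} : Finset ℕ),
      r.Prime ∧ r ≠ 2 ∧ r ∣ M := by
    intro l h1 h2 h3 r hr
    rw [mem_singleton] at hr
    subst hr
    exact ⟨h1, h2, h3⟩
  have am : ∀ V : Finset ℕ, V.Nonempty → (∀ r ∈ V, r.Prime ∧ r ≠ 2 ∧ r ∣ M) →
      (∃ i : ℕ, ∏ r ∈ V, r ∣ p ^ i + 1) → b V = 0 := by
    rintro V hne hV ⟨i, hi⟩
    by_cases h2 : p = 2
    · exact bb_am1 hMp hbb (W := {3}) (singleton_nonempty 3)
        (one 3 Nat.prime_three (by norm_num) (h3M (by omega))) (j := 1)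
        (by rw [prod_singleton, h2]; norm_num) (b3 (by omega)) hne hV hi
    · exact bb_t4 hp h2 hMp (hEM h2) hbb hne hV hi
  have b5 : p ≠ 5 → b {5} = 0 := by
    intro h
    by_cases h2 : p = 2
    · exact am {5} (singleton_nonempty 5) (one 5 Nat.prime_five (by norm_num) (h5M h))
        ⟨2, by rw [prod_singleton, h2]; norm_num⟩
    · refine b0_five hMp hbb ?_
      have h1 : 4 * 5 ∣ M :=
        (by norm_num : Nat.Coprime 4 5).mul_dvd_of_dvd_of_dvd (h4M h2) (h5M h)
      exact h1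
  exact ⟨M, hM0, B, inferInstance, b, hmM, hMp, heM, hbb, b3, b5, am, hfin⟩

end Pool.Agent.FT
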