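import Pool.Agent.FT.Z1

/-!
# FT-Z2: theorems without further generators: the levels
-/

set_option autoImplicit false

namespace Pool.Agent.FT

open Finset
open Pool.Agent.FS (IsHodge emb sw rr hb)
open Pool.Agent.FQ (chiT QS nR PPr)
open Pool.Agent.Helper9.Fermat (wt ee genW mem_all_one mem_all_two gen_of_wt neg_pow_of_odd)

theorem z2_sub {m : ℕ} {V : Finset ℕ} (hV : V ⊆ m.primeFactors.erase 2) :
    ∀ r ∈ V, r.Prime ∧ r ≠ 2 ∧ r ∣ m := by
  intro r hr
  have h1 := hV hr
  rw [mem_erase] at h1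
  exact ⟨Nat.prime_of_mem_primeFactors h1.2, h1.1, Nat.dvd_of_mem_primeFactors h1.2⟩

theorem z2_ne {m p : ℕ} (hp : p.Prime) (hmp : m.Coprime p) {r : ℕ} (hr : r ∣ m) : p ≠ r := by
  rintro rfl
  have h1 := Nat.Coprime.eq_one_of_dvd (Nat.Coprime.symm hmp) hr
  exact hp.one_lt.ne' h1

theorem z2_co {p l : ℕ} (hp : p.Prime) (hl : l.Prime) (h : p ≠ l) : Nat.Coprime l p :=
  (Nat.coprime_primes hl hp).2 (Ne.symm h)

theorem z2_one {l M : ℕ} (h1 : l.Prime) (h2 : l ≠ 2) (h3 : l ∣ M) :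
    ∀ r ∈ ({l} : Finset ℕ), r.Prime ∧ r ≠ 2 ∧ r ∣ M := by
  intro r hr
  rw [mem_singleton] at hr
  subst hr
  exact ⟨h1, h2, h3⟩

theorem z2_W {l m : ℕ} (h1 : l.Prime) (h2 : l % 4 = 3) (h3 : l ∣ m) :
    ∀ r ∈ ({l} : Finset ℕ), r.Prime ∧ r % 4 = 3 ∧ r ∣ m := by
  intro r hr
  rw [mem_singleton] at hr
  subst hr
  exact ⟨h1, h2, h3⟩

theorem bel_self (l : ℕ) : Bel {l} {l} :=
  ⟨Subset.rfl, fun _ h1 h2 => absurd h1 h2⟩

theorem bel_pair {l r : ℕ} (h : chiT {l} r = -1) : Bel {l} {r, l} := by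
  refine ⟨singleton_subset_iff.2 (mem_insert_of_mem (mem_singleton_self l)), fun q hq h1 => ?_⟩
  rw [mem_insert] at hq
  rcases hq with rfl | hq
  · exact h
  · exact absurd hq h1

theorem bel_pair' {l r : ℕ} (h : chiT {l} r = -1) : Bel {l} {l, r} := by
  rw [pair_swap]
  exact bel_pair h

theorem not_bel_pair {l r : ℕ} (hlr : r ≠ l) (h : chiT {l} r = 1) : ¬ Bel {l} {r, l} := by
  rintro ⟨-, h1⟩
  have h2 := h1 r (mem_insert_self _ _) fun h3 => hlr (mem_singleton.1 h3)
  rw [h] at h2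
  exact absurd h2 (by decide)

theorem not_bel_one {l r : ℕ} (hlr : r ≠ l) : ¬ Bel {l} {r} := by
  rintro ⟨h1, -⟩
  exact hlr (mem_singleton.1 (singleton_subset_iff.1 h1)).symm

theorem tot_one {m : ℕ} [NeZero m] (h4 : ¬ 4 ∣ m) {S : Multiset (ZMod m)} (hc : Even S.card)
    (hs : S.sum = 0) (h0 : (0 : ZMod m) ∉ S) {l : ℕ} (hl : l ≠ 1)
    (hpf : m.primeFactors.erase 2 ⊆ {l}) : Even (nV S {l}) := by
  have hn : ∀ V : Finset ℕ, 1 ∈ V → nV S V = 0 := by
    intro V hV
    refine nV_zero S fun h => ?_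
    exact Nat.not_prime_one (z2_sub h 1 hV).1
  have h1 := tot_two h4 hc hs h0 (r := 1) (l := l) (Ne.symm hl)
    (hpf.trans (singleton_subset_iff.2 (mem_insert_of_mem (mem_singleton_self l))))
  rw [hn {1} (mem_singleton_self 1), hn {1, l} (mem_insert_self 1 _)] at h1
  simpa using h1

section

variable [Flag] (p : ℕ) (hp : p.Prime) (m : ℕ) [NeZero m] (hmp : m.Coprime p)

include hp hmp

theorem main0_15 (hpf : m.primeFactors ⊆ {2, 3, 5}) (S : Multiset (ZMod m))
    (h0 : (0 : ZMod m) ∉ S) (hc : Even S.card) (hs : S.sum = 0) (hT : TateN p S) :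
    Inf p m S 1 := by
  obtain ⟨M, hM0, B, _, b, hmM, hMp, hdM, hbb, b3, b5, am, hfin⟩ := ctx0 hp m hmp
  refine hfin S h0 hc hs hT (vl_terms b h0 fun V hV hne => ?_)
  have hVs := hV.trans (pf_erase hpf)
  have hVm := z2_sub hV
  have hVp : ∀ r ∈ V, p ≠ r := fun r hr => z2_ne hp hmp (hVm r hr).2.2
  rcases sub_pair hVs with rfl | rfl | rfl | rfl
  · exact absurd hne not_nonempty_empty
  · rw [b3 (hVp 3 (mem_singleton_self 3)), smul_zero]
  · rw [b5 (hVp 5 (mem_singleton_self 5)), smul_zero]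
  · have h3 : p ≠ 3 := hVp 3 (by simp)
    have h5 : p ≠ 5 := hVp 5 (by simp)
    have hc15 : Nat.Coprime 15 p := (show Nat.Coprime (3 * 5) p from
      Nat.Coprime.mul_left (z2_co hp Nat.prime_three h3) (z2_co hp Nat.prime_five h5))
    rcases cls_15 hc15 with h | h | ⟨i, hi⟩
    · have h2 : p ≠ 2 := by rintro rfl; omega
      have h60 : 60 ∣ M := hdM 60 (by norm_num) (show Nat.Coprime (2 ^ 2 * 15) p from
        Nat.Coprime.mul_left (Nat.Coprime.pow_left 2 (z2_co hp Nat.prime_two h2)) hc15)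
      rw [kil_3_5 hMp h60 hbb (b3 h3) (b5 h5) h, smul_zero]
    · exact smul_even (hbb.two _) (even_pair hmp h0 hT (by norm_num) (by norm_num)
        (Subset.antisymm (pf_erase hpf) hV) h chi_two_15)
    · rw [am _ hne (fun r hr => ⟨(hVm r hr).1, (hVm r hr).2.1, (hVm r hr).2.2.trans hmM⟩)
        ⟨i, by simpa using hi⟩, smul_zero]

theorem main0_21 (hpf : m.primeFactors ⊆ {2, 3, 7}) (S : Multiset (ZMod m))
    (h0 : (0 : ZMod m) ∉ S) (hc : Even S.card) (hs : S.sum = 0) (hT : TateN p S) :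
    Inf p m S 1 := by
  obtain ⟨M, hM0, B, _, b, hmM, hMp, hdM, hbb, b3, b5, am, hfin⟩ := ctx0 hp m hmp
  refine hfin S h0 hc hs hT ?_
  have hpf' := pf_erase hpf
  have h7pr : Nat.Prime 7 := by norm_num
  by_cases h7 : 7 ∣ m
  swap
  · refine vl_terms b h0 fun V hV hne => ?_
    have hVm := z2_sub hV
    rcases sub_pair (hV.trans hpf') with rfl | rfl | rfl | rfl
    · exact absurd hne not_nonempty_empty
    · rw [b3 (z2_ne hp hmp (hVm 3 (mem_singleton_self 3)).2.2), smul_zero]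
    · exact absurd (hVm 7 (mem_singleton_self 7)).2.2 h7
    · exact absurd (hVm 7 (by simp)).2.2 h7
  have hp7 : p ≠ 7 := z2_ne hp hmp h7
  have c7 := z2_co hp h7pr hp7
  rcases z1_sign c7 with hj | hj
  · have hp3 : p ≠ 3 := by
      rintro rfl
      norm_num at hj
    have h21 : 21 ∣ M := hdM 21 (by norm_num) (show Nat.Coprime (3 * 7) p from
      Nat.Coprime.mul_left (z2_co hp Nat.prime_three hp3) c7)
    rw [vl_two b h0 (by norm_num : (3 : ℕ) ≠ 7) hpf', b3 hp3, smul_zero, zero_add,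
      ← b0_seven hMp hbb h21, ← add_smul]
    refine smul_even (hbb.two _) ?_
    have hW := z2_W h7pr (by norm_num) h7
    have h1 := tate_tw hmp hW (by rw [z1_chi (by norm_num)]; exact hj) h0 hT
    have h2 := tf_even (fun r hr hrm => ?_) hW (by rw [card_singleton]; exact odd_one) (fun _ => by
      rw [z1_chi (by norm_num)]; norm_num) h1
    · rw [cnt_two h0 (by norm_num : (3 : ℕ) ≠ 7) hpf' (Bel {7}), if_neg (not_bel_one (by norm_num)),
        if_pos (bel_self 7), if_pos (bel_pair (by rw [z1_chi (by norm_num)]; norm_num)),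
        zero_add] at h2
      exact h2
    · have h3 := hpf (Nat.mem_primeFactors.2 ⟨hr, hrm, NeZero.ne m⟩)
      simp only [mem_insert, mem_singleton] at h3
      rcases h3 with rfl | rfl | rfl <;> norm_num
  · have hb7 : b {7} = 0 := am _ (singleton_nonempty 7) (z2_one h7pr (by norm_num)
      (h7.trans hmM)) (z1_minus h7pr (by norm_num) hj)
    refine vl_terms b h0 fun V hV hne => ?_
    have hVm := z2_sub hV
    rcases sub_pair (hV.trans hpf') with rfl | rfl | rfl | rfl
    · exact absurd hne not_nonempty_empty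
    · rw [b3 (z2_ne hp hmp (hVm 3 (mem_singleton_self 3)).2.2), smul_zero]
    · rw [hb7, smul_zero]
    · have hp3 : p ≠ 3 := z2_ne hp hmp (hVm 3 (by simp)).2.2
      have h21 : 21 ∣ M := hdM 21 (by norm_num) (show Nat.Coprime (3 * 7) p from
        Nat.Coprime.mul_left (z2_co hp Nat.prime_three hp3) c7)
      rw [← b0_seven hMp hbb h21, hb7, smul_zero]

theorem main0_33 (h4 : ¬ 4 ∣ m) (hpf : m.primeFactors ⊆ {2, 3, 11}) (S : Multiset (ZMod m))
    (h0 : (0 : ZMod m) ∉ S) (hc : Even S.card) (hs : S.sum = 0) (hT : TateN p S) :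
    Inf p m S 1 := by
  obtain ⟨M, hM0, B, _, b, hmM, hMp, hdM, hbb, b3, b5, am, hfin⟩ := ctx0 hp m hmp
  have hpf' := pf_erase hpf
  have h11pr : Nat.Prime 11 := by norm_num
  have hne : (3 : ℕ) ≠ 11 := by norm_num
  have hmod : ∀ r : ℕ, r.Prime → r ∣ m → r % 4 ≠ 1 := by
    intro r hr hrm
    have h3 := hpf (Nat.mem_primeFactors.2 ⟨hr, hrm, NeZero.ne m⟩)
    simp only [mem_insert, mem_singleton] at h3
    rcases h3 with rfl | rfl | rfl <;> norm_num
  refine hfin S h0 hc hs hT (vl_terms b h0 fun V hV hne' => ?_)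
  have hVm := z2_sub hV
  have hVp : ∀ r ∈ V, p ≠ r := fun r hr => z2_ne hp hmp (hVm r hr).2.2
  rcases sub_pair (hV.trans hpf') with rfl | rfl | rfl | rfl
  · exact absurd hne' not_nonempty_empty
  · rw [b3 (hVp 3 (mem_singleton_self 3)), smul_zero]
  · have h11 : 11 ∣ m := (hVm 11 (mem_singleton_self 11)).2.2
    have hp11 : p ≠ 11 := hVp 11 (mem_singleton_self 11)
    rcases z1_sign (z2_co hp h11pr hp11) with hj | hj
    · refine smul_even (hbb.two _) ?_
      have hW := z2_W h11pr (by norm_num) h11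
      have h1 := tate_tw hmp hW (by rw [z1_chi (by norm_num)]; exact hj) h0 hT
      have h2 := tf_even_two hmod hW (by rw [card_singleton]; exact odd_one) h4 h1
      rw [cnt_two h0 hne hpf' (Bel {11}), if_neg (not_bel_one hne), if_pos (bel_self 11),
        if_neg (not_bel_pair hne (by rw [z1_chi (by norm_num)]; norm_num)), zero_add, add_zero]
        at h2
      exact h2
    · rw [am _ (singleton_nonempty 11) (z2_one h11pr (by norm_num) (h11.trans hmM))
        (z1_minus h11pr (by norm_num) hj), smul_zero]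
  · have hp3 : p ≠ 3 := hVp 3 (by simp)
    have hp11 : p ≠ 11 := hVp 11 (by simp)
    by_cases hp2 : p = 2
    · rw [am _ hne'
        (fun r hr => ⟨(hVm r hr).1, (hVm r hr).2.1, (hVm r hr).2.2.trans hmM⟩) ⟨5, by
          rw [prod_pair hne, hp2]; norm_num⟩, smul_zero]
    · have h66 : 66 ∣ M := hdM 66 (by norm_num) (show Nat.Coprime (2 * (3 * 11)) p from
        Nat.Coprime.mul_left (z2_co hp Nat.prime_two hp2)
          (Nat.Coprime.mul_left (z2_co hp Nat.prime_three hp3) (z2_co hp h11pr hp11)))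
      have h1 := b0_eleven hMp hbb h66
      rw [b3 hp3, zero_add] at h1
      rw [h1, smul_zero]

/-- the parity condition without further generators -/
def Par0 (p : ℕ) {m : ℕ} (S : Multiset (ZMod m)) : Prop :=
  ∀ V ⊆ m.primeFactors.erase 2, V.Nonempty → (∀ i : ℕ, ¬ ∏ r ∈ V, r ∣ p ^ i + 1) →
    V ≠ {3} → V ≠ {5} → Even (nV S V)

theorem main0_par (S : Multiset (ZMod m))
    (h0 : (0 : ZMod m) ∉ S) (hc : Even S.card) (hs : S.sum = 0) (hT : TateN p S)
    (h : Par0 p S) : Inf p m S 1 := by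
  obtain ⟨M, hM0, B, _, b, hmM, hMp, hdM, hbb, b3, b5, am, hfin⟩ := ctx0 hp m hmp
  refine hfin S h0 hc hs hT (vl_terms b h0 fun V hV hne => ?_)
  have hVm := z2_sub hV
  have hVp : ∀ r ∈ V, p ≠ r := fun r hr => z2_ne hp hmp (hVm r hr).2.2
  by_cases h3 : V = {3}
  · subst h3
    rw [b3 (hVp 3 (mem_singleton_self 3)), smul_zero]
  by_cases h5 : V = {5}
  · subst h5
    rw [b5 (hVp 5 (mem_singleton_self 5)), smul_zero]
  by_cases hi : ∃ i : ℕ, ∏ r ∈ V, r ∣ p ^ i + 1
  · rw [am V hne (fun r hr => ⟨(hVm r hr).1, (hVm r hr).2.1, (hVm r hr).2.2.trans hmM⟩) hi,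
      smul_zero]
  · exact smul_even (hbb.two V) (h V hV hne (fun i hi' => hi ⟨i, hi'⟩) h3 h5)

theorem main0_l {l : ℕ} (hl : l.Prime) (hl8 : l % 8 = 7)
    (hpf : m.primeFactors ⊆ {2, l}) (S : Multiset (ZMod m))
    (h0 : (0 : ZMod m) ∉ S) (hc : Even S.card) (hs : S.sum = 0) (hT : TateN p S) :
    Inf p m S 1 := by
  classical
  refine main0_par p hp m hmp S h0 hc hs hT fun V hV hne hno h3 h5 => ?_
  have hl2 : l ≠ 2 := by rintro rfl; omega
  have hVl : V ⊆ {l} := hV.trans (pf_erase hpf)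
  have hVm := z2_sub hV
  have hVe : V = {l} := by
    obtain ⟨r, hr⟩ := hne
    refine Subset.antisymm hVl ?_
    have h1 := mem_singleton.1 (hVl hr)
    rw [singleton_subset_iff, ← h1]
    exact hr
  subst hVe
  have hlm : l ∣ m := (hVm l (mem_singleton_self l)).2.2
  have hmod : ∀ r : ℕ, r.Prime → r ∣ m → r % 4 ≠ 1 := by
    intro r hr hrm
    have h3 := hpf (Nat.mem_primeFactors.2 ⟨hr, hrm, NeZero.ne m⟩)
    simp only [mem_insert, mem_singleton] at h3
    rcases h3 with rfl | rfl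
    · norm_num
    · omega
  rcases z1_sign (z2_co hp hl (z2_ne hp hmp hlm)) with hj | hj
  · have hW := z2_W hl (by omega) hlm
    have h1 := tate_tw hmp hW (by rw [z1_chi hl2]; exact hj) h0 hT
    have h2 := tf_even hmod hW (by rw [card_singleton]; exact odd_one) (fun _ => by
      rw [z1_chi hl2]
      have h6 := jacobiSym.at_two (b := l) (Nat.odd_iff.2 (by omega))
      push_cast
      rw [h6, ZMod.χ₈_nat_eq_if_mod_eight, if_neg (by omega), if_pos (by omega)]) h1
    have h7 : (S.filter fun x => Odd (addOrderOf x) ∧ Bel {l} (addOrderOf x).primeFactors) =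
        S.filter fun x => Odd (addOrderOf x) ∧ (addOrderOf x).primeFactors = {l} := by
      refine Multiset.filter_congr fun x hx => ?_
      constructor
      · rintro ⟨h8, h9⟩
        refine ⟨h8, Subset.antisymm (fun r hr => ?_) h9.1⟩
        refine pf_erase hpf (mem_erase.2 ⟨?_, Nat.primeFactors_mono (order_dvd x) (NeZero.ne m) hr⟩)
        rintro rfl
        exact (Nat.not_even_iff_odd.2 h8) (even_iff_two_dvd.2 (Nat.dvd_of_mem_primeFactors hr))
      · rintro ⟨h8, h9⟩
        refine ⟨h8, ?_⟩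
        rw [h9]
        exact bel_self l
    unfold nV
    have h8 := congrArg Multiset.card h7
    convert h2 using 1
    convert h8.symm using 2
  · obtain ⟨i, hi⟩ := z1_minus hl (by omega) hj
    exact absurd hi (hno i)

/-- prime powers and twice odd prime powers -/
theorem main0_pp {n : ℕ} (hn : IsPrimePow n) (hm : m = n ∨ (Odd n ∧ m = 2 * n))
    (S : Multiset (ZMod m)) (h0 : (0 : ZMod m) ∉ S) (hc : Even S.card) (hs : S.sum = 0)
    (hT : TateN p S) : Inf p m S 1 := by
  have hn0 : NeZero n := ⟨hn.ne_zero⟩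
  have hpu : IsUnit (p : ZMod m) := by
    rw [ZMod.isUnit_iff_coprime]
    exact hmp.symm
  obtain ⟨l, k, hl, hk, hlk⟩ := hn
  have hl' : l.Prime := hl.nat_prime
  have hpp : IsPrimePow n := ⟨l, k, hl, hk, hlk⟩
  have hln : l ∣ n := by
    rw [← hlk]
    exact dvd_pow_self l hk.ne'
  by_cases hneg : ∃ i : ℕ, (p : ZMod l) ^ i = -1
  · obtain ⟨M, hM0, B, _, b, hmM, hMp, hdM, hbb, b3, b5, am, hfin⟩ := ctx0 hp m hmp
    have hVl : m.primeFactors.erase 2 ⊆ {l} := by
      intro r hr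
      rw [mem_erase] at hr
      have h2 := Nat.prime_of_mem_primeFactors hr.2
      have h3 := Nat.dvd_of_mem_primeFactors hr.2
      rw [mem_singleton]
      have h4 : r ∣ n := by
        rcases hm with h | ⟨-, h⟩
        · rwa [h] at h3
        · rw [h] at h3
          exact (h2.dvd_mul.1 h3).resolve_left fun h5 =>
            hr.1 ((Nat.prime_dvd_prime_iff_eq h2 Nat.prime_two).1 h5)
      rw [← hlk] at h4
      exact (Nat.prime_dvd_prime_iff_eq h2 hl').1 (h2.dvd_of_dvd_pow h4)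
    refine hfin S h0 hc hs hT (vl_terms b h0 fun V hV hne => ?_)
    have hVe : V = {l} := by
      obtain ⟨r, hr⟩ := hne
      refine Subset.antisymm (hV.trans hVl) ?_
      have h1 := mem_singleton.1 (hVl (hV hr))
      rw [singleton_subset_iff, ← h1]
      exact hr
    subst hVe
    have hl2 : l ≠ 2 := (z2_sub hV l (mem_singleton_self l)).2.1
    have hno : Odd n := by
      rw [← hlk]
      exact (hl'.odd_of_ne_two hl2).pow
    have h4 : ¬ 4 ∣ m := by
      intro h4
      rcases hm with h | ⟨-, h⟩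
      · rw [h] at h4
        exact (Nat.not_even_iff_odd.2 hno) (even_iff_two_dvd.2 ((by norm_num : 2 ∣ 4).trans h4))
      · rw [h] at h4
        have h5 : 2 * 2 ∣ 2 * n := h4
        have h6 := (Nat.mul_dvd_mul_iff_left (by norm_num : 0 < 2)).1 h5
        exact (Nat.not_even_iff_odd.2 hno) (even_iff_two_dvd.2 h6)
    exact smul_even (hbb.two _) (tot_one h4 hc hs h0 hl'.one_lt.ne' hVl)
  · have hneg' : ∀ i : ℕ, (p : ZMod n) ^ i ≠ -1 := by
      intro i hi
      have h1 := hln.trans (neg_dvd hi)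
      refine hneg ⟨i, ?_⟩
      rw [← ZMod.natCast_eq_zero_iff] at h1
      push_cast at h1
      exact eq_neg_of_add_eq_zero_left h1
    obtain ⟨F, hF0, hF, hwt⟩ := wt_of_tate hpu h0 hT
    refine inf_of_alg hmp (alg_of_fgen hpu ?_)
    rcases hm with hm | ⟨hodd, hm⟩
    · have hm1 : m = 1 * n := by rw [hm, one_mul]
      exact gen_of_wt hpp hm1 (fun x => mem_all_one hl' hlk.symm hm1 x) hpu F hF0 hF hneg' S h0 hs
        hc hwt
    · have hl2 : l ≠ 2 := by
        rintro rfl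
        rw [← hlk, Nat.odd_pow_iff hk.ne'] at hodd
        exact absurd hodd (by decide)
      exact gen_of_wt hpp hm (fun x => mem_all_two hl' hl2 hlk.symm hm x) hpu F hF0 hF hneg' S h0
        hs hc hwt

end

end Pool.Agent.FT
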