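import Pool.Agent.FT.Z4

/-!
# FT-Z3: theorems without further generators: small degrees
-/

set_option autoImplicit false

namespace Pool.Agent.FT

open Finset

/-- a degree covered by the theorems without further generators -/
def Cz (m : ℕ) : Prop :=
  Cl [2, 3, 5] m ∨ Cl [2, 3, 7] m ∨ (¬ 4 ∣ m ∧ Cl [2, 3, 11] m) ∨
    (¬ 4 ∣ m ∧ Cl [2, 3, 13] m) ∨ Cp m

instance (m : ℕ) : Decidable (Cz m) := by
  unfold Cz
  infer_instance

theorem small_clz : ∀ m < 52, m = 0 ∨ m = 35 ∨ m = 44 ∨ m = 51 ∨ Cz m := by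
  decide +kernel

theorem main0_small [Flag] (p : ℕ) (hp : p.Prime) (m : ℕ) [NeZero m] (hmp : m.Coprime p)
    (h52 : m < 52) (h35 : m ≠ 35) (h44 : m ≠ 44) (h51 : m ≠ 51) (S : Multiset (ZMod m)) (h0 : (0 : ZMod m) ∉ S)
    (hc : Even S.card) (hs : S.sum = 0) (hT : TateN p S) : Inf p m S 1 := by
  have hm0 := NeZero.ne m
  have hmem : ∀ r ∈ m.primeFactors, r ∈ pl ∧ r ∣ m := by
    intro r hr
    have h1 := Nat.dvd_of_mem_primeFactors hr
    exact ⟨mem_pl (Nat.prime_of_mem_primeFactors hr)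
      (lt_of_le_of_lt (Nat.le_of_dvd (Nat.pos_of_ne_zero hm0) h1) (by omega)), h1⟩
  have hsub : ∀ a b c : ℕ, Cl [a, b, c] m → m.primeFactors ⊆ {a, b, c} := by
    intro a b c h r hr
    obtain ⟨h2, h3⟩ := hmem r hr
    have h4 := h r h2 h3
    simp only [List.mem_cons, List.not_mem_nil, or_false] at h4
    simp only [mem_insert, mem_singleton]
    exact h4
  rcases ((((small_clz m h52).resolve_left hm0).resolve_left h35).resolve_left
    h44).resolve_left h51 with h | h | ⟨h4, h⟩ | ⟨h4, h⟩ | h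
  · exact main0_15 p hp m hmp (hsub _ _ _ h) S h0 hc hs hT
  · exact main0_21 p hp m hmp (hsub _ _ _ h) S h0 hc hs hT
  · exact main0_33 p hp m hmp h4 (hsub _ _ _ h) S h0 hc hs hT
  · exact main0_39 p hp m hmp h4 (hsub _ _ _ h) S h0 hc hs hT
  · obtain ⟨l, hl, k, hk6, h⟩ := h
    have hk : k ≠ 0 := by
      rintro rfl
      exact absurd hk6 (by decide)
    have hlp := pl_prime hl
    have hpp : IsPrimePow (l ^ k) := hlp.isPrimePow.pow hk
    refine main0_pp p hp m hmp hpp ?_ S h0 hc hs hT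
    rcases h with h | ⟨hl2, h⟩
    · exact Or.inl h
    · exact Or.inr ⟨(hlp.odd_of_ne_two hl2).pow, h⟩

end Pool.Agent.FT
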