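import Pool.Agent.FT.Z2
import Pool.Agent.FT.P13b
import Pool.Agent.FT.CM

/-!
# FT-Z4: theorems without further generators: the primes 3 and 13
-/

set_option autoImplicit false

namespace Pool.Agent.FT

open Finset
open Pool.Agent.FS (IsHodge emb sw rr hb)
open Pool.Agent.FQ (chiT QS nR PPr)

theorem kil_39z [Flag] {p M : ℕ} (hMp : M.Coprime p) (hM : 156 ∣ M) {B : Type} [AddCommGroup B]
    {b : Finset ℕ → B} (hb : BB p M b) (hp : p % 39 = 14 ∨ p % 39 = 29 ∨ p % 39 = 35) :
    b {3, 13} = 0 := by
  have hp2 : p % 2 = 1 := by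
    have h1 : Nat.Coprime 2 p := Nat.Coprime.coprime_dvd_left ((by norm_num : 2 ∣ 156).trans hM) hMp
    have h2 : ¬ 2 ∣ p := fun h => by
      have := Nat.dvd_gcd (dvd_refl 2) h
      rw [h1] at this
      exact absurd this (by norm_num)
    omega
  have e39 : Nat.primeFactors 39 = {3, 13} := z0_pf (a := 3) (b := 13) (by norm_num) (by norm_num)
  have h0 : p % 156 = 53 ∨ p % 156 = 131 ∨ p % 156 = 29 ∨ p % 156 = 107 ∨ p % 156 = 35 ∨
      p % 156 = 113 := by omega
  rcases h0 with h | h | h | h | h | h
  · have h1 := cur_list hb hM (p₀ := 53) (f := 2) (x := 1) (y := 52) (z := 103) (x' := 2)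
      (y' := 14) (z' := 140) h (by norm_num) (by decide +kernel)
    simp only [List.map_cons, List.map_nil, List.sum_cons, List.sum_nil] at h1
    rw [z0_even b (a := 1) 156 (by decide) (by decide),
      z0_odd b (a := 52) (k := 3) (by decide) (by decide) (Nat.Prime.primeFactors (by norm_num)),
      z0_even b (a := 103) 156 (by decide) (by decide),
      z0_even b (a := 2) 78 (by decide) (by decide),
      z0_even b (a := 14) 78 (by decide) (by decide),
      z0_odd b (a := 140) (k := 39) (by decide) (by decide) e39,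
      b0_three hMp hb ((by norm_num : 12 ∣ 156).trans hM)] at h1
    simpa using h1
  · have h1 := cur_list hb hM (p₀ := 131) (f := 2) (x := 1) (y := 3) (z := 152) (x' := 10)
      (y' := 147) (z' := 155) h (by norm_num) (by decide +kernel)
    simp only [List.map_cons, List.map_nil, List.sum_cons, List.sum_nil] at h1
    rw [z0_even b (a := 1) 156 (by decide) (by decide),
      z0_even b (a := 3) 52 (by decide) (by decide),
      z0_odd b (a := 152) (k := 39) (by decide) (by decide) e39,
      z0_even b (a := 10) 78 (by decide) (by decide),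
      z0_even b (a := 147) 52 (by decide) (by decide),
      z0_even b (a := 155) 156 (by decide) (by decide)] at h1
    simpa using h1
  · have h1 := cur_list hb hM (p₀ := 29) (f := 6) (x := 1) (y := 1) (z := 154) (x' := 4)
      (y' := 43) (z' := 109) h (by norm_num) (by decide +kernel)
    simp only [List.map_cons, List.map_nil, List.sum_cons, List.sum_nil] at h1
    rw [z0_even b (a := 1) 156 (by decide) (by decide),
      z0_even b (a := 154) 78 (by decide) (by decide),
      z0_odd b (a := 4) (k := 39) (by decide) (by decide) e39,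
      z0_even b (a := 43) 156 (by decide) (by decide),
      z0_even b (a := 109) 156 (by decide) (by decide)] at h1
    simpa using h1
  · have h1 := cur_list hb hM (p₀ := 107) (f := 6) (x := 1) (y := 1) (z := 154) (x' := 8)
      (y' := 53) (z' := 95) h (by norm_num) (by decide +kernel)
    simp only [List.map_cons, List.map_nil, List.sum_cons, List.sum_nil] at h1
    rw [z0_even b (a := 1) 156 (by decide) (by decide),
      z0_even b (a := 154) 78 (by decide) (by decide),
      z0_odd b (a := 8) (k := 39) (by decide) (by decide) e39,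
      z0_even b (a := 53) 156 (by decide) (by decide),
      z0_even b (a := 95) 156 (by decide) (by decide)] at h1
    simpa using h1
  · have h1 := cur_list hb hM (p₀ := 35) (f := 6) (x := 1) (y := 1) (z := 154) (x' := 8)
      (y' := 53) (z' := 95) h (by norm_num) (by decide +kernel)
    simp only [List.map_cons, List.map_nil, List.sum_cons, List.sum_nil] at h1
    rw [z0_even b (a := 1) 156 (by decide) (by decide),
      z0_even b (a := 154) 78 (by decide) (by decide),
      z0_odd b (a := 8) (k := 39) (by decide) (by decide) e39,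
      z0_even b (a := 53) 156 (by decide) (by decide),
      z0_even b (a := 95) 156 (by decide) (by decide)] at h1
    simpa using h1
  · have h1 := cur_list hb hM (p₀ := 113) (f := 6) (x := 1) (y := 1) (z := 154) (x' := 4)
      (y' := 43) (z' := 109) h (by norm_num) (by decide +kernel)
    simp only [List.map_cons, List.map_nil, List.sum_cons, List.sum_nil] at h1
    rw [z0_even b (a := 1) 156 (by decide) (by decide),
      z0_even b (a := 154) 78 (by decide) (by decide),
      z0_odd b (a := 4) (k := 39) (by decide) (by decide) e39,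
      z0_even b (a := 43) 156 (by decide) (by decide),
      z0_even b (a := 109) 156 (by decide) (by decide)] at h1
    simpa using h1

private theorem z4_cls : ∀ r < 13, r ≠ 0 →
    r ^ 3 % 13 = 1 ∨ (r ^ 3 + 1) % 13 = 0 ∨ (r ^ 6 + 1) % 13 = 0 := by
  decide

theorem cls_13 {p : ℕ} (h : Nat.Coprime 13 p) :
    p ^ 3 ≡ 1 [MOD 13] ∨ ∃ i : ℕ, 13 ∣ p ^ i + 1 := by
  have h0 : p % 13 ≠ 0 := fun h0 => by
    have := Nat.Coprime.eq_one_of_dvd h (Nat.dvd_of_mod_eq_zero h0)
    omega
  have hpow : ∀ i : ℕ, (p ^ i + 1) % 13 = ((p % 13) ^ i + 1) % 13 := fun i => by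
    rw [Nat.add_mod, Nat.pow_mod, Nat.add_mod ((p % 13) ^ i)]
  rcases z4_cls (p % 13) (Nat.mod_lt _ (by norm_num)) h0 with h1 | h1 | h1
  · left
    unfold Nat.ModEq
    rw [Nat.pow_mod, h1]
  · exact Or.inr ⟨3, Nat.dvd_of_mod_eq_zero (by rw [hpow, h1])⟩
  · exact Or.inr ⟨6, Nat.dvd_of_mod_eq_zero (by rw [hpow, h1])⟩

theorem main0_39 [Flag] (p : ℕ) (hp : p.Prime) (m : ℕ) [NeZero m] (hmp : m.Coprime p)
    (h4 : ¬ 4 ∣ m) (hpf : m.primeFactors ⊆ {2, 3, 13}) (S : Multiset (ZMod m))
    (h0 : (0 : ZMod m) ∉ S) (hc : Even S.card) (hs : S.sum = 0) (hT : TateN p S) :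
    Inf p m S 1 := by
  obtain ⟨M, hM0, B, _, b, hmM, hMp, hdM, hbb, b3, b5, am, hfin⟩ := ctx0 hp m hmp
  refine hfin S h0 hc hs hT (vl_terms b h0 fun V hV hne => ?_)
  have hpf' := pf_erase hpf
  have hVm := z2_sub hV
  have hVM : ∀ r ∈ V, r.Prime ∧ r ≠ 2 ∧ r ∣ M := fun r hr =>
    ⟨(hVm r hr).1, (hVm r hr).2.1, (hVm r hr).2.2.trans hmM⟩
  have hVp : ∀ r ∈ V, p ≠ r := fun r hr => z2_ne hp hmp (hVm r hr).2.2
  have h13pr : Nat.Prime 13 := by norm_num
  rcases sub_pair (hV.trans hpf') with rfl | rfl | rfl | rfl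
  · exact absurd hne not_nonempty_empty
  · rw [b3 (hVp 3 (mem_singleton_self 3)), smul_zero]
  · rcases cls_13 (z2_co hp h13pr (hVp 13 (mem_singleton_self 13))) with h | ⟨i, hi⟩
    · exact smul_even (hbb.two _) (n13_even hmp h4 hpf h h0 hT)
    · rw [am _ hne hVM ⟨i, by rw [prod_singleton]; exact hi⟩, smul_zero]
  · have h3 : p ≠ 3 := hVp 3 (by simp)
    have h13 : p ≠ 13 := hVp 13 (by simp)
    have hc13 := z2_co hp h13pr h13
    have hc39 : Nat.Coprime 39 p := (show Nat.Coprime (3 * 13) p from
      Nat.Coprime.mul_left (z2_co hp Nat.prime_three h3) hc13)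
    have hM13 : 13 ∣ M := (hVM 13 (by simp)).2.2
    rcases cls_39 hc39 with h | h | ⟨i, hi⟩
    · have h2 : p ≠ 2 := by
        rintro rfl
        exact absurd h (by decide)
      have h12 : 12 ∣ M := hdM 12 (by norm_num) (show Nat.Coprime (2 ^ 2 * 3) p from
        Nat.Coprime.mul_left (Nat.Coprime.pow_left 2 (z2_co hp Nat.prime_two h2))
          (z2_co hp Nat.prime_three h3))
      have h156 : 156 ∣ M := (show 12 * 13 ∣ M from
        (by norm_num : Nat.Coprime 12 13).mul_dvd_of_dvd_of_dvd h12 hM13)
      rcases cls_13 hc13 with h5 | ⟨i, hi⟩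
      · have h6 : (p % 39 % 13) ^ 3 % 13 = 1 := by
          rw [Nat.mod_mod_of_dvd p (by norm_num : 13 ∣ 39), ← Nat.pow_mod]
          exact h5
        rw [kil_39z hMp h156 hbb ?_, smul_zero]
        generalize p % 39 = k at h h6
        simp only [List.mem_cons, List.not_mem_nil, or_false] at h
        rcases h with rfl | rfl | rfl | rfl | rfl | rfl | rfl | rfl | rfl
        all_goals first
          | exact absurd h6 (by decide)
          | decide
      · have b13 : b {13} = 0 := am _ (singleton_nonempty 13) (z2_one h13pr (by norm_num) hM13)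
          ⟨i, by rw [prod_singleton]; exact hi⟩
        rw [kil_3_13 hMp h156 hbb (b3 h3) b13 h, smul_zero]
    · exact smul_even (hbb.two _) (even_pair hmp h0 hT (by norm_num) (by norm_num)
        (Subset.antisymm hpf' hV) h chi_two_39)
    · rw [am _ hne hVM ⟨i, by rw [prod_pair (by norm_num)]; exact hi⟩, smul_zero]

end Pool.Agent.FT
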