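import Pool.Agent.FT.Z0

/-!
# FT-ZT: a supersingular triple whose elements have even order

Let `p` be odd, `2 ^ s` the highest power of `2` dividing `p - 1` and `y` an element of order
`2 ^ (s + 2)`. Then `{y, y + 1/2, - 2 y + 1/2}` has sum zero, and it is a Tate character: the sum of
the representatives of `y` and `y + 1/2` is the one of `2 y`, plus `1/2`, and `p (2 y) = 2 y + 1/2`.
-/

set_option autoImplicit false

namespace Pool.Agent.FT

open Finset
open Pool.Agent.FS (IsHodge emb sw rr hb)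
open Pool.Agent.FQ (chiT QS nR PPr)

private theorem zt_per {m p f : ℕ} (hf : (p : ZMod m) ^ f = 1) (k : ℕ) (t : (ZMod m)ˣ)
    (S : Multiset (ZMod m)) :
    (S.map fun x => ∑ i ∈ range (f * k), ((p : ZMod m) ^ i * ((t : ZMod m) * x)).val).sum =
      k * (S.map fun x => ∑ i ∈ range f, ((p : ZMod m) ^ i * ((t : ZMod m) * x)).val).sum := by
  rw [← Multiset.sum_map_mul_left]
  refine congrArg Multiset.sum (Multiset.map_congr rfl fun x _ => ?_)
  refine sum_period _ _ (fun i => ?_) _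
  rw [pow_add, hf, one_mul]

theorem tate_add {m p : ℕ} {S T : Multiset (ZMod m)} (hS : TateN p S) (hT : TateN p T) :
    TateN p (S + T) := by
  obtain ⟨f, hf0, hf, hS⟩ := hS
  obtain ⟨g, hg0, hg, hT⟩ := hT
  refine ⟨f * g, Nat.mul_pos hf0 hg0, by rw [pow_mul, hf, one_pow], fun t => ?_⟩
  rw [Multiset.map_add, Multiset.sum_add, Multiset.card_add, mul_add, zt_per hf g t S]
  have h1 := zt_per hg f t T
  rw [mul_comm g f] at h1
  rw [h1]
  have h2 := hS t
  have h3 := hT t
  calc 2 * (g * (S.map fun x => ∑ i ∈ range f, ((p : ZMod m) ^ i * ((t : ZMod m) * x)).val).sum) +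
      2 * (f * (T.map fun x => ∑ i ∈ range g, ((p : ZMod m) ^ i * ((t : ZMod m) * x)).val).sum)
      = g * (2 * (S.map fun x => ∑ i ∈ range f, ((p : ZMod m) ^ i * ((t : ZMod m) * x)).val).sum) +
        f * (2 * (T.map fun x => ∑ i ∈ range g, ((p : ZMod m) ^ i * ((t : ZMod m) * x)).val).sum) := by
        ring
    _ = m * (f * g) * (S.card + T.card) := by
        rw [h2, h3]
        ring

theorem val_half {M : ℕ} [NeZero M] (h2 : 2 ∣ M) (z : ZMod M) :
    2 * z.val + 2 * (z + ((M / 2 : ℕ) : ZMod M)).val = 2 * (z + z).val + M := by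
  obtain ⟨k, hk⟩ := h2
  have hM0 : M ≠ 0 := NeZero.ne M
  have hk0 : 0 < k := Nat.pos_of_ne_zero (by rintro rfl; exact hM0 (by rw [hk]))
  have hdiv : M / 2 = k := by omega
  have hv : (((M / 2 : ℕ) : ZMod M)).val = k := by
    rw [hdiv]
    exact ZMod.val_cast_of_lt (by omega)
  have hz := ZMod.val_lt z
  rw [ZMod.val_add z ((M / 2 : ℕ) : ZMod M), hv, ZMod.val_add z z]
  rcases lt_or_ge z.val k with h | h
  · rw [Nat.mod_eq_of_lt (by omega), Nat.mod_eq_of_lt (by omega)]
    omega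
  · have e1 : (z.val + k) % M = z.val + k - M := by
      rw [Nat.mod_eq_sub_mod (by omega), Nat.mod_eq_of_lt (by omega)]
    have e2 : (z.val + z.val) % M = z.val + z.val - M := by
      rw [Nat.mod_eq_sub_mod (by omega), Nat.mod_eq_of_lt (by omega)]
    rw [e1, e2]
    omega

/-- units do not change the element of order two -/
theorem unit_half {M : ℕ} [NeZero M] (h2 : 2 ∣ M) (u : (ZMod M)ˣ) :
    (u : ZMod M) * ((M / 2 : ℕ) : ZMod M) = ((M / 2 : ℕ) : ZMod M) := by
  have h1 : Nat.Coprime (u : ZMod M).val M := ZMod.val_coe_unit_coprime u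
  have h3 : (u : ZMod M).val % 2 = 1 := by
    rcases Nat.mod_two_eq_zero_or_one (u : ZMod M).val with h | h
    · exfalso
      have h4 := Nat.dvd_gcd (Nat.dvd_of_mod_eq_zero h) h2
      rw [h1] at h4
      omega
    · exact h
  obtain ⟨k, hk⟩ := h2
  have hdiv : M / 2 = k := by omega
  have h5 : (u : ZMod M) = (((u : ZMod M).val : ℕ) : ZMod M) := (ZMod.natCast_zmod_val _).symm
  have h6 : (u : ZMod M).val = 2 * ((u : ZMod M).val / 2) + 1 := by omega
  rw [h5, h6, hdiv]
  have h7 : ((2 * ((u : ZMod M).val / 2) + 1 : ℕ) : ZMod M) * (k : ZMod M) =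
      (((u : ZMod M).val / 2 : ℕ) : ZMod M) * ((2 * k : ℕ) : ZMod M) + k := by
    push_cast
    ring
  rw [h7, ← hk, ZMod.natCast_self, mul_zero, zero_add]

theorem half_two {M : ℕ} (h2 : 2 ∣ M) :
    ((M / 2 : ℕ) : ZMod M) + ((M / 2 : ℕ) : ZMod M) = 0 := by
  obtain ⟨k, hk⟩ := h2
  have hdiv : M / 2 = k := by omega
  rw [hdiv, ← two_mul]
  have h1 : (2 : ZMod M) * (k : ZMod M) = ((2 * k : ℕ) : ZMod M) := by push_cast; rfl
  rw [h1, ← hk, ZMod.natCast_self]

theorem half_ne {M : ℕ} [NeZero M] (h2 : 2 ∣ M) : ((M / 2 : ℕ) : ZMod M) ≠ 0 := by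
  intro h
  rw [ZMod.natCast_eq_zero_iff] at h
  have hM0 : M ≠ 0 := NeZero.ne M
  obtain ⟨k, hk⟩ := h2
  have h3 := Nat.le_of_dvd (by omega) h
  omega

section

variable {M p : ℕ} [NeZero M] (hMp : M.Coprime p) (h2 : 2 ∣ M) {y : ZMod M}
  (hy : (p : ZMod M) * (y + y) = y + y + ((M / 2 : ℕ) : ZMod M)) (hy0 : y + y ≠ 0)

include hMp h2 hy hy0

theorem t4_ne : y + ((M / 2 : ℕ) : ZMod M) ≠ 0 ∧ -(y + y) + ((M / 2 : ℕ) : ZMod M) ≠ 0 := by
  have hh := half_two h2
  constructor
  · intro h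
    apply hy0
    have h1 : y + y = (y + ((M / 2 : ℕ) : ZMod M)) + (y + ((M / 2 : ℕ) : ZMod M)) -
        (((M / 2 : ℕ) : ZMod M) + ((M / 2 : ℕ) : ZMod M)) := by ring
    rw [h1, h, hh]
    ring
  · intro h
    have h1 : y + y = ((M / 2 : ℕ) : ZMod M) := (neg_add_eq_zero.1 h)
    rw [h1, hh] at hy
    have hu : IsUnit (p : ZMod M) := (ZMod.isUnit_iff_coprime p M).2 hMp.symm
    exact half_ne h2 (hu.mul_right_eq_zero.1 hy)

theorem t4_tate :
    TateN p ({y, y + ((M / 2 : ℕ) : ZMod M), -(y + y) + ((M / 2 : ℕ) : ZMod M)} :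
      Multiset (ZMod M)) := by
  have hu : IsUnit (p : ZMod M) := (ZMod.isUnit_iff_coprime p M).2 hMp.symm
  obtain ⟨n1, n2⟩ := t4_ne hMp h2 hy hy0
  set h : ZMod M := ((M / 2 : ℕ) : ZMod M) with hh
  obtain ⟨q, hq⟩ := hu
  have hf0 : 0 < orderOf (p : ZMod M) := by
    rw [← hq, orderOf_units]
    exact orderOf_pos q
  refine ⟨orderOf (p : ZMod M), hf0, pow_orderOf_eq_one _, fun t => ?_⟩
  set f := orderOf (p : ZMod M) with hf
  -- the terms
  set g : ℕ → ℕ := fun i => ((p : ZMod M) ^ i * ((t : ZMod M) * (y + y))).val with hg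
  have hstep : ∀ i, 2 * (((p : ZMod M) ^ i * ((t : ZMod M) * y)).val +
      (((p : ZMod M) ^ i * ((t : ZMod M) * (y + h))).val +
        ((p : ZMod M) ^ i * ((t : ZMod M) * (-(y + y) + h))).val)) + 2 * g (i + 1) =
      2 * g i + 3 * M := by
    intro i
    have hph : (p : ZMod M) ^ i * ((t : ZMod M) * h) = h := by
      have h3 := unit_half h2 (q ^ i * t)
      rw [Units.val_mul, Units.val_pow_eq_pow_val, hq, ← hh] at h3
      rw [← mul_assoc]
      exact h3
    set Y : ZMod M := (p : ZMod M) ^ i * ((t : ZMod M) * y) with hY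
    have e1 : (p : ZMod M) ^ i * ((t : ZMod M) * (y + h)) = Y + h := by
      rw [mul_add, mul_add, hph]
    have e2 : (p : ZMod M) ^ i * ((t : ZMod M) * (y + y)) = Y + Y := by
      rw [mul_add, mul_add]
    have e3 : (p : ZMod M) ^ (i + 1) * ((t : ZMod M) * (y + y)) = Y + Y + h := by
      calc (p : ZMod M) ^ (i + 1) * ((t : ZMod M) * (y + y))
          = (p : ZMod M) ^ i * ((t : ZMod M) * ((p : ZMod M) * (y + y))) := by ring
        _ = (p : ZMod M) ^ i * ((t : ZMod M) * (y + y)) + (p : ZMod M) ^ i * ((t : ZMod M) * h) := by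
            rw [hy]
            ring
        _ = Y + Y + h := by rw [e2, hph]
    have e4 : (p : ZMod M) ^ i * ((t : ZMod M) * (-(y + y) + h)) = -(Y + Y + h) := by
      have h5 : (p : ZMod M) ^ i * ((t : ZMod M) * (-(y + y) + h)) =
          -((p : ZMod M) ^ i * ((t : ZMod M) * (y + y))) +
            (p : ZMod M) ^ i * ((t : ZMod M) * h) := by ring
      have h6 : h = -h := eq_neg_of_add_eq_zero_left (half_two h2)
      rw [h5, e2, hph, neg_add (Y + Y) h, ← h6]
    have h7 : Y + Y + h ≠ 0 := by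
      intro h8
      have h9 : (p : ZMod M) ^ i * ((t : ZMod M) * (-(y + y) + h)) = 0 := by
        rw [e4, h8, neg_zero]
      have h10 : IsUnit ((p : ZMod M) ^ i) := by
        rw [← hq]
        exact (q.isUnit).pow i
      exact n2 (t.isUnit.mul_right_eq_zero.1 (h10.mul_right_eq_zero.1 h9))
    have h11 := val_half h2 Y
    rw [← hh] at h11
    have h12 : (-(Y + Y + h)).val + (Y + Y + h).val = M := by
      rw [ZMod.neg_val, if_neg h7]
      have := ZMod.val_lt (Y + Y + h)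
      omega
    simp only [hg]
    rw [e1, e2, e3, e4]
    omega
  have hsum : ∑ i ∈ range f, g (i + 1) = ∑ i ∈ range f, g i := by
    have h3 := sum_range_succ g f
    have h4 := sum_range_succ' g f
    have h5 : g f = g 0 := by
      simp only [hg]
      rw [hf, pow_orderOf_eq_one, pow_zero]
    omega
  have htot : ∑ i ∈ range f, (2 * (((p : ZMod M) ^ i * ((t : ZMod M) * y)).val +
      (((p : ZMod M) ^ i * ((t : ZMod M) * (y + h))).val +
        ((p : ZMod M) ^ i * ((t : ZMod M) * (-(y + y) + h))).val)) + 2 * g (i + 1)) =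
      ∑ i ∈ range f, (2 * g i + 3 * M) := sum_congr rfl fun i _ => hstep i
  rw [sum_add_distrib, sum_add_distrib, ← mul_sum, ← mul_sum, ← mul_sum, hsum, sum_add_distrib,
    sum_add_distrib, sum_const, card_range, smul_eq_mul] at htot
  simp only [Multiset.insert_eq_cons, Multiset.map_cons, Multiset.map_singleton,
    Multiset.sum_cons, Multiset.sum_singleton, Multiset.card_cons, Multiset.card_singleton]
  have e : M * f * (1 + 1 + 1) = f * (3 * M) := by ring
  rw [e]
  omega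

end

theorem vl_pow2 {B : Type} [AddCommGroup B] (b : Finset ℕ → B) {M k : ℕ} {z : ZMod M}
    (hz : z ≠ 0) (hk : (2 ^ k) • z = 0) : vl b z = 0 := by
  refine vl_even ?_
  have h1 : addOrderOf z ∣ 2 ^ k := addOrderOf_dvd_of_nsmul_eq_zero hk
  obtain ⟨j, _, hj⟩ := (Nat.dvd_prime_pow Nat.prime_two).1 h1
  rw [hj]
  have h2 : j ≠ 0 := by
    rintro rfl
    rw [pow_zero, AddMonoid.addOrderOf_eq_one_iff] at hj
    exact hz hj
  exact (even_two.pow_of_ne_zero h2)

/-- sets of primes modulo which a power of `p` is `-1` -/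
theorem bb_t4 [Flag] {p : ℕ} (hp : p.Prime) (hp2 : p ≠ 2) {M : ℕ} [NeZero M] (hMp : M.Coprime p)
    (hM : 2 ^ ((p - 1).factorization 2 + 2) ∣ M) {B : Type} [AddCommGroup B] {b : Finset ℕ → B}
    (hb : BB p M b) {V : Finset ℕ} (hne : V.Nonempty)
    (hV : ∀ r ∈ V, r.Prime ∧ r ≠ 2 ∧ r ∣ M) {i : ℕ} (hi : ∏ r ∈ V, r ∣ p ^ i + 1) : b V = 0 := by
  set s := (p - 1).factorization 2 with hs
  have h2 : 2 ∣ M := (dvd_pow_self 2 (by omega)).trans hM
  have hM0 : 0 < M := Nat.pos_of_ne_zero (NeZero.ne M)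
  have hh := half_two h2
  -- the element of order `2 ^ (s + 2)`
  obtain ⟨y, hy⟩ : ∃ y : ZMod M, addOrderOf y = 2 ^ (s + 2) := ⟨_, order_div hM⟩
  have y2 : addOrderOf (y + y) = 2 ^ (s + 1) := by
    rw [← two_nsmul, addOrderOf_nsmul' y two_ne_zero, hy,
      Nat.gcd_eq_right (dvd_pow_self 2 (by omega)), pow_succ, Nat.mul_div_cancel _ (by norm_num)]
  have hy0 : y + y ≠ 0 := by
    intro h
    rw [h, addOrderOf_zero] at y2
    have h3 : 1 < 2 ^ (s + 1) := Nat.one_lt_two_pow (by omega)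
    omega
  have yn : y ≠ 0 := by
    rintro rfl
    exact hy0 (add_zero 0)
  -- the element of order two
  have hhalf : ∀ z : ZMod M, z ≠ 0 → z + z = 0 → z = ((M / 2 : ℕ) : ZMod M) := by
    intro z hz hzz
    have h3 : ((2 * z.val : ℕ) : ZMod M) = 0 := by
      push_cast
      rw [ZMod.natCast_zmod_val, two_mul]
      exact hzz
    rw [ZMod.natCast_eq_zero_iff] at h3
    obtain ⟨c, hc⟩ := h3
    have h4 := ZMod.val_lt z
    have h5 : z.val ≠ 0 := by rwa [ne_eq, ZMod.val_eq_zero]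
    have h6 : c = 1 := by
      have h7 : M * c < M * 2 := by omega
      have h8 := Nat.lt_of_mul_lt_mul_left h7
      have h9 : c ≠ 0 := by
        rintro rfl
        omega
      omega
    rw [h6, mul_one] at hc
    have h7 : z.val = M / 2 := by omega
    rw [← h7, ZMod.natCast_zmod_val]
  have hpy : (p : ZMod M) * (y + y) = y + y + ((M / 2 : ℕ) : ZMod M) := by
    have hp1 : p - 1 ≠ 0 := by
      have := hp.two_le
      omega
    have h3 : ordProj[2] (p - 1) * ordCompl[2] (p - 1) = p - 1 :=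
      Nat.ordProj_mul_ordCompl_eq_self _ _
    rw [← hs] at h3
    have h4 : ¬ 2 ∣ ordCompl[2] (p - 1) := Nat.not_dvd_ordCompl Nat.prime_two hp1
    rw [← hs] at h4
    set c := (p - 1) / 2 ^ s with hc
    have h5 : (2 ^ s) • (y + y) = ((M / 2 : ℕ) : ZMod M) := by
      refine hhalf _ ?_ ?_
      · intro h
        have h6 := addOrderOf_dvd_of_nsmul_eq_zero h
        rw [y2] at h6
        have h7 := Nat.le_of_dvd (by positivity) h6
        have h8 : 2 ^ s < 2 ^ (s + 1) := Nat.pow_lt_pow_right (by norm_num) (by omega)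
        omega
      · rw [← two_nsmul, ← mul_smul]
        have h6 : 2 * 2 ^ s = 2 ^ (s + 1) := by ring
        rw [h6, ← y2]
        exact addOrderOf_nsmul_eq_zero _
    have h6 : (p : ZMod M) = ((2 ^ s * c : ℕ) : ZMod M) + 1 := by
      have h7 : p = 2 ^ s * c + 1 := by
        have := hp.two_le
        omega
      conv_lhs => rw [h7]
      push_cast
      rfl
    have h7 : (c : ZMod M) * ((M / 2 : ℕ) : ZMod M) = ((M / 2 : ℕ) : ZMod M) := by
      have h8 : c = 2 * (c / 2) + 1 := by omega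
      rw [h8]
      push_cast
      have h9 : (2 * ((c / 2 : ℕ) : ZMod M) + 1) * ((M / 2 : ℕ) : ZMod M) =
          ((c / 2 : ℕ) : ZMod M) * (((M / 2 : ℕ) : ZMod M) + ((M / 2 : ℕ) : ZMod M)) +
            ((M / 2 : ℕ) : ZMod M) := by ring
      rw [h9, hh, mul_zero, zero_add]
    rw [h6, add_mul, one_mul, add_comm]
    congr 1
    have h8 : ((2 ^ s * c : ℕ) : ZMod M) * (y + y) = (c : ZMod M) * ((2 ^ s) • (y + y)) := by
      rw [nsmul_eq_mul]
      push_cast
      ring
    rw [h8, h5, h7]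
  obtain ⟨n1, n2⟩ := t4_ne hMp h2 hpy hy0
  have hTT := t4_tate hMp h2 hpy hy0
  have hpw : ∀ z : ZMod M, (2 ^ (s + 2)) • z = 0 → z ≠ 0 → vl b z = 0 := fun z h3 h4 =>
    vl_pow2 b h4 h3
  have k1 : (2 ^ (s + 2)) • y = 0 := by rw [← hy]; exact addOrderOf_nsmul_eq_zero y
  have k2 : (2 ^ (s + 2)) • ((M / 2 : ℕ) : ZMod M) = 0 := by
    have h3 : 2 ^ (s + 2) = 2 ^ (s + 1) * 2 := pow_succ _ _
    rw [h3, mul_smul, two_nsmul, hh, smul_zero]
  have v1 := hpw y k1 yn
  have v2 := hpw _ (by rw [smul_add, k1, k2, add_zero]) n1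
  have v3 := hpw _ (by rw [smul_add, smul_neg, smul_add, k1, k2]; simp) n2
  -- the supersingular triple of `V`
  obtain ⟨x, x1, x2, x3, x4, x5⟩ := bb_elt b hne hV
  have e1 : (p : ZMod M) ^ i * x = -x := bb_sup hi x5
  have e2 : (p : ZMod M) ^ i * (-(x + x)) = -(-(x + x)) := by
    refine bb_sup hi ?_
    rw [smul_neg, smul_add, x5, add_zero, neg_zero]
  have hTx : TateN p ({x, x, -(x + x)} : Multiset (ZMod M)) := by
    refine tate_sup hMp ?_ fun w hw => ?_
    · intro h0
      simp only [Multiset.insert_eq_cons, Multiset.mem_cons, Multiset.mem_singleton] at h0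
      rcases h0 with h0 | h0 | h0
      · exact x1 h0.symm
      · exact x1 h0.symm
      · exact neg_ne_zero.2 x2 h0.symm
    · simp only [Multiset.insert_eq_cons, Multiset.mem_cons, Multiset.mem_singleton] at hw
      rcases hw with rfl | rfl | rfl
      · exact ⟨i, e1⟩
      · exact ⟨i, e1⟩
      · exact ⟨i, e2⟩
  have hT := tate_add hTx hTT
  have e : ({x, x, -(x + x)} : Multiset (ZMod M)) +
      {y, y + ((M / 2 : ℕ) : ZMod M), -(y + y) + ((M / 2 : ℕ) : ZMod M)} =
      {x, x, -(x + x), y, y + ((M / 2 : ℕ) : ZMod M), -(y + y) + ((M / 2 : ℕ) : ZMod M)} := by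
    simp only [Multiset.insert_eq_cons, Multiset.cons_add, Multiset.singleton_add]
  rw [e] at hT
  have hsum : y + (y + ((M / 2 : ℕ) : ZMod M)) + (-(y + y) + ((M / 2 : ℕ) : ZMod M)) = 0 := by
    have h3 : y + (y + ((M / 2 : ℕ) : ZMod M)) + (-(y + y) + ((M / 2 : ℕ) : ZMod M)) =
        ((M / 2 : ℕ) : ZMod M) + ((M / 2 : ℕ) : ZMod M) := by ring
    rw [h3, hh]
  have h1 := hb.alg M (dvd_refl M) _ (Alg.curves x x (-(x + x)) y (y + ((M / 2 : ℕ) : ZMod M))
    (-(y + y) + ((M / 2 : ℕ) : ZMod M)) x1 x1 (neg_ne_zero.2 x2) yn n1 n2 (by ring) hsum hT) hT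
  simp only [Multiset.insert_eq_cons, Multiset.map_cons, Multiset.map_singleton,
    Multiset.sum_cons, Multiset.sum_singleton, x3, x4, v1, v2, v3, add_zero] at h1
  have h2 := hb.two V
  rw [two_nsmul] at h2
  rwa [h2, add_zero] at h1

end Pool.Agent.FT
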